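import Pool.Agent.Helper65.PT.Defs

set_option autoImplicit false

open MeasureTheory ProbabilityTheory Pool.H65.PS

namespace Pool.H65.PT

theorem Cam_one (v : ℝ) : (gaussianReal 0 1).map (· + v)
    = (gaussianReal 0 1).withDensity (fun t => ENNReal.ofReal (Real.exp (v * t - v * v / 2))) := by
  rw [gaussianReal_map_add_const, zero_add, gaussianReal_of_var_ne_zero _ one_ne_zero,
    gaussianReal_of_var_ne_zero _ one_ne_zero, ← withDensity_mul _ (measurable_gaussianPDF _ _)
      (by fun_prop)]
  congr 1
  funext t
  simp only [Pi.mul_apply, gaussianPDF]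
  rw [← ENNReal.ofReal_mul (gaussianPDFReal_nonneg _ _ _)]
  congr 1
  simp only [gaussianPDFReal_def]
  rw [mul_assoc _ (Real.exp _) (Real.exp _), ← Real.exp_add]
  congr 2
  simp
  ring

theorem Cam_int (v : ℝ) : Integrable (fun t => Real.exp (v * t - v * v / 2)) (gaussianReal 0 1) := by
  have h : Integrable (fun t => Real.exp (v * t)) (gaussianReal 0 1) :=
    integrable_exp_mul_gaussianReal v
  have h2 := h.mul_const (Real.exp (-(v * v / 2)))
  refine h2.congr (Filter.Eventually.of_forall fun t => ?_)
  simp only
  rw [← Real.exp_add]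
  congr 1

theorem gam_map_add {κ : Type} [Fintype κ] (v : κ → ℝ) :
    (gam κ).map (fun x => x + v)
      = (gam κ).withDensity (fun x => ENNReal.ofReal (Real.exp (dot v x - dot v v / 2))) := by
  have h1 : (gam κ).map (fun x => x + v)
      = Measure.pi (fun i => (gaussianReal 0 1).map (· + v i)) := by
    unfold gam
    have : ∀ i, IsProbabilityMeasure ((gaussianReal 0 1).map (· + v i)) := fun i => by
      rw [gaussianReal_map_add_const]; infer_instance
    exact Measure.pi_map_pi (μ := fun _ : κ => gaussianReal 0 1) (f := fun i t => t + v i)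
      (fun i => by fun_prop)
  rw [h1]
  have : ∀ i, IsProbabilityMeasure ((gaussianReal 0 1).map (· + v i)) := fun i => by
    rw [gaussianReal_map_add_const]; infer_instance
  refine Measure.pi_eq fun s hs => ?_
  rw [withDensity_apply _ (MeasurableSet.univ_pi hs), ← lintegral_indicator (MeasurableSet.univ_pi hs)]
  have e1 : ∀ x : κ → ℝ, (Set.univ.pi s).indicator
      (fun x => ENNReal.ofReal (Real.exp (dot v x - dot v v / 2))) x
      = ENNReal.ofReal (∏ i, (s i).indicator (fun t => Real.exp (v i * t - v i * v i / 2)) (x i)) := by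
    intro x
    by_cases hx : x ∈ Set.univ.pi s
    · rw [Set.indicator_of_mem hx]
      have : ∀ i, (s i).indicator (fun t => Real.exp (v i * t - v i * v i / 2)) (x i)
          = Real.exp (v i * x i - v i * v i / 2) := fun i =>
        Set.indicator_of_mem (hx i (Set.mem_univ i)) _
      simp_rw [this]
      rw [← Real.exp_sum, Finset.sum_sub_distrib, ← Finset.sum_div]
      rfl
    · rw [Set.indicator_of_notMem hx]
      have : ∃ i, x i ∉ s i := by
        by_contra hc
        push Not at hc
        exact hx (fun i _ => hc i)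
      obtain ⟨i, hi⟩ := this
      rw [Finset.prod_eq_zero (Finset.mem_univ i) (Set.indicator_of_notMem hi _)]
      simp
  simp_rw [e1]
  have hint : ∀ i, Integrable ((s i).indicator (fun t => Real.exp (v i * t - v i * v i / 2)))
      (gaussianReal 0 1) := fun i => (Cam_int (v i)).indicator (hs i)
  have hnn : ∀ i t, 0 ≤ (s i).indicator (fun t => Real.exp (v i * t - v i * v i / 2)) t :=
    fun i t => Set.indicator_nonneg (fun _ _ => (Real.exp_pos _).le) t
  unfold gam
  rw [← ofReal_integral_eq_lintegral_ofReal (Integrable.fintype_prod hint)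
    (Filter.Eventually.of_forall fun x => Finset.prod_nonneg fun i _ => hnn i (x i)),
    integral_fintype_prod_eq_prod, ENNReal.ofReal_prod_of_nonneg
      (fun i _ => integral_nonneg (hnn i))]
  refine Finset.prod_congr rfl fun i _ => ?_
  rw [Cam_one, withDensity_apply _ (hs i), ofReal_integral_eq_lintegral_ofReal (hint i)
    (Filter.Eventually.of_forall (hnn i)), ← lintegral_indicator (hs i)]
  refine lintegral_congr fun t => ?_
  by_cases ht : t ∈ s i
  · simp [ht]
  · simp [ht]

theorem cameron_martin {κ : Type} [Fintype κ] (v : κ → ℝ) (F : (κ → ℝ) → ℝ) (hF : Measurable F) :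
    ∫ x, F (x + v) ∂(gam κ) = ∫ x, Real.exp (dot v x - dot v v / 2) * F x ∂(gam κ) := by
  have hd : Measurable (fun x : κ → ℝ => ENNReal.ofReal (Real.exp (dot v x - dot v v / 2))) := by
    unfold dot
    fun_prop
  have h := integral_map (μ := gam κ) (φ := fun x => x + v) (f := F) (by fun_prop)
    hF.aestronglyMeasurable
  rw [← h, gam_map_add, integral_withDensity_eq_integral_toReal_smul hd
    (Filter.Eventually.of_forall fun x => ENNReal.ofReal_lt_top)]
  refine integral_congr_ae (Filter.Eventually.of_forall fun x => ?_)
  simp only [smul_eq_mul]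
  rw [ENNReal.toReal_ofReal (Real.exp_pos _).le]

end Pool.H65.PT
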