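import Pool.Agent.Helper65.PT.Defs
import Pool.Agent.Helper65.PS.Smx
import Pool.Agent.Helper65.PS.Emx

set_option autoImplicit false

open MeasureTheory ProbabilityTheory Pool.H65.PS

namespace Pool.H65.PT

section pmo

variable {m : ℕ}

theorem Pmo_measurableSet (j : Fin m) :
    MeasurableSet {x : Fin m → ℝ | ∀ l, l ≠ j → x l < x j} := by
  have : {x : Fin m → ℝ | ∀ l, l ≠ j → x l < x j}
      = ⋂ l : Fin m, ⋂ _ : l ≠ j, {x : Fin m → ℝ | x l < x j} := by
    ext x
    simp
  rw [this]
  refine MeasurableSet.iInter fun l => MeasurableSet.iInter fun _ => ?_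
  exact measurableSet_lt (measurable_pi_apply l) (measurable_pi_apply j)

theorem cellF_measurable (j : Fin m) : Measurable (cellF j) := by
  unfold cellF
  exact Measurable.ite (Pmo_measurableSet j) measurable_const measurable_const

theorem cellF_nonneg (j : Fin m) (x : Fin m → ℝ) : 0 ≤ cellF j x := by
  unfold cellF
  split_ifs
  · exact zero_le_one
  · exact le_rfl

theorem cellF_le_one (j : Fin m) (x : Fin m → ℝ) : cellF j x ≤ 1 := by
  unfold cellF
  split_ifs
  · exact le_rfl
  · exact zero_le_one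

/-- ties are null sets -/
theorem Pmo_tie_null (j l : Fin m) (h : j ≠ l) : gam (Fin m) {x | x j = x l} = 0 := by
  classical
  let W : Fin m → Unit → ℝ := fun i _ => (if i = j then 1 else 0) - (if i = l then 1 else 0)
  let W' : Unit → Unit → ℝ := fun _ _ => Real.sqrt 2
  have hcov : ∀ a b, ∑ i, W i a * W i b = ∑ i, W' i a * W' i b := by
    intro a b
    have e1 : ∀ i : Fin m, W i a * W i b
        = (if i = j then 1 else 0) + (if i = l then (1 : ℝ) else 0) := by
      intro i
      simp only [W]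
      by_cases h1 : i = j
      · have h2 : i ≠ l := fun e => h (h1.symm.trans e)
        simp only [h1, if_true]
        rw [h1] at h2
        simp [h2]
      · by_cases h2 : i = l
        · have h3 : ¬ (l = j) := fun e => h e.symm
          simp [h2, h3]
        · simp [h1, h2]
    rw [Finset.sum_congr rfl (fun i _ => e1 i), Finset.sum_add_distrib]
    simp only [W', Finset.univ_unique, Finset.sum_const, Finset.card_singleton, one_smul]
    rw [Real.mul_self_sqrt (by norm_num)]
    simp
    norm_num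
  have hmap := map_lin_eq W W' hcov
  have hS : MeasurableSet {y : Unit → ℝ | y () = 0} :=
    measurableSet_eq_fun (measurable_pi_apply ()) measurable_const
  have h1 : gam (Fin m) {x | x j = x l} = ((gam (Fin m)).map (lin W)) {y : Unit → ℝ | y () = 0} := by
    rw [Measure.map_apply (Smx.continuous_lin W).measurable hS]
    congr 1
    ext x
    simp only [Set.mem_setOf_eq, Set.mem_preimage, lin, Finset.sum_apply, Pi.smul_apply,
      smul_eq_mul, W, mul_sub, Finset.sum_sub_distrib, mul_ite, mul_one, mul_zero,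
      Finset.sum_ite_eq', Finset.mem_univ, if_true]
    exact sub_eq_zero.symm
  rw [h1, hmap, Measure.map_apply (Smx.continuous_lin W').measurable hS]
  have h2 : lin W' ⁻¹' {y : Unit → ℝ | y () = 0} = {g : Unit → ℝ | g () = 0} := by
    ext g
    simp only [Set.mem_setOf_eq, Set.mem_preimage, lin, Finset.sum_apply, Pi.smul_apply,
      smul_eq_mul, W', Fintype.sum_unique]
    show g () * Real.sqrt 2 = 0 ↔ g () = 0
    constructor
    · intro h
      rcases mul_eq_zero.1 h with h | h
      · exact h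
      · exact absurd h (by positivity)
    · intro h
      show g () * Real.sqrt 2 = 0
      rw [h, zero_mul]
  rw [h2]
  have : NullSingletonClass (gaussianReal 0 1) := nullSingletonClass_gaussianReal one_ne_zero
  exact Measure.pi_hyperplane (fun _ : Unit => gaussianReal 0 1) () 0

/-- almost surely all coordinates are distinct -/
theorem Pmo_ae_inj : ∀ᵐ x ∂(gam (Fin m)), Function.Injective x := by
  have h : ∀ᵐ x ∂(gam (Fin m)), ∀ j l : Fin m, j ≠ l → x j ≠ x l := by
    rw [ae_all_iff]
    intro j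
    rw [ae_all_iff]
    intro l
    by_cases hjl : j = l
    · exact Filter.Eventually.of_forall fun x h => absurd hjl h
    · have h0 := Pmo_tie_null j l hjl
      have h1 : ∀ᵐ x ∂(gam (Fin m)), ¬ (x j = x l) := by
        rw [ae_iff]
        simpa using h0
      filter_upwards [h1] with x hx _
      exact hx
  filter_upwards [h] with x hx
  intro j l hjl
  by_contra hne
  exact hx j l hne hjl

/-- almost surely there is a strict maximum -/
theorem ae_strict_max (hm : 1 ≤ m) :
    ∀ᵐ x ∂(gam (Fin m)), ∃ j : Fin m, ∀ l, l ≠ j → x l < x j := by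
  filter_upwards [Pmo_ae_inj] with x hx
  have : Nonempty (Fin m) := ⟨⟨0, hm⟩⟩
  obtain ⟨j, hj⟩ := Finite.exists_max x
  refine ⟨j, fun l hl => ?_⟩
  exact lt_of_le_of_ne (hj l) (fun e => hl (hx e))

theorem Pmo_sum_of_strict {x : Fin m → ℝ} {j : Fin m} (hj : ∀ l, l ≠ j → x l < x j)
    (F : Fin m → ℝ) : ∑ l, cellF l x * F l = F j := by
  rw [Finset.sum_eq_single j]
  · unfold cellF
    rw [if_pos hj, one_mul]
  · intro l _ hl
    unfold cellF
    rw [if_neg, zero_mul]
    intro h
    exact absurd (h j (Ne.symm hl)) (not_lt.2 (hj l hl).le)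
  · intro h
    exact absurd (Finset.mem_univ _) h

theorem cellF_sum_ae (hm : 1 ≤ m) : ∀ᵐ x ∂(gam (Fin m)), ∑ j, cellF j x = 1 := by
  filter_upwards [ae_strict_max hm] with x hx
  obtain ⟨j, hj⟩ := hx
  have := Pmo_sum_of_strict hj (fun _ => 1)
  simpa using this

/-- permutations of the coordinates preserve the Gaussian measure -/
theorem Pmo_perm (σ : Equiv.Perm (Fin m)) :
    MeasurePreserving (fun (x : Fin m → ℝ) (i : Fin m) => x (σ i)) (gam (Fin m)) (gam (Fin m)) := by
  have h := measurePreserving_piCongrLeft (fun _ : Fin m => gaussianReal 0 1) σ.symm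
  have e : (fun (x : Fin m → ℝ) (i : Fin m) => x (σ i))
      = MeasurableEquiv.piCongrLeft (fun _ : Fin m => ℝ) σ.symm := by
    funext x i
    have := Equiv.piCongrLeft_apply_apply (fun _ : Fin m => ℝ) σ.symm x (σ i)
    simp only [Equiv.symm_apply_apply] at this
    exact this.symm
  rw [e]
  exact h

theorem Pmo_cell_perm (σ : Equiv.Perm (Fin m)) (j : Fin m) (x : Fin m → ℝ) :
    cellF j (fun i => x (σ i)) = cellF (σ j) x := by
  unfold cellF
  have : (∀ l, l ≠ j → x (σ l) < x (σ j)) ↔ ∀ l, l ≠ σ j → x l < x (σ j) := by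
    constructor
    · intro h l hl
      have := h (σ.symm l) (fun e => hl (by rw [← e, Equiv.apply_symm_apply]))
      rwa [Equiv.apply_symm_apply] at this
    · intro h l hl
      exact h (σ l) (fun e => hl (σ.injective e))
  by_cases h : ∀ l, l ≠ j → x (σ l) < x (σ j)
  · rw [if_pos h, if_pos (this.1 h)]
  · rw [if_neg h, if_neg (fun h' => h (this.2 h'))]

theorem Pmo_int_cell (j : Fin m) : Integrable (cellF j) (gam (Fin m)) := by
  refine Integrable.of_bound (cellF_measurable j).aestronglyMeasurable 1 ?_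
  refine Filter.Eventually.of_forall fun x => ?_
  rw [Real.norm_eq_abs, abs_of_nonneg (cellF_nonneg j x)]
  exact cellF_le_one j x

theorem Pmo_int_cell_mul (j k : Fin m) :
    Integrable (fun x => cellF j x * x k) (gam (Fin m)) := by
  refine Integrable.mono (emx_int_coord k)
    ((cellF_measurable j).mul (measurable_pi_apply k)).aestronglyMeasurable ?_
  refine Filter.Eventually.of_forall fun x => ?_
  rw [norm_mul]
  have h1 : ‖cellF j x‖ ≤ 1 := by
    rw [Real.norm_eq_abs, abs_of_nonneg (cellF_nonneg j x)]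
    exact cellF_le_one j x
  calc ‖cellF j x‖ * ‖x k‖ ≤ 1 * ‖x k‖ := mul_le_mul_of_nonneg_right h1 (norm_nonneg _)
    _ = ‖x k‖ := one_mul _

theorem Pmo_mean_perm (σ : Equiv.Perm (Fin m)) (j : Fin m) :
    ∫ x, cellF (σ j) x ∂(gam (Fin m)) = ∫ x, cellF j x ∂(gam (Fin m)) := by
  have h := Pmo_perm σ
  have h1 : ∫ x, cellF j x ∂(gam (Fin m))
      = ∫ x, cellF j (fun i => x (σ i)) ∂(gam (Fin m)) := by
    conv_lhs => rw [← h.map_eq]
    rw [integral_map h.measurable.aemeasurable (cellF_measurable j).aestronglyMeasurable]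
  rw [h1]
  simp_rw [Pmo_cell_perm]

theorem Pmo_moment_perm (σ : Equiv.Perm (Fin m)) (j k : Fin m) :
    ∫ x, cellF (σ j) x * x (σ k) ∂(gam (Fin m)) = ∫ x, cellF j x * x k ∂(gam (Fin m)) := by
  have h := Pmo_perm σ
  have h1 : ∫ x, cellF j x * x k ∂(gam (Fin m))
      = ∫ x, cellF j (fun i => x (σ i)) * x (σ k) ∂(gam (Fin m)) := by
    have hmeas : Measurable (fun x : Fin m → ℝ => cellF j x * x k) :=
      (cellF_measurable j).mul (measurable_pi_apply k)
    conv_lhs => rw [← h.map_eq]
    rw [integral_map h.measurable.aemeasurable hmeas.aestronglyMeasurable]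
  rw [h1]
  simp_rw [Pmo_cell_perm]

theorem cellF_mean (hm : 1 ≤ m) (j : Fin m) : ∫ x, cellF j x ∂(gam (Fin m)) = 1 / (m : ℝ) := by
  have hm0 : (0 : ℝ) < m := by exact_mod_cast hm
  have h1 : ∑ l, ∫ x, cellF l x ∂(gam (Fin m)) = 1 := by
    rw [← integral_finsetSum _ (fun l _ => Pmo_int_cell l),
      integral_congr_ae (cellF_sum_ae hm)]
    simp
  have h2 : ∀ l, ∫ x, cellF l x ∂(gam (Fin m)) = ∫ x, cellF j x ∂(gam (Fin m)) := by
    intro l
    have := Pmo_mean_perm (Equiv.swap j l) j
    rwa [Equiv.swap_apply_left] at this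
  rw [Finset.sum_congr rfl (fun l _ => h2 l), Finset.sum_const, Finset.card_univ,
    Fintype.card_fin, nsmul_eq_mul] at h1
  rw [eq_div_iff hm0.ne']
  linarith

theorem Pmo_sum_diag (hm : 1 ≤ m) :
    ∑ j, ∫ x, cellF j x * x j ∂(gam (Fin m)) = MM (Fin m) := by
  rw [← integral_finsetSum _ (fun l _ => Pmo_int_cell_mul l l)]
  unfold MM
  refine integral_congr_ae ?_
  filter_upwards [ae_strict_max hm] with x hx
  obtain ⟨j, hj⟩ := hx
  have h1 := Pmo_sum_of_strict hj (fun l => x l)
  show ∑ l, cellF l x * x l = ⨆ l, x l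
  rw [h1]
  have : Nonempty (Fin m) := ⟨j⟩
  refine le_antisymm (le_ciSup (Set.finite_range x).bddAbove j) (ciSup_le fun l => ?_)
  by_cases h : l = j
  · rw [h]
  · exact (hj l h).le

theorem Pmo_sum_off (hm : 1 ≤ m) (k : Fin m) :
    ∑ j, ∫ x, cellF j x * x k ∂(gam (Fin m)) = 0 := by
  rw [← integral_finsetSum _ (fun l _ => Pmo_int_cell_mul l k)]
  have : ∫ x, ∑ l, cellF l x * x k ∂(gam (Fin m)) = ∫ x : Fin m → ℝ, x k ∂(gam (Fin m)) := by
    refine integral_congr_ae ?_
    filter_upwards [cellF_sum_ae hm] with x hx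
    show ∑ l, cellF l x * x k = x k
    rw [← Finset.sum_mul, hx, one_mul]
  rw [this]
  exact emx_mean_coord k

theorem cellF_moment (hm : 2 ≤ m) (j k : Fin m) :
    ∫ x, cellF j x * x k ∂(gam (Fin m)) = am m * ((if j = k then 1 else 0) - 1 / (m : ℝ)) := by
  classical
  have hm1 : 1 ≤ m := by omega
  have hmr : (2 : ℝ) ≤ m := by exact_mod_cast hm
  have hd : ∀ a : Fin m, ∫ x, cellF a x * x a ∂(gam (Fin m)) = MM (Fin m) / m := by
    intro a
    have h1 := Pmo_sum_diag hm1
    have h2 : ∀ l, ∫ x, cellF l x * x l ∂(gam (Fin m)) = ∫ x, cellF a x * x a ∂(gam (Fin m)) := by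
      intro l
      have := Pmo_moment_perm (Equiv.swap a l) a a
      rwa [Equiv.swap_apply_left] at this
    rw [Finset.sum_congr rfl (fun l _ => h2 l), Finset.sum_const, Finset.card_univ,
      Fintype.card_fin, nsmul_eq_mul] at h1
    rw [eq_div_iff (by linarith)]
    linarith
  by_cases hjk : j = k
  · subst hjk
    rw [hd, if_pos rfl]
    unfold am
    have : (m : ℝ) - 1 ≠ 0 := by linarith
    have h0 : (m : ℝ) ≠ 0 := by linarith
    field_simp
  · rw [if_neg hjk]
    have h1 := Pmo_sum_off hm1 k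
    rw [← Finset.add_sum_erase _ _ (Finset.mem_univ k), hd] at h1
    have h2 : ∀ l ∈ Finset.univ.erase k, ∫ x, cellF l x * x k ∂(gam (Fin m))
        = ∫ x, cellF j x * x k ∂(gam (Fin m)) := by
      intro l hl
      have hlk : l ≠ k := Finset.ne_of_mem_erase hl
      have := Pmo_moment_perm (Equiv.swap j l) j k
      rwa [Equiv.swap_apply_left, Equiv.swap_apply_of_ne_of_ne (Ne.symm hjk) (Ne.symm hlk)] at this
    rw [Finset.sum_congr rfl h2, Finset.sum_const, Finset.card_erase_of_mem (Finset.mem_univ k),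
      Finset.card_univ, Fintype.card_fin, nsmul_eq_mul, Nat.cast_sub hm1, Nat.cast_one] at h1
    unfold am
    have h3 : (m : ℝ) - 1 ≠ 0 := by linarith
    have h0 : (m : ℝ) ≠ 0 := by linarith
    have h4 : ∫ x, cellF j x * x k ∂(gam (Fin m)) = - (MM (Fin m) / m) / ((m : ℝ) - 1) := by
      rw [eq_div_iff h3]
      linarith
    rw [h4]
    field_simp
    ring

theorem MM_pos (hm : 2 ≤ m) : 0 < MM (Fin m) := by
  have hm1 : 1 ≤ m := by omega
  have hmr : (2 : ℝ) ≤ m := by exact_mod_cast hm
  have hne : Nonempty (Fin m) := ⟨⟨0, hm1⟩⟩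
  let a : Fin m := ⟨0, hm1⟩
  have hi1 : Integrable (fun x : Fin m → ℝ => ⨆ l, x l) (gam (Fin m)) := by
    refine integrable_gam _ 1 1 Smx.continuous_iSup_apply ?_
    intro g
    have := Smx.abs_iSup_le_norm g
    rw [pow_one]
    linarith
  have hi2 : Integrable (fun x : Fin m → ℝ => x a) (gam (Fin m)) := emx_int_coord a
  have h0 : ∀ x : Fin m → ℝ, 0 ≤ (⨆ l, x l) - x a := by
    intro x
    have := le_ciSup (Set.finite_range x).bddAbove a
    linarith
  have h1 : ∫ x : Fin m → ℝ, ((⨆ l, x l) - x a) ∂(gam (Fin m)) = MM (Fin m) := by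
    rw [integral_sub hi1 hi2, emx_mean_coord a, sub_zero]
    rfl
  have h2 : 0 ≤ MM (Fin m) := by
    rw [← h1]
    exact integral_nonneg h0
  refine lt_of_le_of_ne h2 (fun h3 => ?_)
  have h4 := (integral_eq_zero_iff_of_nonneg h0 (hi1.sub hi2)).1 (h1.trans h3.symm)
  have h5 : ∀ᵐ x ∂(gam (Fin m)), cellF a x = 1 := by
    filter_upwards [h4, Pmo_ae_inj] with x hx hx2
    have hx' : (⨆ l, x l) - x a = 0 := hx
    unfold cellF
    rw [if_pos]
    intro l hl
    have := le_ciSup (Set.finite_range x).bddAbove l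
    refine lt_of_le_of_ne (by linarith) (fun e => hl (hx2 e))
  have h6 := cellF_mean hm1 a
  rw [integral_congr_ae h5] at h6
  simp at h6
  omega

theorem am_pos (hm : 2 ≤ m) : 0 < am m := by
  have hmr : (2 : ℝ) ≤ m := by exact_mod_cast hm
  exact div_pos (MM_pos hm) (by linarith)

end pmo

end Pool.H65.PT
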