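import Pool.Agent.Helper65.PT.Defs
import Pool.Agent.Helper65.PS.Fcc
import Pool.Agent.Helper65.PS.Minz
import Pool.Agent.Helper65.PS.Emx

set_option autoImplicit false

open MeasureTheory ProbabilityTheory Pool.H65.PS

namespace Pool.H65.PT

section cmx

variable {ι κ : Type} [Fintype ι] [Nonempty ι] [Fintype κ]

/-- the vector inside the supremum -/
theorem Cmx_vec (W : κ → ι → ℝ) (s : κ → ℝ) (c : ι → ℝ) (g : κ → ℝ) (j : ι) :
    (c + ∑ i, (Real.sqrt (s i) * g i) • W i) j = c j + ∑ i, Real.sqrt (s i) * g i * W i j := by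
  simp [Finset.sum_apply]

theorem Cmx_int_sup (W : κ → ι → ℝ) (s : κ → ℝ) (c : ι → ℝ) :
    Integrable (fun g : κ → ℝ => ⨆ j, (c j + ∑ i, Real.sqrt (s i) * g i * W i j)) (gam κ) := by
  have h0 : (fun g : κ → ℝ => ⨆ j, (c j + ∑ i, Real.sqrt (s i) * g i * W i j))
      = fun g : κ → ℝ => ⨆ j, (c + ∑ i, (Real.sqrt (s i) * g i) • W i) j := by
    funext g
    refine iSup_congr fun j => ?_
    rw [Cmx_vec]
  rw [h0]
  refine integrable_gam _ (‖c‖ + ∑ i, Real.sqrt (s i) * ‖W i‖) 1 ?_ fun g => ?_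
  · exact emx_cont_iSup.comp (by fun_prop)
  · refine (emx_abs_iSup _).trans ?_
    refine (norm_add_le _ _).trans ?_
    have h1 := minz_norm_le W s g
    have h2 : 0 ≤ ∑ i, Real.sqrt (s i) * ‖W i‖ :=
      Finset.sum_nonneg fun i _ => mul_nonneg (Real.sqrt_nonneg _) (norm_nonneg _)
    have h3 : 0 ≤ ‖c‖ * ‖g‖ := by positivity
    rw [pow_one]
    nlinarith

theorem Cmx_int_coord (W : κ → ι → ℝ) (s : κ → ℝ) (c : ι → ℝ) (j : ι) :
    Integrable (fun g : κ → ℝ => c j + ∑ i, Real.sqrt (s i) * g i * W i j) (gam κ) ∧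
    ∫ g : κ → ℝ, (c j + ∑ i, Real.sqrt (s i) * g i * W i j) ∂(gam κ) = c j := by
  have hint : ∀ i, Integrable (fun g : κ → ℝ => Real.sqrt (s i) * g i * W i j) (gam κ) :=
    fun i => ((minz_int_coord i).const_mul _).mul_const _
  have hs : Integrable (fun g : κ → ℝ => ∑ i, Real.sqrt (s i) * g i * W i j) (gam κ) :=
    integrable_finsetSum _ fun i _ => hint i
  refine ⟨(integrable_const _).add hs, ?_⟩
  rw [integral_add (integrable_const _) hs, integral_finsetSum _ fun i _ => hint i]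
  have h0 : ∀ i, ∫ g : κ → ℝ, Real.sqrt (s i) * g i * W i j ∂(gam κ) = 0 := by
    intro i
    rw [integral_mul_const, integral_const_mul, minz_mean_coord]
    ring
  rw [Finset.sum_eq_zero fun i _ => h0 i]
  simp

theorem Cmx_le_int (W : κ → ι → ℝ) (s : κ → ℝ) (c : ι → ℝ) (j : ι) :
    c j ≤ ∫ g, (⨆ j, (c j + ∑ i, Real.sqrt (s i) * g i * W i j)) ∂(gam κ) := by
  obtain ⟨h1, h2⟩ := Cmx_int_coord W s c j
  rw [← h2]
  refine integral_mono h1 (Cmx_int_sup W s c) fun g => ?_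
  exact le_ciSup (f := fun j => c j + ∑ i, Real.sqrt (s i) * g i * W i j)
    (Set.finite_range _).bddAbove j

theorem Gm_nonneg (W : κ → ι → ℝ) (s : κ → ℝ) (c : ι → ℝ) : 0 ≤ Gm W s c := by
  have hN : (0 : ℝ) < (Fintype.card ι : ℝ) := minz_card_pos
  unfold Gm
  set A := ∫ g, (⨆ j, (c j + ∑ i, Real.sqrt (s i) * g i * W i j)) ∂(gam κ) with hA
  have h : ∑ j : ι, c j ≤ ∑ _j : ι, A := Finset.sum_le_sum fun j _ => Cmx_le_int W s c j
  rw [Finset.sum_const, Finset.card_univ, nsmul_eq_mul] at h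
  have h2 : (∑ j, c j) / (Fintype.card ι : ℝ) ≤ A := by
    rw [div_le_iff₀ hN]
    linarith
  linarith

theorem Cmx_FM_le (W : κ → ι → ℝ) (s : κ → ℝ) (c : ι → ℝ) : FM W s ≤ Gm W s c := by
  apply ciInf_le
  exact ⟨0, by rintro _ ⟨c', rfl⟩; exact Gm_nonneg W s c'⟩

theorem Cmx_FF_le (W : κ → ι → ℝ) (s : κ → ℝ) (c : ι → ℝ) : FF W s ≤ GG W s c := by
  apply ciInf_le
  exact ⟨0, by rintro _ ⟨c', rfl⟩; exact GG_nonneg W s c'⟩

/-- invariance under adding a constant -/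
theorem Cmx_shift (W : κ → ι → ℝ) (s : κ → ℝ) (c : ι → ℝ) (t : ℝ) :
    Gm W s (fun j => c j + t) = Gm W s c := by
  have hN : (Fintype.card ι : ℝ) ≠ 0 := minz_card_pos.ne'
  have h1 : ∀ g : κ → ℝ, (⨆ j, (c j + t + ∑ i, Real.sqrt (s i) * g i * W i j))
      = (⨆ j, (c j + ∑ i, Real.sqrt (s i) * g i * W i j)) + t := by
    intro g
    have h2 := ciSup_add (f := fun j => c j + ∑ i, Real.sqrt (s i) * g i * W i j)
      (Set.finite_range _).bddAbove t
    rw [h2]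
    refine iSup_congr fun j => ?_
    ring
  unfold Gm
  rw [integral_congr_ae (Filter.Eventually.of_forall h1),
    integral_add (Cmx_int_sup W s c) (integrable_const _), Finset.sum_add_distrib]
  simp only [integral_const, probReal_univ, smul_eq_mul, one_mul, Finset.sum_const,
    Finset.card_univ, nsmul_eq_mul]
  field_simp
  ring

/-- scaling of the argument of `lse` -/
theorem Cmx_scale (W : κ → ι → ℝ) (s : κ → ℝ) (c : ι → ℝ) (β : ℝ) (hβ : 0 < β) (g : κ → ℝ) :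
    β • c + ∑ i, (Real.sqrt ((β ^ 2 • s) i) * g i) • W i
      = β • (c + ∑ i, (Real.sqrt (s i) * g i) • W i) := by
  rw [smul_add, Finset.smul_sum]
  congr 1
  refine Finset.sum_congr rfl fun i _ => ?_
  rw [Pi.smul_apply, smul_eq_mul, Real.sqrt_mul (by positivity), Real.sqrt_sq hβ.le, smul_smul]
  congr 1
  ring

theorem Cmx_lower (W : κ → ι → ℝ) (s : κ → ℝ) (c : ι → ℝ) (β : ℝ) (hβ : 0 < β) :
    Gm W s c ≤ β⁻¹ * GG W (β ^ 2 • s) (β • c) := by
  have hint : Integrable (fun g : κ → ℝ => β⁻¹ * lse (β • c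
      + ∑ i, (Real.sqrt ((β ^ 2 • s) i) * g i) • W i)) (gam κ) :=
    (minz_int W (β ^ 2 • s) (β • c)).const_mul _
  have h1 : ∫ g, (⨆ j, (c j + ∑ i, Real.sqrt (s i) * g i * W i j)) ∂(gam κ)
      ≤ β⁻¹ * ∫ g, lse (β • c + ∑ i, (Real.sqrt ((β ^ 2 • s) i) * g i) • W i) ∂(gam κ) := by
    rw [← integral_const_mul]
    refine integral_mono (Cmx_int_sup W s c) hint fun g => ?_
    have h2 := emx_le_lse β hβ (c + ∑ i, (Real.sqrt (s i) * g i) • W i)
    simp only [Cmx_scale W s c β hβ g]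
    refine le_trans (le_of_eq ?_) h2
    refine iSup_congr fun j => ?_
    rw [Cmx_vec]
  have h3 : β⁻¹ * ((∑ j, (β • c) j) / (Fintype.card ι : ℝ)) = (∑ j, c j) / (Fintype.card ι : ℝ) := by
    simp only [Pi.smul_apply, smul_eq_mul, ← Finset.mul_sum]
    field_simp
  have h4 : 0 ≤ β⁻¹ * ((∑ j, (β • c) j) ^ 2 / 2) := by positivity
  unfold Gm GG
  rw [mul_add, mul_sub, h3]
  linarith

theorem Cmx_upper (W : κ → ι → ℝ) (s : κ → ℝ) (c : ι → ℝ) (hc : ∑ j, c j = 0) (β : ℝ)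
    (hβ : 0 < β) :
    β⁻¹ * GG W (β ^ 2 • s) (β • c) ≤ Gm W s c + β⁻¹ * Real.log (Fintype.card ι) := by
  have hint : Integrable (fun g : κ → ℝ => β⁻¹ * lse (β • c
      + ∑ i, (Real.sqrt ((β ^ 2 • s) i) * g i) • W i)) (gam κ) :=
    (minz_int W (β ^ 2 • s) (β • c)).const_mul _
  have h1 : β⁻¹ * ∫ g, lse (β • c + ∑ i, (Real.sqrt ((β ^ 2 • s) i) * g i) • W i) ∂(gam κ)
      ≤ ∫ g, (⨆ j, (c j + ∑ i, Real.sqrt (s i) * g i * W i j)) ∂(gam κ)
        + β⁻¹ * Real.log (Fintype.card ι) := by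
    rw [← integral_const_mul]
    have h5 : ∫ g, ((⨆ j, (c j + ∑ i, Real.sqrt (s i) * g i * W i j))
        + β⁻¹ * Real.log (Fintype.card ι)) ∂(gam κ)
        = ∫ g, (⨆ j, (c j + ∑ i, Real.sqrt (s i) * g i * W i j)) ∂(gam κ)
        + β⁻¹ * Real.log (Fintype.card ι) := by
      rw [integral_add (Cmx_int_sup W s c) (integrable_const _)]
      simp
    rw [← h5]
    refine integral_mono hint ((Cmx_int_sup W s c).add (integrable_const _)) fun g => ?_
    have h2 := emx_lse_le β hβ (c + ∑ i, (Real.sqrt (s i) * g i) • W i)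
    simp only [Cmx_scale W s c β hβ g]
    refine h2.trans (le_of_eq ?_)
    congr 1
    refine iSup_congr fun j => ?_
    rw [Cmx_vec]
  have h3 : ∑ j, (β • c) j = 0 := by
    simp only [Pi.smul_apply, smul_eq_mul, ← Finset.mul_sum, hc, mul_zero]
  unfold Gm GG
  rw [h3, hc, mul_add, mul_sub]
  simp only [zero_div, mul_zero, sub_zero, ne_eq, OfNat.ofNat_ne_zero, not_false_eq_true, zero_pow,
    add_zero]
  exact h1

theorem Cmx_FM_le_FF (W : κ → ι → ℝ) (s : κ → ℝ) (β : ℝ) (hβ : 0 < β) :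
    FM W s ≤ β⁻¹ * FF W (β ^ 2 • s) := by
  have h : ∀ c, β * FM W s ≤ GG W (β ^ 2 • s) c := by
    intro c
    have h1 := Cmx_lower W s (β⁻¹ • c) β hβ
    rw [smul_inv_smul₀ hβ.ne'] at h1
    have h2 := (Cmx_FM_le W s (β⁻¹ • c)).trans h1
    have h3 := mul_le_mul_of_nonneg_left h2 hβ.le
    rwa [mul_inv_cancel_left₀ hβ.ne'] at h3
  have h2 : β * FM W s ≤ FF W (β ^ 2 • s) := le_ciInf h
  rw [inv_mul_eq_div, le_div_iff₀ hβ]
  linarith

theorem Cmx_FF_le_FM (W : κ → ι → ℝ) (s : κ → ℝ) (β : ℝ) (hβ : 0 < β) :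
    β⁻¹ * FF W (β ^ 2 • s) ≤ FM W s + β⁻¹ * Real.log (Fintype.card ι) := by
  have hN : (Fintype.card ι : ℝ) ≠ 0 := minz_card_pos.ne'
  have h : ∀ c, β⁻¹ * FF W (β ^ 2 • s) - β⁻¹ * Real.log (Fintype.card ι) ≤ Gm W s c := by
    intro c
    have h0 := Cmx_shift W s c (-((∑ j, c j) / (Fintype.card ι : ℝ)))
    have hz : ∑ j, (fun j => c j + -((∑ j, c j) / (Fintype.card ι : ℝ))) j = 0 := by
      simp only [Finset.sum_add_distrib, Finset.sum_const, Finset.card_univ, nsmul_eq_mul]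
      field_simp
      ring
    have h1 := Cmx_upper W s _ hz β hβ
    have h2 := mul_le_mul_of_nonneg_left (Cmx_FF_le W (β ^ 2 • s)
      (β • fun j => c j + -((∑ j, c j) / (Fintype.card ι : ℝ)))) (inv_pos.mpr hβ).le
    rw [h0] at h1
    linarith
  have h2 := le_ciInf h
  unfold FM
  linarith

theorem FM_concave (W : κ → ι → ℝ) : ConcaveOn ℝ {s : κ → ℝ | ∀ i, 0 ≤ s i} (FM W) := by
  have hFF := FF_concave W
  refine ⟨hFF.1, ?_⟩
  intro s hs t ht a b ha hb hab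
  have hlog : 0 ≤ Real.log (Fintype.card ι) := Real.log_natCast_nonneg _
  refine le_of_forall_pos_le_add fun ε hε => ?_
  set β : ℝ := (Real.log (Fintype.card ι) + 1) / ε with hβdef
  have hβ : 0 < β := by positivity
  have hsm : β⁻¹ * Real.log (Fintype.card ι) ≤ ε := by
    rw [hβdef, inv_div, div_mul_eq_mul_div, div_le_iff₀ (by positivity)]
    nlinarith
  have h1 := Cmx_FF_le_FM W (a • s + b • t) β hβ
  have h2 := Cmx_FM_le_FF W s β hβ
  have h3 := Cmx_FM_le_FF W t β hβ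
  have hs' : β ^ 2 • s ∈ {s : κ → ℝ | ∀ i, 0 ≤ s i} := fun i => by
    have := hs i
    simp only [Pi.smul_apply, smul_eq_mul]
    positivity
  have ht' : β ^ 2 • t ∈ {s : κ → ℝ | ∀ i, 0 ≤ s i} := fun i => by
    have := ht i
    simp only [Pi.smul_apply, smul_eq_mul]
    positivity
  have h4 := hFF.2 hs' ht' ha hb hab
  have h5 : a • β ^ 2 • s + b • β ^ 2 • t = β ^ 2 • (a • s + b • t) := by
    rw [smul_add, smul_comm a, smul_comm b]
  rw [h5] at h4
  simp only [smul_eq_mul] at h4 ⊢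
  have h6 := mul_le_mul_of_nonneg_left h4 (inv_pos.mpr hβ).le
  have h7 := mul_le_mul_of_nonneg_left h2 ha
  have h8 := mul_le_mul_of_nonneg_left h3 hb
  have h9 : β⁻¹ * (a * FF W (β ^ 2 • s) + b * FF W (β ^ 2 • t))
      = a * (β⁻¹ * FF W (β ^ 2 • s)) + b * (β⁻¹ * FF W (β ^ 2 • t)) := by ring
  linarith

end cmx

end Pool.H65.PT
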