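import Pool.Agent.Helper65.PT.Defs
import Pool.Agent.Helper65.PS.Ibp

set_option autoImplicit false

open MeasureTheory ProbabilityTheory Pool.H65.PS

namespace Pool.H65.PT


/-- the other coordinates. -/
abbrev LepI {m : ℕ} (j k : Fin m) : Type := {l : Fin m // l ≠ j ∧ l ≠ k}

/-- coordinates adapted to the pair `j, k`. -/
noncomputable def LepPsi {m : ℕ} (j k : Fin m) (p : (ℝ × (LepI j k → ℝ)) × ℝ) : Fin m → ℝ := fun l =>
  if hj : l = j then p.1.1 + p.2 / 2 else
    if hk : l = k then p.1.1 - p.2 / 2 else p.1.2 ⟨l, hj, hk⟩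

theorem LepPsi_j {m : ℕ} (j k : Fin m) (p : (ℝ × (LepI j k → ℝ)) × ℝ) :
    LepPsi j k p j = p.1.1 + p.2 / 2 := by simp [LepPsi]

theorem LepPsi_k {m : ℕ} (j k : Fin m) (hjk : j ≠ k) (p : (ℝ × (LepI j k → ℝ)) × ℝ) :
    LepPsi j k p k = p.1.1 - p.2 / 2 := by simp [LepPsi, hjk.symm]

theorem LepPsi_l {m : ℕ} (j k : Fin m) (p : (ℝ × (LepI j k → ℝ)) × ℝ) (l : LepI j k) :
    LepPsi j k p l.1 = p.1.2 l := by simp [LepPsi, l.2.1, l.2.2]

theorem Lep_sum {m : ℕ} {E : Type} [AddCommMonoid E] (j k : Fin m) (hjk : j ≠ k) (F : Fin m → E) :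
    ∑ l, F l = F j + F k + ∑ l : LepI j k, F l.1 := by
  have h1 : ∑ l : LepI j k, F l.1 = ∑ l ∈ (Finset.univ.erase j).erase k, F l := by
    rw [Finset.sum_subtype (p := fun l => l ≠ j ∧ l ≠ k)]
    intro x
    simp [and_comm]
  have h2 : k ∈ Finset.univ.erase j := Finset.mem_erase.mpr ⟨hjk.symm, Finset.mem_univ k⟩
  rw [h1, ← Finset.add_sum_erase _ _ (Finset.mem_univ j), add_assoc,
    Finset.add_sum_erase _ _ h2]

theorem LepPsi_measurable {m : ℕ} (j k : Fin m) : Measurable (LepPsi j k) := by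
  refine measurable_pi_lambda _ fun l => ?_
  unfold LepPsi
  by_cases hj : l = j
  · simp only [hj, dite_true]; fun_prop
  · by_cases hk : l = k
    · subst hk
      simp only [hj, dite_true, dite_false]
      fun_prop
    · simp only [hj, hk, dite_false]
      exact (measurable_pi_apply _).comp (measurable_snd.comp measurable_fst)

theorem Lep_charFun_gam {ι : Type} [Fintype ι] (a : ι → ℝ) :
    ∫ g : ι → ℝ, Complex.exp (((∑ l, a l * g l : ℝ) : ℂ) * Complex.I) ∂(gam ι)
      = Complex.exp (-(((∑ i, (a i) ^ 2 : ℝ) : ℂ)) / 2) := by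
  have h1 : ∀ g : ι → ℝ, Complex.exp (((∑ l, a l * g l : ℝ) : ℂ) * Complex.I) =
      ∏ i, Complex.exp (((a i : ℝ) : ℂ) * (g i : ℂ) * Complex.I) := by
    intro g
    rw [← Complex.exp_sum]
    congr 1
    push_cast
    rw [Finset.sum_mul]
  simp_rw [h1]
  unfold gam
  rw [integral_fintype_prod_eq_prod (f := fun (i : ι) (x : ℝ) =>
    Complex.exp (((a i : ℝ) : ℂ) * (x : ℂ) * Complex.I))]
  have h2 : ∀ i : ι, ∫ x : ℝ, Complex.exp (((a i : ℝ) : ℂ) * (x : ℂ) * Complex.I)
      ∂(gaussianReal 0 1) = Complex.exp (-(((a i) ^ 2 : ℝ) : ℂ) / 2) := by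
    intro i
    rw [← charFun_apply_real, charFun_gaussianReal]
    congr 1
    push_cast
    ring
  simp_rw [h2]
  rw [← Complex.exp_sum]
  congr 1
  push_cast
  rw [← Finset.sum_neg_distrib, Finset.sum_div]

theorem LepPsi_mp {m : ℕ} (j k : Fin m) (hjk : j ≠ k) :
    MeasurePreserving (LepPsi j k)
      (((gaussianReal 0 (1 / 2)).prod (gam (LepI j k))).prod (gaussianReal 0 2)) (gam (Fin m)) := by
  refine ⟨LepPsi_measurable j k, Measure.ext_of_charFunDual (funext fun L => ?_)⟩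
  have hL : ∀ x : Fin m → ℝ, L x = ∑ l, L (Pi.single l 1) * x l := by
    intro x
    conv_lhs => rw [pi_eq_sum_univ' x]
    rw [map_sum]
    refine Finset.sum_congr rfl fun l _ => ?_
    rw [map_smul, smul_eq_mul, mul_comm]
  rw [charFunDual_apply, charFunDual_apply, integral_map (LepPsi_measurable j k).aemeasurable
    (Continuous.aestronglyMeasurable (by fun_prop))]
  set a : Fin m → ℝ := fun l => L (Pi.single l 1) with ha
  have hR : ∫ x, Complex.exp ((L x : ℂ) * Complex.I) ∂(gam (Fin m))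
      = Complex.exp (-(((∑ i, (a i) ^ 2 : ℝ) : ℂ)) / 2) := by
    rw [← Lep_charFun_gam a]
    refine integral_congr_ae (Filter.Eventually.of_forall fun x => ?_)
    simp only [hL x, ha]
  have h1 : ∀ p : (ℝ × (LepI j k → ℝ)) × ℝ, Complex.exp ((L (LepPsi j k p) : ℂ) * Complex.I)
      = (Complex.exp ((((a j + a k) : ℝ) : ℂ) * (p.1.1 : ℂ) * Complex.I) *
          Complex.exp (((∑ l : LepI j k, a l.1 * p.1.2 l : ℝ) : ℂ) * Complex.I)) *
        Complex.exp (((((a j - a k) / 2) : ℝ) : ℂ) * (p.2 : ℂ) * Complex.I) := by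
    intro p
    rw [← Complex.exp_add, ← Complex.exp_add]
    congr 1
    rw [hL, Lep_sum j k hjk, LepPsi_j, LepPsi_k j k hjk]
    simp_rw [LepPsi_l]
    push_cast
    ring
  simp_rw [h1]
  rw [integral_prod_mul (fun q : ℝ × (LepI j k → ℝ) =>
      (Complex.exp ((((a j + a k) : ℝ) : ℂ) * (q.1 : ℂ) * Complex.I) *
          Complex.exp (((∑ l : LepI j k, a l.1 * q.2 l : ℝ) : ℂ) * Complex.I)))
      (fun s : ℝ => Complex.exp (((((a j - a k) / 2) : ℝ) : ℂ) * (s : ℂ) * Complex.I)),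
    integral_prod_mul (fun y : ℝ => Complex.exp ((((a j + a k) : ℝ) : ℂ) * (y : ℂ) * Complex.I))
      (fun g : LepI j k → ℝ => Complex.exp (((∑ l : LepI j k, a l.1 * g l : ℝ) : ℂ) * Complex.I)),
    ← charFun_apply_real, charFun_gaussianReal, ← charFun_apply_real, charFun_gaussianReal,
    Lep_charFun_gam, hR, ← Complex.exp_add, ← Complex.exp_add, Lep_sum j k hjk]
  congr 1
  push_cast
  ring



theorem Lep_sqrt_pi : (1 : ℝ) ≤ Real.sqrt Real.pi := by
  rw [show (1 : ℝ) = Real.sqrt 1 by simp]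
  exact Real.sqrt_le_sqrt (by linarith [Real.pi_gt_three])

theorem Lep_pdf_le (s : ℝ) : gaussianPDFReal 0 2 s ≤ (2 * Real.sqrt Real.pi)⁻¹ := by
  unfold gaussianPDFReal
  have h1 : Real.sqrt (2 * Real.pi * ((2 : NNReal) : ℝ)) = 2 * Real.sqrt Real.pi := by
    rw [show (2 * Real.pi * ((2 : NNReal) : ℝ)) = 2 ^ 2 * Real.pi by push_cast; ring,
      Real.sqrt_mul (by positivity), Real.sqrt_sq (by norm_num)]
  rw [h1]
  have h2 : Real.exp (-(s - 0) ^ 2 / (2 * ((2 : NNReal) : ℝ))) ≤ 1 := by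
    rw [Real.exp_le_one_iff]
    have : (0 : ℝ) ≤ (s - 0) ^ 2 := sq_nonneg _
    push_cast
    linarith
  have h3 : (0 : ℝ) ≤ (2 * Real.sqrt Real.pi)⁻¹ := by positivity
  nlinarith

theorem Lep_tri (w θ : ℝ) (hθ : 0 < θ) :
    (fun s : ℝ => if 0 < s then max 0 (w - θ * s) else 0)
      = Set.indicator (Set.Ioc 0 (max 0 w / θ)) (fun s => max 0 w - θ * s) := by
  funext s
  rcases le_or_gt w 0 with hw | hw
  · rw [max_eq_left hw, zero_div, Set.Ioc_self, Set.indicator_empty]
    split_ifs with hs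
    · rw [max_eq_left]
      nlinarith
    · rfl
  · rw [max_eq_right hw.le]
    by_cases hs : 0 < s
    · rw [if_pos hs]
      by_cases hs2 : s ≤ w / θ
      · rw [Set.indicator_of_mem (Set.mem_Ioc.mpr ⟨hs, hs2⟩), max_eq_right]
        rw [le_div_iff₀ hθ] at hs2
        nlinarith
      · rw [Set.indicator_of_notMem (fun h => hs2 h.2), max_eq_left]
        rw [not_le, div_lt_iff₀ hθ] at hs2
        nlinarith
    · rw [if_neg hs, Set.indicator_of_notMem (fun h => hs h.1)]

theorem Lep_tri_int (w θ : ℝ) (hθ : 0 < θ) :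
    Integrable (fun s : ℝ => if 0 < s then max 0 (w - θ * s) else 0) := by
  rw [Lep_tri w θ hθ, integrable_indicator_iff measurableSet_Ioc]
  refine IntegrableOn.mono_set (Continuous.integrableOn_Icc (a := 0) (b := max 0 w / θ)
    (by fun_prop)) Set.Ioc_subset_Icc_self

theorem Lep_tri_val (w θ : ℝ) (hθ : 0 < θ) :
    ∫ s : ℝ, (if 0 < s then max 0 (w - θ * s) else 0) = (max 0 w) ^ 2 / (2 * θ) := by
  rw [Lep_tri w θ hθ, integral_indicator measurableSet_Ioc,
    ← intervalIntegral.integral_of_le (by positivity)]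
  rw [intervalIntegral.integral_sub (by simp) (Continuous.intervalIntegrable (by fun_prop) _ _),
    intervalIntegral.integral_const, intervalIntegral.integral_const_mul, integral_id]
  simp only [smul_eq_mul]
  field_simp
  ring

open Classical in
theorem Lep_inner {ι : Type} [Fintype ι] (y : ℝ) (g : ι → ℝ) (w θ : ℝ) (hθ : 1 / 2 ≤ θ) :
    ∫ s, (if 0 < s ∧ ∀ l, g l < y + s / 2 then 1 else 0) * max 0 (w - θ * s)
        ∂(gaussianReal 0 2)
      ≤ (4 * Real.sqrt Real.pi)⁻¹ * (if ∀ l, g l < y then (max 0 w) ^ 2 else 0) * (1 / θ)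
        + ∑ l, (if 0 ≤ g l - y ∧ g l - y ≤ |w| then w ^ 2 else 0) := by
  have hθ0 : 0 < θ := by linarith
  rw [integral_gaussianReal_eq_integral_smul (by norm_num)]
  set B : ℝ → ℝ := fun s => (2 * Real.sqrt Real.pi)⁻¹ *
    ((if ∀ l, g l < y then 1 else 0) * (if 0 < s then max 0 (w - θ * s) else 0)
      + ∑ l, (if 0 ≤ g l - y ∧ g l - y ≤ |w| then |w| else 0) *
        Set.indicator (Set.Ioc 0 (2 * |w|)) (fun _ => (1 : ℝ)) s) with hB
  have hi1 : Integrable (fun s : ℝ => Set.indicator (Set.Ioc 0 (2 * |w|)) (fun _ => (1 : ℝ)) s) := by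
    rw [integrable_indicator_iff measurableSet_Ioc]
    exact integrableOn_const (by simp [ENNReal.mul_eq_top])
  have hv1 : ∫ s : ℝ, Set.indicator (Set.Ioc 0 (2 * |w|)) (fun _ => (1 : ℝ)) s = 2 * |w| := by
    rw [integral_indicator measurableSet_Ioc]
    simp
  have hBi : Integrable B := by
    refine Integrable.const_mul (Integrable.add ((Lep_tri_int w θ hθ0).const_mul _)
      (integrable_finsetSum _ fun l _ => hi1.const_mul _)) _
  have hBv : ∫ s, B s = (2 * Real.sqrt Real.pi)⁻¹ *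
      ((if ∀ l, g l < y then 1 else 0) * ((max 0 w) ^ 2 / (2 * θ))
      + ∑ l, (if 0 ≤ g l - y ∧ g l - y ≤ |w| then |w| else 0) * (2 * |w|)) := by
    simp only [hB]
    rw [integral_const_mul, integral_add ((Lep_tri_int w θ hθ0).const_mul _)
      (integrable_finsetSum _ fun l _ => hi1.const_mul _), integral_const_mul,
      Lep_tri_val w θ hθ0, integral_finsetSum _ (fun l _ => hi1.const_mul _)]
    congr 2
    refine Finset.sum_congr rfl fun l _ => ?_
    rw [integral_const_mul, hv1]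
  have hle : ∫ s, gaussianPDFReal 0 2 s •
      ((if 0 < s ∧ ∀ l, g l < y + s / 2 then 1 else 0) * max 0 (w - θ * s)) ≤ ∫ s, B s := by
    refine integral_mono_of_nonneg (Filter.Eventually.of_forall fun s => ?_) hBi
      (Filter.Eventually.of_forall fun s => ?_)
    · have h1 := gaussianPDFReal_nonneg 0 2 s
      have h2 : (0 : ℝ) ≤ (if 0 < s ∧ ∀ l, g l < y + s / 2 then 1 else 0) := by
        split_ifs <;> norm_num
      exact mul_nonneg h1 (mul_nonneg h2 (le_max_left _ _))
    · show gaussianPDFReal 0 2 s •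
        ((if 0 < s ∧ ∀ l, g l < y + s / 2 then 1 else 0) * max 0 (w - θ * s)) ≤ B s
      rw [smul_eq_mul]
      have hsum : (0 : ℝ) ≤ ∑ l, (if 0 ≤ g l - y ∧ g l - y ≤ |w| then |w| else 0) *
        Set.indicator (Set.Ioc 0 (2 * |w|)) (fun _ => (1 : ℝ)) s := by
        refine Finset.sum_nonneg fun l _ => mul_nonneg (by split_ifs <;> positivity)
          (Set.indicator_nonneg (fun _ _ => zero_le_one) _)
      have hmm : (0 : ℝ) ≤ (if ∀ l, g l < y then 1 else 0) *
          (if 0 < s then max 0 (w - θ * s) else 0) := by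
        refine mul_nonneg (by split_ifs <;> norm_num) ?_
        split_ifs
        · exact le_max_left _ _
        · exact le_rfl
      by_cases hA : 0 < s ∧ ∀ l, g l < y + s / 2
      · rw [if_pos hA, one_mul]
        rcases le_or_gt (w - θ * s) 0 with hneg | hpos
        · rw [max_eq_left hneg, mul_zero]
          exact mul_nonneg (by positivity) (add_nonneg hmm hsum)
        · have hw : 0 < w := by nlinarith [hA.1]
          have hsw : s ≤ 2 * |w| := by
            rw [abs_of_pos hw]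
            nlinarith [hA.1]
          rw [max_eq_right hpos.le]
          have hmain : w - θ * s ≤ (if ∀ l, g l < y then 1 else 0) *
              (if 0 < s then max 0 (w - θ * s) else 0)
              + ∑ l, (if 0 ≤ g l - y ∧ g l - y ≤ |w| then |w| else 0) *
                Set.indicator (Set.Ioc 0 (2 * |w|)) (fun _ => (1 : ℝ)) s := by
            by_cases hall : ∀ l, g l < y
            · rw [if_pos hall, if_pos hA.1, one_mul, max_eq_right hpos.le]
              linarith
            · push Not at hall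
              obtain ⟨l, hl⟩ := hall
              have h1 : (if 0 ≤ g l - y ∧ g l - y ≤ |w| then |w| else 0) *
                Set.indicator (Set.Ioc 0 (2 * |w|)) (fun _ => (1 : ℝ)) s = |w| := by
                have h0 : g l - y ≤ |w| := by
                  have := hA.2 l
                  linarith
                rw [if_pos ⟨by linarith, h0⟩, Set.indicator_of_mem (Set.mem_Ioc.mpr ⟨hA.1, hsw⟩),
                  mul_one]
              have h2 := Finset.single_le_sum (f := fun l =>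
                (if 0 ≤ g l - y ∧ g l - y ≤ |w| then |w| else 0) *
                Set.indicator (Set.Ioc 0 (2 * |w|)) (fun _ => (1 : ℝ)) s)
                (fun l _ => mul_nonneg (by split_ifs <;> positivity)
                  (Set.indicator_nonneg (fun _ _ => zero_le_one) _)) (Finset.mem_univ l)
              simp only [h1] at h2
              have h3 : w - θ * s ≤ |w| := by
                rw [abs_of_pos hw]
                nlinarith [hA.1]
              linarith
          calc gaussianPDFReal 0 2 s * (w - θ * s)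
              ≤ (2 * Real.sqrt Real.pi)⁻¹ * (w - θ * s) :=
                mul_le_mul_of_nonneg_right (Lep_pdf_le s) hpos.le
            _ ≤ B s := by
                rw [hB]
                exact mul_le_mul_of_nonneg_left hmain (by positivity)
      · rw [if_neg hA, zero_mul, mul_zero]
        exact mul_nonneg (by positivity) (add_nonneg hmm hsum)
  refine hle.trans (le_of_eq_of_le hBv ?_)
  have hs := Lep_sqrt_pi
  rw [mul_add]
  refine add_le_add (le_of_eq ?_) ?_
  · have : Real.sqrt Real.pi ≠ 0 := by positivity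
    split_ifs
    · field_simp
      ring
    · simp
  · rw [Finset.mul_sum]
    refine Finset.sum_le_sum fun l _ => ?_
    split_ifs
    · have e : (2 * Real.sqrt Real.pi)⁻¹ * (|w| * (2 * |w|)) = w ^ 2 * (Real.sqrt Real.pi)⁻¹ := by
        rw [← sq_abs w]
        field_simp
      rw [e]
      have : (Real.sqrt Real.pi)⁻¹ ≤ 1 := inv_le_one_of_one_le₀ hs
      nlinarith [sq_nonneg w]
    · simp

theorem Lep_gauss_Icc (a b : ℝ) (hab : a ≤ b) : (gaussianReal 0 1).real (Set.Icc a b) ≤ b - a := by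
  have h1 : (gaussianReal 0 1) (Set.Icc a b) ≤ ENNReal.ofReal (b - a) := by
    rw [gaussianReal_apply 0 (by norm_num)]
    calc ∫⁻ x in Set.Icc a b, gaussianPDF 0 1 x ≤ ∫⁻ _x in Set.Icc a b, 1 := by
          refine lintegral_mono fun x => ?_
          unfold gaussianPDF
          rw [show (1 : ENNReal) = ENNReal.ofReal 1 by simp]
          refine ENNReal.ofReal_le_ofReal ?_
          unfold gaussianPDFReal
          have h2 : Real.exp (-(x - 0) ^ 2 / (2 * ((1 : NNReal) : ℝ))) ≤ 1 := by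
            rw [Real.exp_le_one_iff]
            have : (0 : ℝ) ≤ (x - 0) ^ 2 := sq_nonneg _
            push_cast
            linarith
          have h3 : (Real.sqrt (2 * Real.pi * ((1 : NNReal) : ℝ)))⁻¹ ≤ 1 := by
            refine inv_le_one_of_one_le₀ ?_
            rw [show (1 : ℝ) = Real.sqrt 1 by simp]
            refine Real.sqrt_le_sqrt ?_
            push_cast
            linarith [Real.pi_gt_three]
          have h4 : (0 : ℝ) ≤ (Real.sqrt (2 * Real.pi * ((1 : NNReal) : ℝ)))⁻¹ := by positivity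
          have h5 : (0 : ℝ) ≤ Real.exp (-(x - 0) ^ 2 / (2 * ((1 : NNReal) : ℝ))) := by positivity
          nlinarith
      _ = ENNReal.ofReal (b - a) := by simp
  unfold Measure.real
  exact ENNReal.toReal_le_of_le_ofReal (by linarith) h1




/-- size of the linear forms. -/
noncomputable def LepR {ι : Type} [Fintype ι] (C0 : ℝ) (p : ℝ × (ι → ℝ)) : ℝ :=
  C0 + ∑ l, (|p.1| + |p.2 l|)

open Classical in
/-- size of the linear forms without the coordinate `l`. -/
noncomputable def LepRl {ι : Type} [Fintype ι] (C0 : ℝ) (l : ι) (p : ℝ × (ι → ℝ)) : ℝ :=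
  C0 + 2 * |p.1| + ∑ l' ∈ Finset.univ.erase l, (|p.1| + |p.2 l'|)

theorem LepR_meas {ι : Type} [Fintype ι] (C0 : ℝ) : Measurable (LepR (ι := ι) C0) := by
  unfold LepR
  fun_prop

theorem LepRl_meas {ι : Type} [Fintype ι] (C0 : ℝ) (l : ι) : Measurable (LepRl C0 l) := by
  unfold LepRl
  fun_prop

theorem LepR_nonneg {ι : Type} [Fintype ι] {C0 : ℝ} (hC0 : 0 ≤ C0) (p : ℝ × (ι → ℝ)) :
    0 ≤ LepR C0 p := by
  unfold LepR; positivity

theorem LepRl_nonneg {ι : Type} [Fintype ι] {C0 : ℝ} (hC0 : 0 ≤ C0) (l : ι) (p : ℝ × (ι → ℝ)) :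
    0 ≤ LepRl C0 l p := by
  unfold LepRl; positivity

theorem LepR_eq {ι : Type} [Fintype ι] (C0 : ℝ) (l : ι) (p : ℝ × (ι → ℝ)) :
    LepR C0 p + |p.1| = LepRl C0 l p + |p.2 l| := by
  classical
  unfold LepR LepRl
  rw [← Finset.add_sum_erase _ _ (Finset.mem_univ l)]
  have : (Finset.univ.erase l : Finset ι) = (@Finset.erase ι (fun a b => Classical.propDecidable (a = b)) Finset.univ l) := by
    congr!
  rw [this]
  ring

theorem LepRl_le {ι : Type} [Fintype ι] {C0 : ℝ} (hC0 : 0 ≤ C0) (l : ι) (p : ℝ × (ι → ℝ)) :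
    LepRl C0 l p ≤ 2 * LepR C0 p := by
  classical
  have h1 := LepR_eq C0 l p
  have h2 : |p.1| ≤ LepR C0 p := by
    unfold LepR
    have := Finset.single_le_sum (f := fun l' => |p.1| + |p.2 l'|) (fun l' _ => by positivity)
      (Finset.mem_univ l)
    have h3 : 0 ≤ |p.2 l| := abs_nonneg _
    linarith
  have h3 : 0 ≤ |p.2 l| := abs_nonneg _
  linarith

open Classical in
theorem LepRl_update {ι : Type} [Fintype ι] (C0 : ℝ) (l : ι) (y t : ℝ) (g : ι → ℝ) :
    LepRl C0 l (y, Function.update g l t) = LepRl C0 l (y, g) := by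
  unfold LepRl
  congr 1
  refine Finset.sum_congr rfl fun l' hl' => ?_
  simp [Function.update_of_ne (Finset.ne_of_mem_erase hl')]

theorem LepR_memLp {ι : Type} [Fintype ι] (C0 : ℝ) (v : NNReal) (p : ℕ) :
    MemLp (LepR (ι := ι) C0) p ((gaussianReal 0 v).prod (gam ι)) := by
  unfold LepR
  refine MemLp.add (memLp_const C0) (memLp_finsetSum _ fun l _ => MemLp.add ?_ ?_)
  · have h1 : MemLp (fun y : ℝ => |y|) p (gaussianReal 0 v) :=
      (memLp_id_gaussianReal' (μ := 0) (v := v) (p : ENNReal) (ENNReal.natCast_ne_top p)).norm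
    exact h1.comp_measurePreserving measurePreserving_fst
  · have h1 : MemLp (fun y : ℝ => |y|) p (gaussianReal 0 1) :=
      (memLp_id_gaussianReal' (μ := 0) (v := 1) (p : ENNReal) (ENNReal.natCast_ne_top p)).norm
    have h2 : MeasurePreserving (Function.eval l) (gam ι) (gaussianReal 0 1) :=
      measurePreserving_eval (fun _ : ι => gaussianReal 0 1) l
    exact (h1.comp_measurePreserving h2).comp_measurePreserving measurePreserving_snd

theorem LepR_pow_int {ι : Type} [Fintype ι] {C0 : ℝ} (hC0 : 0 ≤ C0) (v : NNReal) (p : ℕ) :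
    Integrable (fun q => LepR (ι := ι) C0 q ^ p) ((gaussianReal 0 v).prod (gam ι)) := by
  have h := (LepR_memLp (ι := ι) C0 v p).integrable_norm_pow' 
  refine h.congr (Filter.Eventually.of_forall fun q => ?_)
  simp only [Real.norm_eq_abs, abs_of_nonneg (LepR_nonneg hC0 q)]

theorem LepRl_pow_int {ι : Type} [Fintype ι] {C0 : ℝ} (hC0 : 0 ≤ C0) (v : NNReal) (p : ℕ) (l : ι) :
    Integrable (fun q => LepRl (ι := ι) C0 l q ^ p) ((gaussianReal 0 v).prod (gam ι)) := by
  refine ((LepR_pow_int (ι := ι) hC0 v p).const_mul (2 ^ p)).mono'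
    ((LepRl_meas C0 l).pow_const p).aestronglyMeasurable (Filter.Eventually.of_forall fun q => ?_)
  rw [Real.norm_eq_abs, abs_of_nonneg (pow_nonneg (LepRl_nonneg hC0 l q) p), ← mul_pow]
  exact pow_le_pow_left₀ (LepRl_nonneg hC0 l q) (LepRl_le hC0 l q) p

open Classical in
theorem Lep_slab {ι : Type} [Fintype ι] {C0 : ℝ} (hC0 : 0 ≤ C0) (v : NNReal) (l : ι) (N : ℝ)
    (hN : 0 ≤ N) :
    ∫ q, (if 0 ≤ q.2 l - q.1 ∧ q.2 l - q.1 ≤ 4 * N * LepRl C0 l q then
        16 * N ^ 2 * LepRl C0 l q ^ 2 else 0) ∂((gaussianReal 0 v).prod (gam ι))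
      ≤ 64 * N ^ 3 * ∫ q, LepRl C0 l q ^ 3 ∂((gaussianReal 0 v).prod (gam ι)) := by
  set F : ℝ × (ι → ℝ) → ℝ := fun q => if 0 ≤ q.2 l - q.1 ∧ q.2 l - q.1 ≤ 4 * N * LepRl C0 l q then
        16 * N ^ 2 * LepRl C0 l q ^ 2 else 0 with hF
  have hms : MeasurableSet {q : ℝ × (ι → ℝ) | 0 ≤ q.2 l - q.1 ∧
      q.2 l - q.1 ≤ 4 * N * LepRl C0 l q} := by
    have h1 : Measurable fun q : ℝ × (ι → ℝ) => q.2 l - q.1 := by fun_prop
    have h2 := LepRl_meas C0 l
    exact (measurableSet_le measurable_const h1).inter (measurableSet_le h1 (h2.const_mul _))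
  have hFm : Measurable F :=
    Measurable.ite hms (((LepRl_meas C0 l).pow_const 2).const_mul _) measurable_const
  have hF0 : ∀ q, 0 ≤ F q := fun q => by
    simp only [hF]; split_ifs <;> positivity
  have hFi : Integrable F ((gaussianReal 0 v).prod (gam ι)) := by
    refine ((LepRl_pow_int (ι := ι) hC0 v 2 l).const_mul (16 * N ^ 2)).mono'
      hFm.aestronglyMeasurable (Filter.Eventually.of_forall fun q => ?_)
    rw [Real.norm_eq_abs, abs_of_nonneg (hF0 q)]
    simp only [hF]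
    split_ifs
    · exact le_rfl
    · positivity
  have h3 := LepRl_pow_int (ι := ι) hC0 v 3 l
  rw [integral_prod _ hFi, ← integral_const_mul, integral_prod _ (h3.const_mul _)]
  refine integral_mono_ae hFi.integral_prod_left (h3.const_mul _).integral_prod_left ?_
  filter_upwards [hFi.prod_right_ae, (h3.const_mul (64 * N ^ 3)).prod_right_ae] with y hy1 hy2
  -- fixed y
  have hmp := Ibp_map_update (κ := ι) l
  have hFy : Measurable fun g : ι → ℝ => F (y, g) := hFm.comp (measurable_const.prodMk measurable_id)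
  have e1 : ∫ g, F (y, g) ∂(gam ι)
      = ∫ q : ℝ × (ι → ℝ), F (y, Function.update q.2 l q.1) ∂((gaussianReal 0 1).prod (gam ι)) := by
    have e0 := integral_map (μ := (gaussianReal 0 1).prod (gam ι)) hmp.measurable.aemeasurable
      hFy.aestronglyMeasurable
    rw [← e0, hmp.map_eq]
  have hi2 : Integrable (fun q : ℝ × (ι → ℝ) => F (y, Function.update q.2 l q.1))
      ((gaussianReal 0 1).prod (gam ι)) := by
    exact (hmp.integrable_comp hFy.aestronglyMeasurable).mpr hy1
  rw [e1, integral_prod_symm _ hi2]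
  refine integral_mono_of_nonneg (Filter.Eventually.of_forall fun g => integral_nonneg fun t => hF0 _)
    hy2 (Filter.Eventually.of_forall fun g => ?_)
  show ∫ t, F (y, Function.update g l t) ∂(gaussianReal 0 1) ≤ 64 * N ^ 3 * LepRl C0 l (y, g) ^ 3
  set r := LepRl C0 l (y, g) with hr
  have hr0 : 0 ≤ r := LepRl_nonneg hC0 l _
  have e2 : (fun t : ℝ => F (y, Function.update g l t))
      = Set.indicator (Set.Icc y (y + 4 * N * r)) (fun _ => 16 * N ^ 2 * r ^ 2) := by
    funext t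
    simp only [hF, LepRl_update, Function.update_self, ← hr]
    by_cases ht : t ∈ Set.Icc y (y + 4 * N * r)
    · rw [Set.indicator_of_mem ht, if_pos]
      exact ⟨by linarith [ht.1], by linarith [ht.2]⟩
    · rw [Set.indicator_of_notMem ht, if_neg]
      intro h
      exact ht ⟨by linarith [h.1], by linarith [h.2]⟩
  rw [e2, integral_indicator measurableSet_Icc, setIntegral_const, smul_eq_mul]
  have h5 := Lep_gauss_Icc y (y + 4 * N * r) (by nlinarith [mul_nonneg hN hr0])
  calc (gaussianReal 0 1).real (Set.Icc y (y + 4 * N * r)) * (16 * N ^ 2 * r ^ 2)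
      ≤ (4 * N * r) * (16 * N ^ 2 * r ^ 2) :=
        mul_le_mul_of_nonneg_right (by linarith) (by positivity)
    _ = 64 * N ^ 3 * r ^ 3 := by ring

theorem Lep_entry {m : ℕ} (H : Fin m → Fin m → ℝ) (a b : Fin m) : |H a b| ≤ Real.sqrt (fs H) := by
  refine Real.abs_le_sqrt ?_
  unfold fs
  have h1 := Finset.single_le_sum (f := fun k => H a k ^ 2) (fun k _ => sq_nonneg _)
    (Finset.mem_univ b)
  have h2 := Finset.single_le_sum (f := fun j => ∑ k, H j k ^ 2)
    (fun j _ => Finset.sum_nonneg fun k _ => sq_nonneg _) (Finset.mem_univ a)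
  exact le_trans h1 h2

open Classical in
theorem Lep_cellF_meas {m : ℕ} (j : Fin m) : Measurable (cellF j) := by
  unfold cellF
  refine Measurable.ite ?_ measurable_const measurable_const
  have : {x : Fin m → ℝ | ∀ l, l ≠ j → x l < x j} = ⋂ l, {x : Fin m → ℝ | l ≠ j → x l < x j} := by
    ext x; simp
  rw [this]
  refine MeasurableSet.iInter fun l => ?_
  by_cases h : l = j
  · simp [h]
  · simp only [ne_eq, h, not_false_eq_true, forall_const]
    exact measurableSet_lt (measurable_pi_apply l) (measurable_pi_apply j)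

theorem Lep_cellF_mem {m : ℕ} (j : Fin m) (x : Fin m → ℝ) : 0 ≤ cellF j x ∧ cellF j x ≤ 1 := by
  unfold cellF
  split_ifs <;> norm_num

open Classical in
theorem Lep_cellF_Psi {m : ℕ} (j k : Fin m) (hjk : j ≠ k) (p : (ℝ × (LepI j k → ℝ)) × ℝ) :
    cellF j (LepPsi j k p) = if 0 < p.2 ∧ ∀ l, p.1.2 l < p.1.1 + p.2 / 2 then 1 else 0 := by
  unfold cellF
  congr 1
  rw [eq_iff_iff]
  constructor
  · intro h
    refine ⟨?_, fun l => ?_⟩
    · have := h k hjk.symm
      rw [LepPsi_j, LepPsi_k j k hjk] at this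
      linarith
    · have := h l.1 l.2.1
      rwa [LepPsi_j, LepPsi_l] at this
  · rintro ⟨h1, h2⟩ l hl
    by_cases hk : l = k
    · subst hk
      rw [LepPsi_j, LepPsi_k j l hjk]
      linarith
    · have := h2 ⟨l, hl, hk⟩
      rw [LepPsi_j]
      rwa [← LepPsi_l] at this

/-- the linear form on the wall. -/
noncomputable def Lepw {m : ℕ} (H : Fin m → Fin m → ℝ) (c : Fin m → ℝ) (j k : Fin m)
    (q : ℝ × (LepI j k → ℝ)) : ℝ :=
  c k - c j - ∑ l : LepI j k, (H k l.1 - H j l.1) * (q.1 - q.2 l)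

theorem Lepw_meas {m : ℕ} (H : Fin m → Fin m → ℝ) (c : Fin m → ℝ) (j k : Fin m) :
    Measurable (Lepw H c j k) := by
  unfold Lepw
  fun_prop

theorem Lepw_le {m : ℕ} (H : Fin m → Fin m → ℝ) (c : Fin m → ℝ) (j k : Fin m) (C0 : ℝ)
    (hc : ∀ l, |c l| ≤ C0 * Real.sqrt (fs H)) (q : ℝ × (LepI j k → ℝ)) :
    |Lepw H c j k q| ≤ 2 * Real.sqrt (fs H) * LepR C0 q := by
  unfold Lepw LepR
  set N := Real.sqrt (fs H) with hN
  have hN0 : 0 ≤ N := Real.sqrt_nonneg _
  have h1 : |∑ l : LepI j k, (H k l.1 - H j l.1) * (q.1 - q.2 l)|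
      ≤ ∑ l : LepI j k, 2 * N * (|q.1| + |q.2 l|) := by
    refine (Finset.abs_sum_le_sum_abs _ _).trans (Finset.sum_le_sum fun l _ => ?_)
    rw [abs_mul]
    refine mul_le_mul ?_ (abs_sub _ _) (abs_nonneg _) (by positivity)
    refine (abs_sub _ _).trans ?_
    have := Lep_entry H k l.1
    have := Lep_entry H j l.1
    linarith
  rw [← Finset.mul_sum] at h1
  have h2 := abs_sub (c k - c j) (∑ l : LepI j k, (H k l.1 - H j l.1) * (q.1 - q.2 l))
  have h3 := abs_sub (c k) (c j)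
  have := hc k
  have := hc j
  rw [mul_add]
  linarith

theorem Lep_form {m : ℕ} (H : Fin m → Fin m → ℝ) (hH : HS H) (c : Fin m → ℝ) (j k : Fin m)
    (hjk : j ≠ k) (p : (ℝ × (LepI j k → ℝ)) × ℝ) :
    (c k + ∑ l, H k l * LepPsi j k p l) - (c j + ∑ l, H j l * LepPsi j k p l)
        - (LepPsi j k p j - LepPsi j k p k)
      = Lepw H c j k p.1 - (1 - (2 * H j k - H j j - H k k) / 2) * p.2 := by
  have hk := hH.row k
  have hj := hH.row j
  rw [Lep_sum j k hjk] at hk hj
  rw [Lep_sum j k hjk, Lep_sum j k hjk, LepPsi_j, LepPsi_k j k hjk]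
  simp_rw [LepPsi_l]
  unfold Lepw
  have e1 : ∑ l : LepI j k, (H k l.1 - H j l.1) * (p.1.1 - p.1.2 l)
      = (∑ l : LepI j k, H k l.1 - ∑ l : LepI j k, H j l.1) * p.1.1
        - (∑ l : LepI j k, H k l.1 * p.1.2 l - ∑ l : LepI j k, H j l.1 * p.1.2 l) := by
    rw [← Finset.sum_sub_distrib, ← Finset.sum_sub_distrib, Finset.sum_mul,
      ← Finset.sum_sub_distrib]
    refine Finset.sum_congr rfl fun l _ => ?_
    ring
  rw [e1, hH.symm k j] at *
  have e2 : ∑ l : LepI j k, H k l.1 = -(H j k + H k k) := by linarith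
  have e3 : ∑ l : LepI j k, H j l.1 = -(H j j + H j k) := by linarith
  rw [e2, e3]
  ring

open Classical in
theorem Lep_pair {m : ℕ} (j k : Fin m) (hjk : j ≠ k) (C0 : ℝ) (hC0 : 0 ≤ C0) :
    ∃ C : ℝ, 0 ≤ C ∧ ∀ H : Fin m → Fin m → ℝ, HS H → Real.sqrt (fs H) ≤ 1 / 8 →
    ∀ c : Fin m → ℝ, (∀ l, |c l| ≤ C0 * Real.sqrt (fs H)) →
    ∫ g, cellF j g * max 0 ((c k + ∑ l, H k l * g l) - (c j + ∑ l, H j l * g l) - (g j - g k))
        ∂(gam (Fin m))
      ≤ (4 * Real.sqrt Real.pi)⁻¹ * ∫ q : ℝ × (LepI j k → ℝ),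
          (if ∀ l, q.2 l < q.1 then (max 0 (Lepw H c j k q)) ^ 2 else 0)
            ∂((gaussianReal 0 (1 / 2)).prod (gam (LepI j k)))
        + C * Real.sqrt (fs H) ^ 3 := by
  set μ := (gaussianReal 0 (1 / 2)).prod (gam (LepI j k)) with hμ
  refine ⟨16 * ∫ q, LepR C0 q ^ 2 ∂μ + ∑ l, 64 * ∫ q, LepRl C0 l q ^ 3 ∂μ, ?_, ?_⟩
  · refine add_nonneg (mul_nonneg (by norm_num) (integral_nonneg fun q => sq_nonneg _))
      (Finset.sum_nonneg fun l _ => mul_nonneg (by norm_num) (integral_nonneg fun q =>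
        pow_nonneg (LepRl_nonneg hC0 l q) 3))
  intro H hH hN8 c hc
  set N := Real.sqrt (fs H) with hN
  have hN0 : 0 ≤ N := Real.sqrt_nonneg _
  set θ : ℝ := 1 - (2 * H j k - H j j - H k k) / 2 with hθ
  have hθ1 : 1 - 2 * N ≤ θ := by
    have h1 := abs_le.mp (Lep_entry H j k)
    have h2 := abs_le.mp (Lep_entry H j j)
    have h3 := abs_le.mp (Lep_entry H k k)
    rw [← hN] at h1 h2 h3
    linarith [h1.2, h2.1, h3.1]
  have hθ2 : 1 / 2 ≤ θ := by linarith
  set F : (Fin m → ℝ) → ℝ := fun g => cellF j g *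
    max 0 ((c k + ∑ l, H k l * g l) - (c j + ∑ l, H j l * g l) - (g j - g k)) with hF
  have hFm : Measurable F := by
    refine (Lep_cellF_meas j).mul ?_
    fun_prop
  have hF0 : ∀ g, 0 ≤ F g := fun g => mul_nonneg (Lep_cellF_mem j g).1 (le_max_left _ _)
  have hFP : ∀ p, F (LepPsi j k p) = (if 0 < p.2 ∧ ∀ l, p.1.2 l < p.1.1 + p.2 / 2 then 1 else 0) *
      max 0 (Lepw H c j k p.1 - θ * p.2) := by
    intro p
    simp only [hF]
    rw [Lep_cellF_Psi j k hjk, Lep_form H hH c j k hjk]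
  set w := Lepw H c j k with hw
  have hwm : Measurable w := Lepw_meas H c j k
  have hwle : ∀ q, |w q| ≤ 2 * N * LepR C0 q := fun q => Lepw_le H c j k C0 hc q
  have hw2 : ∀ q, w q ^ 2 ≤ 4 * N ^ 2 * LepR C0 q ^ 2 := by
    intro q
    have h1 := hwle q
    have h2 := abs_nonneg (w q)
    rw [← sq_abs]
    nlinarith
  -- the majorant
  set A : ℝ × (LepI j k → ℝ) → ℝ := fun q =>
    if ∀ l, q.2 l < q.1 then (max 0 (w q)) ^ 2 else 0 with hA
  set S : LepI j k → ℝ × (LepI j k → ℝ) → ℝ := fun l q =>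
    if 0 ≤ q.2 l - q.1 ∧ q.2 l - q.1 ≤ 4 * N * LepRl C0 l q then
        16 * N ^ 2 * LepRl C0 l q ^ 2 else 0 with hS
  have hAw : ∀ q, A q ≤ w q ^ 2 := by
    intro q
    simp only [hA]
    split_ifs
    · rcases le_total (w q) 0 with h | h
      · rw [max_eq_left h]; nlinarith [sq_nonneg (w q)]
      · rw [max_eq_right h]
    · exact sq_nonneg _
  have hA0 : ∀ q, 0 ≤ A q := by
    intro q
    simp only [hA]
    split_ifs <;> positivity
  have hAm : Measurable A := by
    refine Measurable.ite ?_ ((measurable_const.max hwm).pow_const 2) measurable_const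
    have : {q : ℝ × (LepI j k → ℝ) | ∀ l, q.2 l < q.1}
        = ⋂ l, {q : ℝ × (LepI j k → ℝ) | q.2 l < q.1} := by
      ext q; simp
    rw [this]
    exact MeasurableSet.iInter fun l => measurableSet_lt (by fun_prop) (by fun_prop)
  have hR2 := LepR_pow_int (ι := LepI j k) hC0 (1 / 2) 2
  have hAi : Integrable A μ := by
    refine (hR2.const_mul (4 * N ^ 2)).mono' hAm.aestronglyMeasurable
      (Filter.Eventually.of_forall fun q => ?_)
    rw [Real.norm_eq_abs, abs_of_nonneg (hA0 q)]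
    exact (hAw q).trans (hw2 q)
  have hSm : ∀ l, Measurable (S l) := by
    intro l
    refine Measurable.ite ?_ (((LepRl_meas C0 l).pow_const 2).const_mul _) measurable_const
    have h1 : Measurable fun q : ℝ × (LepI j k → ℝ) => q.2 l - q.1 := by fun_prop
    exact (measurableSet_le measurable_const h1).inter
      (measurableSet_le h1 ((LepRl_meas C0 l).const_mul _))
  have hS0 : ∀ l q, 0 ≤ S l q := by
    intro l q
    simp only [hS]
    split_ifs <;> positivity
  have hSi : ∀ l, Integrable (S l) μ := by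
    intro l
    refine ((LepRl_pow_int (ι := LepI j k) hC0 (1 / 2) 2 l).const_mul (16 * N ^ 2)).mono'
      (hSm l).aestronglyMeasurable (Filter.Eventually.of_forall fun q => ?_)
    rw [Real.norm_eq_abs, abs_of_nonneg (hS0 l q)]
    simp only [hS]
    split_ifs
    · exact le_rfl
    · positivity
  set Bd : ℝ × (LepI j k → ℝ) → ℝ := fun q =>
    (4 * Real.sqrt Real.pi)⁻¹ * A q + 16 * N ^ 3 * LepR C0 q ^ 2 + ∑ l, S l q with hBd
  have hBi : Integrable Bd μ := ((hAi.const_mul _).add (hR2.const_mul _)).add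
    (integrable_finsetSum _ fun l _ => hSi l)
  have hinner : ∀ q, ∫ s, F (LepPsi j k (q, s)) ∂(gaussianReal 0 2) ≤ Bd q := by
    intro q
    have e : ∀ s, F (LepPsi j k (q, s)) = (if 0 < s ∧ ∀ l, q.2 l < q.1 + s / 2 then 1 else 0) *
      max 0 (w q - θ * s) := fun s => hFP (q, s)
    simp_rw [e]
    refine (Lep_inner q.1 q.2 (w q) θ hθ2).trans ?_
    have hs := Lep_sqrt_pi
    refine add_le_add ?_ (Finset.sum_le_sum fun l _ => ?_)
    · have h1 : 1 / θ ≤ 1 + 4 * N := by
        rw [div_le_iff₀ (by linarith)]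
        nlinarith
      have h2 : (4 * Real.sqrt Real.pi)⁻¹ ≤ 1 := inv_le_one_of_one_le₀ (by linarith)
      have h3 : (0 : ℝ) ≤ (4 * Real.sqrt Real.pi)⁻¹ := by positivity
      have h4 := hA0 q
      have h5 := (hAw q).trans (hw2 q)
      calc (4 * Real.sqrt Real.pi)⁻¹ * A q * (1 / θ)
          ≤ (4 * Real.sqrt Real.pi)⁻¹ * A q * (1 + 4 * N) :=
            mul_le_mul_of_nonneg_left h1 (mul_nonneg h3 h4)
        _ = (4 * Real.sqrt Real.pi)⁻¹ * A q + (4 * Real.sqrt Real.pi)⁻¹ * (A q * (4 * N)) := by ring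
        _ ≤ (4 * Real.sqrt Real.pi)⁻¹ * A q + 1 * (A q * (4 * N)) := by
            have := mul_le_mul_of_nonneg_right h2 (mul_nonneg h4 (by positivity : 0 ≤ 4 * N))
            linarith
        _ ≤ (4 * Real.sqrt Real.pi)⁻¹ * A q + 16 * N ^ 3 * LepR C0 q ^ 2 := by
            have := mul_le_mul_of_nonneg_right h5 (by positivity : 0 ≤ 4 * N)
            nlinarith
    · -- slab
      have hRl := LepRl_nonneg hC0 l q
      simp only [hS]
      by_cases hcase : 0 ≤ q.2 l - q.1 ∧ q.2 l - q.1 ≤ |w q|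
      · have h1 := hwle q
        have h2 := LepR_eq C0 l q
        have h3 : |q.2 l| ≤ |q.1| + |w q| := by
          have h4 : q.2 l = q.1 + (q.2 l - q.1) := by ring
          rw [h4]
          refine (abs_add_le _ _).trans ?_
          rw [abs_of_nonneg hcase.1]
          linarith [hcase.2]
        have h5 : LepR C0 q ≤ 2 * LepRl C0 l q := by
          have h6 : LepR C0 q ≤ LepRl C0 l q + |w q| := by linarith
          have h7 := LepR_nonneg hC0 q
          nlinarith
        have h8 : |w q| ≤ 4 * N * LepRl C0 l q := by nlinarith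
        rw [if_pos hcase, if_pos ⟨hcase.1, hcase.2.trans h8⟩, ← sq_abs]
        have h9 := abs_nonneg (w q)
        nlinarith
      · rw [if_neg hcase]
        split_ifs <;> positivity
  -- integrability of F
  have hFi : Integrable F (gam (Fin m)) := by
    have hG : Integrable (fun g : Fin m → ℝ =>
        (c k + ∑ l, H k l * g l) - (c j + ∑ l, H j l * g l) - (g j - g k)) (gam (Fin m)) := by
      have hl : ∀ l : Fin m, Integrable (fun g : Fin m → ℝ => g l) (gam (Fin m)) := by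
        intro l
        refine integrable_gam (fun g => g l) 1 1 (by fun_prop) (fun g => ?_)
        have := norm_le_pi_norm g l
        rw [Real.norm_eq_abs] at this
        simp only [one_mul, pow_one]
        linarith
      refine ((((integrable_const _).add (integrable_finsetSum _ fun l _ => (hl l).const_mul _)).sub
        ((integrable_const _).add (integrable_finsetSum _ fun l _ => (hl l).const_mul _))).sub
        ((hl j).sub (hl k)))
    refine hG.abs.mono' hFm.aestronglyMeasurable (Filter.Eventually.of_forall fun g => ?_)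
    rw [Real.norm_eq_abs, abs_of_nonneg (hF0 g)]
    simp only [hF]
    have h1 := Lep_cellF_mem j g
    have h2 : max 0 ((c k + ∑ l, H k l * g l) - (c j + ∑ l, H j l * g l) - (g j - g k))
        ≤ |(c k + ∑ l, H k l * g l) - (c j + ∑ l, H j l * g l) - (g j - g k)| :=
      max_le (abs_nonneg _) (le_abs_self _)
    have h3 : 0 ≤ max 0 ((c k + ∑ l, H k l * g l) - (c j + ∑ l, H j l * g l) - (g j - g k)) :=
      le_max_left _ _
    nlinarith
  have hmp := LepPsi_mp j k hjk
  have hFPi : Integrable (fun p => F (LepPsi j k p)) (μ.prod (gaussianReal 0 2)) :=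
    (hmp.integrable_comp hFm.aestronglyMeasurable).mpr hFi
  have e1 : ∫ g, F g ∂(gam (Fin m)) = ∫ p, F (LepPsi j k p) ∂(μ.prod (gaussianReal 0 2)) := by
    have e0 := integral_map (μ := μ.prod (gaussianReal 0 2)) hmp.measurable.aemeasurable
      hFm.aestronglyMeasurable
    rw [← e0, hmp.map_eq]
  show ∫ g, F g ∂(gam (Fin m)) ≤ _
  rw [e1, integral_prod _ hFPi]
  have hstep : ∫ q, ∫ s, F (LepPsi j k (q, s)) ∂(gaussianReal 0 2) ∂μ ≤ ∫ q, Bd q ∂μ :=
    integral_mono_of_nonneg (Filter.Eventually.of_forall fun q => integral_nonneg fun s => hF0 _)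
      hBi (Filter.Eventually.of_forall hinner)
  refine hstep.trans ?_
  have hval : ∫ q, Bd q ∂μ = (4 * Real.sqrt Real.pi)⁻¹ * ∫ q, A q ∂μ
      + 16 * N ^ 3 * ∫ q, LepR C0 q ^ 2 ∂μ + ∑ l, ∫ q, S l q ∂μ := by
    have e4 : ∫ q, Bd q ∂μ = ∫ q, ((4 * Real.sqrt Real.pi)⁻¹ * A q + 16 * N ^ 3 * LepR C0 q ^ 2) ∂μ
        + ∫ q, ∑ l, S l q ∂μ :=
      integral_add ((hAi.const_mul _).add (hR2.const_mul _))
        (integrable_finsetSum _ fun l _ => hSi l)
    have e5 : ∫ q, ((4 * Real.sqrt Real.pi)⁻¹ * A q + 16 * N ^ 3 * LepR C0 q ^ 2) ∂μ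
        = ∫ q, (4 * Real.sqrt Real.pi)⁻¹ * A q ∂μ + ∫ q, 16 * N ^ 3 * LepR C0 q ^ 2 ∂μ :=
      integral_add (hAi.const_mul _) (hR2.const_mul _)
    rw [e4, e5, integral_const_mul, integral_const_mul, integral_finsetSum _ (fun l _ => hSi l)]
  rw [hval]
  have hsl : ∀ l, ∫ q, S l q ∂μ ≤ 64 * N ^ 3 * ∫ q, LepRl C0 l q ^ 3 ∂μ := fun l =>
    Lep_slab hC0 (1 / 2) l N hN0
  have hsum : ∑ l, ∫ q, S l q ∂μ ≤ ∑ l, 64 * N ^ 3 * ∫ q, LepRl C0 l q ^ 3 ∂μ :=
    Finset.sum_le_sum fun l _ => hsl l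
  have e3 : ∑ l, 64 * N ^ 3 * ∫ q, LepRl C0 l q ^ 3 ∂μ
      = (∑ l, 64 * ∫ q, LepRl C0 l q ^ 3 ∂μ) * N ^ 3 := by
    rw [Finset.sum_mul]
    refine Finset.sum_congr rfl fun l _ => ?_
    ring
  rw [e3] at hsum
  rw [add_mul]
  linarith

open Classical in
/-- pair term: `v = c + H g`. -/
theorem pair_bound (m : ℕ) (hm : 2 ≤ m) (C0 : ℝ) (hC0 : 0 ≤ C0) : ∃ C r0 : ℝ, 0 ≤ C ∧ 0 < r0 ∧
    ∀ H : Fin m → Fin m → ℝ, HS H → fs H ≤ r0 ^ 2 → ∀ c : Fin m → ℝ,
    (∀ l, |c l| ≤ C0 * Real.sqrt (fs H)) → ∀ j k : Fin m, j ≠ k →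
    ∫ g, cellF j g * max 0 ((c k + ∑ l, H k l * g l) - (c j + ∑ l, H j l * g l) - (g j - g k))
        ∂(gam (Fin m))
      ≤ (4 * Real.sqrt Real.pi)⁻¹ * ∫ y, ∫ g : {l : Fin m // l ≠ j ∧ l ≠ k} → ℝ,
          (Set.indicator {g : {l : Fin m // l ≠ j ∧ l ≠ k} → ℝ | ∀ l, g l < y}
            (fun g => (max 0 (c k - c j - ∑ l, (H k l.1 - H j l.1) * (y - g l))) ^ 2) g)
            ∂(gam {l : Fin m // l ≠ j ∧ l ≠ k}) ∂(gaussianReal 0 (1 / 2))
        + C * Real.sqrt (fs H) ^ 3 := by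
  have h1 : ∀ jk : Fin m × Fin m, ∃ C : ℝ, 0 ≤ C ∧ (jk.1 ≠ jk.2 →
      ∀ H : Fin m → Fin m → ℝ, HS H → Real.sqrt (fs H) ≤ 1 / 8 →
      ∀ c : Fin m → ℝ, (∀ l, |c l| ≤ C0 * Real.sqrt (fs H)) →
      ∫ g, cellF jk.1 g * max 0 ((c jk.2 + ∑ l, H jk.2 l * g l) - (c jk.1 + ∑ l, H jk.1 l * g l)
          - (g jk.1 - g jk.2)) ∂(gam (Fin m))
        ≤ (4 * Real.sqrt Real.pi)⁻¹ * ∫ q : ℝ × (LepI jk.1 jk.2 → ℝ),
            (if ∀ l, q.2 l < q.1 then (max 0 (Lepw H c jk.1 jk.2 q)) ^ 2 else 0)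
              ∂((gaussianReal 0 (1 / 2)).prod (gam (LepI jk.1 jk.2)))
          + C * Real.sqrt (fs H) ^ 3) := by
    rintro ⟨j, k⟩
    by_cases hjk : j = k
    · exact ⟨0, le_rfl, fun h => absurd hjk h⟩
    · obtain ⟨C, hC, h⟩ := Lep_pair j k hjk C0 hC0
      exact ⟨C, hC, fun _ => h⟩
  choose C hC hbd using h1
  refine ⟨∑ jk, C jk, 1 / 8, Finset.sum_nonneg fun jk _ => hC jk, by norm_num, ?_⟩
  intro H hH hfs c hc j k hjk
  have hN8 : Real.sqrt (fs H) ≤ 1 / 8 := by
    rw [show (1 / 8 : ℝ) = Real.sqrt ((1 / 8) ^ 2) by rw [Real.sqrt_sq (by norm_num)]]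
    exact Real.sqrt_le_sqrt hfs
  have h2 := hbd (j, k) hjk H hH hN8 c hc
  have h3 : C (j, k) ≤ ∑ jk, C jk := Finset.single_le_sum (fun jk _ => hC jk) (Finset.mem_univ _)
  have hN0 : 0 ≤ Real.sqrt (fs H) ^ 3 := by positivity
  have h4 := mul_le_mul_of_nonneg_right h3 hN0
  simp only at h2
  -- integrability of the main term
  have hAi : Integrable (fun q : ℝ × (LepI j k → ℝ) =>
      if ∀ l, q.2 l < q.1 then (max 0 (Lepw H c j k q)) ^ 2 else 0)
      ((gaussianReal 0 (1 / 2)).prod (gam (LepI j k))) := by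
    refine ((LepR_pow_int (ι := LepI j k) hC0 (1 / 2) 2).const_mul
      (4 * Real.sqrt (fs H) ^ 2)).mono' ?_ (Filter.Eventually.of_forall fun q => ?_)
    · refine (Measurable.ite ?_ ((measurable_const.max (Lepw_meas H c j k)).pow_const 2)
        measurable_const).aestronglyMeasurable
      have : {q : ℝ × (LepI j k → ℝ) | ∀ l, q.2 l < q.1}
          = ⋂ l, {q : ℝ × (LepI j k → ℝ) | q.2 l < q.1} := by
        ext q; simp
      rw [this]
      exact MeasurableSet.iInter fun l => measurableSet_lt (by fun_prop) (by fun_prop)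
    · have h5 := Lepw_le H c j k C0 hc q
      have h6 : (max 0 (Lepw H c j k q)) ^ 2 ≤ 4 * Real.sqrt (fs H) ^ 2 * LepR C0 q ^ 2 := by
        have h7 : max 0 (Lepw H c j k q) ≤ 2 * Real.sqrt (fs H) * LepR C0 q :=
          max_le (le_trans (abs_nonneg _) h5) ((le_abs_self _).trans h5)
        have h8 : 0 ≤ max 0 (Lepw H c j k q) := le_max_left _ _
        nlinarith
      rw [Real.norm_eq_abs]
      split_ifs
      · rw [abs_of_nonneg (by positivity)]
        exact h6
      · rw [abs_zero]; positivity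
  rw [integral_prod _ hAi] at h2
  have e : ∀ (y : ℝ) (g : LepI j k → ℝ),
      (if ∀ l, g l < y then (max 0 (Lepw H c j k (y, g))) ^ 2 else 0)
      = (Set.indicator {g : {l : Fin m // l ≠ j ∧ l ≠ k} → ℝ | ∀ l, g l < y}
            (fun g => (max 0 (c k - c j - ∑ l, (H k l.1 - H j l.1) * (y - g l))) ^ 2) g) := by
    intro y g
    unfold Lepw
    by_cases h : ∀ l, g l < y
    · rw [if_pos h, Set.indicator_of_mem (s := {g : {l : Fin m // l ≠ j ∧ l ≠ k} → ℝ |
        ∀ l, g l < y}) h]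
    · rw [if_neg h, Set.indicator_of_notMem (s := {g : {l : Fin m // l ≠ j ∧ l ≠ k} → ℝ |
        ∀ l, g l < y}) h]
  simp only [e] at h2
  linarith

end Pool.H65.PT
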