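import Pool.Agent.Helper65.PT.Defs

set_option autoImplicit false

open MeasureTheory ProbabilityTheory Pool.H65.PS

namespace Pool.H65.PT

section naa

open Set Filter Topology

/-! ### the density -/

lemma naa_pdf_pos (y : ℝ) : 0 < gaussianPDFReal 0 1 y := gaussianPDFReal_pos 0 1 y one_ne_zero

lemma naa_pdf_eq (y : ℝ) :
    gaussianPDFReal 0 1 y = (Real.sqrt (2 * Real.pi))⁻¹ * Real.exp (-(y ^ 2) / 2) := by
  simp [gaussianPDFReal]

lemma naa_pdf_deriv (y : ℝ) :
    HasDerivAt (gaussianPDFReal 0 1) (-(y * gaussianPDFReal 0 1 y)) y := by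
  have h0 : gaussianPDFReal 0 1 = fun y => (Real.sqrt (2 * Real.pi))⁻¹ * Real.exp (-(y ^ 2) / 2) := by
    funext y; exact naa_pdf_eq y
  rw [naa_pdf_eq y, h0]
  have h1 : HasDerivAt (fun y : ℝ => -(y ^ 2) / 2) (-y) y := by
    have := ((hasDerivAt_pow 2 y).neg).div_const 2
    have e : -(((2 : ℕ) : ℝ) * y ^ (2 - 1)) / 2 = -y := by
      norm_num
      ring
    rw [e] at this
    exact this
  have h2 := (h1.exp).const_mul ((Real.sqrt (2 * Real.pi))⁻¹)
  have e : -(y * ((Real.sqrt (2 * Real.pi))⁻¹ * Real.exp (-(y ^ 2) / 2))) =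
      (Real.sqrt (2 * Real.pi))⁻¹ * (Real.exp (-(y ^ 2) / 2) * -y) := by ring
  rw [e]
  exact h2

lemma naa_pdf_cont : Continuous (gaussianPDFReal 0 1) :=
  continuous_iff_continuousAt.2 fun y => (naa_pdf_deriv y).continuousAt

/-- polynomial times density is integrable -/
lemma naa_int_pow (k : ℕ) : Integrable (fun y : ℝ => y ^ k * gaussianPDFReal 0 1 y) := by
  have h : Integrable (fun y : ℝ => y ^ k * Real.exp (-(1/2) * y ^ 2)) := by
    have := integrable_rpow_mul_exp_neg_mul_sq (b := 1/2) (by norm_num) (s := (k : ℝ))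
      (by have : (0:ℝ) ≤ k := Nat.cast_nonneg k; linarith)
    simpa [Real.rpow_natCast] using this
  have h2 := h.const_mul ((Real.sqrt (2 * Real.pi))⁻¹)
  refine h2.congr ?_
  filter_upwards with y
  rw [naa_pdf_eq]
  have : -(1/2) * y ^ 2 = -(y ^ 2) / 2 := by ring
  rw [this]
  ring

lemma naa_tendsto (k : ℕ) : Tendsto (fun y : ℝ => y ^ k * gaussianPDFReal 0 1 y) atBot (𝓝 0) := by
  have h := tendsto_rpow_abs_mul_exp_neg_mul_sq_cocompact (a := 1/2) (by norm_num) (k : ℝ)
  have h1 : Tendsto (fun y : ℝ => |y| ^ (k : ℝ) * Real.exp (-(1/2) * y ^ 2)) atBot (𝓝 0) :=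
    h.mono_left atBot_le_cocompact
  have h2 := h1.const_mul ((Real.sqrt (2 * Real.pi))⁻¹)
  rw [mul_zero] at h2
  refine squeeze_zero_norm (fun y => ?_) h2
  rw [naa_pdf_eq, Real.norm_eq_abs, abs_mul, abs_pow, abs_mul, Real.abs_exp,
    abs_of_nonneg (a := (Real.sqrt (2 * Real.pi))⁻¹) (by positivity), Real.rpow_natCast]
  have : -(1/2) * y ^ 2 = -(y ^ 2) / 2 := by ring
  rw [this]
  exact le_of_eq (by ring)

/-! ### the distribution function -/

lemma naa_integral (f : ℝ → ℝ) (y : ℝ) :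
    ∫ g, (if g < y then f g else 0) ∂(gaussianReal 0 1) =
      ∫ g in Iic y, f g * gaussianPDFReal 0 1 g := by
  rw [integral_gaussianReal_eq_integral_smul (one_ne_zero), integral_Iic_eq_integral_Iio,
    ← integral_indicator measurableSet_Iio]
  congr 1
  funext g
  by_cases hg : g < y
  · simp [hg, mul_comm]
  · simp [hg]

lemma naa_PhiC (y : ℝ) : PhiC y = ∫ g in Iic y, gaussianPDFReal 0 1 g := by
  have h := naa_integral (fun _ => 1) y
  simp only [one_mul] at h
  rw [← h]
  have : (fun g : ℝ => if g < y then (1 : ℝ) else 0) = (Iio y).indicator (fun _ => 1) := by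
    funext g
    by_cases hg : g < y <;> simp [hg]
  rw [this, integral_indicator measurableSet_Iio]
  simp [PhiC]

theorem PhiC_pos (y : ℝ) : 0 < PhiC y := by
  unfold PhiC
  rw [measureReal_def, ENNReal.toReal_pos_iff]
  refine ⟨?_, measure_lt_top _ _⟩
  rw [pos_iff_ne_zero]
  intro h
  have h2 := gaussianReal_absolutelyContinuous' 0 (one_ne_zero) h
  simp at h2

theorem PhiC_le_one (y : ℝ) : PhiC y ≤ 1 := measureReal_le_one

theorem PhiC_hasDerivAt (y : ℝ) : HasDerivAt PhiC (gaussianPDFReal 0 1 y) y := by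
  have hi : Integrable (gaussianPDFReal 0 1) := integrable_gaussianPDFReal 0 1
  have h : PhiC = fun y => (∫ g in Iic 0, gaussianPDFReal 0 1 g) +
      ∫ g in (0:ℝ)..y, gaussianPDFReal 0 1 g := by
    funext z
    rw [naa_PhiC, ← intervalIntegral.integral_Iic_sub_Iic hi.integrableOn hi.integrableOn]
    ring
  rw [h]
  have h2 := intervalIntegral.integral_hasDerivAt_right (a := 0) (b := y)
    (hi.intervalIntegrable) (naa_pdf_cont.stronglyMeasurableAtFilter _ _) naa_pdf_cont.continuousAt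
  simpa using h2.const_add (∫ g in Iic 0, gaussianPDFReal 0 1 g)

lemma naa_PhiC_tendsto : Tendsto PhiC atBot (𝓝 0) := by
  have h := tendsto_cdf_atBot (gaussianReal 0 1)
  refine squeeze_zero (fun y => (PhiC_pos y).le) (fun y => ?_) h
  rw [cdf_eq_real]
  exact measureReal_mono Iio_subset_Iic_self

lemma naa_m1 (y : ℝ) : ∫ g in Iic y, g * gaussianPDFReal 0 1 g = - gaussianPDFReal 0 1 y := by
  have h := integral_Iic_of_hasDerivAt_of_tendsto (a := y) (m := 0)
    (f := fun g => - gaussianPDFReal 0 1 g) (f' := fun g => g * gaussianPDFReal 0 1 g)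
    (naa_pdf_cont.neg.continuousWithinAt)
    (fun x _ => by
      have := (naa_pdf_deriv x).neg
      rw [neg_neg] at this
      exact this)
    (by simpa using (naa_int_pow 1).integrableOn)
    (by simpa using (naa_tendsto 0).neg)
  simpa using h

lemma naa_m2 (y : ℝ) :
    ∫ g in Iic y, g ^ 2 * gaussianPDFReal 0 1 g = PhiC y - y * gaussianPDFReal 0 1 y := by
  have hd : ∀ x, HasDerivAt (fun g => PhiC g - g * gaussianPDFReal 0 1 g)
      (x ^ 2 * gaussianPDFReal 0 1 x) x := by
    intro x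
    have h1 := (PhiC_hasDerivAt x).sub ((hasDerivAt_id x).mul (naa_pdf_deriv x))
    have e : gaussianPDFReal 0 1 x - (1 * gaussianPDFReal 0 1 x + id x * -(x * gaussianPDFReal 0 1 x))
        = x ^ 2 * gaussianPDFReal 0 1 x := by
      simp only [id]
      ring
    rw [e] at h1
    exact h1
  have h := integral_Iic_of_hasDerivAt_of_tendsto (a := y) (m := 0)
    (f := fun g => PhiC g - g * gaussianPDFReal 0 1 g) (f' := fun g => g ^ 2 * gaussianPDFReal 0 1 g)
    ((hd y).continuousAt.continuousWithinAt)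
    (fun x _ => hd x)
    ((naa_int_pow 2).integrableOn)
    (by simpa using naa_PhiC_tendsto.sub (naa_tendsto 1))
  simpa using h

lemma naa_quad (y a b c : ℝ) :
    ∫ g in Iic y, (a * gaussianPDFReal 0 1 g + b * (g * gaussianPDFReal 0 1 g)) +
      c * (g ^ 2 * gaussianPDFReal 0 1 g) =
      a * PhiC y - b * gaussianPDFReal 0 1 y + c * (PhiC y - y * gaussianPDFReal 0 1 y) := by
  have i0 : Integrable (fun g => a * gaussianPDFReal 0 1 g) (volume.restrict (Iic y)) :=
    ((integrable_gaussianPDFReal 0 1).const_mul a).restrict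
  have i1 : Integrable (fun g => b * (g * gaussianPDFReal 0 1 g)) (volume.restrict (Iic y)) := by
    have := ((naa_int_pow 1).const_mul b).restrict (s := Iic y)
    simpa using this
  have i2 : Integrable (fun g => c * (g ^ 2 * gaussianPDFReal 0 1 g)) (volume.restrict (Iic y)) :=
    ((naa_int_pow 2).const_mul c).restrict
  have e1 := integral_add (i0.add i1) i2
  have e2 := integral_add i0 i1
  simp only [Pi.add_apply] at e1
  rw [e1, e2, integral_const_mul, integral_const_mul, integral_const_mul, naa_m1, naa_m2,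
    ← naa_PhiC]
  ring

/-- `E (y-g)^+ = y Φ(y) + φ(y)` -/
theorem int_pos_part (y : ℝ) :
    ∫ g, (if g < y then y - g else 0) ∂(gaussianReal 0 1) = y * PhiC y + gaussianPDFReal 0 1 y := by
  rw [naa_integral (fun g => y - g)]
  have h := naa_quad y y (-1) 0
  have e : ∀ g : ℝ, (y - g) * gaussianPDFReal 0 1 g =
      (y * gaussianPDFReal 0 1 g + (-1) * (g * gaussianPDFReal 0 1 g)) +
        0 * (g ^ 2 * gaussianPDFReal 0 1 g) := fun g => by ring
  simp_rw [e]
  rw [h]
  ring

theorem int_pos_part_sq (y : ℝ) :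
    ∫ g, (if g < y then (y - g) ^ 2 else 0) ∂(gaussianReal 0 1)
      = (1 + y ^ 2) * PhiC y + y * gaussianPDFReal 0 1 y := by
  rw [naa_integral (fun g => (y - g) ^ 2)]
  have h := naa_quad y (y ^ 2) (-2 * y) 1
  have e : ∀ g : ℝ, (y - g) ^ 2 * gaussianPDFReal 0 1 g =
      (y ^ 2 * gaussianPDFReal 0 1 g + (-2 * y) * (g * gaussianPDFReal 0 1 g)) +
        1 * (g ^ 2 * gaussianPDFReal 0 1 g) := fun g => by ring
  simp_rw [e]
  rw [h]
  ring

/-- `r y = E[y - g | g < y]`. -/
noncomputable def rr (y : ℝ) : ℝ := y + gaussianPDFReal 0 1 y / PhiC y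

/-- `tau y = Var[g | g < y]`. -/
noncomputable def tau (y : ℝ) : ℝ :=
  1 - y * (gaussianPDFReal 0 1 y / PhiC y) - (gaussianPDFReal 0 1 y / PhiC y) ^ 2

lemma naa_A_nonneg (y : ℝ) : 0 ≤ y * PhiC y + gaussianPDFReal 0 1 y := by
  rw [← int_pos_part]
  apply integral_nonneg
  intro g
  simp only [Pi.zero_apply]
  split_ifs with h
  · linarith
  · exact le_rfl

theorem tau_nonneg (y : ℝ) : 0 ≤ tau y := by
  have hP := PhiC_pos y
  set P := PhiC y with hPd
  set f := gaussianPDFReal 0 1 y with hf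
  set A := y * P + f with hA
  have h1 : 0 ≤ ∫ g, (if g < y then ((y - g) * P - A) ^ 2 else 0) ∂(gaussianReal 0 1) := by
    apply integral_nonneg
    intro g
    simp only [Pi.zero_apply]
    split_ifs with h
    · positivity
    · exact le_rfl
  rw [naa_integral (fun g => ((y - g) * P - A) ^ 2)] at h1
  have e : ∀ g : ℝ, ((y - g) * P - A) ^ 2 * gaussianPDFReal 0 1 g =
      ((y * P - A) ^ 2 * gaussianPDFReal 0 1 g
        + (-2 * (y * P - A) * P) * (g * gaussianPDFReal 0 1 g)) +
        P ^ 2 * (g ^ 2 * gaussianPDFReal 0 1 g) := fun g => by ring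
  simp_rw [e] at h1
  rw [naa_quad, ← hPd, ← hf] at h1
  have h2 : 0 ≤ P * (P ^ 2 - y * f * P - f ^ 2) := by
    rw [hA] at h1
    nlinarith [h1]
  have h3 : 0 ≤ P ^ 2 - y * f * P - f ^ 2 := by
    by_contra hc
    push Not at hc
    have := mul_neg_of_pos_of_neg hP hc
    linarith
  have h4 : tau y = (P ^ 2 - y * f * P - f ^ 2) / P ^ 2 := by
    unfold tau
    rw [← hPd, ← hf]
    field_simp
  rw [h4]
  positivity

theorem tau_le_one (y : ℝ) : tau y ≤ 1 := by
  have hP := PhiC_pos y
  have hf := naa_pdf_pos y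
  have hA := naa_A_nonneg y
  have h4 : tau y = 1 - gaussianPDFReal 0 1 y * (y * PhiC y + gaussianPDFReal 0 1 y) /
      PhiC y ^ 2 := by
    unfold tau
    field_simp
    ring
  rw [h4]
  have : 0 ≤ gaussianPDFReal 0 1 y * (y * PhiC y + gaussianPDFReal 0 1 y) / PhiC y ^ 2 := by
    positivity
  linarith

lemma naa_ratio_deriv (y : ℝ) :
    HasDerivAt (fun y => gaussianPDFReal 0 1 y / PhiC y) (tau y - 1) y := by
  have hP := PhiC_pos y
  have h := (naa_pdf_deriv y).div (PhiC_hasDerivAt y) hP.ne'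
  have e : (-(y * gaussianPDFReal 0 1 y) * PhiC y - gaussianPDFReal 0 1 y * gaussianPDFReal 0 1 y) /
      PhiC y ^ 2 = tau y - 1 := by
    unfold tau
    field_simp
    ring
  rw [e] at h
  exact h

theorem rr_hasDerivAt (y : ℝ) : HasDerivAt rr (tau y) y := by
  have h := (hasDerivAt_id y).add (naa_ratio_deriv y)
  have e : (1 : ℝ) + (tau y - 1) = tau y := by ring
  rw [e] at h
  exact h

theorem rr_lipschitz (y z : ℝ) : |rr y - rr z| ≤ |y - z| := by
  have h := Convex.norm_image_sub_le_of_norm_hasDerivWithin_le (f := rr) (f' := tau) (C := 1)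
    (s := univ) (x := z) (y := y) (fun x _ => (rr_hasDerivAt x).hasDerivWithinAt)
    (fun x _ => by
      rw [Real.norm_eq_abs, abs_of_nonneg (tau_nonneg x)]
      exact tau_le_one x) convex_univ (mem_univ _) (mem_univ _)
  simpa using h

theorem ratio_antitone : Antitone (fun y => gaussianPDFReal 0 1 y / PhiC y) := by
  apply antitone_of_deriv_nonpos
  · exact fun y => (naa_ratio_deriv y).differentiableAt
  · intro y
    rw [(naa_ratio_deriv y).deriv]
    linarith [tau_le_one y]

end naa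

end Pool.H65.PT
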