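import Pool.Agent.Helper65.PT.Defs
import Pool.Agent.Helper65.PT.Naa
import Pool.Agent.Helper65.PS.Ibp

set_option autoImplicit false

open MeasureTheory ProbabilityTheory Pool.H65.PS

namespace Pool.H65.PT

/-- the Gaussian with variance one half is a scaled standard Gaussian. -/
theorem Nab_map : (gaussianReal 0 1).map (fun t => (Real.sqrt 2)⁻¹ * t) = gaussianReal 0 (1 / 2) := by
  rw [gaussianReal_map_const_mul]
  congr 1
  · simp
  · ext
    simp [inv_pow]

theorem Nab_cont : Continuous PhiC :=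
  continuous_iff_continuousAt.mpr fun y => (PhiC_hasDerivAt y).continuousAt

theorem Nab_pdf_le (y : ℝ) : |gaussianPDFReal 0 1 y| ≤ 1 := by
  rw [abs_of_nonneg (gaussianPDFReal_nonneg 0 1 y), gaussianPDFReal_def]
  have h1 : (Real.sqrt (2 * Real.pi * ((1 : NNReal) : ℝ)))⁻¹ ≤ 1 := by
    apply inv_le_one_of_one_le₀
    rw [Real.one_le_sqrt]
    have := Real.pi_gt_three
    simp only [NNReal.coe_one]
    nlinarith
  have h2 : Real.exp (-(y - 0) ^ 2 / (2 * ((1 : NNReal) : ℝ))) ≤ 1 := by
    apply Real.exp_le_one_iff.mpr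
    simp only [NNReal.coe_one]
    have := sq_nonneg (y - 0)
    linarith [this]
  calc _ ≤ 1 * 1 := mul_le_mul h1 h2 (Real.exp_pos _).le zero_le_one
    _ = 1 := one_mul 1

theorem Nab_pdf_cont : Continuous (gaussianPDFReal 0 1) := by
  rw [gaussianPDFReal_def]
  fun_prop

/-- integrability with respect to `N(0,1/2)` of continuous functions of linear growth. -/
theorem Nab_int (F : ℝ → ℝ) (C : ℝ) (p : ℕ) (hF : Continuous F)
    (hb : ∀ g, |F g| ≤ C * (1 + ‖g‖) ^ p) (hC : 0 ≤ C) :
    Integrable F (gaussianReal 0 (1 / 2)) := by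
  rw [← Nab_map, integrable_map_measure hF.aestronglyMeasurable (by fun_prop)]
  refine Ibp_integrable_one _ C p (by fun_prop) (fun g => (hb _).trans ?_)
  refine mul_le_mul_of_nonneg_left ?_ hC
  refine pow_le_pow_left₀ (by positivity) ?_ p
  have h1 : (Real.sqrt 2)⁻¹ ≤ 1 := inv_le_one_of_one_le₀ (Real.one_le_sqrt.mpr (by norm_num))
  have h2 : ‖(Real.sqrt 2)⁻¹ * g‖ ≤ ‖g‖ := by
    rw [norm_mul, Real.norm_eq_abs, abs_of_pos (by positivity)]
    exact mul_le_of_le_one_left (norm_nonneg _) h1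
  linarith

/-- integration by parts for `N(0,1/2)`. -/
theorem Nab_ibp (f f' : ℝ → ℝ) (C : ℝ) (p : ℕ) (hf : Continuous f) (hf' : Continuous f')
    (hd : ∀ t, HasDerivAt f (f' t) t) (hb : ∀ t, |f t| ≤ C * (1 + ‖t‖) ^ p)
    (hb' : ∀ t, |f' t| ≤ C * (1 + ‖t‖) ^ p) (hC : 0 ≤ C) :
    ∫ t, t * f t ∂(gaussianReal 0 (1 / 2)) = (1 / 2) * ∫ t, f' t ∂(gaussianReal 0 (1 / 2)) := by
  have h1 : (Real.sqrt 2)⁻¹ ≤ 1 := inv_le_one_of_one_le₀ (Real.one_le_sqrt.mpr (by norm_num))
  have h0 : (0 : ℝ) < (Real.sqrt 2)⁻¹ := by positivity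
  have hle : ∀ t : ℝ, C * (1 + ‖(Real.sqrt 2)⁻¹ * t‖) ^ p ≤ C * (1 + ‖t‖) ^ p := by
    intro t
    refine mul_le_mul_of_nonneg_left ?_ hC
    refine pow_le_pow_left₀ (by positivity) ?_ p
    have h2 : ‖(Real.sqrt 2)⁻¹ * t‖ ≤ ‖t‖ := by
      rw [norm_mul, Real.norm_eq_abs, abs_of_pos h0]
      exact mul_le_of_le_one_left (norm_nonneg _) h1
    linarith
  have key := Ibp_one (fun t => f ((Real.sqrt 2)⁻¹ * t)) (fun t => (Real.sqrt 2)⁻¹ * f' ((Real.sqrt 2)⁻¹ * t))
    C p (by fun_prop) (by fun_prop)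
    (fun t => by
      have hlin : HasDerivAt (fun t : ℝ => (Real.sqrt 2)⁻¹ * t) ((Real.sqrt 2)⁻¹) t := by
        simpa using (hasDerivAt_id t).const_mul ((Real.sqrt 2)⁻¹)
      have := (hd ((Real.sqrt 2)⁻¹ * t)).comp t hlin
      rw [mul_comm]
      exact this)
    (fun t => (hb _).trans (hle t))
    (fun t => by
      rw [abs_mul, abs_of_pos h0]
      calc _ ≤ 1 * |f' ((Real.sqrt 2)⁻¹ * t)| :=
            mul_le_mul_of_nonneg_right h1 (abs_nonneg _)
        _ ≤ _ := by rw [one_mul]; exact (hb' _).trans (hle t))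
  rw [← Nab_map, integral_map (by fun_prop) (by fun_prop), integral_map (by fun_prop) (by fun_prop)]
  rw [integral_const_mul] at key
  have h2 : ∀ t : ℝ, (Real.sqrt 2)⁻¹ * t * f ((Real.sqrt 2)⁻¹ * t)
      = (Real.sqrt 2)⁻¹ * (t * f ((Real.sqrt 2)⁻¹ * t)) := fun t => by ring
  simp_rw [h2]
  rw [integral_const_mul, key, ← mul_assoc]
  congr 1
  rw [← mul_inv, Real.mul_self_sqrt (by norm_num)]
  norm_num

theorem Nab_pow_le (k : ℕ) (y : ℝ) : |PhiC y ^ k| ≤ 1 := by
  rw [abs_of_nonneg (pow_nonneg (PhiC_pos y).le _)]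
  exact pow_le_one₀ (PhiC_pos y).le (PhiC_le_one y)

/-- variance bound for the density proportional to `e^{-y²} Φ(y)^{m-2}`. -/
theorem pm_pos (m : ℕ) : 0 < pm m := by
  unfold pm
  rw [integral_pos_iff_support_of_nonneg (fun y => pow_nonneg (PhiC_pos y).le _)
    (Nab_int _ 1 0 (Nab_cont.pow _) (fun y => by simpa using Nab_pow_le (m - 2) y) zero_le_one)]
  have : Function.support (fun y => PhiC y ^ (m - 2)) = Set.univ := by
    ext y
    simp [(PhiC_pos y).ne']
  rw [this]
  simp

theorem var_pm_le (m : ℕ) : ∃ μ : ℝ,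
    ∫ y, (rr y - μ) ^ 2 * PhiC y ^ (m - 2) ∂(gaussianReal 0 (1 / 2)) ≤ pm m / 2 := by
  set k := m - 2 with hk
  set ν : Measure ℝ := gaussianReal 0 (1 / 2) with hν
  have hA : 0 < pm m := pm_pos m
  have hpm : pm m = ∫ y, PhiC y ^ k ∂ν := rfl
  set B : ℝ := ∫ y, y * PhiC y ^ k ∂ν with hB
  set c : ℝ := B / pm m with hc
  have i0 : Integrable (fun y => PhiC y ^ k) ν :=
    Nab_int _ 1 0 (Nab_cont.pow _) (fun y => by simpa using Nab_pow_le k y) zero_le_one
  have i1 : Integrable (fun y => y * PhiC y ^ k) ν := by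
    refine Nab_int _ 1 1 (continuous_id.mul (Nab_cont.pow _)) (fun y => ?_) zero_le_one
    rw [abs_mul, one_mul, pow_one, Real.norm_eq_abs]
    have := Nab_pow_le k y
    have h2 := abs_nonneg y
    nlinarith
  have i2 : Integrable (fun y => y ^ 2 * PhiC y ^ k) ν := by
    refine Nab_int _ 1 2 ((continuous_pow 2).mul (Nab_cont.pow _)) (fun y => ?_) zero_le_one
    rw [abs_mul, one_mul, abs_pow, Real.norm_eq_abs]
    have := Nab_pow_le k y
    have h2 := abs_nonneg y
    have h3 := abs_nonneg (PhiC y ^ k)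
    nlinarith [mul_le_mul_of_nonneg_left this (sq_nonneg |y|)]
  have i3 : Integrable (fun y => (y - c) ^ 2 * PhiC y ^ k) ν := by
    have : (fun y => (y - c) ^ 2 * PhiC y ^ k)
        = fun y => y ^ 2 * PhiC y ^ k - 2 * c * (y * PhiC y ^ k) + c ^ 2 * PhiC y ^ k := by
      funext y; ring
    rw [this]
    exact (i2.sub (i1.const_mul _)).add (i0.const_mul _)
  have hvar : ∫ y, (y - c) ^ 2 * PhiC y ^ k ∂ν
      = ∫ y, y ^ 2 * PhiC y ^ k ∂ν - B * c := by
    have : ∀ y, (y - c) ^ 2 * PhiC y ^ k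
        = y ^ 2 * PhiC y ^ k - 2 * c * (y * PhiC y ^ k) + c ^ 2 * PhiC y ^ k := by
      intro y; ring
    simp_rw [this]
    have i12 : Integrable (fun y => y ^ 2 * PhiC y ^ k - 2 * c * (y * PhiC y ^ k)) ν :=
      i2.sub (i1.const_mul _)
    rw [integral_add i12 (i0.const_mul _), integral_sub i2 (i1.const_mul _),
      integral_const_mul, integral_const_mul, ← hpm, ← hB]
    have hcA : c * pm m = B := by rw [hc]; field_simp
    linear_combination c * hcA
  refine ⟨rr c, ?_⟩
  have hstep : ∫ y, (rr y - rr c) ^ 2 * PhiC y ^ k ∂ν ≤ ∫ y, (y - c) ^ 2 * PhiC y ^ k ∂ν := by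
    refine integral_mono_of_nonneg (Filter.Eventually.of_forall fun y => ?_) i3
      (Filter.Eventually.of_forall fun y => ?_)
    · exact mul_nonneg (sq_nonneg _) (pow_nonneg (PhiC_pos y).le _)
    · refine mul_le_mul_of_nonneg_right ?_ (pow_nonneg (PhiC_pos y).le _)
      exact sq_le_sq.mpr (rr_lipschitz y c)
  refine hstep.trans ?_
  rw [hvar]
  rcases Nat.eq_zero_or_pos k with hk0 | hk0
  · -- k = 0
    have h := Nab_ibp (fun t => t) (fun _ => 1) 1 1 (by fun_prop) (by fun_prop)
      (fun t => hasDerivAt_id t) (fun t => by rw [one_mul, pow_one, Real.norm_eq_abs]; linarith)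
      (fun t => by
        rw [one_mul, pow_one, abs_one, Real.norm_eq_abs]
        linarith [abs_nonneg t]) zero_le_one
    have h2 : ∫ y, y ^ 2 * PhiC y ^ k ∂ν = 1 / 2 * pm m := by
      rw [hpm, hk0]
      simp only [pow_zero, mul_one]
      simp only [pow_two]
      rw [h]
    rw [h2]
    have h3 : 0 ≤ B * c := by
      rw [hc, ← mul_div_assoc]
      exact div_nonneg (mul_self_nonneg B) hA.le
    linarith
  · -- k ≥ 1
    obtain ⟨l, hl⟩ : ∃ l, k = l + 1 := ⟨k - 1, by omega⟩
    have hdP : ∀ y, HasDerivAt (fun y => PhiC y ^ k)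
        ((k : ℝ) * (PhiC y ^ l * gaussianPDFReal 0 1 y)) y := by
      intro y
      have := (PhiC_hasDerivAt y).pow k
      have e : k - 1 = l := by omega
      rw [e] at this
      refine this.congr_deriv ?_
      ring
    have hlb : ∀ y, |PhiC y ^ l * gaussianPDFReal 0 1 y| ≤ 1 := by
      intro y
      rw [abs_mul]
      exact mul_le_one₀ (Nab_pow_le l y) (abs_nonneg _) (Nab_pdf_le y)
    have hcl : Continuous (fun y => PhiC y ^ l * gaussianPDFReal 0 1 y) :=
      (Nab_cont.pow _).mul Nab_pdf_cont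
    have j0 : Integrable (fun y => PhiC y ^ l * gaussianPDFReal 0 1 y) ν :=
      Nab_int _ 1 0 hcl (fun y => by simpa using hlb y) zero_le_one
    have j1 : Integrable (fun y => y * (PhiC y ^ l * gaussianPDFReal 0 1 y)) ν := by
      refine Nab_int _ 1 1 (continuous_id.mul hcl) (fun y => ?_) zero_le_one
      rw [abs_mul, one_mul, pow_one, Real.norm_eq_abs]
      have := hlb y
      have h2 := abs_nonneg y
      nlinarith
    have hkk : (0 : ℝ) ≤ k := Nat.cast_nonneg k
    have b1 : B = (1 / 2) * ((k : ℝ) * ∫ y, PhiC y ^ l * gaussianPDFReal 0 1 y ∂ν) := by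
      rw [hB, Nab_ibp (fun y => PhiC y ^ k) (fun y => (k : ℝ) * (PhiC y ^ l * gaussianPDFReal 0 1 y))
        (1 + k) 0 (Nab_cont.pow _) (by fun_prop) hdP
        (fun y => by
          have := Nab_pow_le k y
          simp only [pow_zero, mul_one]; linarith)
        (fun y => by
          rw [abs_mul, abs_of_nonneg hkk]
          have := hlb y
          simp only [pow_zero, mul_one]
          nlinarith) (by positivity), integral_const_mul]
    have b2 : ∫ y, y ^ 2 * PhiC y ^ k ∂ν = (1 / 2) * (pm m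
        + (k : ℝ) * ∫ y, y * (PhiC y ^ l * gaussianPDFReal 0 1 y) ∂ν) := by
      have e : ∀ y : ℝ, y ^ 2 * PhiC y ^ k = y * (y * PhiC y ^ k) := fun y => by ring
      simp_rw [e]
      rw [Nab_ibp (fun y => y * PhiC y ^ k)
        (fun y => PhiC y ^ k + (k : ℝ) * (y * (PhiC y ^ l * gaussianPDFReal 0 1 y)))
        (1 + k) 1 (continuous_id.mul (Nab_cont.pow _))
        ((Nab_cont.pow _).add (continuous_const.mul (continuous_id.mul hcl)))
        (fun y => by
          refine ((hasDerivAt_id y).mul (hdP y)).congr_deriv ?_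
          simp only [id]
          ring)
        (fun y => by
          rw [abs_mul, Real.norm_eq_abs, pow_one]
          have h1 := Nab_pow_le k y
          have h2 := abs_nonneg y
          nlinarith [mul_nonneg hkk h2, mul_nonneg h2 (abs_nonneg (PhiC y ^ k))])
        (fun y => by
          rw [Real.norm_eq_abs, pow_one]
          refine (abs_add_le _ _).trans ?_
          rw [abs_mul, abs_mul, abs_of_nonneg hkk]
          have h1 := Nab_pow_le k y
          have h2 := abs_nonneg y
          have h3 := hlb y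
          have h4 : |y| * |PhiC y ^ l * gaussianPDFReal 0 1 y| ≤ |y| := by nlinarith
          nlinarith [mul_le_mul_of_nonneg_left h4 hkk]) (by positivity),
        integral_add i0 (j1.const_mul _), integral_const_mul, ← hpm]
    -- the Chebyshev step
    have hcheb : ∫ y, (y - c) * (PhiC y ^ l * gaussianPDFReal 0 1 y) ∂ν ≤ 0 := by
      have hle : ∀ y, (y - c) * (PhiC y ^ l * gaussianPDFReal 0 1 y)
          ≤ (gaussianPDFReal 0 1 c / PhiC c) * ((y - c) * PhiC y ^ k) := by
        intro y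
        have hP := PhiC_pos y
        have e1 : PhiC y ^ l * gaussianPDFReal 0 1 y
            = (gaussianPDFReal 0 1 y / PhiC y) * PhiC y ^ k := by
          rw [hl, pow_succ]; field_simp
        rw [e1]
        have h1 : (y - c) * (gaussianPDFReal 0 1 y / PhiC y - gaussianPDFReal 0 1 c / PhiC c) ≤ 0 := by
          rcases le_total y c with h | h
          · exact mul_nonpos_of_nonpos_of_nonneg (by linarith)
              (sub_nonneg.mpr (ratio_antitone h))
          · exact mul_nonpos_of_nonneg_of_nonpos (by linarith)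
              (sub_nonpos.mpr (ratio_antitone h))
        have h2 : 0 ≤ PhiC y ^ k := pow_nonneg hP.le _
        nlinarith [mul_nonpos_of_nonpos_of_nonneg h1 h2]
      have k1 : Integrable (fun y => (y - c) * (PhiC y ^ l * gaussianPDFReal 0 1 y)) ν := by
        have : (fun y => (y - c) * (PhiC y ^ l * gaussianPDFReal 0 1 y))
            = fun y => y * (PhiC y ^ l * gaussianPDFReal 0 1 y)
              - c * (PhiC y ^ l * gaussianPDFReal 0 1 y) := by funext y; ring
        rw [this]; exact j1.sub (j0.const_mul _)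
      have k2 : Integrable (fun y => (gaussianPDFReal 0 1 c / PhiC c) * ((y - c) * PhiC y ^ k)) ν := by
        have : (fun y => (gaussianPDFReal 0 1 c / PhiC c) * ((y - c) * PhiC y ^ k))
            = fun y => (gaussianPDFReal 0 1 c / PhiC c) * (y * PhiC y ^ k - c * PhiC y ^ k) := by
          funext y; ring
        rw [this]; exact (i1.sub (i0.const_mul _)).const_mul _
      refine (integral_mono k1 k2 hle).trans (le_of_eq ?_)
      rw [integral_const_mul]
      have e : ∀ y, (y - c) * PhiC y ^ k = y * PhiC y ^ k - c * PhiC y ^ k := fun y => by ring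
      simp_rw [e]
      rw [integral_sub i1 (i0.const_mul _), integral_const_mul, ← hpm, ← hB]
      have hcA : c * pm m = B := by rw [hc]; field_simp
      rw [hcA]; ring
    have hsplit : ∫ y, (y - c) * (PhiC y ^ l * gaussianPDFReal 0 1 y) ∂ν
        = ∫ y, y * (PhiC y ^ l * gaussianPDFReal 0 1 y) ∂ν
          - c * ∫ y, PhiC y ^ l * gaussianPDFReal 0 1 y ∂ν := by
      have e : ∀ y, (y - c) * (PhiC y ^ l * gaussianPDFReal 0 1 y)
          = y * (PhiC y ^ l * gaussianPDFReal 0 1 y)
            - c * (PhiC y ^ l * gaussianPDFReal 0 1 y) := fun y => by ring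
      simp_rw [e]
      rw [integral_sub j1 (j0.const_mul _), integral_const_mul]
    rw [b2, b1]
    rw [hsplit] at hcheb
    nlinarith [mul_le_mul_of_nonneg_left hcheb hkk]

end Pool.H65.PT
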