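import Pool.Agent.Helper65.PT.Defs
import Pool.Agent.Helper65.PT.Nab
import Pool.Agent.Helper65.PS.Ibp

set_option autoImplicit false

open MeasureTheory ProbabilityTheory Pool.H65.PS

namespace Pool.H65.PT

open Set in
/-- one variable integrals on the half line, for `u t = μ - (y - t)` -/
lemma nac_one (y μ : ℝ) :
    ∫ t, (if t < y then (1 : ℝ) else 0) ∂(gaussianReal 0 1) = PhiC y ∧
    ∫ t, (if t < y then (μ - (y - t)) else 0) ∂(gaussianReal 0 1) = PhiC y * (μ - rr y) ∧
    ∫ t, (if t < y then (μ - (y - t)) ^ 2 else 0) ∂(gaussianReal 0 1) =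
      PhiC y * (tau y + (μ - rr y) ^ 2) := by
  have hP := PhiC_pos y
  refine ⟨?_, ?_, ?_⟩
  · rw [naa_integral (fun _ => 1)]
    simp only [one_mul]
    rw [← naa_PhiC]
  · rw [naa_integral (fun t => μ - (y - t))]
    have h := naa_quad y (μ - y) 1 0
    have e : ∀ t : ℝ, (μ - (y - t)) * gaussianPDFReal 0 1 t =
        ((μ - y) * gaussianPDFReal 0 1 t + 1 * (t * gaussianPDFReal 0 1 t)) +
          0 * (t ^ 2 * gaussianPDFReal 0 1 t) := fun t => by ring
    simp_rw [e]
    rw [h]
    unfold rr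
    field_simp
    ring
  · rw [naa_integral (fun t => (μ - (y - t)) ^ 2)]
    have h := naa_quad y ((μ - y) ^ 2) (2 * (μ - y)) 1
    have e : ∀ t : ℝ, (μ - (y - t)) ^ 2 * gaussianPDFReal 0 1 t =
        ((μ - y) ^ 2 * gaussianPDFReal 0 1 t + (2 * (μ - y)) * (t * gaussianPDFReal 0 1 t)) +
          1 * (t ^ 2 * gaussianPDFReal 0 1 t) := fun t => by ring
    simp_rw [e]
    rw [h]
    unfold rr tau
    field_simp
    ring

/-- the factors -/
noncomputable def nacF {ι' : Type} [DecidableEq ι'] (y μ : ℝ) (l k j : ι') (t : ℝ) : ℝ :=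
  if t < y then ((if j = l then (μ - (y - t)) else 1) * (if j = k then (μ - (y - t)) else 1)) else 0

lemma nac_factor {ι' : Type} [DecidableEq ι'] (y μ : ℝ) (l k j : ι') :
    ∫ t, nacF y μ l k j t ∂(gaussianReal 0 1) =
      PhiC y * (if l = k then (if j = l then (tau y + (μ - rr y) ^ 2) else 1) else
        ((if j = l then (μ - rr y) else 1) * (if j = k then (μ - rr y) else 1))) := by
  obtain ⟨h0, h1, h2⟩ := nac_one y μ
  unfold nacF
  by_cases hlk : l = k
  · subst hlk
    rw [if_pos rfl]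
    by_cases hj : j = l
    · simp only [if_pos hj, ← sq]
      exact h2
    · simp only [if_neg hj, mul_one]
      exact h0
  · rw [if_neg hlk]
    by_cases hj : j = l
    · have hjk : j ≠ k := fun h => hlk (hj.symm.trans h)
      simp only [if_pos hj, if_neg hjk, mul_one]
      exact h1
    · by_cases hjk : j = k
      · simp only [if_neg hj, if_pos hjk, one_mul]
        exact h1
      · simp only [if_neg hj, if_neg hjk, mul_one]
        exact h0

lemma nac_prod {ι' : Type} [Fintype ι'] [DecidableEq ι'] (y μ : ℝ) (l k : ι') (g : ι' → ℝ) :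
    ∏ j, nacF y μ l k j (g j) =
      if ∀ j, g j < y then (μ - (y - g l)) * (μ - (y - g k)) else 0 := by
  by_cases h : ∀ j, g j < y
  · rw [if_pos h]
    have e : ∀ j, nacF y μ l k j (g j) =
        (if j = l then (μ - (y - g j)) else 1) * (if j = k then (μ - (y - g j)) else 1) := by
      intro j
      unfold nacF
      rw [if_pos (h j)]
    simp_rw [e]
    rw [Finset.prod_mul_distrib, Finset.prod_ite_eq' Finset.univ l, Finset.prod_ite_eq' Finset.univ k]
    simp
  · rw [if_neg h]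
    push Not at h
    obtain ⟨j, hj⟩ := h
    refine Finset.prod_eq_zero (Finset.mem_univ j) ?_
    unfold nacF
    rw [if_neg (not_lt.2 hj)]

lemma nac_pair {ι' : Type} [Fintype ι'] [DecidableEq ι'] (y μ : ℝ) (l k : ι') :
    ∫ g : ι' → ℝ, (if ∀ j, g j < y then (μ - (y - g l)) * (μ - (y - g k)) else 0) ∂(gam ι') =
      PhiC y ^ (Fintype.card ι') *
        ((if l = k then tau y else 0) + (μ - rr y) ^ 2) := by
  have h := integral_fintype_prod_eq_prod (𝕜 := ℝ) (μ := fun _ : ι' => gaussianReal 0 1)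
    (fun j t => nacF y μ l k j t)
  simp_rw [nac_prod] at h
  unfold gam
  rw [h]
  simp_rw [nac_factor]
  rw [Finset.prod_mul_distrib, Finset.prod_const, Finset.card_univ]
  congr 1
  by_cases hlk : l = k
  · subst hlk
    simp
  · simp only [if_neg hlk]
    rw [Finset.prod_mul_distrib, Finset.prod_ite_eq' Finset.univ l, Finset.prod_ite_eq' Finset.univ k]
    simp
    ring

lemma nac_pair_int {ι' : Type} [Fintype ι'] [DecidableEq ι'] (y μ : ℝ) (l k : ι') :
    Integrable (fun g : ι' → ℝ => if ∀ j, g j < y then (μ - (y - g l)) * (μ - (y - g k)) else 0)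
      (gam ι') := by
  have h1 : Integrable (fun g : ι' → ℝ => (μ - (y - g l)) * (μ - (y - g k))) (gam ι') := by
    refine integrable_gam _ ((|μ| + |y| + 1) ^ 2) 2 (by fun_prop) fun g => ?_
    have hb : ∀ i, |μ - (y - g i)| ≤ (|μ| + |y| + 1) * (1 + ‖g‖) := by
      intro i
      have hi : |g i| ≤ ‖g‖ := by simpa using norm_le_pi_norm g i
      have := norm_nonneg g
      calc |μ - (y - g i)| ≤ |μ| + |y - g i| := abs_sub _ _
        _ ≤ |μ| + (|y| + |g i|) := by gcongr; exact abs_sub _ _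
        _ ≤ (|μ| + |y| + 1) * (1 + ‖g‖) := by nlinarith [abs_nonneg μ, abs_nonneg y]
    rw [abs_mul]
    calc |μ - (y - g l)| * |μ - (y - g k)| ≤
        ((|μ| + |y| + 1) * (1 + ‖g‖)) * ((|μ| + |y| + 1) * (1 + ‖g‖)) :=
          mul_le_mul (hb l) (hb k) (abs_nonneg _) (by positivity)
      _ = (|μ| + |y| + 1) ^ 2 * (1 + ‖g‖) ^ 2 := by ring
  have hs : MeasurableSet {g : ι' → ℝ | ∀ j, g j < y} := by
    have : {g : ι' → ℝ | ∀ j, g j < y} = ⋂ j, {g : ι' → ℝ | g j < y} := by
      ext g; simp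
    rw [this]
    exact MeasurableSet.iInter fun j => measurableSet_lt (measurable_pi_apply j) measurable_const
  have h2 := h1.indicator hs
  refine h2.congr (Filter.Eventually.of_forall fun g => ?_)
  simp only [Set.indicator, Set.mem_ofPred_eq]

lemma nac_inner {ι' : Type} [Fintype ι'] (y μ : ℝ) (d : ι' → ℝ) :
    ∫ g : ι' → ℝ, (Set.indicator {g : ι' → ℝ | ∀ l, g l < y}
        (fun g => (μ * ∑ l, d l - ∑ l, d l * (y - g l)) ^ 2) g) ∂(gam ι') =
      PhiC y ^ (Fintype.card ι') *
        (tau y * ∑ l, d l ^ 2 + (μ - rr y) ^ 2 * (∑ l, d l) ^ 2) := by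
  classical
  have e : ∀ g : ι' → ℝ, Set.indicator {g : ι' → ℝ | ∀ l, g l < y}
        (fun g => (μ * ∑ l, d l - ∑ l, d l * (y - g l)) ^ 2) g =
      ∑ l, ∑ k, (d l * d k) *
        (if ∀ j, g j < y then (μ - (y - g l)) * (μ - (y - g k)) else 0) := by
    intro g
    simp only [Set.indicator, Set.mem_ofPred_eq]
    by_cases h : ∀ j, g j < y
    · simp only [if_pos h]
      have : μ * ∑ l, d l - ∑ l, d l * (y - g l) = ∑ l, d l * (μ - (y - g l)) := by
        rw [Finset.mul_sum, ← Finset.sum_sub_distrib]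
        exact Finset.sum_congr rfl fun l _ => by ring
      rw [this, sq, Finset.sum_mul_sum]
      exact Finset.sum_congr rfl fun l _ => Finset.sum_congr rfl fun k _ => by ring
    · simp only [if_neg h, mul_zero, Finset.sum_const_zero]
  simp_rw [e]
  rw [integral_finsetSum _ fun l _ => integrable_finsetSum _ fun k _ =>
    (nac_pair_int y μ l k).const_mul _]
  simp_rw [fun l => integral_finsetSum Finset.univ (fun k _ =>
    (nac_pair_int y μ l k).const_mul (d l * d k)), integral_const_mul, nac_pair]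
  have e2 : ∀ l k : ι', d l * d k * (PhiC y ^ Fintype.card ι' *
      ((if l = k then tau y else 0) + (μ - rr y) ^ 2)) =
      PhiC y ^ Fintype.card ι' * ((if l = k then tau y * (d l * d k) else 0) +
        (μ - rr y) ^ 2 * (d l * d k)) := by
    intro l k
    split_ifs <;> ring
  simp_rw [e2, ← Finset.mul_sum, Finset.sum_add_distrib, ← Finset.mul_sum]
  congr 2
  · rw [Finset.mul_sum]
    refine Finset.sum_congr rfl fun l _ => ?_
    rw [Finset.sum_ite_eq Finset.univ l, if_pos (Finset.mem_univ l)]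
    ring
  · rw [sq (∑ l, d l), Finset.sum_mul_sum]
    simp_rw [Finset.mul_sum]

lemma nac_rr_int (m : ℕ) (μ : ℝ) :
    Integrable (fun y => (rr y - μ) ^ 2 * PhiC y ^ (m - 2)) (gaussianReal 0 (1 / 2)) := by
  have hc : Continuous rr := continuous_iff_continuousAt.2 fun y => (rr_hasDerivAt y).continuousAt
  have hP : Continuous PhiC :=
    continuous_iff_continuousAt.2 fun y => (PhiC_hasDerivAt y).continuousAt
  have h2 : Integrable (fun y : ℝ => 2 * (rr 0 - μ) ^ 2 + 2 * y ^ 2) (gaussianReal 0 (1 / 2)) := by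
    refine (integrable_const _).add (Integrable.const_mul ?_ 2)
    exact (memLp_id_gaussianReal (μ := 0) (v := 1 / 2) 2).integrable_sq
  refine h2.mono' (((hc.sub continuous_const).pow 2).mul (hP.pow _)).aestronglyMeasurable
    (Filter.Eventually.of_forall fun y => ?_)
  have hP0 := (PhiC_pos y).le
  rw [Real.norm_eq_abs, abs_of_nonneg (by positivity)]
  have h3 : PhiC y ^ (m - 2) ≤ 1 := pow_le_one₀ hP0 (PhiC_le_one y)
  have h4 : |rr y - rr 0| ≤ |y| := by simpa using rr_lipschitz y 0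
  have h5 : (rr y - rr 0) ^ 2 ≤ y ^ 2 := sq_le_sq.2 h4
  calc (rr y - μ) ^ 2 * PhiC y ^ (m - 2) ≤ (rr y - μ) ^ 2 * 1 :=
        mul_le_mul_of_nonneg_left h3 (sq_nonneg _)
    _ ≤ 2 * (rr 0 - μ) ^ 2 + 2 * y ^ 2 := by nlinarith [sq_nonneg ((rr y - rr 0) - (rr 0 - μ))]

/-- the wall integral -/
theorem wall_bound (m : ℕ) (hm : 2 ≤ m) : ∃ μ : ℝ, ∀ (ι' : Type) [Fintype ι'],
    Fintype.card ι' = m - 2 → ∀ d : ι' → ℝ,
    ∫ y, ∫ g : ι' → ℝ, (Set.indicator {g : ι' → ℝ | ∀ l, g l < y}
        (fun g => (μ * ∑ l, d l - ∑ l, d l * (y - g l)) ^ 2) g) ∂(gam ι') ∂(gaussianReal 0 (1 / 2))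
      ≤ pm m * (∑ l, d l ^ 2 + (∑ l, d l) ^ 2 / 2) := by
  obtain ⟨μ, hμ⟩ := var_pm_le m
  refine ⟨μ, fun ι' _ hcard d => ?_⟩
  simp_rw [nac_inner, hcard]
  have hP : Continuous PhiC :=
    continuous_iff_continuousAt.2 fun y => (PhiC_hasDerivAt y).continuousAt
  have iP : Integrable (fun y => PhiC y ^ (m - 2)) (gaussianReal 0 (1 / 2)) := by
    refine (integrable_const (1 : ℝ)).mono' (hP.pow _).aestronglyMeasurable
      (Filter.Eventually.of_forall fun y => ?_)
    have hP0 := (PhiC_pos y).le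
    rw [Real.norm_eq_abs, abs_of_nonneg (by positivity)]
    exact pow_le_one₀ hP0 (PhiC_le_one y)
  have iR := nac_rr_int m μ
  set S := ∑ l, d l ^ 2 with hS
  set D := ∑ l, d l with hD
  have hS0 : 0 ≤ S := Finset.sum_nonneg fun l _ => sq_nonneg _
  calc ∫ y, PhiC y ^ (m - 2) * (tau y * S + (μ - rr y) ^ 2 * D ^ 2) ∂(gaussianReal 0 (1 / 2))
      ≤ ∫ y, (S * PhiC y ^ (m - 2) + D ^ 2 * ((rr y - μ) ^ 2 * PhiC y ^ (m - 2)))
          ∂(gaussianReal 0 (1 / 2)) := by
        refine integral_mono_of_nonneg (Filter.Eventually.of_forall fun y => ?_)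
          ((iP.const_mul _).add (iR.const_mul _)) (Filter.Eventually.of_forall fun y => ?_)
        · have hP0 := (PhiC_pos y).le
          have := tau_nonneg y
          simp only [Pi.zero_apply]
          positivity
        · have hP0 : 0 ≤ PhiC y ^ (m - 2) := pow_nonneg (PhiC_pos y).le _
          have h1 := tau_le_one y
          have h2 : tau y * S ≤ 1 * S := mul_le_mul_of_nonneg_right h1 hS0
          simp only
          calc PhiC y ^ (m - 2) * (tau y * S + (μ - rr y) ^ 2 * D ^ 2) ≤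
              PhiC y ^ (m - 2) * (S + (μ - rr y) ^ 2 * D ^ 2) :=
                mul_le_mul_of_nonneg_left (by linarith) hP0
            _ = S * PhiC y ^ (m - 2) + D ^ 2 * ((rr y - μ) ^ 2 * PhiC y ^ (m - 2)) := by ring
    _ = S * pm m + D ^ 2 * ∫ y, (rr y - μ) ^ 2 * PhiC y ^ (m - 2) ∂(gaussianReal 0 (1 / 2)) := by
        have h := integral_add (iP.const_mul S) (iR.const_mul (D ^ 2))
        rw [h, integral_const_mul, integral_const_mul]
        rfl
    _ ≤ S * pm m + D ^ 2 * (pm m / 2) := by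
        have := mul_le_mul_of_nonneg_left hμ (sq_nonneg D)
        linarith
    _ = pm m * (S + D ^ 2 / 2) := by ring

end Pool.H65.PT
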