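import Pool.Agent.Helper65.PT.Defs
import Pool.Agent.Helper65.PT.Naa
import Pool.Agent.Helper65.PT.Pmo

set_option autoImplicit false

open MeasureTheory ProbabilityTheory Pool.H65.PS

namespace Pool.H65.PT

/-- integration by parts -/
lemma nad_ibp (k : ℕ) :
    ∫ t, t * PhiC t ^ k ∂(gaussianReal 0 1) =
      (k : ℝ) * ∫ t, PhiC t ^ (k - 1) * gaussianPDFReal 0 1 t ∂(gaussianReal 0 1) := by
  have hP : Continuous PhiC :=
    continuous_iff_continuousAt.2 fun y => (PhiC_hasDerivAt y).continuousAt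
  rw [integral_gaussianReal_eq_integral_smul one_ne_zero,
    integral_gaussianReal_eq_integral_smul one_ne_zero]
  have hb : ∀ (j : ℕ) (t : ℝ), ‖PhiC t ^ j‖ ≤ 1 := by
    intro j t
    rw [Real.norm_eq_abs, abs_of_nonneg (pow_nonneg (PhiC_pos t).le _)]
    exact pow_le_one₀ (PhiC_pos t).le (PhiC_le_one t)
  have hpb : ∀ t : ℝ, ‖gaussianPDFReal 0 1 t‖ ≤ 1 := by
    intro t
    rw [Real.norm_eq_abs, abs_of_pos (naa_pdf_pos t), naa_pdf_eq]
    have h1 : (Real.sqrt (2 * Real.pi))⁻¹ ≤ 1 := by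
      apply inv_le_one_of_one_le₀
      rw [Real.one_le_sqrt]
      have := Real.pi_gt_three
      linarith
    have h2 : Real.exp (-(t ^ 2) / 2) ≤ 1 := by
      rw [Real.exp_le_one_iff]
      have := sq_nonneg t
      linarith
    have h3 : 0 ≤ (Real.sqrt (2 * Real.pi))⁻¹ := by positivity
    calc (Real.sqrt (2 * Real.pi))⁻¹ * Real.exp (-(t ^ 2) / 2) ≤ 1 * 1 :=
          mul_le_mul h1 h2 (Real.exp_pos _).le zero_le_one
      _ = 1 := one_mul 1
  have i0 : Integrable (gaussianPDFReal 0 1) := integrable_gaussianPDFReal 0 1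
  have i1 : Integrable (fun t : ℝ => t * gaussianPDFReal 0 1 t) := by
    simpa using naa_int_pow 1
  have j1 : Integrable (fun t : ℝ => PhiC t ^ k * (t * gaussianPDFReal 0 1 t)) :=
    i1.bdd_mul (hP.pow k).aestronglyMeasurable (Filter.Eventually.of_forall (hb k))
  have j2 : Integrable (fun t : ℝ => ((k : ℝ) * PhiC t ^ (k - 1) * gaussianPDFReal 0 1 t) *
      (-gaussianPDFReal 0 1 t)) := by
    have h1 : Integrable (fun t : ℝ => (PhiC t ^ (k - 1) * gaussianPDFReal 0 1 t) *
        gaussianPDFReal 0 1 t) := by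
      refine i0.bdd_mul (c := 1) ((hP.pow _).mul naa_pdf_cont).aestronglyMeasurable
        (Filter.Eventually.of_forall fun t => ?_)
      rw [norm_mul]
      calc ‖PhiC t ^ (k - 1)‖ * ‖gaussianPDFReal 0 1 t‖ ≤ 1 * 1 :=
            mul_le_mul (hb _ t) (hpb t) (norm_nonneg _) zero_le_one
        _ = 1 := one_mul 1
    have h2 := h1.const_mul (-(k : ℝ))
    refine h2.congr (Filter.Eventually.of_forall fun t => ?_)
    simp only
    ring
  have j3 : Integrable (fun t : ℝ => PhiC t ^ k * (-gaussianPDFReal 0 1 t)) :=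
    i0.neg.bdd_mul (hP.pow k).aestronglyMeasurable (Filter.Eventually.of_forall (hb k))
  have h := integral_mul_deriv_eq_deriv_mul_of_integrable (u := fun t => PhiC t ^ k)
    (v := fun t => -gaussianPDFReal 0 1 t)
    (u' := fun t => (k : ℝ) * PhiC t ^ (k - 1) * gaussianPDFReal 0 1 t)
    (v' := fun t => t * gaussianPDFReal 0 1 t)
    (fun x _ => (PhiC_hasDerivAt x).pow k)
    (fun x _ => by
      have := (naa_pdf_deriv x).neg
      rw [neg_neg] at this
      exact this) j1 j2 j3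
  simp only [smul_eq_mul]
  calc ∫ t, gaussianPDFReal 0 1 t * (t * PhiC t ^ k) = ∫ t, PhiC t ^ k * (t * gaussianPDFReal 0 1 t) := by
        congr 1; funext t; ring
    _ = -∫ t, ((k : ℝ) * PhiC t ^ (k - 1) * gaussianPDFReal 0 1 t) * (-gaussianPDFReal 0 1 t) := h
    _ = (k : ℝ) * ∫ t, gaussianPDFReal 0 1 t * (PhiC t ^ (k - 1) * gaussianPDFReal 0 1 t) := by
        rw [← integral_neg, ← integral_const_mul]
        congr 1; funext t; ring

lemma nad_half (k : ℕ) :
    ∫ t, PhiC t ^ k * gaussianPDFReal 0 1 t ∂(gaussianReal 0 1) =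
      (1 / (2 * Real.sqrt Real.pi)) * ∫ y, PhiC y ^ k ∂(gaussianReal 0 (1 / 2)) := by
  rw [integral_gaussianReal_eq_integral_smul one_ne_zero,
    integral_gaussianReal_eq_integral_smul (by simp), ← integral_const_mul]
  congr 1
  funext t
  simp only [smul_eq_mul]
  have h1 : gaussianPDFReal 0 1 t * gaussianPDFReal 0 1 t =
      (1 / (2 * Real.sqrt Real.pi)) * gaussianPDFReal 0 (1 / 2) t := by
    rw [naa_pdf_eq]
    unfold gaussianPDFReal
    have hpi := Real.pi_pos
    have e1 : Real.sqrt (2 * Real.pi) * Real.sqrt (2 * Real.pi) = 2 * Real.pi :=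
      Real.mul_self_sqrt (by positivity)
    have e2 : Real.sqrt Real.pi * Real.sqrt Real.pi = Real.pi := Real.mul_self_sqrt hpi.le
    have e3 : (2 * Real.pi * ((1 / 2 : NNReal) : ℝ)) = Real.pi := by
      push_cast; ring
    have e4 : -(t - 0) ^ 2 / (2 * ((1 / 2 : NNReal) : ℝ)) = -(t ^ 2) / 2 + -(t ^ 2) / 2 := by
      push_cast; ring
    rw [e3, e4, Real.exp_add]
    have hs1 : Real.sqrt (2 * Real.pi) ≠ 0 := by positivity
    have hs2 : Real.sqrt Real.pi ≠ 0 := by positivity
    field_simp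
    nlinarith [e1, e2]
  calc gaussianPDFReal 0 1 t * (PhiC t ^ k * gaussianPDFReal 0 1 t) =
      PhiC t ^ k * (gaussianPDFReal 0 1 t * gaussianPDFReal 0 1 t) := by ring
    _ = _ := by rw [h1]; ring

lemma nad_cell (k : ℕ) :
    ∫ x : Fin (k + 1) → ℝ, cellF 0 x * x 0 ∂(gam (Fin (k + 1))) =
      ∫ t, t * PhiC t ^ k ∂(gaussianReal 0 1) := by
  have hmp := (measurePreserving_piFinSuccAbove (fun _ : Fin (k + 1) => gaussianReal 0 1) 0).symm
  unfold gam
  rw [← hmp.integral_comp (MeasurableEquiv.measurableEmbedding _)]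
  have e : ∀ p : ℝ × (Fin k → ℝ), cellF 0 ((MeasurableEquiv.piFinSuccAbove (fun _ => ℝ) 0).symm p) *
      ((MeasurableEquiv.piFinSuccAbove (fun _ => ℝ) 0).symm p) 0 =
      p.1 * ∏ l, (if p.2 l < p.1 then (1 : ℝ) else 0) := by
    rintro ⟨t, x⟩
    have e0 : (MeasurableEquiv.piFinSuccAbove (fun _ : Fin (k + 1) => ℝ) 0).symm (t, x) =
      (Fin.cons t x : Fin (k + 1) → ℝ) := by
      simp [MeasurableEquiv.piFinSuccAbove, Fin.insertNthEquiv]
    rw [e0]
    simp only [Fin.cons_zero]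
    rw [mul_comm]
    congr 1
    unfold cellF
    by_cases h : ∀ l, x l < t
    · rw [if_pos, Finset.prod_eq_one fun l _ => if_pos (h l)]
      intro l hl
      obtain ⟨j, rfl⟩ := Fin.exists_succ_eq.2 hl
      simpa using h j
    · rw [if_neg]
      · push Not at h
        obtain ⟨j, hj⟩ := h
        rw [Finset.prod_eq_zero (Finset.mem_univ j) (if_neg (not_lt.2 hj))]
      · intro h2
        exact h fun j => by simpa using h2 j.succ (Fin.succ_ne_zero j)
  simp_rw [e]
  have hme : Measurable fun p : ℝ × (Fin k → ℝ) => ∏ l, (if p.2 l < p.1 then (1 : ℝ) else 0) := by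
    refine Finset.measurable_prod _ fun l _ => ?_
    refine Measurable.ite (measurableSet_lt ?_ measurable_fst) measurable_const measurable_const
    exact (measurable_pi_apply l).comp measurable_snd
  have hb : ∀ p : ℝ × (Fin k → ℝ), ‖∏ l, (if p.2 l < p.1 then (1 : ℝ) else 0)‖ ≤ 1 := by
    intro p
    rw [Real.norm_eq_abs, Finset.abs_prod]
    refine Finset.prod_le_one (fun l _ => abs_nonneg _) fun l _ => ?_
    split_ifs <;> simp
  have i1 : Integrable (fun t : ℝ => t) (gaussianReal 0 1) :=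
    (memLp_id_gaussianReal (μ := 0) (v := 1) 1).integrable le_rfl
  have i2 : Integrable (fun p : ℝ × (Fin k → ℝ) => p.1)
      ((gaussianReal 0 1).prod (Measure.pi fun _ : Fin k => gaussianReal 0 1)) := i1.comp_fst _
  have i3 : Integrable (fun p : ℝ × (Fin k → ℝ) => p.1 *
      ∏ l, (if p.2 l < p.1 then (1 : ℝ) else 0))
      ((gaussianReal 0 1).prod (Measure.pi fun _ : Fin k => gaussianReal 0 1)) := by
    have := i2.bdd_mul hme.aestronglyMeasurable (Filter.Eventually.of_forall hb)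
    refine this.congr (Filter.Eventually.of_forall fun p => ?_)
    exact mul_comm _ _
  refine (integral_prod _ i3).trans ?_
  congr 1
  funext t
  simp only
  rw [integral_const_mul]
  congr 1
  have h := integral_fintype_prod_eq_prod (𝕜 := ℝ) (μ := fun _ : Fin k => gaussianReal 0 1)
    (fun _ x => if x < t then (1 : ℝ) else 0)
  rw [h, Finset.prod_const, Finset.card_univ, Fintype.card_fin, naa_integral (fun _ => 1)]
  simp only [one_mul]
  rw [← naa_PhiC]

theorem MM_eq_pm (m : ℕ) (hm : 2 ≤ m) :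
    MM (Fin m) = (m : ℝ) * ((m : ℝ) - 1) * pm m / (2 * Real.sqrt Real.pi) := by
  obtain ⟨k, rfl⟩ : ∃ k, m = k + 1 := ⟨m - 1, by omega⟩
  have h1 := cellF_moment hm (0 : Fin (k + 1)) 0
  rw [nad_cell, nad_ibp, nad_half] at h1
  have h2 : pm (k + 1) = ∫ y, PhiC y ^ (k - 1) ∂(gaussianReal 0 (1 / 2)) := by
    unfold pm
    congr 1
  rw [← h2] at h1
  have hk : (1 : ℝ) ≤ k := by
    have : 1 ≤ k := by omega
    exact_mod_cast this
  unfold am at h1
  push_cast at h1 ⊢
  have hpi : 0 < Real.sqrt Real.pi := Real.sqrt_pos.2 Real.pi_pos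
  have hk0 : (k : ℝ) ≠ 0 := by positivity
  have hk1 : (k : ℝ) + 1 ≠ 0 := by positivity
  have e : (k : ℝ) + 1 - 1 = k := by ring
  rw [e] at h1 ⊢
  rw [if_pos rfl] at h1
  field_simp at h1 ⊢
  nlinarith [h1]

end Pool.H65.PT
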