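import Pool.Agent.Helper65.PT.Defs
import Pool.Agent.Helper65.PT.Lep
import Pool.Agent.Helper65.PT.Nac
import Pool.Agent.Helper65.PT.Nad
import Pool.Agent.Helper65.PT.Pmo
import Pool.Agent.Helper65.PS.Lid

set_option autoImplicit false

open MeasureTheory ProbabilityTheory Pool.H65.PS

namespace Pool.H65.PT

theorem lef_cell_int {m : ℕ} (j : Fin m) (F : (Fin m → ℝ) → ℝ) (hF : Integrable F (gam (Fin m))) :
    Integrable (fun g => cellF j g * F g) (gam (Fin m)) := by
  refine hF.mono ((cellF_measurable j).aestronglyMeasurable.mul hF.aestronglyMeasurable) ?_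
  filter_upwards with g
  rw [norm_mul]
  calc ‖cellF j g‖ * ‖F g‖ ≤ 1 * ‖F g‖ := by
        gcongr
        rw [Real.norm_of_nonneg (cellF_nonneg j g)]
        exact cellF_le_one j g
    _ = _ := one_mul _

theorem lef_v_int {m : ℕ} (c : ℝ) (h : Fin m → ℝ) :
    Integrable (fun g : Fin m → ℝ => c + ∑ l, h l * g l) (gam (Fin m)) := by
  refine (integrable_const c).add ?_
  exact integrable_finsetSum _ fun l _ => (lid_int_coord l).const_mul _

theorem lef_max {f : ℕ} (F : (Fin f → ℝ) → ℝ) (hF : Integrable F (gam (Fin f))) :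
    Integrable (fun g => max 0 (F g)) (gam (Fin f)) := by
  have := hF.pos_part
  simpa only [max_comm] using this

/-- reindexing by a predicate -/
theorem lef_pred {m : ℕ} (p q : Fin m → Prop) [ip : DecidablePred p] [iq : DecidablePred q]
    (h : p = q) (a : ℝ) (d : Fin m → ℝ) :
    ∫ y, ∫ g : {l : Fin m // p l} → ℝ,
          (Set.indicator {g : {l : Fin m // p l} → ℝ | ∀ l, g l < y}
            (fun g => (max 0 (a - ∑ l, d l.1 * (y - g l))) ^ 2) g)
            ∂(gam {l : Fin m // p l}) ∂(gaussianReal 0 (1 / 2)) =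
    ∫ y, ∫ g : {l : Fin m // q l} → ℝ,
          (Set.indicator {g : {l : Fin m // q l} → ℝ | ∀ l, g l < y}
            (fun g => (max 0 (a - ∑ l, d l.1 * (y - g l))) ^ 2) g)
            ∂(gam {l : Fin m // q l}) ∂(gaussianReal 0 (1 / 2)) := by
  subst h
  have : ip = iq := Subsingleton.elim _ _
  subst this
  rfl

theorem lef_memLp {ι' : Type} [Fintype ι'] (a : ℝ) (d : ι' → ℝ) :
    MemLp (fun p : ℝ × (ι' → ℝ) => a - ∑ l, d l * (p.1 - p.2 l)) 2
      ((gaussianReal 0 (1 / 2)).prod (gam ι')) := by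
  have h1 : MemLp (fun y : ℝ => y) 2 (gaussianReal 0 (1 / 2)) :=
    memLp_id_gaussianReal' (μ := 0) (v := 1 / 2) 2 (by norm_num)
  have h1' : MemLp (fun p : ℝ × (ι' → ℝ) => p.1) 2 ((gaussianReal 0 (1 / 2)).prod (gam ι')) :=
    h1.comp_fst (gam ι')
  have h2 : ∀ l : ι', MemLp (fun g : ι' → ℝ => g l) 2 (gam ι') := by
    intro l
    exact (memLp_id_gaussianReal' (μ := 0) (v := 1) 2 (by norm_num)).comp_measurePreserving
      (measurePreserving_eval (fun _ : ι' => gaussianReal 0 1) l)
  have h2' : ∀ l : ι', MemLp (fun p : ℝ × (ι' → ℝ) => p.2 l) 2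
      ((gaussianReal 0 (1 / 2)).prod (gam ι')) := fun l =>
    (h2 l).comp_snd (gaussianReal 0 (1 / 2))
  refine (memLp_const a).sub ?_
  refine memLp_finsetSum _ fun l _ => ?_
  exact (h1'.sub (h2' l)).const_mul (d l)

theorem lef_set {ι' : Type} [Fintype ι'] :
    MeasurableSet {p : ℝ × (ι' → ℝ) | ∀ l, p.2 l < p.1} := by
  have : {p : ℝ × (ι' → ℝ) | ∀ l, p.2 l < p.1} = ⋂ l, {p : ℝ × (ι' → ℝ) | p.2 l < p.1} := by
    ext p; simp
  rw [this]
  refine MeasurableSet.iInter fun l => ?_
  exact measurableSet_lt ((measurable_pi_apply l).comp measurable_snd) measurable_fst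

theorem lef_double {ι' : Type} [Fintype ι'] (F : ℝ × (ι' → ℝ) → ℝ)
    (hF : MemLp F 2 ((gaussianReal 0 (1 / 2)).prod (gam ι'))) :
    Integrable (Set.indicator {p : ℝ × (ι' → ℝ) | ∀ l, p.2 l < p.1} (fun p => F p ^ 2))
      ((gaussianReal 0 (1 / 2)).prod (gam ι')) ∧
    ∫ y, ∫ g : ι' → ℝ, (Set.indicator {g : ι' → ℝ | ∀ l, g l < y}
        (fun g => (F (y, g)) ^ 2) g) ∂(gam ι') ∂(gaussianReal 0 (1 / 2)) =
    ∫ p, Set.indicator {p : ℝ × (ι' → ℝ) | ∀ l, p.2 l < p.1} (fun p => F p ^ 2) p
      ∂((gaussianReal 0 (1 / 2)).prod (gam ι')) := by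
  have h1 : Integrable (Set.indicator {p : ℝ × (ι' → ℝ) | ∀ l, p.2 l < p.1} (fun p => F p ^ 2))
      ((gaussianReal 0 (1 / 2)).prod (gam ι')) := hF.integrable_sq.indicator lef_set
  refine ⟨h1, ?_⟩
  rw [integral_prod _ h1]
  rfl

theorem lef_sq {ι' : Type} [Fintype ι'] (a : ℝ) (d : ι' → ℝ) :
    (∫ y, ∫ g : ι' → ℝ, (Set.indicator {g : ι' → ℝ | ∀ l, g l < y}
        (fun g => (max 0 (a - ∑ l, d l * (y - g l))) ^ 2) g) ∂(gam ι')
          ∂(gaussianReal 0 (1 / 2))) +
    (∫ y, ∫ g : ι' → ℝ, (Set.indicator {g : ι' → ℝ | ∀ l, g l < y}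
        (fun g => (max 0 (-a - ∑ l, (-d l) * (y - g l))) ^ 2) g) ∂(gam ι')
          ∂(gaussianReal 0 (1 / 2))) =
    ∫ y, ∫ g : ι' → ℝ, (Set.indicator {g : ι' → ℝ | ∀ l, g l < y}
        (fun g => (a - ∑ l, d l * (y - g l)) ^ 2) g) ∂(gam ι')
          ∂(gaussianReal 0 (1 / 2)) := by
  have hw := lef_memLp a d
  have hw' := lef_memLp (-a) (fun l => -d l)
  have hmax : ∀ F : ℝ × (ι' → ℝ) → ℝ, MemLp F 2 ((gaussianReal 0 (1 / 2)).prod (gam ι')) →
      MemLp (fun p => max 0 (F p)) 2 ((gaussianReal 0 (1 / 2)).prod (gam ι')) := by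
    intro F hF
    refine hF.mono (by
      have h0 : AEStronglyMeasurable (fun _ : ℝ × (ι' → ℝ) => (0 : ℝ))
        ((gaussianReal 0 (1 / 2)).prod (gam ι')) := aestronglyMeasurable_const
      exact h0.sup hF.aestronglyMeasurable) ?_
    filter_upwards with p
    rw [Real.norm_of_nonneg (le_max_left _ _), Real.norm_eq_abs]
    exact max_le (abs_nonneg _) (le_abs_self _)
  obtain ⟨i0, e0⟩ := lef_double _ hw
  obtain ⟨i1, e1⟩ := lef_double _ (hmax _ hw)
  obtain ⟨i2, e2⟩ := lef_double _ (hmax _ hw')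
  simp only at e0 e1 e2
  rw [e0, e1, e2, ← integral_add i1 i2]
  congr 1
  funext p
  by_cases hp : p ∈ {p : ℝ × (ι' → ℝ) | ∀ l, p.2 l < p.1}
  · rw [Set.indicator_of_mem hp, Set.indicator_of_mem hp, Set.indicator_of_mem hp]
    have h3 : -a - ∑ l, -d l * (p.1 - p.2 l) = -(a - ∑ l, d l * (p.1 - p.2 l)) := by
      simp only [neg_mul, Finset.sum_neg_distrib]; ring
    rw [h3]
    rcases le_total 0 (a - ∑ l, d l * (p.1 - p.2 l)) with h | h
    · rw [max_eq_right h, max_eq_left (by linarith)]; ring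
    · rw [max_eq_left h, max_eq_right (by linarith)]; ring
  · rw [Set.indicator_of_notMem hp, Set.indicator_of_notMem hp, Set.indicator_of_notMem hp]
    ring

/-- pointwise inequality -/
theorem lef_pt {m : ℕ} (hm : 2 ≤ m) (g v : Fin m → ℝ)
    (hg : ∃ j : Fin m, ∀ l, l ≠ j → g l < g j) :
    (⨆ j, (v j + g j)) ≤ ∑ j, cellF j g * (v j + g j) +
      ∑ j, ∑ k ∈ Finset.univ.filter (fun k => k ≠ j),
        cellF j g * max 0 (v k - v j - (g j - g k)) := by
  have : Nonempty (Fin m) := ⟨⟨0, by omega⟩⟩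
  obtain ⟨j, hj⟩ := hg
  have hc : cellF j g = 1 := by
    unfold cellF; rw [if_pos hj]
  have hc' : ∀ l, l ≠ j → cellF l g = 0 := by
    intro l hl
    unfold cellF; rw [if_neg]
    intro h
    have h1 := h j hl.symm
    have h2 := hj l hl
    linarith
  rw [Finset.sum_eq_single j (fun l _ hl => by rw [hc' l hl, zero_mul])
    (fun h => absurd (Finset.mem_univ _) h),
    Finset.sum_eq_single (f := fun j => ∑ k ∈ Finset.univ.filter (fun k => k ≠ j),
        cellF j g * max 0 (v k - v j - (g j - g k))) j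
      (fun l _ hl => by
        apply Finset.sum_eq_zero
        intro k _
        rw [hc' l hl, zero_mul])
    (fun h => absurd (Finset.mem_univ _) h), hc]
  apply ciSup_le
  intro k
  simp only [one_mul]
  by_cases hk : k = j
  · subst hk
    have : 0 ≤ ∑ k' ∈ Finset.univ.filter (fun k' => k' ≠ k),
        max 0 (v k' - v k - (g k - g k')) := Finset.sum_nonneg fun _ _ => le_max_left _ _
    linarith
  · have h1 : max 0 (v k - v j - (g j - g k)) ≤
        ∑ k ∈ Finset.univ.filter (fun k => k ≠ j), max 0 (v k - v j - (g j - g k)) :=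
      Finset.single_le_sum (f := fun k => max 0 (v k - v j - (g j - g k)))
        (fun _ _ => le_max_left _ _) (by simp [hk])
    have h2 := le_max_right (0 : ℝ) (v k - v j - (g j - g k))
    linarith

/-- finite algebra -/
theorem lef_alg {m : ℕ} (hm : 2 ≤ m) (H : Fin m → Fin m → ℝ) (hH : HS H) :
    ∑ j, ∑ k ∈ Finset.univ.filter (fun k => k ≠ j),
      (∑ l ∈ Finset.univ.filter (fun l => l ≠ j ∧ l ≠ k), (H k l - H j l) ^ 2 +
        (H k k - H j j) ^ 2 / 2) ≤ 2 * ((m : ℝ) - 1) * fs H := by
  have hm' : (2 : ℝ) ≤ m := by exact_mod_cast hm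
  -- extend the sums to all indices
  have h1 : ∀ j k, k ≠ j → ∑ l ∈ Finset.univ.filter (fun l => l ≠ j ∧ l ≠ k), (H k l - H j l) ^ 2
      = ∑ l, (H k l - H j l) ^ 2 - (H k j - H j j) ^ 2 - (H k k - H j k) ^ 2 := by
    intro j k hkj
    have : Finset.univ.filter (fun l => l ≠ j ∧ l ≠ k) = (Finset.univ.erase j).erase k := by
      ext l; simp [and_comm]
    rw [this]
    have e1 := Finset.add_sum_erase (Finset.univ.erase j) (fun l => (H k l - H j l) ^ 2)
      (a := k) (by simp [hkj])
    have e2 := Finset.add_sum_erase Finset.univ (fun l => (H k l - H j l) ^ 2)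
      (Finset.mem_univ j)
    linarith
  have h2 : ∀ j, ∑ k ∈ Finset.univ.filter (fun k => k ≠ j),
      (∑ l ∈ Finset.univ.filter (fun l => l ≠ j ∧ l ≠ k), (H k l - H j l) ^ 2 +
        (H k k - H j j) ^ 2 / 2) =
      ∑ k, (∑ l, (H k l - H j l) ^ 2 - (H k j - H j j) ^ 2 - (H k k - H j k) ^ 2 +
        (H k k - H j j) ^ 2 / 2) := by
    intro j
    rw [← Finset.add_sum_erase Finset.univ _ (Finset.mem_univ j)]
    have : Finset.univ.filter (fun k => k ≠ j) = Finset.univ.erase j := by
      ext l; simp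
    rw [this]
    have e3 : (∑ l, (H j l - H j l) ^ 2 - (H j j - H j j) ^ 2 - (H j j - H j j) ^ 2 +
        (H j j - H j j) ^ 2 / 2) = 0 := by simp
    rw [e3, zero_add]
    apply Finset.sum_congr rfl
    intro k hk
    rw [h1 j k (by simpa using hk)]
  simp_rw [h2]
  -- expand everything
  have S0 : ∑ j, ∑ k, ∑ l, (H k l - H j l) ^ 2 = 2 * (m : ℝ) * fs H := by
    have e : ∀ j k, ∑ l, (H k l - H j l) ^ 2 =
        ∑ l, H k l ^ 2 + ∑ l, H j l ^ 2 - 2 * ∑ l, H k l * H j l := by
      intro j k
      rw [Finset.mul_sum, ← Finset.sum_add_distrib, ← Finset.sum_sub_distrib]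
      exact Finset.sum_congr rfl fun l _ => by ring
    simp_rw [e]
    have e4 : ∑ j, ∑ k, ∑ l, H k l * H j l = 0 := by
      have : ∀ j, ∑ k, ∑ l, H k l * H j l = 0 := by
        intro j
        rw [Finset.sum_comm]
        apply Finset.sum_eq_zero
        intro l _
        rw [← Finset.sum_mul]
        have : ∑ k, H k l = 0 := by
          rw [← hH.row l]
          exact Finset.sum_congr rfl fun k _ => hH.symm k l
        rw [this, zero_mul]
      exact Finset.sum_eq_zero fun j _ => this j
    simp only [Finset.sum_sub_distrib, Finset.sum_add_distrib, ← Finset.mul_sum]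
    rw [e4]
    simp only [Finset.sum_const, Finset.card_univ, Fintype.card_fin, nsmul_eq_mul]
    unfold fs
    rw [← Finset.mul_sum]
    ring
  set Dg := ∑ j, H j j ^ 2 with hDg
  set tr := ∑ j, H j j with htr
  have hrow := hH.row
  have hcol : ∀ l, ∑ k, H k l = 0 := by
    intro l
    rw [← hH.row l]
    exact Finset.sum_congr rfl fun k _ => hH.symm k l
  have S1 : ∑ j, ∑ k, (H k j - H j j) ^ 2 = fs H + (m : ℝ) * Dg := by
    have e : ∀ j, ∑ k, (H k j - H j j) ^ 2 = ∑ k, H j k ^ 2 + (m : ℝ) * H j j ^ 2 := by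
      intro j
      have e5 : ∀ k, (H k j - H j j) ^ 2 = H j k ^ 2 + H j j ^ 2 - 2 * H j j * H k j := by
        intro k; rw [hH.symm j k]; ring
      simp_rw [e5]
      rw [Finset.sum_sub_distrib, Finset.sum_add_distrib, ← Finset.mul_sum, hcol j]
      simp
    simp_rw [e]
    rw [Finset.sum_add_distrib, ← Finset.mul_sum]
    rfl
  have S2 : ∑ j, ∑ k, (H k k - H j k) ^ 2 = fs H + (m : ℝ) * Dg := by
    rw [Finset.sum_comm]
    rw [← S1]
    apply Finset.sum_congr rfl; intro k _
    apply Finset.sum_congr rfl; intro j _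
    ring
  have S3 : ∑ j, ∑ k, (H k k - H j j) ^ 2 / 2 = (m : ℝ) * Dg - tr ^ 2 := by
    have e : ∀ j, ∑ k, (H k k - H j j) ^ 2 / 2 = Dg / 2 + (m : ℝ) / 2 * H j j ^ 2 - H j j * tr := by
      intro j
      have e6 : ∀ k, (H k k - H j j) ^ 2 / 2 = H k k ^ 2 / 2 + H j j ^ 2 / 2 - H j j * H k k := by
        intro k; ring
      simp_rw [e6]
      rw [Finset.sum_sub_distrib, Finset.sum_add_distrib, ← Finset.mul_sum, ← Finset.sum_div]
      simp only [Finset.sum_const, Finset.card_univ, Fintype.card_fin, nsmul_eq_mul]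
      ring
    simp_rw [e]
    rw [Finset.sum_sub_distrib, Finset.sum_add_distrib, ← Finset.sum_mul, ← Finset.mul_sum]
    simp only [Finset.sum_const, Finset.card_univ, Fintype.card_fin, nsmul_eq_mul]
    ring
  have hsplit : ∑ j, ∑ k, (∑ l, (H k l - H j l) ^ 2 - (H k j - H j j) ^ 2 - (H k k - H j k) ^ 2 +
        (H k k - H j j) ^ 2 / 2) = 2 * (m : ℝ) * fs H - (fs H + (m : ℝ) * Dg)
          - (fs H + (m : ℝ) * Dg) + ((m : ℝ) * Dg - tr ^ 2) := by
    rw [← S3, ← S0, ← S1]
    simp only [Finset.sum_sub_distrib, Finset.sum_add_distrib]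
    rw [S2, S1]
  rw [hsplit]
  have hD0 : 0 ≤ Dg := Finset.sum_nonneg fun _ _ => sq_nonneg _
  nlinarith [sq_nonneg tr, mul_nonneg (show (0 : ℝ) ≤ m by linarith) hD0]

/-- the local expansion. -/
theorem local_expansion (m : ℕ) (hm : 2 ≤ m) : ∃ C r0 : ℝ, 0 ≤ C ∧ 0 < r0 ∧
    ∀ H : Fin m → Fin m → ℝ, HS H → fs H ≤ r0 ^ 2 → ∃ c : Fin m → ℝ,
      ∑ j, c j = 0 ∧ (∀ j, |c j| ≤ C * Real.sqrt (fs H)) ∧
      ∫ g, (⨆ j, (c j + g j + ∑ l, H j l * g l)) ∂(gam (Fin m))
        ≤ MM (Fin m) + am m * ∑ j, H j j + am m / 2 * (1 - 1 / (m : ℝ)) * fs H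
          + C * Real.sqrt (fs H) ^ 3 := by
  have : Nonempty (Fin m) := ⟨⟨0, by omega⟩⟩
  have hm' : (2 : ℝ) ≤ m := by exact_mod_cast hm
  obtain ⟨μ, hμ⟩ := wall_bound m hm
  obtain ⟨C, r0, hC, hr0, hpair⟩ := pair_bound m hm (2 * |μ|) (by positivity)
  refine ⟨(m : ℝ) ^ 2 * C + 2 * |μ|, r0, by positivity, hr0, ?_⟩
  intro H hH hfs
  have hfs0 : 0 ≤ fs H := Finset.sum_nonneg fun _ _ => Finset.sum_nonneg fun _ _ => sq_nonneg _
  set N := Real.sqrt (fs H) with hN
  have hN0 : 0 ≤ N := Real.sqrt_nonneg _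
  have hN2 : N ^ 2 = fs H := Real.sq_sqrt hfs0
  set tr := ∑ j, H j j with htr
  have hent : ∀ j k, |H j k| ≤ N := by
    intro j k
    apply Real.abs_le_sqrt
    calc H j k ^ 2 ≤ ∑ k, H j k ^ 2 :=
          Finset.single_le_sum (f := fun k => H j k ^ 2) (fun _ _ => sq_nonneg _)
            (Finset.mem_univ k)
      _ ≤ ∑ j, ∑ k, H j k ^ 2 :=
          Finset.single_le_sum (f := fun j => ∑ k, H j k ^ 2)
            (fun _ _ => Finset.sum_nonneg fun _ _ => sq_nonneg _) (Finset.mem_univ j)
  have htrN : |tr / m| ≤ N := by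
    rw [abs_div, abs_of_pos (show (0 : ℝ) < m by linarith), div_le_iff₀ (by linarith)]
    calc |tr| ≤ ∑ j : Fin m, |H j j| := Finset.abs_sum_le_sum_abs _ _
      _ ≤ ∑ j : Fin m, N := Finset.sum_le_sum fun j _ => hent j j
      _ = N * m := by simp [mul_comm]
  let c : Fin m → ℝ := fun j => -μ * (H j j - tr / m)
  have hcsum : ∑ j, c j = 0 := by
    simp only [c]
    rw [← Finset.mul_sum, Finset.sum_sub_distrib]
    simp only [Finset.sum_const, Finset.card_univ, Fintype.card_fin, nsmul_eq_mul]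
    rw [← htr]
    have : (m : ℝ) ≠ 0 := by linarith
    field_simp
    ring
  have hcb : ∀ l, |c l| ≤ 2 * |μ| * N := by
    intro l
    simp only [c]
    rw [abs_mul, abs_neg]
    have h1 : |H l l - tr / m| ≤ 2 * N := by
      calc |H l l - tr / m| ≤ |H l l| + |tr / m| := abs_sub _ _
        _ ≤ 2 * N := by linarith [hent l l]
    calc |μ| * |H l l - tr / m| ≤ |μ| * (2 * N) := mul_le_mul_of_nonneg_left h1 (abs_nonneg _)
      _ = 2 * |μ| * N := by ring
  refine ⟨c, hcsum, ?_, ?_⟩
  · intro j
    refine (hcb j).trans ?_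
    have : 0 ≤ (m : ℝ) ^ 2 * C * N := by positivity
    nlinarith
  -- the vector v
  let v : (Fin m → ℝ) → Fin m → ℝ := fun g j => c j + ∑ l, H j l * g l
  have hvint : ∀ j, Integrable (fun g => v g j) (gam (Fin m)) := fun j => lef_v_int (c j) (H j)
  have hgint : ∀ j : Fin m, Integrable (fun g : Fin m → ℝ => g j) (gam (Fin m)) :=
    fun j => lid_int_coord j
  have hpt : ∀ᵐ g ∂(gam (Fin m)), (⨆ j, (c j + g j + ∑ l, H j l * g l)) ≤
      ∑ j, cellF j g * (v g j + g j) +
      ∑ j, ∑ k ∈ Finset.univ.filter (fun k => k ≠ j),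
        cellF j g * max 0 (v g k - v g j - (g j - g k)) := by
    filter_upwards [ae_strict_max (m := m) (by omega)] with g hg
    have := lef_pt hm g (v g) hg
    have e : (fun j => c j + g j + ∑ l, H j l * g l) = fun j => v g j + g j := by
      funext j; simp only [v]; ring
    rw [e]
    exact this
  have hI1 : Integrable (fun g => ∑ j, cellF j g * (v g j + g j)) (gam (Fin m)) :=
    integrable_finsetSum _ fun j _ => lef_cell_int j _ ((hvint j).add (hgint j))
  have hI2' : ∀ j k : Fin m, Integrable (fun g => cellF j g * max 0 (v g k - v g j - (g j - g k)))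
      (gam (Fin m)) := fun j k =>
    lef_cell_int j _ (lef_max _ (((hvint k).sub (hvint j)).sub ((hgint j).sub (hgint k))))
  have hI2 : Integrable (fun g => ∑ j, ∑ k ∈ Finset.univ.filter (fun k => k ≠ j),
        cellF j g * max 0 (v g k - v g j - (g j - g k))) (gam (Fin m)) :=
    integrable_finsetSum _ fun j _ => integrable_finsetSum _ fun k _ => hI2' j k
  have hI0 : Integrable (fun g => ⨆ j, (c j + g j + ∑ l, H j l * g l)) (gam (Fin m)) := by
    have hcont : Continuous (fun g : Fin m → ℝ => fun j => c j + g j + ∑ l, H j l * g l) := by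
      fun_prop
    have hb : Integrable (fun g : Fin m → ℝ => ∑ j, |c j + g j + ∑ l, H j l * g l|)
        (gam (Fin m)) := by
      refine integrable_finsetSum _ fun j _ => ?_
      have : Integrable (fun g : Fin m → ℝ => c j + g j + ∑ l, H j l * g l) (gam (Fin m)) := by
        refine ((hvint j).add (hgint j)).congr ?_
        filter_upwards with g
        simp only [v, Pi.add_apply]; ring
      exact this.abs
    refine hb.mono' ((emx_cont_iSup.comp hcont).aestronglyMeasurable) ?_
    filter_upwards with g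
    have h1 : ‖⨆ j, (c j + g j + ∑ l, H j l * g l)‖ ≤ ‖fun j => c j + g j + ∑ l, H j l * g l‖ :=
      emx_abs_iSup (fun j => c j + g j + ∑ l, H j l * g l)
    refine h1.trans ?_
    rw [pi_norm_le_iff_of_nonneg (Finset.sum_nonneg fun _ _ => abs_nonneg _)]
    intro j
    exact Finset.single_le_sum (f := fun j => |c j + g j + ∑ l, H j l * g l|)
      (fun _ _ => abs_nonneg _) (Finset.mem_univ j)
  have hmain := integral_mono_ae hI0 (hI1.add hI2) hpt
  refine hmain.trans ?_
  simp only [Pi.add_apply]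
  rw [integral_add hI1 hI2]
  -- the main term
  have hA : ∫ g, ∑ j, cellF j g * (v g j + g j) ∂(gam (Fin m)) = MM (Fin m) + am m * tr := by
    rw [integral_finsetSum (μ := gam (Fin m)) Finset.univ
      (f := fun j g => cellF j g * (v g j + g j))
      (fun j _ => lef_cell_int j _ ((hvint j).add (hgint j)))]
    have h1 : ∀ j, ∫ g, cellF j g * (v g j + g j) ∂(gam (Fin m)) =
        c j / m + am m * H j j + am m * (1 - 1 / (m : ℝ)) := by
      intro j
      have e1 : (fun g => cellF j g * (v g j + g j)) = fun g =>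
          (cellF j g * c j + ∑ l, H j l * (cellF j g * g l)) + cellF j g * g j := by
        funext g
        simp only [v]
        have : ∑ l, H j l * (cellF j g * g l) = cellF j g * ∑ l, H j l * g l := by
          rw [Finset.mul_sum]
          exact Finset.sum_congr rfl fun l _ => by ring
        rw [this]; ring
      rw [e1]
      have i1 : Integrable (fun g : Fin m → ℝ => cellF j g * c j) (gam (Fin m)) :=
        lef_cell_int j _ (integrable_const _)
      have i2 : ∀ l, Integrable (fun g : Fin m → ℝ => H j l * (cellF j g * g l)) (gam (Fin m)) :=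
        fun l => (lef_cell_int j _ (hgint l)).const_mul _
      have i3 : Integrable (fun g : Fin m → ℝ => cellF j g * g j) (gam (Fin m)) :=
        lef_cell_int j _ (hgint j)
      have i2s : Integrable (fun g : Fin m → ℝ => ∑ l, H j l * (cellF j g * g l)) (gam (Fin m)) :=
        integrable_finsetSum _ fun l _ => i2 l
      have i12 : Integrable (fun g : Fin m → ℝ => cellF j g * c j +
        ∑ l, H j l * (cellF j g * g l)) (gam (Fin m)) := i1.add i2s
      rw [integral_add i12 i3, integral_add i1 i2s,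
        integral_finsetSum (μ := gam (Fin m)) Finset.univ
          (f := fun l (g : Fin m → ℝ) => H j l * (cellF j g * g l)) (fun l _ => i2 l)]
      simp only [integral_const_mul, integral_mul_const]
      rw [cellF_mean (by omega) j]
      simp only [cellF_moment hm]
      have e2 : ∑ l, H j l * (am m * ((if j = l then 1 else 0) - 1 / (m : ℝ))) =
          am m * H j j := by
        have : ∀ l, H j l * (am m * ((if j = l then 1 else 0) - 1 / (m : ℝ))) =
            am m * (if j = l then H j l else 0) - am m / m * H j l := by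
          intro l
          by_cases h : j = l
          · simp only [h, if_true]; ring
          · simp only [if_neg h]; ring
        simp_rw [this]
        rw [Finset.sum_sub_distrib, ← Finset.mul_sum, ← Finset.mul_sum, hH.row j]
        simp
      rw [e2]
      simp only [if_true]
      ring
    simp_rw [h1]
    rw [Finset.sum_add_distrib, Finset.sum_add_distrib, ← Finset.sum_div, hcsum,
      ← Finset.mul_sum, ← htr]
    simp only [Finset.sum_const, Finset.card_univ, Fintype.card_fin, nsmul_eq_mul]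
    unfold am
    have h2 : (m : ℝ) ≠ 0 := by linarith
    have h3 : (m : ℝ) - 1 ≠ 0 := by linarith
    field_simp
    ring
  -- the pair terms
  let E : Fin m → Fin m → ℝ := fun j k =>
    ∫ y, ∫ g : {l : Fin m // l ≠ j ∧ l ≠ k} → ℝ,
          (Set.indicator {g : {l : Fin m // l ≠ j ∧ l ≠ k} → ℝ | ∀ l, g l < y}
            (fun g => (max 0 (c k - c j - ∑ l, (H k l.1 - H j l.1) * (y - g l))) ^ 2) g)
            ∂(gam {l : Fin m // l ≠ j ∧ l ≠ k}) ∂(gaussianReal 0 (1 / 2))
  have hE : ∀ j k, j ≠ k → ∫ g, cellF j g * max 0 (v g k - v g j - (g j - g k)) ∂(gam (Fin m)) ≤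
      (4 * Real.sqrt Real.pi)⁻¹ * E j k + C * N ^ 3 := fun j k hjk =>
    hpair H hH hfs c hcb j k hjk
  have hEE : ∀ j k, j ≠ k → E j k + E k j ≤ pm m *
      (∑ l ∈ Finset.univ.filter (fun l => l ≠ j ∧ l ≠ k), (H k l - H j l) ^ 2 +
        (H k k - H j j) ^ 2 / 2) := by
    intro j k hjk
    have e1 : E k j = ∫ y, ∫ g : {l : Fin m // l ≠ j ∧ l ≠ k} → ℝ,
          (Set.indicator {g : {l : Fin m // l ≠ j ∧ l ≠ k} → ℝ | ∀ l, g l < y}
            (fun g => (max 0 (-(c k - c j) - ∑ l, (-(H k l.1 - H j l.1)) * (y - g l))) ^ 2) g)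
            ∂(gam {l : Fin m // l ≠ j ∧ l ≠ k}) ∂(gaussianReal 0 (1 / 2)) := by
      have h1 : (fun l : Fin m => l ≠ k ∧ l ≠ j) = fun l => l ≠ j ∧ l ≠ k := by
        funext l; exact propext and_comm
      have h2 := lef_pred (fun l : Fin m => l ≠ k ∧ l ≠ j) (fun l => l ≠ j ∧ l ≠ k) h1
        (c j - c k) (fun l => H j l - H k l)
      have h3 : -(c k - c j) = c j - c k := by ring
      have h4 : ∀ l : Fin m, -(H k l - H j l) = H j l - H k l := fun l => by ring
      simp only [h3, h4]
      exact h2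
    have e2 := lef_sq (ι' := {l : Fin m // l ≠ j ∧ l ≠ k}) (c k - c j)
      (fun l => H k l.1 - H j l.1)
    have e3 : E j k + E k j = ∫ y, ∫ g : {l : Fin m // l ≠ j ∧ l ≠ k} → ℝ,
          (Set.indicator {g : {l : Fin m // l ≠ j ∧ l ≠ k} → ℝ | ∀ l, g l < y}
            (fun g => (c k - c j - ∑ l, (H k l.1 - H j l.1) * (y - g l)) ^ 2) g)
            ∂(gam {l : Fin m // l ≠ j ∧ l ≠ k}) ∂(gaussianReal 0 (1 / 2)) := by
      rw [e1]; exact e2
    have hcard : Fintype.card {l : Fin m // l ≠ j ∧ l ≠ k} = m - 2 := by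
      rw [Fintype.card_subtype]
      have : Finset.univ.filter (fun l => l ≠ j ∧ l ≠ k) = (Finset.univ.erase j).erase k := by
        ext l; simp [and_comm]
      rw [this, Finset.card_erase_of_mem (by simp [hjk.symm]), Finset.card_erase_of_mem
        (Finset.mem_univ _), Finset.card_univ, Fintype.card_fin]
      omega
    have hsub : ∀ F : Fin m → ℝ, ∑ l : {l : Fin m // l ≠ j ∧ l ≠ k}, F l.1 =
        ∑ l ∈ Finset.univ.filter (fun l => l ≠ j ∧ l ≠ k), F l := by
      intro F
      rw [← Finset.sum_subtype_eq_sum_filter, Finset.subtype_univ]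
    have hsum : ∑ l : {l : Fin m // l ≠ j ∧ l ≠ k}, (H k l.1 - H j l.1) = -(H k k - H j j) := by
      rw [hsub (fun l => H k l - H j l)]
      have : Finset.univ.filter (fun l => l ≠ j ∧ l ≠ k) = (Finset.univ.erase j).erase k := by
        ext l; simp [and_comm]
      rw [this]
      have f1 := Finset.add_sum_erase (Finset.univ.erase j) (fun l => H k l - H j l)
        (a := k) (by simp [hjk.symm])
      have f2 := Finset.add_sum_erase Finset.univ (fun l => H k l - H j l)
        (Finset.mem_univ j)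
      have f3 : ∑ l, (H k l - H j l) = 0 := by
        rw [Finset.sum_sub_distrib, hH.row, hH.row, sub_zero]
      have f4 := hH.symm j k
      linarith
    have hw := hμ {l : Fin m // l ≠ j ∧ l ≠ k} hcard (fun l => H k l.1 - H j l.1)
    have hck : c k - c j = μ * ∑ l : {l : Fin m // l ≠ j ∧ l ≠ k}, (H k l.1 - H j l.1) := by
      rw [hsum]; simp only [c]; ring
    rw [e3, hck]
    refine hw.trans (le_of_eq ?_)
    rw [hsub (fun l => (H k l - H j l) ^ 2), hsum]
    ring
  have hB : ∫ g, ∑ j, ∑ k ∈ Finset.univ.filter (fun k => k ≠ j),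
        cellF j g * max 0 (v g k - v g j - (g j - g k)) ∂(gam (Fin m)) ≤
      am m / 2 * (1 - 1 / (m : ℝ)) * fs H + (m : ℝ) ^ 2 * C * N ^ 3 := by
    rw [integral_finsetSum _ fun j _ => integrable_finsetSum _ fun k _ => hI2' j k]
    have h1 : ∀ j, ∫ g, ∑ k ∈ Finset.univ.filter (fun k => k ≠ j),
        cellF j g * max 0 (v g k - v g j - (g j - g k)) ∂(gam (Fin m)) =
        ∑ k ∈ Finset.univ.filter (fun k => k ≠ j),
          ∫ g, cellF j g * max 0 (v g k - v g j - (g j - g k)) ∂(gam (Fin m)) := fun j =>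
      integral_finsetSum _ fun k _ => hI2' j k
    simp_rw [h1]
    have hπ : 0 < Real.sqrt Real.pi := Real.sqrt_pos.2 Real.pi_pos
    calc ∑ j, ∑ k ∈ Finset.univ.filter (fun k => k ≠ j),
          ∫ g, cellF j g * max 0 (v g k - v g j - (g j - g k)) ∂(gam (Fin m))
        ≤ ∑ j, ∑ k ∈ Finset.univ.filter (fun k => k ≠ j),
          ((4 * Real.sqrt Real.pi)⁻¹ * E j k + C * N ^ 3) := by
          refine Finset.sum_le_sum fun j _ => Finset.sum_le_sum fun k hk => ?_
          exact hE j k (by simpa using (Ne.symm (by simpa using hk)))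
      _ = (4 * Real.sqrt Real.pi)⁻¹ * (∑ j, ∑ k ∈ Finset.univ.filter (fun k => k ≠ j), E j k) +
          ∑ j : Fin m, ∑ k ∈ Finset.univ.filter (fun k : Fin m => k ≠ j), C * N ^ 3 := by
          simp only [Finset.sum_add_distrib, Finset.mul_sum]
      _ ≤ (4 * Real.sqrt Real.pi)⁻¹ * (pm m * (((m : ℝ) - 1) * fs H)) + (m : ℝ) ^ 2 * (C * N ^ 3) := by
          have hCN : 0 ≤ C * N ^ 3 := by positivity
          gcongr ?_ * ?_ + ?_
          · -- symmetrization
            have hsym : ∑ j, ∑ k ∈ Finset.univ.filter (fun k => k ≠ j), E j k =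
                ∑ j, ∑ k ∈ Finset.univ.filter (fun k => k ≠ j), E k j := by
              simp only [Finset.sum_filter]
              rw [Finset.sum_comm]
              refine Finset.sum_congr rfl fun j _ => Finset.sum_congr rfl fun k _ => ?_
              by_cases h : j = k
              · simp [h]
              · rw [if_pos h, if_pos (Ne.symm h)]
            have h2 : 2 * (∑ j, ∑ k ∈ Finset.univ.filter (fun k => k ≠ j), E j k) ≤
                pm m * (2 * ((m : ℝ) - 1) * fs H) := by
              calc 2 * (∑ j, ∑ k ∈ Finset.univ.filter (fun k => k ≠ j), E j k)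
                  = ∑ j, ∑ k ∈ Finset.univ.filter (fun k => k ≠ j), (E j k + E k j) := by
                    simp only [Finset.sum_add_distrib]
                    rw [← hsym]; ring
                _ ≤ ∑ j, ∑ k ∈ Finset.univ.filter (fun k => k ≠ j), pm m *
                    (∑ l ∈ Finset.univ.filter (fun l => l ≠ j ∧ l ≠ k), (H k l - H j l) ^ 2 +
                      (H k k - H j j) ^ 2 / 2) := by
                    refine Finset.sum_le_sum fun j _ => Finset.sum_le_sum fun k hk => ?_
                    exact hEE j k (by simpa using (Ne.symm (by simpa using hk)))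
                _ = pm m * ∑ j, ∑ k ∈ Finset.univ.filter (fun k => k ≠ j),
                    (∑ l ∈ Finset.univ.filter (fun l => l ≠ j ∧ l ≠ k), (H k l - H j l) ^ 2 +
                      (H k k - H j j) ^ 2 / 2) := by
                    simp only [Finset.mul_sum]
                _ ≤ pm m * (2 * ((m : ℝ) - 1) * fs H) := by
                    refine mul_le_mul_of_nonneg_left (lef_alg hm H hH) ?_
                    have hMM := MM_pos hm
                    rw [MM_eq_pm m hm] at hMM
                    have h3 : 0 < (m : ℝ) * ((m : ℝ) - 1) := by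
                      apply mul_pos <;> linarith
                    by_contra hneg
                    push Not at hneg
                    have h4 : (m : ℝ) * ((m : ℝ) - 1) * pm m / (2 * Real.sqrt Real.pi) ≤ 0 := by
                      apply div_nonpos_of_nonpos_of_nonneg
                      · nlinarith
                      · positivity
                    linarith
            linarith
          · calc ∑ j : Fin m, ∑ k ∈ Finset.univ.filter (fun k : Fin m => k ≠ j), C * N ^ 3
                ≤ ∑ j : Fin m, ∑ k : Fin m, C * N ^ 3 := by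
                  refine Finset.sum_le_sum fun j _ => ?_
                  exact Finset.sum_le_sum_of_subset_of_nonneg (Finset.filter_subset _ _)
                    fun _ _ _ => hCN
              _ = (m : ℝ) ^ 2 * (C * N ^ 3) := by
                  simp only [Finset.sum_const, Finset.card_univ, Fintype.card_fin, nsmul_eq_mul]
                  ring
      _ = am m / 2 * (1 - 1 / (m : ℝ)) * fs H + (m : ℝ) ^ 2 * C * N ^ 3 := by
          unfold am
          rw [MM_eq_pm m hm]
          have h2 : (m : ℝ) ≠ 0 := by linarith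
          have h3 : (m : ℝ) - 1 ≠ 0 := by linarith
          field_simp
          ring
  have h5 : 0 ≤ 2 * |μ| * N ^ 3 := by positivity
  rw [hA]
  nlinarith [hB, h5]

end Pool.H65.PT
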