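import Pool.Agent.Helper65.PT.Defs

set_option autoImplicit false

open MeasureTheory ProbabilityTheory Pool.H65.PS

namespace Pool.H65.PT

theorem Sqr_fs_eq {m : ℕ} (M : Matrix (Fin m) (Fin m) ℝ) :
    fs (fun j k => M j k) = Matrix.trace (M * M.transpose) := by
  simp only [fs, Matrix.trace, Matrix.diag, Matrix.mul_apply, Matrix.transpose_apply]
  refine Finset.sum_congr rfl fun j _ => Finset.sum_congr rfl fun k _ => by ring

theorem Sqr_fs_conj {m : ℕ} (U : Matrix (Fin m) (Fin m) ℝ) (hU : U.transpose * U = 1)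
    (d : Fin m → ℝ) :
    fs (fun j k => (U * Matrix.diagonal d * U.transpose) j k) = ∑ i, d i ^ 2 := by
  rw [Sqr_fs_eq]
  have h : U * Matrix.diagonal d * U.transpose * (U * Matrix.diagonal d * U.transpose).transpose
      = U * (Matrix.diagonal d * Matrix.diagonal d) * U.transpose := by
    simp only [Matrix.transpose_mul, Matrix.transpose_transpose, Matrix.diagonal_transpose]
    calc U * Matrix.diagonal d * U.transpose * (U * (Matrix.diagonal d * U.transpose))
        = U * Matrix.diagonal d * (U.transpose * U) * (Matrix.diagonal d * U.transpose) := by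
          simp only [Matrix.mul_assoc]
      _ = _ := by rw [hU]; simp only [Matrix.mul_assoc, Matrix.mul_one]
  rw [h, Matrix.mul_assoc, Matrix.trace_mul_comm, Matrix.mul_assoc, hU, Matrix.mul_one,
    Matrix.diagonal_mul_diagonal, Matrix.trace_diagonal]
  exact Finset.sum_congr rfl fun i _ => by ring

/-- square root of a symmetric matrix near the identity; `B` is the inverse. -/
theorem exists_sqrt (m : ℕ) (A : Matrix (Fin m) (Fin m) ℝ) (hA : A.IsSymm)
    (hN : fs (fun j k => (A - 1) j k) ≤ 1 / 4) : ∃ R B : Matrix (Fin m) (Fin m) ℝ,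
    R.IsSymm ∧ R * R = A ∧ B * R = 1 ∧ R * B = 1 ∧ B.IsSymm ∧
    fs (fun j k => (R - 1) j k) ≤ fs (fun j k => (A - 1) j k) ∧
    fs (fun j k => (A - 1) j k) ≤ 9 * fs (fun j k => (R - 1) j k) ∧
    (A.mulVec (fun _ => 1) = (fun _ => 1) → R.mulVec (fun _ => 1) = (fun _ => 1)) := by
  classical
  have hH : A.IsHermitian := by
    rw [Matrix.IsHermitian, Matrix.conjTranspose_eq_transpose_of_trivial]; exact hA
  obtain ⟨U, d, hU2, hU1, hsp⟩ : ∃ (U : Matrix (Fin m) (Fin m) ℝ) (d : Fin m → ℝ),
      U.transpose * U = 1 ∧ U * U.transpose = 1 ∧ A = U * Matrix.diagonal d * U.transpose := by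
    refine ⟨(hH.eigenvectorUnitary : Matrix (Fin m) (Fin m) ℝ), hH.eigenvalues, ?_, ?_, ?_⟩
    · have := Unitary.coe_star_mul_self hH.eigenvectorUnitary
      rwa [Matrix.star_eq_conjTranspose, Matrix.conjTranspose_eq_transpose_of_trivial] at this
    · have := Unitary.coe_star_mul_self hH.eigenvectorUnitary
      rw [Matrix.star_eq_conjTranspose, Matrix.conjTranspose_eq_transpose_of_trivial] at this
      exact mul_eq_one_comm.1 this
    · have := hH.spectral_theorem
      rw [Unitary.conjStarAlgAut_apply, Matrix.star_eq_conjTranspose,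
        Matrix.conjTranspose_eq_transpose_of_trivial] at this
      exact this
  -- functional calculus
  have F1 : U * Matrix.diagonal (fun _ => (1 : ℝ)) * U.transpose = 1 := by
    have : Matrix.diagonal (fun _ : Fin m => (1 : ℝ)) = 1 := Matrix.diagonal_one
    rw [this, Matrix.mul_one, hU1]
  have Fmul : ∀ a b : Fin m → ℝ, (U * Matrix.diagonal a * U.transpose) *
      (U * Matrix.diagonal b * U.transpose) = U * Matrix.diagonal (fun i => a i * b i) * U.transpose := by
    intro a b
    calc (U * Matrix.diagonal a * U.transpose) * (U * Matrix.diagonal b * U.transpose)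
        = U * Matrix.diagonal a * (U.transpose * U) * (Matrix.diagonal b * U.transpose) := by
          simp only [Matrix.mul_assoc]
      _ = U * (Matrix.diagonal a * Matrix.diagonal b) * U.transpose := by
          rw [hU2]; simp only [Matrix.mul_assoc, Matrix.one_mul]
      _ = _ := by rw [Matrix.diagonal_mul_diagonal]
  have Fsymm : ∀ a : Fin m → ℝ, (U * Matrix.diagonal a * U.transpose).IsSymm := by
    intro a
    rw [Matrix.IsSymm, Matrix.transpose_mul, Matrix.transpose_mul, Matrix.transpose_transpose,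
      Matrix.diagonal_transpose, Matrix.mul_assoc]
  have Fsub : ∀ a : Fin m → ℝ, (U * Matrix.diagonal a * U.transpose) - 1
      = U * Matrix.diagonal (fun i => a i - 1) * U.transpose := by
    intro a
    rw [← F1, ← Matrix.sub_mul, ← Matrix.mul_sub, Matrix.diagonal_sub]
  have hd : ∑ i, (d i - 1) ^ 2 ≤ 1 / 4 := by
    rw [hsp, Fsub, Sqr_fs_conj U hU2] at hN
    exact hN
  have hdi : ∀ i, (1 : ℝ) / 2 ≤ d i ∧ d i ≤ 3 / 2 := by
    intro i
    have h1 : (d i - 1) ^ 2 ≤ 1 / 4 :=
      le_trans (Finset.single_le_sum (f := fun i => (d i - 1) ^ 2)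
        (fun i _ => sq_nonneg _) (Finset.mem_univ i)) hd
    have h2 : |d i - 1| ≤ 1 / 2 := by
      apply abs_le_of_sq_le_sq _ (by norm_num)
      linarith
    rw [abs_le] at h2
    constructor <;> linarith
  have hs : ∀ i, 0 < Real.sqrt (d i) := fun i => Real.sqrt_pos.2 (by linarith [(hdi i).1])
  have hss : ∀ i, Real.sqrt (d i) * Real.sqrt (d i) = d i := fun i =>
    Real.mul_self_sqrt (by linarith [(hdi i).1])
  refine ⟨U * Matrix.diagonal (fun i => Real.sqrt (d i)) * U.transpose,
    U * Matrix.diagonal (fun i => (Real.sqrt (d i))⁻¹) * U.transpose, Fsymm _, ?_, ?_, ?_, Fsymm _,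
    ?_, ?_, ?_⟩
  · rw [Fmul, hsp]
    congr 2
    congr 1
    funext i
    exact hss i
  · rw [Fmul, ← F1]
    congr 2
    congr 1
    funext i
    exact inv_mul_cancel₀ (hs i).ne'
  · rw [Fmul, ← F1]
    congr 2
    congr 1
    funext i
    exact mul_inv_cancel₀ (hs i).ne'
  · rw [Fsub, Sqr_fs_conj U hU2, hsp, Fsub, Sqr_fs_conj U hU2]
    refine Finset.sum_le_sum fun i _ => ?_
    have h1 := hss i
    have h2 := hs i
    have h3 : d i - 1 = (Real.sqrt (d i) - 1) * (Real.sqrt (d i) + 1) := by
      nlinarith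
    rw [h3, mul_pow]
    have h4 : (1 : ℝ) ≤ (Real.sqrt (d i) + 1) ^ 2 := by nlinarith
    nlinarith [sq_nonneg (Real.sqrt (d i) - 1)]
  · rw [Fsub, Sqr_fs_conj U hU2, hsp, Fsub, Sqr_fs_conj U hU2, Finset.mul_sum]
    refine Finset.sum_le_sum fun i _ => ?_
    have h1 := hss i
    have h2 := hs i
    have h3 : d i - 1 = (Real.sqrt (d i) - 1) * (Real.sqrt (d i) + 1) := by
      nlinarith
    have h5 : Real.sqrt (d i) ≤ 2 := by
      rw [show (2 : ℝ) = Real.sqrt (2 ^ 2) by rw [Real.sqrt_sq (by norm_num)]]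
      exact Real.sqrt_le_sqrt (by linarith [(hdi i).2])
    rw [h3, mul_pow]
    have h4 : (Real.sqrt (d i) + 1) ^ 2 ≤ 9 := by nlinarith
    nlinarith [sq_nonneg (Real.sqrt (d i) - 1)]
  · intro h1
    set R := U * Matrix.diagonal (fun i => Real.sqrt (d i)) * U.transpose with hR
    have hRR : R * R = A := by
      rw [hR, Fmul, hsp]
      congr 2
      congr 1
      funext i
      exact hss i
    set v : Fin m → ℝ := fun _ => 1 with hv
    set w : Fin m → ℝ := R.mulVec v - v with hw
    -- (R + 1) w = 0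
    have hw0 : R.mulVec w + w = 0 := by
      rw [hw, Matrix.mulVec_sub, Matrix.mulVec_mulVec, hRR, h1]
      abel
    have hR1 : R + 1 = U * Matrix.diagonal (fun i => Real.sqrt (d i) + 1) * U.transpose := by
      rw [hR, ← F1, ← Matrix.add_mul, ← Matrix.mul_add, Matrix.diagonal_add]
    have hinv : (U * Matrix.diagonal (fun i => (Real.sqrt (d i) + 1)⁻¹) * U.transpose) * (R + 1)
        = 1 := by
      rw [hR1, Fmul, ← F1]
      congr 2
      congr 1
      funext i
      exact inv_mul_cancel₀ (by linarith [hs i])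
    have h2 : (R + 1).mulVec w = 0 := by
      rw [Matrix.add_mulVec, Matrix.one_mulVec]
      exact hw0
    have h3 : w = 0 := by
      calc w = (1 : Matrix (Fin m) (Fin m) ℝ).mulVec w := (Matrix.one_mulVec w).symm
        _ = ((U * Matrix.diagonal (fun i => (Real.sqrt (d i) + 1)⁻¹) * U.transpose)
              * (R + 1)).mulVec w := by rw [hinv]
        _ = 0 := by rw [← Matrix.mulVec_mulVec, h2, Matrix.mulVec_zero]
    have h4 : R.mulVec v - v = 0 := h3
    exact sub_eq_zero.1 h4

end Pool.H65.PT
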