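import Pool.Agent.Helper65.PT.Defs
import Pool.Agent.Helper65.PT.Lef
import Pool.Agent.Helper65.PT.Sqr
import Pool.Agent.Helper65.PT.Cmx
import Pool.Agent.Helper65.PS.Exl

set_option autoImplicit false

open MeasureTheory ProbabilityTheory Pool.H65.PS

namespace Pool.H65.PT

section sbd

variable {κ κ' : Type} [Fintype κ] [Fintype κ'] {m : ℕ}

/-- `E max_j (c_j + (lin W g)_j)`. -/
noncomputable def sbdE (W : κ → Fin m → ℝ) (c : Fin m → ℝ) : ℝ :=
  ∫ g, (⨆ j, (c j + lin W g j)) ∂(gam κ)

theorem sbd_lin_apply (W : κ → Fin m → ℝ) (g : κ → ℝ) (j : Fin m) :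
    lin W g j = ∑ i, g i * W i j := by
  unfold lin
  simp [Finset.sum_apply]

theorem sbd_law (W : κ → Fin m → ℝ) (W' : κ' → Fin m → ℝ) (hm : 2 ≤ m)
    (h : ∀ j k, ∑ i, W i j * W i k = ∑ i, W' i j * W' i k) (c : Fin m → ℝ) :
    sbdE W c = sbdE W' c := by
  have : Nonempty (Fin m) := ⟨⟨0, by omega⟩⟩
  have hc : Continuous (fun x : Fin m → ℝ => ⨆ j, (c j + x j)) :=
    emx_cont_iSup.comp (continuous_const.add continuous_id)
  have h1 : sbdE W c = ∫ x, (⨆ j, (c j + x j)) ∂((gam κ).map (lin W)) := by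
    rw [integral_map (Exl_continuous_lin W).measurable.aemeasurable hc.aestronglyMeasurable]
    rfl
  have h2 : sbdE W' c = ∫ x, (⨆ j, (c j + x j)) ∂((gam κ').map (lin W')) := by
    rw [integral_map (Exl_continuous_lin W').measurable.aemeasurable hc.aestronglyMeasurable]
    rfl
  rw [h1, h2, map_lin_eq W W' h]

theorem sbd_int (hm : 2 ≤ m) (W : κ → Fin m → ℝ) (c : Fin m → ℝ) :
    Integrable (fun g => ⨆ j, (c j + lin W g j)) (gam κ) := by
  have : Nonempty (Fin m) := ⟨⟨0, by omega⟩⟩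
  have hc : Continuous (fun g : κ → ℝ => ⨆ j, (c j + lin W g j)) :=
    emx_cont_iSup.comp (continuous_const.add (Exl_continuous_lin W))
  have hb : Integrable (fun g : κ → ℝ => ∑ j, |c j + lin W g j|) (gam κ) := by
    refine integrable_finsetSum _ fun j _ => Integrable.abs ?_
    refine (integrable_const (c j)).add ?_
    simp_rw [sbd_lin_apply]
    exact integrable_finsetSum _ fun i _ => (emx_int_coord i).mul_const _
  refine hb.mono' hc.aestronglyMeasurable ?_
  filter_upwards with g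
  refine (emx_abs_iSup (fun j => c j + lin W g j)).trans ?_
  rw [pi_norm_le_iff_of_nonneg (Finset.sum_nonneg fun _ _ => abs_nonneg _)]
  intro j
  exact Finset.single_le_sum (f := fun j => |c j + lin W g j|) (fun _ _ => abs_nonneg _)
    (Finset.mem_univ j)

theorem sbd_Gm (W : κ → Fin m → ℝ) (s : κ → ℝ) (c : Fin m → ℝ) :
    Gm W s c = sbdE (fun i => Real.sqrt (s i) • W i) c - (∑ j, c j) / (m : ℝ) := by
  unfold Gm sbdE
  rw [Fintype.card_fin]
  congr 1
  congr 1
  funext g
  congr 1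
  funext j
  rw [sbd_lin_apply]
  congr 1
  refine Finset.sum_congr rfl fun i _ => ?_
  simp only [Pi.smul_apply, smul_eq_mul]
  ring

theorem sbd_scale (W : κ → Fin m → ℝ) (c : Fin m → ℝ) (a : ℝ) (ha : 0 ≤ a) :
    sbdE (fun i => a • W i) (fun j => a * c j) = a * sbdE W c := by
  unfold sbdE
  rw [← integral_const_mul]
  congr 1
  funext g
  rw [Real.mul_iSup_of_nonneg ha]
  congr 1
  funext j
  rw [sbd_lin_apply, sbd_lin_apply, mul_add, Finset.mul_sum]
  congr 1
  refine Finset.sum_congr rfl fun i _ => ?_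
  simp only [Pi.smul_apply, smul_eq_mul]
  ring

theorem sbd_shift (hm : 2 ≤ m) (W : κ → Fin m → ℝ) (c : Fin m → ℝ) (a : ℝ) :
    sbdE W (fun j => c j - a) = sbdE W c - a := by
  have : Nonempty (Fin m) := ⟨⟨0, by omega⟩⟩
  have h1 : ∀ g : κ → ℝ, (⨆ j, (c j - a + lin W g j)) = (⨆ j, (c j + lin W g j)) - a := by
    intro g
    rw [ciSup_sub (Set.finite_range _).bddAbove]
    congr 1
    funext j
    ring
  unfold sbdE
  simp_rw [h1]
  rw [integral_sub (sbd_int hm W c) (integrable_const a)]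
  simp

theorem sbd_cell (hm : 2 ≤ m) (j : Fin m) (c : ℝ) (h : Fin m → ℝ) :
    ∫ g, cellF j g * (c + ∑ l, h l * g l) ∂(gam (Fin m)) =
      c / m + am m * (h j - (∑ l, h l) / m) := by
  have e1 : (fun g => cellF j g * (c + ∑ l, h l * g l)) = fun g =>
      cellF j g * c + ∑ l, h l * (cellF j g * g l) := by
    funext g
    rw [mul_add, Finset.mul_sum]
    congr 1
    exact Finset.sum_congr rfl fun l _ => by ring
  rw [e1]
  have i1 : Integrable (fun g : Fin m → ℝ => cellF j g * c) (gam (Fin m)) :=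
    lef_cell_int j _ (integrable_const _)
  have i2 : ∀ l, Integrable (fun g : Fin m → ℝ => h l * (cellF j g * g l)) (gam (Fin m)) :=
    fun l => (lef_cell_int j _ (lid_int_coord l)).const_mul _
  have i2s : Integrable (fun g : Fin m → ℝ => ∑ l, h l * (cellF j g * g l)) (gam (Fin m)) :=
    integrable_finsetSum _ fun l _ => i2 l
  rw [integral_add i1 i2s, integral_finsetSum (μ := gam (Fin m)) Finset.univ
    (f := fun l (g : Fin m → ℝ) => h l * (cellF j g * g l)) (fun l _ => i2 l)]
  simp only [integral_const_mul, integral_mul_const]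
  rw [cellF_mean (by omega) j]
  simp only [cellF_moment hm]
  have : ∀ l, h l * (am m * ((if j = l then 1 else 0) - 1 / (m : ℝ))) =
      am m * (if j = l then h l else 0) - am m / m * h l := by
    intro l
    by_cases h' : j = l
    · simp only [h', if_true]; ring
    · simp only [if_neg h']; ring
  simp_rw [this]
  rw [Finset.sum_sub_distrib, ← Finset.mul_sum, ← Finset.mul_sum]
  simp
  ring

/-- lower bound for the simplex family -/
theorem sbd_low (hm : 2 ≤ m) (a : ℝ) (c : Fin m → ℝ) :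
    a * MM (Fin m) ≤
      sbdE (fun (k j : Fin m) => a * ((if j = k then 1 else 0) - 1 / (m : ℝ))) c
        - (∑ j, c j) / (m : ℝ) := by
  have : Nonempty (Fin m) := ⟨⟨0, by omega⟩⟩
  have hm' : (2 : ℝ) ≤ m := by exact_mod_cast hm
  set W : Fin m → Fin m → ℝ := fun (k j : Fin m) => a * ((if j = k then 1 else 0) - 1 / (m : ℝ))
    with hW
  have hlin : ∀ g j, c j + lin W g j = c j + ∑ l, (a * ((if j = l then 1 else 0) - 1 / (m : ℝ))) * g l := by
    intro g j
    rw [sbd_lin_apply]
    congr 1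
    exact Finset.sum_congr rfl fun l _ => by rw [hW]; ring
  have hae : ∀ᵐ g ∂(gam (Fin m)), ∑ j, cellF j g * (c j + ∑ l,
      (a * ((if j = l then 1 else 0) - 1 / (m : ℝ))) * g l) ≤ ⨆ j, (c j + lin W g j) := by
    filter_upwards [ae_strict_max (m := m) (by omega)] with g hg
    obtain ⟨j, hj⟩ := hg
    have hc : cellF j g = 1 := by unfold cellF; rw [if_pos hj]
    have hc' : ∀ l, l ≠ j → cellF l g = 0 := by
      intro l hl
      unfold cellF; rw [if_neg]
      intro h
      have h1 := h j hl.symm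
      have h2 := hj l hl
      linarith
    rw [Finset.sum_eq_single j (fun l _ hl => by rw [hc' l hl, zero_mul])
      (fun h => absurd (Finset.mem_univ _) h), hc, one_mul, ← hlin g j]
    exact le_ciSup (f := fun j => c j + lin W g j) (Set.finite_range _).bddAbove j
  have hi : ∀ j, Integrable (fun g => cellF j g * (c j + ∑ l,
      (a * ((if j = l then 1 else 0) - 1 / (m : ℝ))) * g l)) (gam (Fin m)) := fun j =>
    lef_cell_int j _ (lef_v_int _ _)
  have h1 := integral_mono_ae (integrable_finsetSum _ fun j _ => hi j) (sbd_int hm W c) hae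
  rw [integral_finsetSum (μ := gam (Fin m)) Finset.univ
    (f := fun j g => cellF j g * (c j + ∑ l,
      (a * ((if j = l then 1 else 0) - 1 / (m : ℝ))) * g l)) (fun j _ => hi j)] at h1
  have h2 : ∀ j : Fin m, ∫ g, cellF j g * (c j + ∑ l,
      (a * ((if j = l then 1 else 0) - 1 / (m : ℝ))) * g l) ∂(gam (Fin m)) =
      c j / m + am m * (a * (1 - 1 / (m : ℝ))) := by
    intro j
    rw [sbd_cell hm j (c j) (fun l => a * ((if j = l then 1 else 0) - 1 / (m : ℝ)))]
    have h3 : ∑ l : Fin m, a * ((if j = l then 1 else 0) - 1 / (m : ℝ)) = 0 := by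
      rw [← Finset.mul_sum, Finset.sum_sub_distrib]
      have : (m : ℝ) ≠ 0 := by linarith
      simp
      right
      field_simp
      ring
    rw [h3]
    simp
  simp_rw [h2] at h1
  rw [Finset.sum_add_distrib, ← Finset.sum_div] at h1
  simp only [Finset.sum_const, Finset.card_univ, Fintype.card_fin, nsmul_eq_mul] at h1
  have h4 : (m : ℝ) * (am m * (a * (1 - 1 / (m : ℝ)))) = a * MM (Fin m) := by
    unfold am
    have h5 : (m : ℝ) ≠ 0 := by linarith
    have h6 : (m : ℝ) - 1 ≠ 0 := by linarith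
    field_simp
  rw [h4] at h1
  have h7 : sbdE W c = ∫ g, (⨆ j, (c j + lin W g j)) ∂(gam (Fin m)) := rfl
  rw [h7]
  linarith

/-- adding an independent multiple of the all ones vector -/
theorem sbd_ones (hm : 2 ≤ m) (Y : κ → Fin m → ℝ) (b : ℝ) (c : Fin m → ℝ) :
    sbdE (Sum.elim Y (fun (_ : Unit) _ => b)) c = sbdE Y c := by
  have : Nonempty (Fin m) := ⟨⟨0, by omega⟩⟩
  have h1 : sbdE Y c = sbdE (Sum.elim Y (fun (_ : Unit) _ => (0 : ℝ))) c := by
    apply sbd_law _ _ hm
    intro j k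
    simp
  rw [h1]
  have h2 : ∀ g : κ ⊕ Unit → ℝ, (⨆ j, (c j + lin (Sum.elim Y (fun (_ : Unit) _ => b)) g j)) =
      (⨆ j, (c j + lin (Sum.elim Y (fun (_ : Unit) _ => (0 : ℝ))) g j)) + g (Sum.inr ()) * b := by
    intro g
    rw [ciSup_add (Set.finite_range _).bddAbove]
    congr 1
    funext j
    rw [sbd_lin_apply, sbd_lin_apply]
    simp
    ring
  unfold sbdE
  simp_rw [h2]
  rw [integral_add (sbd_int hm _ c) ((emx_int_coord (Sum.inr ())).mul_const b),
    integral_mul_const, emx_mean_coord]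
  simp

theorem sbd_up (hm : 2 ≤ m) : ∃ r1 : ℝ, 0 < r1 ∧ r1 ≤ 1 ∧ ∀ B : Fin m → Fin m → ℝ,
    (∀ j k, B j k = B k j) → (∀ j, ∑ k, B j k = 0) → ∑ j, B j j = 0 → fs B ≤ r1 ^ 2 →
    ∃ c : Fin m → ℝ, ∑ j, c j = 0 ∧ ∀ (κ : Type) [Fintype κ] (Y : κ → Fin m → ℝ),
      (∀ j k, ∑ i, Y i j * Y i k = (if j = k then 1 else 0) - 1 / (m : ℝ) + B j k) →
      sbdE Y c ≤ MM (Fin m) - am m / (36 * m) * fs B := by
  have hm' : (2 : ℝ) ≤ m := by exact_mod_cast hm
  have ha := am_pos hm
  obtain ⟨C, r0, hC, hr0, hloc⟩ := local_expansion m hm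
  set a := am m with hadef
  set M : ℝ := (m : ℝ) with hM
  have hpos : 0 < a / (4 * M * (C + 1)) := by positivity
  refine ⟨min (min r0 (a / (4 * M * (C + 1)))) (1 / 2), lt_min (lt_min hr0 hpos) (by norm_num),
    (min_le_right _ _).trans (by norm_num), ?_⟩
  intro B hsymm hrow htr hfs
  set r1 := min (min r0 (a / (4 * M * (C + 1)))) (1 / 2) with hr1def
  have hr1 : 0 < r1 := lt_min (lt_min hr0 hpos) (by norm_num)
  have hr1a : r1 ≤ r0 := (min_le_left _ _).trans (min_le_left _ _)
  have hr1b : r1 ≤ a / (4 * M * (C + 1)) := (min_le_left _ _).trans (min_le_right _ _)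
  have hr1c : r1 ≤ 1 / 2 := min_le_right _ _
  let A : Matrix (Fin m) (Fin m) ℝ := 1 + Matrix.of B
  have hA1 : ∀ j k, (A - 1) j k = B j k := by
    intro j k; simp [A]
  have hAs : A.IsSymm := by
    unfold Matrix.IsSymm
    ext j k
    simp only [A, Matrix.transpose_apply, Matrix.add_apply, Matrix.of_apply, Matrix.one_apply]
    rw [hsymm k j]
    simp [eq_comm]
  have hfsA : fs (fun j k => (A - 1) j k) = fs B := by
    have : (fun j k => (A - 1) j k) = B := by funext j k; exact hA1 j k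
    rw [this]
  obtain ⟨R, _, hRs, hRR, _, _, _, hR1, hR2, hR3⟩ := exists_sqrt m A hAs (by
    rw [hfsA]
    calc fs B ≤ r1 ^ 2 := hfs
      _ ≤ (1 / 2) ^ 2 := pow_le_pow_left₀ hr1.le hr1c 2
      _ = 1 / 4 := by norm_num)
  rw [hfsA] at hR1 hR2
  let H : Fin m → Fin m → ℝ := fun j k => (R - 1) j k
  have hfsH : fs (fun j k => (R - 1) j k) = fs H := rfl
  rw [hfsH] at hR1 hR2
  have hRsymm : ∀ j k, R j k = R k j := fun j k => (Matrix.IsSymm.apply hRs k j)
  have hAone : A.mulVec (fun _ => 1) = (fun _ => 1) := by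
    funext j
    have h1 : ∀ k, A j k = (if j = k then 1 else 0) + B j k := by
      intro k; simp [A, Matrix.one_apply]
    have h2 : (A.mulVec (fun _ => 1)) j = ∑ k, A j k := by simp [Matrix.mulVec, dotProduct]
    rw [h2]
    simp_rw [h1]
    rw [Finset.sum_add_distrib, hrow j]
    simp
  have hRone := hR3 hAone
  have hRrow : ∀ j, ∑ k, R j k = 1 := by
    intro j
    have := congrFun hRone j
    simpa [Matrix.mulVec, dotProduct] using this
  have hHS : HS H := by
    refine ⟨fun j k => ?_, fun j => ?_⟩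
    · simp only [H, Matrix.sub_apply, Matrix.one_apply]
      rw [hRsymm j k]
      simp [eq_comm]
    · simp only [H, Matrix.sub_apply, Matrix.one_apply]
      rw [Finset.sum_sub_distrib, hRrow j]
      simp
  have hRRe : ∀ j k, ∑ l, R j l * R k l = (if j = k then 1 else 0) + B j k := by
    intro j k
    have h1 : (R * R) j k = A j k := by rw [hRR]
    rw [Matrix.mul_apply] at h1
    have h2 : ∀ l, R j l * R k l = R j l * R l k := fun l => by rw [hRsymm k l]
    simp_rw [h2]
    rw [h1]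
    simp [A, Matrix.one_apply]
  have htrH : ∑ j, H j j = -(fs H) / 2 := by
    have h1 : ∑ j, ∑ l, R j l * R j l = (m : ℝ) := by
      simp_rw [hRRe]
      rw [Finset.sum_add_distrib, htr]
      simp
    have h2 : fs H = ∑ j, ∑ l, R j l * R j l - 2 * ∑ j, R j j + m := by
      unfold fs
      have h3 : ∀ j, ∑ k, H j k ^ 2 = ∑ l, R j l * R j l - 2 * R j j + 1 := by
        intro j
        have h4 : ∀ k, H j k ^ 2 = R j k * R j k - 2 * (if j = k then R j k else 0) +
            (if j = k then 1 else 0) := by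
          intro k
          simp only [H, Matrix.sub_apply, Matrix.one_apply]
          split_ifs <;> ring
        simp_rw [h4]
        rw [Finset.sum_add_distrib, Finset.sum_sub_distrib, ← Finset.mul_sum]
        simp
      simp_rw [h3]
      rw [Finset.sum_add_distrib, Finset.sum_sub_distrib, ← Finset.mul_sum]
      simp
    have h5 : ∑ j, H j j = ∑ j, R j j - m := by
      simp only [H, Matrix.sub_apply, Matrix.one_apply]
      rw [Finset.sum_sub_distrib]
      simp
    rw [h5, h2, h1]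
    ring
  have hfs0 : 0 ≤ fs H := Finset.sum_nonneg fun _ _ => Finset.sum_nonneg fun _ _ => sq_nonneg _
  have hfsB0 : 0 ≤ fs B := Finset.sum_nonneg fun _ _ => Finset.sum_nonneg fun _ _ => sq_nonneg _
  have hfsH1 : fs H ≤ r1 ^ 2 := hR1.trans hfs
  obtain ⟨c, hc0, _, hc⟩ := hloc H hHS (hfsH1.trans (pow_le_pow_left₀ hr1.le hr1a 2))
  refine ⟨c, hc0, ?_⟩
  intro κ _ Y hY
  -- compare
  have e1 : sbdE (fun l j => R j l) c = sbdE (Sum.elim Y (fun (_ : Unit) (_ : Fin m) => 1 / Real.sqrt M)) c := by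
    apply sbd_law _ _ hm
    intro j k
    have hs : Real.sqrt M * Real.sqrt M = M := Real.mul_self_sqrt (by linarith)
    rw [Fintype.sum_sum_type]
    simp only [Sum.elim_inl, Sum.elim_inr, Finset.univ_unique, Finset.sum_singleton]
    rw [hY j k, hRRe j k]
    have : 1 / Real.sqrt M * (1 / Real.sqrt M) = 1 / M := by
      rw [div_mul_div_comm, one_mul, hs]
    rw [this]
    ring
  have e2 : ∫ g, (⨆ j, (c j + g j + ∑ l, H j l * g l)) ∂(gam (Fin m)) =
      sbdE (fun l j => R j l) c := by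
    unfold sbdE
    congr 1
    funext g
    congr 1
    funext j
    rw [sbd_lin_apply]
    have : ∑ l, g l * R j l = g j + ∑ l, H j l * g l := by
      have h1 : ∀ l, H j l * g l = g l * R j l - (if j = l then g l else 0) := by
        intro l
        simp only [H, Matrix.sub_apply, Matrix.one_apply]
        split_ifs <;> ring
      simp_rw [h1]
      rw [Finset.sum_sub_distrib]
      simp
    rw [this]
    ring
  rw [e2, e1, sbd_ones hm Y _ c, htrH] at hc
  have hN0 : 0 ≤ Real.sqrt (fs H) := Real.sqrt_nonneg _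
  have hN2 : Real.sqrt (fs H) ^ 2 = fs H := Real.sq_sqrt hfs0
  have hN1 : Real.sqrt (fs H) ≤ a / (4 * M * (C + 1)) := by
    refine le_trans ?_ hr1b
    rw [Real.sqrt_le_left hr1.le]; exact hfsH1
  set N := Real.sqrt (fs H) with hN
  have h3 : C * N ^ 3 ≤ a / (4 * M) * fs H := by
    rw [← hN2]
    have h4 : N * (4 * M * (C + 1)) ≤ a := by
      rwa [le_div_iff₀ (by positivity)] at hN1
    have h5 : C * N ≤ a / (4 * M) := by
      rw [le_div_iff₀ (by positivity)]
      have : 0 ≤ N * (4 * M) := by positivity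
      nlinarith
    calc C * N ^ 3 = (C * N) * N ^ 2 := by ring
      _ ≤ a / (4 * M) * N ^ 2 := mul_le_mul_of_nonneg_right h5 (by positivity)
  have h6 : a / (36 * M) * fs B ≤ a / (4 * M) * fs H := by
    calc a / (36 * M) * fs B ≤ a / (36 * M) * (9 * fs H) :=
          mul_le_mul_of_nonneg_left hR2 (by positivity)
      _ = a / (4 * M) * fs H := by field_simp; ring
  have h7 : MM (Fin m) + a * (-(fs H) / 2) + a / 2 * (1 - 1 / M) * fs H =
      MM (Fin m) - a / (4 * M) * fs H - a / (4 * M) * fs H := by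
    field_simp
    ring
  linarith

end sbd

theorem strict_bound (m : ℕ) (hm : 2 ≤ m) : ∃ c0 : ℝ, 0 < c0 ∧ ∀ (κ : Type) [Fintype κ]
    (z : κ → Fin m → ℝ), (∀ i, ∑ j, z i j = 0) → ∀ α : ℝ, 0 < α →
    ∑ i, ∑ j, z i j ^ 2 = α * ((m : ℝ) - 1) → ∀ δ : ℝ, 0 < δ → ∃ c : Fin m → ℝ, ∑ j, c j = 0 ∧
    ∫ g, (⨆ j, (c j + lin z g j)) ∂(gam κ)
      ≤ Real.sqrt α * (MM (Fin m)
        - c0 * min 1 (fs (fun j k => (∑ i, z i j * z i k) / α
          - ((if j = k then 1 else 0) - 1 / (m : ℝ))))) + δ := by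
  have : Nonempty (Fin m) := ⟨⟨0, by omega⟩⟩
  have hm' : (2 : ℝ) ≤ m := by exact_mod_cast hm
  have ha := am_pos hm
  obtain ⟨r1, hr1, hr1', hup⟩ := sbd_up hm
  set a := am m with hadef
  set M : ℝ := (m : ℝ) with hM
  refine ⟨a / (36 * M) * r1 ^ 2, by positivity, ?_⟩
  intro κ _ z hz α hα hsum δ hδ
  set B : Fin m → Fin m → ℝ := fun j k => (∑ i, z i j * z i k) / α
          - ((if j = k then 1 else 0) - 1 / M) with hB
  have hBs : ∀ j k, B j k = B k j := by
    intro j k
    simp only [hB]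
    have h1 : ∑ i, z i j * z i k = ∑ i, z i k * z i j :=
      Finset.sum_congr rfl fun i _ => mul_comm _ _
    rw [h1]
    simp [eq_comm]
  have hM0 : M ≠ 0 := by linarith
  have hBr : ∀ j, ∑ k, B j k = 0 := by
    intro j
    simp only [hB]
    rw [Finset.sum_sub_distrib, ← Finset.sum_div, Finset.sum_comm]
    have h1 : ∑ i, ∑ k, z i j * z i k = 0 := by
      apply Finset.sum_eq_zero
      intro i _
      rw [← Finset.mul_sum, hz i, mul_zero]
    rw [h1, Finset.sum_sub_distrib]
    simp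
    field_simp
    ring
  have hBt : ∑ j, B j j = 0 := by
    simp only [hB, if_true]
    rw [Finset.sum_sub_distrib, ← Finset.sum_div, Finset.sum_comm]
    have h1 : ∑ i, ∑ j, z i j * z i j = α * (M - 1) := by
      rw [← hsum]
      exact Finset.sum_congr rfl fun i _ => Finset.sum_congr rfl fun j _ => by ring
    rw [h1]
    simp only [Finset.sum_const, Finset.card_univ, Fintype.card_fin, nsmul_eq_mul]
    have hα' : α ≠ 0 := hα.ne'
    rw [← hM]
    field_simp
    ring
  have hb0 : 0 ≤ fs B := Finset.sum_nonneg fun _ _ => Finset.sum_nonneg fun _ _ => sq_nonneg _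
  have hsα : 0 < Real.sqrt α := Real.sqrt_pos.2 hα
  have hsα2 : Real.sqrt α * Real.sqrt α = α := Real.mul_self_sqrt hα.le
  -- the family
  let W : κ ⊕ Fin m → Fin m → ℝ := Sum.elim z
    (fun (k j : Fin m) => Real.sqrt α * ((if j = k then 1 else 0) - 1 / M))
  let s0 : κ ⊕ Fin m → ℝ := Sum.elim (fun _ => 0) (fun _ => 1)
  let s1 : κ ⊕ Fin m → ℝ := Sum.elim (fun _ => 1) (fun _ => 0)
  have hPi : ∀ j k : Fin m, ∑ l : Fin m, ((if j = l then (1 : ℝ) else 0) - 1 / M) *
      ((if k = l then 1 else 0) - 1 / M) = (if j = k then 1 else 0) - 1 / M := by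
    intro j k
    have h1 : ∀ l : Fin m, ((if j = l then (1 : ℝ) else 0) - 1 / M) *
        ((if k = l then 1 else 0) - 1 / M) =
        (if j = l then (if k = l then 1 else 0) else 0) - 1 / M * (if j = l then 1 else 0)
          - 1 / M * (if k = l then 1 else 0) + 1 / M * (1 / M) := by
      intro l
      split_ifs <;> ring
    simp_rw [h1]
    rw [Finset.sum_add_distrib, Finset.sum_sub_distrib, Finset.sum_sub_distrib, ← Finset.mul_sum,
      ← Finset.mul_sum]
    simp only [Finset.sum_ite_eq, Finset.mem_univ, if_true, Finset.sum_const, Finset.card_univ,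
      Fintype.card_fin, nsmul_eq_mul]
    rw [← hM]
    have : M * (1 / M * (1 / M)) = 1 / M := by field_simp
    rw [this]
    have h2 : (if k = j then (1 : ℝ) else 0) = if j = k then 1 else 0 := by simp [eq_comm]
    rw [h2]
    ring
  have hlow : ∀ c, Real.sqrt α * MM (Fin m) ≤ Gm W s0 c := by
    intro c
    rw [sbd_Gm]
    have h1 := sbd_low hm (Real.sqrt α) c
    have h2 : sbdE (fun i => Real.sqrt (s0 i) • W i) c =
        sbdE (fun (k j : Fin m) => Real.sqrt α * ((if j = k then 1 else 0) - 1 / (m : ℝ))) c := by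
      apply sbd_law _ _ hm
      intro j k
      rw [Fintype.sum_sum_type]
      simp [s0, W, hM]
    rw [h2]
    exact h1
  have hbdd : ∀ s : κ ⊕ Fin m → ℝ, BddBelow (Set.range fun c : Fin m → ℝ => Gm W s c) := by
    intro s
    refine ⟨0, ?_⟩
    rintro _ ⟨c, rfl⟩
    exact Gm_nonneg W s c
  have hFM0 : Real.sqrt α * MM (Fin m) ≤ FM W s0 := le_ciInf hlow
  have hconc := FM_concave W
  have hs0 : s0 ∈ {s : κ ⊕ Fin m → ℝ | ∀ i, 0 ≤ s i} := by
    rintro (i | i) <;> simp [s0]
  have hs1 : s1 ∈ {s : κ ⊕ Fin m → ℝ | ∀ i, 0 ≤ s i} := by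
    rintro (i | i) <;> simp [s1]
  have hkey : ∀ t : ℝ, 0 < t → t ≤ 1 → t ^ 2 * fs B ≤ r1 ^ 2 →
      FM W s1 ≤ Real.sqrt α * (MM (Fin m) - a / (36 * M) * (t * fs B)) := by
    intro t ht ht1 htb
    have hfst : fs (fun j k => t * B j k) = t ^ 2 * fs B := by
      unfold fs
      rw [Finset.mul_sum]
      refine Finset.sum_congr rfl fun j _ => ?_
      rw [Finset.mul_sum]
      refine Finset.sum_congr rfl fun k _ => ?_
      ring
    obtain ⟨c, hc0, hc⟩ := hup (fun j k => t * B j k) (fun j k => by simp only [hBs j k])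
      (fun j => by rw [← Finset.mul_sum, hBr j, mul_zero])
      (by rw [← Finset.mul_sum, hBt, mul_zero]) (by rw [hfst]; exact htb)
    let st : κ ⊕ Fin m → ℝ := (1 - t) • s0 + t • s1
    have hst1 : ∀ i, st (Sum.inl i) = t := by intro i; simp [st, s0, s1]
    have hst2 : ∀ i, st (Sum.inr i) = 1 - t := by intro i; simp [st, s0, s1]
    let Y : κ ⊕ Fin m → Fin m → ℝ := fun i => ((Real.sqrt α)⁻¹ * Real.sqrt (st i)) • W i
    have hY : ∀ j k, ∑ i, Y i j * Y i k = (if j = k then 1 else 0) - 1 / (m : ℝ) + t * B j k := by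
      intro j k
      rw [Fintype.sum_sum_type]
      simp only [Y, hst1, hst2, W, Sum.elim_inl, Sum.elim_inr, Pi.smul_apply, smul_eq_mul]
      have hq : Real.sqrt t * Real.sqrt t = t := Real.mul_self_sqrt ht.le
      have hq' : Real.sqrt (1 - t) * Real.sqrt (1 - t) = 1 - t := Real.mul_self_sqrt (by linarith)
      have hinv : (Real.sqrt α)⁻¹ * (Real.sqrt α)⁻¹ = α⁻¹ := by
        rw [← mul_inv, hsα2]
      have h1 : ∀ i, (Real.sqrt α)⁻¹ * Real.sqrt t * z i j * ((Real.sqrt α)⁻¹ * Real.sqrt t * z i k)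
          = α⁻¹ * t * (z i j * z i k) := by
        intro i
        calc _ = ((Real.sqrt α)⁻¹ * (Real.sqrt α)⁻¹) * (Real.sqrt t * Real.sqrt t) *
              (z i j * z i k) := by ring
          _ = _ := by rw [hinv, hq]
      have h2 : ∀ l : Fin m, (Real.sqrt α)⁻¹ * Real.sqrt (1 - t) * (Real.sqrt α * ((if j = l then 1 else 0) - 1 / M)) *
          ((Real.sqrt α)⁻¹ * Real.sqrt (1 - t) * (Real.sqrt α * ((if k = l then 1 else 0) - 1 / M))) =
          (1 - t) * (((if j = l then (1 : ℝ) else 0) - 1 / M) * ((if k = l then 1 else 0) - 1 / M)) := by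
        intro l
        calc _ = ((Real.sqrt α)⁻¹ * Real.sqrt α) * ((Real.sqrt α)⁻¹ * Real.sqrt α) *
              (Real.sqrt (1 - t) * Real.sqrt (1 - t)) *
              (((if j = l then (1 : ℝ) else 0) - 1 / M) * ((if k = l then 1 else 0) - 1 / M)) := by
              ring
          _ = _ := by rw [hq', inv_mul_cancel₀ hsα.ne']; ring
      simp_rw [h1, h2]
      rw [← Finset.mul_sum, ← Finset.mul_sum, hPi j k]
      simp only [hB]
      field_simp
      ring
    have h1 := hc (κ ⊕ Fin m) Y hY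
    rw [hfst] at h1
    have h2 : Gm W st (fun j => Real.sqrt α * c j) = Real.sqrt α * sbdE Y c := by
      rw [sbd_Gm, ← Finset.mul_sum, hc0, mul_zero, zero_div, sub_zero, ← sbd_scale Y c _ hsα.le]
      congr 1
      funext i
      simp only [Y]
      rw [smul_smul, ← mul_assoc, mul_inv_cancel₀ hsα.ne', one_mul]
    have h3 : FM W st ≤ Real.sqrt α * (MM (Fin m) - a / (36 * M) * (t ^ 2 * fs B)) := by
      refine (ciInf_le (hbdd st) (fun j => Real.sqrt α * c j)).trans ?_
      rw [h2]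
      exact mul_le_mul_of_nonneg_left h1 hsα.le
    have h4 := hconc.2 hs0 hs1 (show (0 : ℝ) ≤ 1 - t by linarith) ht.le (by ring)
    simp only [smul_eq_mul] at h4
    have h4' : (1 - t) * FM W s0 + t * FM W s1 ≤ FM W st := h4
    have h5 : (1 - t) * (Real.sqrt α * MM (Fin m)) ≤ (1 - t) * FM W s0 :=
      mul_le_mul_of_nonneg_left hFM0 (by linarith)
    have h6 : t * FM W s1 ≤ t * (Real.sqrt α * (MM (Fin m) - a / (36 * M) * (t * fs B))) := by
      have h7 : Real.sqrt α * (MM (Fin m) - a / (36 * M) * (t ^ 2 * fs B)) -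
          (1 - t) * (Real.sqrt α * MM (Fin m)) =
          t * (Real.sqrt α * (MM (Fin m) - a / (36 * M) * (t * fs B))) := by ring
      linarith
    exact le_of_mul_le_mul_left h6 ht
  have hFM1 : FM W s1 ≤ Real.sqrt α * (MM (Fin m) - a / (36 * M) * r1 ^ 2 * min 1 (fs B)) := by
    have hc36 : 0 < a / (36 * M) := by positivity
    by_cases hcase : fs B ≤ r1 ^ 2
    · refine (hkey 1 one_pos le_rfl (by linarith)).trans ?_
      apply mul_le_mul_of_nonneg_left _ hsα.le
      have h1 : r1 ^ 2 * min 1 (fs B) ≤ 1 * fs B :=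
        mul_le_mul (pow_le_one₀ hr1.le hr1') (min_le_right _ _) (le_min zero_le_one hb0) zero_le_one
      have h2 : a / (36 * M) * (r1 ^ 2 * min 1 (fs B)) ≤ a / (36 * M) * (1 * fs B) :=
        mul_le_mul_of_nonneg_left h1 hc36.le
      linarith
    · push Not at hcase
      have hb : 0 < fs B := lt_trans (by positivity) hcase
      set b := Real.sqrt (fs B) with hbdef
      have hb1 : 0 < b := Real.sqrt_pos.2 hb
      have hb2 : b ^ 2 = fs B := Real.sq_sqrt hb.le
      have hbr : r1 < b := by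
        rw [hbdef]; exact Real.lt_sqrt_of_sq_lt hcase
      have ht1 : r1 / b ≤ 1 := by rw [div_le_one hb1]; exact hbr.le
      refine (hkey (r1 / b) (by positivity) ht1 ?_).trans ?_
      · rw [← hb2, div_pow, div_mul_cancel₀ _ (by positivity)]
      · apply mul_le_mul_of_nonneg_left _ hsα.le
        have h1 : r1 / b * fs B = r1 * b := by
          rw [← hb2]; field_simp
        rw [h1]
        have h2 : r1 ^ 2 * min 1 (fs B) ≤ r1 * b := by
          have h3 : r1 ^ 2 * min 1 (fs B) ≤ r1 ^ 2 * 1 :=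
            mul_le_mul_of_nonneg_left (min_le_left _ _) (by positivity)
          nlinarith
        have h4 : a / (36 * M) * (r1 ^ 2 * min 1 (fs B)) ≤ a / (36 * M) * (r1 * b) :=
          mul_le_mul_of_nonneg_left h2 hc36.le
        linarith
  obtain ⟨c', hc'⟩ := exists_lt_of_ciInf_lt (show FM W s1 < FM W s1 + δ by linarith)
  rw [sbd_Gm] at hc'
  refine ⟨fun j => c' j - (∑ l, c' l) / M, ?_, ?_⟩
  · rw [Finset.sum_sub_distrib]
    simp only [Finset.sum_const, Finset.card_univ, Fintype.card_fin, nsmul_eq_mul]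
    rw [← hM]
    field_simp
    ring
  · have h1 : sbdE z (fun j => c' j - (∑ l, c' l) / M) = sbdE z c' - (∑ l, c' l) / M :=
      sbd_shift hm z c' _
    have h2 : sbdE (fun i => Real.sqrt (s1 i) • W i) c' = sbdE z c' := by
      apply sbd_law _ _ hm
      intro j k
      rw [Fintype.sum_sum_type]
      simp [s1, W]
    have h3 : ∫ g, (⨆ j, (c' j - (∑ l, c' l) / M + lin z g j)) ∂(gam κ) =
        sbdE z (fun j => c' j - (∑ l, c' l) / M) := rfl
    rw [h3, h1]
    rw [h2] at hc'
    linarith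

end Pool.H65.PT
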