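import Pool.Agent.Helper65.PT.Defs
import Pool.Agent.Helper65.PT.Sbd
import Pool.Agent.Helper65.PT.Pmo
import Pool.Agent.Helper65.PS.Smx
import Pool.Agent.Helper65.PS.Ibp

set_option autoImplicit false

open MeasureTheory ProbabilityTheory Pool.H65.PS

namespace Pool.H65.PT

theorem Cas_int_coord {κ : Type} [Fintype κ] (i : κ) : Integrable (fun x : κ → ℝ => x i) (gam κ) := by
  refine integrable_gam _ 1 1 (continuous_apply i) fun g => ?_
  have h : |g i| ≤ ‖g‖ := norm_le_pi_norm g i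
  rw [pow_one]
  linarith

theorem Cas_mean_coord {κ : Type} [Fintype κ] (i : κ) : ∫ x : κ → ℝ, x i ∂(gam κ) = 0 := by
  have h := (measurePreserving_eval (fun _ : κ => gaussianReal 0 1) i).map_eq
  have h2 : ∫ x, x ∂(gaussianReal 0 1) = 0 := integral_id_gaussianReal
  rw [← h] at h2
  have h3 := integral_map (μ := Measure.pi (fun _ : κ => gaussianReal 0 1))
    (measurable_pi_apply (X := fun _ : κ => ℝ) i).aemeasurable
    (f := fun x : ℝ => x) continuous_id.aestronglyMeasurable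
  exact h3.symm.trans h2

theorem Cas_f_le_one {κ : Type} {m : ℕ} {f : (κ → ℝ) → Fin m → ℝ} [Fintype κ]
    (hf : Pt f) (j : Fin m) (x : κ → ℝ) : 0 ≤ f x j ∧ f x j ≤ 1 := by
  refine ⟨(hf.simp x).1 j, ?_⟩
  have hs := (hf.simp x).2
  rw [← hs]
  exact Finset.single_le_sum (f := fun i => f x i) (fun i _ => (hf.simp x).1 i)
    (Finset.mem_univ j)

theorem Cas_int_mul {κ : Type} [Fintype κ] {m : ℕ} {f : (κ → ℝ) → Fin m → ℝ}
    (hf : Pt f) (j : Fin m) (i : κ) : Integrable (fun x => f x j * x i) (gam κ) := by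
  refine (Cas_int_coord i).mono ((hf.meas j).mul (measurable_pi_apply i)).aestronglyMeasurable
    (Filter.Eventually.of_forall fun x => ?_)
  rw [norm_mul]
  have h := Cas_f_le_one hf j x
  have h1 : ‖f x j‖ ≤ 1 := by rw [Real.norm_eq_abs, abs_of_nonneg h.1]; exact h.2
  exact mul_le_of_le_one_left (norm_nonneg _) h1

theorem Cas_int_f {κ : Type} [Fintype κ] {m : ℕ} {f : (κ → ℝ) → Fin m → ℝ}
    (hf : Pt f) (j : Fin m) : Integrable (fun x => f x j) (gam κ) := by
  refine Integrable.of_bound (hf.meas j).aestronglyMeasurable 1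
    (Filter.Eventually.of_forall fun x => ?_)
  have h := Cas_f_le_one hf j x
  rw [Real.norm_eq_abs, abs_of_nonneg h.1]
  exact h.2

/-- the column sums of the moments vanish -/
theorem Cas_sum_mo {κ : Type} [Fintype κ] {m : ℕ} {f : (κ → ℝ) → Fin m → ℝ}
    (hf : Pt f) (i : κ) : ∑ j, mo (fun x => f x j) i = 0 := by
  unfold mo
  rw [← integral_finsetSum _ (fun j _ => Cas_int_mul hf j i), ← Cas_mean_coord i]
  refine integral_congr_ae (Filter.Eventually.of_forall fun x => ?_)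
  show ∑ j, f x j * x i = x i
  rw [← Finset.sum_mul, (hf.simp x).2, one_mul]

theorem Cas_w_eq {κ : Type} [Fintype κ] {m : ℕ} {f : (κ → ℝ) → Fin m → ℝ}
    (hf : Pt f) (hb : Bal f) (c : Fin m → ℝ) (hc : ∑ j, c j = 0) :
    ∑ i, ∑ j, mo (fun x => f x j) i ^ 2
      = ∫ x, ∑ j, f x j * (c j + lin (fun i j => mo (fun x => f x j) i) x j) ∂(gam κ) := by
  have e1 : ∀ j : Fin m, ∀ x : κ → ℝ,
      f x j * (c j + lin (fun i j => mo (fun x => f x j) i) x j)
        = f x j * c j + ∑ i, (f x j * x i) * mo (fun x => f x j) i := by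
    intro j x
    unfold lin
    rw [Finset.sum_apply, mul_add, Finset.mul_sum]
    congr 1
    refine Finset.sum_congr rfl fun i _ => ?_
    rw [Pi.smul_apply, smul_eq_mul]
    ring
  have i1 : ∀ j : Fin m, Integrable (fun x => f x j * c j) (gam κ) := fun j =>
    (Cas_int_f hf j).mul_const _
  have i2 : ∀ j : Fin m, ∀ i : κ, Integrable (fun x => (f x j * x i) * mo (fun x => f x j) i)
      (gam κ) := fun j i => (Cas_int_mul hf j i).mul_const _
  have i3 : ∀ j : Fin m, Integrable (fun x => ∑ i, (f x j * x i) * mo (fun x => f x j) i) (gam κ) :=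
    fun j => integrable_finsetSum _ fun i _ => i2 j i
  have e2 : ∫ x, ∑ j, f x j * (c j + lin (fun i j => mo (fun x => f x j) i) x j) ∂(gam κ)
      = ∑ j, ∫ x, (f x j * c j + ∑ i, (f x j * x i) * mo (fun x => f x j) i) ∂(gam κ) := by
    have i4 : ∀ j : Fin m, Integrable
        (fun x => f x j * c j + ∑ i, (f x j * x i) * mo (fun x => f x j) i) (gam κ) :=
      fun j => (i1 j).add (i3 j)
    rw [← integral_finsetSum _ fun j _ => i4 j]
    refine integral_congr_ae (Filter.Eventually.of_forall fun x => ?_)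
    exact Finset.sum_congr rfl fun j _ => e1 j x
  rw [e2, Finset.sum_comm]
  have e3 : ∀ j : Fin m, ∫ x, (f x j * c j + ∑ i, (f x j * x i) * mo (fun x => f x j) i) ∂(gam κ)
      = 1 / (m : ℝ) * c j + ∑ i, mo (fun x => f x j) i ^ 2 := by
    intro j
    rw [integral_add (i1 j) (i3 j), integral_mul_const, hb j, integral_finsetSum _ fun i _ => i2 j i]
    congr 1
    refine Finset.sum_congr rfl fun i _ => ?_
    rw [integral_mul_const, pow_two]
    rfl
  rw [Finset.sum_congr rfl fun j _ => e3 j, Finset.sum_add_distrib, ← Finset.mul_sum, hc, mul_zero,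
    zero_add]

theorem Cas_w_le {κ : Type} [Fintype κ] {m : ℕ} (hm : 2 ≤ m) {f : (κ → ℝ) → Fin m → ℝ}
    (hf : Pt f) (hb : Bal f) (c : Fin m → ℝ) (hc : ∑ j, c j = 0) :
    ∑ i, ∑ j, mo (fun x => f x j) i ^ 2
      ≤ ∫ x, (⨆ j, (c j + lin (fun i j => mo (fun x => f x j) i) x j)) ∂(gam κ) := by
  have : Nonempty (Fin m) := ⟨⟨0, by omega⟩⟩
  rw [Cas_w_eq hf hb c hc]
  set z : κ → Fin m → ℝ := fun i j => mo (fun x => f x j) i with hz
  have hcont : Continuous (fun x : κ → ℝ => c + lin z x) := continuous_const.add (Smx.continuous_lin z)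
  have hcs : Continuous (fun x : κ → ℝ => ⨆ j, (c + lin z x) j) :=
    Smx.continuous_iSup_apply.comp hcont
  have hnb : ∀ x : κ → ℝ, ‖c + lin z x‖ ≤ (‖c‖ + ∑ i, ‖z i‖) * (1 + ‖x‖) ^ 1 := by
    intro x
    have h1 := norm_add_le c (lin z x)
    have h2 := Smx.norm_lin_le z x
    have h3 : 0 ≤ ∑ i, ‖z i‖ := Finset.sum_nonneg fun i _ => norm_nonneg _
    have h4 := norm_nonneg x
    have h5 := norm_nonneg c
    rw [pow_one]
    nlinarith [mul_nonneg h5 h4]
  have hsi : Integrable (fun x : κ → ℝ => ⨆ j, (c + lin z x) j) (gam κ) :=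
    integrable_gam _ _ 1 hcs fun x => (Smx.abs_iSup_le_norm _).trans (hnb x)
  have hco : ∀ j, Integrable (fun x : κ → ℝ => (c + lin z x) j) (gam κ) := fun j =>
    integrable_gam _ _ 1 ((continuous_apply j).comp hcont) fun x =>
      (norm_le_pi_norm (c + lin z x) j).trans (hnb x)
  have hli : Integrable (fun x : κ → ℝ => ∑ j, f x j * (c j + lin z x j)) (gam κ) := by
    refine integrable_finsetSum _ fun j _ => ?_
    refine (hco j).mono ((hf.meas j).mul ((continuous_apply j).comp hcont).measurable).aestronglyMeasurable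
      (Filter.Eventually.of_forall fun x => ?_)
    rw [norm_mul]
    have h := Cas_f_le_one hf j x
    have h1 : ‖f x j‖ ≤ 1 := by rw [Real.norm_eq_abs, abs_of_nonneg h.1]; exact h.2
    exact mul_le_of_le_one_left (norm_nonneg _) h1
  refine integral_mono hli hsi fun x => ?_
  have hle : ∀ j, (c + lin z x) j ≤ ⨆ j, (c + lin z x) j := fun j =>
    le_ciSup (Set.finite_range (c + lin z x)).bddAbove j
  calc ∑ j, f x j * (c j + lin z x j) ≤ ∑ j, f x j * (⨆ j, (c + lin z x) j) :=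
        Finset.sum_le_sum fun j _ => mul_le_mul_of_nonneg_left (hle j) (Cas_f_le_one hf j x).1
    _ = ⨆ j, (c + lin z x) j := by rw [← Finset.sum_mul, (hf.simp x).2, one_mul]

theorem Cas_entry_le_fs {m : ℕ} (H : Fin m → Fin m → ℝ) (j k : Fin m) : H j k ^ 2 ≤ fs H := by
  unfold fs
  have h1 := Finset.single_le_sum (f := fun k => H j k ^ 2) (fun k _ => sq_nonneg _)
    (Finset.mem_univ k)
  have h2 := Finset.single_le_sum (f := fun j => ∑ k, H j k ^ 2)
    (fun j _ => Finset.sum_nonneg fun k _ => sq_nonneg _) (Finset.mem_univ j)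
  exact h1.trans h2

theorem near_opt (m : ℕ) (hm : 2 ≤ m) (r : ℝ) (hr : 0 < r) : ∃ cA : ℝ, 0 < cA ∧
    ∀ (κ : Type) [Fintype κ] (f : (κ → ℝ) → Fin m → ℝ), Pt f → Bal f →
    am m ^ 2 * ((m : ℝ) - 1) - cA ≤ ∑ j, ∑ i, mo (fun x => f x j) i ^ 2 →
    ∀ j k : Fin m, |∑ i, mo (fun x => f x j) i * mo (fun x => f x k) i
      - am m ^ 2 * ((if j = k then 1 else 0) - 1 / (m : ℝ))| ≤ r := by
  obtain ⟨c0, hc0, hsb⟩ := strict_bound m hm
  have hm2 : (2 : ℝ) ≤ m := by exact_mod_cast hm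
  have hm1 : (1 : ℝ) ≤ (m : ℝ) - 1 := by linarith
  set a : ℝ := am m with ha
  have ha0 : 0 < a := am_pos hm
  have hMM : MM (Fin m) = a * ((m : ℝ) - 1) := by
    rw [ha]
    unfold am
    rw [div_mul_cancel₀]
    linarith
  set cA : ℝ := min (min (a ^ 2 / 2) (r / 2)) (min (c0 * a / 2) (c0 * a * (r / (2 * a ^ 2)) ^ 2))
    with hcA
  have hcA0 : 0 < cA := by
    rw [hcA]
    refine lt_min (lt_min (by positivity) (by positivity)) (lt_min (by positivity) (by positivity))
  have hA1 : cA ≤ a ^ 2 / 2 := (min_le_left _ _).trans (min_le_left _ _)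
  have hA2 : cA ≤ r / 2 := (min_le_left _ _).trans (min_le_right _ _)
  have hA3 : cA ≤ c0 * a / 2 := (min_le_right _ _).trans (min_le_left _ _)
  have hA4 : cA ≤ c0 * a * (r / (2 * a ^ 2)) ^ 2 := (min_le_right _ _).trans (min_le_right _ _)
  refine ⟨cA, hcA0, ?_⟩
  intro κ _ f hf hb hw j k
  rw [Finset.sum_comm] at hw
  set z : κ → Fin m → ℝ := fun i j => mo (fun x => f x j) i with hz
  have hzw : ∑ i, ∑ j, mo (fun x => f x j) i ^ 2 = ∑ i, ∑ j, z i j ^ 2 := rfl
  rw [hzw] at hw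
  set w : ℝ := ∑ i, ∑ j, z i j ^ 2 with hwd
  set α : ℝ := w / ((m : ℝ) - 1) with hα
  have hwα : w = α * ((m : ℝ) - 1) := by
    rw [hα, div_mul_cancel₀]
    linarith
  -- alpha is close to a^2
  have hαl : a ^ 2 - cA ≤ α := by
    have h1 : (a ^ 2 - cA) * ((m : ℝ) - 1) ≤ α * ((m : ℝ) - 1) := by
      rw [← hwα]
      nlinarith
    exact le_of_mul_le_mul_right h1 (by linarith)
  have hα0 : 0 < α := by
    have : 0 < a ^ 2 := by positivity
    linarith
  set B : Fin m → Fin m → ℝ := fun j k => (∑ i, z i j * z i k) / α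
          - ((if j = k then 1 else 0) - 1 / (m : ℝ)) with hB
  -- the main inequality
  have hmain : w ≤ Real.sqrt α * (MM (Fin m) - c0 * min 1 (fs B)) := by
    refine le_of_forall_pos_le_add fun δ hδ => ?_
    obtain ⟨c, hc, hle⟩ := hsb κ z (fun i => Cas_sum_mo hf i) α hα0 hwα δ hδ
    exact (Cas_w_le hm hf hb c hc).trans hle
  have hsα : 0 < Real.sqrt α := Real.sqrt_pos.mpr hα0
  have hsq : Real.sqrt α * Real.sqrt α = α := Real.mul_self_sqrt hα0.le
  have hmin0 : 0 ≤ min 1 (fs B) := le_min zero_le_one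
    (Finset.sum_nonneg fun j _ => Finset.sum_nonneg fun k _ => sq_nonneg _)
  have h1 : Real.sqrt α * ((m : ℝ) - 1) ≤ a * ((m : ℝ) - 1) - c0 * min 1 (fs B) := by
    have h2 : Real.sqrt α * (Real.sqrt α * ((m : ℝ) - 1))
        ≤ Real.sqrt α * (a * ((m : ℝ) - 1) - c0 * min 1 (fs B)) := by
      rw [← mul_assoc, hsq, ← hwα, ← hMM]
      exact hmain
    exact le_of_mul_le_mul_left h2 hsα
  have hsa : Real.sqrt α ≤ a := by
    have h2 : Real.sqrt α * ((m : ℝ) - 1) ≤ a * ((m : ℝ) - 1) := by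
      have := mul_nonneg hc0.le hmin0
      linarith
    exact le_of_mul_le_mul_right h2 (by linarith)
  have hαa : α ≤ a ^ 2 := by
    rw [← hsq, pow_two]
    exact mul_le_mul hsa hsa hsα.le ha0.le
  -- a - sqrt α ≤ cA / a
  have h3 : (a - Real.sqrt α) * a ≤ cA := by
    have h4 : (a - Real.sqrt α) * a ≤ (a - Real.sqrt α) * (a + Real.sqrt α) :=
      mul_le_mul_of_nonneg_left (by linarith) (by linarith)
    have h5 : (a - Real.sqrt α) * (a + Real.sqrt α) = a ^ 2 - α := by
      have e : (a - Real.sqrt α) * (a + Real.sqrt α) = a ^ 2 - Real.sqrt α * Real.sqrt α := by ring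
      rw [e, hsq]
    linarith
  -- here we use (m-1)(a - √α) ≥ c0 min; need upper bound, w ≥ a²(m-1) - cA
  have hα2 : (a ^ 2 - α) * ((m : ℝ) - 1) ≤ cA := by
    have : (a ^ 2 - α) * ((m : ℝ) - 1) = a ^ 2 * ((m : ℝ) - 1) - w := by rw [hwα]; ring
    linarith
  have h6 : c0 * min 1 (fs B) * a ≤ cA := by
    have h7 : c0 * min 1 (fs B) ≤ (a - Real.sqrt α) * ((m : ℝ) - 1) := by linarith
    have h8 : (a - Real.sqrt α) * ((m : ℝ) - 1) * a ≤ (a ^ 2 - α) * ((m : ℝ) - 1) := by
      have h5 : (a - Real.sqrt α) * (a + Real.sqrt α) = a ^ 2 - α := by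
        have e : (a - Real.sqrt α) * (a + Real.sqrt α) = a ^ 2 - Real.sqrt α * Real.sqrt α := by ring
        rw [e, hsq]
      rw [← h5]
      have h9 : 0 ≤ (a - Real.sqrt α) * ((m : ℝ) - 1) * Real.sqrt α :=
        mul_nonneg (mul_nonneg (by linarith) (by linarith)) hsα.le
      nlinarith
    calc c0 * min 1 (fs B) * a ≤ (a - Real.sqrt α) * ((m : ℝ) - 1) * a :=
          mul_le_mul_of_nonneg_right h7 ha0.le
      _ ≤ cA := h8.trans hα2
  have hfs : fs B ≤ (r / (2 * a ^ 2)) ^ 2 := by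
    have hca : 0 < c0 * a := mul_pos hc0 ha0
    rcases le_total 1 (fs B) with h | h
    · rw [min_eq_left h] at h6
      exfalso
      linarith
    · rw [min_eq_right h] at h6
      have : c0 * a * fs B ≤ c0 * a * (r / (2 * a ^ 2)) ^ 2 := by
        calc c0 * a * fs B = c0 * fs B * a := by ring
          _ ≤ _ := h6.trans hA4
      exact le_of_mul_le_mul_left this hca
  have hBjk : |B j k| ≤ r / (2 * a ^ 2) := by
    refine abs_le_of_sq_le_sq ((Cas_entry_le_fs B j k).trans hfs) (by positivity)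
  have hP : |(if j = k then (1 : ℝ) else 0) - 1 / (m : ℝ)| ≤ 1 := by
    have hm' : 1 / (m : ℝ) ≤ 1 := by
      rw [div_le_one (by linarith)]; linarith
    have hm'' : 0 ≤ 1 / (m : ℝ) := by positivity
    rw [abs_le]
    split_ifs <;> constructor <;> linarith
  have hdec : ∑ i, z i j * z i k - a ^ 2 * ((if j = k then 1 else 0) - 1 / (m : ℝ))
      = α * B j k + (α - a ^ 2) * ((if j = k then 1 else 0) - 1 / (m : ℝ)) := by
    have : α * B j k = ∑ i, z i j * z i k - α * ((if j = k then 1 else 0) - 1 / (m : ℝ)) := by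
      rw [hB]
      simp only
      rw [mul_sub, mul_div_cancel₀ _ hα0.ne']
    rw [this]
    ring
  show |∑ i, z i j * z i k - a ^ 2 * ((if j = k then 1 else 0) - 1 / (m : ℝ))| ≤ r
  rw [hdec]
  refine (abs_add_le _ _).trans ?_
  rw [abs_mul, abs_mul, abs_of_pos hα0, abs_of_nonpos (by linarith : α - a ^ 2 ≤ 0)]
  have h10 : α * |B j k| ≤ r / 2 := by
    calc α * |B j k| ≤ a ^ 2 * (r / (2 * a ^ 2)) :=
          mul_le_mul hαa hBjk (abs_nonneg _) (by positivity)
      _ = r / 2 := by field_simp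
  have h11 : -(α - a ^ 2) * |(if j = k then (1 : ℝ) else 0) - 1 / (m : ℝ)| ≤ r / 2 := by
    calc -(α - a ^ 2) * |(if j = k then (1 : ℝ) else 0) - 1 / (m : ℝ)| ≤ cA * 1 :=
          mul_le_mul (by linarith) hP (abs_nonneg _) hcA0.le
      _ ≤ r / 2 := by rw [mul_one]; exact hA2
  linarith

end Pool.H65.PT
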