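import Pool.Agent.Helper65.PT.Defs
import Pool.Agent.Helper65.PS.Exl

set_option autoImplicit false

open MeasureTheory ProbabilityTheory Pool.H65.PS

namespace Pool.H65.PT

/-- second order expansion of the exponential along `x / √n`. -/
theorem Clt_term (x : ℝ) : Filter.Tendsto (fun n : ℕ => (n : ℂ) *
    (Complex.exp ((((Real.sqrt n)⁻¹ * x : ℝ) : ℂ) * Complex.I) - 1
      - (((Real.sqrt n)⁻¹ * x : ℝ) : ℂ) * Complex.I)) Filter.atTop
    (nhds (((-(x ^ 2 / 2) : ℝ)) : ℂ)) := by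
  have hs : Filter.Tendsto (fun n : ℕ => (Real.sqrt (n : ℝ))⁻¹) Filter.atTop (nhds 0) :=
    tendsto_inv_atTop_zero.comp (Real.tendsto_sqrt_atTop.comp tendsto_natCast_atTop_atTop)
  have hs2 : Filter.Tendsto (fun n : ℕ => |x| ^ 3 * (Real.sqrt (n : ℝ))⁻¹) Filter.atTop (nhds 0) := by
    simpa using hs.const_mul (|x| ^ 3)
  have hs3 : Filter.Tendsto (fun n : ℕ => (Real.sqrt (n : ℝ))⁻¹ * |x|) Filter.atTop (nhds 0) := by
    simpa using hs.mul_const |x|
  rw [tendsto_iff_norm_sub_tendsto_zero]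
  refine squeeze_zero' (Filter.Eventually.of_forall fun n => norm_nonneg _) ?_ hs2
  filter_upwards [hs3.eventually_lt_const (show (0 : ℝ) < 1 by norm_num),
    Filter.eventually_gt_atTop 0] with n hn1 hn0
  have hnR : (0 : ℝ) < n := by exact_mod_cast hn0
  have hsq : 0 < Real.sqrt n := Real.sqrt_pos.2 hnR
  have hss : Real.sqrt n * Real.sqrt n = n := Real.mul_self_sqrt hnR.le
  set y : ℝ := (Real.sqrt n)⁻¹ * x with hy
  have hyn : ‖(y : ℂ) * Complex.I‖ = (Real.sqrt n)⁻¹ * |x| := by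
    rw [norm_mul, Complex.norm_I, mul_one, Complex.norm_real, Real.norm_eq_abs, hy, abs_mul,
      abs_of_pos (inv_pos.2 hsq)]
  have hb := Complex.exp_bound (x := (y : ℂ) * Complex.I) (by rw [hyn]; exact hn1.le)
    (n := 3) (by norm_num)
  rw [hyn] at hb
  have hsum : ∑ k ∈ Finset.range 3, ((y : ℂ) * Complex.I) ^ k / (k.factorial : ℂ)
      = 1 + (y : ℂ) * Complex.I - (y : ℂ) ^ 2 / 2 := by
    rw [Finset.sum_range_succ, Finset.sum_range_succ, Finset.sum_range_one]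
    simp only [pow_zero, Nat.factorial, Nat.cast_one, div_one, pow_one]
    rw [mul_pow, Complex.I_sq]
    push_cast
    ring
  rw [hsum] at hb
  have hny : (n : ℝ) * y ^ 2 = x ^ 2 := by
    rw [hy, mul_pow, inv_pow, Real.sq_sqrt hnR.le]
    field_simp
  have e1 : (n : ℂ) * (Complex.exp ((y : ℂ) * Complex.I) - 1 - (y : ℂ) * Complex.I)
      - ((-(x ^ 2 / 2) : ℝ) : ℂ) = (n : ℂ) * (Complex.exp ((y : ℂ) * Complex.I)
        - (1 + (y : ℂ) * Complex.I - (y : ℂ) ^ 2 / 2)) := by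
    have : ((n : ℂ)) * (y : ℂ) ^ 2 = ((x : ℂ)) ^ 2 := by exact_mod_cast hny
    push_cast
    linear_combination (-1 / 2 : ℂ) * this
  rw [e1, norm_mul, Complex.norm_natCast]
  calc (n : ℝ) * ‖Complex.exp ((y : ℂ) * Complex.I) - (1 + (y : ℂ) * Complex.I - (y : ℂ) ^ 2 / 2)‖
      ≤ (n : ℝ) * (((Real.sqrt n)⁻¹ * |x|) ^ 3 * 1) := by
        refine mul_le_mul_of_nonneg_left (hb.trans ?_) hnR.le
        refine mul_le_mul_of_nonneg_left ?_ (by positivity)
        norm_num [Nat.factorial]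
    _ = |x| ^ 3 * (Real.sqrt n)⁻¹ := by
        have this : (n : ℝ) * ((Real.sqrt n)⁻¹) ^ 3 = (Real.sqrt n)⁻¹ := by
          have aux : ∀ r : ℝ, 0 < r → (r * r) * (r⁻¹) ^ 3 = r⁻¹ := by
            intro r hr
            field_simp
          have h := aux _ hsq
          rw [hss] at h
          exact h
        calc (n : ℝ) * (((Real.sqrt n)⁻¹ * |x|) ^ 3 * 1)
            = |x| ^ 3 * ((n : ℝ) * ((Real.sqrt n)⁻¹) ^ 3) := by ring
          _ = _ := by rw [this]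

/-- power limit for finite weighted sums. -/
theorem Clt_pow {α : Type} [Fintype α] (T X : α → ℝ) (h1 : ∑ a, T a = 1)
    (h0 : ∑ a, T a * X a = 0) :
    Filter.Tendsto (fun n : ℕ => (∑ a, (T a : ℂ) *
        Complex.exp ((((Real.sqrt n)⁻¹ * X a : ℝ) : ℂ) * Complex.I)) ^ n)
      Filter.atTop (nhds (Complex.exp ((-(∑ a, T a * X a ^ 2) / 2 : ℝ) : ℂ))) := by
  have key := Complex.tendsto_one_add_pow_exp_of_tendsto
    (g := fun n : ℕ => ∑ a, (T a : ℂ) *
        Complex.exp ((((Real.sqrt n)⁻¹ * X a : ℝ) : ℂ) * Complex.I) - 1)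
    (t := ((-(∑ a, T a * X a ^ 2) / 2 : ℝ) : ℂ)) ?_
  · refine key.congr fun n => ?_
    congr 1
    ring
  · have h2 : Filter.Tendsto (fun n : ℕ => ∑ a, (T a : ℂ) * ((n : ℂ) *
        (Complex.exp ((((Real.sqrt n)⁻¹ * X a : ℝ) : ℂ) * Complex.I) - 1
          - (((Real.sqrt n)⁻¹ * X a : ℝ) : ℂ) * Complex.I))) Filter.atTop
        (nhds (∑ a, (T a : ℂ) * ((-(X a ^ 2 / 2) : ℝ) : ℂ))) :=
      tendsto_finsetSum _ fun a _ => (Clt_term (X a)).const_mul _
    have e1 : (∑ a, (T a : ℂ) * ((-(X a ^ 2 / 2) : ℝ) : ℂ))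
        = ((-(∑ a, T a * X a ^ 2) / 2 : ℝ) : ℂ) := by
      push_cast
      rw [← Finset.sum_neg_distrib, Finset.sum_div]
      refine Finset.sum_congr rfl fun a _ => ?_
      ring
    rw [e1] at h2
    refine h2.congr fun n => ?_
    have e2 : ∑ a, (T a : ℂ) * (((Real.sqrt n)⁻¹ * X a : ℝ) : ℂ) = 0 := by
      have : ∑ a, T a * ((Real.sqrt n)⁻¹ * X a) = 0 := by
        have h3 : ∑ a, T a * ((Real.sqrt n)⁻¹ * X a) = (Real.sqrt n)⁻¹ * ∑ a, T a * X a := by
          rw [Finset.mul_sum]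
          refine Finset.sum_congr rfl fun a _ => ?_
          ring
        rw [h3, h0, mul_zero]
      exact_mod_cast this
    have e3 : (∑ a, (T a : ℂ)) = 1 := by exact_mod_cast h1
    have e4 : ∑ a, (T a : ℂ) * ((n : ℂ) *
        (Complex.exp ((((Real.sqrt n)⁻¹ * X a : ℝ) : ℂ) * Complex.I) - 1
          - (((Real.sqrt n)⁻¹ * X a : ℝ) : ℂ) * Complex.I))
        = (n : ℂ) * (∑ a, (T a : ℂ) *
          Complex.exp ((((Real.sqrt n)⁻¹ * X a : ℝ) : ℂ) * Complex.I)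
          - (∑ a, (T a : ℂ)) - (∑ a, (T a : ℂ) * (((Real.sqrt n)⁻¹ * X a : ℝ) : ℂ)) * Complex.I) := by
      rw [Finset.sum_mul, ← Finset.sum_sub_distrib, ← Finset.sum_sub_distrib, Finset.mul_sum]
      refine Finset.sum_congr rfl fun a _ => ?_
      ring
    rw [e4, e2, e3]
    ring

/-- sums over pairs of words of products. -/
theorem Clt_sum_prod {R : Type} [CommSemiring R] {m : ℕ} (n : ℕ) (f : Fin m × Fin m → R) :
    ∑ p : (Fin n → Fin m) × (Fin n → Fin m), ∏ i, f (p.1 i, p.2 i) = (∑ c, f c) ^ n := by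
  rw [Fintype.sum_pow f n, ← (Equiv.arrowProdEquivProdArrow (Fin n) (fun _ => Fin m) (fun _ => Fin m)).sum_comp]
  rfl

/-- the transition kernel. -/
noncomputable def Clt_K (m : ℕ) (ρ : ℝ) (a b : Fin m) : ℝ :=
  if b = a then (1 + ((m : ℝ) - 1) * ρ) / m else (1 - ρ) / m

/-- centring. -/
noncomputable def Clt_c {m : ℕ} (t : Fin m → ℝ) (a : Fin m) : ℝ := t a - (∑ b, t b) / m

theorem Clt_K_eq (m : ℕ) (hm : 0 < m) (ρ : ℝ) (a b : Fin m) :
    Clt_K m ρ a b = (1 - ρ) / m + (if b = a then ρ else 0) := by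
  have hm' : (m : ℝ) ≠ 0 := by positivity
  unfold Clt_K
  split_ifs with h
  · field_simp
    ring
  · ring

theorem Clt_K_nonneg (m : ℕ) (hm : 0 < m) (ρ : ℝ) (h0 : 0 ≤ ρ) (h1 : ρ ≤ 1) (a b : Fin m) :
    0 ≤ Clt_K m ρ a b := by
  rw [Clt_K_eq m hm]
  have hm' : (0 : ℝ) < m := by positivity
  have : 0 ≤ (1 - ρ) / m := div_nonneg (by linarith) hm'.le
  split_ifs <;> linarith

theorem Clt_c_sum {m : ℕ} (hm : 0 < m) (t : Fin m → ℝ) : ∑ a, Clt_c t a = 0 := by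
  have hm' : (m : ℝ) ≠ 0 := by positivity
  unfold Clt_c
  rw [Finset.sum_sub_distrib, Finset.sum_const, Finset.card_univ, Fintype.card_fin, nsmul_eq_mul]
  field_simp
  ring

theorem Clt_c_adj {m : ℕ} (t x : Fin m → ℝ) :
    ∑ a, Clt_c x a * t a = ∑ a, Clt_c t a * x a := by
  unfold Clt_c
  have : ∀ a, (x a - (∑ b, x b) / m) * t a = x a * t a - (∑ b, x b) / m * t a := fun a => by ring
  have h2 : ∀ a, (t a - (∑ b, t b) / m) * x a = x a * t a - (∑ b, t b) / m * x a :=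
    fun a => by ring
  simp_rw [this, h2]
  rw [Finset.sum_sub_distrib, Finset.sum_sub_distrib, ← Finset.mul_sum, ← Finset.mul_sum]
  ring

/-- moments of the pair distribution. -/
theorem Clt_moments {m : ℕ} (hm : 0 < m) (ρ : ℝ) (u v : Fin m → ℝ) (hu : ∑ a, u a = 0)
    (hv : ∑ a, v a = 0) :
    (∑ c : Fin m × Fin m, (m : ℝ)⁻¹ * Clt_K m ρ c.1 c.2 = 1) ∧
    (∑ c : Fin m × Fin m, (m : ℝ)⁻¹ * Clt_K m ρ c.1 c.2 * (u c.1 + v c.2) = 0) ∧
    (∑ c : Fin m × Fin m, (m : ℝ)⁻¹ * Clt_K m ρ c.1 c.2 * (u c.1 + v c.2) ^ 2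
      = (m : ℝ)⁻¹ * (∑ a, u a ^ 2 + 2 * ρ * ∑ a, u a * v a + ∑ a, v a ^ 2)) := by
  have hm' : (m : ℝ) ≠ 0 := by positivity
  have key : ∀ f : Fin m → Fin m → ℝ, ∑ c : Fin m × Fin m, (m : ℝ)⁻¹ * Clt_K m ρ c.1 c.2 * f c.1 c.2
      = (m : ℝ)⁻¹ * ((1 - ρ) / m * (∑ a, ∑ b, f a b) + ρ * ∑ a, f a a) := by
    intro f
    rw [Fintype.sum_prod_type]
    have : ∀ a : Fin m, ∑ b : Fin m, (m : ℝ)⁻¹ * Clt_K m ρ a b * f a b
        = (m : ℝ)⁻¹ * ((1 - ρ) / m * (∑ b, f a b) + ρ * f a a) := by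
      intro a
      simp_rw [Clt_K_eq m hm]
      rw [Finset.mul_sum, mul_add, Finset.mul_sum]
      have e : ρ * f a a = ∑ b, (if b = a then ρ else 0) * f a b := by
        simp
      rw [e, Finset.mul_sum, ← Finset.sum_add_distrib]
      refine Finset.sum_congr rfl fun b _ => ?_
      ring
    simp_rw [this]
    rw [← Finset.mul_sum, Finset.sum_add_distrib, ← Finset.mul_sum, ← Finset.mul_sum]
  refine ⟨?_, ?_, ?_⟩
  · have h := key fun _ _ => 1
    simp only [mul_one] at h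
    rw [h]
    simp only [Finset.sum_const, Finset.card_univ, Fintype.card_fin, nsmul_eq_mul, mul_one]
    field_simp
    ring
  · have h := key fun a b => u a + v b
    rw [h]
    have e1 : ∑ a, ∑ b, (u a + v b) = 0 := by
      simp_rw [Finset.sum_add_distrib, Finset.sum_const, hv]
      simp [← Finset.mul_sum, hu]
    have e2 : ∑ a, (u a + v a) = 0 := by rw [Finset.sum_add_distrib, hu, hv, add_zero]
    rw [e1, e2]
    ring
  · have h := key fun a b => (u a + v b) ^ 2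
    rw [h]
    have e1 : ∑ a, ∑ b, (u a + v b) ^ 2 = m * ∑ a, u a ^ 2 + m * ∑ a, v a ^ 2 := by
      have : ∀ a, ∑ b, (u a + v b) ^ 2 = m * u a ^ 2 + 2 * u a * (∑ b, v b) + ∑ b, v b ^ 2 := by
        intro a
        rw [Finset.mul_sum]
        have : (m : ℝ) * u a ^ 2 = ∑ _b : Fin m, u a ^ 2 := by simp
        rw [this, ← Finset.sum_add_distrib, ← Finset.sum_add_distrib]
        refine Finset.sum_congr rfl fun b _ => ?_
        ring
      simp_rw [this, hv]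
      rw [Finset.sum_add_distrib, Finset.sum_add_distrib, ← Finset.mul_sum]
      simp
    have e2 : ∑ a, (u a + v a) ^ 2 = ∑ a, u a ^ 2 + 2 * ∑ a, u a * v a + ∑ a, v a ^ 2 := by
      rw [Finset.mul_sum, ← Finset.sum_add_distrib, ← Finset.sum_add_distrib]
      refine Finset.sum_congr rfl fun b _ => ?_
      ring
    rw [e1, e2]
    field_simp
    ring

/-- the space of pairs. -/
abbrev CltE (m : ℕ) := EuclideanSpace ℝ (Fin m ⊕ Fin m)

/-- weights. -/
noncomputable def Clt_w (m : ℕ) (ρ : ℝ) (n : ℕ) (p : (Fin n → Fin m) × (Fin n → Fin m)) : ℝ :=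
  ∏ i, ((m : ℝ)⁻¹ * Clt_K m ρ (p.1 i) (p.2 i))

/-- normalised counts. -/
noncomputable def Clt_S (m n : ℕ) (p : (Fin n → Fin m) × (Fin n → Fin m)) : CltE m :=
  WithLp.toLp 2 (Sum.elim (fun a => (Real.sqrt n)⁻¹ * ((cnt p.1 a : ℝ) - n / m))
    (fun a => (Real.sqrt n)⁻¹ * ((cnt p.2 a : ℝ) - n / m)))

/-- law of the normalised counts. -/
noncomputable def Clt_P (m : ℕ) (ρ : ℝ) (n : ℕ) : Measure (CltE m) :=
  ∑ p, ENNReal.ofReal (Clt_w m ρ n p) • Measure.dirac (Clt_S m n p)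

/-- the Gaussian map. -/
noncomputable def Clt_G (m : ℕ) (ρ : ℝ) (p : (Fin m → ℝ) × (Fin m → ℝ)) : CltE m :=
  WithLp.toLp 2 (Sum.elim (fun a => (Real.sqrt m)⁻¹ * Clt_c p.1 a)
    (fun a => (Real.sqrt m)⁻¹ * Clt_c (ρ • p.1 + Real.sqrt (1 - ρ ^ 2) • p.2) a))

theorem Clt_cnt {m n : ℕ} (ω : Fin n → Fin m) (t : Fin m → ℝ) :
    ∑ a, (cnt ω a : ℝ) * t a = ∑ i, t (ω i) := by
  unfold cnt
  have : ∀ a, ((Finset.univ.filter (fun i => ω i = a)).card : ℝ) * t a
      = ∑ i, if ω i = a then t a else 0 := by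
    intro a
    rw [← Finset.sum_filter, Finset.sum_const, nsmul_eq_mul]
  simp_rw [this]
  rw [Finset.sum_comm]
  refine Finset.sum_congr rfl fun i _ => ?_
  simp

theorem Clt_inner_S {m : ℕ} (n : ℕ) (p : (Fin n → Fin m) × (Fin n → Fin m)) (t : CltE m) :
    inner ℝ (Clt_S m n p) t = (Real.sqrt n)⁻¹ * ∑ i, (Clt_c (fun a => t (Sum.inl a)) (p.1 i)
      + Clt_c (fun a => t (Sum.inr a)) (p.2 i)) := by
  rw [PiLp.inner_apply, Fintype.sum_sum_type]
  simp only [Clt_S, Sum.elim_inl, Sum.elim_inr, RCLike.inner_apply, conj_trivial]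
  have key : ∀ (ω : Fin n → Fin m) (s : Fin m → ℝ),
      ∑ a, s a * ((Real.sqrt n)⁻¹ * ((cnt ω a : ℝ) - n / m))
        = (Real.sqrt n)⁻¹ * ∑ i, Clt_c s (ω i) := by
    intro ω s
    have e1 : ∑ a, s a * ((Real.sqrt n)⁻¹ * ((cnt ω a : ℝ) - n / m))
        = (Real.sqrt n)⁻¹ * (∑ a, (cnt ω a : ℝ) * s a - n / m * ∑ a, s a) := by
      rw [Finset.mul_sum (f := s), ← Finset.sum_sub_distrib, Finset.mul_sum]
      refine Finset.sum_congr rfl fun a _ => ?_
      ring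
    rw [e1, Clt_cnt]
    congr 1
    unfold Clt_c
    rw [Finset.sum_sub_distrib, Finset.sum_const, Finset.card_univ, Fintype.card_fin, nsmul_eq_mul]
    ring
  rw [key, key, Finset.sum_add_distrib, mul_add]

theorem Clt_inner_G {m : ℕ} (ρ : ℝ) (p : (Fin m → ℝ) × (Fin m → ℝ)) (t : CltE m) :
    inner ℝ (Clt_G m ρ p) t = (∑ a, ((Real.sqrt m)⁻¹ * (Clt_c (fun a => t (Sum.inl a)) a
      + ρ * Clt_c (fun a => t (Sum.inr a)) a)) * p.1 a)
      + ∑ a, ((Real.sqrt m)⁻¹ * (Real.sqrt (1 - ρ ^ 2) * Clt_c (fun a => t (Sum.inr a)) a))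
        * p.2 a := by
  rw [PiLp.inner_apply, Fintype.sum_sum_type]
  simp only [Clt_G, Sum.elim_inl, Sum.elim_inr, RCLike.inner_apply, conj_trivial]
  have key : ∀ (x s : Fin m → ℝ),
      ∑ a, s a * ((Real.sqrt m)⁻¹ * Clt_c x a) = (Real.sqrt m)⁻¹ * ∑ a, Clt_c s a * x a := by
    intro x s
    rw [← Clt_c_adj, Finset.mul_sum]
    refine Finset.sum_congr rfl fun a _ => ?_
    ring
  rw [key, key, Finset.mul_sum, Finset.mul_sum, ← Finset.sum_add_distrib, ← Finset.sum_add_distrib]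
  refine Finset.sum_congr rfl fun a _ => ?_
  simp only [Pi.add_apply, Pi.smul_apply, smul_eq_mul]
  ring

theorem Clt_w_nonneg {m : ℕ} (hm : 0 < m) (ρ : ℝ) (h0 : 0 ≤ ρ) (h1 : ρ ≤ 1) (n : ℕ)
    (p : (Fin n → Fin m) × (Fin n → Fin m)) : 0 ≤ Clt_w m ρ n p :=
  Finset.prod_nonneg fun i _ => mul_nonneg (by positivity) (Clt_K_nonneg m hm ρ h0 h1 _ _)

theorem Clt_w_sum {m : ℕ} (hm : 0 < m) (ρ : ℝ) (n : ℕ) : ∑ p, Clt_w m ρ n p = 1 := by
  have h := Clt_sum_prod n (fun c : Fin m × Fin m => (m : ℝ)⁻¹ * Clt_K m ρ c.1 c.2)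
  have h2 := (Clt_moments hm ρ (fun _ => 0) (fun _ => 0) (by simp) (by simp)).1
  rw [h2, one_pow] at h
  exact h

theorem Clt_integral {m : ℕ} (hm : 0 < m) (ρ : ℝ) (h0 : 0 ≤ ρ) (h1 : ρ ≤ 1) (n : ℕ)
    {F : Type} [NormedAddCommGroup F] [NormedSpace ℝ F] [CompleteSpace F] (f : CltE m → F) :
    ∫ x, f x ∂(Clt_P m ρ n) = ∑ p, Clt_w m ρ n p • f (Clt_S m n p) := by
  unfold Clt_P
  rw [integral_finsetSum_measure]
  · refine Finset.sum_congr rfl fun p _ => ?_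
    rw [integral_smul_measure, integral_dirac, ENNReal.toReal_ofReal (Clt_w_nonneg hm ρ h0 h1 n p)]
  · intro p _
    refine Integrable.smul_measure ?_ ENNReal.ofReal_ne_top
    exact integrable_dirac (by simp)

theorem Clt_prob {m : ℕ} (hm : 0 < m) (ρ : ℝ) (h0 : 0 ≤ ρ) (h1 : ρ ≤ 1) (n : ℕ) :
    IsProbabilityMeasure (Clt_P m ρ n) := by
  constructor
  unfold Clt_P
  rw [Measure.finsetSum_apply]
  simp only [Measure.smul_apply, measure_univ, smul_eq_mul, mul_one]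
  rw [← ENNReal.ofReal_sum_of_nonneg fun p _ => Clt_w_nonneg hm ρ h0 h1 n p, Clt_w_sum hm,
    ENNReal.ofReal_one]

theorem Clt_charFun {m : ℕ} (hm : 0 < m) (ρ : ℝ) (h0 : 0 ≤ ρ) (h1 : ρ ≤ 1) (n : ℕ) (t : CltE m) :
    charFun (Clt_P m ρ n) t = (∑ c : Fin m × Fin m, (((m : ℝ)⁻¹ * Clt_K m ρ c.1 c.2 : ℝ) : ℂ) *
      Complex.exp ((((Real.sqrt n)⁻¹ * (Clt_c (fun a => t (Sum.inl a)) c.1
        + Clt_c (fun a => t (Sum.inr a)) c.2) : ℝ) : ℂ) * Complex.I)) ^ n := by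
  rw [charFun_apply, Clt_integral hm ρ h0 h1, ← Clt_sum_prod]
  refine Finset.sum_congr rfl fun p _ => ?_
  rw [Clt_inner_S, Finset.prod_mul_distrib, ← Complex.exp_sum]
  unfold Clt_w
  rw [Complex.real_smul]
  push_cast
  rw [Finset.mul_sum, Finset.sum_mul]

theorem Clt_gam_exp {κ : Type} [Fintype κ] (α : κ → ℝ) :
    ∫ g, Complex.exp (((∑ i, α i * g i : ℝ) : ℂ) * Complex.I) ∂(gam κ)
      = Complex.exp ((-(∑ i, α i ^ 2) / 2 : ℝ) : ℂ) := by
  have e1 : ∀ g : κ → ℝ, Complex.exp (((∑ i, α i * g i : ℝ) : ℂ) * Complex.I) =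
      ∏ i, Complex.exp ((α i : ℂ) * (g i : ℂ) * Complex.I) := by
    intro g
    rw [← Complex.exp_sum]
    congr 1
    push_cast
    rw [Finset.sum_mul]
  simp_rw [e1]
  unfold gam
  rw [integral_fintype_prod_eq_prod (f := fun (i : κ) (x : ℝ) =>
    Complex.exp ((α i : ℂ) * (x : ℂ) * Complex.I))]
  have h2 : ∀ i : κ, ∫ x : ℝ, Complex.exp ((α i : ℂ) * (x : ℂ) * Complex.I)
      ∂(gaussianReal 0 1) = Complex.exp (-((α i ^ 2 : ℝ) : ℂ) / 2) := by
    intro i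
    rw [← charFun_apply_real, charFun_gaussianReal]
    congr 1
    push_cast
    ring
  simp_rw [h2]
  rw [← Complex.exp_sum]
  congr 1
  push_cast
  rw [← Finset.sum_neg_distrib, Finset.sum_div]

theorem Clt_G_cont (m : ℕ) (ρ : ℝ) : Continuous (Clt_G m ρ) := by
  unfold Clt_G
  refine (PiLp.continuous_toLp 2 _).comp (continuous_pi fun k => ?_)
  rcases k with a | a
  · simp only [Sum.elim_inl]
    unfold Clt_c
    fun_prop
  · simp only [Sum.elim_inr]
    unfold Clt_c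
    simp only [Pi.add_apply, Pi.smul_apply, smul_eq_mul]
    fun_prop

/-- the limit law. -/
noncomputable def Clt_L (m : ℕ) (ρ : ℝ) : Measure (CltE m) :=
  ((gam (Fin m)).prod (gam (Fin m))).map (Clt_G m ρ)

theorem Clt_L_prob (m : ℕ) (ρ : ℝ) : IsProbabilityMeasure (Clt_L m ρ) :=
  Measure.isProbabilityMeasure_map (Clt_G_cont m ρ).measurable.aemeasurable

theorem Clt_charFun_L {m : ℕ} (hm : 0 < m) (ρ : ℝ) (h0 : 0 ≤ ρ) (h1 : ρ ≤ 1) (t : CltE m) :
    charFun (Clt_L m ρ) t = Complex.exp ((-(∑ c : Fin m × Fin m, (m : ℝ)⁻¹ * Clt_K m ρ c.1 c.2 *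
      (Clt_c (fun a => t (Sum.inl a)) c.1 + Clt_c (fun a => t (Sum.inr a)) c.2) ^ 2) / 2 : ℝ) : ℂ) := by
  set u := Clt_c (fun a => t (Sum.inl a)) with hu
  set v := Clt_c (fun a => t (Sum.inr a)) with hv
  rw [charFun_apply]
  unfold Clt_L
  rw [integral_map (Clt_G_cont m ρ).measurable.aemeasurable
    (Continuous.aestronglyMeasurable (by fun_prop))]
  have e1 : ∀ p : (Fin m → ℝ) × (Fin m → ℝ),
      Complex.exp (((inner ℝ (Clt_G m ρ p) t : ℝ) : ℂ) * Complex.I)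
      = Complex.exp (((∑ a, ((Real.sqrt m)⁻¹ * (u a + ρ * v a)) * p.1 a : ℝ) : ℂ) * Complex.I)
        * Complex.exp (((∑ a, ((Real.sqrt m)⁻¹ * (Real.sqrt (1 - ρ ^ 2) * v a)) * p.2 a : ℝ) : ℂ)
          * Complex.I) := by
    intro p
    rw [Clt_inner_G, ← Complex.exp_add]
    congr 1
    push_cast
    ring
  simp_rw [e1]
  rw [integral_prod_mul (f := fun g : Fin m → ℝ =>
    Complex.exp (((∑ a, ((Real.sqrt m)⁻¹ * (u a + ρ * v a)) * g a : ℝ) : ℂ) * Complex.I))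
    (g := fun g : Fin m → ℝ =>
    Complex.exp (((∑ a, ((Real.sqrt m)⁻¹ * (Real.sqrt (1 - ρ ^ 2) * v a)) * g a : ℝ) : ℂ)
      * Complex.I)), Clt_gam_exp, Clt_gam_exp, ← Complex.exp_add]
  congr 1
  rw [← Complex.ofReal_add]
  congr 1
  rw [(Clt_moments hm ρ u v (Clt_c_sum hm _) (Clt_c_sum hm _)).2.2]
  have hm0 : (0 : ℝ) < m := by positivity
  have hs : (Real.sqrt m)⁻¹ ^ 2 = (m : ℝ)⁻¹ := by rw [inv_pow, Real.sq_sqrt hm0.le]
  have hσ : Real.sqrt (1 - ρ ^ 2) ^ 2 = 1 - ρ ^ 2 := Real.sq_sqrt (by nlinarith)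
  have e2 : ∑ i, ((Real.sqrt m)⁻¹ * (u i + ρ * v i)) ^ 2
      = (m : ℝ)⁻¹ * (∑ a, u a ^ 2 + 2 * ρ * ∑ a, u a * v a + ρ ^ 2 * ∑ a, v a ^ 2) := by
    rw [Finset.mul_sum (f := fun a => u a * v a), Finset.mul_sum (f := fun a => v a ^ 2),
      ← Finset.sum_add_distrib, ← Finset.sum_add_distrib, Finset.mul_sum]
    refine Finset.sum_congr rfl fun a _ => ?_
    rw [mul_pow, hs]
    ring
  have e3 : ∑ i, ((Real.sqrt m)⁻¹ * (Real.sqrt (1 - ρ ^ 2) * v i)) ^ 2
      = (m : ℝ)⁻¹ * ((1 - ρ ^ 2) * ∑ a, v a ^ 2) := by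
    rw [Finset.mul_sum (f := fun a => v a ^ 2), Finset.mul_sum]
    refine Finset.sum_congr rfl fun a _ => ?_
    rw [mul_pow, mul_pow, hs, hσ]
  rw [e2, e3]
  ring

theorem Clt_weak {m : ℕ} (hm : 0 < m) (ρ : ℝ) (h0 : 0 ≤ ρ) (h1 : ρ ≤ 1) (A : Set (CltE m))
    (hA : Clt_L m ρ (frontier A) = 0) :
    Filter.Tendsto (fun n => (Clt_P m ρ n).real A) Filter.atTop (nhds ((Clt_L m ρ).real A)) := by
  have := fun n => Clt_prob hm ρ h0 h1 n
  have := Clt_L_prob m ρ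
  let P : ℕ → ProbabilityMeasure (CltE m) := fun n => ⟨Clt_P m ρ n, inferInstance⟩
  let L : ProbabilityMeasure (CltE m) := ⟨Clt_L m ρ, inferInstance⟩
  have hw : Filter.Tendsto P Filter.atTop (nhds L) := by
    refine ProbabilityMeasure.tendsto_iff_tendsto_charFun.2 fun t => ?_
    change Filter.Tendsto (fun n => charFun (Clt_P m ρ n) t) Filter.atTop
      (nhds (charFun (Clt_L m ρ) t))
    rw [Clt_charFun_L hm ρ h0 h1]
    simp_rw [Clt_charFun hm ρ h0 h1]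
    have hmo := Clt_moments hm ρ (Clt_c (fun a => t (Sum.inl a))) (Clt_c (fun a => t (Sum.inr a)))
      (Clt_c_sum hm _) (Clt_c_sum hm _)
    exact Clt_pow (fun c : Fin m × Fin m => (m : ℝ)⁻¹ * Clt_K m ρ c.1 c.2)
      (fun c => Clt_c (fun a => t (Sum.inl a)) c.1 + Clt_c (fun a => t (Sum.inr a)) c.2) hmo.1 hmo.2.1
  have h := ProbabilityMeasure.tendsto_measure_of_null_frontier_of_tendsto' hw (E := A) hA
  exact (ENNReal.tendsto_toReal (measure_ne_top _ _)).comp h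

/-- no atoms for differences. -/
theorem Clt_null {m : ℕ} (l j : Fin m) (hlj : l ≠ j) (c : ℝ) :
    gam (Fin m) {g | g l - g j = c} = 0 := by
  set W : Fin m → Unit → ℝ := fun i _ => (if i = l then 1 else 0) - (if i = j then 1 else 0)
  set W' : Unit → Unit → ℝ := fun _ _ => Real.sqrt 2
  have h : (gam (Fin m)).map (lin W) = (gam Unit).map (lin W') := by
    refine map_lin_eq W W' fun a b => ?_
    have e1 : ∀ i : Fin m, W i a * W i b = (if i = l then 1 else 0) + (if i = j then 1 else 0) := by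
      intro i
      simp only [W]
      by_cases h1 : i = l
      · have h2 : i ≠ j := fun h => hlj (h1.symm.trans h)
        simp [h1, hlj]
      · by_cases h2 : i = j
        · simp [h2, Ne.symm hlj]
        · simp [h1, h2]
    simp_rw [e1]
    rw [Finset.sum_add_distrib]
    simp only [Finset.sum_ite_eq', Finset.mem_univ, if_true, W', Finset.univ_unique,
      Finset.sum_singleton, Real.mul_self_sqrt (show (0 : ℝ) ≤ 2 by norm_num)]
    norm_num
  have h2 : (gam (Fin m)).map (lin W) {x : Unit → ℝ | x () = c}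
      = (gam Unit).map (lin W') {x : Unit → ℝ | x () = c} := by rw [h]
  have hmeas : MeasurableSet {x : Unit → ℝ | x () = c} :=
    measurableSet_eq_fun (measurable_pi_apply _) measurable_const
  rw [Measure.map_apply (Exl_continuous_lin W).measurable hmeas,
    Measure.map_apply (Exl_continuous_lin W').measurable hmeas] at h2
  have e3 : lin W ⁻¹' {x : Unit → ℝ | x () = c} = {g : Fin m → ℝ | g l - g j = c} := by
    ext g
    simp only [Set.mem_preimage, Set.mem_ofPred_eq, lin, Finset.sum_apply, Pi.smul_apply,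
      smul_eq_mul, W, mul_sub, mul_ite, mul_one, mul_zero, Finset.sum_sub_distrib,
      Finset.sum_ite_eq', Finset.mem_univ, if_true]
  have e4 : lin W' ⁻¹' {x : Unit → ℝ | x () = c} = Set.univ.pi (fun _ : Unit => {c / Real.sqrt 2}) := by
    ext g
    have h2 : Real.sqrt 2 ≠ 0 := by positivity
    simp only [Set.mem_preimage, Set.mem_ofPred_eq, lin, Finset.sum_apply, Pi.smul_apply,
      smul_eq_mul, W', Finset.univ_unique, Finset.sum_singleton, Set.mem_univ_pi,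
      Set.mem_singleton_iff]
    constructor
    · intro hg i
      rw [← hg]
      field_simp
    · intro hg
      have := hg default
      rw [this]
      field_simp
  rw [e3, e4] at h2
  rw [h2]
  unfold gam
  rw [Measure.pi_pi]
  have := nullSingletonClass_gaussianReal (μ := 0) (v := 1) one_ne_zero
  simp

/-- the pair of cells. -/
def Clt_A {m : ℕ} (j : Fin m) : Set (CltE m) :=
  {x | (∀ l, l ≠ j → x (Sum.inl l) < x (Sum.inl j)) ∧ ∀ l, l ≠ j → x (Sum.inr l) < x (Sum.inr j)}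

theorem Clt_coord_cont {m : ℕ} (k : Fin m ⊕ Fin m) : Continuous fun x : CltE m => x k := by
  fun_prop

theorem Clt_eq_closed {m : ℕ} (k k' : Fin m ⊕ Fin m) : IsClosed {x : CltE m | x k = x k'} :=
  isClosed_eq (X := ℝ) (Clt_coord_cont k) (Clt_coord_cont k')

theorem Clt_A_eq {m : ℕ} (j : Fin m) : Clt_A j =
    (⋂ l : Fin m, ⋂ _ : l ≠ j, {x : CltE m | x (Sum.inl l) < x (Sum.inl j)}) ∩
      ⋂ l : Fin m, ⋂ _ : l ≠ j, {x : CltE m | x (Sum.inr l) < x (Sum.inr j)} := by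
  ext x
  simp [Clt_A]

theorem Clt_A_open {m : ℕ} (j : Fin m) : IsOpen (Clt_A j) := by
  rw [Clt_A_eq]
  refine IsOpen.inter ?_ ?_
  · exact isOpen_iInter_of_finite fun l => isOpen_iInter_of_finite fun _ =>
      isOpen_lt (Clt_coord_cont _) (Clt_coord_cont _)
  · exact isOpen_iInter_of_finite fun l => isOpen_iInter_of_finite fun _ =>
      isOpen_lt (Clt_coord_cont _) (Clt_coord_cont _)

theorem Clt_frontier {m : ℕ} (j : Fin m) : frontier (Clt_A j) ⊆
    (⋃ l : Fin m, ⋃ _ : l ≠ j, {x : CltE m | x (Sum.inl l) = x (Sum.inl j)}) ∪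
      ⋃ l : Fin m, ⋃ _ : l ≠ j, {x : CltE m | x (Sum.inr l) = x (Sum.inr j)} := by
  intro x hx
  rw [(Clt_A_open j).frontier_eq] at hx
  obtain ⟨hx1, hx2⟩ := hx
  have hcl : closure (Clt_A j) ⊆ {x : CltE m | (∀ l, l ≠ j → x (Sum.inl l) ≤ x (Sum.inl j)) ∧
      ∀ l, l ≠ j → x (Sum.inr l) ≤ x (Sum.inr j)} := by
    refine closure_minimal (fun y hy => ⟨fun l hl => (hy.1 l hl).le, fun l hl => (hy.2 l hl).le⟩) ?_
    simp only [Set.ofPred_and, Set.ofPred_forall]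
    refine IsClosed.inter ?_ ?_
    · exact isClosed_iInter fun l => isClosed_iInter fun _ =>
        isClosed_le (Clt_coord_cont _) (Clt_coord_cont _)
    · exact isClosed_iInter fun l => isClosed_iInter fun _ =>
        isClosed_le (Clt_coord_cont _) (Clt_coord_cont _)
  have h := hcl hx1
  by_contra hcon
  apply hx2
  simp only [Set.mem_union, Set.mem_iUnion, Set.mem_ofPred_eq, not_or, not_exists] at hcon
  exact ⟨fun l hl => lt_of_le_of_ne (h.1 l hl) (hcon.1 l hl),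
    fun l hl => lt_of_le_of_ne (h.2 l hl) (hcon.2 l hl)⟩

theorem Clt_c_lt {m : ℕ} (s : ℝ) (hs : 0 < s) (x : Fin m → ℝ) (a b : Fin m) :
    s * Clt_c x a < s * Clt_c x b ↔ x a < x b := by
  rw [mul_lt_mul_iff_right₀ hs]
  unfold Clt_c
  exact sub_lt_sub_iff_right _

theorem Clt_c_eq {m : ℕ} (s : ℝ) (hs : 0 < s) (x : Fin m → ℝ) (a b : Fin m) :
    s * Clt_c x a = s * Clt_c x b ↔ x a = x b := by
  rw [mul_right_inj' hs.ne']
  unfold Clt_c
  exact sub_left_inj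

theorem Clt_frontier_null {m : ℕ} (hm : 0 < m) (ρ : ℝ) (h0 : 0 ≤ ρ) (h1 : ρ ≤ 1) (j : Fin m) :
    Clt_L m ρ (frontier (Clt_A j)) = 0 := by
  refine measure_mono_null (Clt_frontier j) ?_
  have hsm : 0 < (Real.sqrt m)⁻¹ := by positivity
  refine measure_union_null ?_ ?_
  · refine measure_iUnion_null fun l => measure_iUnion_null fun hl => ?_
    unfold Clt_L
    rw [Measure.map_apply (Clt_G_cont m ρ).measurable
      (Clt_eq_closed (Sum.inl l) (Sum.inl j)).measurableSet]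
    have e : Clt_G m ρ ⁻¹' {x : CltE m | x (Sum.inl l) = x (Sum.inl j)}
        = {g : Fin m → ℝ | g l - g j = 0} ×ˢ Set.univ := by
      ext p
      simp only [Set.mem_preimage, Set.mem_ofPred_eq, Clt_G, Sum.elim_inl, Set.mem_prod,
        Set.mem_univ, and_true, sub_eq_zero]
      exact Clt_c_eq _ hsm _ _ _
    rw [e, Measure.prod_prod, Clt_null l j hl, zero_mul]
  · refine measure_iUnion_null fun l => measure_iUnion_null fun hl => ?_
    unfold Clt_L
    rw [Measure.map_apply (Clt_G_cont m ρ).measurable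
      (Clt_eq_closed (Sum.inr l) (Sum.inr j)).measurableSet]
    have e : Clt_G m ρ ⁻¹' {x : CltE m | x (Sum.inr l) = x (Sum.inr j)}
        = {p : (Fin m → ℝ) × (Fin m → ℝ) | ρ * p.1 l + Real.sqrt (1 - ρ ^ 2) * p.2 l
          = ρ * p.1 j + Real.sqrt (1 - ρ ^ 2) * p.2 j} := by
      ext p
      simp only [Set.mem_preimage, Set.mem_ofPred_eq, Clt_G, Sum.elim_inr]
      exact Clt_c_eq _ hsm _ _ _
    rw [e]
    rcases h1.eq_or_lt with h | h
    · subst h
      have e2 : {p : (Fin m → ℝ) × (Fin m → ℝ) | (1 : ℝ) * p.1 l + Real.sqrt (1 - 1 ^ 2) * p.2 l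
          = 1 * p.1 j + Real.sqrt (1 - 1 ^ 2) * p.2 j} = {g : Fin m → ℝ | g l - g j = 0} ×ˢ Set.univ := by
        ext p
        simp [sub_eq_zero]
      rw [e2, Measure.prod_prod, Clt_null l j hl, zero_mul]
    · have hσ : 0 < Real.sqrt (1 - ρ ^ 2) := Real.sqrt_pos.2 (by nlinarith)
      rw [Measure.measure_prod_null]
      · refine Filter.Eventually.of_forall fun g => ?_
        have e3 : Prod.mk g ⁻¹' {p : (Fin m → ℝ) × (Fin m → ℝ) |
            ρ * p.1 l + Real.sqrt (1 - ρ ^ 2) * p.2 l = ρ * p.1 j + Real.sqrt (1 - ρ ^ 2) * p.2 j}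
            = {g' : Fin m → ℝ | g' l - g' j = ρ * (g j - g l) / Real.sqrt (1 - ρ ^ 2)} := by
          ext g'
          simp only [Set.mem_preimage, Set.mem_ofPred_eq]
          rw [eq_div_iff hσ.ne']
          constructor <;> intro h <;> linarith
        simp only [e3, Pi.zero_apply]
        exact Clt_null l j hl _
      · refine measurableSet_eq_fun ?_ ?_ <;> fun_prop

/-- weak convergence of the pair of centred counts; stated for the cells. -/
theorem cell_pair_tendsto (m : ℕ) (hm : 2 ≤ m) (ρ : ℝ) (h0 : 0 ≤ ρ) (h1 : ρ ≤ 1) (j : Fin m) :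
    Filter.Tendsto (fun n : ℕ => ((m : ℝ) ^ n)⁻¹ * ∑ ω : Fin n → Fin m, ∑ δ : Fin n → Fin m,
        cellF j (fun l => (cnt ω l : ℝ))
          * (∏ i : Fin n, if δ i = ω i then (1 + ((m : ℝ) - 1) * ρ) / m else (1 - ρ) / m)
          * cellF j (fun l => (cnt δ l : ℝ)))
      Filter.atTop (nhds (sg ρ (cellF j) (cellF j))) := by
  classical
  have hm0 : 0 < m := by omega
  have hlim := Clt_weak hm0 ρ h0 h1 (Clt_A j) (Clt_frontier_null hm0 ρ h0 h1 j)
  have hsm : 0 < (Real.sqrt m)⁻¹ := by positivity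
  have hL : (Clt_L m ρ).real (Clt_A j) = sg ρ (cellF j) (cellF j) := by
    unfold Clt_L sg
    rw [map_measureReal_apply (Clt_G_cont m ρ).measurable (Clt_A_open j).measurableSet,
      ← integral_indicator_one ((Clt_G_cont m ρ).measurable (Clt_A_open j).measurableSet)]
    refine integral_congr_ae (Filter.Eventually.of_forall fun p => ?_)
    have hmem : p ∈ Clt_G m ρ ⁻¹' Clt_A j ↔ (∀ l, l ≠ j → p.1 l < p.1 j) ∧
        ∀ l, l ≠ j → (ρ • p.1 + Real.sqrt (1 - ρ ^ 2) • p.2) l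
          < (ρ • p.1 + Real.sqrt (1 - ρ ^ 2) • p.2) j := by
      simp only [Set.mem_preimage, Clt_A, Set.mem_ofPred_eq, Clt_G, Sum.elim_inl, Sum.elim_inr]
      simp only [Clt_c_lt _ hsm]
    simp only [Set.indicator_apply, hmem, Pi.one_apply]
    unfold cellF
    by_cases ha : ∀ l, l ≠ j → p.1 l < p.1 j
    · by_cases hb : ∀ l, l ≠ j → (ρ • p.1 + Real.sqrt (1 - ρ ^ 2) • p.2) l
          < (ρ • p.1 + Real.sqrt (1 - ρ ^ 2) • p.2) j
      · rw [if_pos ⟨ha, hb⟩, if_pos ha, if_pos hb, one_mul]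
      · rw [if_neg (fun h => hb h.2), if_neg hb, mul_zero]
    · rw [if_neg (fun h => ha h.1), if_neg ha, zero_mul]
  rw [hL] at hlim
  refine hlim.congr' ?_
  filter_upwards [Filter.eventually_gt_atTop 0] with n hn
  have hsn : 0 < (Real.sqrt (n : ℝ))⁻¹ := by
    have : (0 : ℝ) < n := by exact_mod_cast hn
    positivity
  have hP : (Clt_P m ρ n).real (Clt_A j) = ∑ p, Clt_w m ρ n p *
      (if Clt_S m n p ∈ Clt_A j then 1 else 0) := by
    rw [← integral_indicator_one (Clt_A_open j).measurableSet, Clt_integral hm0 ρ h0 h1]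
    refine Finset.sum_congr rfl fun p _ => ?_
    simp only [Set.indicator_apply, Pi.one_apply, smul_eq_mul]
  rw [hP, Fintype.sum_prod_type, Finset.mul_sum]
  refine Finset.sum_congr rfl fun ω _ => ?_
  rw [Finset.mul_sum]
  refine Finset.sum_congr rfl fun δ _ => ?_
  have hmem : Clt_S m n (ω, δ) ∈ Clt_A j ↔ (∀ l, l ≠ j → (cnt ω l : ℝ) < cnt ω j) ∧
      ∀ l, l ≠ j → (cnt δ l : ℝ) < cnt δ j := by
    simp only [Clt_A, Set.mem_ofPred_eq, Clt_S, Sum.elim_inl, Sum.elim_inr]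
    simp only [mul_lt_mul_iff_right₀ hsn, sub_lt_sub_iff_right]
  have hw : Clt_w m ρ n (ω, δ) = ((m : ℝ) ^ n)⁻¹ *
      ∏ i : Fin n, if δ i = ω i then (1 + ((m : ℝ) - 1) * ρ) / m else (1 - ρ) / m := by
    unfold Clt_w Clt_K
    rw [Finset.prod_mul_distrib, Finset.prod_const, Finset.card_univ, Fintype.card_fin, inv_pow]
  rw [hw]
  simp only [hmem]
  unfold cellF
  by_cases ha : ∀ l, l ≠ j → (cnt ω l : ℝ) < cnt ω j
  · by_cases hb : ∀ l, l ≠ j → (cnt δ l : ℝ) < cnt δ j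
    · rw [if_pos ⟨ha, hb⟩, if_pos ha, if_pos hb]
      ring
    · rw [if_neg (fun h => hb h.2), if_neg hb]
      ring
  · rw [if_neg (fun h => ha h.1), if_neg ha]
    ring

end Pool.H65.PT
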