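import Pool.Agent.Helper65.PS.Defs

/-! Definitions for the small-correlation theorem (MP_c6cf29_pr). -/

set_option autoImplicit false

open MeasureTheory ProbabilityTheory Pool.H65.PS

namespace Pool.H65.PT

noncomputable section

variable {κ : Type} [Fintype κ] {m : ℕ}

/-- dot product. -/
def dot (u x : κ → ℝ) : ℝ := ∑ i, u i * x i

/-- Ornstein-Uhlenbeck operator. -/
def OU (r : ℝ) (f : (κ → ℝ) → ℝ) (x : κ → ℝ) : ℝ :=
  ∫ y, f (r • x + Real.sqrt (1 - r ^ 2) • y) ∂(gam κ)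

/-- Gaussian noise stability form. -/
def sg (ρ : ℝ) (f h : (κ → ℝ) → ℝ) : ℝ :=
  ∫ p, f p.1 * h (ρ • p.1 + Real.sqrt (1 - ρ ^ 2) • p.2) ∂((gam κ).prod (gam κ))

/-- bounded and measurable. -/
structure Bm (f : (κ → ℝ) → ℝ) : Prop where
  meas : Measurable f
  bdd : ∃ B, ∀ x, |f x| ≤ B

/-- first moments. -/
def mo (f : (κ → ℝ) → ℝ) (i : κ) : ℝ := ∫ x, f x * x i ∂(gam κ)

/-- directional derivative of `OU r f` in direction `u`. -/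
def dOU (r : ℝ) (u : κ → ℝ) (f : (κ → ℝ) → ℝ) (x : κ → ℝ) : ℝ :=
  r / Real.sqrt (1 - r ^ 2) * ∫ y, dot u y * f (r • x + Real.sqrt (1 - r ^ 2) • y) ∂(gam κ)

/-- `V` is bounded and continuously differentiable, with bounded partial derivatives `V' i`. -/
structure C1b (V : (κ → ℝ) → ℝ) (V' : κ → (κ → ℝ) → ℝ) : Prop where
  bdd : ∃ B, ∀ x, |V x| ≤ B
  bdd' : ∃ B, ∀ i x, |V' i x| ≤ B
  cont' : ∀ i, Continuous (V' i)
  deriv : ∀ x, HasFDerivAt V (∑ i, V' i x • (ContinuousLinearMap.proj i : (κ → ℝ) →L[ℝ] ℝ)) x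

open Classical in
/-- indicator of the cell where coordinate `j` is the strict maximum. -/
def cellF (j : Fin m) (x : Fin m → ℝ) : ℝ := if ∀ l, l ≠ j → x l < x j then 1 else 0

/-- `a_m = M_m / (m-1)`. -/
def am (m : ℕ) : ℝ := MM (Fin m) / ((m : ℝ) - 1)

/-- noise stability of the simplex partition. -/
def Lam (m : ℕ) (ρ : ℝ) : ℝ := ∑ j : Fin m, sg ρ (cellF j) (cellF j)

/-- smoothed cell. -/
def QQ (ρ : ℝ) (j : Fin m) (ξ : Fin m → ℝ) : ℝ := OU ρ (cellF j) ξ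

/-- orthonormal families. -/
def Frame (u : Fin m → κ → ℝ) : Prop := ∀ j k, dot (u j) (u k) = if j = k then 1 else 0

/-- coordinates with respect to the family `u`. -/
def xi (u : Fin m → κ → ℝ) (x : κ → ℝ) : Fin m → ℝ := fun j => dot (u j) x

/-- gap to the maximum. -/
def gap (ξ : Fin m → ℝ) (j : Fin m) : ℝ := (⨆ l, ξ l) - ξ j

/-- `E ∑ f_j min(1, gap_j)`. -/
def cost (u : Fin m → κ → ℝ) (f : (κ → ℝ) → Fin m → ℝ) : ℝ :=
  ∫ x, ∑ j, f x j * min 1 (gap (xi u x) j) ∂(gam κ)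

/-- difference between `f` and the partition of the frame `u`. -/
def dev (u : Fin m → κ → ℝ) (f : (κ → ℝ) → Fin m → ℝ) (j : Fin m) (x : κ → ℝ) : ℝ :=
  f x j - cellF j (xi u x)

/-- soft cutoff. -/
def chi (K ρ : ℝ) (ξ : Fin m → ℝ) : ℝ :=
  K * ρ * (1 + ∑ l, ξ l ^ 2) / (1 + K * ρ * (1 + ∑ l, ξ l ^ 2))

/-- measurable simplex-valued functions. -/
structure Pt (f : (κ → ℝ) → Fin m → ℝ) : Prop where
  meas : ∀ j, Measurable (fun x => f x j)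
  simp : ∀ x, f x ∈ stdSimplex ℝ (Fin m)

/-- balanced functions. -/
def Bal (f : (κ → ℝ) → Fin m → ℝ) : Prop := ∀ j, ∫ x, f x j ∂(gam κ) = 1 / (m : ℝ)

/-- sum of squares of the entries. -/
def fs (H : Fin m → Fin m → ℝ) : ℝ := ∑ j, ∑ k, H j k ^ 2

/-- symmetric with vanishing row sums. -/
structure HS (H : Fin m → Fin m → ℝ) : Prop where
  symm : ∀ j k, H j k = H k j
  row : ∀ j, ∑ k, H j k = 0

/-- `E max_j (c_j + ∑ √s_i g_i W_i(j)) - mean c`. -/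
def Gm {ι : Type} [Fintype ι] (W : κ → ι → ℝ) (s : κ → ℝ) (c : ι → ℝ) : ℝ :=
  ∫ g, (⨆ j, (c j + ∑ i, Real.sqrt (s i) * g i * W i j)) ∂(gam κ)
    - (∑ j, c j) / (Fintype.card ι : ℝ)

/-- `inf_c Gm W s c`. -/
def FM {ι : Type} [Fintype ι] (W : κ → ι → ℝ) (s : κ → ℝ) : ℝ := ⨅ c : ι → ℝ, Gm W s c

/-- standard normal distribution function. -/
def PhiC (y : ℝ) : ℝ := (gaussianReal 0 1).real (Set.Iio y)

/-- `p_m = E Φ(Y)^(m-2)`, `Y ~ N(0,1/2)`. -/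
def pm (m : ℕ) : ℝ := ∫ y, PhiC y ^ (m - 2) ∂(gaussianReal 0 (1 / 2))

/-! ### the discrete side -/

variable {n : ℕ}

/-- Gaussian weights. -/
def wtG (m n : ℕ) (g : Fin n × Fin m → ℝ) (i : Fin n) (a : Fin m) : ℝ :=
  (m : ℝ)⁻¹ + (g (i, a) - (∑ b, g (i, b)) / m) / Real.sqrt m

/-- multi-affine extension of `F` evaluated at weights `w`. -/
def pol (F : (Fin n → Fin m) → ℝ) (w : Fin n → Fin m → ℝ) : ℝ := ∑ ω, F ω * ∏ i, w i (ω i)

/-- discrete noise operator. -/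
def Tn (θ : ℝ) (F : (Fin n → Fin m) → ℝ) (ω : Fin n → Fin m) : ℝ :=
  ∑ δ : Fin n → Fin m,
    (∏ i, if δ i = ω i then (1 + ((m : ℝ) - 1) * θ) / m else (1 - θ) / m) * F δ

/-- law of the discrete weights: uniform on the unit vectors. -/
def dW (m : ℕ) : Measure (Fin m → ℝ) :=
  (m : ENNReal)⁻¹ • ∑ a : Fin m, Measure.dirac (Pi.single a (1 : ℝ))

/-- law of the Gaussian weights. -/
def gW (m : ℕ) : Measure (Fin m → ℝ) :=
  (gam (Fin m)).map (fun g a => (m : ℝ)⁻¹ + (g a - (∑ b, g b) / m) / Real.sqrt m)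

/-- laws of admissible weights. -/
structure WL (μ : Measure (Fin m → ℝ)) (K : ℝ) : Prop where
  prob : IsProbabilityMeasure μ
  sum_one : ∀ᵐ w ∂μ, ∑ a, w a = 1
  mom : Integrable (fun w : Fin m → ℝ => ‖w‖ ^ 4) μ
  mean : ∀ a, ∫ w, w a ∂μ = (m : ℝ)⁻¹
  cov : ∀ a b, ∫ w, w a * w b ∂μ = if a = b then (m : ℝ)⁻¹ else 0
  third : ∀ b : Fin m → ℝ, ∫ w, |∑ a, b a * (w a - (m : ℝ)⁻¹)| ^ 3 ∂μ
    ≤ K * (∫ w, (∑ a, b a * (w a - (m : ℝ)⁻¹)) ^ 2 ∂μ) ^ ((3 : ℝ) / 2)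

/-- the exponent. -/
def qq (θ K : ℝ) : ℝ := 2 + (1 - θ ^ 2) / (4 + K)

/-- `(t⁻)^q`. -/
def psi (q t : ℝ) : ℝ := (max (-t) 0) ^ q

end

end Pool.H65.PT
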