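import Pool.Agent.Helper65.PT.Defs
import Pool.Agent.Helper65.PS.Exl

set_option autoImplicit false

open MeasureTheory ProbabilityTheory Pool.H65.PS

namespace Pool.H65.PT

section law

variable {κ : Type} [Fintype κ] {m : ℕ}

open Classical in
/-- a linear map with orthonormal rows preserves the Gaussian measure. -/
theorem Law_mp {κ' : Type} [Fintype κ'] (W : κ → κ' → ℝ)
    (h : ∀ j k, ∑ i, W i j * W i k = if j = k then 1 else 0) :
    MeasurePreserving (lin W) (gam κ) (gam κ') := by
  refine ⟨(Exl_continuous_lin W).measurable, ?_⟩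
  rw [map_lin_eq W (fun i j : κ' => if i = j then (1 : ℝ) else 0)]
  · have : lin (fun i j : κ' => if i = j then (1 : ℝ) else 0) = id := by
      funext g j
      simp [lin, Finset.sum_apply]
    rw [this, Measure.map_id]
  · intro j k
    rw [h]
    by_cases hjk : j = k
    · simp [hjk]
    · simp [hjk, Ne.symm hjk]

theorem Law_lin_apply {κ' : Type} (W : κ → κ' → ℝ) (g : κ → ℝ) (j : κ') :
    lin W g j = ∑ i, g i * W i j := by
  simp [lin, Finset.sum_apply]

theorem Law_sum (κ κ' : Type) [Fintype κ] [Fintype κ'] :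
    MeasurePreserving (fun g : κ ⊕ κ' → ℝ => ((fun i => g (Sum.inl i)), fun i => g (Sum.inr i)))
      (gam (κ ⊕ κ')) ((gam κ).prod (gam κ')) :=
  measurePreserving_sumPiEquivProdPi (X := fun _ : κ ⊕ κ' => ℝ) (fun _ => gaussianReal 0 1)

theorem Law_sum_symm (κ κ' : Type) [Fintype κ] [Fintype κ'] :
    MeasurePreserving (fun p : (κ → ℝ) × (κ' → ℝ) => (Sum.elim p.1 p.2 : κ ⊕ κ' → ℝ))
      ((gam κ).prod (gam κ')) (gam (κ ⊕ κ')) := by
  have h : MeasurePreserving (MeasurableEquiv.sumPiEquivProdPi (fun _ : κ ⊕ κ' => ℝ)).symm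
      ((gam κ).prod (gam κ')) (gam (κ ⊕ κ')) :=
    measurePreserving_sumPiEquivProdPi_symm (X := fun _ : κ ⊕ κ' => ℝ)
      (fun _ => gaussianReal 0 1)
  convert h using 1
  funext p
  funext i
  cases i <;> rfl

theorem measurePreserving_xi (u : Fin m → κ → ℝ) (hu : Frame u) :
    MeasurePreserving (xi u) (gam κ) (gam (Fin m)) := by
  classical
  have h := Law_mp (fun (i : κ) (j : Fin m) => u j i) (fun j k => by
    have := hu j k
    simp only [dot] at this
    rw [this]
    by_cases hjk : j = k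
    · simp [hjk]
    · simp [hjk])
  convert h using 1
  funext x j
  rw [Law_lin_apply]
  simp [xi, dot, mul_comm]

theorem measurePreserving_rot (ρ : ℝ) (h : |ρ| ≤ 1) :
    MeasurePreserving (fun p : (κ → ℝ) × (κ → ℝ) =>
      (ρ • p.1 + Real.sqrt (1 - ρ ^ 2) • p.2, Real.sqrt (1 - ρ ^ 2) • p.1 - ρ • p.2))
      ((gam κ).prod (gam κ)) ((gam κ).prod (gam κ)) := by
  classical
  set σ := Real.sqrt (1 - ρ ^ 2) with hσ
  have hσ2 : σ ^ 2 = 1 - ρ ^ 2 := Real.sq_sqrt (by
    have := sq_abs ρ
    nlinarith [abs_nonneg ρ])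
  let W : κ ⊕ κ → κ ⊕ κ → ℝ := fun i j => match i, j with
    | Sum.inl b, Sum.inl a => if a = b then ρ else 0
    | Sum.inr b, Sum.inl a => if a = b then σ else 0
    | Sum.inl b, Sum.inr a => if a = b then σ else 0
    | Sum.inr b, Sum.inr a => if a = b then -ρ else 0
  have hW : MeasurePreserving (lin W) (gam (κ ⊕ κ)) (gam (κ ⊕ κ)) := by
    apply Law_mp
    intro j k
    rw [Fintype.sum_sum_type]
    rcases j with a | a <;> rcases k with b | b <;>
      simp [W] <;> split_ifs with hab <;> simp_all <;> nlinarith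
  have h3 := ((Law_sum κ κ).comp hW).comp (Law_sum_symm κ κ)
  convert h3 using 1
  funext p
  simp only [Function.comp]
  ext i
  · simp [Law_lin_apply, W, mul_comm]
  · simp [Law_lin_apply, W, mul_comm, sub_eq_add_neg]

theorem measurePreserving_mix (ρ : ℝ) (h : |ρ| ≤ 1) :
    MeasurePreserving (fun p : (κ → ℝ) × (κ → ℝ) => ρ • p.1 + Real.sqrt (1 - ρ ^ 2) • p.2)
      ((gam κ).prod (gam κ)) (gam κ) :=
  measurePreserving_fst.comp (measurePreserving_rot ρ h)

theorem measurePreserving_line (u : κ → ℝ) (hu : dot u u = 1) :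
    MeasurePreserving (fun p : (κ → ℝ) × ℝ => p.1 - dot u p.1 • u + p.2 • u)
      ((gam κ).prod (gaussianReal 0 1)) (gam κ) := by
  classical
  let W : κ ⊕ Unit → κ → ℝ := fun i j => match i with
    | Sum.inl b => (if j = b then 1 else 0) - u b * u j
    | Sum.inr _ => u j
  have hW : MeasurePreserving (lin W) (gam (κ ⊕ Unit)) (gam κ) := by
    apply Law_mp
    intro j k
    rw [Fintype.sum_sum_type]
    have h1 : ∑ b : κ, ((if j = b then (1 : ℝ) else 0) - u b * u j) *
        ((if k = b then (1 : ℝ) else 0) - u b * u k)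
        = (if j = k then 1 else 0) - u j * u k - u j * u k + u j * u k * dot u u := by
      have e : ∀ b : κ, ((if j = b then (1 : ℝ) else 0) - u b * u j) *
        ((if k = b then (1 : ℝ) else 0) - u b * u k)
        = (if j = b then (if k = b then (1 : ℝ) else 0) else 0)
          - (if j = b then u b * u k else 0) - (if k = b then u b * u j else 0)
          + u j * u k * (u b * u b) := by
        intro b
        split_ifs <;> ring
      simp_rw [e]
      rw [Finset.sum_add_distrib, Finset.sum_sub_distrib, Finset.sum_sub_distrib]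
      rw [← Finset.mul_sum]
      simp only [Finset.sum_ite_eq, Finset.mem_univ, if_true]
      unfold dot
      by_cases hjk : j = k
      · simp [hjk]
      · rw [if_neg (Ne.symm hjk), if_neg hjk]; ring
    simp only [W]
    rw [h1, hu]
    simp
  have h1 : MeasurePreserving (fun p : (κ → ℝ) × ℝ => (p.1, fun _ : Unit => p.2))
      ((gam κ).prod (gaussianReal 0 1)) ((gam κ).prod (gam Unit)) := by
    have h2 : MeasurePreserving (fun x : ℝ => fun _ : Unit => x) (gaussianReal 0 1) (gam Unit) :=
      (measurePreserving_funUnique (gaussianReal 0 1) Unit).symm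
    exact (MeasurePreserving.id _).prod h2
  have h3 := (hW.comp (Law_sum_symm κ Unit)).comp h1
  convert h3 using 1
  funext p
  funext i
  simp only [Function.comp, Law_lin_apply]
  rw [Fintype.sum_sum_type]
  simp only [Sum.elim_inl, Sum.elim_inr, W, mul_sub, Finset.sum_sub_distrib, mul_ite, mul_one,
    mul_zero, Finset.sum_ite_eq, Finset.mem_univ, if_true, Pi.add_apply, Pi.sub_apply,
    Pi.smul_apply, smul_eq_mul, dot, Finset.sum_mul, Finset.univ_unique, Finset.sum_singleton]
  congr 2
  exact Finset.sum_congr rfl fun b _ => by ring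

theorem measurePreserving_inl :
    MeasurePreserving (fun (x : κ ⊕ Unit → ℝ) (i : κ) => x (Sum.inl i)) (gam (κ ⊕ Unit)) (gam κ) :=
  measurePreserving_fst.comp (Law_sum κ Unit)

theorem Law_cell_meas (j : Fin m) : Measurable (cellF j : (Fin m → ℝ) → ℝ) := by
  classical
  unfold cellF
  refine Measurable.ite ?_ measurable_const measurable_const
  have : {x : Fin m → ℝ | ∀ l, l ≠ j → x l < x j}
      = ⋂ l, {x : Fin m → ℝ | l ≠ j → x l < x j} := by ext x; simp
  rw [this]
  refine MeasurableSet.iInter fun l => ?_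
  by_cases hl : l = j
  · simp [hl]
  · simpa [hl] using measurableSet_lt (measurable_pi_apply l) (measurable_pi_apply j)

theorem Law_xi_lin (u : Fin m → κ → ℝ) (a b : ℝ) (x y : κ → ℝ) :
    xi u (a • x + b • y) = a • xi u x + b • xi u y := by
  funext j
  simp only [xi, dot, Pi.add_apply, Pi.smul_apply, smul_eq_mul, Finset.mul_sum]
  rw [← Finset.sum_add_distrib]
  exact Finset.sum_congr rfl fun i _ => by ring

theorem Law_integral_comp {α β : Type*} [MeasurableSpace α] [MeasurableSpace β] {μ : Measure α}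
    {ν : Measure β} {T : α → β} (hT : MeasurePreserving T μ ν) {F : β → ℝ} (hF : Measurable F) :
    ∫ x, F (T x) ∂μ = ∫ y, F y ∂ν := by
  rw [← hT.map_eq, integral_map hT.measurable.aemeasurable hF.aestronglyMeasurable]

theorem OU_cell (ρ : ℝ) (u : Fin m → κ → ℝ) (hu : Frame u) (j : Fin m) (x : κ → ℝ) :
    OU ρ (fun y => cellF j (xi u y)) x = QQ ρ j (xi u x) := by
  unfold QQ OU
  simp_rw [Law_xi_lin]
  exact Law_integral_comp (measurePreserving_xi u hu)
    (F := fun y => cellF j (ρ • xi u x + Real.sqrt (1 - ρ ^ 2) • y))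
    ((Law_cell_meas j).comp (by fun_prop))

theorem sg_cell (ρ : ℝ) (u : Fin m → κ → ℝ) (hu : Frame u) (j : Fin m) :
    sg ρ (fun y => cellF j (xi u y)) (fun y => cellF j (xi u y)) = sg ρ (cellF j) (cellF j) := by
  unfold sg
  simp_rw [Law_xi_lin]
  have h := (measurePreserving_xi u hu).prod (measurePreserving_xi u hu)
  exact Law_integral_comp h
    (F := fun p : (Fin m → ℝ) × (Fin m → ℝ) =>
      cellF j p.1 * cellF j (ρ • p.1 + Real.sqrt (1 - ρ ^ 2) • p.2))
    (((Law_cell_meas j).comp measurable_fst).mul ((Law_cell_meas j).comp (by fun_prop)))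

theorem sg_inl (ρ : ℝ) (f h : (κ → ℝ) → ℝ) (hf : Measurable f) (hh : Measurable h) :
    sg ρ (fun x : κ ⊕ Unit → ℝ => f (fun i => x (Sum.inl i)))
      (fun x : κ ⊕ Unit → ℝ => h (fun i => x (Sum.inl i))) = sg ρ f h := by
  unfold sg
  have h0 := (measurePreserving_inl (κ := κ)).prod (measurePreserving_inl (κ := κ))
  exact Law_integral_comp h0
    (F := fun p : (κ → ℝ) × (κ → ℝ) =>
      f p.1 * h (ρ • p.1 + Real.sqrt (1 - ρ ^ 2) • p.2))
    ((hf.comp measurable_fst).mul (hh.comp (by fun_prop)))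

end law

end Pool.H65.PT
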