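import Pool.Agent.Helper65.PT.Defs
import Pool.Agent.Helper65.PT.Pmo
import Pool.Agent.Helper65.PT.Law
import Pool.Agent.Helper65.PT.Cam

set_option autoImplicit false

open MeasureTheory ProbabilityTheory Pool.H65.PS

namespace Pool.H65.PT

section dla

variable {m : ℕ}

lemma dla_swap (j k : Fin m) (G : (Fin m → ℝ) → ℝ) :
    ∫ y, G (fun i => y (Equiv.swap j k i)) ∂(gam (Fin m)) = ∫ y, G y ∂(gam (Fin m)) := by
  have h := measurePreserving_piCongrLeft (fun _ : Fin m => gaussianReal 0 1) (Equiv.swap j k)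
  have h2 := h.integral_comp' G
  unfold gam
  rw [← h2]
  refine integral_congr_ae (Filter.Eventually.of_forall fun y => ?_)
  simp only
  congr 1
  funext i
  rw [MeasurableEquiv.coe_piCongrLeft, Equiv.piCongrLeft_apply]
  simp [Equiv.symm_swap]

lemma dla_dot_meas (v : Fin m → ℝ) : Measurable (fun x : Fin m → ℝ => dot v x) := by
  unfold dot
  exact Finset.measurable_sum _ fun i _ => (measurable_pi_apply i).const_mul _

lemma dla_exp_int (v : Fin m → ℝ) :
    Integrable (fun x => Real.exp (dot v x)) (gam (Fin m)) := by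
  have h := gam_map_add v
  have h1 : ((gam (Fin m)).map (fun x => x + v)) Set.univ = 1 := by
    rw [Measure.map_apply (by fun_prop) MeasurableSet.univ]
    simp
  rw [h, withDensity_apply _ MeasurableSet.univ, Measure.restrict_univ] at h1
  have h2 : Integrable (fun x => Real.exp (dot v x - dot v v / 2)) (gam (Fin m)) := by
    refine ⟨?_, ?_⟩
    · exact (((dla_dot_meas v).sub_const _).exp).aestronglyMeasurable
    · rw [hasFiniteIntegral_iff_ofReal (Filter.Eventually.of_forall fun x => (Real.exp_pos _).le),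
        h1]
      exact ENNReal.one_lt_top
  have h3 := h2.mul_const (Real.exp (dot v v / 2))
  refine h3.congr (Filter.Eventually.of_forall fun x => ?_)
  simp only
  rw [← Real.exp_add]
  congr 1
  ring

lemma dla_dot_swap (v y : Fin m → ℝ) (j k : Fin m) :
    dot v (fun i => y (Equiv.swap j k i)) = dot v y - (v k - v j) * (y k - y j) := by
  classical
  by_cases hjk : j = k
  · subst hjk
    simp [dot]
  · unfold dot
    have hjk' : k ≠ j := fun h => hjk h.symm
    rw [← Finset.add_sum_erase Finset.univ _ (Finset.mem_univ j),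
      ← Finset.add_sum_erase (Finset.univ.erase j) _ (Finset.mem_erase.2 ⟨hjk', Finset.mem_univ k⟩),
      ← Finset.add_sum_erase Finset.univ (fun i => v i * y i) (Finset.mem_univ j),
      ← Finset.add_sum_erase (Finset.univ.erase j) (fun i => v i * y i)
        (Finset.mem_erase.2 ⟨hjk', Finset.mem_univ k⟩)]
    have h : ∑ x ∈ (Finset.univ.erase j).erase k, v x * y (Equiv.swap j k x) =
        ∑ x ∈ (Finset.univ.erase j).erase k, v x * y x := by
      refine Finset.sum_congr rfl fun x hx => ?_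
      rw [Finset.mem_erase, Finset.mem_erase] at hx
      rw [Equiv.swap_apply_of_ne_of_ne hx.2.1 hx.1]
    rw [h]
    simp only [Equiv.swap_apply_left, Equiv.swap_apply_right]
    ring

lemma dla_cell_swap (c : ℝ) (y : Fin m → ℝ) (j k : Fin m) :
    cellF j (c • y) = cellF k (c • (fun i => y (Equiv.swap j k i))) := by
  classical
  unfold cellF
  have : (∀ l, l ≠ j → (c • y) l < (c • y) j) ↔
      (∀ l, l ≠ k → (c • (fun i => y (Equiv.swap j k i))) l <
        (c • (fun i => y (Equiv.swap j k i))) k) := by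
    constructor
    · intro h l hl
      have h1 : Equiv.swap j k l ≠ j := by
        intro h2
        have h3 : l = Equiv.swap j k j := by
          have h4 := Equiv.swap_apply_self j k l
          rw [h2] at h4
          exact h4.symm
        rw [Equiv.swap_apply_left] at h3
        exact hl h3
      have := h _ h1
      simpa [Pi.smul_apply, Equiv.swap_apply_right] using this
    · intro h l hl
      have h1 : Equiv.swap j k l ≠ k := by
        intro h2
        have h3 : l = Equiv.swap j k k := by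
          have h4 := Equiv.swap_apply_self j k l
          rw [h2] at h4
          exact h4.symm
        rw [Equiv.swap_apply_right] at h3
        exact hl h3
      have := h _ h1
      simpa [Pi.smul_apply, Equiv.swap_apply_right, Equiv.swap_apply_self] using this
  simp only [this]

lemma dla_QQ_eq (ρ : ℝ) (h1 : ρ ^ 2 < 1) (ξ : Fin m → ℝ) (j k : Fin m) :
    QQ ρ j ξ = ∫ y, cellF k (ρ • ξ + Real.sqrt (1 - ρ ^ 2) • y)
      * Real.exp (-(ρ * (ξ k - ξ j)
        * ((ρ • ξ + Real.sqrt (1 - ρ ^ 2) • y) k - (ρ • ξ + Real.sqrt (1 - ρ ^ 2) • y) j)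
          / (1 - ρ ^ 2))) ∂(gam (Fin m)) := by
  have hs : 0 < 1 - ρ ^ 2 := by linarith
  set σ := Real.sqrt (1 - ρ ^ 2) with hσ
  have hσ0 : 0 < σ := Real.sqrt_pos.2 hs
  have hσ2 : σ ^ 2 = 1 - ρ ^ 2 := Real.sq_sqrt hs.le
  set v : Fin m → ℝ := (ρ / σ) • ξ with hv
  have hY : ∀ y : Fin m → ℝ, ρ • ξ + σ • y = σ • (y + v) := by
    intro y
    rw [hv, smul_add, smul_smul, mul_div_cancel₀ _ hσ0.ne', add_comm]
  have e1 : QQ ρ j ξ = ∫ y, cellF j (σ • (y + v)) ∂(gam (Fin m)) := by
    unfold QQ OU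
    simp only [← hσ, hY]
  have hmj : Measurable (fun x : Fin m → ℝ => cellF j (σ • x)) :=
    (cellF_measurable j).comp (measurable_const_smul σ)
  have hmk : Measurable (fun x : Fin m → ℝ => cellF k (σ • x)) :=
    (cellF_measurable k).comp (measurable_const_smul σ)
  have e2 := cameron_martin v (fun x => cellF j (σ • x)) hmj
  have e3 := dla_swap j k (fun y => Real.exp (dot v y - dot v v / 2) *
    (Real.exp (-((v k - v j) * (y k - y j))) * cellF k (σ • y)))
  have hme : Measurable (fun y : Fin m → ℝ =>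
      Real.exp (-((v k - v j) * (y k - y j))) * cellF k (σ • y)) := by
    refine Measurable.mul ?_ hmk
    exact ((((measurable_pi_apply k).sub (measurable_pi_apply j)).const_mul _).neg).exp
  have e4 := cameron_martin v (fun y => Real.exp (-((v k - v j) * (y k - y j))) *
    cellF k (σ • y)) hme
  rw [e1, e2]
  have e5 : ∀ y : Fin m → ℝ, Real.exp (dot v y - dot v v / 2) * cellF j (σ • y) =
      (fun y => Real.exp (dot v y - dot v v / 2) *
        (Real.exp (-((v k - v j) * (y k - y j))) * cellF k (σ • y)))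
        (fun i => y (Equiv.swap j k i)) := by
    intro y
    simp only
    rw [dla_dot_swap, dla_cell_swap σ y j k, Equiv.swap_apply_left, Equiv.swap_apply_right,
      ← mul_assoc, ← Real.exp_add]
    congr 2
    ring
  rw [integral_congr_ae (Filter.Eventually.of_forall e5), e3, ← e4]
  refine integral_congr_ae (Filter.Eventually.of_forall fun y => ?_)
  simp only
  rw [hY y, mul_comm]
  congr 2
  simp only [Pi.smul_apply, smul_eq_mul, hv, Pi.add_apply]
  rw [← hσ2]
  field_simp

lemma dla_int1 (ρ : ℝ) (ξ : Fin m → ℝ) (k : Fin m) :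
    Integrable (fun y : Fin m → ℝ => cellF k (ρ • ξ + Real.sqrt (1 - ρ ^ 2) • y))
      (gam (Fin m)) := by
  refine Integrable.of_bound ?_ 1 (Filter.Eventually.of_forall fun y => ?_)
  · refine Measurable.aestronglyMeasurable ?_
    exact (cellF_measurable k).comp ((measurable_const_smul _).const_add _)
  · rw [Real.norm_eq_abs, abs_of_nonneg (cellF_nonneg _ _)]
    exact cellF_le_one _ _

lemma dla_int2 (ρ : ℝ) (ξ : Fin m → ℝ) (j k : Fin m) (C : ℝ) :
    Integrable (fun y : Fin m → ℝ => cellF k (ρ • ξ + Real.sqrt (1 - ρ ^ 2) • y)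
      * Real.exp (-(C
        * ((ρ • ξ + Real.sqrt (1 - ρ ^ 2) • y) k - (ρ • ξ + Real.sqrt (1 - ρ ^ 2) • y) j)
          / (1 - ρ ^ 2)))) (gam (Fin m)) := by
  classical
  set σ := Real.sqrt (1 - ρ ^ 2) with hσ
  set v : Fin m → ℝ := fun i => (-(C * σ / (1 - ρ ^ 2))) * ((if i = k then 1 else 0) -
    (if i = j then 1 else 0)) with hv
  have h1 := (dla_exp_int v).const_mul (Real.exp (-(C * (ρ * ξ k - ρ * ξ j) / (1 - ρ ^ 2))))
  have hdot : ∀ y : Fin m → ℝ, dot v y = (-(C * σ / (1 - ρ ^ 2))) * (y k - y j) := by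
    intro y
    simp only [dot, hv, mul_assoc, sub_mul, mul_sub, Finset.sum_sub_distrib, ite_mul, one_mul,
      zero_mul, mul_ite, mul_zero, Finset.sum_ite_eq', Finset.mem_univ, if_true]
  have h2 : Integrable (fun y : Fin m → ℝ => Real.exp (-(C
        * ((ρ • ξ + σ • y) k - (ρ • ξ + σ • y) j) / (1 - ρ ^ 2)))) (gam (Fin m)) := by
    refine h1.congr (Filter.Eventually.of_forall fun y => ?_)
    simp only [hdot]
    rw [← Real.exp_add]
    congr 1
    simp only [Pi.add_apply, Pi.smul_apply, smul_eq_mul]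
    ring
  refine h2.bdd_mul (c := 1) ?_ (Filter.Eventually.of_forall fun y => ?_)
  · refine Measurable.aestronglyMeasurable ?_
    exact (cellF_measurable k).comp ((measurable_const_smul _).const_add _)
  · rw [Real.norm_eq_abs, abs_of_nonneg (cellF_nonneg _ _)]
    exact cellF_le_one _ _

/-- the basic formula: `k` is a maximal coordinate of `ξ`. -/
theorem QQ_diff (ρ : ℝ) (h0 : 0 ≤ ρ) (h1 : ρ ≤ 1 / 2) (ξ : Fin m → ℝ) (j k : Fin m) :
    QQ ρ k ξ - QQ ρ j ξ = ∫ y, cellF k (ρ • ξ + Real.sqrt (1 - ρ ^ 2) • y)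
      * (1 - Real.exp (-(ρ * (ξ k - ξ j)
        * ((ρ • ξ + Real.sqrt (1 - ρ ^ 2) • y) k - (ρ • ξ + Real.sqrt (1 - ρ ^ 2) • y) j)
          / (1 - ρ ^ 2)))) ∂(gam (Fin m)) := by
  have hρ : ρ ^ 2 < 1 := by nlinarith
  rw [dla_QQ_eq ρ hρ ξ j k]
  have e1 : QQ ρ k ξ = ∫ y, cellF k (ρ • ξ + Real.sqrt (1 - ρ ^ 2) • y) ∂(gam (Fin m)) := rfl
  rw [e1, ← integral_sub (dla_int1 ρ ξ k) (dla_int2 ρ ξ j k _)]
  refine integral_congr_ae (Filter.Eventually.of_forall fun y => ?_)
  simp only
  ring

lemma dla_half (x : ℝ) (hx : 0 ≤ x) : 1 / 2 * min 1 x ≤ 1 - Real.exp (-x) := by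
  rcases le_total x 1 with h | h
  · rw [min_eq_right h]
    have h1 : Real.exp (-x) ≤ 1 / (1 + x) := by
      rw [Real.exp_neg, ← one_div]
      refine one_div_le_one_div_of_le (by linarith) ?_
      linarith [Real.add_one_le_exp x]
    have h2 : 1 / (1 + x) ≤ 1 - 1 / 2 * x := by
      rw [div_le_iff₀ (by linarith)]
      nlinarith
    linarith
  · rw [min_eq_left h]
    have h1 : Real.exp (-x) ≤ Real.exp (-1) := Real.exp_le_exp.2 (by linarith)
    have h2 : Real.exp (-1) ≤ 1 / 2 := by
      rw [Real.exp_neg, ← one_div]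
      refine one_div_le_one_div_of_le (by norm_num) ?_
      linarith [Real.add_one_le_exp (1 : ℝ)]
    linarith

lemma dla_pos (s : Set ℝ) (hs : IsOpen s) (hne : s.Nonempty) :
    0 < (gaussianReal 0 1).real s := by
  have : Measure.IsOpenPosMeasure (gaussianReal 0 1) :=
    (gaussianReal_absolutelyContinuous' 0 one_ne_zero).isOpenPosMeasure
  rw [Measure.real, ENNReal.toReal_pos_iff]
  exact ⟨hs.measure_pos _ hne, measure_lt_top _ _⟩

theorem QQ_low (hm : 2 ≤ m) : ∃ c : ℝ, 0 < c ∧ ∀ (ρ : ℝ), 0 ≤ ρ → ρ ≤ 1 / 2 → ∀ (ξ : Fin m → ℝ)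
    (j k : Fin m), (∀ l, ξ l ≤ ξ k) →
    c * min 1 (ρ * (ξ k - ξ j)) ≤ QQ ρ k ξ - QQ ρ j ξ := by
  classical
  set p : ℝ := min ((gaussianReal 0 1).real (Set.Ioi 1)) ((gaussianReal 0 1).real (Set.Iio 0))
    with hp
  have hp0 : 0 < p := lt_min (dla_pos _ isOpen_Ioi ⟨2, by norm_num⟩)
    (dla_pos _ isOpen_Iio ⟨-1, by norm_num⟩)
  refine ⟨p ^ m / 2, by positivity, ?_⟩
  intro ρ h0 h1 ξ j k hmax
  rw [QQ_diff ρ h0 h1 ξ j k]
  by_cases hjk : j = k
  · subst hjk
    simp
  have hρ : ρ ^ 2 < 1 := by nlinarith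
  have hs : 0 < 1 - ρ ^ 2 := by linarith
  set σ := Real.sqrt (1 - ρ ^ 2) with hσ
  have hσ0 : 0 < σ := Real.sqrt_pos.2 hs
  have hσ2 : σ ^ 2 = 1 - ρ ^ 2 := Real.sq_sqrt hs.le
  have hσ1 : σ ≤ 1 := by
    rw [hσ]
    exact Real.sqrt_le_one.2 (by nlinarith [sq_nonneg ρ])
  set δ := ρ * (ξ k - ξ j) with hδ
  have hδ0 : 0 ≤ δ := mul_nonneg h0 (by linarith [hmax j])
  -- the box
  set B : Fin m → Set ℝ := fun l => if l = k then Set.Ioi 1 else Set.Iio 0 with hB
  have hBm : ∀ l, MeasurableSet (B l) := by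
    intro l
    simp only [hB]
    split_ifs
    · exact measurableSet_Ioi
    · exact measurableSet_Iio
  have hbox : p ^ m ≤ (gam (Fin m)).real (Set.pi Set.univ B) := by
    have : (gam (Fin m)).real (Set.pi Set.univ B) = ∏ l, (gaussianReal 0 1).real (B l) := by
      rw [Measure.real, gam, Measure.pi_pi, ENNReal.toReal_prod]
      rfl
    rw [this]
    have h2 : p ^ m = ∏ _l : Fin m, p := by simp
    rw [h2]
    refine Finset.prod_le_prod (fun _ _ => hp0.le) fun l _ => ?_
    simp only [hB]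
    split_ifs
    · exact min_le_left _ _
    · exact min_le_right _ _
  have hint : Integrable (fun y : Fin m → ℝ => cellF k (ρ • ξ + σ • y)
      * (1 - Real.exp (-(δ
        * ((ρ • ξ + σ • y) k - (ρ • ξ + σ • y) j) / (1 - ρ ^ 2))))) (gam (Fin m)) := by
    have := (dla_int1 ρ ξ k).sub (dla_int2 ρ ξ j k δ)
    refine this.congr (Filter.Eventually.of_forall fun y => ?_)
    simp only [Pi.sub_apply]
    ring
  have hmain : ∀ y : Fin m → ℝ, (Set.pi Set.univ B).indicator
      (fun _ => (1 / 2 * min 1 δ)) y ≤ cellF k (ρ • ξ + σ • y)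
      * (1 - Real.exp (-(δ
        * ((ρ • ξ + σ • y) k - (ρ • ξ + σ • y) j) / (1 - ρ ^ 2)))) := by
    intro y
    by_cases hy : y ∈ Set.pi Set.univ B
    · rw [Set.indicator_of_mem hy]
      have hyk : 1 < y k := by
        have := hy k (Set.mem_univ k)
        simpa [hB] using this
      have hyl : ∀ l, l ≠ k → y l < 0 := by
        intro l hl
        have := hy l (Set.mem_univ l)
        simpa [hB, hl] using this
      have hcell : cellF k (ρ • ξ + σ • y) = 1 := by
        unfold cellF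
        rw [if_pos]
        intro l hl
        simp only [Pi.add_apply, Pi.smul_apply, smul_eq_mul]
        have a1 : ρ * ξ l ≤ ρ * ξ k := mul_le_mul_of_nonneg_left (hmax l) h0
        have a2 : σ * y l < σ * y k := mul_lt_mul_of_pos_left (by linarith [hyl l hl]) hσ0
        linarith
      rw [hcell, one_mul]
      have hX : δ ≤ δ * ((ρ • ξ + σ • y) k - (ρ • ξ + σ • y) j) / (1 - ρ ^ 2) := by
        rw [le_div_iff₀ hs]
        refine mul_le_mul_of_nonneg_left ?_ hδ0
        simp only [Pi.add_apply, Pi.smul_apply, smul_eq_mul]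
        have a1 : ρ * ξ j ≤ ρ * ξ k := mul_le_mul_of_nonneg_left (hmax j) h0
        have a2 : σ * 1 ≤ σ * (y k - y j) :=
          mul_le_mul_of_nonneg_left (by linarith [hyl j hjk]) hσ0.le
        have a3 : 1 - ρ ^ 2 ≤ σ := by
          rw [← hσ2]
          nlinarith
        linarith
      refine (dla_half δ hδ0).trans ?_
      have := Real.exp_le_exp.2 (neg_le_neg hX)
      linarith
    · rw [Set.indicator_of_notMem hy]
      by_cases hc : ∀ l, l ≠ k → (ρ • ξ + σ • y) l < (ρ • ξ + σ • y) k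
      · refine mul_nonneg (cellF_nonneg _ _) ?_
        have h2 : 0 ≤ δ * ((ρ • ξ + σ • y) k - (ρ • ξ + σ • y) j) / (1 - ρ ^ 2) := by
          refine div_nonneg (mul_nonneg hδ0 ?_) hs.le
          linarith [hc j hjk]
        have := Real.exp_le_one_iff.2 (neg_nonpos.2 h2)
        linarith
      · have : cellF k (ρ • ξ + σ • y) = 0 := by
          unfold cellF
          rw [if_neg hc]
        rw [this, zero_mul]
  have hI := integral_mono ((integrable_const (1 / 2 * min 1 δ)).indicator
    (MeasurableSet.univ_pi hBm)) hint hmain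
  rw [integral_indicator (MeasurableSet.univ_pi hBm), setIntegral_const, smul_eq_mul] at hI
  refine le_trans ?_ hI
  have h3 : 0 ≤ 1 / 2 * min 1 δ := by
    have : 0 ≤ min 1 δ := le_min zero_le_one hδ0
    linarith
  calc p ^ m / 2 * min 1 δ = p ^ m * (1 / 2 * min 1 δ) := by ring
    _ ≤ _ := mul_le_mul_of_nonneg_right hbox h3

end dla

end Pool.H65.PT
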