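import Pool.Agent.Helper65.PT.Defs
import Pool.Agent.Helper65.PT.Dla

set_option autoImplicit false

open MeasureTheory ProbabilityTheory Pool.H65.PS

namespace Pool.H65.PT

theorem dlb_exp (X : ℝ) (hX : 0 ≤ X) : X - X ^ 2 / 2 ≤ 1 - Real.exp (-X) := by
  have h1 : 1 + X + X ^ 2 / 2 ≤ Real.exp X := Real.quadratic_le_exp_of_nonneg hX
  have h2 : (0 : ℝ) < Real.exp (-X) := Real.exp_pos _
  have h3 : Real.exp (-X) * Real.exp X = 1 := by
    rw [← Real.exp_add, neg_add_cancel, Real.exp_zero]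
  have h4 : Real.exp (-X) * (1 + X + X ^ 2 / 2) ≤ 1 :=
    (mul_le_mul_of_nonneg_left h1 h2.le).trans h3.le
  have h5 : 0 < 1 + X + X ^ 2 / 2 := by positivity
  have h6 : 1 ≤ (1 - X + X ^ 2 / 2) * (1 + X + X ^ 2 / 2) := by
    nlinarith [sq_nonneg (X ^ 2)]
  have h7 : Real.exp (-X) ≤ 1 - X + X ^ 2 / 2 := by
    refine le_of_mul_le_mul_right ?_ h5
    linarith
  linarith

theorem dlb_int_sq {m : ℕ} (i : Fin m) :
    Integrable (fun y : Fin m → ℝ => y i ^ 2) (gam (Fin m)) := by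
  refine integrable_gam _ 1 2 (by fun_prop) fun g => ?_
  rw [abs_of_nonneg (sq_nonneg _), one_mul]
  have h := norm_le_pi_norm g i
  rw [Real.norm_eq_abs] at h
  rw [← sq_abs]
  have h0 := abs_nonneg (g i)
  have h1 := norm_nonneg g
  nlinarith

/-- the pointwise lower bound. -/
theorem dlb_point {m : ℕ} (ρ : ℝ) (h0 : 0 ≤ ρ) (h1 : ρ ≤ 1 / 2) (ξ : Fin m → ℝ) (j k : Fin m)
    (hmax : ∀ l, ξ l ≤ ξ k) (hjk : j ≠ k) (y : Fin m → ℝ) :
    ρ * (ξ k - ξ j) * Real.sqrt (1 - ρ ^ 2) * (cellF k y * y k - cellF k y * y j)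
      - (ρ * (ξ k - ξ j)) ^ 2 * (2 * (ρ * (ξ k - ξ j)) ^ 2 + 4 * (y k ^ 2 + y j ^ 2)) ≤
    cellF k (ρ • ξ + Real.sqrt (1 - ρ ^ 2) • y)
      * (1 - Real.exp (-(ρ * (ξ k - ξ j)
        * ((ρ • ξ + Real.sqrt (1 - ρ ^ 2) • y) k - (ρ • ξ + Real.sqrt (1 - ρ ^ 2) • y) j)
          / (1 - ρ ^ 2)))) := by
  have hρ : ρ ^ 2 ≤ 1 / 4 := by nlinarith
  have hs : 0 < 1 - ρ ^ 2 := by linarith
  set σ := Real.sqrt (1 - ρ ^ 2) with hσ
  have hσ0 : 0 < σ := Real.sqrt_pos.2 hs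
  have hσ2 : σ ^ 2 = 1 - ρ ^ 2 := Real.sq_sqrt hs.le
  set d := ρ * (ξ k - ξ j) with hd
  have hd0 : 0 ≤ d := mul_nonneg h0 (by linarith [hmax j])
  have hY : (ρ • ξ + σ • y) k - (ρ • ξ + σ • y) j = d + σ * (y k - y j) := by
    simp only [Pi.add_apply, Pi.smul_apply, smul_eq_mul, hd]
    ring
  rw [hY]
  have hcc : (∀ l, l ≠ k → y l < y k) →
      ∀ l, l ≠ k → (ρ • ξ + σ • y) l < (ρ • ξ + σ • y) k := by
    intro h l hl
    simp only [Pi.add_apply, Pi.smul_apply, smul_eq_mul]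
    have a1 : ρ * ξ l ≤ ρ * ξ k := mul_le_mul_of_nonneg_left (hmax l) h0
    have a2 : σ * y l < σ * y k := mul_lt_mul_of_pos_left (h l hl) hσ0
    linarith
  have hsq : 0 ≤ d ^ 2 * (2 * d ^ 2 + 4 * (y k ^ 2 + y j ^ 2)) := by positivity
  by_cases hc : ∀ l, l ≠ k → (ρ • ξ + σ • y) l < (ρ • ξ + σ • y) k
  · have hcell : cellF k (ρ • ξ + σ • y) = 1 := by
      unfold cellF
      rw [if_pos hc]
    rw [hcell, one_mul]
    set e := d + σ * (y k - y j) with he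
    have he0 : 0 < e := by
      have := hc j hjk
      rw [← hY]
      linarith
    set X := d * e / (1 - ρ ^ 2) with hX
    have hX0 : 0 ≤ X := div_nonneg (mul_nonneg hd0 he0.le) hs.le
    have hde : 0 ≤ d * e := mul_nonneg hd0 he0.le
    have hX1 : d * e ≤ X := by
      rw [hX, le_div_iff₀ hs]
      nlinarith [sq_nonneg ρ]
    have hX2 : X ≤ 4 / 3 * (d * e) := by
      rw [hX, div_le_iff₀ hs]
      nlinarith
    have hXX : X ^ 2 / 2 ≤ (d * e) ^ 2 := by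
      have : X ^ 2 ≤ (4 / 3 * (d * e)) ^ 2 := pow_le_pow_left₀ hX0 hX2 2
      nlinarith [sq_nonneg (d * e)]
    have hee : e ^ 2 ≤ 2 * d ^ 2 + 4 * (y k ^ 2 + y j ^ 2) := by
      have e1 : e ^ 2 ≤ 2 * d ^ 2 + 2 * (σ * (y k - y j)) ^ 2 := by
        rw [he]
        nlinarith [sq_nonneg (d - σ * (y k - y j))]
      have e2 : (σ * (y k - y j)) ^ 2 ≤ (y k - y j) ^ 2 := by
        rw [mul_pow, hσ2]
        nlinarith [sq_nonneg (y k - y j), sq_nonneg ρ, mul_nonneg (sq_nonneg ρ)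
          (sq_nonneg (y k - y j))]
      nlinarith [sq_nonneg (y k + y j)]
    have hm1 := dlb_exp X hX0
    have hm2 : (d * e) ^ 2 ≤ d ^ 2 * (2 * d ^ 2 + 4 * (y k ^ 2 + y j ^ 2)) := by
      rw [mul_pow]
      exact mul_le_mul_of_nonneg_left hee (sq_nonneg d)
    have hm3 : d * σ * (cellF k y * y k - cellF k y * y j) ≤ d * e := by
      by_cases hy : ∀ l, l ≠ k → y l < y k
      · have hcy : cellF k y = 1 := by
          unfold cellF
          rw [if_pos hy]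
        rw [hcy, one_mul, one_mul, he]
        nlinarith
      · have hcy : cellF k y = 0 := by
          unfold cellF
          rw [if_neg hy]
        rw [hcy, zero_mul, zero_mul, sub_zero, mul_zero]
        exact hde
    linarith
  · have hcell : cellF k (ρ • ξ + σ • y) = 0 := by
      unfold cellF
      rw [if_neg hc]
    have hcy : cellF k y = 0 := by
      unfold cellF
      rw [if_neg fun h => hc (hcc h)]
    rw [hcell, hcy, zero_mul, zero_mul, zero_mul, sub_zero, mul_zero]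
    linarith

theorem QQ_low2 {m : ℕ} (hm : 2 ≤ m) : ∃ C : ℝ, 0 ≤ C ∧ ∀ (ρ : ℝ), 0 ≤ ρ → ρ ≤ 1 / 2 →
    ∀ (ξ : Fin m → ℝ) (j k : Fin m), (∀ l, ξ l ≤ ξ k) →
    ρ * (ξ k - ξ j) * (am m - C * ρ * (1 + ∑ l, ξ l ^ 2)) ≤ QQ ρ k ξ - QQ ρ j ξ := by
  set S : ℝ := ∑ i : Fin m, ∫ y, y i ^ 2 ∂(gam (Fin m)) with hS
  have hSi : ∀ i : Fin m, 0 ≤ ∫ y, y i ^ 2 ∂(gam (Fin m)) := fun i =>
    integral_nonneg fun y => sq_nonneg _
  have hS0 : 0 ≤ S := Finset.sum_nonneg fun i _ => hSi i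
  have hSle : ∀ i : Fin m, ∫ y, y i ^ 2 ∂(gam (Fin m)) ≤ S := fun i =>
    Finset.single_le_sum (f := fun i : Fin m => ∫ y, y i ^ 2 ∂(gam (Fin m)))
      (fun i _ => hSi i) (Finset.mem_univ i)
  have ha := am_pos hm
  refine ⟨am m + 2 + 8 * S, by linarith, ?_⟩
  intro ρ h0 h1 ξ j k hmax
  set T := 1 + ∑ l, ξ l ^ 2 with hT
  have hsum0 : 0 ≤ ∑ l, ξ l ^ 2 := Finset.sum_nonneg fun l _ => sq_nonneg _
  have hT1 : 1 ≤ T := by linarith
  have hd0' : 0 ≤ ξ k - ξ j := sub_nonneg.2 (hmax j)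
  have hd0 : 0 ≤ ρ * (ξ k - ξ j) := mul_nonneg h0 hd0'
  have hΔ0 : 0 ≤ QQ ρ k ξ - QQ ρ j ξ := by
    obtain ⟨c, hc, h⟩ := QQ_low hm
    exact (mul_nonneg hc.le (le_min zero_le_one hd0)).trans (h ρ h0 h1 ξ j k hmax)
  by_cases hρT : 1 < ρ * T
  · refine le_trans (mul_nonpos_of_nonneg_of_nonpos hd0 ?_) hΔ0
    nlinarith
  rw [not_lt] at hρT
  by_cases hjk : j = k
  · subst hjk
    rw [sub_self, sub_self, mul_zero, zero_mul]
  have hρ : ρ ^ 2 ≤ 1 / 4 := by nlinarith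
  have hs : 0 < 1 - ρ ^ 2 := by linarith
  have hdT : ξ k - ξ j ≤ T := by
    have a1 : ξ k ^ 2 ≤ ∑ l, ξ l ^ 2 :=
      Finset.single_le_sum (f := fun l => ξ l ^ 2) (fun l _ => sq_nonneg _) (Finset.mem_univ k)
    have a2 : ξ j ^ 2 ≤ ∑ l, ξ l ^ 2 :=
      Finset.single_le_sum (f := fun l => ξ l ^ 2) (fun l _ => sq_nonneg _) (Finset.mem_univ j)
    nlinarith [sq_nonneg (ξ k - 1), sq_nonneg (ξ j + 1)]
  have hdT2 : ρ * (ξ k - ξ j) ≤ ρ * T := mul_le_mul_of_nonneg_left hdT h0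
  set d := ρ * (ξ k - ξ j) with hd
  set σ := Real.sqrt (1 - ρ ^ 2) with hσ
  have hσ0 : 0 < σ := Real.sqrt_pos.2 hs
  have hσ2 : σ ^ 2 = 1 - ρ ^ 2 := Real.sq_sqrt hs.le
  have hσ1 : 1 - ρ ≤ σ := by
    rw [hσ]
    refine Real.le_sqrt_of_sq_le ?_
    nlinarith
  -- integrate the pointwise bound
  have hmain : d * σ * am m - d ^ 2 * (2 * d ^ 2 + 8 * S) ≤ QQ ρ k ξ - QQ ρ j ξ := by
    rw [QQ_diff ρ h0 h1 ξ j k]
    have hint : Integrable (fun y : Fin m → ℝ => cellF k (ρ • ξ + σ • y)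
        * (1 - Real.exp (-(d
          * ((ρ • ξ + σ • y) k - (ρ • ξ + σ • y) j) / (1 - ρ ^ 2))))) (gam (Fin m)) := by
      have := (dla_int1 ρ ξ k).sub (dla_int2 ρ ξ j k d)
      refine this.congr (Filter.Eventually.of_forall fun y => ?_)
      simp only [Pi.sub_apply]
      ring
    have i1 : Integrable (fun y : Fin m → ℝ => cellF k y * y k - cellF k y * y j)
        (gam (Fin m)) := (Pmo_int_cell_mul k k).sub (Pmo_int_cell_mul k j)
    have i2 : Integrable (fun y : Fin m → ℝ => y k ^ 2 + y j ^ 2) (gam (Fin m)) :=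
      (dlb_int_sq k).add (dlb_int_sq j)
    have i3 : Integrable (fun y : Fin m → ℝ => 2 * d ^ 2 + 4 * (y k ^ 2 + y j ^ 2))
        (gam (Fin m)) := (integrable_const _).add (i2.const_mul 4)
    have hle := integral_mono ((i1.const_mul (d * σ)).sub (i3.const_mul (d ^ 2))) hint
      (dlb_point ρ h0 h1 ξ j k hmax hjk)
    refine le_trans ?_ hle
    simp only [Pi.sub_apply]
    have j1 : ∫ y : Fin m → ℝ, (2 * d ^ 2 + 4 * (y k ^ 2 + y j ^ 2)) ∂(gam (Fin m)) =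
        2 * d ^ 2 + 4 * (∫ y, y k ^ 2 ∂(gam (Fin m)) + ∫ y, y j ^ 2 ∂(gam (Fin m))) := by
      rw [integral_add (integrable_const _) (i2.const_mul 4), integral_const,
        integral_const_mul, integral_add (dlb_int_sq k) (dlb_int_sq j)]
      simp
    rw [integral_sub (i1.const_mul (d * σ)) (i3.const_mul (d ^ 2)), integral_const_mul,
      integral_const_mul, integral_sub (Pmo_int_cell_mul k k) (Pmo_int_cell_mul k j),
      cellF_moment hm, cellF_moment hm, j1,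
      if_pos rfl, if_neg (Ne.symm hjk)]
    have b1 := hSle k
    have b2 := hSle j
    have b3 : 0 ≤ d ^ 2 := sq_nonneg d
    nlinarith [mul_le_mul_of_nonneg_left b1 b3, mul_le_mul_of_nonneg_left b2 b3]
  refine le_trans ?_ hmain
  have hd1 : d ≤ 1 := hdT2.trans hρT
  have g1 : d * (2 * d ^ 2 + 8 * S) ≤ ρ * T * (2 + 8 * S) := by
    have : 2 * d ^ 2 + 8 * S ≤ 2 + 8 * S := by nlinarith
    exact mul_le_mul hdT2 this (by positivity) (by positivity)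
  have g2 : am m - am m * (ρ * T) ≤ σ * am m := by
    have : 1 - ρ * T ≤ σ := by nlinarith
    nlinarith
  have g3 : am m - (am m + 2 + 8 * S) * ρ * T ≤ σ * am m - d * (2 * d ^ 2 + 8 * S) := by
    linarith
  have g4 := mul_le_mul_of_nonneg_left g3 hd0
  linarith

end Pool.H65.PT
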