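import Pool.Agent.Helper65.PT.Defs
import Pool.Agent.Helper65.PT.Dlb

set_option autoImplicit false

open MeasureTheory ProbabilityTheory Pool.H65.PS

namespace Pool.H65.PT

theorem Dlc_arith (a c1 C N ρ δ S D : ℝ) (ha : 0 < a) (hc1 : 0 < c1) (hC : 0 ≤ C) (hN : 0 < N)
    (hρ : 0 ≤ ρ) (hρ2 : ρ ≤ 1 / 2) (hδ : 0 ≤ δ) (hS : 1 ≤ S) (hδS : δ ≤ S)
    (h1 : c1 * min 1 (ρ * δ) ≤ D) (h2 : ρ * δ * (a - C * ρ * S) ≤ D) (hN1 : 1 ≤ N)
    (K : ℝ) (hK : K = 4 * C * N * (1 + 2 * a / c1) / a + 2 * a / c1 + 1)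
    (c4 : ℝ) (hc4 : c4 = min (a / (2 * N)) c1) :
    (1 - K * ρ * S / (1 + K * ρ * S)) * (2 - 1 / N) * a * ρ * δ + c4 * ρ * min 1 δ ≤ 2 * D := by
  have hS0 : 0 < S := by linarith
  have hac : 0 < 2 * a / c1 := by positivity
  have hKpos : 0 < K := by
    rw [hK]; positivity
  have hK2 : 2 * a / c1 ≤ K := by
    rw [hK]
    have : 0 ≤ 4 * C * N * (1 + 2 * a / c1) / a := by positivity
    linarith
  have hK1 : 4 * C * N * (1 + 2 * a / c1) / a ≤ K := by rw [hK]; linarith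
  set θ : ℝ := K * ρ * S with hθ
  have hθ0 : 0 ≤ θ := by positivity
  have hchi : 1 - θ / (1 + θ) = 1 / (1 + θ) := by
    field_simp
    ring
  rw [hchi]
  have hc4a : c4 ≤ a / (2 * N) := by rw [hc4]; exact min_le_left _ _
  have hc4c : c4 ≤ c1 := by rw [hc4]; exact min_le_right _ _
  have hc40 : 0 < c4 := by rw [hc4]; exact lt_min (by positivity) hc1
  have hmin : min 1 δ ≤ δ := min_le_right _ _
  have hmin1 : min 1 δ ≤ 1 := min_le_left _ _
  have hmin0 : 0 ≤ min 1 δ := le_min zero_le_one hδ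
  have hρδ : 0 ≤ ρ * δ := mul_nonneg hρ hδ
  have h2N : 0 ≤ 2 - 1 / N := by
    have : 1 / N ≤ 1 := by
      rw [div_le_one hN]; exact hN1
    linarith
  have h2N' : 2 - 1 / N ≤ 2 := by
    have : 0 < 1 / N := by positivity
    linarith
  have hinv0 : 0 ≤ 1 / (1 + θ) := by positivity
  have hinv1 : 1 / (1 + θ) ≤ 1 := by
    rw [div_le_one (by positivity)]; linarith
  have hc4ρ : c4 * ρ * min 1 δ ≤ c4 * (ρ * δ) := by
    rw [mul_assoc]
    exact mul_le_mul_of_nonneg_left (mul_le_mul_of_nonneg_left hmin hρ) hc40.le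
  rcases le_or_gt θ (1 + 2 * a / c1) with hcase | hcase
  · -- small θ
    have hCS : C * ρ * S ≤ a / (4 * N) := by
      have e1 : C * ρ * S * K ≤ C * (1 + 2 * a / c1) := by
        have : C * ρ * S * K = C * θ := by rw [hθ]; ring
        rw [this]
        exact mul_le_mul_of_nonneg_left hcase hC
      have e2 : C * (1 + 2 * a / c1) ≤ a / (4 * N) * K := by
        calc C * (1 + 2 * a / c1) = a / (4 * N) * (4 * C * N * (1 + 2 * a / c1) / a) := by
              field_simp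
          _ ≤ a / (4 * N) * K := mul_le_mul_of_nonneg_left hK1 (by positivity)
      exact le_of_mul_le_mul_right (e1.trans e2) hKpos
    have hl : ρ * δ * (a - a / (4 * N)) ≤ D :=
      (mul_le_mul_of_nonneg_left (by linarith) hρδ).trans h2
    have hm : 1 / (1 + θ) * (2 - 1 / N) * a * ρ * δ ≤ (2 - 1 / N) * a * (ρ * δ) := by
      have : 1 / (1 + θ) * (2 - 1 / N) * a * ρ * δ
          = 1 / (1 + θ) * ((2 - 1 / N) * a * (ρ * δ)) := by ring
      rw [this]
      exact mul_le_of_le_one_left (by positivity) hinv1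
    have hc : c4 * (ρ * δ) ≤ a / (2 * N) * (ρ * δ) := mul_le_mul_of_nonneg_right hc4a hρδ
    have e : (2 - 1 / N) * a * (ρ * δ) + a / (2 * N) * (ρ * δ)
        = 2 * (ρ * δ * (a - a / (4 * N))) := by
      field_simp
      ring
    linarith
  · have hθpos : 0 < θ := lt_trans (by positivity) hcase
    rcases le_or_gt (ρ * δ) 1 with hρδ1 | hρδ1
    · have hD : c1 * (ρ * δ) ≤ D := by rwa [min_eq_right hρδ1] at h1
      have hm : 1 / (1 + θ) * (2 - 1 / N) * a * ρ * δ ≤ c1 * (ρ * δ) := by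
        have e1 : 1 / (1 + θ) * (2 - 1 / N) * a ≤ c1 := by
          have e2 : 1 / (1 + θ) * (2 - 1 / N) * a ≤ 1 / (1 + θ) * 2 * a := by
            refine mul_le_mul_of_nonneg_right ?_ ha.le
            exact mul_le_mul_of_nonneg_left h2N' hinv0
          refine e2.trans ?_
          rw [one_div, mul_assoc, inv_mul_le_iff₀ (by positivity)]
          have e3 : 2 * a = 2 * a / c1 * c1 := by field_simp
          nlinarith
        have : 1 / (1 + θ) * (2 - 1 / N) * a * ρ * δ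
            = 1 / (1 + θ) * (2 - 1 / N) * a * (ρ * δ) := by ring
        rw [this]
        exact mul_le_mul_of_nonneg_right e1 hρδ
      have hc : c4 * (ρ * δ) ≤ c1 * (ρ * δ) := mul_le_mul_of_nonneg_right hc4c hρδ
      linarith
    · have hD : c1 ≤ D := by rwa [min_eq_left hρδ1.le, mul_one] at h1
      have hm : 1 / (1 + θ) * (2 - 1 / N) * a * ρ * δ ≤ c1 := by
        have e1 : 1 / (1 + θ) * (2 - 1 / N) * a * ρ * δ
            ≤ 1 / θ * 2 * a * ρ * δ := by
          have f1 : 1 / (1 + θ) ≤ 1 / θ := one_div_le_one_div_of_le hθpos (by linarith)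
          have f2 : 1 / (1 + θ) * (2 - 1 / N) ≤ 1 / θ * 2 :=
            mul_le_mul f1 h2N' h2N (by positivity)
          exact mul_le_mul_of_nonneg_right (mul_le_mul_of_nonneg_right
            (mul_le_mul_of_nonneg_right f2 ha.le) hρ) hδ
        refine e1.trans ?_
        have hρpos : 0 < ρ := by
          rcases hρ.lt_or_eq with h | h
          · exact h
          · rw [← h] at hρδ1; simp at hρδ1; linarith
        have e2 : 1 / θ * 2 * a * ρ * δ = (2 * a / K) * (δ / S) := by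
          rw [hθ]; field_simp
        rw [e2]
        have e3 : δ / S ≤ 1 := by rw [div_le_one hS0]; exact hδS
        have e4 : 2 * a / K ≤ c1 := by
          rw [div_le_iff₀ hKpos]
          rw [div_le_iff₀ hc1] at hK2
          linarith
        calc 2 * a / K * (δ / S) ≤ c1 * 1 := mul_le_mul e4 e3 (by positivity) hc1.le
          _ = c1 := mul_one _
      have hc : c4 * ρ * min 1 δ ≤ c1 := by
        calc c4 * ρ * min 1 δ ≤ c1 * 1 * 1 := by
              refine mul_le_mul (mul_le_mul hc4c (by linarith) hρ hc1.le) hmin1 hmin0 (by linarith)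
          _ = c1 := by ring
      linarith

theorem QQ_comb {m : ℕ} (hm : 2 ≤ m) : ∃ K c4 : ℝ, 0 < K ∧ 0 < c4 ∧ ∀ (ρ : ℝ), 0 ≤ ρ → ρ ≤ 1 / 2 →
    ∀ (ξ : Fin m → ℝ) (j k : Fin m), (∀ l, ξ l ≤ ξ k) →
    (1 - chi K ρ ξ) * (2 - 1 / ((m : ℝ) + 1)) * am m * ρ * (ξ k - ξ j)
      + c4 * ρ * min 1 (ξ k - ξ j) ≤ 2 * (QQ ρ k ξ - QQ ρ j ξ) := by
  obtain ⟨c1, hc1, hlow⟩ := QQ_low hm
  obtain ⟨C, hC, hlow2⟩ := QQ_low2 hm
  have ha : 0 < am m := am_pos hm
  have hN : (0 : ℝ) < (m : ℝ) + 1 := by positivity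
  refine ⟨4 * C * ((m : ℝ) + 1) * (1 + 2 * am m / c1) / am m + 2 * am m / c1 + 1,
    min (am m / (2 * ((m : ℝ) + 1))) c1, by positivity, lt_min (by positivity) hc1, ?_⟩
  intro ρ h0 h1 ξ j k hk
  have hδ : 0 ≤ ξ k - ξ j := sub_nonneg.mpr (hk j)
  have hsum : 0 ≤ ∑ l, ξ l ^ 2 := Finset.sum_nonneg fun l _ => sq_nonneg _
  have hδS : ξ k - ξ j ≤ 1 + ∑ l, ξ l ^ 2 := by
    have hk2 : ξ k ^ 2 ≤ ∑ l, ξ l ^ 2 :=
      Finset.single_le_sum (f := fun l => ξ l ^ 2) (fun l _ => sq_nonneg _) (Finset.mem_univ k)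
    have hj2 : ξ j ^ 2 ≤ ∑ l, ξ l ^ 2 :=
      Finset.single_le_sum (f := fun l => ξ l ^ 2) (fun l _ => sq_nonneg _) (Finset.mem_univ j)
    nlinarith [sq_nonneg (ξ k - 1), sq_nonneg (ξ j + 1)]
  have := Dlc_arith (am m) c1 C ((m : ℝ) + 1) ρ (ξ k - ξ j) (1 + ∑ l, ξ l ^ 2)
    (QQ ρ k ξ - QQ ρ j ξ) ha hc1 hC hN h0 h1 hδ (by linarith) hδS (hlow ρ h0 h1 ξ j k hk)
    (hlow2 ρ h0 h1 ξ j k hk) (by
      have : (0 : ℝ) ≤ m := Nat.cast_nonneg m
      linarith) _ rfl _ rfl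
  exact this

end Pool.H65.PT
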