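import Pool.Agent.Helper65.PT.Defs
import Pool.Agent.Helper65.PT.Clt
import Pool.Agent.Helper65.PS.Tie
import Pool.Agent.Helper65.PS.Dsc

set_option autoImplicit false

open MeasureTheory ProbabilityTheory Pool.H65.PS

namespace Pool.H65.PT

/-- the kernel -/
noncomputable def plm_K (m n : ℕ) (ρ : ℝ) (ω δ : Fin n → Fin m) : ℝ :=
  ∏ i : Fin n, if δ i = ω i then (1 + ((m : ℝ) - 1) * ρ) / m else (1 - ρ) / m

lemma plm_K_nonneg (m n : ℕ) (hm : 2 ≤ m) (ρ : ℝ) (h0 : 0 ≤ ρ) (h1 : ρ ≤ 1)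
    (ω δ : Fin n → Fin m) : 0 ≤ plm_K m n ρ ω δ := by
  have hm' : (2 : ℝ) ≤ m := by exact_mod_cast hm
  refine Finset.prod_nonneg fun i _ => ?_
  split_ifs
  · have : 0 ≤ ((m : ℝ) - 1) * ρ := mul_nonneg (by linarith) h0
    positivity
  · exact div_nonneg (by linarith) (by linarith)

lemma plm_K_symm (m n : ℕ) (ρ : ℝ) (ω δ : Fin n → Fin m) :
    plm_K m n ρ ω δ = plm_K m n ρ δ ω := by
  refine Finset.prod_congr rfl fun i _ => ?_
  simp only [eq_comm]

lemma plm_K_sum (m n : ℕ) (hm : 2 ≤ m) (ρ : ℝ) (ω : Fin n → Fin m) :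
    ∑ δ, plm_K m n ρ ω δ = 1 := by
  have hm' : (m : ℝ) ≠ 0 := by positivity
  have h1 : ∀ a : Fin m, ∑ b : Fin m,
      (if b = a then (1 + ((m : ℝ) - 1) * ρ) / m else (1 - ρ) / m) = 1 := by
    intro a
    have h2 : ∀ b : Fin m, (if b = a then (1 + ((m : ℝ) - 1) * ρ) / m else (1 - ρ) / m) =
        (1 - ρ) / m + if b = a then ρ else 0 := by
      intro b
      split_ifs
      · field_simp
        ring
      · ring
    simp only [h2, Finset.sum_add_distrib, Finset.sum_ite_eq', Finset.mem_univ, if_true,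
      Finset.sum_const, Finset.card_univ, Fintype.card_fin, nsmul_eq_mul]
    field_simp
    ring
  unfold plm_K
  have h3 := Finset.prod_univ_sum (fun _ : Fin n => (Finset.univ : Finset (Fin m)))
    (fun i b => if b = ω i then (1 + ((m : ℝ) - 1) * ρ) / m else (1 - ρ) / m)
  rw [Fintype.piFinset_univ] at h3
  rw [← h3]
  exact Finset.prod_eq_one fun i _ => h1 (ω i)

open Classical in
/-- the number of ties -/
noncomputable def plm_t {m n : ℕ} (ω : Fin n → Fin m) : ℝ :=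
  ∑ k : Fin m, ∑ l : Fin m, if k ≠ l then (if cnt ω k = cnt ω l then (1 : ℝ) else 0) else 0

lemma plm_t_nonneg {m n : ℕ} (ω : Fin n → Fin m) : 0 ≤ plm_t ω := by
  refine Finset.sum_nonneg fun k _ => Finset.sum_nonneg fun l _ => ?_
  split_ifs <;> norm_num

lemma plm_t_ge {m n : ℕ} (ω : Fin n → Fin m) (k l : Fin m) (hkl : k ≠ l)
    (h : cnt ω k = cnt ω l) : 1 ≤ plm_t ω := by
  classical
  have h1 : (1 : ℝ) ≤ ∑ l : Fin m, if k ≠ l then (if cnt ω k = cnt ω l then (1 : ℝ) else 0) else 0 := by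
    refine le_trans ?_ (Finset.single_le_sum (f := fun l => if k ≠ l then
      (if cnt ω k = cnt ω l then (1 : ℝ) else 0) else 0) (fun l _ => ?_) (Finset.mem_univ l))
    · rw [if_pos hkl, if_pos h]
    · split_ifs <;> norm_num
  refine h1.trans ?_
  unfold plm_t
  refine le_trans (le_of_eq ?_) (Finset.single_le_sum (f := fun k => ∑ l : Fin m, if k ≠ l then
      (if cnt ω k = cnt ω l then (1 : ℝ) else 0) else 0) (fun k _ => ?_) (Finset.mem_univ k))
  · rfl
  · refine Finset.sum_nonneg fun l _ => ?_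
    split_ifs <;> norm_num

lemma plm_av_t (m : ℕ) (hm : 2 ≤ m) : Filter.Tendsto (fun n : ℕ =>
    av (fun ω : Fin n → Fin m => plm_t ω)) Filter.atTop (nhds 0) := by
  classical
  have h1 : ∀ n : ℕ, av (fun ω : Fin n → Fin m => plm_t ω) =
      ∑ k : Fin m, ∑ l : Fin m, if k ≠ l then
        av (fun ω : Fin n → Fin m => if cnt ω k = cnt ω l then (1 : ℝ) else 0) else 0 := by
    intro n
    unfold plm_t
    rw [dsc_av_sum]
    refine Finset.sum_congr rfl fun k _ => ?_
    rw [dsc_av_sum]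
    refine Finset.sum_congr rfl fun l _ => ?_
    split_ifs with h
    · rfl
    · simp [av]
  simp only [h1]
  have h3 : Filter.Tendsto (fun n : ℕ => ∑ k : Fin m, ∑ l : Fin m, if k ≠ l then
        av (fun ω : Fin n → Fin m => if cnt ω k = cnt ω l then (1 : ℝ) else 0) else 0)
      Filter.atTop (nhds (∑ k : Fin m, ∑ l : Fin m, (0 : ℝ))) := by
    refine tendsto_finsetSum _ fun k _ => tendsto_finsetSum _ fun l _ => ?_
    by_cases h : k = l
    · simp [h]
    · simp only [ne_eq, h, not_false_eq_true, if_true]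
      exact tie_tendsto m hm k l h
  simpa using h3

lemma plm_diff {m n : ℕ} (hm : 2 ≤ m) (ω : Fin n → Fin m) (j : Fin m) :
    |plur ω j - cellF j (fun l => (cnt ω l : ℝ))| ≤ plm_t ω := by
  classical
  have hcell : cellF j (fun l => (cnt ω l : ℝ)) =
      if (∀ l : Fin m, l ≠ j → cnt ω l < cnt ω j) then (1 : ℝ) else 0 := by
    unfold cellF
    simp only [Nat.cast_lt]
  by_cases h : ∃ k : Fin m, ∀ l : Fin m, l ≠ k → cnt ω l < cnt ω k
  · rw [hcell]
    unfold plur
    rw [if_pos h]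
    have : (if (∀ l : Fin m, l ≠ j → cnt ω l < cnt ω j) then (1 : ℝ) else 0) -
        (if (∀ l : Fin m, l ≠ j → cnt ω l < cnt ω j) then (1 : ℝ) else 0) = 0 := sub_self _
    simp only [sub_self, abs_zero]
    exact plm_t_nonneg ω
  · have hne : (Finset.univ : Finset (Fin m)).Nonempty := ⟨j, Finset.mem_univ j⟩
    obtain ⟨k, _, hk⟩ := Finset.exists_max_image Finset.univ (fun k => cnt ω k) hne
    have h2 : ∃ l, l ≠ k ∧ cnt ω k ≤ cnt ω l := by
      by_contra hcon
      push Not at hcon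
      exact h ⟨k, hcon⟩
    obtain ⟨l, hlk, hl⟩ := h2
    have ht := plm_t_ge ω k l (Ne.symm hlk) (le_antisymm hl (hk l (Finset.mem_univ l)))
    have hcell0 : cellF j (fun l => (cnt ω l : ℝ)) = 0 := by
      rw [hcell, if_neg]
      intro h'
      exact h ⟨j, h'⟩
    rw [hcell0]
    unfold plur
    rw [if_neg h, sub_zero, abs_of_nonneg (by positivity)]
    have : (m : ℝ)⁻¹ ≤ 1 := by
      refine inv_le_one_of_one_le₀ ?_
      exact_mod_cast (by omega : 1 ≤ m)
    linarith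

lemma plm_abs_plur {m n : ℕ} (hm : 2 ≤ m) (ω : Fin n → Fin m) (j : Fin m) :
    |plur ω j| ≤ 1 := by
  unfold plur
  split_ifs
  · simp
  · simp
  · rw [abs_of_nonneg (by positivity)]
    refine inv_le_one_of_one_le₀ ?_
    exact_mod_cast (by omega : 1 ≤ m)

lemma plm_abs_cell {m : ℕ} (x : Fin m → ℝ) (j : Fin m) : |cellF j x| ≤ 1 := by
  unfold cellF
  split_ifs <;> simp

lemma plm_stab_diff {m n : ℕ} (hm : 2 ≤ m) (ρ : ℝ) (h0 : 0 ≤ ρ) (h1 : ρ ≤ 1) (j : Fin m) :
    |stab ρ (fun ω : Fin n → Fin m => plur ω j) -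
      ((m : ℝ) ^ n)⁻¹ * ∑ ω : Fin n → Fin m, ∑ δ : Fin n → Fin m,
        cellF j (fun l => (cnt ω l : ℝ))
          * (∏ i : Fin n, if δ i = ω i then (1 + ((m : ℝ) - 1) * ρ) / m else (1 - ρ) / m)
          * cellF j (fun l => (cnt δ l : ℝ))| ≤
      2 * av (fun ω : Fin n → Fin m => plm_t ω) := by
  have hpt : ∀ ω δ : Fin n → Fin m, |plur ω j * plm_K m n ρ ω δ * plur δ j -
      cellF j (fun l => (cnt ω l : ℝ)) * plm_K m n ρ ω δ * cellF j (fun l => (cnt δ l : ℝ))| ≤
      plm_K m n ρ ω δ * plm_t ω + plm_K m n ρ δ ω * plm_t δ := by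
    intro ω δ
    have hK := plm_K_nonneg m n hm ρ h0 h1 ω δ
    rw [← plm_K_symm m n ρ ω δ]
    have e : plur ω j * plm_K m n ρ ω δ * plur δ j -
      cellF j (fun l => (cnt ω l : ℝ)) * plm_K m n ρ ω δ * cellF j (fun l => (cnt δ l : ℝ)) =
      plm_K m n ρ ω δ * ((plur ω j - cellF j (fun l => (cnt ω l : ℝ))) * plur δ j +
        cellF j (fun l => (cnt ω l : ℝ)) * (plur δ j - cellF j (fun l => (cnt δ l : ℝ)))) := by
      ring
    rw [e, abs_mul, abs_of_nonneg hK, ← mul_add]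
    refine mul_le_mul_of_nonneg_left ?_ hK
    refine (abs_add_le _ _).trans ?_
    rw [abs_mul, abs_mul]
    refine add_le_add ?_ ?_
    · calc _ ≤ plm_t ω * 1 := mul_le_mul (plm_diff hm ω j) (plm_abs_plur hm δ j) (abs_nonneg _)
            (plm_t_nonneg ω)
        _ = plm_t ω := mul_one _
    · calc _ ≤ 1 * plm_t δ := mul_le_mul (plm_abs_cell _ j) (plm_diff hm δ j) (abs_nonneg _)
            zero_le_one
        _ = plm_t δ := one_mul _
  have hdef : stab ρ (fun ω : Fin n → Fin m => plur ω j) -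
      ((m : ℝ) ^ n)⁻¹ * ∑ ω : Fin n → Fin m, ∑ δ : Fin n → Fin m,
        cellF j (fun l => (cnt ω l : ℝ))
          * (∏ i : Fin n, if δ i = ω i then (1 + ((m : ℝ) - 1) * ρ) / m else (1 - ρ) / m)
          * cellF j (fun l => (cnt δ l : ℝ)) =
      ((m : ℝ) ^ n)⁻¹ * ∑ ω : Fin n → Fin m, ∑ δ : Fin n → Fin m,
        (plur ω j * plm_K m n ρ ω δ * plur δ j -
      cellF j (fun l => (cnt ω l : ℝ)) * plm_K m n ρ ω δ * cellF j (fun l => (cnt δ l : ℝ))) := by
    unfold stab plm_K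
    simp only [Finset.sum_sub_distrib]
    ring
  rw [hdef, abs_mul, abs_of_nonneg (by positivity)]
  have h2 : |∑ ω : Fin n → Fin m, ∑ δ : Fin n → Fin m,
        (plur ω j * plm_K m n ρ ω δ * plur δ j -
      cellF j (fun l => (cnt ω l : ℝ)) * plm_K m n ρ ω δ * cellF j (fun l => (cnt δ l : ℝ)))| ≤
      2 * ∑ ω : Fin n → Fin m, plm_t ω := by
    calc _ ≤ ∑ ω : Fin n → Fin m, ∑ δ : Fin n → Fin m,
          (plm_K m n ρ ω δ * plm_t ω + plm_K m n ρ δ ω * plm_t δ) := by
          refine (Finset.abs_sum_le_sum_abs _ _).trans (Finset.sum_le_sum fun ω _ => ?_)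
          exact (Finset.abs_sum_le_sum_abs _ _).trans (Finset.sum_le_sum fun δ _ => hpt ω δ)
      _ = ∑ ω : Fin n → Fin m, plm_t ω + ∑ δ : Fin n → Fin m, plm_t δ := by
          simp only [Finset.sum_add_distrib]
          congr 1
          · refine Finset.sum_congr rfl fun ω _ => ?_
            rw [← Finset.sum_mul, plm_K_sum m n hm, one_mul]
          · rw [Finset.sum_comm]
            refine Finset.sum_congr rfl fun δ _ => ?_
            rw [← Finset.sum_mul, plm_K_sum m n hm, one_mul]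
      _ = _ := by ring
  calc _ ≤ ((m : ℝ) ^ n)⁻¹ * (2 * ∑ ω : Fin n → Fin m, plm_t ω) :=
        mul_le_mul_of_nonneg_left h2 (by positivity)
    _ = _ := by unfold av; ring

theorem plur_limit (m : ℕ) (hm : 2 ≤ m) (ρ : ℝ) (h0 : 0 ≤ ρ) (h1 : ρ ≤ 1) :
    Filter.Tendsto (fun n : ℕ => ∑ j : Fin m, stab ρ (fun ω : Fin n → Fin m => plur ω j))
      Filter.atTop (nhds (Lam m ρ)) := by
  unfold Lam
  refine tendsto_finsetSum _ fun j _ => ?_
  have h2 := cell_pair_tendsto m hm ρ h0 h1 j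
  have h3 : Filter.Tendsto (fun n : ℕ => 2 * av (fun ω : Fin n → Fin m => plm_t ω))
      Filter.atTop (nhds 0) := by
    have := (plm_av_t m hm).const_mul 2
    simpa using this
  have h4 := squeeze_zero_norm (fun n => by
    rw [Real.norm_eq_abs]
    exact plm_stab_diff (n := n) hm ρ h0 h1 j) h3
  have h5 := h4.add h2
  simpa using h5

end Pool.H65.PT
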