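import Pool.Agent.Helper65.PT.Defs

set_option autoImplicit false

open MeasureTheory ProbabilityTheory Pool.H65.PS

namespace Pool.H65.PT

lemma hca_pow4 (r : ℝ) : (1 + r) ^ 4 ≤ 8 * (1 + r ^ 4) := by
  nlinarith [sq_nonneg (r ^ 2 - 1), sq_nonneg (r - 1), sq_nonneg (r ^ 2 - r), sq_nonneg (r ^ 2 - 2 * r + 1)]

lemma hca_int {m : ℕ} {μ : Measure (Fin m → ℝ)} {K : ℝ} (hμ : WL μ K) {f : (Fin m → ℝ) → ℝ}
    (hf : Continuous f) (C : ℝ) (h : ∀ w, |f w| ≤ C * (1 + ‖w‖) ^ 4) : Integrable f μ := by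
  haveI := hμ.prob
  have h1 : Integrable (fun w : Fin m → ℝ => |C| * (8 * (1 + ‖w‖ ^ 4))) μ :=
    (((integrable_const 1).add hμ.mom).const_mul 8).const_mul |C|
  refine h1.mono' hf.aestronglyMeasurable (Filter.Eventually.of_forall fun w => ?_)
  rw [Real.norm_eq_abs]
  calc |f w| ≤ C * (1 + ‖w‖) ^ 4 := h w
    _ ≤ |C| * (1 + ‖w‖) ^ 4 := mul_le_mul_of_nonneg_right (le_abs_self C) (by positivity)
    _ ≤ |C| * (8 * (1 + ‖w‖ ^ 4)) :=
        mul_le_mul_of_nonneg_left (hca_pow4 _) (abs_nonneg C)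

lemma hca_cube (α x : ℝ) : |α + x| ^ 3 ≤ |α| ^ 3 + 3 * α * |α| * x + 3 * |α| * x ^ 2 + |x| ^ 3 := by
  rcases le_total 0 α with ha | ha <;> rcases le_total 0 x with hx | hx <;>
  rcases le_total 0 (α + x) with hs | hs
  all_goals simp only [abs_of_nonneg, abs_of_nonpos, *]
  all_goals
    first
    | nlinarith
    | nlinarith [mul_nonneg ha (sq_nonneg (α + x)), mul_nonneg ha (sq_nonneg x), mul_nonneg ha (sq_nonneg (α - x)), pow_nonneg hx 3]
    | nlinarith [mul_nonneg ha (add_nonneg (sq_nonneg (2 * α + 3 * x)) (sq_nonneg x)), pow_nonneg ha 3]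
    | nlinarith [mul_nonneg (neg_nonneg.2 ha) (add_nonneg (sq_nonneg (2 * α + 3 * x)) (sq_nonneg x)), pow_nonneg (neg_nonneg.2 ha) 3, pow_nonneg (neg_nonneg.2 hx) 3]
    | nlinarith [mul_nonneg (neg_nonneg.2 ha) (add_nonneg (sq_nonneg (2 * α + 3 * x)) (sq_nonneg x)), pow_nonneg (neg_nonneg.2 ha) 3]

lemma hca_amgm (t δ : ℝ) (ht : 0 ≤ t) (h0 : 0 ≤ δ) (h1 : δ ≤ 1) :
    t ^ (2 + δ) ≤ (1 - δ) * t ^ 2 + δ * t ^ 3 := by
  have h := Real.geom_mean_le_arith_mean2_weighted (w₁ := 1 - δ) (w₂ := δ) (p₁ := t ^ 2)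
    (p₂ := t ^ 3) (by linarith) h0 (by positivity) (by positivity) (by ring)
  refine le_trans (le_of_eq ?_) h
  rw [← Real.rpow_natCast t 2, ← Real.rpow_natCast t 3, ← Real.rpow_mul ht, ← Real.rpow_mul ht]
  rcases eq_or_lt_of_le ht with rfl | ht'
  · rw [Real.zero_rpow (by positivity)]
    rcases eq_or_lt_of_le h0 with rfl | h0'
    · simp
    · rw [Real.zero_rpow (x := ((3:ℕ):ℝ) * δ) (by positivity), mul_zero]
  · rw [← Real.rpow_add ht']
    congr 1
    push_cast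
    ring

/-- one-coordinate hypercontractivity. -/
theorem hc_one {m : ℕ} (μ : Measure (Fin m → ℝ)) (K : ℝ) (hK : 0 ≤ K) (hμ : WL μ K) (θ : ℝ)
    (h0 : 0 ≤ θ) (h1 : θ ≤ 1) (α : ℝ) (b : Fin m → ℝ) :
    ∫ w, |α + θ * ∑ a, b a * (w a - (m : ℝ)⁻¹)| ^ (qq θ K) ∂μ
      ≤ (α ^ 2 + ∫ w, (∑ a, b a * (w a - (m : ℝ)⁻¹)) ^ 2 ∂μ) ^ (qq θ K / 2) := by
  haveI := hμ.prob
  set B : (Fin m → ℝ) → ℝ := fun w => ∑ a, b a * (w a - (m : ℝ)⁻¹) with hB
  change ∫ w, |α + θ * B w| ^ (qq θ K) ∂μ ≤ (α ^ 2 + ∫ w, (B w) ^ 2 ∂μ) ^ (qq θ K / 2)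
  have hBc : Continuous B := by
    rw [hB]
    fun_prop
  set C : ℝ := ∑ a, |b a| with hC
  have hC0 : 0 ≤ C := Finset.sum_nonneg fun a _ => abs_nonneg _
  have hm1 : (m : ℝ)⁻¹ ≤ 1 := by
    rcases Nat.eq_zero_or_pos m with rfl | hm
    · simp
    · exact inv_le_one_of_one_le₀ (by exact_mod_cast hm)
  have hm0 : 0 ≤ (m : ℝ)⁻¹ := by positivity
  have hBb : ∀ w, |B w| ≤ C * (1 + ‖w‖) := by
    intro w
    rw [hB, hC, Finset.sum_mul]
    refine (Finset.abs_sum_le_sum_abs _ _).trans (Finset.sum_le_sum fun a _ => ?_)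
    rw [abs_mul]
    refine mul_le_mul_of_nonneg_left ?_ (abs_nonneg _)
    have hw : |w a| ≤ ‖w‖ := by simpa using norm_le_pi_norm w a
    calc |w a - (m : ℝ)⁻¹| ≤ |w a| + |(m : ℝ)⁻¹| := abs_sub _ _
      _ ≤ 1 + ‖w‖ := by rw [abs_of_nonneg hm0]; linarith
  have hn : ∀ w : Fin m → ℝ, 1 ≤ 1 + ‖w‖ := fun w => by linarith [norm_nonneg w]
  have hp : ∀ (w : Fin m → ℝ) (k : ℕ), k ≤ 4 → (1 + ‖w‖) ^ k ≤ (1 + ‖w‖) ^ 4 :=
    fun w k hk => pow_le_pow_right₀ (hn w) hk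
  have iB : Integrable B μ := hca_int hμ hBc C fun w => (hBb w).trans (by
    have := hp w 1 (by norm_num)
    rw [pow_one] at this
    exact mul_le_mul_of_nonneg_left this hC0)
  have iB2 : Integrable (fun w => B w ^ 2) μ := hca_int hμ (hBc.pow 2) (C ^ 2) fun w => by
    rw [abs_pow]
    calc |B w| ^ 2 ≤ (C * (1 + ‖w‖)) ^ 2 := pow_le_pow_left₀ (abs_nonneg _) (hBb w) 2
      _ = C ^ 2 * (1 + ‖w‖) ^ 2 := by ring
      _ ≤ C ^ 2 * (1 + ‖w‖) ^ 4 := mul_le_mul_of_nonneg_left (hp w 2 (by norm_num)) (by positivity)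
  have iB3 : Integrable (fun w => |B w| ^ 3) μ := hca_int hμ (hBc.abs.pow 3) (C ^ 3) fun w => by
    rw [abs_pow, abs_abs]
    calc |B w| ^ 3 ≤ (C * (1 + ‖w‖)) ^ 3 := pow_le_pow_left₀ (abs_nonneg _) (hBb w) 3
      _ = C ^ 3 * (1 + ‖w‖) ^ 3 := by ring
      _ ≤ C ^ 3 * (1 + ‖w‖) ^ 4 := mul_le_mul_of_nonneg_left (hp w 3 (by norm_num)) (by positivity)
  have iw : ∀ a, Integrable (fun w : Fin m → ℝ => w a) μ := fun a =>
    hca_int hμ (continuous_apply a) 1 fun w => by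
      have hw : |w a| ≤ ‖w‖ := by simpa using norm_le_pi_norm w a
      have := hp w 1 (by norm_num)
      rw [pow_one] at this
      linarith
  have eB : ∫ w, B w ∂μ = 0 := by
    have hi : ∀ a, Integrable (fun w : Fin m → ℝ => b a * (w a - (m : ℝ)⁻¹)) μ := fun a =>
      ((iw a).sub (integrable_const _)).const_mul _
    have h5 := integral_finset_sum (μ := μ) Finset.univ
      (f := fun a (w : Fin m → ℝ) => b a * (w a - (m : ℝ)⁻¹)) (fun a _ => hi a)
    change ∫ w, ∑ a, b a * (w a - (m : ℝ)⁻¹) ∂μ = 0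
    rw [h5]
    refine Finset.sum_eq_zero fun a _ => ?_
    rw [integral_const_mul, integral_sub (iw a) (integrable_const _), hμ.mean a]
    simp
  set V := ∫ w, (B w) ^ 2 ∂μ with hV
  have hV0 : 0 ≤ V := integral_nonneg fun w => sq_nonneg _
  have e3 : ∫ w, |B w| ^ 3 ∂μ ≤ K * V ^ ((3 : ℝ) / 2) := hμ.third b
  have hδ0 : 0 ≤ (1 - θ ^ 2) / (4 + K) := by
    apply div_nonneg
    · nlinarith
    · linarith
  have hδ1 : (1 - θ ^ 2) / (4 + K) ≤ 1 := by
    rw [div_le_one (by linarith)]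
    nlinarith [sq_nonneg θ]
  have hδe : (1 - θ ^ 2) / (4 + K) * (4 + K) = 1 - θ ^ 2 := div_mul_cancel₀ _ (by linarith)
  have hq : qq θ K = 2 + (1 - θ ^ 2) / (4 + K) := rfl
  rw [hq]
  set δ := (1 - θ ^ 2) / (4 + K) with hδ
  clear_value δ
  have hS0 : 0 ≤ α ^ 2 + V := by positivity
  rcases eq_or_lt_of_le hS0 with hS | hS
  · -- degenerate case
    have hα : α = 0 := by
      have : α ^ 2 = 0 := by nlinarith [sq_nonneg α]
      exact pow_eq_zero_iff (two_ne_zero) |>.1 this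
    have hVz : V = 0 := by nlinarith [sq_nonneg α]
    have hz : ∀ᵐ w ∂μ, B w ^ 2 = 0 := by
      have := (integral_eq_zero_iff_of_nonneg (fun w => sq_nonneg (B w)) iB2).1 hVz
      exact this
    have h5 : ∫ w, |α + θ * B w| ^ (2 + δ) ∂μ = 0 := by
      rw [integral_congr_ae (g := fun _ => (0:ℝ)), integral_zero]
      filter_upwards [hz] with w hw
      have hw' : B w = 0 := pow_eq_zero_iff (two_ne_zero) |>.1 hw
      rw [hw', hα]
      simp only [mul_zero, add_zero, abs_zero]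
      exact Real.zero_rpow (by positivity)
    rw [h5]
    exact Real.rpow_nonneg hS0 _
  · set S := Real.sqrt (α ^ 2 + V) with hSd
    have hSp : 0 < S := Real.sqrt_pos.2 hS
    have hS2 : S ^ 2 = α ^ 2 + V := Real.sq_sqrt hS0
    have hαS : |α| ≤ S := by
      rw [← Real.sqrt_sq_eq_abs]
      exact Real.sqrt_le_sqrt (by linarith)
    have hVS : Real.sqrt V ≤ S := Real.sqrt_le_sqrt (by nlinarith [sq_nonneg α])
    have hV32 : V ^ ((3 : ℝ) / 2) ≤ S * V := by
      have : V ^ ((3 : ℝ) / 2) = Real.sqrt V * V := by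
        rw [Real.sqrt_eq_rpow]
        rcases eq_or_lt_of_le hV0 with h | h
        · rw [← h, Real.zero_rpow (by norm_num), mul_zero]
        · nth_rewrite 3 [← Real.rpow_one V]
          rw [← Real.rpow_add h]
          norm_num
      rw [this]
      exact mul_le_mul_of_nonneg_right hVS hV0
    -- moments of Y
    have iY2 : Integrable (fun w => (α + θ * B w) ^ 2) μ := by
      have : (fun w => (α + θ * B w) ^ 2) =
          fun w => (α ^ 2 + 2 * α * θ * B w) + θ ^ 2 * B w ^ 2 := by funext w; ring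
      rw [this]
      exact ((integrable_const _).add (iB.const_mul _)).add (iB2.const_mul _)
    have E2 : ∫ w, (α + θ * B w) ^ 2 ∂μ = α ^ 2 + θ ^ 2 * V := by
      have e : ∀ w, (α + θ * B w) ^ 2 = (α ^ 2 + 2 * α * θ * B w) + θ ^ 2 * B w ^ 2 :=
        fun w => by ring
      simp_rw [e]
      have j1 := integral_add (μ := μ) (f := fun w => α ^ 2 + 2 * α * θ * B w)
        (g := fun w => θ ^ 2 * B w ^ 2) ((integrable_const _).add (iB.const_mul _))
        (iB2.const_mul _)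
      have j2 := integral_add (μ := μ) (f := fun _ => α ^ 2) (g := fun w => 2 * α * θ * B w)
        (integrable_const _) (iB.const_mul _)
      rw [j1, j2, integral_const_mul, integral_const_mul, eB, ← hV]
      simp
    have iR : Integrable (fun w => |α| ^ 3 + 3 * α * |α| * (θ * B w) + 3 * |α| * (θ * B w) ^ 2 +
        |θ * B w| ^ 3) μ := by
      have : (fun w => |α| ^ 3 + 3 * α * |α| * (θ * B w) + 3 * |α| * (θ * B w) ^ 2 +
          |θ * B w| ^ 3) = fun w => (|α| ^ 3 + (3 * α * |α| * θ) * B w) +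
            (3 * |α| * θ ^ 2) * B w ^ 2 + θ ^ 3 * |B w| ^ 3 := by
        funext w
        rw [abs_mul, abs_of_nonneg h0]
        ring
      rw [this]
      exact (((integrable_const _).add (iB.const_mul _)).add (iB2.const_mul _)).add
        (iB3.const_mul _)
    have iY3 : Integrable (fun w => |α + θ * B w| ^ 3) μ := by
      refine iR.mono' (((continuous_const.add (continuous_const.mul hBc)).abs.pow 3).aestronglyMeasurable)
        (Filter.Eventually.of_forall fun w => ?_)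
      rw [Real.norm_eq_abs, abs_of_nonneg (by positivity)]
      exact hca_cube _ _
    have E3 : ∫ w, |α + θ * B w| ^ 3 ∂μ ≤ S ^ 3 + (3 + K) * (S * V) := by
      have j0 : ∫ w, |α + θ * B w| ^ 3 ∂μ ≤ ∫ w, (|α| ^ 3 + 3 * α * |α| * (θ * B w) +
          3 * |α| * (θ * B w) ^ 2 + |θ * B w| ^ 3) ∂μ :=
        integral_mono iY3 iR fun w => hca_cube _ _
      have e : ∀ w, |α| ^ 3 + 3 * α * |α| * (θ * B w) + 3 * |α| * (θ * B w) ^ 2 +
          |θ * B w| ^ 3 = ((|α| ^ 3 + (3 * α * |α| * θ) * B w) +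
            (3 * |α| * θ ^ 2) * B w ^ 2) + θ ^ 3 * |B w| ^ 3 := by
        intro w
        rw [abs_mul, abs_of_nonneg h0]
        ring
      simp_rw [e] at j0
      have j1 := integral_add (μ := μ) (f := fun w => (|α| ^ 3 + (3 * α * |α| * θ) * B w) +
            (3 * |α| * θ ^ 2) * B w ^ 2)
        (g := fun w => θ ^ 3 * |B w| ^ 3) (((integrable_const _).add (iB.const_mul _)).add
          (iB2.const_mul _)) (iB3.const_mul _)
      have j2 := integral_add (μ := μ) (f := fun w => |α| ^ 3 + (3 * α * |α| * θ) * B w)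
        (g := fun w => (3 * |α| * θ ^ 2) * B w ^ 2) ((integrable_const _).add (iB.const_mul _))
        (iB2.const_mul _)
      have j3 := integral_add (μ := μ) (f := fun _ => |α| ^ 3)
        (g := fun w => (3 * α * |α| * θ) * B w) (integrable_const _) (iB.const_mul _)
      rw [j1, j2, j3, integral_const_mul, integral_const_mul, integral_const_mul, eB] at j0
      simp only [integral_const, probReal_univ, smul_eq_mul, one_mul, mul_zero,
        add_zero] at j0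
      have θ2 : θ ^ 2 ≤ 1 := by nlinarith
      have θ3 : θ ^ 3 ≤ 1 := pow_le_one₀ h0 h1
      have k1 : |α| ^ 3 ≤ S ^ 3 := pow_le_pow_left₀ (abs_nonneg _) hαS 3
      have k2 : (3 * |α| * θ ^ 2) * V ≤ 3 * (S * V) := by
        have : |α| * θ ^ 2 ≤ S * 1 := mul_le_mul hαS θ2 (sq_nonneg _) hSp.le
        nlinarith
      have hB3 : 0 ≤ ∫ w, |B w| ^ 3 ∂μ := integral_nonneg fun w => by positivity
      have k3 : θ ^ 3 * ∫ w, |B w| ^ 3 ∂μ ≤ K * (S * V) := by
        calc θ ^ 3 * ∫ w, |B w| ^ 3 ∂μ ≤ 1 * ∫ w, |B w| ^ 3 ∂μ :=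
              mul_le_mul_of_nonneg_right θ3 hB3
          _ ≤ K * V ^ ((3 : ℝ) / 2) := by rw [one_mul]; exact e3
          _ ≤ K * (S * V) := mul_le_mul_of_nonneg_left hV32 hK
      linarith
    -- pointwise bound
    have hpt : ∀ w, |α + θ * B w| ^ (2 + δ) ≤
        S ^ (2 + δ) * ((1 - δ) * ((α + θ * B w) ^ 2 / S ^ 2) + δ * (|α + θ * B w| ^ 3 / S ^ 3)) := by
      intro w
      have hh := hca_amgm (|α + θ * B w| / S) δ (by positivity) hδ0 hδ1
      rw [Real.div_rpow (abs_nonneg _) hSp.le, div_pow, div_pow, sq_abs] at hh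
      have hpos : 0 < S ^ (2 + δ) := Real.rpow_pos_of_pos hSp _
      rw [div_le_iff₀ hpos] at hh
      linarith
    have iF : Integrable (fun w => S ^ (2 + δ) * ((1 - δ) * ((α + θ * B w) ^ 2 / S ^ 2) +
        δ * (|α + θ * B w| ^ 3 / S ^ 3))) μ :=
      (((iY2.div_const _).const_mul _).add ((iY3.div_const _).const_mul _)).const_mul _
    have hmain : ∫ w, |α + θ * B w| ^ (2 + δ) ∂μ ≤ S ^ (2 + δ) *
        ((1 - δ) * ((α ^ 2 + θ ^ 2 * V) / S ^ 2) + δ * ((∫ w, |α + θ * B w| ^ 3 ∂μ) / S ^ 3)) := by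
      have j0 : ∫ w, |α + θ * B w| ^ (2 + δ) ∂μ ≤ ∫ w, S ^ (2 + δ) *
          ((1 - δ) * ((α + θ * B w) ^ 2 / S ^ 2) + δ * (|α + θ * B w| ^ 3 / S ^ 3)) ∂μ := by
        refine integral_mono_of_nonneg (Filter.Eventually.of_forall fun w => ?_) iF
          (Filter.Eventually.of_forall hpt)
        exact Real.rpow_nonneg (abs_nonneg _) _
      refine j0.trans (le_of_eq ?_)
      rw [integral_const_mul]
      have j1 := integral_add (μ := μ) (f := fun w => (1 - δ) * ((α + θ * B w) ^ 2 / S ^ 2))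
        (g := fun w => δ * (|α + θ * B w| ^ 3 / S ^ 3)) ((iY2.div_const _).const_mul _)
        ((iY3.div_const _).const_mul _)
      rw [j1, integral_const_mul, integral_const_mul, integral_div, integral_div, E2]
    have hfin : (1 - δ) * ((α ^ 2 + θ ^ 2 * V) / S ^ 2) +
        δ * ((∫ w, |α + θ * B w| ^ 3 ∂μ) / S ^ 3) ≤ 1 := by
      have g1 : (α ^ 2 + θ ^ 2 * V) / S ^ 2 = 1 - (1 - θ ^ 2) * (V / S ^ 2) := by
        field_simp
        rw [hS2]
        ring
      have g2 : (∫ w, |α + θ * B w| ^ 3 ∂μ) / S ^ 3 ≤ 1 + (3 + K) * (V / S ^ 2) := by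
        rw [div_le_iff₀ (by positivity)]
        refine E3.trans (le_of_eq ?_)
        field_simp
      have hv : 0 ≤ V / S ^ 2 := by positivity
      rw [g1]
      have g3 : δ * ((∫ w, |α + θ * B w| ^ 3 ∂μ) / S ^ 3) ≤ δ * (1 + (3 + K) * (V / S ^ 2)) :=
        mul_le_mul_of_nonneg_left g2 hδ0
      have g4 : (1 - δ) * (1 - (1 - θ ^ 2) * (V / S ^ 2)) + δ * (1 + (3 + K) * (V / S ^ 2)) =
          1 - δ * θ ^ 2 * (V / S ^ 2) := by
        linear_combination (V / S ^ 2) * hδe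
      have g5 : 0 ≤ δ * θ ^ 2 * (V / S ^ 2) := by positivity
      linarith
    have hpos : 0 < S ^ (2 + δ) := Real.rpow_pos_of_pos hSp _
    have hrhs : (α ^ 2 + V) ^ ((2 + δ) / 2) = S ^ (2 + δ) := by
      rw [← hS2, ← Real.rpow_natCast S 2, ← Real.rpow_mul hSp.le]
      congr 1
      push_cast
      ring
    rw [hrhs]
    refine hmain.trans ?_
    calc S ^ (2 + δ) * ((1 - δ) * ((α ^ 2 + θ ^ 2 * V) / S ^ 2) +
          δ * ((∫ w, |α + θ * B w| ^ 3 ∂μ) / S ^ 3)) ≤ S ^ (2 + δ) * 1 :=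
          mul_le_mul_of_nonneg_left hfin hpos.le
      _ = S ^ (2 + δ) := mul_one _

end Pool.H65.PT
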