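import Pool.Agent.Helper65.PT.Defs
import Pool.Agent.Helper65.PT.Hca
import Pool.Agent.Helper65.PS.Dsc

set_option autoImplicit false

open MeasureTheory ProbabilityTheory Pool.H65.PS

namespace Pool.H65.PT

section hcb

variable {m n : ℕ}

theorem hcb_sum_cons (G : (Fin (n + 1) → Fin m) → ℝ) :
    ∑ ω, G ω = ∑ a : Fin m, ∑ ω' : Fin n → Fin m, G (Fin.cons a ω') := by
  rw [← (Fin.consEquiv (fun _ : Fin (n + 1) => Fin m)).sum_comp, Fintype.sum_prod_type]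
  rfl

/-- the first coordinate fixed -/
def hcbFa (F : (Fin (n + 1) → Fin m) → ℝ) (a : Fin m) (ω' : Fin n → Fin m) : ℝ :=
  F (Fin.cons a ω')

theorem hcb_av (F : (Fin (n + 1) → Fin m) → ℝ) :
    av (fun ω => F ω ^ 2) = (m : ℝ)⁻¹ * ∑ a, av (fun ω' => hcbFa F a ω' ^ 2) := by
  unfold av
  rw [hcb_sum_cons, pow_succ, mul_inv, ← Finset.mul_sum]
  simp only [hcbFa]
  ring

theorem hcb_Tn (θ : ℝ) (F : (Fin (n + 1) → Fin m) → ℝ) (b : Fin m) (ω' : Fin n → Fin m) :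
    Tn θ F (Fin.cons b ω') = (1 - θ) / m * ∑ a, Tn θ (hcbFa F a) ω' + θ * Tn θ (hcbFa F b) ω' := by
  have hm : (m : ℝ) ≠ 0 := by
    have : 0 < m := b.pos
    positivity
  have h1 : Tn θ F (Fin.cons b ω') = ∑ a, (if a = b then (1 + ((m : ℝ) - 1) * θ) / m
      else (1 - θ) / m) * Tn θ (hcbFa F a) ω' := by
    rw [Tn, hcb_sum_cons]
    refine Finset.sum_congr rfl fun a _ => ?_
    rw [Tn, Finset.mul_sum]
    refine Finset.sum_congr rfl fun δ' _ => ?_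
    rw [Fin.prod_univ_succ]
    simp only [Fin.cons_zero, Fin.cons_succ, hcbFa]
    ring
  have h2 : ∀ a : Fin m, (if a = b then (1 + ((m : ℝ) - 1) * θ) / m else (1 - θ) / m) =
      (1 - θ) / m + if a = b then θ else 0 := by
    intro a
    split_ifs
    · field_simp; ring
    · ring
  rw [h1]
  simp only [h2, add_mul, Finset.sum_add_distrib, ite_mul, zero_mul, Finset.sum_ite_eq',
    Finset.mem_univ, if_true, Finset.mul_sum]

theorem hcb_pol (θ : ℝ) (F : (Fin (n + 1) → Fin m) → ℝ) (w : Fin (n + 1) → Fin m → ℝ) :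
    pol (Tn θ F) w = ∑ b, w 0 b * ((1 - θ) / m * ∑ a, pol (Tn θ (hcbFa F a)) (fun i => w i.succ) +
      θ * pol (Tn θ (hcbFa F b)) (fun i => w i.succ)) := by
  rw [pol, hcb_sum_cons]
  refine Finset.sum_congr rfl fun b _ => ?_
  have h1 : ∀ ω' : Fin n → Fin m, Tn θ F (Fin.cons b ω') *
      ∏ i : Fin (n + 1), w i ((Fin.cons b ω' : Fin (n + 1) → Fin m) i) =
      w 0 b * ((1 - θ) / m * ∑ a, Tn θ (hcbFa F a) ω' * ∏ i : Fin n, w i.succ (ω' i) +
        θ * (Tn θ (hcbFa F b) ω' * ∏ i : Fin n, w i.succ (ω' i))) := by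
    intro ω'
    rw [hcb_Tn, Fin.prod_univ_succ]
    simp only [Fin.cons_zero, Fin.cons_succ]
    rw [← Finset.sum_mul]
    ring
  rw [Finset.sum_congr rfl fun ω' _ => h1 ω', ← Finset.mul_sum, Finset.sum_add_distrib,
    ← Finset.mul_sum, ← Finset.mul_sum]
  congr 3
  · rw [Finset.sum_comm]
    rfl

theorem hcb_pol' (θ : ℝ) (hm : 1 ≤ m) (F : (Fin (n + 1) → Fin m) → ℝ)
    (w : Fin (n + 1) → Fin m → ℝ) (hw : ∑ b, w 0 b = 1) :
    pol (Tn θ F) w = (m : ℝ)⁻¹ * ∑ a, pol (Tn θ (hcbFa F a)) (fun i => w i.succ) +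
      θ * ∑ b, pol (Tn θ (hcbFa F b)) (fun i => w i.succ) * (w 0 b - (m : ℝ)⁻¹) := by
  have hm0 : (m : ℝ) ≠ 0 := by positivity
  have key : ∀ Y : Fin m → ℝ, ∑ b, w 0 b * ((1 - θ) / m * ∑ a, Y a + θ * Y b) =
      (m : ℝ)⁻¹ * ∑ a, Y a + θ * ∑ b, Y b * (w 0 b - (m : ℝ)⁻¹) := by
    intro Y
    simp only [mul_add, Finset.sum_add_distrib, mul_sub, Finset.sum_sub_distrib]
    rw [← Finset.sum_mul, hw]
    have e1 : ∀ b, w 0 b * (θ * Y b) = θ * (Y b * w 0 b) := fun b => by ring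
    rw [Finset.sum_congr rfl fun b _ => e1 b, ← Finset.mul_sum, ← Finset.sum_mul]
    field_simp
    ring
  rw [hcb_pol]
  exact key fun a => pol (Tn θ (hcbFa F a)) (fun i => w i.succ)

theorem hcb_continuous_pol (F : (Fin n → Fin m) → ℝ) : Continuous (pol F) := by
  unfold pol
  fun_prop

theorem hcb_qq (K : ℝ) (hK : 0 ≤ K) (θ : ℝ) (h0 : 0 ≤ θ) (h1 : θ ≤ 1) :
    2 ≤ qq θ K ∧ qq θ K ≤ 4 := by
  unfold qq
  have h2 : 0 ≤ 1 - θ ^ 2 := by nlinarith
  have h3 : 1 - θ ^ 2 ≤ 1 := by nlinarith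
  constructor
  · have : 0 ≤ (1 - θ ^ 2) / (4 + K) := by positivity
    linarith
  · have : (1 - θ ^ 2) / (4 + K) ≤ 1 := by
      rw [div_le_one (by linarith)]; linarith
    linarith

/-- second moment of a linear form -/
theorem hcb_second (hm : 1 ≤ m) {μ : Measure (Fin m → ℝ)} {K : ℝ} (hμ : WL μ K) (b : Fin m → ℝ) :
    ∫ w, (∑ a, b a * (w a - (m : ℝ)⁻¹)) ^ 2 ∂μ =
      (m : ℝ)⁻¹ * ∑ a, b a ^ 2 - ((m : ℝ)⁻¹ * ∑ a, b a) ^ 2 := by
  have := hμ.prob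
  have hm0 : (m : ℝ) ≠ 0 := by positivity
  have hint4 := hμ.mom
  have hcoord : ∀ a, ∀ w : Fin m → ℝ, |w a| ≤ ‖w‖ := fun a w => norm_le_pi_norm w a
  have hi2 : ∀ a c, Integrable (fun w : Fin m → ℝ => w a * w c) μ := by
    intro a c
    refine (hint4.add (integrable_const (1 : ℝ))).mono' (by fun_prop) ?_
    refine Filter.Eventually.of_forall fun w => ?_
    rw [Real.norm_eq_abs, abs_mul]
    have h1 := hcoord a w
    have h2 := hcoord c w
    have h3 : |w a| * |w c| ≤ ‖w‖ * ‖w‖ := by gcongr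
    have h4 : ‖w‖ * ‖w‖ ≤ ‖w‖ ^ 4 + 1 := by nlinarith [sq_nonneg (‖w‖ ^ 2 - 1), sq_nonneg ‖w‖]
    simpa using h3.trans h4
  have hi1 : ∀ a, Integrable (fun w : Fin m → ℝ => w a) μ := by
    intro a
    refine (hint4.add (integrable_const (1 : ℝ))).mono'
      (measurable_pi_apply a).aestronglyMeasurable ?_
    refine Filter.Eventually.of_forall fun w => ?_
    rw [Real.norm_eq_abs]
    have h1 := hcoord a w
    have h4 : ‖w‖ ≤ ‖w‖ ^ 4 + 1 := by
      nlinarith [sq_nonneg (‖w‖ ^ 2 - 1), sq_nonneg (‖w‖ - 1), sq_nonneg ‖w‖]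
    simpa using h1.trans h4
  have e1 : ∀ w : Fin m → ℝ, (∑ a, b a * (w a - (m : ℝ)⁻¹)) ^ 2 =
      ∑ a, ∑ c, (b a * b c * (w a * w c) - b a * b c * (m : ℝ)⁻¹ * w a
        - b a * b c * (m : ℝ)⁻¹ * w c + b a * b c * (m : ℝ)⁻¹ ^ 2) := by
    intro w
    rw [sq, Finset.sum_mul_sum]
    refine Finset.sum_congr rfl fun a _ => Finset.sum_congr rfl fun c _ => ?_
    ring
  simp only [e1]
  have hI : ∀ a c, Integrable (fun w : Fin m → ℝ => b a * b c * (w a * w c)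
      - b a * b c * (m : ℝ)⁻¹ * w a - b a * b c * (m : ℝ)⁻¹ * w c
      + b a * b c * (m : ℝ)⁻¹ ^ 2) μ := by
    intro a c
    exact ((((hi2 a c).const_mul _).sub ((hi1 a).const_mul _)).sub ((hi1 c).const_mul _)).add
      (integrable_const _)
  rw [integral_finsetSum _ fun a _ => integrable_finsetSum _ fun c _ => hI a c]
  have e2 : ∀ a, ∫ w, ∑ c, (b a * b c * (w a * w c) - b a * b c * (m : ℝ)⁻¹ * w a
        - b a * b c * (m : ℝ)⁻¹ * w c + b a * b c * (m : ℝ)⁻¹ ^ 2) ∂μ =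
      ∑ c, (b a * b c * (if a = c then (m : ℝ)⁻¹ else 0) - b a * b c * (m : ℝ)⁻¹ ^ 2) := by
    intro a
    rw [integral_finsetSum _ fun c _ => hI a c]
    refine Finset.sum_congr rfl fun c _ => ?_
    have I1 : Integrable (fun w : Fin m → ℝ => b a * b c * (w a * w c)) μ :=
      (hi2 a c).const_mul _
    have I2 : Integrable (fun w : Fin m → ℝ => b a * b c * (m : ℝ)⁻¹ * w a) μ :=
      (hi1 a).const_mul _
    have I3 : Integrable (fun w : Fin m → ℝ => b a * b c * (m : ℝ)⁻¹ * w c) μ :=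
      (hi1 c).const_mul _
    rw [integral_add (by exact (I1.sub I2).sub I3) (integrable_const _),
      integral_sub (by exact I1.sub I2) I3, integral_sub I1 I2,
      integral_const_mul, integral_const_mul, integral_const_mul, hμ.cov, hμ.mean, hμ.mean]
    simp only [integral_const, probReal_univ, one_smul]
    ring
  rw [Finset.sum_congr rfl fun a _ => e2 a]
  simp only [Finset.sum_sub_distrib]
  have e3 : ∑ a, ∑ c, b a * b c * (if a = c then (m : ℝ)⁻¹ else 0) = (m : ℝ)⁻¹ * ∑ a, b a ^ 2 := by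
    rw [Finset.mul_sum]
    refine Finset.sum_congr rfl fun a _ => ?_
    simp only [mul_ite, mul_zero, Finset.sum_ite_eq, Finset.mem_univ, if_true]
    ring
  have e4 : ∑ a, ∑ c, b a * b c * (m : ℝ)⁻¹ ^ 2 = ((m : ℝ)⁻¹ * ∑ a, b a) ^ 2 := by
    rw [mul_pow, sq (∑ a, b a), Finset.sum_mul_sum, Finset.mul_sum]
    refine Finset.sum_congr rfl fun a _ => ?_
    rw [Finset.mul_sum]
    refine Finset.sum_congr rfl fun c _ => ?_
    ring
  rw [e3, e4]

/-- integrability in one coordinate -/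
theorem hcb_int {μ : Measure (Fin m → ℝ)} {K : ℝ} (hμ : WL μ K) (α θ q : ℝ) (hq : 2 ≤ q)
    (hq4 : q ≤ 4) (b : Fin m → ℝ) :
    Integrable (fun w : Fin m → ℝ => |α + θ * ∑ a, b a * (w a - (m : ℝ)⁻¹)| ^ q) μ := by
  have := hμ.prob
  set C : ℝ := |α| + |θ| * ∑ a, |b a| * (1 + |(m : ℝ)⁻¹|) with hC
  have hC0 : 0 ≤ C := by positivity
  have hbd : ∀ w : Fin m → ℝ, |α + θ * ∑ a, b a * (w a - (m : ℝ)⁻¹)| ≤ C * (1 + ‖w‖) := by
    intro w
    have h1 : |∑ a, b a * (w a - (m : ℝ)⁻¹)| ≤ ∑ a, |b a| * (1 + |(m : ℝ)⁻¹|) * (1 + ‖w‖) := by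
      refine (Finset.abs_sum_le_sum_abs _ _).trans (Finset.sum_le_sum fun a _ => ?_)
      rw [abs_mul, mul_assoc]
      have h2 : |w a| ≤ ‖w‖ := norm_le_pi_norm w a
      have h3 : |w a - (m : ℝ)⁻¹| ≤ |w a| + |(m : ℝ)⁻¹| := abs_sub _ _
      have h4 : 0 ≤ ‖w‖ := norm_nonneg _
      have h5 : 0 ≤ |(m : ℝ)⁻¹| := abs_nonneg _
      gcongr
      nlinarith
    calc |α + θ * ∑ a, b a * (w a - (m : ℝ)⁻¹)| ≤ |α| + |θ| * |∑ a, b a * (w a - (m : ℝ)⁻¹)| := by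
          refine (abs_add_le _ _).trans ?_
          rw [abs_mul]
      _ ≤ |α| * (1 + ‖w‖) + |θ| * ∑ a, |b a| * (1 + |(m : ℝ)⁻¹|) * (1 + ‖w‖) := by
          have : 0 ≤ ‖w‖ := norm_nonneg _
          have := abs_nonneg α
          gcongr
          nlinarith
      _ = C * (1 + ‖w‖) := by
          rw [hC, add_mul, ← Finset.sum_mul]
          ring
  refine ((hμ.mom.const_mul (8 * C ^ 4)).add (integrable_const (1 + 8 * C ^ 4))).mono' ?_ ?_
  · have : Measurable (fun w : Fin m → ℝ => |α + θ * ∑ a, b a * (w a - (m : ℝ)⁻¹)|) := by fun_prop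
    exact (this.pow_const q).aestronglyMeasurable
  · refine Filter.Eventually.of_forall fun w => ?_
    have hx := hbd w
    set x := |α + θ * ∑ a, b a * (w a - (m : ℝ)⁻¹)| with hxd
    have hx0 : 0 ≤ x := abs_nonneg _
    rw [Real.norm_eq_abs, abs_of_nonneg (Real.rpow_nonneg hx0 _)]
    have h1 : x ^ q ≤ 1 + x ^ 4 := by
      rcases le_total x 1 with h | h
      · have := Real.rpow_le_one hx0 h (by linarith : (0:ℝ) ≤ q)
        have := pow_nonneg hx0 4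
        linarith
      · have h2 : x ^ q ≤ x ^ (4 : ℝ) := Real.rpow_le_rpow_of_exponent_le h hq4
        have h3 : x ^ (4 : ℝ) = x ^ 4 := by
          rw [show (4 : ℝ) = ((4 : ℕ) : ℝ) by norm_num, Real.rpow_natCast]
        rw [h3] at h2
        linarith
    have h2 : x ^ 4 ≤ C ^ 4 * (8 * (1 + ‖w‖ ^ 4)) := by
      have h3 : x ^ 4 ≤ (C * (1 + ‖w‖)) ^ 4 := pow_le_pow_left₀ hx0 hx 4
      have h4 : (1 + ‖w‖) ^ 4 ≤ 8 * (1 + ‖w‖ ^ 4) := by
        have h5 : (1 + ‖w‖) ^ 2 ≤ 2 * (1 + ‖w‖ ^ 2) := by nlinarith [sq_nonneg (‖w‖ - 1)]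
        have h6 : (1 + ‖w‖ ^ 2) ^ 2 ≤ 2 * (1 + ‖w‖ ^ 4) := by nlinarith [sq_nonneg (‖w‖ ^ 2 - 1)]
        have h7 : ((1 + ‖w‖) ^ 2) ^ 2 ≤ (2 * (1 + ‖w‖ ^ 2)) ^ 2 :=
          pow_le_pow_left₀ (by positivity) h5 2
        nlinarith
      calc x ^ 4 ≤ (C * (1 + ‖w‖)) ^ 4 := h3
        _ = C ^ 4 * (1 + ‖w‖) ^ 4 := by ring
        _ ≤ C ^ 4 * (8 * (1 + ‖w‖ ^ 4)) := by gcongr
    simp only [Pi.add_apply]
    nlinarith

/-- Minkowski inequality -/
theorem hcb_mink {Ω : Type*} [MeasurableSpace Ω] (μ : Measure Ω) (hm : 1 ≤ m) (r : ℝ) (hr : 1 ≤ r)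
    (Z : Fin m → Ω → ℝ) (hZ : ∀ a, Measurable (Z a)) (hZ0 : ∀ a x, 0 ≤ Z a x) (A : Fin m → ℝ)
    (hA : ∀ a, 0 ≤ A a)
    (h : ∀ a, ∫⁻ x, ENNReal.ofReal (Z a x ^ r) ∂μ ≤ ENNReal.ofReal (A a ^ r)) :
    ∫⁻ x, ENNReal.ofReal (((m : ℝ)⁻¹ * ∑ a, Z a x) ^ r) ∂μ ≤
      ENNReal.ofReal (((m : ℝ)⁻¹ * ∑ a, A a) ^ r) := by
  have hr0 : 0 < r := by linarith
  have hp0 : ENNReal.ofReal r ≠ 0 := by simpa using hr0
  have hpt : ENNReal.ofReal r ≠ ⊤ := ENNReal.ofReal_ne_top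
  have hpr : (ENNReal.ofReal r).toReal = r := ENNReal.toReal_ofReal hr0.le
  have key : ∀ f : Ω → ℝ, (∀ x, 0 ≤ f x) →
      eLpNorm f (ENNReal.ofReal r) μ = (∫⁻ x, ENNReal.ofReal (f x ^ r) ∂μ) ^ (1 / r) := by
    intro f hf
    rw [eLpNorm_eq_lintegral_rpow_enorm_toReal hp0 hpt, hpr]
    congr 1
    refine lintegral_congr fun x => ?_
    rw [← ENNReal.ofReal_rpow_of_nonneg (hf x) hr0.le, Real.enorm_eq_ofReal (hf x)]
  have hZn : ∀ a, eLpNorm (Z a) (ENNReal.ofReal r) μ ≤ ENNReal.ofReal (A a) := by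
    intro a
    rw [key _ (hZ0 a)]
    calc (∫⁻ x, ENNReal.ofReal (Z a x ^ r) ∂μ) ^ (1 / r) ≤ (ENNReal.ofReal (A a ^ r)) ^ (1 / r) := by
          gcongr
          exact h a
      _ = ENNReal.ofReal (A a) := by
          rw [← ENNReal.ofReal_rpow_of_nonneg (hA a) hr0.le, ← ENNReal.rpow_mul]
          rw [mul_one_div_cancel hr0.ne', ENNReal.rpow_one]
  have hsum : eLpNorm (∑ a, Z a) (ENNReal.ofReal r) μ ≤ ENNReal.ofReal (∑ a, A a) := by
    refine (eLpNorm_sum_le (fun a _ => (hZ a).aestronglyMeasurable) ?_).trans ?_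
    · rw [← ENNReal.ofReal_one]
      exact ENNReal.ofReal_le_ofReal hr
    · rw [ENNReal.ofReal_sum_of_nonneg fun a _ => hA a]
      exact Finset.sum_le_sum fun a _ => hZn a
  have hfin : eLpNorm (fun x => (m : ℝ)⁻¹ * ∑ a, Z a x) (ENNReal.ofReal r) μ ≤
      ENNReal.ofReal ((m : ℝ)⁻¹ * ∑ a, A a) := by
    have e1 : (fun x => (m : ℝ)⁻¹ * ∑ a, Z a x) = (m : ℝ)⁻¹ • (∑ a, Z a) := by
      funext x
      simp [Finset.sum_apply]
    rw [e1, eLpNorm_const_smul, Real.enorm_eq_ofReal (by positivity),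
      ENNReal.ofReal_mul (by positivity)]
    gcongr
  have hpos : ∀ x, 0 ≤ (m : ℝ)⁻¹ * ∑ a, Z a x := fun x =>
    mul_nonneg (by positivity) (Finset.sum_nonneg fun a _ => hZ0 a x)
  rw [key _ hpos] at hfin
  have h3 := ENNReal.rpow_le_rpow hfin hr0.le
  rw [← ENNReal.rpow_mul, one_div_mul_cancel hr0.ne', ENNReal.rpow_one,
    ENNReal.ofReal_rpow_of_nonneg (mul_nonneg (by positivity)
      (Finset.sum_nonneg fun a _ => hA a)) hr0.le] at h3
  exact h3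

theorem hcb_lint (hm : 1 ≤ m) (K : ℝ) (hK : 0 ≤ K) (θ : ℝ) (h0 : 0 ≤ θ) (h1 : θ ≤ 1) (n : ℕ) :
    ∀ (ν : Fin n → Measure (Fin m → ℝ)) (_hν : ∀ i, WL (ν i) K) (F : (Fin n → Fin m) → ℝ),
    ∫⁻ w, ENNReal.ofReal (|pol (Tn θ F) w| ^ (qq θ K)) ∂(Measure.pi ν) ≤
      ENNReal.ofReal ((av (fun ω => F ω ^ 2)) ^ (qq θ K / 2)) := by
  obtain ⟨hq2, hq4⟩ := hcb_qq K hK θ h0 h1
  induction n with
  | zero =>
    intro ν hν F
    have : ∀ i, IsProbabilityMeasure (ν i) := fun i => (hν i).prob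
    have e1 : ∀ w : Fin 0 → Fin m → ℝ, pol (Tn θ F) w = F default := by
      intro w
      simp [pol, Tn]
    have e2 : av (fun ω => F ω ^ 2) = F default ^ 2 := by
      simp [av]
    simp only [e1, e2]
    rw [lintegral_const, measure_univ, mul_one]
    refine ENNReal.ofReal_le_ofReal (le_of_eq ?_)
    rw [← sq_abs, ← Real.rpow_natCast, ← Real.rpow_mul (abs_nonneg _)]
    congr 1
    push_cast
    ring
  | succ n ih =>
    intro ν hν F
    have : ∀ i, IsProbabilityMeasure (ν i) := fun i => (hν i).prob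
    set q := qq θ K with hq
    have hmp := measurePreserving_piFinSuccAbove ν 0
    set e := MeasurableEquiv.piFinSuccAbove (fun _ : Fin (n + 1) => (Fin m → ℝ)) 0 with he
    set ν' : Fin n → Measure (Fin m → ℝ) := fun j => ν (Fin.succAbove 0 j) with hν'
    have hm1 : Measurable fun w : Fin (n + 1) → Fin m → ℝ =>
        ENNReal.ofReal (|pol (Tn θ F) w| ^ q) := by
      have : Measurable fun w : Fin (n + 1) → Fin m → ℝ => |pol (Tn θ F) w| :=
        (hcb_continuous_pol (Tn θ F)).abs.measurable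
      exact (this.pow_const q).ennreal_ofReal
    have hswap : ∫⁻ w, ENNReal.ofReal (|pol (Tn θ F) w| ^ q) ∂(Measure.pi ν) =
        ∫⁻ p, ENNReal.ofReal (|pol (Tn θ F) (e.symm p)| ^ q) ∂((ν 0).prod (Measure.pi ν')) := by
      rw [← hmp.lintegral_comp (f := fun p => ENNReal.ofReal (|pol (Tn θ F) (e.symm p)| ^ q))
        (hm1.comp e.symm.measurable)]
      refine lintegral_congr fun w => ?_
      rw [MeasurableEquiv.symm_apply_apply]
    have hm2 : Measurable fun p : (Fin m → ℝ) × (Fin n → Fin m → ℝ) =>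
        ENNReal.ofReal (|pol (Tn θ F) (e.symm p)| ^ q) := hm1.comp e.symm.measurable
    rw [hswap, lintegral_prod_symm _ hm2.aemeasurable]
    have hin : ∀ w' : Fin n → Fin m → ℝ,
        ∫⁻ w0, ENNReal.ofReal (|pol (Tn θ F) (e.symm (w0, w'))| ^ q) ∂(ν 0) ≤
          ENNReal.ofReal (((m : ℝ)⁻¹ * ∑ a, (pol (Tn θ (hcbFa F a)) w') ^ 2) ^ (q / 2)) := by
      intro w'
      set Y : Fin m → ℝ := fun a => pol (Tn θ (hcbFa F a)) w' with hY
      have e1 : ∫⁻ w0, ENNReal.ofReal (|pol (Tn θ F) (e.symm (w0, w'))| ^ q) ∂(ν 0) =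
          ∫⁻ w0, ENNReal.ofReal (|(m : ℝ)⁻¹ * ∑ a, Y a + θ * ∑ a, Y a * (w0 a - (m : ℝ)⁻¹)| ^ q)
            ∂(ν 0) := by
        refine lintegral_congr_ae ?_
        filter_upwards [(hν 0).sum_one] with w0 hw0
        have e2 : (e.symm (w0, w')) 0 = w0 := by
          simp [he, MeasurableEquiv.piFinSuccAbove]
        have e3 : (fun i : Fin n => (e.symm (w0, w')) i.succ) = w' := by
          funext i
          simp [he, MeasurableEquiv.piFinSuccAbove]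
        have e4 := hcb_pol' θ hm F (e.symm (w0, w')) (by rw [e2]; exact hw0)
        rw [e4]
        simp only [e2, e3, hY]
      rw [e1, ← ofReal_integral_eq_lintegral_ofReal
        (hcb_int (hν 0) _ θ q hq2 hq4 Y) (Filter.Eventually.of_forall fun w0 =>
          Real.rpow_nonneg (abs_nonneg _) _)]
      refine ENNReal.ofReal_le_ofReal ?_
      have h3 := hc_one (ν 0) K hK (hν 0) θ h0 h1 ((m : ℝ)⁻¹ * ∑ a, Y a) Y
      rw [hcb_second hm (hν 0) Y] at h3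
      refine h3.trans (le_of_eq ?_)
      congr 1
      ring
    refine (lintegral_mono hin).trans ?_
    rw [hcb_av]
    refine hcb_mink (Measure.pi ν') hm (q / 2) (by linarith)
      (fun a w' => (pol (Tn θ (hcbFa F a)) w') ^ 2) ?_ (fun a w' => sq_nonneg _)
      (fun a => av (fun ω' => hcbFa F a ω' ^ 2)) (fun a => dsc_av_nonneg fun _ => sq_nonneg _) ?_
    · intro a
      exact ((hcb_continuous_pol _).pow 2).measurable
    · intro a
      have h4 := ih ν' (fun j => hν _) (hcbFa F a)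
      refine le_trans (le_of_eq ?_) h4
      refine lintegral_congr fun w' => ?_
      congr 1
      rw [← sq_abs, ← Real.rpow_natCast, ← Real.rpow_mul (abs_nonneg _)]
      congr 1
      push_cast
      ring

end hcb

theorem hc_pol {m : ℕ} (hm : 1 ≤ m) (K : ℝ) (hK : 0 ≤ K) (θ : ℝ) (h0 : 0 ≤ θ) (h1 : θ ≤ 1) (n : ℕ)
    (ν : Fin n → Measure (Fin m → ℝ)) (hν : ∀ i, WL (ν i) K) (F : (Fin n → Fin m) → ℝ) :
    ∫ w, |pol (Tn θ F) w| ^ (qq θ K) ∂(Measure.pi ν) ≤ (av (fun ω => F ω ^ 2)) ^ (qq θ K / 2) := by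
  have hmeas : Measurable fun w : Fin n → Fin m → ℝ => |pol (Tn θ F) w| ^ (qq θ K) := by
    have : Measurable fun w : Fin n → Fin m → ℝ => |pol (Tn θ F) w| :=
      (hcb_continuous_pol (Tn θ F)).abs.measurable
    exact this.pow_const _
  rw [integral_eq_lintegral_of_nonneg_ae (Filter.Eventually.of_forall fun w =>
    Real.rpow_nonneg (abs_nonneg _) _) hmeas.aestronglyMeasurable]
  exact ENNReal.toReal_le_of_le_ofReal
    (Real.rpow_nonneg (dsc_av_nonneg fun _ => sq_nonneg _) _) (hcb_lint hm K hK θ h0 h1 n ν hν F)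

end Pool.H65.PT
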