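import Pool.Agent.Helper65.PT.Defs
import Pool.Agent.Helper65.PT.Hcb

set_option autoImplicit false

open MeasureTheory ProbabilityTheory Pool.H65.PS

namespace Pool.H65.PT

/-! ### Taylor expansion of psi -/

theorem lbb_deriv0 (p : ℝ) (hp : 1 < p) (u : ℝ) :
    HasDerivAt (fun t : ℝ => (max t 0) ^ p) (p * (max u 0) ^ (p - 1)) u := by
  rcases lt_trichotomy u 0 with h | h | h
  · have h1 : max u 0 = 0 := max_eq_right h.le
    rw [h1, Real.zero_rpow (by linarith), mul_zero]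
    refine (hasDerivAt_const u (0 : ℝ)).congr_of_eventuallyEq ?_
    filter_upwards [Iio_mem_nhds h] with t ht
    rw [max_eq_right (le_of_lt ht), Real.zero_rpow (by linarith)]
  · subst h
    rw [max_self, Real.zero_rpow (by linarith), mul_zero]
    have h1 : HasDerivWithinAt (fun t : ℝ => (max t 0) ^ p) 0 (Set.Iic 0) 0 := by
      refine (hasDerivWithinAt_const (0 : ℝ) (Set.Iic 0) (0 : ℝ)).congr ?_ ?_
      · intro t ht
        rw [max_eq_right ht, Real.zero_rpow (by linarith)]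
      · rw [max_self, Real.zero_rpow (by linarith)]
    have h2 : HasDerivWithinAt (fun t : ℝ => (max t 0) ^ p) 0 (Set.Ici 0) 0 := by
      have h3 := (Real.hasDerivAt_rpow_const (x := 0) (p := p) (Or.inr hp.le)).hasDerivWithinAt
        (s := Set.Ici 0)
      rw [Real.zero_rpow (by linarith), mul_zero] at h3
      refine h3.congr ?_ ?_
      · intro t ht
        rw [max_eq_left ht]
      · rw [max_self]
    have h4 := h1.union h2
    rwa [Set.Iic_union_Ici, hasDerivWithinAt_univ] at h4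
  · have h1 : max u 0 = u := max_eq_left h.le
    rw [h1]
    refine (Real.hasDerivAt_rpow_const (Or.inr hp.le)).congr_of_eventuallyEq ?_
    filter_upwards [Ioi_mem_nhds h] with t ht
    rw [max_eq_left (le_of_lt ht)]

theorem lbb_holder (s : ℝ) (h0 : 0 ≤ s) (h1 : s ≤ 1) (a b : ℝ) (ha : 0 ≤ a) (hb : 0 ≤ b) :
    |a ^ s - b ^ s| ≤ |a - b| ^ s := by
  wlog h : b ≤ a with H
  · rw [abs_sub_comm, abs_sub_comm a b]
    exact H s h0 h1 b a hb ha (le_of_not_ge h)
  · have h2 := Real.rpow_add_le_add_rpow hb (sub_nonneg.2 h) h0 h1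
    rw [add_sub_cancel] at h2
    rw [abs_of_nonneg (sub_nonneg.2 h), abs_of_nonneg (sub_nonneg.2 (Real.rpow_le_rpow hb h h0))]
    linarith

theorem psi_taylor (q : ℝ) (h2 : 2 < q) (h3 : q ≤ 3) (x h : ℝ) :
    |psi q (x + h) - psi q x - (-(q * (max (-x) 0) ^ (q - 1))) * h
      - q * (q - 1) * (max (-x) 0) ^ (q - 2) * h ^ 2 / 2| ≤ 3 * |h| ^ q := by
  set P : ℝ → ℝ := fun y => -(q * (max (-y) 0) ^ (q - 1)) with hP
  set R : ℝ → ℝ := fun y => q * (q - 1) * (max (-y) 0) ^ (q - 2) with hR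
  have hd1 : ∀ y, HasDerivAt (psi q) (P y) y := by
    intro y
    have h4 := (lbb_deriv0 q (by linarith) (-y)).comp y (hasDerivAt_neg y)
    have h5 : HasDerivAt (psi q) (q * (max (-y) 0) ^ (q - 1) * -1) y := h4
    simpa [hP] using h5
  have hd2 : ∀ y, HasDerivAt P (R y) y := by
    intro y
    have h4 := ((lbb_deriv0 (q - 1) (by linarith) (-y)).comp y (hasDerivAt_neg y)).const_mul (-q)
    have h5 : HasDerivAt (fun y => -q * (max (-y) 0) ^ (q - 1))
      (-q * ((q - 1) * (max (-y) 0) ^ (q - 1 - 1) * -1)) y := h4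
    have h6 : -q * ((q - 1) * (max (-y) 0) ^ (q - 1 - 1) * -1) = R y := by
      simp only [hR]
      rw [show q - 1 - 1 = q - 2 by ring]; ring
    rw [h6] at h5
    have h7 : (fun y => -q * (max (-y) 0) ^ (q - 1)) = P := by
      funext y; simp [hP]
    rwa [h7] at h5
  -- first integration
  have hk : ∀ t ∈ Set.Icc (0 : ℝ) 1, ‖(P (x + t * h) - P x - R x * (t * h)) - 0‖
      ≤ (q * (q - 1) * |h| ^ (q - 1)) * (t - 0) := by
    have hdk : ∀ t, HasDerivAt (fun t => P (x + t * h) - P x - R x * (t * h))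
        (R (x + t * h) * h - R x * h) t := by
      intro t
      have e1 : HasDerivAt (fun t : ℝ => x + t * h) h t := by
        simpa using ((hasDerivAt_id t).mul_const h).const_add x
      have e2 := (hd2 (x + t * h)).comp t e1
      have e3 : HasDerivAt (fun t : ℝ => R x * (t * h)) (R x * h) t := by
        simpa using ((hasDerivAt_id t).mul_const h).const_mul (R x)
      exact (e2.sub_const (P x)).sub e3
    have hb : ∀ t ∈ Set.Ico (0 : ℝ) 1, ‖R (x + t * h) * h - R x * h‖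
        ≤ q * (q - 1) * |h| ^ (q - 1) := by
      intro t ht
      have e1 : R (x + t * h) * h - R x * h
          = q * (q - 1) * ((max (-(x + t * h)) 0) ^ (q - 2) - (max (-x) 0) ^ (q - 2)) * h := by
        simp only [hR]; ring
      rw [e1, Real.norm_eq_abs, abs_mul, abs_mul, abs_of_pos (show 0 < q * (q - 1) by nlinarith)]
      have e2 := lbb_holder (q - 2) (by linarith) (by linarith) (max (-(x + t * h)) 0)
        (max (-x) 0) (le_max_right _ _) (le_max_right _ _)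
      have e3 : |max (-(x + t * h)) 0 - max (-x) 0| ≤ |h| := by
        refine (abs_max_sub_max_le_abs _ _ _).trans ?_
        have : -(x + t * h) - -x = -(t * h) := by ring
        rw [this, abs_neg, abs_mul, abs_of_nonneg ht.1]
        exact mul_le_of_le_one_left (abs_nonneg h) ht.2.le
      have e4 : |max (-(x + t * h)) 0 - max (-x) 0| ^ (q - 2) ≤ |h| ^ (q - 2) :=
        Real.rpow_le_rpow (abs_nonneg _) e3 (by linarith)
      have e5 : |h| ^ (q - 2) * |h| = |h| ^ (q - 1) := by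
        rcases eq_or_ne h 0 with h0 | h0
        · subst h0
          rw [abs_zero, mul_zero, Real.zero_rpow (by linarith)]
        · have : |h| ^ (q - 2) * |h| = |h| ^ (q - 2) * |h| ^ (1 : ℝ) := by rw [Real.rpow_one]
          rw [this, ← Real.rpow_add (abs_pos.2 h0)]
          congr 1; ring
      calc q * (q - 1) * |(max (-(x + t * h)) 0) ^ (q - 2) - (max (-x) 0) ^ (q - 2)| * |h|
          ≤ q * (q - 1) * |h| ^ (q - 2) * |h| := by
            refine mul_le_mul_of_nonneg_right ?_ (abs_nonneg _)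
            exact mul_le_mul_of_nonneg_left (e2.trans e4) (by nlinarith)
        _ = q * (q - 1) * |h| ^ (q - 1) := by rw [mul_assoc, e5]
    have e7 := norm_image_sub_le_of_norm_deriv_right_le_segment (a := (0 : ℝ)) (b := 1)
      (f := fun t => P (x + t * h) - P x - R x * (t * h))
      (f' := fun t => R (x + t * h) * h - R x * h)
      (C := q * (q - 1) * |h| ^ (q - 1))
      (fun t _ => (hdk t).continuousAt.continuousWithinAt)
      (fun t _ => (hdk t).hasDerivWithinAt) hb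
    intro t ht
    have e8 := e7 t ht
    simpa using e8
  -- second integration
  have hg : ∀ t ∈ Set.Icc (0 : ℝ) 1,
      ‖psi q (x + t * h) - psi q x - P x * (t * h) - R x * (t * h) ^ 2 / 2‖
        ≤ q * (q - 1) * |h| ^ q * t ^ 2 / 2 := by
    have hdg : ∀ t, HasDerivAt
        (fun t => psi q (x + t * h) - psi q x - P x * (t * h) - R x * (t * h) ^ 2 / 2)
        (P (x + t * h) * h - P x * h - R x * (t * h) * h) t := by
      intro t
      have e1 : HasDerivAt (fun t : ℝ => x + t * h) h t := by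
        simpa using ((hasDerivAt_id t).mul_const h).const_add x
      have e2 := (hd1 (x + t * h)).comp t e1
      have e0 : HasDerivAt (fun t : ℝ => t * h) h t := by
        simpa using (hasDerivAt_id t).mul_const h
      have e3 : HasDerivAt (fun t : ℝ => P x * (t * h)) (P x * h) t := e0.const_mul (P x)
      have e4 : HasDerivAt (fun t : ℝ => R x * (t * h) ^ 2 / 2) (R x * (t * h) * h) t := by
        have e5 := ((e0.pow 2).const_mul (R x)).div_const 2
        refine e5.congr_deriv ?_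
        simp; ring
      exact ((e2.sub_const (psi q x)).sub e3).sub e4
    have hbd : ∀ t ∈ Set.Ico (0 : ℝ) 1, ‖P (x + t * h) * h - P x * h - R x * (t * h) * h‖
        ≤ q * (q - 1) * |h| ^ q * t := by
      intro t ht
      have e1 := hk t ⟨ht.1, ht.2.le⟩
      rw [sub_zero, sub_zero] at e1
      have e2 : P (x + t * h) * h - P x * h - R x * (t * h) * h
          = (P (x + t * h) - P x - R x * (t * h)) * h := by ring
      rw [e2, norm_mul, Real.norm_eq_abs h]
      have e5 : |h| ^ (q - 1) * |h| = |h| ^ q := by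
        rcases eq_or_ne h 0 with h0 | h0
        · subst h0
          rw [abs_zero, mul_zero, Real.zero_rpow (by linarith)]
        · have : |h| ^ (q - 1) * |h| = |h| ^ (q - 1) * |h| ^ (1 : ℝ) := by rw [Real.rpow_one]
          rw [this, ← Real.rpow_add (abs_pos.2 h0)]
          congr 1; ring
      calc ‖P (x + t * h) - P x - R x * (t * h)‖ * |h|
          ≤ (q * (q - 1) * |h| ^ (q - 1)) * t * |h| :=
            mul_le_mul_of_nonneg_right e1 (abs_nonneg _)
        _ = q * (q - 1) * (|h| ^ (q - 1) * |h|) * t := by ring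
        _ = q * (q - 1) * |h| ^ q * t := by rw [e5]
    have e7 := image_norm_le_of_norm_deriv_right_le_deriv_boundary (a := (0 : ℝ)) (b := 1)
      (f := fun t => psi q (x + t * h) - psi q x - P x * (t * h) - R x * (t * h) ^ 2 / 2)
      (f' := fun t => P (x + t * h) * h - P x * h - R x * (t * h) * h)
      (B := fun t => q * (q - 1) * |h| ^ q * t ^ 2 / 2)
      (B' := fun t => q * (q - 1) * |h| ^ q * t)
      (fun t _ => (hdg t).continuousAt.continuousWithinAt)
      (fun t _ => (hdg t).hasDerivWithinAt) (by simp)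
      (by
        intro t
        have := ((hasDerivAt_pow 2 t).const_mul (q * (q - 1) * |h| ^ q)).div_const 2
        refine this.congr_deriv ?_
        simp; ring) hbd
    intro t ht
    exact e7 ht
  have hfin := hg 1 ⟨zero_le_one, le_rfl⟩
  rw [one_mul, Real.norm_eq_abs] at hfin
  have hh : 0 ≤ |h| ^ q := Real.rpow_nonneg (abs_nonneg _) _
  have hfin2 : |psi q (x + h) - psi q x - P x * h - R x * h ^ 2 / 2| ≤ 3 * |h| ^ q := by
    refine hfin.trans ?_
    have : q * (q - 1) ≤ 6 := by nlinarith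
    nlinarith
  exact hfin2

/-! ### algebra of one coordinate -/

section algebra

variable {m n : ℕ}

/-- swapping symmetry for one coordinate -/
theorem lbb_swap (k : Fin n) (Φ : (Fin n → Fin m) → (Fin n → Fin m) → ℝ) :
    ∑ ω, ∑ a : Fin m, Φ ω (Function.update ω k a)
      = ∑ ω, ∑ a : Fin m, Φ (Function.update ω k a) ω := by
  let T : ((Fin n → Fin m) × Fin m) → ((Fin n → Fin m) × Fin m) :=
    fun p => (Function.update p.1 k p.2, p.1 k)
  have hT : Function.Involutive T := by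
    rintro ⟨ω, a⟩
    simp [T]
  rw [← Fintype.sum_prod_type', ← Fintype.sum_prod_type']
  rw [← Equiv.sum_comp (Function.Involutive.toPerm T hT)
    (fun p : (Fin n → Fin m) × Fin m => Φ (Function.update p.1 k p.2) p.1)]
  refine Finset.sum_congr rfl fun p _ => ?_
  simp [T, Function.Involutive.toPerm]

/-- product over the other coordinates -/
noncomputable def lbbP (k : Fin n) (w : Fin n → Fin m → ℝ) (ω : Fin n → Fin m) : ℝ :=
  ∏ i ∈ Finset.univ.erase k, w i (ω i)

theorem lbbP_update (k : Fin n) (w : Fin n → Fin m → ℝ) (ω : Fin n → Fin m) (a : Fin m) :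
    lbbP k w (Function.update ω k a) = lbbP k w ω := by
  unfold lbbP
  refine Finset.prod_congr rfl fun i hi => ?_
  rw [Function.update_of_ne (Finset.ne_of_mem_erase hi)]

theorem lbb_pol (k : Fin n) (G : (Fin n → Fin m) → ℝ) (w : Fin n → Fin m → ℝ) :
    pol G w = ∑ ω, G ω * (w k (ω k) * lbbP k w ω) := by
  unfold pol lbbP
  refine Finset.sum_congr rfl fun ω _ => ?_
  rw [← Finset.mul_prod_erase Finset.univ (fun i => w i (ω i)) (Finset.mem_univ k)]

theorem lbb_pol_update (k : Fin n) (G : (Fin n → Fin m) → ℝ) (w : Fin n → Fin m → ℝ)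
    (v : Fin m → ℝ) :
    pol G (Function.update w k v) = ∑ ω, G ω * (v (ω k) * lbbP k w ω) := by
  rw [lbb_pol k]
  refine Finset.sum_congr rfl fun ω _ => ?_
  rw [Function.update_self]
  congr 2
  unfold lbbP
  refine Finset.prod_congr rfl fun i hi => ?_
  rw [Function.update_of_ne (Finset.ne_of_mem_erase hi)]

/-- linearity in one coordinate -/
theorem lbb_pol_lin (k : Fin n) (G : (Fin n → Fin m) → ℝ) (w : Fin n → Fin m → ℝ)
    (v : Fin m → ℝ) :
    pol G (Function.update w k v) = ∑ a, pol G (Function.update w k (Pi.single a 1)) * v a := by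
  simp_rw [lbb_pol_update, Finset.sum_mul]
  rw [Finset.sum_comm]
  refine Finset.sum_congr rfl fun ω _ => ?_
  rw [Finset.sum_eq_single (ω k)]
  · rw [Pi.single_eq_same]; ring
  · intro b _ hb
    rw [Pi.single_eq_of_ne (Ne.symm hb)]; ring
  · intro h; exact absurd (Finset.mem_univ _) h

/-- average over one coordinate -/
noncomputable def lbbE (k : Fin n) (G : (Fin n → Fin m) → ℝ) (ω : Fin n → Fin m) : ℝ :=
  (m : ℝ)⁻¹ * ∑ a : Fin m, G (Function.update ω k a)

theorem lbb_pol_E (k : Fin n) (G : (Fin n → Fin m) → ℝ) (w : Fin n → Fin m → ℝ)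
    (hw : ∑ a, w k a = 1) :
    pol (lbbE k G) w = pol G (Function.update w k (fun _ => (m : ℝ)⁻¹)) := by
  rw [lbb_pol k, lbb_pol_update]
  unfold lbbE
  have h1 : ∀ ω : Fin n → Fin m, ((m : ℝ)⁻¹ * ∑ a : Fin m, G (Function.update ω k a)) *
      (w k (ω k) * lbbP k w ω)
      = (m : ℝ)⁻¹ * ∑ a : Fin m, G (Function.update ω k a) * (w k (ω k) * lbbP k w ω) := by
    intro ω
    rw [mul_assoc, Finset.sum_mul]
  simp_rw [h1]
  rw [← Finset.mul_sum, lbb_swap k (fun ω ω' => G ω' * (w k (ω k) * lbbP k w ω)),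
    Finset.mul_sum]
  refine Finset.sum_congr rfl fun ω _ => ?_
  simp_rw [lbbP_update, Function.update_self]
  rw [← Finset.mul_sum, ← Finset.sum_mul, hw]
  ring

/-- the kernel -/
noncomputable def lbbk (θ : ℝ) (a b : Fin m) : ℝ :=
  if a = b then (1 + ((m : ℝ) - 1) * θ) / m else (1 - θ) / m

theorem lbbk_sum (hm : 1 ≤ m) (θ : ℝ) (b : Fin m) : ∑ a : Fin m, lbbk θ a b = 1 := by
  have hm' : (m : ℝ) ≠ 0 := by positivity
  unfold lbbk
  have h1 : ∀ a : Fin m, (if a = b then (1 + ((m : ℝ) - 1) * θ) / m else (1 - θ) / m)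
      = (1 - θ) / m + (if a = b then θ else 0) := by
    intro a
    split_ifs
    · field_simp; ring
    · ring
  simp_rw [h1]
  rw [Finset.sum_add_distrib, Finset.sum_const, Finset.sum_ite_eq' Finset.univ b]
  simp
  field_simp
  ring

theorem lbbk_symm (θ : ℝ) (a b : Fin m) : lbbk θ a b = lbbk θ b a := by
  unfold lbbk
  by_cases h : a = b
  · rw [if_pos h, if_pos h.symm]
  · rw [if_neg h, if_neg (Ne.symm h)]

theorem lbb_Tn (k : Fin n) (θ : ℝ) (F : (Fin n → Fin m) → ℝ) (ω : Fin n → Fin m) :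
    Tn θ F ω = ∑ δ : Fin n → Fin m,
      (lbbk θ (δ k) (ω k) * ∏ i ∈ Finset.univ.erase k, lbbk θ (δ i) (ω i)) * F δ := by
  unfold Tn
  refine Finset.sum_congr rfl fun δ _ => ?_
  rw [Finset.mul_prod_erase Finset.univ (fun i => lbbk θ (δ i) (ω i)) (Finset.mem_univ k)]
  rfl

theorem lbb_Tn_E (hm : 1 ≤ m) (k : Fin n) (θ : ℝ) (F : (Fin n → Fin m) → ℝ) :
    Tn θ (lbbE k F) = lbbE k (Tn θ F) := by
  have hm' : (m : ℝ) ≠ 0 := by positivity
  funext ω
  set Q : (Fin n → Fin m) → ℝ := fun δ => ∏ i ∈ Finset.univ.erase k, lbbk θ (δ i) (ω i) with hQ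
  have hQu : ∀ δ a, Q (Function.update δ k a) = Q δ := by
    intro δ a
    simp only [hQ]
    refine Finset.prod_congr rfl fun i hi => ?_
    rw [Function.update_of_ne (Finset.ne_of_mem_erase hi)]
  have h1 : Tn θ (lbbE k F) ω = (m : ℝ)⁻¹ * ∑ δ, Q δ * F δ := by
    rw [lbb_Tn k]
    unfold lbbE
    have e1 : ∀ δ : Fin n → Fin m, (lbbk θ (δ k) (ω k) * Q δ) *
        ((m : ℝ)⁻¹ * ∑ a : Fin m, F (Function.update δ k a))
        = (m : ℝ)⁻¹ * ∑ a : Fin m, (lbbk θ (δ k) (ω k) * Q δ) * F (Function.update δ k a) := by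
      intro δ
      rw [Finset.mul_sum, Finset.mul_sum, Finset.mul_sum]
      refine Finset.sum_congr rfl fun a _ => ?_
      ring
    simp_rw [← hQ] at *
    rw [Finset.sum_congr rfl fun δ _ => e1 δ, ← Finset.mul_sum,
      lbb_swap k (fun δ δ' => (lbbk θ (δ k) (ω k) * Q δ) * F δ')]
    congr 1
    refine Finset.sum_congr rfl fun δ _ => ?_
    simp_rw [hQu, Function.update_self]
    rw [← Finset.sum_mul, ← Finset.sum_mul, lbbk_sum hm, one_mul]
  have h2 : lbbE k (Tn θ F) ω = (m : ℝ)⁻¹ * ∑ δ, Q δ * F δ := by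
    unfold lbbE
    congr 1
    have e2 : ∀ a : Fin m, Tn θ F (Function.update ω k a)
        = ∑ δ : Fin n → Fin m, (lbbk θ (δ k) a * Q δ) * F δ := by
      intro a
      rw [lbb_Tn k]
      refine Finset.sum_congr rfl fun δ _ => ?_
      rw [Function.update_self]
      congr 2
      simp only [hQ]
      refine Finset.prod_congr rfl fun i hi => ?_
      rw [Function.update_of_ne (Finset.ne_of_mem_erase hi)]
    simp_rw [e2]
    rw [Finset.sum_comm]
    refine Finset.sum_congr rfl fun δ _ => ?_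
    rw [← Finset.sum_mul, ← Finset.sum_mul]
    congr 1
    simp_rw [lbbk_symm θ (δ k)]
    rw [lbbk_sum hm, one_mul]
  rw [h1, h2]

theorem lbb_pol_sub (G H : (Fin n → Fin m) → ℝ) (w : Fin n → Fin m → ℝ) :
    pol (fun ω => G ω - H ω) w = pol G w - pol H w := by
  unfold pol
  rw [← Finset.sum_sub_distrib]
  refine Finset.sum_congr rfl fun ω _ => ?_
  ring

theorem lbb_Tn_sub (θ : ℝ) (G H : (Fin n → Fin m) → ℝ) :
    Tn θ (fun ω => G ω - H ω) = fun ω => Tn θ G ω - Tn θ H ω := by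
  funext ω
  unfold Tn
  rw [← Finset.sum_sub_distrib]
  refine Finset.sum_congr rfl fun ω _ => ?_
  ring

theorem lbb_infl (F : (Fin n → Fin m) → ℝ) (k : Fin n) :
    infl F k = av (fun ω => (F ω - lbbE k F ω) ^ 2) := rfl

/-- the coefficients of the linear part -/
noncomputable def lbbb (k : Fin n) (G : (Fin n → Fin m) → ℝ) (w : Fin n → Fin m → ℝ)
    (a : Fin m) : ℝ := pol G (Function.update w k (Pi.single a 1))

noncomputable def lbbA (k : Fin n) (G : (Fin n → Fin m) → ℝ) (w : Fin n → Fin m → ℝ) : ℝ :=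
  pol G (Function.update w k (fun _ => (m : ℝ)⁻¹))

noncomputable def lbbB (k : Fin n) (G : (Fin n → Fin m) → ℝ) (w : Fin n → Fin m → ℝ) : ℝ :=
  ∑ a, lbbb k G w a * (w k a - (m : ℝ)⁻¹)

theorem lbb_split (k : Fin n) (G : (Fin n → Fin m) → ℝ) (w : Fin n → Fin m → ℝ) :
    pol G w = lbbA k G w + lbbB k G w := by
  unfold lbbA lbbB lbbb
  rw [lbb_pol_lin k G w (fun _ => (m : ℝ)⁻¹), ← Finset.sum_add_distrib]
  have h := lbb_pol_lin k G w (w k)
  rw [Function.update_eq_self] at h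
  rw [h]
  refine Finset.sum_congr rfl fun a _ => ?_
  ring

theorem lbb_B_eq (hm : 1 ≤ m) (k : Fin n) (θ : ℝ) (F : (Fin n → Fin m) → ℝ)
    (w : Fin n → Fin m → ℝ) (hw : ∑ a, w k a = 1) :
    lbbB k (Tn θ F) w = pol (Tn θ (fun ω => F ω - lbbE k F ω)) w := by
  rw [lbb_Tn_sub, lbb_pol_sub]
  have h : (fun ω => Tn θ (fun ω => lbbE k F ω) ω) = lbbE k (Tn θ F) := lbb_Tn_E hm k θ F
  have h' : pol (fun ω => Tn θ (fun ω => lbbE k F ω) ω) w
      = pol (Tn θ F) (Function.update w k (fun _ => (m : ℝ)⁻¹)) := by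
    rw [h, lbb_pol_E k _ w hw]
  have h2 := lbb_split k (Tn θ F) w
  have h3 : pol (fun ω => Tn θ F ω) w = pol (Tn θ F) w := rfl
  have h4 : pol (Tn θ (fun ω => lbbE k F ω)) w
      = pol (Tn θ F) (Function.update w k (fun _ => (m : ℝ)⁻¹)) := h'
  rw [h2]
  unfold lbbA
  unfold lbbA at h2
  linarith

theorem lbbb_update (k : Fin n) (G : (Fin n → Fin m) → ℝ) (w : Fin n → Fin m → ℝ)
    (v : Fin m → ℝ) (a : Fin m) : lbbb k G (Function.update w k v) a = lbbb k G w a := by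
  unfold lbbb
  rw [Function.update_idem]

theorem lbbA_update (k : Fin n) (G : (Fin n → Fin m) → ℝ) (w : Fin n → Fin m → ℝ)
    (v : Fin m → ℝ) : lbbA k G (Function.update w k v) = lbbA k G w := by
  unfold lbbA
  rw [Function.update_idem]

theorem lbbB_update (k : Fin n) (G : (Fin n → Fin m) → ℝ) (w : Fin n → Fin m → ℝ)
    (v : Fin m → ℝ) :
    lbbB k G (Function.update w k v) = ∑ a, lbbb k G w a * (v a - (m : ℝ)⁻¹) := by
  unfold lbbB
  simp_rw [lbbb_update, Function.update_self]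

theorem lbb_pol_cont (G : (Fin n → Fin m) → ℝ) : Continuous (pol G) := by
  unfold pol
  fun_prop

theorem lbbA_cont (k : Fin n) (G : (Fin n → Fin m) → ℝ) : Continuous (lbbA k G) := by
  unfold lbbA
  exact (lbb_pol_cont G).comp (continuous_id.update k continuous_const)

theorem lbbb_cont (k : Fin n) (G : (Fin n → Fin m) → ℝ) (a : Fin m) :
    Continuous (fun w => lbbb k G w a) := by
  unfold lbbb
  exact (lbb_pol_cont G).comp (continuous_id.update k continuous_const)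

theorem lbbB_cont (k : Fin n) (G : (Fin n → Fin m) → ℝ) : Continuous (lbbB k G) := by
  unfold lbbB
  refine continuous_finsetSum _ fun a _ => (lbbb_cont k G a).mul ?_
  fun_prop

end algebra

/-! ### measures -/

section meas

variable {m n : ℕ}

theorem lbb_map_update (μ μ' : Fin n → Measure (Fin m → ℝ)) [∀ i, IsProbabilityMeasure (μ i)]
    [∀ i, IsProbabilityMeasure (μ' i)] (k : Fin n) (h : ∀ j, j ≠ k → μ' j = μ j) :
    MeasurePreserving (fun q : (Fin m → ℝ) × (Fin n → Fin m → ℝ) => Function.update q.2 k q.1)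
      ((μ' k).prod (Measure.pi μ)) (Measure.pi μ') := by
  have hmeas : Measurable
      (fun q : (Fin m → ℝ) × (Fin n → Fin m → ℝ) => Function.update q.2 k q.1) := by
    refine measurable_pi_lambda _ fun j => ?_
    by_cases hj : j = k
    · subst hj; simpa using measurable_fst
    · simp only [Function.update_of_ne hj]
      exact (measurable_pi_apply j).comp measurable_snd
  refine ⟨hmeas, ?_⟩
  symm
  refine Measure.pi_eq fun s hs => ?_
  rw [Measure.map_apply hmeas (MeasurableSet.univ_pi hs)]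
  have hpre : (fun q : (Fin m → ℝ) × (Fin n → Fin m → ℝ) => Function.update q.2 k q.1) ⁻¹'
      (Set.univ.pi s) = (s k) ×ˢ (Set.univ.pi (Function.update s k Set.univ)) := by
    ext q
    simp only [Set.mem_preimage, Set.mem_pi, Set.mem_univ, true_implies, Set.mem_prod]
    constructor
    · intro h
      refine ⟨by simpa using h k, fun j => ?_⟩
      by_cases hj : j = k
      · subst hj; simp
      · simpa [Function.update_of_ne hj] using h j
    · rintro ⟨h1, h2⟩ j
      by_cases hj : j = k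
      · subst hj; simpa using h1
      · simpa [Function.update_of_ne hj] using h2 j
  rw [hpre, Measure.prod_prod, Measure.pi_pi]
  rw [← Finset.mul_prod_erase Finset.univ (fun j => (μ' j) (s j)) (Finset.mem_univ k),
    ← Finset.mul_prod_erase Finset.univ
      (fun j => (μ j) (Function.update s k Set.univ j)) (Finset.mem_univ k)]
  simp only [Function.update_self, measure_univ, one_mul]
  congr 1
  refine Finset.prod_congr rfl fun j hj => ?_
  rw [Function.update_of_ne (Finset.ne_of_mem_erase hj), h j (Finset.ne_of_mem_erase hj)]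

theorem lbb_int_coord {μ : Measure (Fin m → ℝ)} {K : ℝ} (hμ : WL μ K) (a : Fin m) :
    Integrable (fun w : Fin m → ℝ => w a) μ := by
  have := hμ.prob
  refine Integrable.mono' ((integrable_const (1 : ℝ)).add hμ.mom)
    (measurable_pi_apply a).aestronglyMeasurable ?_
  refine Filter.Eventually.of_forall fun w => ?_
  simp only [Pi.add_apply]
  have h1 : ‖w a‖ ≤ ‖w‖ := norm_le_pi_norm w a
  nlinarith [sq_nonneg (‖w‖ ^ 2 - 1), sq_nonneg (‖w‖ - 1), norm_nonneg w, sq_nonneg (‖w‖ ^ 2)]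

theorem lbb_int_coord2 {μ : Measure (Fin m → ℝ)} {K : ℝ} (hμ : WL μ K) (a b : Fin m) :
    Integrable (fun w : Fin m → ℝ => w a * w b) μ := by
  have := hμ.prob
  refine Integrable.mono' ((integrable_const (1 : ℝ)).add hμ.mom)
    ((measurable_pi_apply a).mul (measurable_pi_apply b)).aestronglyMeasurable ?_
  refine Filter.Eventually.of_forall fun w => ?_
  simp only [Pi.add_apply]
  have h1 : ‖w a‖ ≤ ‖w‖ := norm_le_pi_norm w a
  have h2 : ‖w b‖ ≤ ‖w‖ := norm_le_pi_norm w b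
  rw [norm_mul]
  have h3 : ‖w a‖ * ‖w b‖ ≤ ‖w‖ * ‖w‖ := mul_le_mul h1 h2 (norm_nonneg _) (norm_nonneg _)
  nlinarith [sq_nonneg (‖w‖ ^ 2 - 1), sq_nonneg (‖w‖ - 1), norm_nonneg w, sq_nonneg (‖w‖ ^ 2)]

theorem lbb_wl1 {μ : Measure (Fin m → ℝ)} {K : ℝ} (hμ : WL μ K) (b : Fin m → ℝ) :
    Integrable (fun v : Fin m → ℝ => ∑ a, b a * (v a - (m : ℝ)⁻¹)) μ ∧
    ∫ v, ∑ a, b a * (v a - (m : ℝ)⁻¹) ∂μ = 0 := by
  have := hμ.prob
  have h1 : ∀ a, Integrable (fun v : Fin m → ℝ => b a * (v a - (m : ℝ)⁻¹)) μ := fun a =>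
    ((lbb_int_coord hμ a).sub (integrable_const _)).const_mul _
  refine ⟨integrable_finsetSum _ fun a _ => h1 a, ?_⟩
  rw [integral_finsetSum _ fun a _ => h1 a]
  refine Finset.sum_eq_zero fun a _ => ?_
  rw [integral_const_mul, integral_sub (lbb_int_coord hμ a) (integrable_const _), hμ.mean a]
  simp

theorem lbb_wl2 {μ : Measure (Fin m → ℝ)} {K : ℝ} (hμ : WL μ K) (b : Fin m → ℝ) :
    Integrable (fun v : Fin m → ℝ => (∑ a, b a * (v a - (m : ℝ)⁻¹)) ^ 2) μ ∧
    ∫ v, (∑ a, b a * (v a - (m : ℝ)⁻¹)) ^ 2 ∂μ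
      = ∑ a, ∑ c, b a * b c * ((if a = c then (m : ℝ)⁻¹ else 0) - (m : ℝ)⁻¹ * (m : ℝ)⁻¹) := by
  have := hμ.prob
  have h0 : ∀ v : Fin m → ℝ, (∑ a, b a * (v a - (m : ℝ)⁻¹)) ^ 2
      = ∑ a, ∑ c, b a * b c * (v a * v c - (m : ℝ)⁻¹ * v a - (m : ℝ)⁻¹ * v c
        + (m : ℝ)⁻¹ * (m : ℝ)⁻¹) := by
    intro v
    rw [sq, Finset.sum_mul_sum]
    refine Finset.sum_congr rfl fun a _ => Finset.sum_congr rfl fun c _ => ?_
    ring
  have h1 : ∀ a c, Integrable (fun v : Fin m → ℝ => b a * b c * (v a * v c - (m : ℝ)⁻¹ * v a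
      - (m : ℝ)⁻¹ * v c + (m : ℝ)⁻¹ * (m : ℝ)⁻¹)) μ := fun a c =>
    ((((lbb_int_coord2 hμ a c).sub ((lbb_int_coord hμ a).const_mul _)).sub
      ((lbb_int_coord hμ c).const_mul _)).add (integrable_const _)).const_mul _
  simp_rw [h0]
  refine ⟨integrable_finsetSum _ fun a _ => integrable_finsetSum _ fun c _ => h1 a c, ?_⟩
  rw [integral_finsetSum _ fun a _ => integrable_finsetSum _ fun c _ => h1 a c]
  refine Finset.sum_congr rfl fun a _ => ?_
  rw [integral_finsetSum _ fun c _ => h1 a c]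
  refine Finset.sum_congr rfl fun c _ => ?_
  rw [integral_const_mul]
  congr 1
  have i1 : Integrable (fun v : Fin m → ℝ => v a * v c) μ := lbb_int_coord2 hμ a c
  have i2 : Integrable (fun v : Fin m → ℝ => (m : ℝ)⁻¹ * v a) μ := (lbb_int_coord hμ a).const_mul _
  have i3 : Integrable (fun v : Fin m → ℝ => (m : ℝ)⁻¹ * v c) μ := (lbb_int_coord hμ c).const_mul _
  have i4 : Integrable (fun v : Fin m → ℝ => v a * v c - (m : ℝ)⁻¹ * v a) μ := i1.sub i2
  have i5 : Integrable (fun v : Fin m → ℝ => v a * v c - (m : ℝ)⁻¹ * v a - (m : ℝ)⁻¹ * v c) μ :=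
    i4.sub i3
  rw [integral_add i5 (integrable_const _), integral_sub i4 i3, integral_sub i1 i2,
    integral_const_mul, integral_const_mul, hμ.mean a, hμ.mean c, hμ.cov a c, integral_const]
  simp

/-- the dominating function -/
noncomputable def lbbD (w : Fin n → Fin m → ℝ) : ℝ := ∏ i, (1 + ‖w i‖)

theorem lbbD_one_le (w : Fin n → Fin m → ℝ) : 1 ≤ lbbD w := by
  unfold lbbD
  have h : ∏ i : Fin n, (1 : ℝ) ≤ ∏ i, (1 + ‖w i‖) := by
    refine Finset.prod_le_prod (fun i _ => zero_le_one) fun i _ => ?_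
    have := norm_nonneg (w i)
    linarith
  simpa using h

theorem lbbD_int {K : ℝ} (μ : Fin n → Measure (Fin m → ℝ)) (hμ : ∀ i, WL (μ i) K) :
    Integrable (fun w : Fin n → Fin m → ℝ => lbbD w ^ 4) (Measure.pi μ) := by
  have : ∀ i, IsProbabilityMeasure (μ i) := fun i => (hμ i).prob
  have h1 : ∀ i, Integrable (fun x : Fin m → ℝ => (1 + ‖x‖) ^ 4) (μ i) := by
    intro i
    refine Integrable.mono' (((integrable_const (1 : ℝ)).add (hμ i).mom).const_mul 8)
      (by fun_prop) ?_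
    refine Filter.Eventually.of_forall fun x => ?_
    simp only [Pi.add_apply]
    rw [Real.norm_eq_abs, abs_of_nonneg (by positivity)]
    have := norm_nonneg x
    nlinarith [sq_nonneg (‖x‖ ^ 2 - 1), sq_nonneg (‖x‖ - 1), sq_nonneg (‖x‖ ^ 2 - ‖x‖),
      sq_nonneg (‖x‖ ^ 2)]
  have h2 := Integrable.fintype_prod (μ := μ) (f := fun _ x => (1 + ‖x‖) ^ 4) h1
  refine h2.congr (Filter.Eventually.of_forall fun w => ?_)
  simp only [lbbD]
  rw [Finset.prod_pow]

theorem lbb_pol_bd (G : (Fin n → Fin m) → ℝ) (w : Fin n → Fin m → ℝ) :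
    |pol G w| ≤ (∑ ω, |G ω|) * lbbD w := by
  unfold pol
  refine (Finset.abs_sum_le_sum_abs _ _).trans ?_
  rw [Finset.sum_mul]
  refine Finset.sum_le_sum fun ω _ => ?_
  rw [abs_mul]
  refine mul_le_mul_of_nonneg_left ?_ (abs_nonneg _)
  rw [Finset.abs_prod]
  unfold lbbD
  refine Finset.prod_le_prod (fun i _ => abs_nonneg _) fun i _ => ?_
  have := norm_le_pi_norm (w i) (ω i)
  rw [Real.norm_eq_abs] at this
  linarith

theorem lbbA_bd (hm : 1 ≤ m) (k : Fin n) (G : (Fin n → Fin m) → ℝ) (w : Fin n → Fin m → ℝ) :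
    |lbbA k G w| ≤ (∑ ω, |G ω|) * lbbD w := by
  unfold lbbA
  rw [lbb_pol_update, Finset.sum_mul]
  refine (Finset.abs_sum_le_sum_abs _ _).trans ?_
  refine Finset.sum_le_sum fun ω _ => ?_
  rw [abs_mul]
  refine mul_le_mul_of_nonneg_left ?_ (abs_nonneg _)
  rw [abs_mul]
  unfold lbbD lbbP
  rw [Finset.abs_prod, ← Finset.mul_prod_erase Finset.univ (fun i => 1 + ‖w i‖)
    (Finset.mem_univ k)]
  refine mul_le_mul ?_ ?_ (Finset.prod_nonneg fun i _ => abs_nonneg _) ?_
  · have h1 : (1 : ℝ) ≤ (m : ℝ) := by exact_mod_cast hm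
    have h2 : (m : ℝ)⁻¹ ≤ 1 := inv_le_one_of_one_le₀ h1
    rw [abs_of_nonneg (by positivity)]
    have := norm_nonneg (w k)
    linarith
  · refine Finset.prod_le_prod (fun i _ => abs_nonneg _) fun i _ => ?_
    have := norm_le_pi_norm (w i) (ω i)
    rw [Real.norm_eq_abs] at this
    linarith
  · have := norm_nonneg (w k)
    linarith

theorem lbb_psi_nonneg (q t : ℝ) : 0 ≤ psi q t := Real.rpow_nonneg (le_max_right _ _) _

theorem lbb_rpow_le4 (q M x : ℝ) (h0 : 0 ≤ q) (h4 : q ≤ 4) (hM : 1 ≤ M) (hx : 0 ≤ x)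
    (hxM : x ≤ M) : x ^ q ≤ M ^ 4 := by
  calc x ^ q ≤ M ^ q := Real.rpow_le_rpow hx hxM h0
    _ ≤ M ^ (4 : ℝ) := Real.rpow_le_rpow_of_exponent_le hM h4
    _ = M ^ 4 := by norm_cast

/-- the Taylor polynomial -/
noncomputable def lbbG (q : ℝ) (k : Fin n) (G : (Fin n → Fin m) → ℝ)
    (w : Fin n → Fin m → ℝ) : ℝ :=
  psi q (lbbA k G w) + (-(q * (max (-(lbbA k G w)) 0) ^ (q - 1))) * lbbB k G w
    + q * (q - 1) * (max (-(lbbA k G w)) 0) ^ (q - 2) * lbbB k G w ^ 2 / 2

theorem lbb_rpow_le (q M x : ℝ) (j : ℕ) (h0 : 0 ≤ q) (h4 : q ≤ j) (hM : 1 ≤ M) (hx : 0 ≤ x)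
    (hxM : x ≤ M) : x ^ q ≤ M ^ j := by
  calc x ^ q ≤ M ^ q := Real.rpow_le_rpow hx hxM h0
    _ ≤ M ^ (j : ℝ) := Real.rpow_le_rpow_of_exponent_le hM h4
    _ = M ^ j := by norm_cast

theorem lbbB_bd (hm : 1 ≤ m) (k : Fin n) (G : (Fin n → Fin m) → ℝ) (w : Fin n → Fin m → ℝ) :
    |lbbB k G w| ≤ (1 + 2 * ∑ ω, |G ω|) * lbbD w := by
  have h1 := lbb_split k G w
  have h2 := lbb_pol_bd G w
  have h3 := lbbA_bd hm k G w
  have h4 : lbbB k G w = pol G w - lbbA k G w := by linarith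
  have h5 := lbbD_one_le w
  rw [h4]
  refine (abs_sub _ _).trans ?_
  nlinarith

theorem lbb_psi_cont (q : ℝ) (h2 : 2 < q) : Continuous (psi q) := by
  unfold psi
  exact (continuous_neg.max continuous_const).rpow_const fun x => Or.inr (by linarith)

theorem lbb_max_le (t M : ℝ) (h : |t| ≤ M) : max (-t) 0 ≤ M :=
  max_le ((neg_le_abs t).trans h) ((abs_nonneg t).trans h)

theorem lbb_int_psi {K : ℝ} (hm : 1 ≤ m) (q : ℝ) (h2 : 2 < q) (h3 : q ≤ 3)
    (μ : Fin n → Measure (Fin m → ℝ)) (hμ : ∀ i, WL (μ i) K) (G : (Fin n → Fin m) → ℝ) :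
    Integrable (fun w => psi q (pol G w)) (Measure.pi μ) := by
  have : ∀ i, IsProbabilityMeasure (μ i) := fun i => (hμ i).prob
  set S := ∑ ω, |G ω| with hS
  have hS0 : 0 ≤ S := Finset.sum_nonneg fun _ _ => abs_nonneg _
  refine Integrable.mono' ((lbbD_int μ hμ).const_mul ((1 + 2 * S) ^ 4))
    ((lbb_psi_cont q h2).comp (lbb_pol_cont G)).aestronglyMeasurable ?_
  refine Filter.Eventually.of_forall fun w => ?_
  rw [Real.norm_eq_abs, abs_of_nonneg (lbb_psi_nonneg _ _), ← mul_pow]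
  have h5 := lbbD_one_le w
  refine lbb_rpow_le q _ _ 4 (by linarith) (by norm_num; linarith) (by nlinarith)
    (le_max_right _ _) (lbb_max_le _ _ ?_)
  refine (lbb_pol_bd G w).trans ?_
  nlinarith

theorem lbb_int_B {K : ℝ} (hm : 1 ≤ m) (q : ℝ) (h2 : 2 < q) (h3 : q ≤ 3)
    (μ : Fin n → Measure (Fin m → ℝ)) (hμ : ∀ i, WL (μ i) K) (k : Fin n)
    (G : (Fin n → Fin m) → ℝ) :
    Integrable (fun w => |lbbB k G w| ^ q) (Measure.pi μ) := by
  have : ∀ i, IsProbabilityMeasure (μ i) := fun i => (hμ i).prob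
  set S := ∑ ω, |G ω| with hS
  have hS0 : 0 ≤ S := Finset.sum_nonneg fun _ _ => abs_nonneg _
  refine Integrable.mono' ((lbbD_int μ hμ).const_mul ((1 + 2 * S) ^ 4))
    ((lbbB_cont k G).abs.rpow_const fun x => Or.inr (by linarith)).aestronglyMeasurable ?_
  refine Filter.Eventually.of_forall fun w => ?_
  rw [Real.norm_eq_abs, abs_of_nonneg (Real.rpow_nonneg (abs_nonneg _) _), ← mul_pow]
  have h5 := lbbD_one_le w
  exact lbb_rpow_le q _ _ 4 (by linarith) (by norm_num; linarith) (by nlinarith)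
    (abs_nonneg _) (lbbB_bd hm k G w)

theorem lbbG_cont (q : ℝ) (h2 : 2 < q) (k : Fin n) (G : (Fin n → Fin m) → ℝ) :
    Continuous (lbbG q k G) := by
  unfold lbbG
  have hA := lbbA_cont k G
  have hB := lbbB_cont k G
  have hmx : Continuous (fun w => max (-(lbbA k G w)) 0) := hA.neg.max continuous_const
  have h3 : Continuous (fun w => (max (-(lbbA k G w)) 0) ^ (q - 1)) :=
    hmx.rpow_const fun x => Or.inr (by linarith)
  have h4 : Continuous (fun w => (max (-(lbbA k G w)) 0) ^ (q - 2)) :=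
    hmx.rpow_const fun x => Or.inr (by linarith)
  exact (((lbb_psi_cont q h2).comp hA).add (((h3.const_mul q).neg).mul hB)).add
    (((h4.const_mul (q * (q - 1))).mul (hB.pow 2)).div_const 2)

theorem lbb_int_G {K : ℝ} (hm : 1 ≤ m) (q : ℝ) (h2 : 2 < q) (h3 : q ≤ 3)
    (μ : Fin n → Measure (Fin m → ℝ)) (hμ : ∀ i, WL (μ i) K) (k : Fin n)
    (G : (Fin n → Fin m) → ℝ) :
    Integrable (lbbG q k G) (Measure.pi μ) := by
  have : ∀ i, IsProbabilityMeasure (μ i) := fun i => (hμ i).prob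
  set S := ∑ ω, |G ω| with hS
  have hS0 : 0 ≤ S := Finset.sum_nonneg fun _ _ => abs_nonneg _
  refine Integrable.mono' ((lbbD_int μ hμ).const_mul (7 * (1 + 2 * S) ^ 4))
    (lbbG_cont q h2 k G).aestronglyMeasurable ?_
  refine Filter.Eventually.of_forall fun w => ?_
  have h5 := lbbD_one_le w
  set M := (1 + 2 * S) * lbbD w with hM
  have hM1 : 1 ≤ M := by nlinarith
  have hA : |lbbA k G w| ≤ M := (lbbA_bd hm k G w).trans (by nlinarith)
  have hB : |lbbB k G w| ≤ M := lbbB_bd hm k G w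
  have hmx := lbb_max_le _ _ hA
  have e1 : psi q (lbbA k G w) ≤ M ^ 4 :=
    lbb_rpow_le q _ _ 4 (by linarith) (by norm_num; linarith) hM1 (le_max_right _ _) hmx
  have e2 : (max (-(lbbA k G w)) 0) ^ (q - 1) ≤ M ^ 3 :=
    lbb_rpow_le (q - 1) _ _ 3 (by linarith) (by norm_num; linarith) hM1 (le_max_right _ _) hmx
  have e3 : (max (-(lbbA k G w)) 0) ^ (q - 2) ≤ M ^ 2 :=
    lbb_rpow_le (q - 2) _ _ 2 (by linarith) (by norm_num; linarith) hM1 (le_max_right _ _) hmx
  have n1 := lbb_psi_nonneg q (lbbA k G w)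
  have n2 : 0 ≤ (max (-(lbbA k G w)) 0) ^ (q - 1) := Real.rpow_nonneg (le_max_right _ _) _
  have n3 : 0 ≤ (max (-(lbbA k G w)) 0) ^ (q - 2) := Real.rpow_nonneg (le_max_right _ _) _
  have f1 : |psi q (lbbA k G w)| ≤ M ^ 4 := by rw [abs_of_nonneg n1]; exact e1
  have f2 : |(-(q * (max (-(lbbA k G w)) 0) ^ (q - 1))) * lbbB k G w| ≤ 3 * M ^ 4 := by
    rw [abs_mul, abs_neg, abs_mul, abs_of_nonneg n2, abs_of_pos (show 0 < q by linarith)]
    calc q * (max (-(lbbA k G w)) 0) ^ (q - 1) * |lbbB k G w|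
        ≤ 3 * M ^ 3 * M := by
          refine mul_le_mul (mul_le_mul h3 e2 n2 (by norm_num)) hB (abs_nonneg _) (by positivity)
      _ = 3 * M ^ 4 := by ring
  have f3 : |q * (q - 1) * (max (-(lbbA k G w)) 0) ^ (q - 2) * lbbB k G w ^ 2 / 2|
      ≤ 3 * M ^ 4 := by
    rw [abs_div, abs_mul, abs_mul, abs_of_nonneg n3, abs_of_pos (show 0 < q * (q - 1) by nlinarith),
      abs_two, abs_pow]
    have g1 : q * (q - 1) ≤ 6 := by nlinarith
    have g2 : |lbbB k G w| ^ 2 ≤ M ^ 2 := pow_le_pow_left₀ (abs_nonneg _) hB 2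
    have g3 : q * (q - 1) * (max (-(lbbA k G w)) 0) ^ (q - 2) * |lbbB k G w| ^ 2
        ≤ 6 * M ^ 2 * M ^ 2 :=
      mul_le_mul (mul_le_mul g1 e3 n3 (by norm_num)) g2 (by positivity) (by positivity)
    have g4 : 6 * M ^ 2 * M ^ 2 = 6 * M ^ 4 := by ring
    linarith
  rw [Real.norm_eq_abs]
  have hfin : |lbbG q k G w| ≤ 7 * M ^ 4 := by
    unfold lbbG
    refine (abs_add_le _ _).trans ?_
    have := abs_add_le (psi q (lbbA k G w))
      ((-(q * (max (-(lbbA k G w)) 0) ^ (q - 1))) * lbbB k G w)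
    linarith
  refine hfin.trans (le_of_eq ?_)
  rw [hM]; ring

/-- the variance of the linear part -/
noncomputable def lbbV (k : Fin n) (G : (Fin n → Fin m) → ℝ) (w : Fin n → Fin m → ℝ) : ℝ :=
  ∑ a, ∑ c, lbbb k G w a * lbbb k G w c
    * ((if a = c then (m : ℝ)⁻¹ else 0) - (m : ℝ)⁻¹ * (m : ℝ)⁻¹)

theorem lbb_inner {σ : Measure (Fin m → ℝ)} {K : ℝ} (hσ : WL σ K) (q : ℝ) (k : Fin n)
    (G : (Fin n → Fin m) → ℝ) (w : Fin n → Fin m → ℝ) :
    ∫ v, lbbG q k G (Function.update w k v) ∂σ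
      = psi q (lbbA k G w)
        + q * (q - 1) * (max (-(lbbA k G w)) 0) ^ (q - 2) / 2 * lbbV k G w := by
  have := hσ.prob
  obtain ⟨i1, j1⟩ := lbb_wl1 hσ (lbbb k G w)
  obtain ⟨i2, j2⟩ := lbb_wl2 hσ (lbbb k G w)
  have h1 : ∀ v : Fin m → ℝ, lbbG q k G (Function.update w k v)
      = psi q (lbbA k G w)
        + (-(q * (max (-(lbbA k G w)) 0) ^ (q - 1))) * (∑ a, lbbb k G w a * (v a - (m : ℝ)⁻¹))
        + q * (q - 1) * (max (-(lbbA k G w)) 0) ^ (q - 2) / 2
          * (∑ a, lbbb k G w a * (v a - (m : ℝ)⁻¹)) ^ 2 := by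
    intro v
    unfold lbbG
    rw [lbbA_update, lbbB_update]
    ring
  simp_rw [h1]
  have k1 : Integrable (fun v : Fin m → ℝ => (-(q * (max (-(lbbA k G w)) 0) ^ (q - 1)))
      * (∑ a, lbbb k G w a * (v a - (m : ℝ)⁻¹))) σ := i1.const_mul _
  have k2 : Integrable (fun v : Fin m → ℝ => q * (q - 1) * (max (-(lbbA k G w)) 0) ^ (q - 2) / 2
          * (∑ a, lbbb k G w a * (v a - (m : ℝ)⁻¹)) ^ 2) σ := i2.const_mul _
  have k3 : Integrable (fun v : Fin m → ℝ => psi q (lbbA k G w)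
        + (-(q * (max (-(lbbA k G w)) 0) ^ (q - 1))) * (∑ a, lbbb k G w a * (v a - (m : ℝ)⁻¹))) σ :=
    (integrable_const _).add k1
  rw [integral_add k3 k2, integral_add (integrable_const _) k1, integral_const_mul,
    integral_const_mul, j1, j2, integral_const]
  unfold lbbV
  simp

theorem lbb_G_integral {K : ℝ} (hm : 1 ≤ m) (q : ℝ) (h2 : 2 < q) (h3 : q ≤ 3)
    (μ μ' : Fin n → Measure (Fin m → ℝ)) (hμ : ∀ i, WL (μ i) K) (hμ' : ∀ i, WL (μ' i) K)
    (k : Fin n) (hk : ∀ j, j ≠ k → μ' j = μ j) (G : (Fin n → Fin m) → ℝ) :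
    ∫ w, lbbG q k G w ∂(Measure.pi μ')
      = ∫ w, (psi q (lbbA k G w)
        + q * (q - 1) * (max (-(lbbA k G w)) 0) ^ (q - 2) / 2 * lbbV k G w) ∂(Measure.pi μ) := by
  have : ∀ i, IsProbabilityMeasure (μ i) := fun i => (hμ i).prob
  have : ∀ i, IsProbabilityMeasure (μ' i) := fun i => (hμ' i).prob
  have hT := lbb_map_update μ μ' k hk
  have hi := lbb_int_G hm q h2 h3 μ' hμ' k G
  have hc : Integrable (fun p : (Fin m → ℝ) × (Fin n → Fin m → ℝ) =>
      lbbG q k G (Function.update p.2 k p.1)) ((μ' k).prod (Measure.pi μ)) :=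
    (hT.integrable_comp hi.aestronglyMeasurable).2 hi
  rw [← hT.map_eq, integral_map hT.measurable.aemeasurable
    (by rw [hT.map_eq]; exact hi.aestronglyMeasurable)]
  rw [integral_prod_symm _ hc]
  refine integral_congr_ae (Filter.Eventually.of_forall fun w => ?_)
  exact lbb_inner (hμ' k) q k G w

theorem lbb_step_G {K : ℝ} (hm : 1 ≤ m) (q : ℝ) (h2 : 2 < q) (h3 : q ≤ 3)
    (μ μ' : Fin n → Measure (Fin m → ℝ)) (hμ : ∀ i, WL (μ i) K) (hμ' : ∀ i, WL (μ' i) K)
    (k : Fin n) (hk : ∀ j, j ≠ k → μ' j = μ j) (G : (Fin n → Fin m) → ℝ) :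
    ∫ w, lbbG q k G w ∂(Measure.pi μ') = ∫ w, lbbG q k G w ∂(Measure.pi μ) := by
  rw [lbb_G_integral hm q h2 h3 μ μ' hμ hμ' k hk G,
    lbb_G_integral hm q h2 h3 μ μ hμ hμ k (fun _ _ => rfl) G]

theorem lbb_qq (K : ℝ) (hK : 0 ≤ K) (θ : ℝ) (h0 : 0 ≤ θ) (h1 : θ < 1) :
    2 < qq θ K ∧ qq θ K ≤ 3 := by
  unfold qq
  have h2 : 0 < 1 - θ ^ 2 := by nlinarith
  have h3 : 0 < (1 - θ ^ 2) / (4 + K) := div_pos h2 (by linarith)
  have h4 : (1 - θ ^ 2) / (4 + K) ≤ 1 := by
    rw [div_le_one (by linarith)]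
    nlinarith [sq_nonneg θ]
  constructor <;> linarith

theorem lbb_half (hm : 1 ≤ m) (K : ℝ) (hK : 0 ≤ K) (θ : ℝ) (h0 : 0 ≤ θ) (h1 : θ < 1)
    (μ : Fin n → Measure (Fin m → ℝ)) (hμ : ∀ i, WL (μ i) K) (k : Fin n)
    (F : (Fin n → Fin m) → ℝ) :
    |∫ w, psi (qq θ K) (pol (Tn θ F) w) ∂(Measure.pi μ)
      - ∫ w, lbbG (qq θ K) k (Tn θ F) w ∂(Measure.pi μ)| ≤ 3 * (infl F k) ^ (qq θ K / 2) := by
  have : ∀ i, IsProbabilityMeasure (μ i) := fun i => (hμ i).prob
  obtain ⟨q2, q3⟩ := lbb_qq K hK θ h0 h1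
  have i1 := lbb_int_psi hm (qq θ K) q2 q3 μ hμ (Tn θ F)
  have i2 := lbb_int_G hm (qq θ K) q2 q3 μ hμ k (Tn θ F)
  have i3 := lbb_int_B hm (qq θ K) q2 q3 μ hμ k (Tn θ F)
  rw [← integral_sub i1 i2]
  refine (abs_integral_le_integral_abs).trans ?_
  have hae : ∀ᵐ w ∂(Measure.pi μ), ∑ a, w k a = 1 := by
    have h := (measurePreserving_eval μ k).quasiMeasurePreserving.ae (hμ k).sum_one
    exact h
  calc ∫ w, |psi (qq θ K) (pol (Tn θ F) w) - lbbG (qq θ K) k (Tn θ F) w| ∂(Measure.pi μ)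
      ≤ ∫ w, 3 * |lbbB k (Tn θ F) w| ^ (qq θ K) ∂(Measure.pi μ) := by
        refine integral_mono (i1.sub i2).abs (i3.const_mul 3) fun w => ?_
        have ht := psi_taylor (qq θ K) q2 q3 (lbbA k (Tn θ F) w) (lbbB k (Tn θ F) w)
        rw [← lbb_split] at ht
        refine le_trans (le_of_eq ?_) ht
        congr 1
        unfold lbbG
        ring
    _ = 3 * ∫ w, |pol (Tn θ (fun ω => F ω - lbbE k F ω)) w| ^ (qq θ K) ∂(Measure.pi μ) := by
        rw [integral_const_mul]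
        congr 1
        refine integral_congr_ae ?_
        filter_upwards [hae] with w hw
        rw [lbb_B_eq hm k θ F w hw]
    _ ≤ 3 * (infl F k) ^ (qq θ K / 2) := by
        refine mul_le_mul_of_nonneg_left ?_ (by norm_num)
        rw [lbb_infl]
        exact hc_pol hm K hK θ h0 h1.le n μ hμ (fun ω => F ω - lbbE k F ω)

theorem lbb_step (hm : 1 ≤ m) (K : ℝ) (hK : 0 ≤ K) (θ : ℝ) (h0 : 0 ≤ θ) (h1 : θ < 1)
    (μ μ' : Fin n → Measure (Fin m → ℝ)) (hμ : ∀ i, WL (μ i) K) (hμ' : ∀ i, WL (μ' i) K)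
    (k : Fin n) (hk : ∀ j, j ≠ k → μ' j = μ j) (F : (Fin n → Fin m) → ℝ) :
    |∫ w, psi (qq θ K) (pol (Tn θ F) w) ∂(Measure.pi μ)
      - ∫ w, psi (qq θ K) (pol (Tn θ F) w) ∂(Measure.pi μ')|
      ≤ 6 * (infl F k) ^ (qq θ K / 2) := by
  obtain ⟨q2, q3⟩ := lbb_qq K hK θ h0 h1
  have e1 := lbb_half hm K hK θ h0 h1 μ hμ k F
  have e2 := lbb_half hm K hK θ h0 h1 μ' hμ' k F
  rw [lbb_step_G hm (qq θ K) q2 q3 μ μ' hμ hμ' k hk (Tn θ F)] at e2
  rw [abs_le] at e1 e2 ⊢
  constructor <;> linarith [e1.1, e1.2, e2.1, e2.2]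

end meas

theorem lind_psi {m : ℕ} (hm : 1 ≤ m) (K : ℝ) (hK : 0 ≤ K) (θ : ℝ) (h0 : 0 ≤ θ) (h1 : θ < 1) (n : ℕ)
    (ν ν' : Fin n → Measure (Fin m → ℝ)) (hν : ∀ i, WL (ν i) K) (hν' : ∀ i, WL (ν' i) K)
    (F : (Fin n → Fin m) → ℝ) :
    |∫ w, psi (qq θ K) (pol (Tn θ F) w) ∂(Measure.pi ν)
      - ∫ w, psi (qq θ K) (pol (Tn θ F) w) ∂(Measure.pi ν')|
      ≤ 6 * ∑ k, (infl F k) ^ (qq θ K / 2) := by
  classical
  have key : ∀ s : Finset (Fin n),
      |∫ w, psi (qq θ K) (pol (Tn θ F) w) ∂(Measure.pi ν)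
        - ∫ w, psi (qq θ K) (pol (Tn θ F) w) ∂(Measure.pi fun i => if i ∈ s then ν' i else ν i)|
        ≤ 6 * ∑ k ∈ s, (infl F k) ^ (qq θ K / 2) := by
    intro s
    induction s using Finset.induction_on with
    | empty => simp
    | insert k s hks ih =>
      have hw1 : ∀ i, WL ((fun i => if i ∈ s then ν' i else ν i) i) K := by
        intro i
        by_cases hi : i ∈ s
        · simp only [hi, if_true]; exact hν' i
        · simp only [hi, if_false]; exact hν i
      have hw2 : ∀ i, WL ((fun i => if i ∈ insert k s then ν' i else ν i) i) K := by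
        intro i
        by_cases hi : i ∈ insert k s
        · simp only [hi, if_true]; exact hν' i
        · simp only [hi, if_false]; exact hν i
      have hst := lbb_step hm K hK θ h0 h1 (fun i => if i ∈ s then ν' i else ν i)
        (fun i => if i ∈ insert k s then ν' i else ν i) hw1 hw2 k (by
          intro j hj
          simp only [Finset.mem_insert, hj, false_or]) F
      rw [Finset.sum_insert hks, mul_add]
      rw [abs_le] at ih hst ⊢
      constructor <;> linarith [ih.1, ih.2, hst.1, hst.2]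
  have h := key Finset.univ
  simpa using h

end Pool.H65.PT
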