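import Pool.Agent.Helper65.PT.Defs
import Pool.Agent.Helper65.PS.Stb
import Pool.Agent.Helper65.PS.Dsc

set_option autoImplicit false

open MeasureTheory ProbabilityTheory Pool.H65.PS

namespace Pool.H65.PT

section tin

variable {m n : ℕ}

/-- one coordinate of the noise kernel. -/
noncomputable def tin_k (θ : ℝ) (a b : Fin m) : ℝ :=
  if b = a then (1 + ((m : ℝ) - 1) * θ) / m else (1 - θ) / m

/-- the noise kernel. -/
noncomputable def tin_K (θ : ℝ) (ω δ : Fin n → Fin m) : ℝ := ∏ i, tin_k θ (ω i) (δ i)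

theorem tin_Tn (θ : ℝ) (F : (Fin n → Fin m) → ℝ) (ω : Fin n → Fin m) :
    Tn θ F ω = ∑ δ, tin_K θ ω δ * F δ := rfl

theorem tin_stab (ρ : ℝ) (F : (Fin n → Fin m) → ℝ) :
    stab ρ F = av (fun ω => F ω * Tn ρ F ω) := by
  unfold stab av
  congr 1
  refine Finset.sum_congr rfl fun ω _ => ?_
  change _ = F ω * Tn ρ F ω
  rw [tin_Tn, Finset.mul_sum]
  refine Finset.sum_congr rfl fun δ _ => ?_
  rw [← mul_assoc]
  rfl

theorem tin_k_symm (θ : ℝ) (a b : Fin m) : tin_k θ a b = tin_k θ b a := by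
  unfold tin_k
  simp only [eq_comm]

theorem tin_K_symm (θ : ℝ) (ω δ : Fin n → Fin m) : tin_K θ ω δ = tin_K θ δ ω :=
  Finset.prod_congr rfl fun _ _ => tin_k_symm _ _ _

theorem tin_k_eq (hm : 1 ≤ m) (θ : ℝ) (a b : Fin m) :
    tin_k θ a b = θ * (if a = b then 1 else 0) + (1 - θ) * (m : ℝ)⁻¹ := by
  have hm' : (m : ℝ) ≠ 0 := by positivity
  unfold tin_k
  by_cases h : b = a
  · rw [if_pos h, if_pos h.symm]; field_simp; ring
  · rw [if_neg h, if_neg (fun h' => h h'.symm)]; field_simp; ring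

theorem tin_k_sum (hm : 1 ≤ m) (θ : ℝ) (a : Fin m) : ∑ b, tin_k θ a b = 1 := by
  have hm' : (m : ℝ) ≠ 0 := by positivity
  simp only [tin_k_eq hm, Finset.sum_add_distrib, mul_ite, mul_one, mul_zero, Finset.sum_ite_eq,
    Finset.mem_univ, if_true, Finset.sum_const, Finset.card_univ, Fintype.card_fin, nsmul_eq_mul]
  field_simp
  ring

theorem tin_k_conv (hm : 1 ≤ m) (θ θ' : ℝ) (a c : Fin m) :
    ∑ b, tin_k θ a b * tin_k θ' b c = tin_k (θ * θ') a c := by
  have hm' : (m : ℝ) ≠ 0 := by positivity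
  have h : ∀ b, tin_k θ a b * tin_k θ' b c =
      θ * (if a = b then tin_k θ' b c else 0) + (1 - θ) * (m : ℝ)⁻¹ * tin_k θ' b c := by
    intro b
    rw [tin_k_eq hm θ a b]
    split_ifs <;> ring
  rw [Finset.sum_congr rfl fun b _ => h b, Finset.sum_add_distrib, ← Finset.mul_sum,
    ← Finset.mul_sum, Finset.sum_ite_eq, if_pos (Finset.mem_univ _)]
  have h2 : ∑ b, tin_k θ' b c = 1 := by
    rw [Finset.sum_congr rfl fun b _ => tin_k_symm θ' b c]
    exact tin_k_sum hm θ' c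
  rw [h2, tin_k_eq hm, tin_k_eq hm]
  ring

theorem tin_prod_sum (f g : Fin n → Fin m → ℝ) :
    ∑ η : Fin n → Fin m, (∏ i, f i (η i)) * (∏ i, g i (η i)) = ∏ i, ∑ a, f i a * g i a := by
  simp only [← Finset.prod_mul_distrib]
  have h := Finset.prod_univ_sum (fun _ : Fin n => (Finset.univ : Finset (Fin m)))
    (fun i a => f i a * g i a)
  rw [Fintype.piFinset_univ] at h
  exact h.symm

theorem tin_K_conv (hm : 1 ≤ m) (θ θ' : ℝ) (ω δ : Fin n → Fin m) :
    ∑ η, tin_K θ ω η * tin_K θ' η δ = tin_K (θ * θ') ω δ := by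
  unfold tin_K
  have h := tin_prod_sum (fun i a => tin_k θ (ω i) a) (fun i a => tin_k θ' a (δ i))
  rw [h]
  exact Finset.prod_congr rfl fun i _ => tin_k_conv hm _ _ _ _

theorem tin_K_sum (hm : 1 ≤ m) (θ : ℝ) (ω : Fin n → Fin m) : ∑ δ, tin_K θ ω δ = 1 := by
  unfold tin_K
  have h := Finset.prod_univ_sum (fun _ : Fin n => (Finset.univ : Finset (Fin m)))
    (fun i a => tin_k θ (ω i) a)
  rw [Fintype.piFinset_univ] at h
  rw [← h]
  exact Finset.prod_eq_one fun i _ => tin_k_sum hm _ _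

theorem tin_symm (θ : ℝ) (f g : (Fin n → Fin m) → ℝ) :
    av (fun ω => Tn θ f ω * g ω) = av (fun ω => f ω * Tn θ g ω) := by
  unfold av
  congr 1
  simp only [tin_Tn, Finset.sum_mul, Finset.mul_sum]
  rw [Finset.sum_comm]
  refine Finset.sum_congr rfl fun δ _ => Finset.sum_congr rfl fun ω _ => ?_
  rw [tin_K_symm]
  ring

theorem Tn_comp (hm : 1 ≤ m) (θ θ' : ℝ) (F : (Fin n → Fin m) → ℝ) :
    Tn θ (Tn θ' F) = Tn (θ * θ') F := by
  funext ω
  simp only [tin_Tn, Finset.mul_sum]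
  rw [Finset.sum_comm]
  refine Finset.sum_congr rfl fun δ _ => ?_
  rw [← tin_K_conv hm, Finset.sum_mul]
  exact Finset.sum_congr rfl fun η _ => by ring

theorem stab_Tn (hm : 1 ≤ m) (ρ θ : ℝ) (F : (Fin n → Fin m) → ℝ) :
    stab ρ (Tn θ F) = stab (ρ * θ ^ 2) F := by
  rw [tin_stab, tin_stab, tin_symm, Tn_comp hm, Tn_comp hm]
  rw [show θ * ρ * θ = ρ * θ ^ 2 by ring]

theorem av_Tn (hm : 1 ≤ m) (θ : ℝ) (F : (Fin n → Fin m) → ℝ) : av (Tn θ F) = av F := by
  unfold av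
  congr 1
  simp only [tin_Tn]
  rw [Finset.sum_comm]
  refine Finset.sum_congr rfl fun δ _ => ?_
  rw [← Finset.sum_mul, Finset.sum_congr rfl fun ω _ => tin_K_symm θ ω δ, tin_K_sum hm, one_mul]

theorem tin_K_nonneg (hm : 1 ≤ m) (θ : ℝ) (h0 : 0 ≤ θ) (h1 : θ ≤ 1) (ω δ : Fin n → Fin m) :
    0 ≤ tin_K θ ω δ := by
  refine Finset.prod_nonneg fun i _ => ?_
  rw [tin_k_eq hm]
  have : (0 : ℝ) ≤ (m : ℝ)⁻¹ := by positivity
  have h2 : 0 ≤ (1 - θ) * (m : ℝ)⁻¹ := mul_nonneg (by linarith) this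
  split_ifs <;> nlinarith

theorem Tn_mem (hm : 1 ≤ m) (θ : ℝ) (h0 : 0 ≤ θ) (h1 : θ ≤ 1) (F : (Fin n → Fin m) → ℝ) (a b : ℝ)
    (h : ∀ ω, a ≤ F ω ∧ F ω ≤ b) (ω : Fin n → Fin m) : a ≤ Tn θ F ω ∧ Tn θ F ω ≤ b := by
  rw [tin_Tn]
  constructor
  · calc a = ∑ δ, tin_K θ ω δ * a := by rw [← Finset.sum_mul, tin_K_sum hm, one_mul]
      _ ≤ _ := Finset.sum_le_sum fun δ _ =>
        mul_le_mul_of_nonneg_left (h δ).1 (tin_K_nonneg hm θ h0 h1 _ _)
  · calc ∑ δ, tin_K θ ω δ * F δ ≤ ∑ δ, tin_K θ ω δ * b := Finset.sum_le_sum fun δ _ =>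
        mul_le_mul_of_nonneg_left (h δ).2 (tin_K_nonneg hm θ h0 h1 _ _)
      _ = b := by rw [← Finset.sum_mul, tin_K_sum hm, one_mul]

/-! ### the expansion -/

theorem tin_kernel (t : Fin n → ℝ) (ω δ : Fin n → Fin m) :
    ∏ i, (t i * Stb.v (ω i) (δ i) + (m : ℝ)⁻¹)
      = ∑ S : Finset (Fin n), (∏ i ∈ S, t i) * Stb.ker S ω δ := by
  rw [Finset.prod_add, Finset.powerset_univ]
  refine Finset.sum_congr rfl (fun S _ => ?_)
  rw [Finset.prod_mul_distrib, mul_assoc]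
  congr 1
  unfold Stb.ker Stb.ker1
  rw [← Finset.prod_filter_mul_prod_filter_not Finset.univ (fun i => i ∈ S)
    (fun i => if i ∈ S then Stb.v (ω i) (δ i) else (m : ℝ)⁻¹)]
  congr 1
  · have : Finset.univ.filter (fun i => i ∈ S) = S := by ext i; simp
    rw [this]
    exact Finset.prod_congr rfl (fun i hi => by rw [if_pos hi])
  · have : Finset.univ.filter (fun i => i ∉ S) = Finset.univ \ S := by ext i; simp
    rw [this]
    refine Finset.prod_congr rfl (fun i hi => ?_)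
    rw [if_neg (by simpa using hi)]

/-- averaging over one coordinate. -/
noncomputable def tin_E (k : Fin n) (g : (Fin n → Fin m) → ℝ) (ω : Fin n → Fin m) : ℝ :=
  (m : ℝ)⁻¹ * ∑ a : Fin m, g (Function.update ω k a)

theorem tin_E_eq (k : Fin n) (g : (Fin n → Fin m) → ℝ) (ω : Fin n → Fin m) :
    tin_E k g ω = ∑ δ, (∑ S : Finset (Fin n), (if k ∈ S then 0 else 1) * Stb.ker S ω δ) * g δ := by
  have h1 : ∀ δ : Fin n → Fin m,
      (∑ S : Finset (Fin n), (if k ∈ S then (0 : ℝ) else 1) * Stb.ker S ω δ)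
      = (m : ℝ)⁻¹ * ∑ a : Fin m, (if Function.update ω k a = δ then 1 else 0) := by
    intro δ
    have h2 := tin_kernel (fun i => if i = k then (0 : ℝ) else 1) ω δ
    have h3 : ∀ S : Finset (Fin n), (∏ i ∈ S, (if i = k then (0 : ℝ) else 1)) =
        if k ∈ S then 0 else 1 := by
      intro S
      by_cases hk : k ∈ S
      · rw [if_pos hk]
        exact Finset.prod_eq_zero hk (by simp)
      · rw [if_neg hk]
        exact Finset.prod_eq_one fun i hi => by
          rw [if_neg]; rintro rfl; exact hk hi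
    rw [Finset.sum_congr rfl fun S _ => by rw [← h3 S], ← h2]
    rw [← Finset.mul_prod_erase Finset.univ _ (Finset.mem_univ k)]
    simp only [if_true, zero_mul, zero_add]
    congr 1
    have h4 : ∀ a : Fin m, (if Function.update ω k a = δ then (1 : ℝ) else 0) =
        (if a = δ k then 1 else 0) * ∏ i ∈ Finset.univ.erase k, (if ω i = δ i then 1 else 0) := by
      intro a
      by_cases h5 : Function.update ω k a = δ
      · rw [if_pos h5]
        have ha : a = δ k := by rw [← h5]; simp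
        rw [if_pos ha, one_mul]
        symm
        refine Finset.prod_eq_one fun i hi => ?_
        rw [if_pos]
        rw [← h5, Function.update_of_ne (Finset.ne_of_mem_erase hi)]
      · rw [if_neg h5]
        by_cases ha : a = δ k
        · rw [if_pos ha, one_mul]
          symm
          obtain ⟨i, hi⟩ := Function.ne_iff.1 h5
          have hik : i ≠ k := by
            rintro rfl
            apply hi
            rw [Function.update_self, ha]
          rw [Function.update_of_ne hik] at hi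
          exact Finset.prod_eq_zero (Finset.mem_erase.2 ⟨hik, Finset.mem_univ _⟩) (if_neg hi)
        · rw [if_neg ha, zero_mul]
    rw [Finset.sum_congr rfl fun a _ => h4 a, ← Finset.sum_mul, Finset.sum_ite_eq',
      if_pos (Finset.mem_univ _), one_mul]
    refine Finset.prod_congr rfl fun i hi => ?_
    rw [if_neg (Finset.ne_of_mem_erase hi)]
    unfold Stb.v
    ring
  rw [Finset.sum_congr rfl fun δ _ => by rw [h1 δ]]
  unfold tin_E
  simp only [mul_assoc, ← Finset.mul_sum]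
  congr 1
  simp only [Finset.sum_mul, ite_mul, one_mul, zero_mul]
  rw [Finset.sum_comm]
  refine Finset.sum_congr rfl fun a _ => ?_
  rw [Finset.sum_ite_eq, if_pos (Finset.mem_univ _)]

theorem tin_av_E (k : Fin n) (g : (Fin n → Fin m) → ℝ) :
    av (fun ω => g ω * tin_E k g ω) = ∑ S : Finset (Fin n), (if k ∈ S then 0 else 1) * Stb.wt g S := by
  unfold av Stb.wt
  simp only [tin_E_eq, Finset.mul_sum, Finset.sum_mul]
  rw [Finset.sum_congr rfl fun ω _ => Finset.sum_comm]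
  rw [Finset.sum_comm]
  refine Finset.sum_congr rfl fun S _ => Finset.sum_congr rfl fun ω _ =>
    Finset.sum_congr rfl fun δ _ => by ring

theorem tin_av_EE (hm : 1 ≤ m) (k : Fin n) (g : (Fin n → Fin m) → ℝ) :
    av (fun ω => tin_E k g ω ^ 2) = av (fun ω => g ω * tin_E k g ω) := by
  have hu : ∀ ω a, tin_E k g (Function.update ω k a) = tin_E k g ω := by
    intro ω a
    simp only [tin_E, Function.update_idem]
  rw [dsc_av_eq hm (fun ω => g ω * tin_E k g ω) k]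
  simp only [hu]
  rw [← dsc_av_sum, ← dsc_av_const_mul]
  congr 1
  funext ω
  rw [← Finset.sum_mul]
  unfold tin_E
  ring

theorem tin_infl (hm : 1 ≤ m) (g : (Fin n → Fin m) → ℝ) (k : Fin n) :
    infl g k = ∑ S : Finset (Fin n), (if k ∈ S then 1 else 0) * Stb.wt g S := by
  have h1 : infl g k = av (fun ω => (g ω - tin_E k g ω) ^ 2) := rfl
  have h2 : (fun ω => (g ω - tin_E k g ω) ^ 2) =
      fun ω => (g ω ^ 2 - 2 * (g ω * tin_E k g ω)) + tin_E k g ω ^ 2 := by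
    funext ω; ring
  rw [h1, h2, dsc_av_add, dsc_av_sub, dsc_av_const_mul, tin_av_EE hm, tin_av_E,
    ← Stb.stab_one hm, Stb.stab_eq hm]
  have h3 : ∀ x y : ℝ, x - 2 * y + y = x - y := fun x y => by ring
  rw [h3, ← Finset.sum_sub_distrib]
  refine Finset.sum_congr rfl fun S _ => ?_
  split_ifs <;> simp

theorem tin_k_ker1 (hm : 1 ≤ m) (θ : ℝ) (P : Prop) [Decidable P] (a c : Fin m) :
    ∑ b, tin_k θ a b * Stb.ker1 P b c = (if P then θ else 1) * Stb.ker1 P a c := by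
  have hm' : (m : ℝ) ≠ 0 := by positivity
  have h : ∀ b, tin_k θ a b * Stb.ker1 P b c =
      θ * (if a = b then Stb.ker1 P b c else 0) + (1 - θ) * (m : ℝ)⁻¹ * Stb.ker1 P b c := by
    intro b
    rw [tin_k_eq hm θ a b]
    split_ifs <;> ring
  rw [Finset.sum_congr rfl fun b _ => h b, Finset.sum_add_distrib, ← Finset.mul_sum,
    ← Finset.mul_sum, Finset.sum_ite_eq, if_pos (Finset.mem_univ _)]
  by_cases hP : P
  · have h2 : ∑ b, Stb.ker1 P b c = 0 := by
      unfold Stb.ker1 Stb.v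
      simp only [hP, if_true, Finset.sum_sub_distrib, Finset.sum_ite_eq', Finset.mem_univ,
        Finset.sum_const, Finset.card_univ, Fintype.card_fin, nsmul_eq_mul]
      field_simp
      ring
    rw [h2, if_pos hP]
    ring
  · have h2 : ∑ b, Stb.ker1 P b c = 1 := by
      unfold Stb.ker1
      simp only [hP, if_false, Finset.sum_const, Finset.card_univ, Fintype.card_fin, nsmul_eq_mul]
      field_simp
    rw [h2, if_neg hP]
    unfold Stb.ker1
    rw [if_neg hP]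
    ring

theorem tin_K_ker (hm : 1 ≤ m) (θ : ℝ) (S : Finset (Fin n)) (ω δ : Fin n → Fin m) :
    ∑ η, tin_K θ ω η * Stb.ker S η δ = θ ^ S.card * Stb.ker S ω δ := by
  unfold tin_K Stb.ker
  have h := tin_prod_sum (fun i a => tin_k θ (ω i) a) (fun i a => Stb.ker1 (i ∈ S) a (δ i))
  rw [h, Finset.prod_congr rfl fun i _ => tin_k_ker1 hm θ (i ∈ S) (ω i) (δ i),
    Finset.prod_mul_distrib]
  congr 1
  rw [Finset.prod_ite_mem, Finset.univ_inter, Finset.prod_const]

theorem tin_wt (hm : 1 ≤ m) (θ : ℝ) (g : (Fin n → Fin m) → ℝ) (S : Finset (Fin n)) :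
    Stb.wt (Tn θ g) S = θ ^ (2 * S.card) * Stb.wt g S := by
  -- the operator attached to `S`
  set A : ((Fin n → Fin m) → ℝ) → (Fin n → Fin m) → ℝ := fun f ω => ∑ δ, Stb.ker S ω δ * f δ with hA
  have hwt : ∀ f : (Fin n → Fin m) → ℝ, Stb.wt f S = av (fun ω => f ω * A f ω) := by
    intro f
    unfold Stb.wt av
    congr 1
    refine Finset.sum_congr rfl fun ω _ => ?_
    rw [hA]
    simp only [Finset.mul_sum, mul_assoc]
  have hTA : ∀ f, Tn θ (A f) = fun ω => θ ^ S.card * A f ω := by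
    intro f
    funext ω
    simp only [tin_Tn, hA, Finset.mul_sum]
    rw [Finset.sum_comm]
    refine Finset.sum_congr rfl fun δ _ => ?_
    rw [← mul_assoc, ← tin_K_ker hm, Finset.sum_mul]
    exact Finset.sum_congr rfl fun η _ => by ring
  have hAT : A (Tn θ g) = fun ω => θ ^ S.card * A g ω := by
    funext ω
    simp only [tin_Tn, hA, Finset.mul_sum]
    rw [Finset.sum_comm]
    refine Finset.sum_congr rfl fun δ _ => ?_
    rw [← mul_assoc, Stb.ker_symm, ← tin_K_ker hm, Finset.sum_mul]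
    refine Finset.sum_congr rfl fun η _ => ?_
    rw [tin_K_symm θ η δ, Stb.ker_symm S ω η]
    ring
  rw [hwt, hwt, tin_symm]
  have h1 : Tn θ (A (Tn θ g)) = fun ω => θ ^ (2 * S.card) * A g ω := by
    rw [hAT]
    have h2 : Tn θ (fun ω => θ ^ S.card * A g ω) = fun ω => θ ^ S.card * Tn θ (A g) ω := by
      funext ω
      simp only [tin_Tn, Finset.mul_sum]
      exact Finset.sum_congr rfl fun δ _ => by ring
    rw [h2, hTA]
    funext ω
    rw [two_mul, pow_add]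
    ring
  rw [h1, ← dsc_av_const_mul]
  congr 1
  funext ω
  ring

theorem infl_Tn_le (hm : 1 ≤ m) (θ : ℝ) (h0 : 0 ≤ θ) (h1 : θ ≤ 1) (F : (Fin n → Fin m) → ℝ)
    (k : Fin n) : infl (Tn θ F) k ≤ infl F k := by
  rw [tin_infl hm, tin_infl hm]
  refine Finset.sum_le_sum fun S _ => ?_
  rw [tin_wt hm]
  have hw := Stb.wt_nonneg hm F S
  have h2 : θ ^ (2 * S.card) ≤ 1 := pow_le_one₀ h0 h1
  split_ifs <;> nlinarith

theorem tin_pow (x : ℝ) (h0 : 0 ≤ x) (h1 : x < 1) (k : ℕ) : k * x ^ k ≤ 1 / (1 - x) := by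
  have hx : 0 < 1 - x := by linarith
  have h2 : (k : ℝ) * x ^ k ≤ ∑ j ∈ Finset.range k, x ^ j := by
    calc (k : ℝ) * x ^ k = ∑ j ∈ Finset.range k, x ^ k := by
          rw [Finset.sum_const, Finset.card_range, nsmul_eq_mul]
      _ ≤ _ := Finset.sum_le_sum fun j hj =>
          pow_le_pow_of_le_one h0 h1.le (Finset.mem_range.1 hj).le
  have h3 : (∑ j ∈ Finset.range k, x ^ j) * (1 - x) = 1 - x ^ k := geom_sum_mul_neg x k
  have h4 : 0 ≤ x ^ k := pow_nonneg h0 k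
  rw [le_div_iff₀ hx]
  nlinarith

theorem sum_infl_Tn_le (hm : 1 ≤ m) (θ : ℝ) (h0 : 0 ≤ θ) (h1 : θ < 1) (F : (Fin n → Fin m) → ℝ) :
    ∑ k, infl (Tn θ F) k ≤ av (fun ω => F ω ^ 2) / (1 - θ ^ 2) := by
  have h2 : θ ^ 2 < 1 := by nlinarith
  simp only [tin_infl hm, tin_wt hm]
  rw [Finset.sum_comm, ← Stb.stab_one hm, Stb.stab_eq hm, Finset.sum_div]
  refine Finset.sum_le_sum fun S _ => ?_
  rw [← Finset.sum_mul]
  have h3 : ∑ k : Fin n, (if k ∈ S then (1 : ℝ) else 0) = S.card := by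
    rw [← Finset.sum_filter, Finset.sum_const, nsmul_eq_mul, mul_one]
    congr 2
    ext i; simp
  rw [h3, one_pow, one_mul, pow_mul]
  have hw := Stb.wt_nonneg hm F S
  have h4 := tin_pow (θ ^ 2) (by positivity) h2 S.card
  have h5 := mul_le_mul_of_nonneg_right h4 hw
  calc (S.card : ℝ) * ((θ ^ 2) ^ S.card * Stb.wt F S)
      = S.card * (θ ^ 2) ^ S.card * Stb.wt F S := by ring
    _ ≤ 1 / (1 - θ ^ 2) * Stb.wt F S := h5
    _ = _ := by ring

theorem stab_diff_le (hm : 1 ≤ m) (ρ θ : ℝ) (h0 : 0 ≤ ρ) (h1 : ρ ≤ 1 / 2) (hθ0 : 0 ≤ θ) (hθ1 : θ ≤ 1)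
    (F : (Fin n → Fin m) → ℝ) :
    stab ρ F ≤ stab (ρ * θ) F + (1 - θ) * av (fun ω => F ω ^ 2) := by
  rw [← Stb.stab_one hm, Stb.stab_eq hm, Stb.stab_eq hm, Stb.stab_eq hm, Finset.mul_sum,
    ← Finset.sum_add_distrib]
  refine Finset.sum_le_sum fun S _ => ?_
  have hw := Stb.wt_nonneg hm F S
  set k := S.card
  have h2 : 1 - θ ^ k ≤ k * (1 - θ) := by
    have h3 : (∑ j ∈ Finset.range k, θ ^ j) * (1 - θ) = 1 - θ ^ k := geom_sum_mul_neg θ k
    have h4 : ∑ j ∈ Finset.range k, θ ^ j ≤ k := by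
      calc ∑ j ∈ Finset.range k, θ ^ j ≤ ∑ j ∈ Finset.range k, (1 : ℝ) :=
            Finset.sum_le_sum fun j _ => pow_le_one₀ hθ0 hθ1
        _ = k := by simp
    nlinarith
  have h5 : (k : ℝ) * ρ ^ k ≤ 1 := by
    have h6 : ρ ^ k ≤ (1 / 2 : ℝ) ^ k := pow_le_pow_left₀ h0 h1 k
    have h7 : (k : ℝ) ≤ 2 ^ k := by exact_mod_cast (Nat.lt_two_pow_self (n := k)).le
    have h8 : (2 : ℝ) ^ k * (1 / 2) ^ k = 1 := by
      rw [← mul_pow]; norm_num
    have h9 : 0 ≤ ρ ^ k := pow_nonneg h0 k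
    have h10 : (0 : ℝ) ≤ 2 ^ k := by positivity
    nlinarith
  have h9 : 0 ≤ ρ ^ k := pow_nonneg h0 k
  have h11 : ρ ^ k * (1 - θ ^ k) ≤ 1 - θ := by nlinarith
  have h12 : ρ ^ k ≤ (ρ * θ) ^ k + (1 - θ) * 1 ^ k := by
    rw [mul_pow, one_pow]
    nlinarith
  calc ρ ^ k * Stb.wt F S ≤ ((ρ * θ) ^ k + (1 - θ) * 1 ^ k) * Stb.wt F S :=
        mul_le_mul_of_nonneg_right h12 hw
    _ = _ := by ring

end tin

end Pool.H65.PT
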