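import Pool.Agent.Helper65.PT.Defs
import Pool.Agent.Helper65.PS.Ibp
import Pool.Agent.Helper65.PS.Lid

set_option autoImplicit false

open MeasureTheory ProbabilityTheory Pool.H65.PS

namespace Pool.H65.PT

section wla

/-! ### the discrete law -/

theorem wla_dW_eq (m : ℕ) : dW m = (lidU m).map (fun a : Fin m => Pi.single a (1 : ℝ)) := by
  have hmeas : Measurable (fun a : Fin m => (Pi.single a (1 : ℝ) : Fin m → ℝ)) :=
    measurable_of_finite _
  ext s hs
  rw [Measure.map_apply hmeas hs]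
  unfold dW lidU
  rw [Measure.smul_apply, Measure.smul_apply, Measure.finsetSum_apply]
  congr 1
  rw [Measure.count, Measure.sum_apply _ (hmeas hs), tsum_fintype]
  refine Finset.sum_congr rfl fun a _ => ?_
  rw [Measure.dirac_apply' _ hs, Measure.dirac_apply' _ (hmeas hs)]
  rfl

theorem integral_dW (m : ℕ) (hm : 1 ≤ m) (F : (Fin m → ℝ) → ℝ) :
    ∫ w, F w ∂(dW m) = (m : ℝ)⁻¹ * ∑ a, F (Pi.single a 1) := by
  have _ := hm
  unfold dW
  rw [integral_smul_measure, integral_finsetSum_measure]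
  · simp
  · intro a _
    exact integrable_dirac (by simp)

theorem wla_sum_cube (m : ℕ) (x : Fin m → ℝ) :
    ∑ c, |x c| ^ 3 ≤ (∑ c, x c ^ 2) ^ ((3 : ℝ) / 2) := by
  set S := ∑ c, x c ^ 2 with hS
  have hS0 : 0 ≤ S := Finset.sum_nonneg fun c _ => sq_nonneg _
  have h1 : ∀ c, |x c| ≤ Real.sqrt S := by
    intro c
    rw [← Real.sqrt_sq_eq_abs]
    exact Real.sqrt_le_sqrt (Finset.single_le_sum (f := fun c => x c ^ 2)
      (fun c _ => sq_nonneg _) (Finset.mem_univ c))
  have h2 : S ^ ((3 : ℝ) / 2) = Real.sqrt S * S := by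
    rw [Real.sqrt_eq_rpow, show (3 : ℝ) / 2 = 1 / 2 + 1 by norm_num]
    rcases eq_or_lt_of_le hS0 with h | h
    · rw [← h]; norm_num
    · rw [Real.rpow_add h, Real.rpow_one]
  rw [h2, hS, Finset.mul_sum]
  refine Finset.sum_le_sum fun c _ => ?_
  calc |x c| ^ 3 = |x c| * x c ^ 2 := by rw [← sq_abs]; ring
    _ ≤ Real.sqrt S * x c ^ 2 := by
        have := h1 c
        gcongr

theorem WL_dW (m : ℕ) (hm : 1 ≤ m) : WL (dW m) ((m : ℝ) + 1) := by
  have hmeas : Measurable (fun a : Fin m => (Pi.single a (1 : ℝ) : Fin m → ℝ)) :=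
    measurable_of_finite _
  have hmR : (0 : ℝ) < m := by exact_mod_cast hm
  have hU := lid_prob (m := m) hm
  refine ⟨?_, ?_, ?_, ?_, ?_, ?_⟩
  · rw [wla_dW_eq]
    exact Measure.isProbabilityMeasure_map hmeas.aemeasurable
  · rw [wla_dW_eq]
    refine (ae_map_iff hmeas.aemeasurable ?_).2 (Filter.Eventually.of_forall fun a => ?_)
    · exact measurableSet_eq_fun (by fun_prop) measurable_const
    · simp
  · rw [wla_dW_eq, integrable_map_measure (by fun_prop) hmeas.aemeasurable]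
    exact Integrable.of_finite
  · intro a
    rw [integral_dW m hm]
    have h1 : ∀ b : Fin m, (Pi.single b (1 : ℝ) : Fin m → ℝ) a = if a = b then 1 else 0 := by
      intro b
      rw [Pi.single_apply]
    simp [h1]
  · intro a b
    rw [integral_dW m hm]
    have h1 : ∀ c : Fin m, (Pi.single c (1 : ℝ) : Fin m → ℝ) a * (Pi.single c (1 : ℝ) : Fin m → ℝ) b
        = if a = c then (if a = b then 1 else 0) else 0 := by
      intro c
      rw [Pi.single_apply, Pi.single_apply]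
      by_cases h : a = c
      · subst h
        by_cases h' : b = a
        · simp [h']
        · simp [h', Ne.symm h']
      · simp [h]
    simp only [h1]
    rw [Finset.sum_ite_eq, if_pos (Finset.mem_univ _)]
    split_ifs <;> simp
  · intro b
    rw [integral_dW m hm, integral_dW m hm]
    set x : Fin m → ℝ := fun c => ∑ a, b a * ((Pi.single c (1 : ℝ) : Fin m → ℝ) a - (m : ℝ)⁻¹)
      with hx
    have h1 := wla_sum_cube m x
    have hS0 : 0 ≤ ∑ c, x c ^ 2 := Finset.sum_nonneg fun c _ => sq_nonneg _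
    change (m : ℝ)⁻¹ * ∑ c, |x c| ^ 3 ≤ ((m : ℝ) + 1) * ((m : ℝ)⁻¹ * ∑ c, x c ^ 2) ^ ((3 : ℝ) / 2)
    rw [Real.mul_rpow (by positivity) hS0]
    have h2 : (m : ℝ)⁻¹ ≤ ((m : ℝ) + 1) * (m : ℝ)⁻¹ ^ ((3 : ℝ) / 2) := by
      have h3 : (m : ℝ)⁻¹ ^ ((3 : ℝ) / 2) = Real.sqrt (m : ℝ)⁻¹ * (m : ℝ)⁻¹ := by
        rw [Real.sqrt_eq_rpow, show (3 : ℝ) / 2 = 1 / 2 + 1 by norm_num,
          Real.rpow_add (by positivity), Real.rpow_one]
      rw [h3]
      have h4 : 1 ≤ ((m : ℝ) + 1) * Real.sqrt (m : ℝ)⁻¹ := by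
        rw [Real.sqrt_inv, ← div_eq_mul_inv, one_le_div (Real.sqrt_pos.2 hmR)]
        have h5 := Real.sq_sqrt hmR.le
        nlinarith [Real.sqrt_nonneg (m : ℝ), sq_nonneg (Real.sqrt m - 1)]
      calc (m : ℝ)⁻¹ = 1 * (m : ℝ)⁻¹ := by ring
        _ ≤ (((m : ℝ) + 1) * Real.sqrt (m : ℝ)⁻¹) * (m : ℝ)⁻¹ := by gcongr
        _ = _ := by ring
    calc (m : ℝ)⁻¹ * ∑ c, |x c| ^ 3
        ≤ (((m : ℝ) + 1) * (m : ℝ)⁻¹ ^ ((3 : ℝ) / 2)) * (∑ c, x c ^ 2) ^ ((3 : ℝ) / 2) := by
          refine mul_le_mul h2 h1 (Finset.sum_nonneg fun c _ => by positivity) (by positivity)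
      _ = _ := by ring

/-! ### the Gaussian law -/

/-- the coefficients of the Gaussian weights -/
noncomputable def wlaC (m : ℕ) (c a : Fin m) : ℝ :=
  ((if c = a then 1 else 0) - (m : ℝ)⁻¹) * (Real.sqrt m)⁻¹

/-- the Gaussian weights of one coordinate -/
noncomputable def wlaT (m : ℕ) (g : Fin m → ℝ) (a : Fin m) : ℝ :=
  (m : ℝ)⁻¹ + (g a - (∑ b, g b) / m) / Real.sqrt m

theorem wlaT_eq (m : ℕ) (g : Fin m → ℝ) (a : Fin m) :
    wlaT m g a = (m : ℝ)⁻¹ + lin (wlaC m) g a := by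
  rw [lid_lin_apply]
  unfold wlaT wlaC
  have h1 : ∀ c : Fin m, g c * (((if c = a then 1 else 0) - (m : ℝ)⁻¹) * (Real.sqrt m)⁻¹) =
      (if c = a then g c * (Real.sqrt m)⁻¹ else 0) - g c * ((m : ℝ)⁻¹ * (Real.sqrt m)⁻¹) := by
    intro c
    split_ifs <;> ring
  simp only [h1, Finset.sum_sub_distrib]
  rw [Finset.sum_ite_eq', if_pos (Finset.mem_univ _), ← Finset.sum_mul]
  ring

theorem wlaT_continuous (m : ℕ) : Continuous (wlaT m) := by
  unfold wlaT
  fun_prop

theorem wla_gW_eq (m : ℕ) : gW m = (gam (Fin m)).map (wlaT m) := rfl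

theorem wlaT_norm (m : ℕ) (hm : 1 ≤ m) (g : Fin m → ℝ) : ‖wlaT m g‖ ≤ 2 * (1 + ‖g‖) := by
  have hmR : (1 : ℝ) ≤ m := by exact_mod_cast hm
  have hg0 := norm_nonneg g
  rw [pi_norm_le_iff_of_nonneg (by positivity)]
  intro a
  have h1 : |g a| ≤ ‖g‖ := norm_le_pi_norm g a
  have h2 : |(∑ b, g b) / m| ≤ ‖g‖ := by
    rw [abs_div, abs_of_nonneg (by positivity : (0 : ℝ) ≤ m), div_le_iff₀ (by positivity)]
    calc |∑ b, g b| ≤ ∑ b, |g b| := Finset.abs_sum_le_sum_abs _ _
      _ ≤ ∑ _b : Fin m, ‖g‖ := Finset.sum_le_sum fun b _ => norm_le_pi_norm g b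
      _ = ‖g‖ * m := by simp [mul_comm]
  have hs : 1 ≤ Real.sqrt m := by rw [Real.one_le_sqrt]; exact hmR
  have h3 : |(g a - (∑ b, g b) / m) / Real.sqrt m| ≤ 2 * ‖g‖ := by
    rw [abs_div, abs_of_nonneg (Real.sqrt_nonneg _), div_le_iff₀ (by positivity)]
    have := abs_sub (g a) ((∑ b, g b) / m)
    nlinarith
  have h4 : |(m : ℝ)⁻¹| ≤ 1 := by
    rw [abs_of_nonneg (by positivity)]
    exact inv_le_one_of_one_le₀ hmR
  rw [Real.norm_eq_abs]
  unfold wlaT
  have := abs_add_le ((m : ℝ)⁻¹) ((g a - (∑ b, g b) / m) / Real.sqrt m)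
  linarith

theorem wla_cov (m : ℕ) (hm : 1 ≤ m) (a b : Fin m) :
    ∑ c, wlaC m c a * wlaC m c b = (m : ℝ)⁻¹ * ((if a = b then 1 else 0) - (m : ℝ)⁻¹) := by
  have hmR : (0 : ℝ) < m := by exact_mod_cast hm
  have hs : (Real.sqrt m)⁻¹ * (Real.sqrt m)⁻¹ = (m : ℝ)⁻¹ := by
    rw [← mul_inv, Real.mul_self_sqrt hmR.le]
  have h1 : ∀ c, wlaC m c a * wlaC m c b = (m : ℝ)⁻¹ *
      ((if c = a then (if a = b then 1 else 0) else 0) - (if c = a then (m : ℝ)⁻¹ else 0)
        - (if c = b then (m : ℝ)⁻¹ else 0) + (m : ℝ)⁻¹ ^ 2) := by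
    intro c
    unfold wlaC
    have e : ((if c = a then (1 : ℝ) else 0) - (m : ℝ)⁻¹) * (Real.sqrt m)⁻¹ *
        (((if c = b then (1 : ℝ) else 0) - (m : ℝ)⁻¹) * (Real.sqrt m)⁻¹) =
        ((Real.sqrt m)⁻¹ * (Real.sqrt m)⁻¹) * (((if c = a then (1 : ℝ) else 0) - (m : ℝ)⁻¹) *
          ((if c = b then (1 : ℝ) else 0) - (m : ℝ)⁻¹)) := by ring
    rw [e, hs]
    congr 1
    by_cases h : c = a
    · subst h
      by_cases h' : c = b
      · simp [h']; ring
      · simp [h']; ring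
    · by_cases h' : c = b
      · subst h'
        simp [h]; ring
      · simp [h, h']; ring
  simp only [h1, ← Finset.mul_sum]
  congr 1
  simp only [Finset.sum_add_distrib, Finset.sum_sub_distrib, Finset.sum_ite_eq',
    Finset.mem_univ, if_true, Finset.sum_const, Finset.card_univ, Fintype.card_fin, nsmul_eq_mul]
  field_simp
  ring

/-- fourth moment of a linear form -/
theorem wla_fourth (m : ℕ) (t : Fin m → ℝ) :
    ∫ g, (∑ c, t c * g c) ^ 4 ∂(gam (Fin m)) = 3 * (∑ c, t c ^ 2) ^ 2 := by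
  have hbd : ∀ g : Fin m → ℝ, |∑ c, t c * g c| ≤ (∑ c, |t c|) * (1 + ‖g‖) := by
    intro g
    rw [Finset.sum_mul]
    refine (Finset.abs_sum_le_sum_abs _ _).trans (Finset.sum_le_sum fun c _ => ?_)
    rw [abs_mul]
    have h1 : |g c| ≤ ‖g‖ := norm_le_pi_norm g c
    gcongr
    linarith
  set T := ∑ c, |t c| with hT
  have hT0 : 0 ≤ T := Finset.sum_nonneg fun c _ => abs_nonneg _
  have h2 : ∫ g, (∑ c, t c * g c) ^ 2 ∂(gam (Fin m)) = ∑ c, t c ^ 2 := by
    have h := lid_lin_cov (ι := Unit) (m := m) (fun c _ => t c) () ()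
    simp only [lid_lin_apply] at h
    have h' : ∑ a, t a * t a = ∑ c, t c ^ 2 := Finset.sum_congr rfl fun c _ => (sq (t c)).symm
    rw [← h', ← h]
    refine integral_congr_ae (Filter.Eventually.of_forall fun g => ?_)
    simp only
    rw [sq]
    congr 1 <;> exact Finset.sum_congr rfl fun c _ => mul_comm _ _
  have h3 : ∀ i, ∫ g : Fin m → ℝ, g i * (∑ c, t c * g c) ^ 3 ∂(gam (Fin m)) =
      ∫ g : Fin m → ℝ, 3 * (∑ c, t c * g c) ^ 2 * t i ∂(gam (Fin m)) := by
    intro i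
    refine gam_ibp i (fun g => (∑ c, t c * g c) ^ 3) (fun g => 3 * (∑ c, t c * g c) ^ 2 * t i)
      (T ^ 3 + 3 * T ^ 2 * |t i|) 3 (by fun_prop) (by fun_prop) ?_ ?_ ?_
    · intro g u
      have e1 : ∀ s : ℝ, ∑ c, t c * Function.update g i s c =
          t i * s + ∑ c ∈ Finset.univ.erase i, t c * g c := by
        intro s
        rw [← Finset.add_sum_erase Finset.univ _ (Finset.mem_univ i), Function.update_self]
        congr 1
        refine Finset.sum_congr rfl fun c hc => ?_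
        rw [Function.update_of_ne (Finset.ne_of_mem_erase hc)]
      simp only [e1]
      have e2 : HasDerivAt (fun s : ℝ => t i * s + ∑ c ∈ Finset.univ.erase i, t c * g c) (t i) u := by
        simpa using ((hasDerivAt_id u).const_mul (t i)).add_const
          (∑ c ∈ Finset.univ.erase i, t c * g c)
      exact (e2.fun_pow 3).congr_deriv (by norm_num)
    · intro g
      have h := hbd g
      rw [abs_pow]
      have h5 : |∑ c, t c * g c| ^ 3 ≤ (T * (1 + ‖g‖)) ^ 3 := pow_le_pow_left₀ (abs_nonneg _) h 3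
      have h6 : 0 ≤ 3 * T ^ 2 * |t i| := by positivity
      have h7 : 0 ≤ (1 + ‖g‖) ^ 3 := by positivity
      calc |∑ c, t c * g c| ^ 3 ≤ (T * (1 + ‖g‖)) ^ 3 := h5
        _ = T ^ 3 * (1 + ‖g‖) ^ 3 := by ring
        _ ≤ (T ^ 3 + 3 * T ^ 2 * |t i|) * (1 + ‖g‖) ^ 3 := by nlinarith
    · intro g
      have h := hbd g
      rw [abs_mul, abs_mul, abs_pow]
      have h5 : |∑ c, t c * g c| ^ 2 ≤ (T * (1 + ‖g‖)) ^ 2 := pow_le_pow_left₀ (abs_nonneg _) h 2
      have h8 : (1 + ‖g‖) ^ 2 ≤ (1 + ‖g‖) ^ 3 :=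
        pow_le_pow_right₀ (by linarith [norm_nonneg g]) (by norm_num)
      have h9 : 0 ≤ (1 + ‖g‖) ^ 3 := by positivity
      have h10 : (0 : ℝ) ≤ T ^ 3 := by positivity
      calc |(3 : ℝ)| * |∑ c, t c * g c| ^ 2 * |t i| ≤ 3 * (T * (1 + ‖g‖)) ^ 2 * |t i| := by
            rw [abs_of_pos (by norm_num : (0 : ℝ) < 3)]
            gcongr
        _ = 3 * T ^ 2 * |t i| * (1 + ‖g‖) ^ 2 := by ring
        _ ≤ 3 * T ^ 2 * |t i| * (1 + ‖g‖) ^ 3 := by gcongr
        _ ≤ (T ^ 3 + 3 * T ^ 2 * |t i|) * (1 + ‖g‖) ^ 3 := by nlinarith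
  have hI : ∀ i, Integrable (fun g : Fin m → ℝ => t i * (g i * (∑ c, t c * g c) ^ 3))
      (gam (Fin m)) := by
    intro i
    refine integrable_gam _ (|t i| * T ^ 3) 4 (by fun_prop) fun g => ?_
    have h := hbd g
    rw [abs_mul, abs_mul, abs_pow]
    have h1 : |g i| ≤ 1 + ‖g‖ := by
      have : |g i| ≤ ‖g‖ := norm_le_pi_norm g i
      linarith
    have h5 : |∑ c, t c * g c| ^ 3 ≤ (T * (1 + ‖g‖)) ^ 3 := pow_le_pow_left₀ (abs_nonneg _) h 3
    calc |t i| * (|g i| * |∑ c, t c * g c| ^ 3) ≤ |t i| * ((1 + ‖g‖) * (T * (1 + ‖g‖)) ^ 3) := by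
          gcongr
      _ = |t i| * T ^ 3 * (1 + ‖g‖) ^ 4 := by ring
  have e4 : ∀ g : Fin m → ℝ, (∑ c, t c * g c) ^ 4 =
      ∑ i, t i * (g i * (∑ c, t c * g c) ^ 3) := by
    intro g
    have : ∑ i, t i * (g i * (∑ c, t c * g c) ^ 3) =
        (∑ i, t i * g i) * (∑ c, t c * g c) ^ 3 := by
      rw [Finset.sum_mul]
      exact Finset.sum_congr rfl fun i _ => by ring
    rw [this]
    ring
  simp only [e4]
  rw [integral_finsetSum _ fun i _ => hI i]
  have e5 : ∀ i, ∫ g : Fin m → ℝ, t i * (g i * (∑ c, t c * g c) ^ 3) ∂(gam (Fin m)) =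
      3 * (∑ c, t c ^ 2) * t i ^ 2 := by
    intro i
    rw [integral_const_mul, h3, integral_mul_const, integral_const_mul, h2]
    ring
  rw [Finset.sum_congr rfl fun i _ => e5 i, ← Finset.mul_sum]
  ring

theorem wla_int_pow (m : ℕ) (t : Fin m → ℝ) (p : ℕ) :
    Integrable (fun g : Fin m → ℝ => |∑ c, t c * g c| ^ p) (gam (Fin m)) := by
  have hbd : ∀ g : Fin m → ℝ, |∑ c, t c * g c| ≤ (∑ c, |t c|) * (1 + ‖g‖) := by
    intro g
    rw [Finset.sum_mul]
    refine (Finset.abs_sum_le_sum_abs _ _).trans (Finset.sum_le_sum fun c _ => ?_)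
    rw [abs_mul]
    have h1 : |g c| ≤ ‖g‖ := norm_le_pi_norm g c
    gcongr
    linarith
  refine integrable_gam _ ((∑ c, |t c|) ^ p) p (by fun_prop) fun g => ?_
  rw [abs_pow, abs_abs, ← mul_pow]
  exact pow_le_pow_left₀ (abs_nonneg _) (hbd g) p

/-- third absolute moment of a linear form -/
theorem wla_third (m : ℕ) (t : Fin m → ℝ) :
    ∫ g, |∑ c, t c * g c| ^ 3 ∂(gam (Fin m)) ≤
      2 * (∫ g, (∑ c, t c * g c) ^ 2 ∂(gam (Fin m))) ^ ((3 : ℝ) / 2) := by
  have h2 : ∫ g, (∑ c, t c * g c) ^ 2 ∂(gam (Fin m)) = ∑ c, t c ^ 2 := by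
    have h := lid_lin_cov (ι := Unit) (m := m) (fun c _ => t c) () ()
    simp only [lid_lin_apply] at h
    have h' : ∑ a, t a * t a = ∑ c, t c ^ 2 := Finset.sum_congr rfl fun c _ => (sq (t c)).symm
    rw [← h', ← h]
    refine integral_congr_ae (Filter.Eventually.of_forall fun g => ?_)
    simp only
    rw [sq]
    congr 1 <;> exact Finset.sum_congr rfl fun c _ => mul_comm _ _
  have h4 := wla_fourth m t
  have I2 := wla_int_pow m t 2
  have I3 := wla_int_pow m t 3
  have I4 := wla_int_pow m t 4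
  have hS0 : 0 ≤ ∑ c, t c ^ 2 := Finset.sum_nonneg fun c _ => sq_nonneg _
  rw [h2]
  set S := ∑ c, t c ^ 2 with hS
  have hS3 : S ^ ((3 : ℝ) / 2) = Real.sqrt S * S := by
    rw [Real.sqrt_eq_rpow, show (3 : ℝ) / 2 = 1 / 2 + 1 by norm_num]
    rcases eq_or_lt_of_le hS0 with h | h
    · rw [← h]; norm_num
    · rw [Real.rpow_add h, Real.rpow_one]
  rw [hS3]
  rcases eq_or_lt_of_le hS0 with h | h
  · -- all coefficients vanish
    have ht : ∀ c, t c = 0 := by
      intro c
      have := (Finset.sum_eq_zero_iff_of_nonneg (fun c _ => sq_nonneg (t c))).1 h.symm c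
        (Finset.mem_univ c)
      exact pow_eq_zero_iff (two_ne_zero) |>.1 this
    simp [ht, ← h]
  · set s := Real.sqrt S with hs
    have hs0 : 0 < s := Real.sqrt_pos.2 h
    have hss : s ^ 2 = S := Real.sq_sqrt hS0
    have hpt : ∀ g : Fin m → ℝ, |∑ c, t c * g c| ^ 3 ≤
        s * |∑ c, t c * g c| ^ 2 + (4 * s)⁻¹ * |∑ c, t c * g c| ^ 4 := by
      intro g
      set y := |∑ c, t c * g c| with hy
      have hy0 : 0 ≤ y := abs_nonneg _
      have e : s * y ^ 2 + (4 * s)⁻¹ * y ^ 4 - y ^ 3 = y ^ 2 * s⁻¹ * (s - y / 2) ^ 2 := by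
        field_simp
        ring
      have : 0 ≤ y ^ 2 * s⁻¹ * (s - y / 2) ^ 2 := by positivity
      linarith
    have h5 : ∫ g, |∑ c, t c * g c| ^ 3 ∂(gam (Fin m)) ≤
        ∫ g, (s * |∑ c, t c * g c| ^ 2 + (4 * s)⁻¹ * |∑ c, t c * g c| ^ 4) ∂(gam (Fin m)) :=
      integral_mono I3 ((I2.const_mul _).add (I4.const_mul _)) hpt
    rw [integral_add (I2.const_mul _) (I4.const_mul _), integral_const_mul,
      integral_const_mul] at h5
    have e2 : ∫ g, |∑ c, t c * g c| ^ 2 ∂(gam (Fin m)) = S := by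
      rw [← h2]
      exact integral_congr_ae (Filter.Eventually.of_forall fun g => by simp only [sq_abs])
    have e4 : ∫ g, |∑ c, t c * g c| ^ 4 ∂(gam (Fin m)) = 3 * S ^ 2 := by
      rw [← h4]
      refine integral_congr_ae (Filter.Eventually.of_forall fun g => ?_)
      simp only
      rw [show (4 : ℕ) = 2 * 2 by norm_num, pow_mul, sq_abs, ← pow_mul]
    rw [e2, e4] at h5
    refine h5.trans ?_
    have e6 : (4 * s)⁻¹ * (3 * S ^ 2) = 3 / 4 * (s * S) := by
      rw [← hss]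
      field_simp
    rw [e6]
    have : 0 ≤ s * S := by positivity
    linarith

theorem WL_gW (m : ℕ) (hm : 1 ≤ m) : WL (gW m) ((m : ℝ) + 1) := by
  have hT := wlaT_continuous m
  have hmR : (0 : ℝ) < m := by exact_mod_cast hm
  have hmR1 : (1 : ℝ) ≤ m := by exact_mod_cast hm
  rw [wla_gW_eq]
  refine ⟨?_, ?_, ?_, ?_, ?_, ?_⟩
  · exact Measure.isProbabilityMeasure_map hT.measurable.aemeasurable
  · refine (ae_map_iff hT.measurable.aemeasurable ?_).2 (Filter.Eventually.of_forall fun g => ?_)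
    · exact measurableSet_eq_fun (by fun_prop) measurable_const
    · unfold wlaT
      rw [Finset.sum_add_distrib, ← Finset.sum_div, Finset.sum_sub_distrib]
      simp only [Finset.sum_const, Finset.card_univ, Fintype.card_fin, nsmul_eq_mul]
      field_simp
      ring
  · rw [integrable_map_measure (by fun_prop) hT.measurable.aemeasurable]
    refine integrable_gam _ 16 4 ((hT.norm).pow 4) fun g => ?_
    simp only [Function.comp_apply]
    rw [abs_of_nonneg (by positivity)]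
    calc ‖wlaT m g‖ ^ 4 ≤ (2 * (1 + ‖g‖)) ^ 4 :=
          pow_le_pow_left₀ (norm_nonneg _) (wlaT_norm m hm g) 4
      _ = 16 * (1 + ‖g‖) ^ 4 := by ring
  · intro a
    rw [integral_map hT.measurable.aemeasurable (measurable_pi_apply a).aestronglyMeasurable]
    simp only [wlaT_eq]
    have hi : Integrable (fun g : Fin m → ℝ => lin (wlaC m) g a) (gam (Fin m)) := by
      simp only [lid_lin_apply]
      exact integrable_finsetSum _ fun c _ => (lid_int_coord c).mul_const _
    rw [integral_add (integrable_const _) hi, lid_lin_mean]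
    simp
  · intro a b
    rw [integral_map hT.measurable.aemeasurable (by fun_prop)]
    simp only [wlaT_eq]
    have hi : ∀ a, Integrable (fun g : Fin m → ℝ => lin (wlaC m) g a) (gam (Fin m)) := by
      intro a
      simp only [lid_lin_apply]
      exact integrable_finsetSum _ fun c _ => (lid_int_coord c).mul_const _
    have hi2 : Integrable (fun g : Fin m → ℝ => lin (wlaC m) g a * lin (wlaC m) g b)
        (gam (Fin m)) := by
      simp only [lid_lin_apply, Finset.sum_mul_sum]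
      refine integrable_finsetSum _ fun c _ => integrable_finsetSum _ fun d _ => ?_
      have := (lid_int_coord2 c d).mul_const (wlaC m c a * wlaC m d b)
      refine this.congr (Filter.Eventually.of_forall fun g => ?_)
      simp only
      ring
    have e1 : ∀ g : Fin m → ℝ, ((m : ℝ)⁻¹ + lin (wlaC m) g a) * ((m : ℝ)⁻¹ + lin (wlaC m) g b) =
        (((m : ℝ)⁻¹ ^ 2 + (m : ℝ)⁻¹ * lin (wlaC m) g a) + (m : ℝ)⁻¹ * lin (wlaC m) g b) +
          lin (wlaC m) g a * lin (wlaC m) g b := fun g => by ring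
    simp only [e1]
    have J1 : Integrable (fun g : Fin m → ℝ => (m : ℝ)⁻¹ * lin (wlaC m) g a) (gam (Fin m)) :=
      (hi a).const_mul _
    have J2 : Integrable (fun g : Fin m → ℝ => (m : ℝ)⁻¹ * lin (wlaC m) g b) (gam (Fin m)) :=
      (hi b).const_mul _
    rw [integral_add (by exact ((integrable_const _).add J1).add J2) hi2,
      integral_add (by exact (integrable_const _).add J1) J2,
      integral_add (integrable_const _) J1, integral_const_mul, integral_const_mul,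
      lid_lin_mean, lid_lin_mean, lid_lin_cov, wla_cov m hm]
    simp only [integral_const, probReal_univ, one_smul, mul_zero, add_zero]
    split_ifs <;> ring
  · intro b
    rw [integral_map hT.measurable.aemeasurable (Continuous.aestronglyMeasurable (by fun_prop)),
      integral_map hT.measurable.aemeasurable (Continuous.aestronglyMeasurable (by fun_prop))]
    set t : Fin m → ℝ := fun c => ∑ a, b a * wlaC m c a with ht
    have e1 : ∀ g : Fin m → ℝ, ∑ a, b a * (wlaT m g a - (m : ℝ)⁻¹) = ∑ c, t c * g c := by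
      intro g
      have h1 : ∀ a, b a * (wlaT m g a - (m : ℝ)⁻¹) = ∑ c, b a * wlaC m c a * g c := by
        intro a
        rw [wlaT_eq, lid_lin_apply, add_sub_cancel_left, Finset.mul_sum]
        exact Finset.sum_congr rfl fun c _ => by ring
      rw [Finset.sum_congr rfl fun a _ => h1 a, Finset.sum_comm]
      refine Finset.sum_congr rfl fun c _ => ?_
      rw [ht, Finset.sum_mul]
    simp only [e1]
    refine (wla_third m t).trans ?_
    have h0 : 0 ≤ ∫ g, (∑ c, t c * g c) ^ 2 ∂(gam (Fin m)) := integral_nonneg fun g => sq_nonneg _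
    have h1 : (0 : ℝ) ≤ (∫ g, (∑ c, t c * g c) ^ 2 ∂(gam (Fin m))) ^ ((3 : ℝ) / 2) :=
      Real.rpow_nonneg h0 _
    nlinarith

/-! ### products -/

/-- the law of the Gaussian weights of all coordinates -/
theorem integral_gW_pi (m n : ℕ) (hm : 1 ≤ m) (F : (Fin n → Fin m → ℝ) → ℝ) (hF : Measurable F) :
    ∫ w, F w ∂(Measure.pi (fun _ : Fin n => gW m))
      = ∫ g, F (wtG m n g) ∂(gam (Fin n × Fin m)) := by
  have _ := hm
  have mT : Measurable (wlaT m) := (wlaT_continuous m).measurable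
  have P : IsProbabilityMeasure ((gam (Fin m)).map (wlaT m)) :=
    Measure.isProbabilityMeasure_map mT.aemeasurable
  simp only [wla_gW_eq]
  have mA : Measurable (fun (x : Fin n → Fin m → ℝ) (i : Fin n) => wlaT m (x i)) :=
    measurable_pi_lambda _ fun i => mT.comp (measurable_pi_apply i)
  rw [← Measure.pi_map_pi (fun _ => mT.aemeasurable), ← lid_curry n m,
    Measure.map_map mA (MeasurableEquiv.measurable _),
    integral_map (mA.comp (MeasurableEquiv.measurable _)).aemeasurable hF.aestronglyMeasurable]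
  rfl

theorem integral_dW_pi (m n : ℕ) (hm : 1 ≤ m) (F : (Fin n → Fin m → ℝ) → ℝ) (hF : Measurable F) :
    ∫ w, F w ∂(Measure.pi (fun _ : Fin n => dW m))
      = av (fun ω : Fin n → Fin m => F (fun i => Pi.single (ω i) 1)) := by
  have hmeas : Measurable (fun a : Fin m => (Pi.single a (1 : ℝ) : Fin m → ℝ)) :=
    measurable_of_finite _
  have hU := lid_prob (m := m) hm
  have P : IsProbabilityMeasure ((lidU m).map (fun a : Fin m => (Pi.single a (1 : ℝ) :
      Fin m → ℝ))) := Measure.isProbabilityMeasure_map hmeas.aemeasurable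
  simp only [wla_dW_eq]
  rw [← Measure.pi_map_pi (fun _ => hmeas.aemeasurable), integral_map _ hF.aestronglyMeasurable,
    lid_pi_integral hm]
  exact (measurable_of_finite _).aemeasurable

end wla

end Pool.H65.PT
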