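import Pool.Agent.Helper65.PT.Defs
import Pool.Agent.Helper65.PT.Lbb
import Pool.Agent.Helper65.PT.Tin
import Pool.Agent.Helper65.PT.Wla

set_option autoImplicit false

open MeasureTheory ProbabilityTheory Pool.H65.PS

namespace Pool.H65.PT

section neg

variable {m n : ℕ}

theorem neg_pol_single (F : (Fin n → Fin m) → ℝ) (ω : Fin n → Fin m) :
    pol F (fun i => Pi.single (ω i) 1) = F ω := by
  unfold pol
  rw [Finset.sum_eq_single ω]
  · rw [Finset.prod_eq_one, mul_one]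
    intro i _
    simp
  · intro δ _ hδ
    obtain ⟨i, hi⟩ := Function.ne_iff.1 hδ
    rw [Finset.prod_eq_zero (Finset.mem_univ i), mul_zero]
    change (Pi.single (ω i) (1 : ℝ) : Fin m → ℝ) (δ i) = 0
    rw [Pi.single_eq_of_ne hi]
  · intro h; exact absurd (Finset.mem_univ _) h

theorem neg_cont_pol (F : (Fin n → Fin m) → ℝ) : Continuous (fun w : Fin n → Fin m → ℝ => pol F w) := by
  unfold pol
  fun_prop

theorem neg_cont_wtG : Continuous (fun g : Fin n × Fin m → ℝ => wtG m n g) := by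
  unfold wtG
  refine continuous_pi fun i => continuous_pi fun a => ?_
  fun_prop

theorem neg_cont_psi (q : ℝ) (hq : 0 ≤ q) : Continuous (psi q) := by
  unfold psi
  exact Continuous.rpow_const (by fun_prop) fun x => Or.inr hq

theorem neg_wt_bound (hm : 1 ≤ m) (g : Fin n × Fin m → ℝ) (i : Fin n) (a : Fin m) :
    |wtG m n g i a| ≤ 2 * (1 + ‖g‖) := by
  have hm1 : (1 : ℝ) ≤ (m : ℝ) := by exact_mod_cast hm
  have hm0 : (0 : ℝ) < (m : ℝ) := by linarith
  have hs : (1 : ℝ) ≤ Real.sqrt m := by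
    rw [show (1 : ℝ) = Real.sqrt 1 by simp]
    exact Real.sqrt_le_sqrt hm1
  have h1 : |g (i, a)| ≤ ‖g‖ := norm_le_pi_norm g (i, a)
  have h2 : |(∑ b, g (i, b)) / m| ≤ ‖g‖ := by
    rw [abs_div, abs_of_pos hm0, div_le_iff₀ hm0]
    calc |∑ b, g (i, b)| ≤ ∑ b : Fin m, |g (i, b)| := Finset.abs_sum_le_sum_abs _ _
      _ ≤ ∑ b : Fin m, ‖g‖ := Finset.sum_le_sum fun b _ => norm_le_pi_norm g (i, b)
      _ = ‖g‖ * m := by
        rw [Finset.sum_const, Finset.card_univ, Fintype.card_fin, nsmul_eq_mul]; ring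
  have h3 : |(m : ℝ)⁻¹| ≤ 1 := by
    rw [abs_of_pos (inv_pos.2 hm0)]
    exact inv_le_one_of_one_le₀ hm1
  have h4 : |(g (i, a) - (∑ b, g (i, b)) / m) / Real.sqrt m| ≤ 2 * ‖g‖ := by
    rw [abs_div, abs_of_pos (by linarith : (0 : ℝ) < Real.sqrt m), div_le_iff₀ (by linarith)]
    have h5 : |g (i, a) - (∑ b, g (i, b)) / m| ≤ |g (i, a)| + |(∑ b, g (i, b)) / m| := abs_sub _ _
    have h6 : 0 ≤ ‖g‖ := norm_nonneg _
    nlinarith
  unfold wtG
  have h7 := abs_add_le (m : ℝ)⁻¹ ((g (i, a) - (∑ b, g (i, b)) / m) / Real.sqrt m)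
  linarith

theorem neg_pol_bound (hm : 1 ≤ m) (F : (Fin n → Fin m) → ℝ) (g : Fin n × Fin m → ℝ) :
    |pol F (wtG m n g)| ≤ ((∑ ω, |F ω|) * 2 ^ n) * (1 + ‖g‖) ^ n := by
  unfold pol
  calc |∑ ω, F ω * ∏ i, wtG m n g i (ω i)|
      ≤ ∑ ω, |F ω * ∏ i, wtG m n g i (ω i)| := Finset.abs_sum_le_sum_abs _ _
    _ ≤ ∑ ω, |F ω| * (2 * (1 + ‖g‖)) ^ n := by
        refine Finset.sum_le_sum fun ω _ => ?_
        rw [abs_mul]
        refine mul_le_mul_of_nonneg_left ?_ (abs_nonneg _)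
        rw [Finset.abs_prod]
        calc ∏ i, |wtG m n g i (ω i)| ≤ ∏ i : Fin n, (2 * (1 + ‖g‖)) :=
              Finset.prod_le_prod (fun i _ => abs_nonneg _) fun i _ => neg_wt_bound hm g i _
          _ = _ := by rw [Finset.prod_const, Finset.card_univ, Fintype.card_fin]
    _ = _ := by rw [← Finset.sum_mul, mul_pow]; ring

theorem neg_psi_le (q : ℝ) (h0 : 0 ≤ q) (h3 : q ≤ 3) (t : ℝ) : |psi q t| ≤ (1 + |t|) ^ 3 := by
  unfold psi
  have h1 : 0 ≤ max (-t) 0 := le_max_right _ _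
  have h2 : max (-t) 0 ≤ 1 + |t| := by
    apply max_le
    · have := neg_le_abs t; linarith
    · positivity
  rw [abs_of_nonneg (Real.rpow_nonneg h1 q)]
  calc (max (-t) 0) ^ q ≤ (1 + |t|) ^ q := Real.rpow_le_rpow h1 h2 h0
    _ ≤ (1 + |t|) ^ (3 : ℝ) := Real.rpow_le_rpow_of_exponent_le (by linarith [abs_nonneg t]) h3
    _ = (1 + |t|) ^ 3 := by
      rw [← Real.rpow_natCast]; norm_num

theorem neg_sq_le (a q x : ℝ) (ha : 0 < a) (hq : 2 ≤ q) (hx : 0 ≤ x) :
    x ^ 2 ≤ a + a ^ (1 - q / 2) * x ^ q := by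
  by_cases h : x ^ 2 ≤ a
  · have : 0 ≤ a ^ (1 - q / 2) * x ^ q := by positivity
    linarith
  · push Not at h
    have hx0 : 0 < x := by
      rcases hx.lt_or_eq with h1 | h1
      · exact h1
      · rw [← h1] at h; norm_num at h; linarith
    have h1 : x ^ q = x ^ 2 * (x ^ 2) ^ (q / 2 - 1) := by
      have : (x ^ 2) ^ (q / 2 - 1) = x ^ (q - 2) := by
        rw [← Real.rpow_natCast x 2, ← Real.rpow_mul hx]
        congr 1
        push_cast
        ring
      rw [this, ← Real.rpow_natCast x 2, ← Real.rpow_add hx0]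
      congr 1
      push_cast
      ring
    have h2 : a ^ (q / 2 - 1) ≤ (x ^ 2) ^ (q / 2 - 1) :=
      Real.rpow_le_rpow ha.le h.le (by linarith)
    have h3 : a ^ (1 - q / 2) * a ^ (q / 2 - 1) = 1 := by
      rw [← Real.rpow_add ha]
      simp
    have h4 : x ^ 2 = a ^ (1 - q / 2) * (x ^ 2 * a ^ (q / 2 - 1)) := by
      calc x ^ 2 = x ^ 2 * 1 := by ring
        _ = x ^ 2 * (a ^ (1 - q / 2) * a ^ (q / 2 - 1)) := by rw [h3]
        _ = _ := by ring
    have h5 : a ^ (1 - q / 2) * (x ^ 2 * a ^ (q / 2 - 1)) ≤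
        a ^ (1 - q / 2) * (x ^ 2 * (x ^ 2) ^ (q / 2 - 1)) :=
      mul_le_mul_of_nonneg_left (mul_le_mul_of_nonneg_left h2 (by positivity)) (by positivity)
    rw [h1]
    linarith

theorem neg_infl_nonneg (g : (Fin n → Fin m) → ℝ) (k : Fin n) : 0 ≤ infl g k := by
  unfold infl
  positivity

end neg

theorem neg_small (m : ℕ) (hm : 1 ≤ m) (θ : ℝ) (h0 : 0 < θ) (h1 : θ < 1) (ε : ℝ) (hε : 0 < ε) :
    ∃ τ : ℝ, 0 < τ ∧ ∀ (n : ℕ) (F : (Fin n → Fin m) → ℝ), (∀ ω, 0 ≤ F ω ∧ F ω ≤ 1) →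
    (∀ k, infl F k ≤ τ) →
    ∫ g, (max (-(pol (Tn θ F) (wtG m n g))) 0) ^ 2 ∂(gam (Fin n × Fin m)) ≤ ε := by
  set η := Real.sqrt θ with hη
  have hη0 : 0 ≤ η := Real.sqrt_nonneg _
  have hηη : η * η = θ := Real.mul_self_sqrt h0.le
  have hη1 : η < 1 := by nlinarith
  set K : ℝ := (m : ℝ) + 1 with hK
  have hm0 : (0 : ℝ) ≤ (m : ℝ) := Nat.cast_nonneg _
  have hK0 : 0 ≤ K := by positivity
  set q := qq η K with hq
  have hqe : q = 2 + (1 - θ) / (4 + K) := by rw [hq, qq, sq, hηη]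
  have hd0 : 0 < (1 - θ) / (4 + K) := div_pos (by linarith) (by linarith)
  have hd1 : (1 - θ) / (4 + K) ≤ 1 := by
    rw [div_le_one (by linarith)]
    linarith
  have hq2 : 2 < q := by linarith
  have hq3 : q ≤ 3 := by linarith
  have hδ : 0 < q / 2 - 1 := by linarith
  set c : ℝ := (1 - θ) / 6 * (ε / 2) ^ (q / 2) with hc
  have hc0 : 0 < c := by
    have : 0 < 1 - θ := by linarith
    positivity
  refine ⟨c ^ (1 / (q / 2 - 1)), by positivity, ?_⟩
  intro n F hF hI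
  set τ := c ^ (1 / (q / 2 - 1)) with hτ
  have hτ0 : 0 < τ := by positivity
  have hτc : τ ^ (q / 2 - 1) = c := by
    rw [hτ, ← Real.rpow_mul hc0.le, one_div_mul_cancel hδ.ne', Real.rpow_one]
  set G := Tn η F with hG
  have hGF : Tn θ F = Tn η G := by rw [hG, Tn_comp hm, hηη]
  set P : (Fin n × Fin m → ℝ) → ℝ := fun g => pol (Tn θ F) (wtG m n g) with hP
  have hPc : Continuous P := (neg_cont_pol _).comp neg_cont_wtG
  have hpsi : Continuous (psi q) := neg_cont_psi q (by linarith)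
  have hmeas : Measurable (fun w : Fin n → Fin m → ℝ => psi q (pol (Tn η G) w)) :=
    (hpsi.comp (neg_cont_pol _)).measurable
  -- the discrete value vanishes
  have hdisc : ∫ w, psi q (pol (Tn η G) w) ∂(Measure.pi (fun _ : Fin n => dW m)) = 0 := by
    rw [integral_dW_pi m n hm _ hmeas]
    have : (fun ω : Fin n → Fin m => psi q (pol (Tn η G) (fun i => Pi.single (ω i) 1))) =
        fun _ => 0 := by
      funext ω
      rw [neg_pol_single]
      have h2 : 0 ≤ Tn η G ω := (Tn_mem hm η hη0 hη1.le G 0 1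
        (fun ω => Tn_mem hm η hη0 hη1.le F 0 1 hF ω) ω).1
      unfold psi
      rw [max_eq_right (by linarith), Real.zero_rpow (by linarith)]
    rw [this]
    unfold av
    simp
  have hgauss : ∫ w, psi q (pol (Tn η G) w) ∂(Measure.pi (fun _ : Fin n => gW m))
      = ∫ g, psi q (P g) ∂(gam (Fin n × Fin m)) := by
    rw [integral_gW_pi m n hm _ hmeas, hP]
    simp only [hGF]
  have hlind := lind_psi hm K hK0 η hη0 hη1 n (fun _ => gW m) (fun _ => dW m)
    (fun _ => WL_gW m hm) (fun _ => WL_dW m hm) G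
  rw [← hq, hdisc, hgauss, sub_zero] at hlind
  have hA : ∫ g, psi q (P g) ∂(gam (Fin n × Fin m)) ≤ 6 * ∑ k, (infl G k) ^ (q / 2) :=
    (le_abs_self _).trans hlind
  -- bound of the sum
  have hsum : ∑ k, (infl G k) ^ (q / 2) ≤ c / (1 - θ) := by
    have h2 : ∀ k, (infl G k) ^ (q / 2) ≤ c * infl G k := by
      intro k
      have h3 : 0 ≤ infl G k := neg_infl_nonneg _ _
      have h4 : infl G k ≤ τ := (infl_Tn_le hm η hη0 hη1.le F k).trans (hI k)
      rcases h3.lt_or_eq with h5 | h5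
      · have h6 : (infl G k) ^ (q / 2) = (infl G k) ^ (q / 2 - 1) * infl G k := by
          conv_lhs => rw [show q / 2 = (q / 2 - 1) + 1 by ring]
          rw [Real.rpow_add h5, Real.rpow_one]
        rw [h6, ← hτc]
        exact mul_le_mul_of_nonneg_right (Real.rpow_le_rpow h3 h4 hδ.le) h3
      · rw [← h5, Real.zero_rpow (by linarith), mul_zero]
    have h7 := sum_infl_Tn_le hm η hη0 hη1 F
    have h8 : av (fun ω => F ω ^ 2) ≤ 1 := by
      have h9 : av (fun ω => F ω ^ 2) ≤ av (fun _ : Fin n → Fin m => (1 : ℝ)) := by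
        have := dsc_av_nonneg (f := fun ω => (1 : ℝ) - F ω ^ 2) fun ω => by
          have := hF ω; nlinarith
        rw [dsc_av_sub] at this
        linarith
      rwa [dsc_av_const (by omega)] at h9
    calc ∑ k, (infl G k) ^ (q / 2) ≤ ∑ k, c * infl G k := Finset.sum_le_sum fun k _ => h2 k
      _ = c * ∑ k, infl G k := by rw [Finset.mul_sum]
      _ ≤ c * (1 / (1 - θ)) := by
          refine mul_le_mul_of_nonneg_left ?_ hc0.le
          refine h7.trans ?_
          rw [sq, hηη]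
          exact div_le_div_of_nonneg_right h8 (by linarith)
      _ = c / (1 - θ) := by ring
  have hA2 : ∫ g, psi q (P g) ∂(gam (Fin n × Fin m)) ≤ (ε / 2) ^ (q / 2) := by
    calc ∫ g, psi q (P g) ∂(gam (Fin n × Fin m)) ≤ 6 * (c / (1 - θ)) := by linarith
      _ = (ε / 2) ^ (q / 2) := by
        rw [hc]
        have : 1 - θ ≠ 0 := by linarith
        field_simp
  -- integrability
  set C := (∑ ω, |Tn θ F ω|) * 2 ^ n with hC
  have hC0 : 0 ≤ C := by positivity
  have hint : Integrable (fun g => psi q (P g)) (gam (Fin n × Fin m)) := by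
    refine integrable_gam _ ((1 + C) ^ 3) (n * 3) (hpsi.comp hPc) ?_
    intro g
    have h2 := neg_psi_le q (by linarith) hq3 (P g)
    have h3 : |P g| ≤ C * (1 + ‖g‖) ^ n := neg_pol_bound hm (Tn θ F) g
    have h4 : (1 : ℝ) ≤ (1 + ‖g‖) ^ n := one_le_pow₀ (by linarith [norm_nonneg g])
    calc |psi q (P g)| ≤ (1 + |P g|) ^ 3 := h2
      _ ≤ ((1 + C) * (1 + ‖g‖) ^ n) ^ 3 := by
          apply pow_le_pow_left₀ (by positivity)
          nlinarith
      _ = (1 + C) ^ 3 * (1 + ‖g‖) ^ (n * 3) := by rw [mul_pow, ← pow_mul]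
  have hprob : IsProbabilityMeasure (gam (Fin n × Fin m)) := isProb_gam
  calc ∫ g, (max (-(P g)) 0) ^ 2 ∂(gam (Fin n × Fin m))
      ≤ ∫ g, (ε / 2 + (ε / 2) ^ (1 - q / 2) * psi q (P g)) ∂(gam (Fin n × Fin m)) := by
        refine integral_mono_of_nonneg (Filter.Eventually.of_forall fun g => by positivity)
          ((integrable_const _).add (hint.const_mul _)) (Filter.Eventually.of_forall fun g => ?_)
        exact neg_sq_le (ε / 2) q _ (by positivity) hq2.le (le_max_right _ _)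
    _ = ε / 2 + (ε / 2) ^ (1 - q / 2) * ∫ g, psi q (P g) ∂(gam (Fin n × Fin m)) := by
        rw [integral_add (integrable_const _) (hint.const_mul _), integral_const_mul]
        simp
    _ ≤ ε / 2 + (ε / 2) ^ (1 - q / 2) * (ε / 2) ^ (q / 2) := by
        have : 0 ≤ (ε / 2) ^ (1 - q / 2) := by positivity
        have := mul_le_mul_of_nonneg_left hA2 this
        linarith
    _ = ε := by
        rw [← Real.rpow_add (by positivity)]
        simp

end Pool.H65.PT
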