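import Pool.Agent.Helper65.PT.Defs
import Pool.Agent.Helper65.PT.Law

set_option autoImplicit false

open MeasureTheory ProbabilityTheory Pool.H65.PS

namespace Pool.H65.PT

section oub

variable {κ : Type} [Fintype κ]

/-! ### auxiliary facts -/

theorem oub_int {α : Type} [MeasurableSpace α] {μ : Measure α} [IsFiniteMeasure μ] {g : α → ℝ}
    (hm : Measurable g) (hb : ∃ B, ∀ x, |g x| ≤ B) : Integrable g μ := by
  obtain ⟨B, hB⟩ := hb
  exact Integrable.of_bound hm.aestronglyMeasurable B (Filter.Eventually.of_forall fun x => by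
    rw [Real.norm_eq_abs]; exact hB x)

theorem oub_mul {α : Type} {f h : α → ℝ} (hf : ∃ B, ∀ x, |f x| ≤ B) (hh : ∃ B, ∀ x, |h x| ≤ B) :
    ∃ B, ∀ x, |f x * h x| ≤ B := by
  obtain ⟨A, hA⟩ := hf
  obtain ⟨B, hB⟩ := hh
  refine ⟨A * B, fun x => ?_⟩
  rw [abs_mul]
  exact mul_le_mul (hA x) (hB x) (abs_nonneg _) (le_trans (abs_nonneg _) (hA x))

theorem oub_comp {α β : Type} {f : β → ℝ} (hf : ∃ B, ∀ x, |f x| ≤ B) (φ : α → β) :
    ∃ B, ∀ x, |f (φ x)| ≤ B := by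
  obtain ⟨B, hB⟩ := hf
  exact ⟨B, fun x => hB _⟩

omit [Fintype κ] in
theorem oub_jm (r s : ℝ) : Measurable fun p : (κ → ℝ) × (κ → ℝ) => r • p.1 + s • p.2 :=
  (measurable_fst.const_smul r).add (measurable_snd.const_smul s)

omit [Fintype κ] in
theorem oub_am (x : κ → ℝ) (s : ℝ) : Measurable fun y : κ → ℝ => x + s • y :=
  measurable_const.add (measurable_id.const_smul s)

theorem oub_map {α β : Type} [MeasurableSpace α] [MeasurableSpace β] {μ : Measure α}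
    {ν : Measure β} {φ : α → β} (hφ : MeasurePreserving φ μ ν) {g : β → ℝ} (hg : Measurable g) :
    ∫ x, g (φ x) ∂μ = ∫ y, g y ∂ν := by
  rw [← hφ.map_eq, integral_map hφ.measurable.aemeasurable hg.aestronglyMeasurable]

theorem oub_sq_le {α : Type} [MeasurableSpace α] {μ : Measure α} [IsProbabilityMeasure μ]
    {g : α → ℝ} (hm : Measurable g) (hb : ∃ B, ∀ x, |g x| ≤ B) :
    (∫ x, g x ∂μ) ^ 2 ≤ ∫ x, g x ^ 2 ∂μ := by
  have hi : Integrable g μ := oub_int hm hb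
  have hi2 : Integrable (fun x => g x ^ 2) μ := by
    have := oub_int (μ := μ) (hm.mul hm) (oub_mul hb hb)
    refine this.congr (Filter.Eventually.of_forall fun x => ?_)
    simp only [Pi.mul_apply]
    ring
  set c := ∫ x, g x ∂μ with hc
  have h0 : 0 ≤ ∫ x, (g x - c) ^ 2 ∂μ := integral_nonneg fun x => sq_nonneg _
  have h1 : ∫ x, (g x - c) ^ 2 ∂μ = ∫ x, g x ^ 2 ∂μ - c ^ 2 := by
    have e : (fun x => (g x - c) ^ 2) = fun x => g x ^ 2 - (2 * c) * g x + c ^ 2 := by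
      funext x; ring
    have i1 : Integrable (fun x => (2 * c) * g x) μ := hi.const_mul _
    have i2 : Integrable (fun x => g x ^ 2 - (2 * c) * g x) μ := hi2.sub i1
    rw [e, integral_add i2 (integrable_const _), integral_sub hi2 i1, integral_const_mul,
      integral_const]
    simp only [probReal_univ, one_smul, ← hc]
    ring
  linarith

theorem OU_bm {f : (κ → ℝ) → ℝ} (hf : Bm f) (r : ℝ) : Bm (OU r f) := by
  obtain ⟨B, hB⟩ := hf.bdd
  constructor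
  · have h1 : StronglyMeasurable (Function.uncurry fun (x y : κ → ℝ) =>
        f (r • x + Real.sqrt (1 - r ^ 2) • y)) :=
      (hf.meas.comp (oub_jm r (Real.sqrt (1 - r ^ 2)))).stronglyMeasurable
    exact (h1.integral_prod_right (ν := gam κ)).measurable
  · refine ⟨B, fun x => ?_⟩
    have h1 := norm_integral_le_of_norm_le_const (μ := gam κ)
      (f := fun y => f (r • x + Real.sqrt (1 - r ^ 2) • y)) (C := B)
      (Filter.Eventually.of_forall fun y => by rw [Real.norm_eq_abs]; exact hB _)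
    simpa [OU] using h1

theorem sg_eq_OU {f h : (κ → ℝ) → ℝ} (hf : Bm f) (hh : Bm h) (ρ : ℝ) :
    sg ρ f h = ∫ x, f x * OU ρ h x ∂(gam κ) := by
  unfold sg
  rw [integral_prod]
  · apply integral_congr_ae
    refine Filter.Eventually.of_forall fun x => ?_
    simp only [OU]
    rw [integral_const_mul]
  · exact oub_int ((hf.meas.comp measurable_fst).mul
      (hh.meas.comp (oub_jm ρ (Real.sqrt (1 - ρ ^ 2)))))
      (oub_mul (oub_comp hf.bdd _) (oub_comp hh.bdd _))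

theorem OU_comp {f : (κ → ℝ) → ℝ} (hf : Bm f) (r s : ℝ) (hr : 0 ≤ r) (hr1 : r ≤ 1) (hs : 0 ≤ s)
    (hs1 : s ≤ 1) (x : κ → ℝ) : OU r (OU s f) x = OU (r * s) f x := by
  have hr2 : r ^ 2 ≤ 1 := pow_le_one₀ hr hr1
  have hs2 : s ^ 2 ≤ 1 := pow_le_one₀ hs hs1
  set σr := Real.sqrt (1 - r ^ 2) with hσr
  set σs := Real.sqrt (1 - s ^ 2) with hσs
  set τ := Real.sqrt (1 - (r * s) ^ 2) with hτ
  have hrs : (r * s) ^ 2 ≤ 1 := pow_le_one₀ (mul_nonneg hr hs) (mul_le_one₀ hr1 hs hs1)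
  have qr : σr ^ 2 = 1 - r ^ 2 := Real.sq_sqrt (by linarith)
  have qs : σs ^ 2 = 1 - s ^ 2 := Real.sq_sqrt (by linarith)
  have qt : τ ^ 2 = 1 - (r * s) ^ 2 := Real.sq_sqrt (by linarith)
  have hσr0 : 0 ≤ σr := Real.sqrt_nonneg _
  have hσs0 : 0 ≤ σs := Real.sqrt_nonneg _
  have hτ0 : 0 ≤ τ := Real.sqrt_nonneg _
  have hsum : (s * σr) ^ 2 + σs ^ 2 = τ ^ 2 := by
    rw [mul_pow, qr, qs, qt]; ring
  -- the mixing coefficient
  obtain ⟨ρ, hρ, e1, e2⟩ : ∃ ρ : ℝ, |ρ| ≤ 1 ∧ s * σr = τ * ρ ∧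
      σs = τ * Real.sqrt (1 - ρ ^ 2) := by
    rcases hτ0.eq_or_lt with h0 | h0
    · refine ⟨0, by simp, ?_, ?_⟩
      · rw [← h0] at hsum ⊢
        have : (s * σr) ^ 2 ≤ 0 := by nlinarith [sq_nonneg σs]
        have := pow_eq_zero_iff (n := 2) (by norm_num) |>.1 (le_antisymm this (sq_nonneg _))
        rw [this]; ring
      · rw [← h0] at hsum ⊢
        have : σs ^ 2 ≤ 0 := by nlinarith [sq_nonneg (s * σr)]
        have := pow_eq_zero_iff (n := 2) (by norm_num) |>.1 (le_antisymm this (sq_nonneg _))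
        rw [this]; ring
    · refine ⟨s * σr / τ, ?_, ?_, ?_⟩
      · rw [abs_le_one_iff_mul_self_le_one, div_mul_div_comm, div_le_one (by positivity)]
        nlinarith [sq_nonneg σs]
      · field_simp
      · have : 1 - (s * σr / τ) ^ 2 = (σs / τ) ^ 2 := by
          field_simp
          nlinarith
        rw [this, Real.sqrt_sq (by positivity)]
        field_simp
  have hg : Measurable fun w : κ → ℝ => f ((r * s) • x + τ • w) :=
    hf.meas.comp (oub_am _ _)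
  have h1 := oub_map (measurePreserving_mix (κ := κ) ρ hρ) hg
  have h2 : OU (r * s) f x = ∫ w, f ((r * s) • x + τ • w) ∂(gam κ) := rfl
  rw [h2, ← h1, integral_prod]
  · unfold OU
    apply integral_congr_ae
    refine Filter.Eventually.of_forall fun y => ?_
    apply integral_congr_ae
    refine Filter.Eventually.of_forall fun z => ?_
    show f (s • (r • x + σr • y) + σs • z) =
      f ((r * s) • x + τ • (ρ • y + Real.sqrt (1 - ρ ^ 2) • z))
    congr 1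
    rw [smul_add, smul_add, smul_smul, smul_smul, smul_smul, smul_smul, ← e1, ← e2,
      mul_comm s r, add_assoc]
  · exact oub_int (hg.comp (oub_jm ρ (Real.sqrt (1 - ρ ^ 2)))) (oub_comp hf.bdd _)

theorem sg_symm {f h : (κ → ℝ) → ℝ} (hf : Bm f) (hh : Bm h) (ρ : ℝ) (h1 : |ρ| ≤ 1) :
    sg ρ f h = sg ρ h f := by
  have hg : Measurable fun p : (κ → ℝ) × (κ → ℝ) =>
      h p.1 * f (ρ • p.1 + Real.sqrt (1 - ρ ^ 2) • p.2) :=
    (hh.meas.comp measurable_fst).mul (hf.meas.comp (oub_jm ρ (Real.sqrt (1 - ρ ^ 2))))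
  have h2 := oub_map (measurePreserving_rot (κ := κ) ρ h1) hg
  unfold sg
  rw [← h2]
  apply integral_congr_ae
  refine Filter.Eventually.of_forall fun p => ?_
  have hρ2 : ρ ^ 2 ≤ 1 := by
    rw [← sq_abs]
    exact pow_le_one₀ (abs_nonneg _) h1
  have hσ : Real.sqrt (1 - ρ ^ 2) * Real.sqrt (1 - ρ ^ 2) = 1 - ρ ^ 2 :=
    Real.mul_self_sqrt (by linarith)
  have e : ρ • (ρ • p.1 + Real.sqrt (1 - ρ ^ 2) • p.2) +
      Real.sqrt (1 - ρ ^ 2) • (Real.sqrt (1 - ρ ^ 2) • p.1 - ρ • p.2) = p.1 := by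
    ext i
    simp only [Pi.add_apply, Pi.smul_apply, Pi.sub_apply, smul_eq_mul]
    linear_combination (p.1 i) * hσ
  show f p.1 * h (ρ • p.1 + Real.sqrt (1 - ρ ^ 2) • p.2) =
    h (ρ • p.1 + Real.sqrt (1 - ρ ^ 2) • p.2) *
      f (ρ • (ρ • p.1 + Real.sqrt (1 - ρ ^ 2) • p.2) +
        Real.sqrt (1 - ρ ^ 2) • (Real.sqrt (1 - ρ ^ 2) • p.1 - ρ • p.2))
  rw [e, mul_comm]

theorem sg_OU {f h : (κ → ℝ) → ℝ} (hf : Bm f) (hh : Bm h) (r ρ : ℝ) (hr : 0 ≤ r) (hr1 : r ≤ 1)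
    (hρ : 0 ≤ ρ) (hρ1 : ρ ≤ 1) : sg ρ (OU r f) (OU r h) = sg (r ^ 2 * ρ) f h := by
  have ha : |r| ≤ 1 := by rw [abs_of_nonneg hr]; exact hr1
  rw [sg_eq_OU (OU_bm hf r) (OU_bm hh r) ρ]
  have e1 : ∀ x, OU ρ (OU r h) x = OU (ρ * r) h x := OU_comp hh ρ r hρ hρ1 hr hr1
  have e2 : ∫ x, OU r f x * OU ρ (OU r h) x ∂(gam κ) =
      ∫ x, OU (ρ * r) h x * OU r f x ∂(gam κ) := by
    apply integral_congr_ae
    refine Filter.Eventually.of_forall fun x => ?_
    simp only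
    rw [e1 x, mul_comm]
  rw [e2, ← sg_eq_OU (OU_bm hh _) hf r, sg_symm (OU_bm hh _) hf r ha, sg_eq_OU hf (OU_bm hh _) r,
    sg_eq_OU hf hh]
  apply integral_congr_ae
  refine Filter.Eventually.of_forall fun x => ?_
  simp only
  rw [OU_comp hh r (ρ * r) hr hr1 (mul_nonneg hρ hr) (mul_le_one₀ hρ1 hr hr1)]
  congr 2
  ring

theorem sg_one {f h : (κ → ℝ) → ℝ} (hf : Bm f) (hh : Bm h) :
    sg 1 f h = ∫ x, f x * h x ∂(gam κ) := by
  rw [sg_eq_OU hf hh]
  apply integral_congr_ae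
  refine Filter.Eventually.of_forall fun x => ?_
  simp [OU]

theorem sg_zero {f h : (κ → ℝ) → ℝ} (hf : Bm f) (hh : Bm h) :
    sg 0 f h = (∫ x, f x ∂(gam κ)) * ∫ x, h x ∂(gam κ) := by
  rw [sg_eq_OU hf hh, ← integral_mul_const]
  apply integral_congr_ae
  refine Filter.Eventually.of_forall fun x => ?_
  simp [OU]

theorem oub_sqrt {f : (κ → ℝ) → ℝ} (hf : Bm f) (ρ : ℝ) (hρ : 0 ≤ ρ) (hρ1 : ρ ≤ 1) :
    sg ρ f f = ∫ x, OU (Real.sqrt ρ) f x ^ 2 ∂(gam κ) := by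
  have h1 := sg_OU hf hf (Real.sqrt ρ) 1 (Real.sqrt_nonneg _) (Real.sqrt_le_one.2 hρ1)
    zero_le_one le_rfl
  rw [Real.sq_sqrt hρ, mul_one] at h1
  rw [← h1, sg_one (OU_bm hf _) (OU_bm hf _)]
  apply integral_congr_ae
  refine Filter.Eventually.of_forall fun x => ?_
  simp only
  ring

theorem sg_self_nonneg {f : (κ → ℝ) → ℝ} (hf : Bm f) (ρ : ℝ) (hρ : 0 ≤ ρ) (hρ1 : ρ ≤ 1) :
    0 ≤ sg ρ f f := by
  rw [oub_sqrt hf ρ hρ hρ1]
  exact integral_nonneg fun x => sq_nonneg _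

theorem integral_OU {f : (κ → ℝ) → ℝ} (hf : Bm f) (r : ℝ) (h1 : |r| ≤ 1) :
    ∫ x, OU r f x ∂(gam κ) = ∫ x, f x ∂(gam κ) := by
  have h2 := oub_map (measurePreserving_mix (κ := κ) r h1) hf.meas
  rw [← h2, integral_prod]
  · rfl
  · exact oub_int (hf.meas.comp (oub_jm r (Real.sqrt (1 - r ^ 2)))) (oub_comp hf.bdd _)

theorem integral_OU_sq_le {f : (κ → ℝ) → ℝ} (hf : Bm f) (r : ℝ) (h1 : |r| ≤ 1) :
    ∫ x, OU r f x ^ 2 ∂(gam κ) ≤ ∫ x, f x ^ 2 ∂(gam κ) := by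
  have hf2 : Bm (fun x => f x ^ 2) := by
    constructor
    · exact hf.meas.pow_const 2
    · obtain ⟨B, hB⟩ := oub_mul hf.bdd hf.bdd
      exact ⟨B, fun x => by rw [pow_two]; exact hB x⟩
  rw [← integral_OU hf2 r h1]
  have hsq : ∃ B, ∀ x, |OU r f x ^ 2| ≤ B := by
    obtain ⟨B, hB⟩ := oub_mul (OU_bm hf r).bdd (OU_bm hf r).bdd
    exact ⟨B, fun x => by rw [pow_two]; exact hB x⟩
  apply integral_mono (oub_int ((OU_bm hf r).meas.pow_const 2) hsq)
    (oub_int (OU_bm hf2 r).meas (OU_bm hf2 r).bdd)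
  intro x
  exact oub_sq_le (μ := gam κ) (g := fun y => f (r • x + Real.sqrt (1 - r ^ 2) • y))
    (hf.meas.comp (oub_am _ _)) (oub_comp hf.bdd _)

theorem sg_mono {f : (κ → ℝ) → ℝ} (hf : Bm f) (s t : ℝ) (hs : 0 ≤ s) (hst : s ≤ t) (ht : t ≤ 1) :
    sg s f f ≤ sg t f f := by
  have ht0 : 0 ≤ t := le_trans hs hst
  rcases ht0.eq_or_lt with h0 | h0
  · have : s = t := by linarith
    rw [this]
  · rw [oub_sqrt hf s hs (le_trans hst ht), oub_sqrt hf t ht0 ht]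
    have e1 : Real.sqrt s = Real.sqrt (s / t) * Real.sqrt t := by
      rw [← Real.sqrt_mul (by positivity)]
      congr 1
      field_simp
    have e2 : ∀ x, OU (Real.sqrt s) f x = OU (Real.sqrt (s / t)) (OU (Real.sqrt t) f) x := by
      intro x
      rw [OU_comp hf _ _ (Real.sqrt_nonneg _) (Real.sqrt_le_one.2 (by
        rw [div_le_one h0]; exact hst)) (Real.sqrt_nonneg _) (Real.sqrt_le_one.2 ht), ← e1]
    simp_rw [e2]
    apply integral_OU_sq_le (OU_bm hf _)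
    rw [abs_of_nonneg (Real.sqrt_nonneg _)]
    exact Real.sqrt_le_one.2 (by rw [div_le_one h0]; exact hst)

theorem oub_coord (i : κ) : Integrable (fun x : κ → ℝ => x i) (gam κ) := by
  have h1 : MeasurePreserving (Function.eval i) (gam κ) (gaussianReal 0 1) :=
    measurePreserving_eval (fun _ : κ => gaussianReal 0 1) i
  have h2 : Integrable (fun x : ℝ => x) (gaussianReal 0 1) := by
    have := memLp_id_gaussianReal (μ := 0) (v := 1) 1
    rw [← memLp_one_iff_integrable]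
    exact_mod_cast this
  exact h1.integrable_comp_of_integrable h2

theorem oub_coord_int (i : κ) : ∫ x : κ → ℝ, x i ∂(gam κ) = 0 := by
  have h1 : MeasurePreserving (Function.eval i) (gam κ) (gaussianReal 0 1) :=
    measurePreserving_eval (fun _ : κ => gaussianReal 0 1) i
  have h2 := oub_map h1 (g := fun x : ℝ => x) measurable_id
  have h3 : ∫ x : κ → ℝ, x i ∂(gam κ) = ∫ y, y ∂(gaussianReal 0 1) := h2
  rw [h3, integral_id_gaussianReal]

theorem mo_OU {f : (κ → ℝ) → ℝ} (hf : Bm f) (r : ℝ) (h1 : |r| ≤ 1) (i : κ) :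
    mo (OU r f) i = r * mo f i := by
  obtain ⟨B, hB⟩ := hf.bdd
  have hr2 : r ^ 2 ≤ 1 := by
    rw [← sq_abs]
    exact pow_le_one₀ (abs_nonneg _) h1
  have hσ : Real.sqrt (1 - r ^ 2) * Real.sqrt (1 - r ^ 2) = 1 - r ^ 2 :=
    Real.mul_self_sqrt (by linarith)
  set σ := Real.sqrt (1 - r ^ 2) with hσd
  have hc1 : Integrable (fun p : (κ → ℝ) × (κ → ℝ) => p.1 i) ((gam κ).prod (gam κ)) :=
    (oub_coord i).comp_fst _
  have hc2 : Integrable (fun p : (κ → ℝ) × (κ → ℝ) => p.2 i) ((gam κ).prod (gam κ)) :=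
    (oub_coord i).comp_snd _
  -- the left-hand side as a double integral
  have i1 : Integrable (fun p : (κ → ℝ) × (κ → ℝ) => f (r • p.1 + σ • p.2) * p.1 i)
      ((gam κ).prod (gam κ)) := by
    apply hc1.bdd_mul (c := B) (hf.meas.comp (oub_jm r σ)).aestronglyMeasurable
    exact Filter.Eventually.of_forall fun p => by rw [Real.norm_eq_abs]; exact hB _
  have e1 : mo (OU r f) i = ∫ p : (κ → ℝ) × (κ → ℝ), f (r • p.1 + σ • p.2) * p.1 i
      ∂((gam κ).prod (gam κ)) := by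
    rw [integral_prod _ i1]
    unfold mo OU
    apply integral_congr_ae
    refine Filter.Eventually.of_forall fun x => ?_
    simp only
    rw [integral_mul_const]
  have hg : Measurable fun p : (κ → ℝ) × (κ → ℝ) => f p.1 * (r * p.1 i + σ * p.2 i) := by
    apply (hf.meas.comp measurable_fst).mul
    fun_prop
  have h2 := oub_map (measurePreserving_rot (κ := κ) r h1) hg
  have e2 : ∫ p : (κ → ℝ) × (κ → ℝ), f (r • p.1 + σ • p.2) * p.1 i ∂((gam κ).prod (gam κ)) =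
      ∫ p : (κ → ℝ) × (κ → ℝ), f p.1 * (r * p.1 i + σ * p.2 i) ∂((gam κ).prod (gam κ)) := by
    rw [← h2]
    apply integral_congr_ae
    refine Filter.Eventually.of_forall fun p => ?_
    show f (r • p.1 + σ • p.2) * p.1 i = f (r • p.1 + σ • p.2) *
      (r * (r • p.1 + σ • p.2) i + σ * (σ • p.1 - r • p.2) i)
    congr 1
    simp only [Pi.add_apply, Pi.smul_apply, Pi.sub_apply, smul_eq_mul]
    linear_combination -(p.1 i) * hσ
  have j1 : Integrable (fun p : (κ → ℝ) × (κ → ℝ) => f p.1 * p.1 i) ((gam κ).prod (gam κ)) := by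
    apply hc1.bdd_mul (c := B) (hf.meas.comp measurable_fst).aestronglyMeasurable
    exact Filter.Eventually.of_forall fun p => by rw [Real.norm_eq_abs]; exact hB _
  have j2 : Integrable (fun p : (κ → ℝ) × (κ → ℝ) => f p.1 * p.2 i) ((gam κ).prod (gam κ)) := by
    apply hc2.bdd_mul (c := B) (hf.meas.comp measurable_fst).aestronglyMeasurable
    exact Filter.Eventually.of_forall fun p => by rw [Real.norm_eq_abs]; exact hB _
  have e3 : ∫ p : (κ → ℝ) × (κ → ℝ), f p.1 * (r * p.1 i + σ * p.2 i) ∂((gam κ).prod (gam κ)) =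
      r * ∫ p : (κ → ℝ) × (κ → ℝ), f p.1 * p.1 i ∂((gam κ).prod (gam κ)) +
      σ * ∫ p : (κ → ℝ) × (κ → ℝ), f p.1 * p.2 i ∂((gam κ).prod (gam κ)) := by
    rw [← integral_const_mul, ← integral_const_mul, ← integral_add (j1.const_mul _)
      (j2.const_mul _)]
    apply integral_congr_ae
    refine Filter.Eventually.of_forall fun p => ?_
    simp only
    ring
  have e4 : ∫ p : (κ → ℝ) × (κ → ℝ), f p.1 * p.1 i ∂((gam κ).prod (gam κ)) = mo f i := by
    rw [integral_prod _ j1]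
    simp [mo]
  have e5 : ∫ p : (κ → ℝ) × (κ → ℝ), f p.1 * p.2 i ∂((gam κ).prod (gam κ)) = 0 := by
    rw [integral_prod _ j2]
    simp only [integral_const_mul, oub_coord_int, mul_zero, integral_zero]
  rw [e1, e2, e3, e4, e5]
  ring

theorem oub_cs {α : Type} [MeasurableSpace α] {μ : Measure α} {F G : α → ℝ}
    (hF : MemLp F 2 μ) (hG : MemLp G 2 μ) :
    |∫ x, F x * G x ∂μ| ≤ Real.sqrt (∫ x, F x ^ 2 ∂μ) * Real.sqrt (∫ x, G x ^ 2 ∂μ) := by
  have h1 := integral_mul_norm_le_Lp_mul_Lq (μ := μ) (f := F) (g := G)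
    (Real.HolderConjugate.two_two) (by simpa using hF) (by simpa using hG)
  have h2 : |∫ x, F x * G x ∂μ| ≤ ∫ x, ‖F x‖ * ‖G x‖ ∂μ := by
    have h3 := norm_integral_le_integral_norm (μ := μ) (fun x => F x * G x)
    simpa [norm_mul] using h3
  refine le_trans h2 (le_trans h1 (le_of_eq ?_))
  have e1 : ∀ x, ‖F x‖ ^ (2 : ℝ) = F x ^ 2 := by
    intro x
    rw [Real.rpow_two, Real.norm_eq_abs, sq_abs]
  have e2 : ∀ x, ‖G x‖ ^ (2 : ℝ) = G x ^ 2 := by
    intro x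
    rw [Real.rpow_two, Real.norm_eq_abs, sq_abs]
  simp_rw [e1, e2]
  rw [Real.sqrt_eq_rpow, Real.sqrt_eq_rpow]

/-- Cauchy-Schwarz for `sg`, for square integrable functions. -/
theorem sg_sub_le {f h : (κ → ℝ) → ℝ} (hf : MemLp f 2 (gam κ)) (hh : MemLp h 2 (gam κ))
    (hfm : Measurable f) (hhm : Measurable h) (ρ : ℝ) (h1 : |ρ| ≤ 1) :
    |sg ρ f f - sg ρ h h| ≤ (Real.sqrt (∫ x, f x ^ 2 ∂(gam κ)) + Real.sqrt (∫ x, h x ^ 2 ∂(gam κ)))
      * Real.sqrt (∫ x, (f x - h x) ^ 2 ∂(gam κ)) := by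
  have mfst : MeasurePreserving (Prod.fst : (κ → ℝ) × (κ → ℝ) → (κ → ℝ))
      ((gam κ).prod (gam κ)) (gam κ) := measurePreserving_fst
  have mmix := measurePreserving_mix (κ := κ) ρ h1
  set mix : (κ → ℝ) × (κ → ℝ) → (κ → ℝ) :=
    fun p => ρ • p.1 + Real.sqrt (1 - ρ ^ 2) • p.2 with hmix
  have hd : MemLp (fun x => f x - h x) 2 (gam κ) := hf.sub hh
  have hdm : Measurable fun x => f x - h x := hfm.sub hhm
  have a1 : MemLp (fun p : (κ → ℝ) × (κ → ℝ) => f p.1 - h p.1) 2 ((gam κ).prod (gam κ)) :=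
    hd.comp_measurePreserving mfst
  have a2 : MemLp (fun p : (κ → ℝ) × (κ → ℝ) => f (mix p)) 2 ((gam κ).prod (gam κ)) :=
    hf.comp_measurePreserving mmix
  have a3 : MemLp (fun p : (κ → ℝ) × (κ → ℝ) => h p.1) 2 ((gam κ).prod (gam κ)) :=
    hh.comp_measurePreserving mfst
  have a4 : MemLp (fun p : (κ → ℝ) × (κ → ℝ) => f (mix p) - h (mix p)) 2
      ((gam κ).prod (gam κ)) := hd.comp_measurePreserving mmix
  have a5 : MemLp (fun p : (κ → ℝ) × (κ → ℝ) => f p.1) 2 ((gam κ).prod (gam κ)) :=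
    hf.comp_measurePreserving mfst
  have a6 : MemLp (fun p : (κ → ℝ) × (κ → ℝ) => h (mix p)) 2 ((gam κ).prod (gam κ)) :=
    hh.comp_measurePreserving mmix
  have c1 := oub_cs a1 a2
  have c2 := oub_cs a3 a4
  have b1 : ∫ p : (κ → ℝ) × (κ → ℝ), (f p.1 - h p.1) ^ 2 ∂((gam κ).prod (gam κ)) =
      ∫ x, (f x - h x) ^ 2 ∂(gam κ) := oub_map mfst (hdm.pow_const 2)
  have b2 : ∫ p : (κ → ℝ) × (κ → ℝ), (f (mix p)) ^ 2 ∂((gam κ).prod (gam κ)) =
      ∫ x, (f x) ^ 2 ∂(gam κ) := oub_map mmix (hfm.pow_const 2)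
  have b3 : ∫ p : (κ → ℝ) × (κ → ℝ), (h p.1) ^ 2 ∂((gam κ).prod (gam κ)) =
      ∫ x, (h x) ^ 2 ∂(gam κ) := oub_map mfst (hhm.pow_const 2)
  have b4 : ∫ p : (κ → ℝ) × (κ → ℝ), (f (mix p) - h (mix p)) ^ 2 ∂((gam κ).prod (gam κ)) =
      ∫ x, (f x - h x) ^ 2 ∂(gam κ) := oub_map mmix (hdm.pow_const 2)
  rw [b1, b2] at c1
  rw [b3, b4] at c2
  have hsplit : sg ρ f f - sg ρ h h =
      ∫ p : (κ → ℝ) × (κ → ℝ), (f p.1 - h p.1) * f (mix p) ∂((gam κ).prod (gam κ)) +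
      ∫ p : (κ → ℝ) × (κ → ℝ), h p.1 * (f (mix p) - h (mix p)) ∂((gam κ).prod (gam κ)) := by
    have k1 : Integrable (fun p : (κ → ℝ) × (κ → ℝ) => f p.1 * f (mix p))
        ((gam κ).prod (gam κ)) := a5.integrable_mul a2
    have k2 : Integrable (fun p : (κ → ℝ) × (κ → ℝ) => h p.1 * h (mix p))
        ((gam κ).prod (gam κ)) := a3.integrable_mul a6
    have k3 : Integrable (fun p : (κ → ℝ) × (κ → ℝ) => (f p.1 - h p.1) * f (mix p))
        ((gam κ).prod (gam κ)) := a1.integrable_mul a2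
    have k4 : Integrable (fun p : (κ → ℝ) × (κ → ℝ) => h p.1 * (f (mix p) - h (mix p)))
        ((gam κ).prod (gam κ)) := a3.integrable_mul a4
    show ∫ p : (κ → ℝ) × (κ → ℝ), f p.1 * f (mix p) ∂((gam κ).prod (gam κ)) -
      ∫ p : (κ → ℝ) × (κ → ℝ), h p.1 * h (mix p) ∂((gam κ).prod (gam κ)) = _
    rw [← integral_sub k1 k2, ← integral_add k3 k4]
    apply integral_congr_ae
    refine Filter.Eventually.of_forall fun p => ?_
    simp only
    ring
  rw [hsplit]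
  calc _ ≤ |∫ p : (κ → ℝ) × (κ → ℝ), (f p.1 - h p.1) * f (mix p) ∂((gam κ).prod (gam κ))| +
      |∫ p : (κ → ℝ) × (κ → ℝ), h p.1 * (f (mix p) - h (mix p)) ∂((gam κ).prod (gam κ))| :=
        abs_add_le _ _
    _ ≤ _ := by
        rw [add_mul]
        have c1' := c1
        rw [mul_comm] at c1'
        exact add_le_add c1' c2

end oub

end Pool.H65.PT
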