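import Pool.Agent.Helper65.PT.Defs
import Pool.Agent.Helper65.PT.Wla
import Pool.Agent.Helper65.PT.Law
import Pool.Agent.Helper65.PS.Lid
import Pool.Agent.Helper65.PS.Stb

set_option autoImplicit false

open MeasureTheory ProbabilityTheory Pool.H65.PS

namespace Pool.H65.PT

section sgp

variable {m n : ℕ}

/-- centred Gaussian part of the weights of one coordinate. -/
noncomputable def SgpA (a : Fin m) (x : Fin m → ℝ) : ℝ := (x a - (∑ b, x b) / m) / Real.sqrt m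

/-- product of a weight and a correlated weight of one coordinate. -/
noncomputable def SgpPhi (ρ : ℝ) (a b : Fin m) (p : (Fin m → ℝ) × (Fin m → ℝ)) : ℝ :=
  ((m : ℝ)⁻¹ + SgpA a p.1) * ((m : ℝ)⁻¹ + ρ * SgpA b p.1)
    + ((m : ℝ)⁻¹ + SgpA a p.1) * (Real.sqrt (1 - ρ ^ 2) * SgpA b p.2)

theorem Sgp_A_lin (a : Fin m) (x : Fin m → ℝ) :
    SgpA a x = lin (fun c a : Fin m => (Real.sqrt m)⁻¹ * Stb.v c a) x a := by
  rw [lid_lin_apply]
  unfold SgpA Stb.v
  have e : ∀ c : Fin m, x c * ((Real.sqrt m)⁻¹ * ((if c = a then (1 : ℝ) else 0) - (m : ℝ)⁻¹))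
      = (if c = a then (Real.sqrt m)⁻¹ * x c else 0) - x c * ((m : ℝ)⁻¹ * (Real.sqrt m)⁻¹) := by
    intro c
    split_ifs
    · ring
    · ring
  simp only [e]
  rw [Finset.sum_sub_distrib, Finset.sum_ite_eq' Finset.univ a, if_pos (Finset.mem_univ a),
    ← Finset.sum_mul]
  ring

theorem Sgp_A_add (ρ σ : ℝ) (a : Fin m) (x y : Fin m → ℝ) :
    SgpA a (fun c => ρ * x c + σ * y c) = ρ * SgpA a x + σ * SgpA a y := by
  unfold SgpA
  rw [Finset.sum_add_distrib, ← Finset.mul_sum, ← Finset.mul_sum]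
  ring

theorem Sgp_A_cont (a : Fin m) : Continuous (SgpA a) := by
  unfold SgpA
  fun_prop

theorem Sgp_A_bd (a : Fin m) (x : Fin m → ℝ) : |SgpA a x| ≤ 2 * ‖x‖ := by
  have hm : 0 < m := a.pos
  have hmR : (1 : ℝ) ≤ m := by exact_mod_cast hm
  unfold SgpA
  rw [abs_div, abs_of_nonneg (Real.sqrt_nonneg _)]
  have h1 : |x a| ≤ ‖x‖ := by
    have := norm_le_pi_norm x a
    rwa [Real.norm_eq_abs] at this
  have h2 : |(∑ b, x b) / m| ≤ ‖x‖ := by
    rw [abs_div, abs_of_nonneg (by linarith : (0 : ℝ) ≤ m), div_le_iff₀ (by linarith)]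
    refine (Finset.abs_sum_le_sum_abs _ _).trans ?_
    refine (Finset.sum_le_card_nsmul _ _ ‖x‖ fun b _ => ?_).trans ?_
    · have := norm_le_pi_norm x b
      rwa [Real.norm_eq_abs] at this
    · rw [Finset.card_univ, Fintype.card_fin, nsmul_eq_mul, mul_comm]
  have h3 : |x a - (∑ b, x b) / m| ≤ 2 * ‖x‖ := by
    refine (abs_sub _ _).trans ?_
    linarith
  have h4 : 1 ≤ Real.sqrt m := Real.one_le_sqrt.2 hmR
  exact (div_le_self (abs_nonneg _) h4).trans h3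

theorem Sgp_A_int (a : Fin m) : Integrable (SgpA a) (gam (Fin m)) := by
  refine integrable_gam _ 2 1 (Sgp_A_cont a) fun g => ?_
  refine (Sgp_A_bd a g).trans ?_
  rw [pow_one]
  linarith

theorem Sgp_A_int2 (a b : Fin m) : Integrable (fun x => SgpA a x * SgpA b x) (gam (Fin m)) := by
  refine integrable_gam _ 4 2 ((Sgp_A_cont a).mul (Sgp_A_cont b)) fun g => ?_
  rw [abs_mul]
  have h0 := norm_nonneg g
  calc |SgpA a g| * |SgpA b g| ≤ (2 * ‖g‖) * (2 * ‖g‖) :=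
        mul_le_mul (Sgp_A_bd a g) (Sgp_A_bd b g) (abs_nonneg _) (by linarith)
    _ ≤ 4 * (1 + ‖g‖) ^ 2 := by nlinarith

theorem Sgp_A_mean (a : Fin m) : ∫ x, SgpA a x ∂(gam (Fin m)) = 0 := by
  simp only [Sgp_A_lin]
  exact lid_lin_mean _ _

theorem Sgp_A_cov (a b : Fin m) :
    ∫ x, SgpA a x * SgpA b x ∂(gam (Fin m)) = (m : ℝ)⁻¹ * Stb.v a b := by
  have hm : 0 < m := a.pos
  simp only [Sgp_A_lin]
  rw [lid_lin_cov]
  have e : ∀ c : Fin m, (Real.sqrt m)⁻¹ * Stb.v c a * ((Real.sqrt m)⁻¹ * Stb.v c b)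
      = (m : ℝ)⁻¹ * (Stb.v a c * Stb.v c b) := by
    intro c
    have h : (Real.sqrt m)⁻¹ * (Real.sqrt m)⁻¹ = (m : ℝ)⁻¹ := by
      rw [← mul_inv, Real.mul_self_sqrt (by positivity)]
    rw [Stb.v_symm a c, ← h]
    ring
  simp only [e]
  rw [← Finset.mul_sum, Stb.v_conv hm]

theorem Sgp_one_int (a : Fin m) :
    Integrable (fun x : Fin m → ℝ => (m : ℝ)⁻¹ + SgpA a x) (gam (Fin m)) :=
  (integrable_const _).add (Sgp_A_int a)

theorem Sgp_one_mean (a : Fin m) :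
    ∫ x, ((m : ℝ)⁻¹ + SgpA a x) ∂(gam (Fin m)) = (m : ℝ)⁻¹ := by
  rw [integral_add (integrable_const _) (Sgp_A_int a), Sgp_A_mean]
  simp

theorem Sgp_two_int (ρ : ℝ) (a b : Fin m) :
    Integrable (fun x : Fin m → ℝ => ((m : ℝ)⁻¹ + SgpA a x) * ((m : ℝ)⁻¹ + ρ * SgpA b x))
      (gam (Fin m)) := by
  have e : (fun x : Fin m → ℝ => ((m : ℝ)⁻¹ + SgpA a x) * ((m : ℝ)⁻¹ + ρ * SgpA b x))
      = fun x => (m : ℝ)⁻¹ * (m : ℝ)⁻¹ + ((m : ℝ)⁻¹ * SgpA a x
        + ((m : ℝ)⁻¹ * ρ * SgpA b x + ρ * (SgpA a x * SgpA b x))) := by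
    funext x
    ring
  rw [e]
  exact (integrable_const _).add (((Sgp_A_int a).const_mul _).add
    (((Sgp_A_int b).const_mul _).add ((Sgp_A_int2 a b).const_mul _)))

theorem Sgp_two_val (ρ : ℝ) (a b : Fin m) :
    ∫ x : Fin m → ℝ, ((m : ℝ)⁻¹ + SgpA a x) * ((m : ℝ)⁻¹ + ρ * SgpA b x) ∂(gam (Fin m))
      = (m : ℝ)⁻¹ * ((m : ℝ)⁻¹ + ρ * Stb.v a b) := by
  have e : (fun x : Fin m → ℝ => ((m : ℝ)⁻¹ + SgpA a x) * ((m : ℝ)⁻¹ + ρ * SgpA b x))
      = fun x => (m : ℝ)⁻¹ * (m : ℝ)⁻¹ + ((m : ℝ)⁻¹ * SgpA a x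
        + ((m : ℝ)⁻¹ * ρ * SgpA b x + ρ * (SgpA a x * SgpA b x))) := by
    funext x
    ring
  have i1 : Integrable (fun x : Fin m → ℝ => (m : ℝ)⁻¹ * SgpA a x) (gam (Fin m)) :=
    (Sgp_A_int a).const_mul _
  have i2 : Integrable (fun x : Fin m → ℝ => (m : ℝ)⁻¹ * ρ * SgpA b x) (gam (Fin m)) :=
    (Sgp_A_int b).const_mul _
  have i3 : Integrable (fun x : Fin m → ℝ => ρ * (SgpA a x * SgpA b x)) (gam (Fin m)) :=
    (Sgp_A_int2 a b).const_mul _
  have i4 : Integrable (fun x : Fin m → ℝ => (m : ℝ)⁻¹ * ρ * SgpA b x + ρ * (SgpA a x * SgpA b x))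
      (gam (Fin m)) := i2.add i3
  have i5 : Integrable (fun x : Fin m → ℝ => (m : ℝ)⁻¹ * SgpA a x
      + ((m : ℝ)⁻¹ * ρ * SgpA b x + ρ * (SgpA a x * SgpA b x))) (gam (Fin m)) := i1.add i4
  rw [e, integral_add (integrable_const _) i5, integral_add i1 i4, integral_add i2 i3,
    integral_const, integral_const_mul _ (SgpA a), integral_const_mul _ (SgpA b),
    integral_const_mul ρ, Sgp_A_mean, Sgp_A_mean, Sgp_A_cov]
  simp only [probReal_univ, one_smul]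
  ring

theorem Sgp_Phi_int (ρ : ℝ) (a b : Fin m) :
    Integrable (SgpPhi ρ a b) ((gam (Fin m)).prod (gam (Fin m))) := by
  unfold SgpPhi
  exact ((Sgp_two_int ρ a b).comp_fst _).add
    ((Sgp_one_int a).mul_prod ((Sgp_A_int b).const_mul _))

theorem Sgp_Phi_val (ρ : ℝ) (a b : Fin m) :
    ∫ p, SgpPhi ρ a b p ∂((gam (Fin m)).prod (gam (Fin m)))
      = (m : ℝ)⁻¹ * (if b = a then (1 + ((m : ℝ) - 1) * ρ) / m else (1 - ρ) / m) := by
  have hm : 0 < m := a.pos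
  have hmR : (m : ℝ) ≠ 0 := by positivity
  unfold SgpPhi
  rw [integral_add ((Sgp_two_int ρ a b).comp_fst _)
    ((Sgp_one_int a).mul_prod ((Sgp_A_int b).const_mul _)),
    integral_prod_mul (fun x => (m : ℝ)⁻¹ + SgpA a x) (fun x => Real.sqrt (1 - ρ ^ 2) * SgpA b x),
    integral_const_mul, Sgp_A_mean, mul_zero, mul_zero, add_zero,
    integral_fun_fst (fun x : Fin m → ℝ => ((m : ℝ)⁻¹ + SgpA a x) * ((m : ℝ)⁻¹ + ρ * SgpA b x)),
    Sgp_two_val]
  simp only [probReal_univ, one_smul]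
  unfold Stb.v
  by_cases h : a = b
  · rw [if_pos h, if_pos h.symm]
    field_simp
  · rw [if_neg h, if_neg (fun h' => h h'.symm)]
    rw [zero_sub, div_eq_inv_mul]
    ring

/-- the rows of a pair of Gaussian matrices -/
def SgpE (p : (Fin n × Fin m → ℝ) × (Fin n × Fin m → ℝ)) :
    Fin n → (Fin m → ℝ) × (Fin m → ℝ) :=
  fun i => (fun c => p.1 (i, c), fun c => p.2 (i, c))

theorem Sgp_E_mp : MeasurePreserving (SgpE (n := n) (m := m))
    ((gam (Fin n × Fin m)).prod (gam (Fin n × Fin m)))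
    (Measure.pi fun _ : Fin n => (gam (Fin m)).prod (gam (Fin m))) := by
  have h1 : MeasurePreserving (MeasurableEquiv.curry (Fin n) (Fin m) ℝ) (gam (Fin n × Fin m))
      (Measure.pi (fun _ : Fin n => gam (Fin m))) :=
    ⟨MeasurableEquiv.measurable _, lid_curry n m⟩
  have h2 := h1.prod h1
  have h3 := (measurePreserving_arrowProdEquivProdArrow (Fin m → ℝ) (Fin m → ℝ) (Fin n)
    (fun _ => gam (Fin m)) (fun _ => gam (Fin m))).symm
  exact h3.comp h2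

theorem Sgp_pair (ρ : ℝ) (F : (Fin n → Fin m) → ℝ)
    (p : (Fin n × Fin m → ℝ) × (Fin n × Fin m → ℝ)) :
    pol F (wtG m n p.1) * pol F (wtG m n (ρ • p.1 + Real.sqrt (1 - ρ ^ 2) • p.2))
      = ∑ ω : Fin n → Fin m, ∑ δ : Fin n → Fin m,
        (F ω * F δ) * ∏ i, SgpPhi ρ (ω i) (δ i) (SgpE p i) := by
  unfold pol
  rw [Finset.sum_mul_sum]
  refine Finset.sum_congr rfl fun ω _ => Finset.sum_congr rfl fun δ _ => ?_
  have e : ∏ i, SgpPhi ρ (ω i) (δ i) (SgpE p i)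
      = (∏ i, wtG m n p.1 i (ω i))
        * ∏ i, wtG m n (ρ • p.1 + Real.sqrt (1 - ρ ^ 2) • p.2) i (δ i) := by
    rw [← Finset.prod_mul_distrib]
    refine Finset.prod_congr rfl fun i _ => ?_
    have h1 : wtG m n p.1 i (ω i) = (m : ℝ)⁻¹ + SgpA (ω i) (SgpE p i).1 := rfl
    have h2 : wtG m n (ρ • p.1 + Real.sqrt (1 - ρ ^ 2) • p.2) i (δ i)
        = (m : ℝ)⁻¹ + SgpA (δ i)
          (fun c => ρ * (SgpE p i).1 c + Real.sqrt (1 - ρ ^ 2) * (SgpE p i).2 c) := rfl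
    rw [h1, h2, Sgp_A_add]
    unfold SgpPhi
    ring
  rw [e]
  ring

theorem sg_pol (hm : 1 ≤ m) (ρ : ℝ) (h0 : 0 ≤ ρ) (h1 : ρ ≤ 1) (F : (Fin n → Fin m) → ℝ) :
    sg ρ (fun g => pol F (wtG m n g)) (fun g => pol F (wtG m n g)) = stab ρ F := by
  unfold sg
  simp only [Sgp_pair]
  have e : ∫ p : (Fin n × Fin m → ℝ) × (Fin n × Fin m → ℝ),
      (∑ ω : Fin n → Fin m, ∑ δ : Fin n → Fin m,
        (F ω * F δ) * ∏ i, SgpPhi ρ (ω i) (δ i) (SgpE p i))
        ∂((gam (Fin n × Fin m)).prod (gam (Fin n × Fin m)))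
      = ∫ q : Fin n → (Fin m → ℝ) × (Fin m → ℝ),
      (∑ ω : Fin n → Fin m, ∑ δ : Fin n → Fin m,
        (F ω * F δ) * ∏ i, SgpPhi ρ (ω i) (δ i) (q i))
        ∂(Measure.pi fun _ : Fin n => (gam (Fin m)).prod (gam (Fin m))) := by
    rw [← Sgp_E_mp.map_eq, integral_map Sgp_E_mp.measurable.aemeasurable]
    rw [Sgp_E_mp.map_eq]
    have hc : ∀ a b : Fin m, Measurable (SgpPhi ρ a b) := by
      intro a b
      have ha := (Sgp_A_cont a).measurable
      have hb := (Sgp_A_cont b).measurable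
      unfold SgpPhi
      fun_prop
    refine Measurable.aestronglyMeasurable ?_
    refine Finset.measurable_sum _ fun ω _ => Finset.measurable_sum _ fun δ _ => ?_
    refine Measurable.const_mul ?_ _
    refine Finset.measurable_prod _ fun i _ => ?_
    exact (hc _ _).comp (measurable_pi_apply i)
  rw [e]
  have hI : ∀ ω δ : Fin n → Fin m,
      Integrable (fun q : Fin n → (Fin m → ℝ) × (Fin m → ℝ) =>
        (F ω * F δ) * ∏ i, SgpPhi ρ (ω i) (δ i) (q i))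
        (Measure.pi fun _ : Fin n => (gam (Fin m)).prod (gam (Fin m))) := fun ω δ =>
    (Integrable.fintype_prod (f := fun i => SgpPhi ρ (ω i) (δ i))
      fun i => Sgp_Phi_int ρ (ω i) (δ i)).const_mul _
  rw [integral_finsetSum _ fun ω _ => integrable_finsetSum _ fun δ _ => hI ω δ]
  unfold stab
  rw [Finset.mul_sum]
  refine Finset.sum_congr rfl fun ω _ => ?_
  rw [integral_finsetSum _ fun δ _ => hI ω δ, Finset.mul_sum]
  refine Finset.sum_congr rfl fun δ _ => ?_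
  rw [integral_const_mul, integral_fintype_prod_eq_prod (fun i => SgpPhi ρ (ω i) (δ i))]
  simp only [Sgp_Phi_val]
  rw [Finset.prod_mul_distrib, Finset.prod_const, Finset.card_univ, Fintype.card_fin, inv_pow]
  ring

theorem pol_measurable (F : (Fin n → Fin m) → ℝ) :
    Continuous (fun g => pol F (wtG m n g)) := by
  unfold pol wtG
  fun_prop

theorem Sgp_pol_bd (F : (Fin n → Fin m) → ℝ) (g : Fin n × Fin m → ℝ) :
    |pol F (wtG m n g)| ≤ ((∑ ω, |F ω|) * 2 ^ n) * (1 + ‖g‖) ^ n := by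
  unfold pol
  refine (Finset.abs_sum_le_sum_abs _ _).trans ?_
  rw [mul_assoc, Finset.sum_mul]
  refine Finset.sum_le_sum fun ω _ => ?_
  rw [abs_mul, Finset.abs_prod]
  refine mul_le_mul_of_nonneg_left ?_ (abs_nonneg _)
  rw [← mul_pow]
  have e : (2 * (1 + ‖g‖)) ^ n = ∏ _i : Fin n, (2 * (1 + ‖g‖)) := by
    rw [Finset.prod_const, Finset.card_univ, Fintype.card_fin]
  rw [e]
  refine Finset.prod_le_prod (fun i _ => abs_nonneg _) fun i _ => ?_
  have hm : 0 < m := (ω i).pos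
  have h1 : wtG m n g i (ω i) = (m : ℝ)⁻¹ + SgpA (ω i) (fun c => g (i, c)) := rfl
  rw [h1]
  have h2 : ‖fun c => g (i, c)‖ ≤ ‖g‖ := by
    rw [pi_norm_le_iff_of_nonneg (norm_nonneg _)]
    exact fun c => norm_le_pi_norm g (i, c)
  have h3 : |(m : ℝ)⁻¹| ≤ 1 := by
    rw [abs_of_nonneg (by positivity)]
    exact inv_le_one_of_one_le₀ (by exact_mod_cast hm)
  have h4 := Sgp_A_bd (ω i) (fun c => g (i, c))
  have h5 := abs_add_le ((m : ℝ)⁻¹) (SgpA (ω i) (fun c => g (i, c)))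
  linarith

theorem pol_memLp (F : (Fin n → Fin m) → ℝ) :
    MemLp (fun g => pol F (wtG m n g)) 2 (gam (Fin n × Fin m)) := by
  rw [memLp_two_iff_integrable_sq (pol_measurable F).aestronglyMeasurable]
  refine integrable_gam _ (((∑ ω, |F ω|) * 2 ^ n) ^ 2) (n * 2) ((pol_measurable F).pow 2)
    fun g => ?_
  rw [abs_pow, pow_mul, ← mul_pow]
  exact pow_le_pow_left₀ (abs_nonneg _) (Sgp_pol_bd F g) 2

theorem integral_pol (hm : 1 ≤ m) (F : (Fin n → Fin m) → ℝ) :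
    ∫ g, pol F (wtG m n g) ∂(gam (Fin n × Fin m)) = av F := by
  have hmp : MeasurePreserving (MeasurableEquiv.curry (Fin n) (Fin m) ℝ) (gam (Fin n × Fin m))
      (Measure.pi (fun _ : Fin n => gam (Fin m))) :=
    ⟨MeasurableEquiv.measurable _, lid_curry n m⟩
  have e : ∫ g, pol F (wtG m n g) ∂(gam (Fin n × Fin m))
      = ∫ q : Fin n → Fin m → ℝ, (∑ ω : Fin n → Fin m,
        F ω * ∏ i, ((m : ℝ)⁻¹ + SgpA (ω i) (q i)))
        ∂(Measure.pi fun _ : Fin n => gam (Fin m)) := by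
    rw [← hmp.integral_comp' (g := fun q : Fin n → Fin m → ℝ => (∑ ω : Fin n → Fin m,
        F ω * ∏ i, ((m : ℝ)⁻¹ + SgpA (ω i) (q i))))]
    rfl
  rw [e]
  have hI : ∀ ω : Fin n → Fin m,
      Integrable (fun q : Fin n → Fin m → ℝ => F ω * ∏ i, ((m : ℝ)⁻¹ + SgpA (ω i) (q i)))
        (Measure.pi fun _ : Fin n => gam (Fin m)) := fun ω =>
    (Integrable.fintype_prod (f := fun (i : Fin n) (x : Fin m → ℝ) => (m : ℝ)⁻¹ + SgpA (ω i) x)
      fun i => Sgp_one_int (ω i)).const_mul _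
  rw [integral_finsetSum _ fun ω _ => hI ω]
  unfold av
  rw [Finset.mul_sum]
  refine Finset.sum_congr rfl fun ω _ => ?_
  rw [integral_const_mul, integral_fintype_prod_eq_prod
    (fun (i : Fin n) (x : Fin m → ℝ) => (m : ℝ)⁻¹ + SgpA (ω i) x)]
  simp only [Sgp_one_mean]
  rw [Finset.prod_const, Finset.card_univ, Fintype.card_fin, inv_pow]
  ring

theorem integral_pol_sq (hm : 1 ≤ m) (F : (Fin n → Fin m) → ℝ) :
    ∫ g, (pol F (wtG m n g)) ^ 2 ∂(gam (Fin n × Fin m)) = av (fun ω => F ω ^ 2) := by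
  rw [← Stb.stab_one (by omega) F, ← sg_pol hm 1 zero_le_one le_rfl F]
  unfold sg
  have e : ∀ p : (Fin n × Fin m → ℝ) × (Fin n × Fin m → ℝ),
      pol F (wtG m n p.1) * pol F (wtG m n ((1 : ℝ) • p.1 + Real.sqrt (1 - 1 ^ 2) • p.2))
        = (pol F (wtG m n p.1)) ^ 2 := by
    intro p
    have : Real.sqrt (1 - 1 ^ 2) = 0 := by norm_num
    rw [this, one_smul, zero_smul, add_zero, sq]
  simp only [e]
  rw [integral_fun_fst (fun g => (pol F (wtG m n g)) ^ 2)]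
  simp

theorem pol_one (hm : 1 ≤ m) (g : Fin n × Fin m → ℝ) :
    pol (fun _ : Fin n → Fin m => 1) (wtG m n g) = 1 := by
  have hmR : (m : ℝ) ≠ 0 := by
    have : 0 < m := hm
    positivity
  unfold pol
  simp only [one_mul]
  have h := Finset.prod_univ_sum (fun _ : Fin n => (Finset.univ : Finset (Fin m)))
    (fun i a => wtG m n g i a)
  rw [Fintype.piFinset_univ] at h
  rw [← h]
  refine Finset.prod_eq_one fun i _ => ?_
  unfold wtG
  rw [Finset.sum_add_distrib, ← Finset.sum_div, Finset.sum_sub_distrib]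
  simp only [Finset.sum_const, Finset.card_univ, Fintype.card_fin, nsmul_eq_mul]
  rw [mul_div_cancel₀ _ hmR, sub_self, zero_div, add_zero, mul_inv_cancel₀ hmR]

end sgp

end Pool.H65.PT
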