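import Pool.Agent.Helper65.PT.Defs
import Pool.Agent.Helper65.PT.Neg
import Pool.Agent.Helper65.PT.Sgp
import Pool.Agent.Helper65.PT.Oub

set_option autoImplicit false

open MeasureTheory ProbabilityTheory Pool.H65.PS

namespace Pool.H65.PT

theorem Trf_Tn_sum {m n : ℕ} (θ : ℝ) (f : (Fin n → Fin m) → Fin m → ℝ) (ω : Fin n → Fin m) :
    ∑ j, Tn θ (fun ω => f ω j) ω = Tn θ (fun ω => ∑ j, f ω j) ω := by
  unfold Tn
  rw [Finset.sum_comm]
  exact Finset.sum_congr rfl fun δ _ => by rw [Finset.mul_sum]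

theorem Trf_pol_sum {m n : ℕ} (G : Fin m → (Fin n → Fin m) → ℝ) (w : Fin n → Fin m → ℝ) :
    ∑ j, pol (G j) w = pol (fun ω => ∑ j, G j ω) w := by
  unfold pol
  rw [Finset.sum_comm]
  exact Finset.sum_congr rfl fun δ _ => by rw [Finset.sum_mul]

theorem Trf_av_mono {m n : ℕ} {f g : (Fin n → Fin m) → ℝ} (h : ∀ ω, f ω ≤ g ω) :
    av f ≤ av g := by
  unfold av
  exact mul_le_mul_of_nonneg_left (Finset.sum_le_sum fun ω _ => h ω) (by positivity)

theorem Trf_av_one {m n : ℕ} (hm : 1 ≤ m) : av (fun _ : Fin n → Fin m => (1 : ℝ)) = 1 := by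
  have h0 : (0 : ℝ) < m := by exact_mod_cast hm
  unfold av
  simp [Finset.card_univ, h0.ne']

theorem Trf_av_sum {m n : ℕ} (f : (Fin n → Fin m) → Fin m → ℝ) :
    ∑ j, av (fun ω => f ω j) = av (fun ω => ∑ j, f ω j) := by
  unfold av
  rw [← Finset.mul_sum, Finset.sum_comm]

/-- The gaussian part. -/
theorem Trf_gauss {κ : Type} [Fintype κ] {m : ℕ} (hm : 2 ≤ m) (ρ : ℝ) (h0 : 0 ≤ ρ) (h1 : ρ ≤ 1 / 2)
    (δ : ℝ) (hδ : 0 < δ) (hδ1 : 2 * (m : ℝ) ^ 2 * δ ≤ 1)
    (p : Fin m → (κ → ℝ) → ℝ) (pc : ∀ j, Continuous (p j)) (pm : ∀ j, MemLp (p j) 2 (gam κ))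
    (psum : ∀ g, ∑ j, p j g = 1) (pint : ∀ j, ∫ g, p j g ∂(gam κ) = 1 / m)
    (psq : ∀ j, ∫ g, p j g ^ 2 ∂(gam κ) ≤ 1)
    (pneg : ∀ j, ∫ g, (max (-(p j g)) 0) ^ 2 ∂(gam κ) ≤ δ ^ 2) :
    ∃ F : (κ → ℝ) → Fin m → ℝ, Pt F ∧ Bal F ∧
      ∑ j, sg ρ (p j) (p j) ≤ ∑ j, sg ρ (fun x => F x j) (fun x => F x j)
        + 8 * (m : ℝ) ^ 3 * δ := by
  have hρ : |ρ| ≤ 1 := by rw [abs_of_nonneg h0]; linarith
  have hmR : (2 : ℝ) ≤ m := by exact_mod_cast hm
  have hm0 : (0 : ℝ) < m := by linarith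
  set s : (κ → ℝ) → ℝ := fun g => ∑ j, max (-(p j g)) 0 with hs
  have sc : Continuous s := by
    refine continuous_finsetSum _ fun j _ => ?_
    exact ((pc j).neg).max continuous_const
  have s0 : ∀ g, 0 ≤ s g := fun g => Finset.sum_nonneg fun j _ => le_max_right _ _
  have hpos : ∀ g, ∑ j, max (p j g) 0 = 1 + s g := by
    intro g
    rw [← psum g, hs, ← Finset.sum_add_distrib]
    refine Finset.sum_congr rfl fun j _ => ?_
    rcases le_total 0 (p j g) with h | h
    · rw [max_eq_left h, max_eq_right (by linarith)]; ring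
    · rw [max_eq_right h, max_eq_left (by linarith)]; ring
  set Ft : (κ → ℝ) → Fin m → ℝ := fun g j => max (p j g) 0 / (1 + s g) with hFt
  have Ftc : ∀ j, Continuous (fun g => Ft g j) := by
    intro j
    refine ((pc j).max continuous_const).div (continuous_const.add sc) fun g => ?_
    linarith [s0 g]
  have Ft0 : ∀ g j, 0 ≤ Ft g j := fun g j => div_nonneg (le_max_right _ _) (by linarith [s0 g])
  have Ftsum : ∀ g, ∑ j, Ft g j = 1 := by
    intro g
    simp only [hFt]
    rw [← Finset.sum_div, hpos, div_self (by linarith [s0 g])]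
  have Ft1 : ∀ g j, Ft g j ≤ 1 := fun g j => by
    rw [← Ftsum g]
    exact Finset.single_le_sum (fun i _ => Ft0 g i) (Finset.mem_univ j)
  have hdiff : ∀ g j, |p j g - Ft g j| ≤ 2 * s g := by
    intro g j
    have a0 := Ft0 g j
    have a1 := Ft1 g j
    have a2 := s0 g
    have a3 : max (-(p j g)) 0 ≤ s g :=
      Finset.single_le_sum (f := fun j => max (-(p j g)) 0) (fun i _ => le_max_right _ _)
        (Finset.mem_univ j)
    have a4 : max (p j g) 0 = Ft g j * (1 + s g) := by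
      simp only [hFt]
      rw [div_mul_cancel₀ _ (by linarith)]
    rcases le_total 0 (p j g) with h | h
    · rw [max_eq_left h] at a4
      rw [abs_le]
      constructor <;> nlinarith
    · have a5 : Ft g j = 0 := by simp only [hFt]; rw [max_eq_right h, zero_div]
      rw [max_eq_left (by linarith)] at a3
      rw [a5, abs_le]
      constructor <;> linarith
  -- integrals of `s`
  have negm : ∀ j, MemLp (fun g => max (-(p j g)) 0) 2 (gam κ) := by
    intro j
    refine (pm j).mono (((pc j).neg).max continuous_const).aestronglyMeasurable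
      (Filter.Eventually.of_forall fun g => ?_)
    rw [Real.norm_eq_abs, Real.norm_eq_abs, abs_of_nonneg (le_max_right _ _)]
    exact max_le (neg_le_abs _) (abs_nonneg _)
  have sm : MemLp s 2 (gam κ) := by
    have := memLp_finsetSum (μ := gam κ) (p := 2) Finset.univ (f := fun j g => max (-(p j g)) 0)
      fun j _ => negm j
    exact this
  have negi : ∀ j, Integrable (fun g => (max (-(p j g)) 0) ^ 2) (gam κ) := fun j =>
    (negm j).integrable_sq
  have ss : ∫ g, s g ^ 2 ∂(gam κ) ≤ (m * δ) ^ 2 := by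
    calc ∫ g, s g ^ 2 ∂(gam κ) ≤ ∫ g, m * ∑ j, (max (-(p j g)) 0) ^ 2 ∂(gam κ) := by
          refine integral_mono sm.integrable_sq ((integrable_finsetSum _ fun j _ => negi j).const_mul _)
            fun g => ?_
          have := sq_sum_le_card_mul_sum_sq (s := (Finset.univ : Finset (Fin m)))
            (f := fun j => max (-(p j g)) 0)
          simpa using this
      _ = m * ∑ j, ∫ g, (max (-(p j g)) 0) ^ 2 ∂(gam κ) := by
          rw [integral_const_mul, integral_finsetSum _ fun j _ => negi j]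
      _ ≤ m * ∑ j : Fin m, δ ^ 2 := by
          refine mul_le_mul_of_nonneg_left (Finset.sum_le_sum fun j _ => pneg j) hm0.le
      _ = (m * δ) ^ 2 := by simp; ring
  have Ftm : ∀ j, MemLp (fun g => Ft g j) 2 (gam κ) := fun j =>
    MemLp.of_bound (Ftc j).aestronglyMeasurable 1 (Filter.Eventually.of_forall fun g => by
      rw [Real.norm_eq_abs, abs_of_nonneg (Ft0 g j)]; exact Ft1 g j)
  have sqs : Real.sqrt (∫ g, s g ^ 2 ∂(gam κ)) ≤ m * δ := by
    rw [Real.sqrt_le_left (by positivity)]; exact ss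
  have si : ∫ g, s g ∂(gam κ) ≤ m * δ := by
    have h2 : (∫ g, s g ∂(gam κ)) ^ 2 ≤ ∫ g, s g ^ 2 ∂(gam κ) := by
      have hv := variance_nonneg s (gam κ)
      rw [variance_eq_sub sm] at hv
      simp only [Pi.pow_apply] at hv
      linarith
    exact (Real.le_sqrt_of_sq_le h2).trans sqs
  -- first comparison
  have c1 : ∀ j, sg ρ (p j) (p j) ≤ sg ρ (fun x => Ft x j) (fun x => Ft x j) + 4 * m * δ := by
    intro j
    have h3 := sg_sub_le (pm j) (Ftm j) (pc j).measurable (Ftc j).measurable ρ hρ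
    have h4 : Real.sqrt (∫ x, p j x ^ 2 ∂(gam κ)) ≤ 1 := by
      rw [Real.sqrt_le_left zero_le_one]; simpa using psq j
    have h5 : Real.sqrt (∫ x, Ft x j ^ 2 ∂(gam κ)) ≤ 1 := by
      rw [Real.sqrt_le_left zero_le_one]
      calc ∫ x, Ft x j ^ 2 ∂(gam κ) ≤ ∫ x, (1 : ℝ) ∂(gam κ) :=
            integral_mono (Ftm j).integrable_sq (integrable_const _) fun x => by
              have := Ft0 x j
              have := Ft1 x j
              change Ft x j ^ 2 ≤ 1
              nlinarith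
        _ = 1 ^ 2 := by simp
    have h6 : Real.sqrt (∫ x, (p j x - Ft x j) ^ 2 ∂(gam κ)) ≤ 2 * (m * δ) := by
      rw [Real.sqrt_le_left (by positivity)]
      calc ∫ x, (p j x - Ft x j) ^ 2 ∂(gam κ) ≤ ∫ x, 4 * s x ^ 2 ∂(gam κ) := by
            refine integral_mono ((pm j).sub (Ftm j)).integrable_sq (sm.integrable_sq.const_mul _)
              fun x => ?_
            have := hdiff x j
            have h7 := sq_le_sq' (by linarith [abs_nonneg (p j x - Ft x j), s0 x]) this
            rw [sq_abs] at h7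
            change (p j x - Ft x j) ^ 2 ≤ 4 * s x ^ 2
            nlinarith
        _ = 4 * ∫ x, s x ^ 2 ∂(gam κ) := integral_const_mul _ _
        _ ≤ (2 * (m * δ)) ^ 2 := by nlinarith
    have h7 : (Real.sqrt (∫ x, p j x ^ 2 ∂(gam κ)) + Real.sqrt (∫ x, Ft x j ^ 2 ∂(gam κ)))
        * Real.sqrt (∫ x, (p j x - Ft x j) ^ 2 ∂(gam κ)) ≤ (1 + 1) * (2 * (m * δ)) :=
      mul_le_mul (add_le_add h4 h5) h6 (Real.sqrt_nonneg _) (by norm_num)
    have h8 := (le_abs_self _).trans (h3.trans h7)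
    linarith
  -- balancing
  set η : Fin m → ℝ := fun j => ∫ x, Ft x j ∂(gam κ) - 1 / m with hη
  have Fti : ∀ j, Integrable (fun x => Ft x j) (gam κ) := fun j => (Ftm j).integrable one_le_two
  have pi : ∀ j, Integrable (p j) (gam κ) := fun j => (pm j).integrable one_le_two
  have hηb : ∀ j, |η j| ≤ 2 * (m * δ) := by
    intro j
    have e1 : η j = ∫ x, (Ft x j - p j x) ∂(gam κ) := by
      rw [integral_sub (Fti j) (pi j), pint j]
    rw [e1]
    calc |∫ x, (Ft x j - p j x) ∂(gam κ)| ≤ ∫ x, |Ft x j - p j x| ∂(gam κ) :=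
          abs_integral_le_integral_abs
      _ ≤ ∫ x, 2 * s x ∂(gam κ) := by
          refine integral_mono ((Fti j).sub (pi j)).abs ((sm.integrable one_le_two).const_mul _)
            fun x => ?_
          change |Ft x j - p j x| ≤ 2 * s x
          rw [abs_sub_comm]
          exact hdiff x j
      _ = 2 * ∫ x, s x ∂(gam κ) := integral_const_mul _ _
      _ ≤ 2 * (m * δ) := by linarith
  have hηs : ∑ j, η j = 0 := by
    simp only [hη]
    rw [Finset.sum_sub_distrib, ← integral_finsetSum _ fun j _ => Fti j]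
    simp only [Ftsum]
    simp [hm0.ne']
  set t : ℝ := 2 * (m : ℝ) ^ 2 * δ with ht
  have t0 : 0 < t := by positivity
  set v : Fin m → ℝ := fun j => 1 / m - (1 - t) / t * η j with hv
  have v0 : ∀ j, 0 ≤ v j := by
    intro j
    have a1 : (1 - t) / t * η j ≤ 1 / m := by
      calc (1 - t) / t * η j ≤ (1 - t) / t * (2 * (m * δ)) :=
            mul_le_mul_of_nonneg_left ((le_abs_self _).trans (hηb j))
              (div_nonneg (by linarith) t0.le)
        _ ≤ 1 / t * (2 * (m * δ)) := by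
            refine mul_le_mul_of_nonneg_right ?_ (by positivity)
            exact div_le_div_of_nonneg_right (by linarith) t0.le
        _ = 1 / m := by rw [ht]; field_simp
    simp only [hv]
    linarith
  have vs : ∑ j, v j = 1 := by
    simp only [hv]
    rw [Finset.sum_sub_distrib, ← Finset.mul_sum, hηs]
    simp [hm0.ne']
  have v1 : ∀ j, v j ≤ 1 := fun j => by
    rw [← vs]
    exact Finset.single_le_sum (fun i _ => v0 i) (Finset.mem_univ j)
  have hF0 : ∀ x j, 0 ≤ (1 - t) * Ft x j + t * v j := fun x j =>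
    add_nonneg (mul_nonneg (by linarith) (Ft0 x j)) (mul_nonneg t0.le (v0 j))
  have hF1 : ∀ x j, (1 - t) * Ft x j + t * v j ≤ 1 := fun x j => by
    have := mul_le_mul_of_nonneg_left (Ft1 x j) (show 0 ≤ 1 - t by linarith)
    have := mul_le_mul_of_nonneg_left (v1 j) t0.le
    linarith
  have Fc : ∀ j, Continuous (fun x => (1 - t) * Ft x j + t * v j) := fun j =>
    (continuous_const.mul (Ftc j)).add continuous_const
  have Fm : ∀ j, MemLp (fun x => (1 - t) * Ft x j + t * v j) 2 (gam κ) := fun j =>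
    MemLp.of_bound (Fc j).aestronglyMeasurable 1 (Filter.Eventually.of_forall fun g => by
      rw [Real.norm_eq_abs, abs_of_nonneg (hF0 g j)]; exact hF1 g j)
  refine ⟨fun x j => (1 - t) * Ft x j + t * v j, ⟨fun j => (Fc j).measurable, fun x => ⟨hF0 x, ?_⟩⟩,
    fun j => ?_, ?_⟩
  · rw [Finset.sum_add_distrib, ← Finset.mul_sum, ← Finset.mul_sum, Ftsum, vs]; ring
  · rw [integral_add ((Fti j).const_mul _) (integrable_const _), integral_const_mul]
    have e1 : ∫ x, Ft x j ∂(gam κ) = 1 / m + η j := by simp only [hη]; ring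
    rw [e1]
    simp only [integral_const, probReal_univ, smul_eq_mul, one_mul, hv]
    field_simp
    ring
  · have c2 : ∀ j, sg ρ (fun x => Ft x j) (fun x => Ft x j) ≤
        sg ρ (fun x => (1 - t) * Ft x j + t * v j) (fun x => (1 - t) * Ft x j + t * v j)
          + 2 * t := by
      intro j
      have h3 := sg_sub_le (Ftm j) (Fm j) (Ftc j).measurable (Fc j).measurable ρ hρ
      have h4 : Real.sqrt (∫ x, Ft x j ^ 2 ∂(gam κ)) ≤ 1 := by
        rw [Real.sqrt_le_left zero_le_one]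
        calc ∫ x, Ft x j ^ 2 ∂(gam κ) ≤ ∫ x, (1 : ℝ) ∂(gam κ) :=
              integral_mono (Ftm j).integrable_sq (integrable_const _) fun x => by
                have := Ft0 x j
                have := Ft1 x j
                change Ft x j ^ 2 ≤ 1
                nlinarith
          _ = 1 ^ 2 := by simp
      have h5 : Real.sqrt (∫ x, ((1 - t) * Ft x j + t * v j) ^ 2 ∂(gam κ)) ≤ 1 := by
        rw [Real.sqrt_le_left zero_le_one]
        calc ∫ x, ((1 - t) * Ft x j + t * v j) ^ 2 ∂(gam κ) ≤ ∫ x, (1 : ℝ) ∂(gam κ) :=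
              integral_mono (Fm j).integrable_sq (integrable_const _) fun x => by
                have a1 := hF0 x j
                have a2 := hF1 x j
                change ((1 - t) * Ft x j + t * v j) ^ 2 ≤ 1
                nlinarith
          _ = 1 ^ 2 := by simp
      have h6 : Real.sqrt (∫ x, (Ft x j - ((1 - t) * Ft x j + t * v j)) ^ 2 ∂(gam κ)) ≤ t := by
        rw [Real.sqrt_le_left t0.le]
        calc ∫ x, (Ft x j - ((1 - t) * Ft x j + t * v j)) ^ 2 ∂(gam κ)
            ≤ ∫ x, t ^ 2 ∂(gam κ) := by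
              refine integral_mono ((Ftm j).sub (Fm j)).integrable_sq (integrable_const _)
                fun x => ?_
              have e1 : Ft x j - ((1 - t) * Ft x j + t * v j) = t * (Ft x j - v j) := by ring
              change (Ft x j - ((1 - t) * Ft x j + t * v j)) ^ 2 ≤ t ^ 2
              rw [e1, mul_pow]
              have a1 : (Ft x j - v j) ^ 2 ≤ 1 := by
                have := Ft0 x j
                have := Ft1 x j
                have := v0 j
                have := v1 j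
                have h8 : |Ft x j - v j| ≤ 1 := by
                  rw [abs_le]
                  constructor <;> linarith
                have := sq_abs (Ft x j - v j)
                nlinarith [abs_nonneg (Ft x j - v j)]
              nlinarith [sq_nonneg t]
          _ = t ^ 2 := by simp
      have h7 : (Real.sqrt (∫ x, Ft x j ^ 2 ∂(gam κ))
          + Real.sqrt (∫ x, ((1 - t) * Ft x j + t * v j) ^ 2 ∂(gam κ)))
          * Real.sqrt (∫ x, (Ft x j - ((1 - t) * Ft x j + t * v j)) ^ 2 ∂(gam κ))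
          ≤ (1 + 1) * t :=
        mul_le_mul (add_le_add h4 h5) h6 (Real.sqrt_nonneg _) (by norm_num)
      have h8 := (le_abs_self _).trans (h3.trans h7)
      linarith
    have hall : ∀ j, sg ρ (p j) (p j) ≤
        sg ρ (fun x => (1 - t) * Ft x j + t * v j) (fun x => (1 - t) * Ft x j + t * v j)
          + 8 * (m : ℝ) ^ 2 * δ := by
      intro j
      have a1 := c1 j
      have a2 := c2 j
      have a3 : 4 * m * δ + 2 * t ≤ 8 * (m : ℝ) ^ 2 * δ := by
        rw [ht]
        have : 4 * (m : ℝ) ≤ 4 * (m : ℝ) ^ 2 := by nlinarith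
        nlinarith
      linarith
    calc ∑ j, sg ρ (p j) (p j) ≤ ∑ j : Fin m,
          (sg ρ (fun x => (1 - t) * Ft x j + t * v j) (fun x => (1 - t) * Ft x j + t * v j)
          + 8 * (m : ℝ) ^ 2 * δ) := Finset.sum_le_sum fun j _ => hall j
      _ = _ := by
        rw [Finset.sum_add_distrib]
        simp
        ring

/-- the invariance principle in the form we need. -/
theorem transfer (m : ℕ) (hm : 2 ≤ m) (ρ : ℝ) (h0 : 0 ≤ ρ) (h1 : ρ ≤ 1 / 2) (ε : ℝ) (hε : 0 < ε) :
    ∃ τ : ℝ, 0 < τ ∧ ∀ (n : ℕ) (f : (Fin n → Fin m) → Fin m → ℝ),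
      (∀ ω, f ω ∈ stdSimplex ℝ (Fin m)) → (∀ j, av (fun ω => f ω j) = 1 / (m : ℝ)) →
      (∀ i j, infl (fun ω => f ω j) i ≤ τ) →
      ∃ F : ((Fin n × Fin m) → ℝ) → Fin m → ℝ, Pt F ∧ Bal F ∧
        ∑ j, stab ρ (fun ω => f ω j) ≤ ∑ j, sg ρ (fun x => F x j) (fun x => F x j) + ε := by
  have hm1 : 1 ≤ m := by omega
  have hmR : (2 : ℝ) ≤ m := by exact_mod_cast hm
  have hm0 : (0 : ℝ) < m := by linarith
  set θ : ℝ := 1 - min ε 1 / 4 with hθ
  have hmin : 0 < min ε 1 := lt_min hε one_pos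
  have hmin1 : min ε 1 ≤ 1 := min_le_right _ _
  have hmin2 : min ε 1 ≤ ε := min_le_left _ _
  have hθ0 : 0 < θ := by rw [hθ]; linarith
  have hθ1 : θ < 1 := by rw [hθ]; linarith
  have hθ2 : 1 - θ ^ 2 ≤ ε / 2 := by nlinarith
  set δ : ℝ := min (ε / (16 * (m : ℝ) ^ 3)) (1 / (2 * (m : ℝ) ^ 2)) with hδd
  have hδ : 0 < δ := lt_min (by positivity) (by positivity)
  have hδ1 : 2 * (m : ℝ) ^ 2 * δ ≤ 1 := by
    calc 2 * (m : ℝ) ^ 2 * δ ≤ 2 * (m : ℝ) ^ 2 * (1 / (2 * (m : ℝ) ^ 2)) :=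
          mul_le_mul_of_nonneg_left (min_le_right _ _) (by positivity)
      _ = 1 := by field_simp
  have hδ2 : 8 * (m : ℝ) ^ 3 * δ ≤ ε / 2 := by
    calc 8 * (m : ℝ) ^ 3 * δ ≤ 8 * (m : ℝ) ^ 3 * (ε / (16 * (m : ℝ) ^ 3)) :=
          mul_le_mul_of_nonneg_left (min_le_left _ _) (by positivity)
      _ = ε / 2 := by field_simp; norm_num
  obtain ⟨τ, hτ, H⟩ := neg_small m hm1 θ hθ0 hθ1 (δ ^ 2) (by positivity)
  refine ⟨τ, hτ, fun n f hf hav hinf => ?_⟩
  have f01 : ∀ ω j, 0 ≤ f ω j ∧ f ω j ≤ 1 := by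
    intro ω j
    refine ⟨(hf ω).1 j, ?_⟩
    rw [← (hf ω).2]
    exact Finset.single_le_sum (fun i _ => (hf ω).1 i) (Finset.mem_univ j)
  have G01 : ∀ j ω, 0 ≤ Tn θ (fun ω => f ω j) ω ∧ Tn θ (fun ω => f ω j) ω ≤ 1 := fun j ω =>
    Tn_mem hm1 θ hθ0.le hθ1.le _ 0 1 (fun ω => f01 ω j) ω
  have hTn1 : ∀ ω : Fin n → Fin m, Tn θ (fun _ => (1 : ℝ)) ω = 1 := by
    intro ω
    have := Tn_mem hm1 θ hθ0.le hθ1.le (fun _ : Fin n → Fin m => (1 : ℝ)) 1 1
      (fun _ => ⟨le_rfl, le_rfl⟩) ω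
    exact le_antisymm this.2 this.1
  have Gs : ∀ ω : Fin n → Fin m, ∑ j, Tn θ (fun ω => f ω j) ω = 1 := by
    intro ω
    rw [Trf_Tn_sum]
    have : (fun ω => ∑ j, f ω j) = fun _ : Fin n → Fin m => (1 : ℝ) := by
      funext ω; exact (hf ω).2
    rw [this, hTn1]
  obtain ⟨F, hF1, hF2, hF3⟩ := Trf_gauss (κ := Fin n × Fin m) hm ρ h0 h1 δ hδ hδ1
    (fun j g => pol (Tn θ (fun ω => f ω j)) (wtG m n g)) (fun j => pol_measurable _)
    (fun j => pol_memLp _) (fun g => by
      rw [Trf_pol_sum]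
      simp only [Gs]
      exact pol_one hm1 g)
    (fun j => by rw [integral_pol hm1, av_Tn hm1, hav])
    (fun j => by
      rw [integral_pol_sq hm1]
      calc av (fun ω => Tn θ (fun ω => f ω j) ω ^ 2) ≤ av (fun _ : Fin n → Fin m => (1 : ℝ)) :=
            Trf_av_mono fun ω => by
              have := G01 j ω
              nlinarith [this.1, this.2]
        _ = 1 := Trf_av_one hm1)
    (fun j => H n (fun ω => f ω j) (fun ω => f01 ω j) (fun k => hinf k j))
  refine ⟨F, hF1, hF2, ?_⟩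
  have hstep : ∀ j, stab ρ (fun ω => f ω j) ≤
      sg ρ (fun g => pol (Tn θ (fun ω => f ω j)) (wtG m n g))
        (fun g => pol (Tn θ (fun ω => f ω j)) (wtG m n g))
      + (1 - θ ^ 2) * av (fun ω => f ω j ^ 2) := by
    intro j
    rw [sg_pol hm1 ρ h0 (by linarith), stab_Tn hm1]
    exact stab_diff_le hm1 ρ (θ ^ 2) h0 h1 (by positivity) (by nlinarith) _
  have hsq : ∑ j, av (fun ω => f ω j ^ 2) ≤ 1 := by
    calc ∑ j, av (fun ω => f ω j ^ 2) ≤ ∑ j, av (fun ω => f ω j) :=
          Finset.sum_le_sum fun j _ => Trf_av_mono fun ω => by nlinarith [(f01 ω j).1, (f01 ω j).2]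
      _ = ∑ j : Fin m, 1 / (m : ℝ) := Finset.sum_congr rfl fun j _ => hav j
      _ = 1 := by simp [hm0.ne']
  have hθ3 : 0 ≤ 1 - θ ^ 2 := by nlinarith
  calc ∑ j, stab ρ (fun ω => f ω j) ≤ ∑ j,
        (sg ρ (fun g => pol (Tn θ (fun ω => f ω j)) (wtG m n g))
          (fun g => pol (Tn θ (fun ω => f ω j)) (wtG m n g))
        + (1 - θ ^ 2) * av (fun ω => f ω j ^ 2)) := Finset.sum_le_sum fun j _ => hstep j
    _ = ∑ j, sg ρ (fun g => pol (Tn θ (fun ω => f ω j)) (wtG m n g))
          (fun g => pol (Tn θ (fun ω => f ω j)) (wtG m n g))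
        + (1 - θ ^ 2) * ∑ j, av (fun ω => f ω j ^ 2) := by
        rw [Finset.sum_add_distrib, Finset.mul_sum]
    _ ≤ _ := by
        have := mul_le_mul_of_nonneg_left hsq hθ3
        linarith

end Pool.H65.PT
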