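import Pool.Agent.Helper65.PT.Ggg
import Pool.Agent.Helper65.PT.Trf
import Pool.Agent.Helper65.PT.Plm

set_option autoImplicit false

open MeasureTheory ProbabilityTheory Pool.H65.PS

namespace Pool.H65.PT

/-- the small-correlation theorem, in terms of the definitions of `PS.Defs`. -/
theorem small_rho (m : ℕ) (hm : 2 ≤ m) : ∃ ρ0 : ℝ, 0 < ρ0 ∧ ρ0 ≤ 1 ∧
    ∀ ρ : ℝ, 0 ≤ ρ → ρ ≤ ρ0 →
      Filter.Tendsto (fun n : ℕ => ∑ j : Fin m, stab ρ (fun ω : Fin n → Fin m => plur ω j))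
        Filter.atTop (nhds (Lam m ρ)) ∧
      ∀ ε : ℝ, ε > 0 → ∃ τ : ℝ, τ > 0 ∧
        ∀ (n : ℕ) (f : (Fin n → Fin m) → Fin m → ℝ), (∀ ω, f ω ∈ stdSimplex ℝ (Fin m)) →
          (∀ j, av (fun ω => f ω j) = 1 / (m : ℝ)) →
          (∀ i j, infl (fun ω => f ω j) i ≤ τ) →
          ∑ j, stab ρ (fun ω => f ω j) ≤ Lam m ρ + ε := by
  obtain ⟨ρ0, h0, h1, hG⟩ := gauss_small m hm
  refine ⟨ρ0, h0, by linarith, fun ρ hρ0 hρ1 => ⟨plur_limit m hm ρ hρ0 (by linarith), ?_⟩⟩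
  intro ε hε
  obtain ⟨τ, hτ, hT⟩ := transfer m hm ρ hρ0 (by linarith) ε hε
  refine ⟨τ, hτ, fun n f hf hb hi => ?_⟩
  obtain ⟨F, hF, hFb, hle⟩ := hT n f hf hb hi
  have := hG ρ hρ0 hρ1 (Fin n × Fin m) F hF hFb
  linarith

end Pool.H65.PT
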