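import Pool.Agent.Helper65.PT.Defs
import Pool.Agent.Helper65.PT.Law
import Pool.Agent.Helper65.PT.Pmo

set_option autoImplicit false

open MeasureTheory ProbabilityTheory Pool.H65.PS

namespace Pool.H65.PT

section moc

variable {κ : Type} [Fintype κ] {m : ℕ}

theorem Moc_dot_meas (v : κ → ℝ) : Measurable (fun x : κ → ℝ => dot v x) := by
  unfold dot
  exact Finset.measurable_sum _ fun i _ => measurable_const.mul (measurable_pi_apply i)

theorem Moc_xi_meas (u : Fin m → κ → ℝ) : Measurable (xi u) := by
  unfold xi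
  exact measurable_pi_lambda _ fun j => Moc_dot_meas (u j)

theorem Moc_int_dot (v : κ → ℝ) : Integrable (fun x : κ → ℝ => dot v x) (gam κ) := by
  unfold dot
  exact integrable_finsetSum _ fun i _ => (emx_int_coord i).const_mul (v i)

theorem Moc_int_mul {G h : (κ → ℝ) → ℝ} (hG : Measurable G) (hb : ∃ B, ∀ x, |G x| ≤ B)
    (hh : Integrable h (gam κ)) : Integrable (fun x => G x * h x) (gam κ) := by
  obtain ⟨B, hB⟩ := hb
  exact hh.bdd_mul hG.aestronglyMeasurable (c := B)
    (Filter.Eventually.of_forall fun x => by rw [Real.norm_eq_abs]; exact hB x)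

theorem Moc_dot_sub_smul (v w x : κ → ℝ) (c : ℝ) : dot w (x - c • v) = dot w x - c * dot w v := by
  unfold dot
  rw [Finset.mul_sum, ← Finset.sum_sub_distrib]
  refine Finset.sum_congr rfl fun i _ => ?_
  simp only [Pi.sub_apply, Pi.smul_apply, smul_eq_mul]
  ring

/-- the reflection along `v` preserves the Gaussian measure -/
theorem Moc_refl (v : κ → ℝ) (hv : dot v v ≠ 0) :
    MeasurePreserving (fun x : κ → ℝ => x - (2 * dot v x / dot v v) • v) (gam κ) (gam κ) := by
  classical
  let W : κ → κ → ℝ := fun i j => (if i = j then 1 else 0) - 2 * v i * v j / dot v v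
  let W' : κ → κ → ℝ := fun i j => if i = j then 1 else 0
  have hcov : ∀ j k, ∑ i, W i j * W i k = ∑ i, W' i j * W' i k := by
    intro j k
    have e1 : ∀ i, W i j * W i k = W' i j * W' i k
        - (if i = j then 2 * v j * v k / dot v v else 0)
        - (if i = k then 2 * v j * v k / dot v v else 0)
        + 4 * v j * v k / (dot v v) ^ 2 * (v i * v i) := by
      intro i
      simp only [W, W']
      by_cases h1 : i = j
      · by_cases h2 : i = k
        · have h3 : j = k := h1.symm.trans h2
          subst h1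
          subst h3
          simp only [if_true]
          field_simp
          ring
        · subst h1
          simp only [if_true, if_neg h2]
          field_simp
          ring
      · by_cases h2 : i = k
        · subst h2
          simp only [if_true, if_neg h1]
          field_simp
          ring
        · simp only [if_neg h1, if_neg h2]
          field_simp
          ring
    rw [Finset.sum_congr rfl (fun i _ => e1 i), Finset.sum_add_distrib, Finset.sum_sub_distrib,
      Finset.sum_sub_distrib, ← Finset.mul_sum]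
    simp only [Finset.sum_ite_eq', Finset.mem_univ, if_true]
    have e2 : ∑ i, v i * v i = dot v v := rfl
    rw [e2]
    field_simp
    ring
  have hmap := map_lin_eq W W' hcov
  have hW : lin W = fun x : κ → ℝ => x - (2 * dot v x / dot v v) • v := by
    funext x
    funext j
    simp only [lin, Finset.sum_apply, Pi.smul_apply, smul_eq_mul, W, Pi.sub_apply, mul_sub,
      Finset.sum_sub_distrib, mul_ite, mul_one, mul_zero, Finset.sum_ite_eq', Finset.mem_univ,
      if_true]
    congr 1
    unfold dot
    rw [Finset.mul_sum, Finset.sum_div, Finset.sum_mul]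
    refine Finset.sum_congr rfl fun i _ => ?_
    ring
  have hW' : lin W' = (id : (κ → ℝ) → (κ → ℝ)) := by
    funext x
    funext j
    simp only [lin, Finset.sum_apply, Pi.smul_apply, smul_eq_mul, W', id_eq, mul_ite, mul_one,
      mul_zero, Finset.sum_ite_eq', Finset.mem_univ, if_true]
  rw [hW, hW', Measure.map_id] at hmap
  refine ⟨?_, hmap⟩
  rw [← hW]
  exact (Smx.continuous_lin W).measurable

/-- orthogonal directions are uncorrelated with functions of `xi` -/
theorem Moc_orth (u : Fin m → κ → ℝ) (v : κ → ℝ) (hv : ∀ j, dot (u j) v = 0)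
    (G : (Fin m → ℝ) → ℝ) (hG : Measurable G) :
    ∫ x, G (xi u x) * dot v x ∂(gam κ) = 0 := by
  by_cases h0 : dot v v = 0
  · have hv0 : ∀ i, v i = 0 := by
      intro i
      have h1 : ∑ i, v i * v i = 0 := h0
      rw [Finset.sum_eq_zero_iff_of_nonneg (fun i _ => mul_self_nonneg (v i))] at h1
      exact mul_self_eq_zero.1 (h1 i (Finset.mem_univ i))
    have h1 : ∀ x : κ → ℝ, dot v x = 0 := by
      intro x
      unfold dot
      exact Finset.sum_eq_zero fun i _ => by rw [hv0 i, zero_mul]
    simp [h1]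
  · have hR := Moc_refl v h0
    have hmeas : Measurable (fun x : κ → ℝ => G (xi u x) * dot v x) :=
      (hG.comp (Moc_xi_meas u)).mul (Moc_dot_meas v)
    have h1 : ∫ x, G (xi u x) * dot v x ∂(gam κ)
        = ∫ x, G (xi u x) * (- dot v x) ∂(gam κ) := by
      conv_lhs => rw [← hR.map_eq]
      rw [integral_map hR.measurable.aemeasurable hmeas.aestronglyMeasurable]
      refine integral_congr_ae (Filter.Eventually.of_forall fun x => ?_)
      have e1 : xi u (x - (2 * dot v x / dot v v) • v) = xi u x := by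
        funext j
        show dot (u j) _ = dot (u j) x
        rw [Moc_dot_sub_smul, hv j, mul_zero, sub_zero]
      have e2 : dot v (x - (2 * dot v x / dot v v) • v) = - dot v x := by
        rw [Moc_dot_sub_smul]
        field_simp
        ring
      show G (xi u (x - (2 * dot v x / dot v v) • v)) * dot v (x - (2 * dot v x / dot v v) • v)
        = G (xi u x) * (- dot v x)
      rw [e1, e2]
    simp only [mul_neg, integral_neg] at h1
    linarith

theorem Moc_cell_bdd (u : Fin m → κ → ℝ) (j : Fin m) :
    ∃ B, ∀ x : κ → ℝ, |cellF j (xi u x)| ≤ B :=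
  ⟨1, fun x => by
    rw [abs_of_nonneg (cellF_nonneg j _)]
    exact cellF_le_one j _⟩

theorem Moc_cell_meas (u : Fin m → κ → ℝ) (j : Fin m) :
    Measurable (fun x : κ → ℝ => cellF j (xi u x)) :=
  (cellF_measurable j).comp (Moc_xi_meas u)

theorem mo_cell (hm : 2 ≤ m) (u : Fin m → κ → ℝ) (hu : Frame u) (j : Fin m) (i : κ) :
    mo (fun x => cellF j (xi u x)) i
      = am m * ∑ k, ((if j = k then 1 else 0) - 1 / (m : ℝ)) * u k i := by
  classical
  let v : κ → ℝ := fun l => (if l = i then 1 else 0) - ∑ k, u k i * u k l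
  have hv : ∀ l, dot (u l) v = 0 := by
    intro l
    unfold dot
    simp only [v, mul_sub, mul_ite, mul_one, mul_zero, Finset.sum_sub_distrib,
      Finset.sum_ite_eq', Finset.mem_univ, if_true]
    have e1 : ∑ x, u l x * ∑ k, u k i * u k x = ∑ k, u k i * dot (u l) (u k) := by
      simp only [Finset.mul_sum, dot]
      rw [Finset.sum_comm]
      refine Finset.sum_congr rfl fun k _ => Finset.sum_congr rfl fun x _ => ?_
      ring
    rw [e1]
    have e2 : ∀ k, u k i * dot (u l) (u k) = if l = k then u k i else 0 := by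
      intro k
      rw [hu l k]
      split_ifs
      · rw [mul_one]
      · rw [mul_zero]
    rw [Finset.sum_congr rfl (fun k _ => e2 k)]
    simp
  have hx : ∀ x : κ → ℝ, x i = ∑ k, u k i * xi u x k + dot v x := by
    intro x
    have e1 : dot v x = x i - ∑ k, u k i * dot (u k) x := by
      unfold dot
      simp only [v, sub_mul, ite_mul, one_mul, zero_mul, Finset.sum_sub_distrib,
        Finset.sum_ite_eq', Finset.mem_univ, if_true]
      congr 1
      simp only [Finset.sum_mul, Finset.mul_sum]
      rw [Finset.sum_comm]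
      refine Finset.sum_congr rfl fun k _ => Finset.sum_congr rfl fun y _ => ?_
      ring
    rw [e1]
    show x i = ∑ k, u k i * dot (u k) x + (x i - ∑ k, u k i * dot (u k) x)
    ring
  have hP := measurePreserving_xi u hu
  have hk : ∀ k, ∫ x, cellF j (xi u x) * xi u x k ∂(gam κ)
      = am m * ((if j = k then 1 else 0) - 1 / (m : ℝ)) := by
    intro k
    rw [← cellF_moment hm j k]
    have hmeas : Measurable (fun y : Fin m → ℝ => cellF j y * y k) :=
      (cellF_measurable j).mul (measurable_pi_apply k)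
    conv_rhs => rw [← hP.map_eq]
    rw [integral_map hP.measurable.aemeasurable hmeas.aestronglyMeasurable]
  have hi : ∀ k, Integrable (fun x => cellF j (xi u x) * xi u x k) (gam κ) := fun k =>
    Moc_int_mul (Moc_cell_meas u j) (Moc_cell_bdd u j) (Moc_int_dot (u k))
  unfold mo
  have e1 : ∀ x : κ → ℝ, cellF j (xi u x) * x i
      = ∑ k, u k i * (cellF j (xi u x) * xi u x k) + cellF j (xi u x) * dot v x := by
    intro x
    rw [hx x, mul_add, Finset.mul_sum]
    congr 1
    refine Finset.sum_congr rfl fun k _ => ?_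
    ring
  simp_rw [e1]
  rw [integral_add (integrable_finsetSum _ fun k _ => (hi k).const_mul (u k i))
    (Moc_int_mul (Moc_cell_meas u j) (Moc_cell_bdd u j) (Moc_int_dot v)),
    Moc_orth u v hv (cellF j) (cellF_measurable j), add_zero,
    integral_finsetSum _ (fun k _ => (hi k).const_mul (u k i)), Finset.mul_sum]
  refine Finset.sum_congr rfl fun k _ => ?_
  rw [integral_const_mul, hk k]
  ring

theorem Moc_f_bdd {f : (κ → ℝ) → Fin m → ℝ} (hf : Pt f) (j : Fin m) :
    ∃ B, ∀ x : κ → ℝ, |f x j| ≤ B := by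
  refine ⟨1, fun x => ?_⟩
  have h := hf.simp x
  have h0 : 0 ≤ f x j := h.1 j
  rw [abs_of_nonneg h0]
  have h1 : f x j ≤ ∑ l, f x l :=
    Finset.single_le_sum (f := fun l => f x l) (fun l _ => h.1 l) (Finset.mem_univ j)
  rw [h.2] at h1
  exact h1

theorem Moc_mo_dev (hm : 2 ≤ m) (u : Fin m → κ → ℝ) (hu : Frame u) (f : (κ → ℝ) → Fin m → ℝ)
    (hf : Pt f) (H : Fin m → Fin m → ℝ)
    (hz : ∀ j i, mo (fun x => f x j) i
      = am m * ∑ k, ((if j = k then 1 else 0) + H j k - 1 / (m : ℝ)) * u k i) (j : Fin m) (i : κ) :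
    mo (dev u f j) i = am m * ∑ k, H j k * u k i := by
  have h1 : mo (dev u f j) i = mo (fun x => f x j) i - mo (fun x => cellF j (xi u x)) i := by
    unfold mo dev
    rw [← integral_sub (Moc_int_mul (hf.meas j) (Moc_f_bdd hf j) (emx_int_coord i))
      (Moc_int_mul (Moc_cell_meas u j) (Moc_cell_bdd u j) (emx_int_coord i))]
    refine integral_congr_ae (Filter.Eventually.of_forall fun x => ?_)
    show (f x j - cellF j (xi u x)) * x i = f x j * x i - cellF j (xi u x) * x i
    ring
  rw [h1, hz j i, mo_cell hm u hu j i, ← mul_sub, ← Finset.sum_sub_distrib]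
  congr 1
  refine Finset.sum_congr rfl fun k _ => ?_
  ring

theorem Moc_frame_sum (u : Fin m → κ → ℝ) (hu : Frame u) (c : Fin m → ℝ) (k : Fin m) :
    ∑ i, u k i * ∑ l, c l * u l i = c k := by
  classical
  have e1 : ∑ i, u k i * ∑ l, c l * u l i = ∑ l, c l * dot (u k) (u l) := by
    simp only [Finset.mul_sum, dot]
    rw [Finset.sum_comm]
    refine Finset.sum_congr rfl fun l _ => Finset.sum_congr rfl fun x _ => ?_
    ring
  rw [e1]
  have e2 : ∀ l, c l * dot (u k) (u l) = if k = l then c l else 0 := by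
    intro l
    rw [hu k l]
    split_ifs
    · rw [mul_one]
    · rw [mul_zero]
  rw [Finset.sum_congr rfl (fun l _ => e2 l)]
  simp

theorem mo_dev_sq (hm : 2 ≤ m) (u : Fin m → κ → ℝ) (hu : Frame u) (f : (κ → ℝ) → Fin m → ℝ)
    (hf : Pt f) (H : Fin m → Fin m → ℝ)
    (hz : ∀ j i, mo (fun x => f x j) i
      = am m * ∑ k, ((if j = k then 1 else 0) + H j k - 1 / (m : ℝ)) * u k i) :
    ∑ j, ∑ i, mo (dev u f j) i ^ 2 = am m ^ 2 * fs H := by
  unfold fs
  rw [Finset.mul_sum]
  refine Finset.sum_congr rfl fun j _ => ?_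
  have e1 : ∀ i, mo (dev u f j) i ^ 2
      = am m ^ 2 * ∑ k, H j k * (u k i * ∑ l, H j l * u l i) := by
    intro i
    rw [Moc_mo_dev hm u hu f hf H hz j i, mul_pow, sq (∑ k, H j k * u k i), Finset.sum_mul]
    congr 1
    refine Finset.sum_congr rfl fun k _ => ?_
    ring
  rw [Finset.sum_congr rfl (fun i _ => e1 i), ← Finset.mul_sum, Finset.sum_comm]
  congr 1
  refine Finset.sum_congr rfl fun k _ => ?_
  rw [← Finset.mul_sum, Moc_frame_sum u hu (H j) k]
  ring

/-- `E dev_j ξ_k = a H_jk`. -/
theorem int_dev_xi (hm : 2 ≤ m) (u : Fin m → κ → ℝ) (hu : Frame u) (f : (κ → ℝ) → Fin m → ℝ)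
    (hf : Pt f) (H : Fin m → Fin m → ℝ)
    (hz : ∀ j i, mo (fun x => f x j) i
      = am m * ∑ k, ((if j = k then 1 else 0) + H j k - 1 / (m : ℝ)) * u k i) (j k : Fin m) :
    ∫ x, dev u f j x * xi u x k ∂(gam κ) = am m * H j k := by
  have hdm : Measurable (dev u f j) := (hf.meas j).sub (Moc_cell_meas u j)
  have hdb : ∃ B, ∀ x, |dev u f j x| ≤ B := by
    obtain ⟨B, hB⟩ := Moc_f_bdd hf j
    obtain ⟨C, hC⟩ := Moc_cell_bdd u j
    refine ⟨B + C, fun x => ?_⟩
    exact (abs_sub _ _).trans (add_le_add (hB x) (hC x))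
  have e1 : ∀ x : κ → ℝ, dev u f j x * xi u x k = ∑ i, u k i * (dev u f j x * x i) := by
    intro x
    show dev u f j x * ∑ i, u k i * x i = _
    rw [Finset.mul_sum]
    refine Finset.sum_congr rfl fun i _ => ?_
    ring
  simp_rw [e1]
  rw [integral_finsetSum _ (fun i _ => (Moc_int_mul hdm hdb (emx_int_coord i)).const_mul (u k i))]
  have e2 : ∀ i, ∫ x, u k i * (dev u f j x * x i) ∂(gam κ)
      = am m * (u k i * ∑ l, H j l * u l i) := by
    intro i
    rw [integral_const_mul]
    have : ∫ x, dev u f j x * x i ∂(gam κ) = mo (dev u f j) i := rfl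
    rw [this, Moc_mo_dev hm u hu f hf H hz j i]
    ring
  rw [Finset.sum_congr rfl (fun i _ => e2 i), ← Finset.mul_sum, Moc_frame_sum u hu (H j) k]

end moc

end Pool.H65.PT
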