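import Pool.Agent.Helper65.PT.Defs
import Pool.Agent.Helper65.PT.Law

set_option autoImplicit false

open MeasureTheory ProbabilityTheory Pool.H65.PS

namespace Pool.H65.PT

theorem Tia_cs {α : Type} [MeasurableSpace α] {μ : Measure α} {f g : α → ℝ} (hf : MemLp f 2 μ)
    (hg : MemLp g 2 μ) (hf0 : ∀ x, 0 ≤ f x) (hg0 : ∀ x, 0 ≤ g x) :
    ∫ x, f x * g x ∂μ ≤ Real.sqrt (∫ x, f x ^ 2 ∂μ) * Real.sqrt (∫ x, g x ^ 2 ∂μ) := by
  have h2 : ENNReal.ofReal (2 : ℝ) = 2 := by norm_num
  have := integral_mul_le_Lp_mul_Lq_of_nonneg (μ := μ) (p := 2) (q := 2) (f := f) (g := g)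
    (by constructor <;> norm_num) (Filter.Eventually.of_forall hf0) (Filter.Eventually.of_forall hg0)
    (by rw [h2]; exact hf) (by rw [h2]; exact hg)
  simp only [Real.rpow_two] at this
  rwa [Real.sqrt_eq_rpow, Real.sqrt_eq_rpow]

theorem Tia_pdf (s : ℝ) (h0 : 0 ≤ s) (h1 : s ≤ 1) : 1 / 10 ≤ gaussianPDFReal 0 1 s := by
  have e1 : gaussianPDFReal 0 1 s = (Real.sqrt (2 * Real.pi))⁻¹ * Real.exp (-(s ^ 2) / 2) := by
    simp [gaussianPDFReal]
  rw [e1]
  have h3 : Real.sqrt (2 * Real.pi) ≤ 3 := by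
    rw [Real.sqrt_le_left (by norm_num)]
    have := Real.pi_lt_d2
    norm_num
    linarith
  have h4 : 0 < Real.sqrt (2 * Real.pi) := Real.sqrt_pos.2 (by positivity)
  have h5 : 1 / 3 ≤ (Real.sqrt (2 * Real.pi))⁻¹ := by
    rw [one_div]
    exact inv_anti₀ h4 h3
  have h6 : 1 / 2 ≤ Real.exp (-(s ^ 2) / 2) := by
    have := Real.add_one_le_exp (-(s ^ 2) / 2)
    nlinarith
  calc (1 : ℝ) / 10 ≤ 1 / 3 * (1 / 2) := by norm_num
    _ ≤ _ := mul_le_mul h5 h6 (by norm_num) (by positivity)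

theorem Tia_pdf_le (s : ℝ) : gaussianPDFReal 0 1 s ≤ 1 := by
  have e1 : gaussianPDFReal 0 1 s = (Real.sqrt (2 * Real.pi))⁻¹ * Real.exp (-(s ^ 2) / 2) := by
    simp [gaussianPDFReal]
  rw [e1]
  have h3 : 1 ≤ Real.sqrt (2 * Real.pi) := by
    rw [Real.one_le_sqrt]
    have := Real.pi_gt_three
    linarith
  have h5 : (Real.sqrt (2 * Real.pi))⁻¹ ≤ 1 := inv_le_one_of_one_le₀ h3
  have h6 : Real.exp (-(s ^ 2) / 2) ≤ 1 := Real.exp_le_one_iff.2 (by nlinarith [sq_nonneg s])
  exact mul_le_one₀ h5 (Real.exp_pos _).le h6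

theorem Tia_vol {F : ℝ → ℝ} (hi : Integrable F (gaussianReal 0 1)) :
    Integrable (fun s => gaussianPDFReal 0 1 s * F s) := by
  rw [gaussianReal_of_var_ne_zero 0 one_ne_zero,
    integrable_withDensity_iff_integrable_smul' (measurable_gaussianPDF 0 1)
      (Filter.Eventually.of_forall fun _ => ENNReal.ofReal_lt_top)] at hi
  simpa [gaussianPDF, ENNReal.toReal_ofReal (gaussianPDFReal_nonneg _ _ _), smul_eq_mul] using hi

theorem Tia_int01 {F : ℝ → ℝ} (hF : Continuous F) (h0 : ∀ s, 0 ≤ F s)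
    (hi : Integrable F (gaussianReal 0 1)) :
    ∫ s in (0 : ℝ)..1, F s ≤ 10 * ∫ s, F s ∂(gaussianReal 0 1) := by
  rw [intervalIntegral.integral_of_le zero_le_one,
    integral_gaussianReal_eq_integral_smul one_ne_zero, ← integral_const_mul]
  have hv := (Tia_vol hi).const_mul 10
  calc ∫ s in Set.Ioc (0 : ℝ) 1, F s
      ≤ ∫ s in Set.Ioc (0 : ℝ) 1, 10 * (gaussianPDFReal 0 1 s * F s) := by
        refine setIntegral_mono_on ?_ hv.integrableOn measurableSet_Ioc fun s hs => ?_
        · exact (hF.integrableOn_Icc (a := 0) (b := 1)).mono_set Set.Ioc_subset_Icc_self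
        · have := Tia_pdf s hs.1.le hs.2
          nlinarith [h0 s]
    _ ≤ ∫ s, 10 * (gaussianPDFReal 0 1 s * F s) := by
        refine setIntegral_le_integral hv (Filter.Eventually.of_forall fun s => ?_)
        have := h0 s
        have := gaussianPDFReal_nonneg 0 1 s
        simp only [Pi.zero_apply]
        positivity
    _ = _ := by simp only [smul_eq_mul]

theorem Tia_sup {g g' : ℝ → ℝ} (hg : ∀ s, HasDerivAt g (g' s) s) (hg' : Continuous g')
    (h2 : Integrable (fun s => g s ^ 2 + g' s ^ 2) (gaussianReal 0 1)) (s : ℝ) (h0 : 0 ≤ s)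
    (h1 : s ≤ 1) : g s ^ 2 ≤ 20 * ∫ s, (g s ^ 2 + g' s ^ 2) ∂(gaussianReal 0 1) := by
  have hgc : Continuous g := continuous_iff_continuousAt.2 fun s => (hg s).continuousAt
  have hF : Continuous (fun s => g s ^ 2 + g' s ^ 2) := by fun_prop
  have hJ := Tia_int01 hF (fun s => by positivity) h2
  set K : ℝ → ℝ := fun s => ∫ t in (0 : ℝ)..s, (g t ^ 2 + g' t ^ 2) with hK
  have dK : ∀ s, HasDerivAt K (g s ^ 2 + g' s ^ 2) s := fun s =>
    intervalIntegral.integral_hasDerivAt_right (hF.intervalIntegrable _ _)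
      hF.aestronglyMeasurable.stronglyMeasurableAtFilter hF.continuousAt
  have mK : Monotone K := monotone_of_hasDerivAt_nonneg dK fun s => by positivity
  have K0 : K 0 = 0 := by simp [hK]
  have d2 : ∀ s, HasDerivAt (fun s => g s ^ 2) (2 * g s * g' s) s := fun s => by
    simpa using (hg s).fun_pow 2
  have m1 : Antitone (fun s => g s ^ 2 - K s) :=
    antitone_of_hasDerivAt_nonpos (fun s => (d2 s).sub (dK s)) fun s => by
      simp only [Pi.zero_apply]
      nlinarith [sq_nonneg (g s - g' s)]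
  have m2 : Monotone (fun s => g s ^ 2 + K s) :=
    monotone_of_hasDerivAt_nonneg (fun s => (d2 s).add (dK s)) fun s => by
      simp only [Pi.zero_apply]
      nlinarith [sq_nonneg (g s + g' s)]
  have key : ∀ t ∈ Set.Icc (0 : ℝ) 1, g s ^ 2 - K 1 ≤ g t ^ 2 := by
    intro t ht
    have a1 := mK h0
    have a2 := mK h1
    have a3 := mK ht.1
    have a4 := mK ht.2
    rcases le_total t s with h | h
    · have := m1 h
      simp only at this
      linarith
    · have := m2 h
      simp only at this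
      linarith
  have h3 : g s ^ 2 - K 1 ≤ ∫ t in (0 : ℝ)..1, g t ^ 2 := by
    have := intervalIntegral.integral_mono_on (μ := volume) (a := 0) (b := 1) zero_le_one
      (f := fun _ => g s ^ 2 - K 1) (g := fun t => g t ^ 2) (continuous_const.intervalIntegrable _ _)
      ((hgc.pow 2).intervalIntegrable _ _) key
    simpa using this
  have h4 : ∫ t in (0 : ℝ)..1, g t ^ 2 ≤ K 1 := by
    refine intervalIntegral.integral_mono_on zero_le_one ((hgc.pow 2).intervalIntegrable _ _)
      (hF.intervalIntegrable _ _) fun t _ => ?_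
    nlinarith [sq_nonneg (g' t)]
  have h5 : K 1 ≤ 10 * ∫ s, (g s ^ 2 + g' s ^ 2) ∂(gaussianReal 0 1) := hJ
  linarith

theorem Tia_Ioc (a : ℝ) (ha : 0 ≤ a) : (gaussianReal 0 1).real (Set.Ioc 0 a) ≤ a := by
  rw [measureReal_def, gaussianReal_apply_eq_integral 0 one_ne_zero,
    ENNReal.toReal_ofReal (integral_nonneg fun x => gaussianPDFReal_nonneg _ _ _)]
  calc ∫ x in Set.Ioc 0 a, gaussianPDFReal 0 1 x ≤ ∫ x in Set.Ioc 0 a, (1 : ℝ) := by
        refine setIntegral_mono (integrable_gaussianPDFReal 0 1).integrableOn ?_ fun x =>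
          Tia_pdf_le x
        exact integrableOn_const (measure_Ioc_lt_top.ne)
    _ = a := by simp [ha]

theorem ti_one (q g g' : ℝ → ℝ) (hq : Measurable q) (hq0 : ∀ s, 0 ≤ q s) (hq1 : ∀ s, q s ≤ 1)
    (hqs : ∀ s, s ≤ 0 → q s = 0) (hg : ∀ s, HasDerivAt g (g' s) s) (hg' : Continuous g')
    (h2 : Integrable (fun s => g s ^ 2 + g' s ^ 2) (gaussianReal 0 1)) :
    ∫ s, q s * |g s| ∂(gaussianReal 0 1)
      ≤ 10 * Real.sqrt (∫ s, q s * min 1 s ∂(gaussianReal 0 1))
        * Real.sqrt (∫ s, (g s ^ 2 + g' s ^ 2) ∂(gaussianReal 0 1)) := by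
  have hgc : Continuous g := continuous_iff_continuousAt.2 fun s => (hg s).continuousAt
  have hsup := Tia_sup hg hg' h2
  set I := ∫ s, (g s ^ 2 + g' s ^ 2) ∂(gaussianReal 0 1) with hI
  set T := ∫ s, q s * min 1 s ∂(gaussianReal 0 1) with hT
  have hqm : ∀ s, 0 ≤ q s * min 1 s ∧ q s * min 1 s ≤ 1 := by
    intro s
    rcases le_total s 0 with h | h
    · rw [hqs s h]; simp
    · have h1 : 0 ≤ min 1 s := le_min zero_le_one h
      exact ⟨mul_nonneg (hq0 s) h1, mul_le_one₀ (hq1 s) h1 (min_le_left _ _)⟩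
  have mqm : Measurable (fun s => q s * min 1 s) := hq.mul (by fun_prop)
  have iqm : Integrable (fun s => q s * min 1 s) (gaussianReal 0 1) :=
    Integrable.of_bound mqm.aestronglyMeasurable 1 (Filter.Eventually.of_forall fun s => by
      rw [Real.norm_eq_abs, abs_of_nonneg (hqm s).1]; exact (hqm s).2)
  have hI0 : 0 ≤ I := integral_nonneg fun s => by positivity
  have hT0 : 0 ≤ T := integral_nonneg fun s => (hqm s).1
  have hT1 : T ≤ 1 := by
    calc T ≤ ∫ s, (1 : ℝ) ∂(gaussianReal 0 1) := integral_mono iqm (integrable_const _)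
          fun s => (hqm s).2
      _ = 1 := by simp
  -- square integrability
  have ig2 : Integrable (fun s => g s ^ 2) (gaussianReal 0 1) :=
    h2.mono' (by fun_prop) (Filter.Eventually.of_forall fun s => by
      rw [Real.norm_eq_abs, abs_of_nonneg (sq_nonneg _)]
      nlinarith [sq_nonneg (g' s)])
  have mg : MemLp (fun s => |g s|) 2 (gaussianReal 0 1) :=
    (memLp_two_iff_integrable_sq (by fun_prop)).2 (by simpa using ig2)
  -- the two pieces
  set q1 : ℝ → ℝ := fun s => if s ≤ 1 then q s else 0 with hq1d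
  set q2 : ℝ → ℝ := fun s => if s ≤ 1 then 0 else q s with hq2d
  have mq1 : Measurable q1 := Measurable.ite measurableSet_Iic hq measurable_const
  have mq2 : Measurable q2 := Measurable.ite measurableSet_Iic measurable_const hq
  have q1b : ∀ s, 0 ≤ q1 s ∧ q1 s ≤ 1 := fun s => by
    simp only [hq1d]; split_ifs
    · exact ⟨hq0 s, hq1 s⟩
    · exact ⟨le_rfl, zero_le_one⟩
  have q2b : ∀ s, 0 ≤ q2 s ∧ q2 s ≤ 1 := fun s => by
    simp only [hq2d]; split_ifs
    · exact ⟨le_rfl, zero_le_one⟩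
    · exact ⟨hq0 s, hq1 s⟩
  have hsplit : ∀ s, q s * |g s| = q1 s * |g s| + q2 s * |g s| := fun s => by
    simp only [hq1d, hq2d]; split_ifs <;> ring
  have iq1 : Integrable q1 (gaussianReal 0 1) :=
    Integrable.of_bound mq1.aestronglyMeasurable 1 (Filter.Eventually.of_forall fun s => by
      rw [Real.norm_eq_abs, abs_of_nonneg (q1b s).1]; exact (q1b s).2)
  have ml2 : ∀ {r : ℝ → ℝ}, Measurable r → (∀ s, 0 ≤ r s ∧ r s ≤ 1) →
      MemLp r 2 (gaussianReal 0 1) := fun hr hb =>
    MemLp.of_bound hr.aestronglyMeasurable 1 (Filter.Eventually.of_forall fun s => by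
      rw [Real.norm_eq_abs, abs_of_nonneg (hb s).1]; exact (hb s).2)
  have i1 : Integrable (fun s => q1 s * |g s|) (gaussianReal 0 1) :=
    (ml2 mq1 q1b).integrable_mul mg
  have i2 : Integrable (fun s => q2 s * |g s|) (gaussianReal 0 1) :=
    (ml2 mq2 q2b).integrable_mul mg
  have e0 : ∫ s, q s * |g s| ∂(gaussianReal 0 1) =
      (∫ s, q1 s * |g s| ∂(gaussianReal 0 1)) + ∫ s, q2 s * |g s| ∂(gaussianReal 0 1) := by
    rw [← integral_add i1 i2]
    exact integral_congr_ae (Filter.Eventually.of_forall hsplit)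
  -- far piece
  have b2 : ∫ s, q2 s * |g s| ∂(gaussianReal 0 1) ≤ Real.sqrt T * Real.sqrt I := by
    refine (Tia_cs (ml2 mq2 q2b) mg (fun s => (q2b s).1) fun s => abs_nonneg _).trans ?_
    refine mul_le_mul (Real.sqrt_le_sqrt ?_) (Real.sqrt_le_sqrt ?_) (Real.sqrt_nonneg _)
      (Real.sqrt_nonneg _)
    · refine integral_mono_of_nonneg (Filter.Eventually.of_forall fun s => sq_nonneg _) iqm
        (Filter.Eventually.of_forall fun s => ?_)
      change q2 s ^ 2 ≤ q s * min 1 s
      by_cases h : s ≤ 1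
      · have : q2 s = 0 := by simp [hq2d, h]
        rw [this]
        simpa using (hqm s).1
      · have : q2 s = q s := by simp [hq2d, h]
        rw [this, min_eq_left (not_le.1 h).le]
        nlinarith [hq0 s, hq1 s]
    · refine integral_mono_of_nonneg (Filter.Eventually.of_forall fun s => sq_nonneg _) h2
        (Filter.Eventually.of_forall fun s => ?_)
      change |g s| ^ 2 ≤ g s ^ 2 + g' s ^ 2
      rw [sq_abs]
      nlinarith [sq_nonneg (g' s)]
  -- near piece
  have b1 : ∫ s, q1 s * |g s| ∂(gaussianReal 0 1) ≤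
      (∫ s, q1 s ∂(gaussianReal 0 1)) * Real.sqrt (20 * I) := by
    rw [← integral_mul_const]
    refine integral_mono i1 (iq1.mul_const _) fun s => ?_
    by_cases h : 0 < s ∧ s ≤ 1
    · refine mul_le_mul_of_nonneg_left ?_ (q1b s).1
      exact Real.abs_le_sqrt (hsup s h.1.le h.2)
    · have : q1 s = 0 := by
        simp only [hq1d]
        split_ifs with h1
        · refine hqs s ?_
          by_contra h3
          exact h ⟨not_le.1 h3, h1⟩
        · rfl
      simp only [this, zero_mul, le_refl]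
  have hA : ∀ a : ℝ, 0 < a → a ≤ 1 → ∫ s, q1 s ∂(gaussianReal 0 1) ≤ a + T / a := by
    intro a ha ha1
    have h3 : ∫ s, q1 s ∂(gaussianReal 0 1) ≤
        ∫ s, ((Set.Ioc 0 a).indicator (fun _ => (1 : ℝ)) s + a⁻¹ * (q s * min 1 s))
          ∂(gaussianReal 0 1) := by
      refine integral_mono iq1 (((integrable_const (1 : ℝ)).indicator measurableSet_Ioc).add
        (iqm.const_mul _)) fun s => ?_
      have h6 : 0 ≤ a⁻¹ * (q s * min 1 s) := mul_nonneg (inv_nonneg.2 ha.le) (hqm s).1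
      by_cases h : s ∈ Set.Ioc 0 a
      · simp only [Set.indicator_of_mem h]
        linarith [(q1b s).2]
      · simp only [Set.indicator_of_notMem h, zero_add]
        by_cases h4 : 0 < s ∧ s ≤ 1
        · have h5 : a < s := by
            by_contra h7
            exact h ⟨h4.1, not_lt.1 h7⟩
          have e1 : q1 s = q s := by simp [hq1d, h4.2]
          rw [e1, min_eq_right h4.2]
          have h8 : 1 ≤ a⁻¹ * s := by
            rw [← div_eq_inv_mul, one_le_div ha]
            exact h5.le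
          nlinarith [hq0 s]
        · have : q1 s = 0 := by
            simp only [hq1d]
            split_ifs with h1
            · refine hqs s ?_
              by_contra h3
              exact h4 ⟨not_le.1 h3, h1⟩
            · rfl
          rw [this]
          exact h6
    refine h3.trans ?_
    rw [integral_add ((integrable_const (1 : ℝ)).indicator measurableSet_Ioc) (iqm.const_mul _),
      integral_const_mul, integral_indicator measurableSet_Ioc]
    have h9 : ∫ x in Set.Ioc 0 a, (1 : ℝ) ∂(gaussianReal 0 1) ≤ a := by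
      have := Tia_Ioc a ha.le
      simpa using this
    rw [div_eq_inv_mul]
    linarith
  have hA2 : ∫ s, q1 s ∂(gaussianReal 0 1) ≤ 2 * Real.sqrt T := by
    rcases eq_or_lt_of_le hT0 with h | h
    · rw [← h]
      simp only [Real.sqrt_zero, mul_zero]
      refine le_of_forall_pos_le_add fun ε hε => ?_
      have := hA (min ε 1) (lt_min hε one_pos) (min_le_right _ _)
      rw [← h, zero_div, add_zero] at this
      linarith [min_le_left ε 1]
    · have h3 : 0 < Real.sqrt T := Real.sqrt_pos.2 h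
      have h4 : Real.sqrt T ≤ 1 := by
        rw [Real.sqrt_le_left zero_le_one]
        simpa using hT1
      have := hA _ h3 h4
      rw [Real.div_sqrt] at this
      linarith
  have h20 : Real.sqrt (20 * I) ≤ 9 / 2 * Real.sqrt I := by
    rw [Real.sqrt_mul (by norm_num)]
    refine mul_le_mul_of_nonneg_right ?_ (Real.sqrt_nonneg _)
    rw [Real.sqrt_le_left (by norm_num)]
    norm_num
  rw [e0]
  have s1 : 0 ≤ Real.sqrt T := Real.sqrt_nonneg _
  have s2 : 0 ≤ Real.sqrt I := Real.sqrt_nonneg _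
  calc (∫ s, q1 s * |g s| ∂(gaussianReal 0 1)) + ∫ s, q2 s * |g s| ∂(gaussianReal 0 1)
      ≤ 2 * Real.sqrt T * (9 / 2 * Real.sqrt I) + Real.sqrt T * Real.sqrt I := by
        refine add_le_add (b1.trans ?_) b2
        exact mul_le_mul hA2 h20 (Real.sqrt_nonneg _) (by positivity)
    _ = 10 * Real.sqrt T * Real.sqrt I := by ring

theorem ti_dir {κ : Type} [Fintype κ] (u : κ → ℝ) (hu : dot u u = 1) (q g g' : (κ → ℝ) → ℝ)
    (hq : Measurable q) (hq0 : ∀ x, 0 ≤ q x) (hq1 : ∀ x, q x ≤ 1) (hqs : ∀ x, dot u x ≤ 0 → q x = 0)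
    (hgc : Continuous g) (hg : ∀ x t, HasDerivAt (fun s : ℝ => g (x + s • u)) (g' (x + t • u)) t)
    (hg' : Continuous g') (h2 : Integrable (fun x => g x ^ 2 + g' x ^ 2) (gam κ)) :
    ∫ x, q x * |g x| ∂(gam κ) ≤ 10 * Real.sqrt (∫ x, q x * min 1 (dot u x) ∂(gam κ))
        * Real.sqrt (∫ x, (g x ^ 2 + g' x ^ 2) ∂(gam κ)) := by
  have mp := measurePreserving_line u hu
  set Ψ : (κ → ℝ) × ℝ → (κ → ℝ) := fun p => p.1 - dot u p.1 • u + p.2 • u with hΨ
  have dcont : Continuous (fun x : κ → ℝ => dot u x) := by unfold dot; fun_prop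
  have Ψc : Continuous Ψ := by
    have : Continuous fun p : (κ → ℝ) × ℝ => dot u p.1 := dcont.comp continuous_fst
    fun_prop
  have dΨ : ∀ x s, dot u (Ψ (x, s)) = s := by
    intro x s
    have e1 : dot u (Ψ (x, s)) = dot u x - dot u x * dot u u + s * dot u u := by
      simp only [hΨ, dot, Pi.add_apply, Pi.sub_apply, Pi.smul_apply, smul_eq_mul]
      rw [Finset.mul_sum, Finset.mul_sum, ← Finset.sum_sub_distrib, ← Finset.sum_add_distrib]
      exact Finset.sum_congr rfl fun i _ => by ring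
    rw [e1, hu]; ring
  have fub : ∀ F : (κ → ℝ) → ℝ, Integrable F (gam κ) →
      Integrable (fun p => F (Ψ p)) ((gam κ).prod (gaussianReal 0 1)) ∧
      ∫ x, F x ∂(gam κ) = ∫ x, (∫ s, F (Ψ (x, s)) ∂(gaussianReal 0 1)) ∂(gam κ) := by
    intro F hF
    have i1 : Integrable (fun p => F (Ψ p)) ((gam κ).prod (gaussianReal 0 1)) :=
      mp.integrable_comp_of_integrable hF
    refine ⟨i1, ?_⟩
    have e := integral_map mp.measurable.aemeasurable (f := F) (by rw [mp.map_eq]; exact hF.1)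
    rw [mp.map_eq] at e
    rw [e, integral_prod _ i1]
  have hqm : ∀ x, 0 ≤ q x * min 1 (dot u x) ∧ q x * min 1 (dot u x) ≤ 1 := by
    intro x
    rcases le_total (dot u x) 0 with h | h
    · rw [hqs x h]; simp
    · have h1 : 0 ≤ min 1 (dot u x) := le_min zero_le_one h
      exact ⟨mul_nonneg (hq0 x) h1, mul_le_one₀ (hq1 x) h1 (min_le_left _ _)⟩
  have iqm : Integrable (fun x => q x * min 1 (dot u x)) (gam κ) :=
    Integrable.of_bound (hq.mul (by fun_prop)).aestronglyMeasurable 1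
      (Filter.Eventually.of_forall fun s => by
        rw [Real.norm_eq_abs, abs_of_nonneg (hqm s).1]; exact (hqm s).2)
  have ig2 : Integrable (fun s => g s ^ 2) (gam κ) :=
    h2.mono' (by fun_prop) (Filter.Eventually.of_forall fun s => by
      rw [Real.norm_eq_abs, abs_of_nonneg (sq_nonneg _)]
      nlinarith [sq_nonneg (g' s)])
  have mg : MemLp (fun s => |g s|) 2 (gam κ) :=
    (memLp_two_iff_integrable_sq (by fun_prop)).2 (by simpa using ig2)
  have mq : MemLp q 2 (gam κ) :=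
    MemLp.of_bound hq.aestronglyMeasurable 1 (Filter.Eventually.of_forall fun s => by
      rw [Real.norm_eq_abs, abs_of_nonneg (hq0 s)]; exact hq1 s)
  have iqg : Integrable (fun x => q x * |g x|) (gam κ) := mq.integrable_mul mg
  obtain ⟨p1, f1⟩ := fub _ iqg
  obtain ⟨p2, f2⟩ := fub _ iqm
  obtain ⟨p3, f3⟩ := fub _ h2
  simp only [dΨ] at f2
  rw [f1, f2, f3]
  have j1 := p1.integral_prod_left
  have j2 := p2.integral_prod_left
  have j3 := p3.integral_prod_left
  simp only [dΨ] at j2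
  have n2 : ∀ x, 0 ≤ ∫ s, q (Ψ (x, s)) * min 1 s ∂(gaussianReal 0 1) := fun x =>
    integral_nonneg fun s => by
      have := (hqm (Ψ (x, s))).1
      rwa [dΨ] at this
  have n3 : ∀ x, 0 ≤ ∫ s, (g (Ψ (x, s)) ^ 2 + g' (Ψ (x, s)) ^ 2) ∂(gaussianReal 0 1) := fun x =>
    integral_nonneg fun s => by positivity
  have m2 : MemLp (fun x => Real.sqrt (∫ s, q (Ψ (x, s)) * min 1 s ∂(gaussianReal 0 1))) 2
      (gam κ) := by
    rw [memLp_two_iff_integrable_sq (Real.continuous_sqrt.comp_aestronglyMeasurable j2.1)]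
    simpa only [Real.sq_sqrt (n2 _)] using j2
  have m3 : MemLp (fun x => Real.sqrt (∫ s, (g (Ψ (x, s)) ^ 2 + g' (Ψ (x, s)) ^ 2)
      ∂(gaussianReal 0 1))) 2 (gam κ) := by
    rw [memLp_two_iff_integrable_sq (Real.continuous_sqrt.comp_aestronglyMeasurable j3.1)]
    simpa only [Real.sq_sqrt (n3 _)] using j3
  have hcs := Tia_cs m2 m3 (fun x => Real.sqrt_nonneg _) (fun x => Real.sqrt_nonneg _)
  simp only [Real.sq_sqrt (n2 _), Real.sq_sqrt (n3 _)] at hcs
  have hle : ∫ x, (∫ s, q (Ψ (x, s)) * |g (Ψ (x, s))| ∂(gaussianReal 0 1)) ∂(gam κ) ≤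
      ∫ x, 10 * (Real.sqrt (∫ s, q (Ψ (x, s)) * min 1 s ∂(gaussianReal 0 1)) *
        Real.sqrt (∫ s, (g (Ψ (x, s)) ^ 2 + g' (Ψ (x, s)) ^ 2) ∂(gaussianReal 0 1)))
        ∂(gam κ) := by
    refine integral_mono_ae j1 ((m2.integrable_mul m3).const_mul 10) ?_
    filter_upwards [p3.prod_right_ae] with x hx
    rw [← mul_assoc]
    refine ti_one (fun s => q (Ψ (x, s))) (fun s => g (Ψ (x, s))) (fun s => g' (Ψ (x, s)))
      (hq.comp (Ψc.comp (by fun_prop : Continuous fun s : ℝ => (x, s))).measurable)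
      (fun s => hq0 _) (fun s => hq1 _) (fun s hs => hqs _ (by rw [dΨ]; exact hs))
      (fun s => hg (x - dot u x • u) s)
      (hg'.comp (Ψc.comp (by fun_prop : Continuous fun s : ℝ => (x, s)))) hx
  refine hle.trans ?_
  rw [integral_const_mul, mul_assoc]
  exact mul_le_mul_of_nonneg_left hcs (by norm_num)

end Pool.H65.PT
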