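import Pool.Agent.Helper65.PT.Defs
import Pool.Agent.Helper65.PT.Tia
import Pool.Agent.Helper65.PT.Pmo

set_option autoImplicit false

open MeasureTheory ProbabilityTheory Pool.H65.PS

namespace Pool.H65.PT

theorem Tig_xi_cont {κ : Type} [Fintype κ] {m : ℕ} (u : Fin m → κ → ℝ) : Continuous (xi u) := by
  unfold xi dot
  fun_prop

theorem Tig_dot_smul_sub {κ : Type} [Fintype κ] (c : ℝ) (a b x : κ → ℝ) :
    dot (c • (a - b)) x = c * (dot a x - dot b x) := by
  unfold dot
  rw [← Finset.sum_sub_distrib, Finset.mul_sum]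
  refine Finset.sum_congr rfl fun i _ => ?_
  simp only [Pi.smul_apply, Pi.sub_apply, smul_eq_mul]
  ring

theorem Tig_dot_comm {κ : Type} [Fintype κ] (a b : κ → ℝ) : dot a b = dot b a := by
  unfold dot
  exact Finset.sum_congr rfl fun i _ => mul_comm _ _

theorem Tig_unit {κ : Type} [Fintype κ] {m : ℕ} (u : Fin m → κ → ℝ) (hu : Frame u)
    {l k : Fin m} (h : l ≠ k) :
    dot ((Real.sqrt 2)⁻¹ • (u l - u k)) ((Real.sqrt 2)⁻¹ • (u l - u k)) = 1 := by
  rw [Tig_dot_smul_sub, Tig_dot_comm (u l), Tig_dot_comm (u k), Tig_dot_smul_sub,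
    Tig_dot_smul_sub, hu l l, hu k k, hu k l, hu l k, if_pos rfl, if_pos rfl, if_neg h,
    if_neg (Ne.symm h)]
  have h2 : (Real.sqrt 2)⁻¹ * (Real.sqrt 2)⁻¹ = 1 / 2 := by
    rw [← mul_inv, Real.mul_self_sqrt (by norm_num)]
    norm_num
  calc (Real.sqrt 2)⁻¹ * ((Real.sqrt 2)⁻¹ * (1 - 0) - (Real.sqrt 2)⁻¹ * (0 - 1))
      = 2 * ((Real.sqrt 2)⁻¹ * (Real.sqrt 2)⁻¹) := by ring
    _ = 1 := by rw [h2]; norm_num

theorem Tig_gap_nonneg {m : ℕ} (ξ : Fin m → ℝ) (k : Fin m) : 0 ≤ gap ξ k := by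
  unfold gap
  have : ξ k ≤ ⨆ l, ξ l := le_ciSup (Set.finite_range ξ).bddAbove k
  linarith

theorem Tig_gap_ge {m : ℕ} (ξ : Fin m → ℝ) (l k : Fin m) : ξ l - ξ k ≤ gap ξ k := by
  unfold gap
  have : ξ l ≤ ⨆ l, ξ l := le_ciSup (Set.finite_range ξ).bddAbove l
  linarith

theorem Tig_gap_meas {m : ℕ} (k : Fin m) : Measurable (fun ξ : Fin m → ℝ => gap ξ k) := by
  unfold gap
  exact (Measurable.iSup fun l => measurable_pi_apply l).sub (measurable_pi_apply k)

/-- the transported mass -/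
theorem Tig_pair {κ : Type} [Fintype κ] {m : ℕ} (u : Fin m → κ → ℝ) (hu : Frame u)
    (f : (κ → ℝ) → Fin m → ℝ) (hf : Pt f) (g : (κ → ℝ) → ℝ) (hgc : Continuous g) (I : ℝ)
    {l k : Fin m} (hlk : l ≠ k) (hg : ∃ g' : (κ → ℝ) → ℝ, Continuous g' ∧
      (∀ x t, HasDerivAt (fun s : ℝ => g (x + s • ((Real.sqrt 2)⁻¹ • (u l - u k))))
        (g' (x + t • ((Real.sqrt 2)⁻¹ • (u l - u k)))) t) ∧
      Integrable (fun x => g x ^ 2 + g' x ^ 2) (gam κ) ∧
      ∫ x, (g x ^ 2 + g' x ^ 2) ∂(gam κ) ≤ I) :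
    Integrable (fun x => cellF l (xi u x) * f x k * |g x|) (gam κ) ∧
    ∫ x, cellF l (xi u x) * f x k * |g x| ∂(gam κ) ≤
      10 * Real.sqrt (cost u f) * Real.sqrt I := by
  obtain ⟨g', hg'c, hder, hint, hI⟩ := hg
  set v : κ → ℝ := (Real.sqrt 2)⁻¹ • (u l - u k) with hv
  set q : (κ → ℝ) → ℝ := fun x => cellF l (xi u x) * f x k with hq
  have f0 : ∀ x i, 0 ≤ f x i := fun x i => (hf.simp x).1 i
  have f1 : ∀ x i, f x i ≤ 1 := fun x i => by
    rw [← (hf.simp x).2]
    exact Finset.single_le_sum (f := fun i => f x i) (fun i _ => f0 x i) (Finset.mem_univ i)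
  have xim : Measurable (xi u) := (Tig_xi_cont u).measurable
  have qm : Measurable q := ((cellF_measurable l).comp xim).mul (hf.meas k)
  have q0 : ∀ x, 0 ≤ q x := fun x => mul_nonneg (cellF_nonneg _ _) (f0 x k)
  have q1 : ∀ x, q x ≤ 1 := fun x => mul_le_one₀ (cellF_le_one _ _) (f0 x k) (f1 x k)
  have hdot : ∀ x, dot v x = (Real.sqrt 2)⁻¹ * (xi u x l - xi u x k) := fun x =>
    Tig_dot_smul_sub _ _ _ _
  have hs0 : 0 < (Real.sqrt 2)⁻¹ := by positivity
  have hs1 : (Real.sqrt 2)⁻¹ ≤ 1 := by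
    apply inv_le_one_of_one_le₀
    rw [Real.one_le_sqrt]
    norm_num
  have qs : ∀ x, dot v x ≤ 0 → q x = 0 := by
    intro x hx
    show cellF l (xi u x) * f x k = 0
    have h1 : xi u x l - xi u x k ≤ 0 := by
      rw [hdot] at hx
      by_contra hcon
      have := mul_pos hs0 (not_le.1 hcon)
      linarith
    have h2 : cellF l (xi u x) = 0 := by
      unfold cellF
      rw [if_neg]
      intro hall
      have := hall k (Ne.symm hlk)
      linarith
    rw [h2, zero_mul]
  have main := ti_dir v (Tig_unit u hu hlk) q g g' qm q0 q1 qs hgc hder hg'c hint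
  have ig2 : Integrable (fun s => g s ^ 2) (gam κ) :=
    hint.mono' (by fun_prop) (Filter.Eventually.of_forall fun s => by
      rw [Real.norm_eq_abs, abs_of_nonneg (sq_nonneg _)]
      nlinarith [sq_nonneg (g' s)])
  have mg : MemLp (fun s => |g s|) 2 (gam κ) :=
    (memLp_two_iff_integrable_sq (by fun_prop)).2 (by simpa using ig2)
  have mq : MemLp q 2 (gam κ) :=
    MemLp.of_bound qm.aestronglyMeasurable 1 (Filter.Eventually.of_forall fun s => by
      rw [Real.norm_eq_abs, abs_of_nonneg (q0 s)]; exact q1 s)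
  refine ⟨mq.integrable_mul mg, main.trans ?_⟩
  have hterm : ∀ x i, 0 ≤ f x i * min 1 (gap (xi u x) i) ∧
      f x i * min 1 (gap (xi u x) i) ≤ 1 := fun x i => by
    have h1 : 0 ≤ min 1 (gap (xi u x) i) := le_min zero_le_one (Tig_gap_nonneg _ _)
    exact ⟨mul_nonneg (f0 x i) h1, mul_le_one₀ (f1 x i) h1 (min_le_left _ _)⟩
  have icost : Integrable (fun x => ∑ i, f x i * min 1 (gap (xi u x) i)) (gam κ) := by
    apply integrable_finsetSum
    intro i _
    refine Integrable.of_bound ?_ 1 (Filter.Eventually.of_forall fun x => by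
      rw [Real.norm_eq_abs, abs_of_nonneg (hterm x i).1]; exact (hterm x i).2)
    exact ((hf.meas i).mul (measurable_const.min ((Tig_gap_meas i).comp xim))).aestronglyMeasurable
  have hT : ∫ x, q x * min 1 (dot v x) ∂(gam κ) ≤ cost u f := by
    have hqm0 : ∀ x, 0 ≤ q x * min 1 (dot v x) := by
      intro x
      rcases le_total (dot v x) 0 with h | h
      · rw [qs x h]; simp
      · exact mul_nonneg (q0 x) (le_min zero_le_one h)
    refine integral_mono_of_nonneg (Filter.Eventually.of_forall hqm0) icost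
      (Filter.Eventually.of_forall fun x => ?_)
    show q x * min 1 (dot v x) ≤ ∑ i, f x i * min 1 (gap (xi u x) i)
    have h1 : q x * min 1 (dot v x) ≤ f x k * min 1 (gap (xi u x) k) := by
      rcases le_total (dot v x) 0 with h | h
      · rw [qs x h, zero_mul]
        exact (hterm x k).1
      · have h2 : dot v x ≤ gap (xi u x) k := by
          have h3 := Tig_gap_ge (xi u x) l k
          have h4 : 0 ≤ xi u x l - xi u x k := by
            rw [hdot] at h
            by_contra hcon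
            have := mul_neg_of_pos_of_neg hs0 (not_le.1 hcon)
            linarith
          rw [hdot]
          nlinarith
        have h5 : min 1 (dot v x) ≤ min 1 (gap (xi u x) k) := min_le_min le_rfl h2
        have h6 : 0 ≤ min 1 (dot v x) := le_min zero_le_one h
        have h7 : q x ≤ f x k := by
          show cellF l (xi u x) * f x k ≤ f x k
          have := mul_le_mul_of_nonneg_right (cellF_le_one l (xi u x)) (f0 x k)
          linarith
        exact mul_le_mul h7 h5 h6 (f0 x k)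
    exact h1.trans (Finset.single_le_sum (f := fun i => f x i * min 1 (gap (xi u x) i))
      (fun i _ => (hterm x i).1) (Finset.mem_univ k))
  have e1 := Real.sqrt_le_sqrt hT
  have e2 := Real.sqrt_le_sqrt hI
  have e3 := Real.sqrt_nonneg (∫ x, (g x ^ 2 + g' x ^ 2) ∂(gam κ))
  have e4 := Real.sqrt_nonneg (cost u f)
  exact mul_le_mul (mul_le_mul_of_nonneg_left e1 (by norm_num)) e2 e3 (by positivity)

theorem ti_dev {κ : Type} [Fintype κ] {m : ℕ} (u : Fin m → κ → ℝ) (hu : Frame u)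
    (f : (κ → ℝ) → Fin m → ℝ) (hf : Pt f) (g : (κ → ℝ) → ℝ) (hgc : Continuous g) (I : ℝ)
    (hg : ∀ l k : Fin m, l ≠ k → ∃ g' : (κ → ℝ) → ℝ, Continuous g' ∧
      (∀ x t, HasDerivAt (fun s : ℝ => g (x + s • ((Real.sqrt 2)⁻¹ • (u l - u k))))
        (g' (x + t • ((Real.sqrt 2)⁻¹ • (u l - u k)))) t) ∧
      Integrable (fun x => g x ^ 2 + g' x ^ 2) (gam κ) ∧
      ∫ x, (g x ^ 2 + g' x ^ 2) ∂(gam κ) ≤ I) (j : Fin m) :
    |∫ x, dev u f j x * g x ∂(gam κ)| ≤ 10 * (m : ℝ) ^ 2 * Real.sqrt (cost u f) * Real.sqrt I := by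
  classical
  have hm : 1 ≤ m := by
    have := j.isLt
    omega
  have f0 : ∀ x i, 0 ≤ f x i := fun x i => (hf.simp x).1 i
  set S : Finset (Fin m × Fin m) := Finset.univ.filter fun p => p.1 ≠ p.2 with hS
  have hS' : ∀ p ∈ S, p.1 ≠ p.2 := fun p hp => (Finset.mem_filter.1 hp).2
  have hpair : ∀ p ∈ S, Integrable (fun x => cellF p.1 (xi u x) * f x p.2 * |g x|) (gam κ) ∧
      ∫ x, cellF p.1 (xi u x) * f x p.2 * |g x| ∂(gam κ) ≤
      10 * Real.sqrt (cost u f) * Real.sqrt I := fun p hp =>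
    Tig_pair u hu f hf g hgc I (hS' p hp) (hg p.1 p.2 (hS' p hp))
  have hae : ∀ᵐ x ∂(gam κ), ∑ l, cellF l (xi u x) = 1 :=
    (measurePreserving_xi u hu).quasiMeasurePreserving.ae (cellF_sum_ae hm)
  have hdev : ∀ᵐ x ∂(gam κ), |dev u f j x * g x| ≤
      ∑ p ∈ S, cellF p.1 (xi u x) * f x p.2 * |g x| := by
    filter_upwards [hae] with x hx
    rw [abs_mul, ← Finset.sum_mul]
    apply mul_le_mul_of_nonneg_right _ (abs_nonneg _)
    have c0 : ∀ l, 0 ≤ cellF l (xi u x) := fun l => cellF_nonneg _ _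
    have hfs : ∑ k, f x k = 1 := (hf.simp x).2
    have e1 : dev u f j x = ∑ l, (cellF l (xi u x) * f x j - cellF j (xi u x) * f x l) := by
      rw [Finset.sum_sub_distrib, ← Finset.sum_mul, hx, ← Finset.mul_sum, hfs]
      unfold dev
      ring
    have e2 : dev u f j x = ∑ l ∈ Finset.univ.erase j,
        (cellF l (xi u x) * f x j - cellF j (xi u x) * f x l) := by
      rw [e1, ← Finset.add_sum_erase _ _ (Finset.mem_univ j), sub_self, zero_add]
    have e3 : |dev u f j x| ≤ ∑ l ∈ Finset.univ.erase j,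
        (cellF l (xi u x) * f x j + cellF j (xi u x) * f x l) := by
      rw [e2]
      refine (Finset.abs_sum_le_sum_abs _ _).trans (Finset.sum_le_sum fun l _ => ?_)
      have h1 := mul_nonneg (c0 l) (f0 x j)
      have h2 := mul_nonneg (c0 j) (f0 x l)
      rw [abs_le]
      constructor <;> linarith
    refine e3.trans ?_
    rw [Finset.sum_add_distrib]
    have i1 : ∑ l ∈ Finset.univ.erase j, cellF l (xi u x) * f x j =
        ∑ p ∈ (Finset.univ.erase j).image (fun l => ((l, j) : Fin m × Fin m)),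
          cellF p.1 (xi u x) * f x p.2 := by
      rw [Finset.sum_image]
      intro a _ b _ h
      exact (Prod.ext_iff.1 h).1
    have i2 : ∑ l ∈ Finset.univ.erase j, cellF j (xi u x) * f x l =
        ∑ p ∈ (Finset.univ.erase j).image (fun l => ((j, l) : Fin m × Fin m)),
          cellF p.1 (xi u x) * f x p.2 := by
      rw [Finset.sum_image]
      intro a _ b _ h
      exact (Prod.ext_iff.1 h).2
    rw [i1, i2, ← Finset.sum_union]
    · apply Finset.sum_le_sum_of_subset_of_nonneg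
      · intro p hp
        rw [hS, Finset.mem_filter]
        refine ⟨Finset.mem_univ _, ?_⟩
        rcases Finset.mem_union.1 hp with h | h
        · obtain ⟨l, hl, rfl⟩ := Finset.mem_image.1 h
          exact (Finset.mem_erase.1 hl).1
        · obtain ⟨l, hl, rfl⟩ := Finset.mem_image.1 h
          exact (Finset.mem_erase.1 hl).1.symm
      · intro p _ _
        exact mul_nonneg (c0 _) (f0 _ _)
    · rw [Finset.disjoint_left]
      intro p hp hp'
      obtain ⟨l, hl, rfl⟩ := Finset.mem_image.1 hp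
      obtain ⟨l', hl', h⟩ := Finset.mem_image.1 hp'
      have := (Prod.ext_iff.1 h).1
      exact (Finset.mem_erase.1 hl).1 this.symm
  calc |∫ x, dev u f j x * g x ∂(gam κ)|
      ≤ ∫ x, |dev u f j x * g x| ∂(gam κ) := abs_integral_le_integral_abs
    _ ≤ ∫ x, ∑ p ∈ S, cellF p.1 (xi u x) * f x p.2 * |g x| ∂(gam κ) :=
        integral_mono_of_nonneg (Filter.Eventually.of_forall fun x => abs_nonneg _)
          (integrable_finsetSum _ fun p hp => (hpair p hp).1) hdev
    _ = ∑ p ∈ S, ∫ x, cellF p.1 (xi u x) * f x p.2 * |g x| ∂(gam κ) :=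
        integral_finsetSum _ fun p hp => (hpair p hp).1
    _ ≤ ∑ p ∈ S, 10 * Real.sqrt (cost u f) * Real.sqrt I :=
        Finset.sum_le_sum fun p hp => (hpair p hp).2
    _ = (S.card : ℝ) * (10 * Real.sqrt (cost u f) * Real.sqrt I) := by
        rw [Finset.sum_const, nsmul_eq_mul]
    _ ≤ (m : ℝ) ^ 2 * (10 * Real.sqrt (cost u f) * Real.sqrt I) := by
        apply mul_le_mul_of_nonneg_right _ (by positivity)
        have h1 : S.card ≤ m ^ 2 := by
          calc S.card ≤ (Finset.univ : Finset (Fin m × Fin m)).card :=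
                Finset.card_le_card (Finset.filter_subset _ _)
            _ = m ^ 2 := by
                rw [Finset.card_univ, Fintype.card_prod, Fintype.card_fin, pow_two]
        exact_mod_cast h1
    _ = 10 * (m : ℝ) ^ 2 * Real.sqrt (cost u f) * Real.sqrt I := by ring

end Pool.H65.PT
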