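import Pool.Agent.Helper65.PT.Defs
import Pool.Agent.Helper65.PT.Tig
import Pool.Agent.Helper65.PT.Law
import Pool.Agent.Helper65.PS.Ibp

set_option autoImplicit false

open MeasureTheory ProbabilityTheory Pool.H65.PS

namespace Pool.H65.PT

/-- `1 + |ξ|²`. -/
noncomputable def TixS {m : ℕ} (ξ : Fin m → ℝ) : ℝ := 1 + ∑ l, ξ l ^ 2

theorem TixS_one_le {m : ℕ} (ξ : Fin m → ℝ) : 1 ≤ TixS ξ := by
  unfold TixS
  have : 0 ≤ ∑ l, ξ l ^ 2 := Finset.sum_nonneg fun l _ => sq_nonneg _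
  linarith

theorem TixS_cont {m : ℕ} : Continuous (TixS (m := m)) := by
  unfold TixS
  fun_prop

theorem TixS_sq_le {m : ℕ} (ξ : Fin m → ℝ) (k : Fin m) : ξ k ^ 2 ≤ TixS ξ := by
  unfold TixS
  have h := Finset.single_le_sum (f := fun l => ξ l ^ 2) (fun l _ => sq_nonneg _)
    (Finset.mem_univ k)
  linarith

theorem TixS_int {m : ℕ} : Integrable (fun ξ : Fin m → ℝ => TixS ξ ^ 3) (gam (Fin m)) := by
  refine integrable_gam _ ((1 + (m : ℝ)) ^ 3) 6 (TixS_cont.pow 3) fun ξ => ?_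
  have h1 := TixS_one_le ξ
  rw [abs_of_nonneg (by positivity)]
  have h2 : TixS ξ ≤ (1 + (m : ℝ)) * (1 + ‖ξ‖) ^ 2 := by
    have hn : 0 ≤ ‖ξ‖ := norm_nonneg _
    have h3 : ∑ l, ξ l ^ 2 ≤ ∑ _l : Fin m, ‖ξ‖ ^ 2 := by
      refine Finset.sum_le_sum fun l _ => ?_
      have h4 := norm_le_pi_norm ξ l
      rw [Real.norm_eq_abs] at h4
      rw [← sq_abs (ξ l)]
      exact pow_le_pow_left₀ (abs_nonneg _) h4 2
    rw [Finset.sum_const, Finset.card_univ, Fintype.card_fin, nsmul_eq_mul] at h3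
    unfold TixS
    have hm : (0 : ℝ) ≤ m := Nat.cast_nonneg m
    nlinarith [mul_nonneg hm hn]
  calc TixS ξ ^ 3 ≤ ((1 + (m : ℝ)) * (1 + ‖ξ‖) ^ 2) ^ 3 :=
        pow_le_pow_left₀ (by linarith) h2 3
    _ = (1 + (m : ℝ)) ^ 3 * (1 + ‖ξ‖) ^ 6 := by ring

theorem Tix_xi_cont {κ : Type} [Fintype κ] {m : ℕ} (u : Fin m → κ → ℝ) : Continuous (xi u) := by
  refine continuous_pi fun i => ?_
  unfold xi dot
  fun_prop

theorem Tix_core {κ : Type} [Fintype κ] {m : ℕ} (u : Fin m → κ → ℝ) (hu : Frame u)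
    (f : (κ → ℝ) → Fin m → ℝ) (hf : Pt f) (A : ℝ) (g : (κ → ℝ) → ℝ) (hgc : Continuous g)
    (hg : ∀ l k : Fin m, l ≠ k → ∃ g' : (κ → ℝ) → ℝ, Continuous g' ∧
      (∀ x t, HasDerivAt (fun s : ℝ => g (x + s • ((Real.sqrt 2)⁻¹ • (u l - u k))))
        (g' (x + t • ((Real.sqrt 2)⁻¹ • (u l - u k)))) t) ∧
      ∀ x, g x ^ 2 + g' x ^ 2 ≤ A * TixS (xi u x) ^ 3) (j : Fin m) :
    |∫ x, dev u f j x * g x ∂(gam κ)| ≤ 10 * (m : ℝ) ^ 2 * Real.sqrt (cost u f) *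
      Real.sqrt (A * ∫ ξ : Fin m → ℝ, TixS ξ ^ 3 ∂(gam (Fin m))) := by
  have hmp := measurePreserving_xi u hu
  have hi : Integrable (fun x => TixS (xi u x) ^ 3) (gam κ) := hmp.integrable_comp_of_integrable TixS_int
  have he : ∫ x, TixS (xi u x) ^ 3 ∂(gam κ) = ∫ ξ : Fin m → ℝ, TixS ξ ^ 3 ∂(gam (Fin m)) := by
    have hc3 : Continuous (fun ξ : Fin m → ℝ => TixS ξ ^ 3) := TixS_cont.pow 3
    rw [← hmp.map_eq]
    exact (integral_map hmp.measurable.aemeasurable hc3.aestronglyMeasurable).symm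
  refine ti_dev u hu f hf g hgc _ (fun l k hlk => ?_) j
  obtain ⟨g', hc', hd, hb⟩ := hg l k hlk
  have hint : Integrable (fun x => g x ^ 2 + g' x ^ 2) (gam κ) := by
    refine (hi.const_mul A).mono (((hgc.pow 2).add (hc'.pow 2)).aestronglyMeasurable)
      (Filter.Eventually.of_forall fun x => ?_)
    rw [Real.norm_eq_abs, Real.norm_eq_abs, abs_of_nonneg (by positivity)]
    exact (hb x).trans (le_abs_self _)
  refine ⟨g', hc', hd, hint, ?_⟩
  rw [← he, ← integral_const_mul]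
  exact integral_mono hint (hi.const_mul A) hb

/-- the coordinate of `ξ` moves with speed `e` -/
theorem Tix_dxi {κ : Type} [Fintype κ] {m : ℕ} (u : Fin m → κ → ℝ) (hu : Frame u) (l k i : Fin m)
    (x : κ → ℝ) (s : ℝ) : xi u (x + s • ((Real.sqrt 2)⁻¹ • (u l - u k))) i
      = xi u x i + s * ((Real.sqrt 2)⁻¹ * ((if i = l then 1 else 0) - (if i = k then 1 else 0))) := by
  have e : xi u (x + s • ((Real.sqrt 2)⁻¹ • (u l - u k))) i
      = xi u x i + s * ((Real.sqrt 2)⁻¹ * (dot (u i) (u l) - dot (u i) (u k))) := by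
    unfold xi dot
    rw [← Finset.sum_sub_distrib, Finset.mul_sum, Finset.mul_sum, ← Finset.sum_add_distrib]
    refine Finset.sum_congr rfl fun i _ => ?_
    simp only [Pi.smul_apply, Pi.sub_apply, Pi.add_apply, smul_eq_mul]
    ring
  rw [e, hu i l, hu i k]

theorem Tix_dS {κ : Type} [Fintype κ] {m : ℕ} (u : Fin m → κ → ℝ) (hu : Frame u) (l k : Fin m)
    (x : κ → ℝ) (t : ℝ) :
    HasDerivAt (fun s : ℝ => TixS (xi u (x + s • ((Real.sqrt 2)⁻¹ • (u l - u k)))))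
      (2 * (Real.sqrt 2)⁻¹ * (xi u (x + t • ((Real.sqrt 2)⁻¹ • (u l - u k))) l
        - xi u (x + t • ((Real.sqrt 2)⁻¹ • (u l - u k))) k)) t := by
  have h1 : ∀ i : Fin m, HasDerivAt
      (fun s : ℝ => xi u (x + s • ((Real.sqrt 2)⁻¹ • (u l - u k))) i)
      ((Real.sqrt 2)⁻¹ * ((if i = l then 1 else 0) - (if i = k then 1 else 0))) t := by
    intro i
    have e : (fun s : ℝ => xi u (x + s • ((Real.sqrt 2)⁻¹ • (u l - u k))) i)
      = fun s : ℝ => xi u x i + s * ((Real.sqrt 2)⁻¹ * ((if i = l then 1 else 0)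
        - (if i = k then 1 else 0))) := funext fun s => Tix_dxi u hu l k i x s
    rw [e]
    have h := ((hasDerivAt_id t).mul_const ((Real.sqrt 2)⁻¹ * ((if i = l then (1 : ℝ) else 0)
        - (if i = k then 1 else 0)))).const_add (xi u x i)
    simpa using h
  have h2 : HasDerivAt (fun s : ℝ => 1 + ∑ i, xi u (x + s • ((Real.sqrt 2)⁻¹ • (u l - u k))) i ^ 2)
      (∑ i, 2 * xi u (x + t • ((Real.sqrt 2)⁻¹ • (u l - u k))) i
        * ((Real.sqrt 2)⁻¹ * ((if i = l then 1 else 0) - (if i = k then 1 else 0)))) t := by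
    refine HasDerivAt.const_add 1 ?_
    refine HasDerivAt.fun_sum fun i _ => ?_
    have h := (h1 i).fun_pow 2
    simpa using h
  have e : (fun s : ℝ => TixS (xi u (x + s • ((Real.sqrt 2)⁻¹ • (u l - u k)))))
      = fun s : ℝ => 1 + ∑ i, xi u (x + s • ((Real.sqrt 2)⁻¹ • (u l - u k))) i ^ 2 := rfl
  rw [e]
  refine h2.congr_deriv ?_
  have e2 : ∀ i : Fin m, 2 * xi u (x + t • ((Real.sqrt 2)⁻¹ • (u l - u k))) i
        * ((Real.sqrt 2)⁻¹ * ((if i = l then (1 : ℝ) else 0) - (if i = k then 1 else 0)))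
      = (if i = l then 2 * (Real.sqrt 2)⁻¹ * xi u (x + t • ((Real.sqrt 2)⁻¹ • (u l - u k))) i else 0)
        - (if i = k then 2 * (Real.sqrt 2)⁻¹ * xi u (x + t • ((Real.sqrt 2)⁻¹ • (u l - u k))) i
          else 0) := by
    intro i
    split_ifs <;> ring
  rw [Finset.sum_congr rfl fun i _ => e2 i, Finset.sum_sub_distrib]
  simp only [Finset.sum_ite_eq', Finset.mem_univ, if_true]
  ring

theorem Tix_half : (Real.sqrt 2)⁻¹ ^ 2 = 1 / 2 := by
  rw [inv_pow, Real.sq_sqrt (by norm_num)]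
  norm_num

/-- pointwise bound of `chi`. -/
theorem Tix_chi_bd (θ : ℝ) (hθ : 0 ≤ θ) : 0 ≤ θ / (1 + θ) ∧ θ / (1 + θ) ≤ θ := by
  constructor
  · positivity
  · rw [div_le_iff₀ (by linarith)]
    nlinarith

theorem chi_dev (m : ℕ) (K : ℝ) (hK : 0 ≤ K) : ∃ C : ℝ, 0 ≤ C ∧ ∀ (ρ : ℝ), 0 ≤ ρ → ρ ≤ 1 →
    ∀ (κ : Type) [Fintype κ] (u : Fin m → κ → ℝ), Frame u → ∀ f : (κ → ℝ) → Fin m → ℝ, Pt f →
    ∀ j k : Fin m,
      |∫ x, chi K ρ (xi u x) * dev u f j x ∂(gam κ)| ≤ C * ρ * Real.sqrt (cost u f) ∧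
      |∫ x, chi K ρ (xi u x) * dev u f j x * xi u x k ∂(gam κ)| ≤ C * ρ * Real.sqrt (cost u f) := by
  set M : ℝ := ∫ ξ : Fin m → ℝ, TixS ξ ^ 3 ∂(gam (Fin m)) with hM
  have hM0 : 0 ≤ M := integral_nonneg fun ξ => pow_nonneg (zero_le_one.trans (TixS_one_le ξ)) 3
  refine ⟨10 * (m : ℝ) ^ 2 * Real.sqrt (20 * K ^ 2 * M), by positivity, ?_⟩
  intro ρ hρ hρ1 κ _ u hu f hf j k0
  have hfin : ∀ T : ℝ, 10 * (m : ℝ) ^ 2 * Real.sqrt T * Real.sqrt (20 * K ^ 2 * ρ ^ 2 * M)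
      = 10 * (m : ℝ) ^ 2 * Real.sqrt (20 * K ^ 2 * M) * ρ * Real.sqrt T := by
    intro T
    have e : 20 * K ^ 2 * ρ ^ 2 * M = (20 * K ^ 2 * M) * ρ ^ 2 := by ring
    rw [e, Real.sqrt_mul (by positivity), Real.sqrt_sq hρ]
    ring
  -- abbreviations
  have hchi : ∀ x : κ → ℝ, chi K ρ (xi u x)
      = K * ρ * TixS (xi u x) / (1 + K * ρ * TixS (xi u x)) := fun x => rfl
  have hθ0 : ∀ x : κ → ℝ, 0 ≤ K * ρ * TixS (xi u x) := fun x =>
    mul_nonneg (mul_nonneg hK hρ) (zero_le_one.trans (TixS_one_le _))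
  have hSc : Continuous (fun x : κ → ℝ => TixS (xi u x)) := TixS_cont.comp (Tix_xi_cont u)
  have hθc : Continuous (fun x : κ → ℝ => K * ρ * TixS (xi u x)) := continuous_const.mul hSc
  have hden : ∀ x : κ → ℝ, (1 + K * ρ * TixS (xi u x)) ≠ 0 := fun x => by
    have := hθ0 x
    positivity
  have hcc : Continuous (fun x : κ → ℝ => chi K ρ (xi u x)) := by
    have : (fun x : κ → ℝ => chi K ρ (xi u x))
      = fun x => K * ρ * TixS (xi u x) / (1 + K * ρ * TixS (xi u x)) := rfl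
    rw [this]
    exact hθc.div (continuous_const.add hθc) hden
  have hxc : ∀ i, Continuous (fun x : κ → ℝ => xi u x i) := fun i =>
    (continuous_apply i).comp (Tix_xi_cont u)
  -- derivative of chi in direction l k
  have hdchi : ∀ l k : Fin m, ∀ (x : κ → ℝ) (t : ℝ),
      HasDerivAt (fun s : ℝ => chi K ρ (xi u (x + s • ((Real.sqrt 2)⁻¹ • (u l - u k)))))
        ((fun z : κ → ℝ => K * ρ * (2 * (Real.sqrt 2)⁻¹ * (xi u z l - xi u z k))
          / (1 + K * ρ * TixS (xi u z)) ^ 2) (x + t • ((Real.sqrt 2)⁻¹ • (u l - u k)))) t := by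
    intro l k x t
    have h1 := (Tix_dS u hu l k x t).const_mul (K * ρ)
    have h2 := h1.const_add 1
    have h3 := h1.div h2 (hden _)
    have e : (fun s : ℝ => chi K ρ (xi u (x + s • ((Real.sqrt 2)⁻¹ • (u l - u k)))))
      = fun s : ℝ => K * ρ * TixS (xi u (x + s • ((Real.sqrt 2)⁻¹ • (u l - u k))))
        / (1 + K * ρ * TixS (xi u (x + s • ((Real.sqrt 2)⁻¹ • (u l - u k))))) := rfl
    rw [e]
    refine h3.congr_deriv ?_
    simp only
    congr 1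
    ring
  have hc'c : ∀ l k : Fin m, Continuous (fun z : κ → ℝ =>
      K * ρ * (2 * (Real.sqrt 2)⁻¹ * (xi u z l - xi u z k))
          / (1 + K * ρ * TixS (xi u z)) ^ 2) := by
    intro l k
    refine (continuous_const.mul (continuous_const.mul ((hxc l).sub (hxc k)))).div
      ((continuous_const.add hθc).pow 2) fun x => pow_ne_zero 2 (hden x)
  -- bound for the derivative of chi
  have hc'b : ∀ l k : Fin m, ∀ z : κ → ℝ,
      (K * ρ * (2 * (Real.sqrt 2)⁻¹ * (xi u z l - xi u z k))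
          / (1 + K * ρ * TixS (xi u z)) ^ 2) ^ 2 ≤ 8 * K ^ 2 * ρ ^ 2 * TixS (xi u z) := by
    intro l k z
    have h1 : 1 ≤ (1 + K * ρ * TixS (xi u z)) ^ 2 := by
      have := hθ0 z
      nlinarith
    have h2 : (K * ρ * (2 * (Real.sqrt 2)⁻¹ * (xi u z l - xi u z k))
          / (1 + K * ρ * TixS (xi u z)) ^ 2) ^ 2
        ≤ (K * ρ * (2 * (Real.sqrt 2)⁻¹ * (xi u z l - xi u z k))) ^ 2 := by
      rw [div_pow]
      exact div_le_self (sq_nonneg _) (one_le_pow₀ h1)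
    refine h2.trans ?_
    have e : (K * ρ * (2 * (Real.sqrt 2)⁻¹ * (xi u z l - xi u z k))) ^ 2
        = K ^ 2 * ρ ^ 2 * (4 * (Real.sqrt 2)⁻¹ ^ 2 * (xi u z l - xi u z k) ^ 2) := by ring
    rw [e, Tix_half]
    have h3 := TixS_sq_le (xi u z) l
    have h4 := TixS_sq_le (xi u z) k
    have h5 : 4 * (1 / 2) * (xi u z l - xi u z k) ^ 2 ≤ 8 * TixS (xi u z) := by
      nlinarith [sq_nonneg (xi u z l + xi u z k)]
    calc K ^ 2 * ρ ^ 2 * (4 * (1 / 2) * (xi u z l - xi u z k) ^ 2)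
        ≤ K ^ 2 * ρ ^ 2 * (8 * TixS (xi u z)) := mul_le_mul_of_nonneg_left h5 (by positivity)
      _ = 8 * K ^ 2 * ρ ^ 2 * TixS (xi u z) := by ring
  have hcb : ∀ z : κ → ℝ, chi K ρ (xi u z) ^ 2 ≤ K ^ 2 * ρ ^ 2 * TixS (xi u z) ^ 2 := by
    intro z
    rw [hchi z]
    obtain ⟨h1, h2⟩ := Tix_chi_bd _ (hθ0 z)
    calc (K * ρ * TixS (xi u z) / (1 + K * ρ * TixS (xi u z))) ^ 2
        ≤ (K * ρ * TixS (xi u z)) ^ 2 := pow_le_pow_left₀ h1 h2 2
      _ = K ^ 2 * ρ ^ 2 * TixS (xi u z) ^ 2 := by ring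
  have hS1 : ∀ z : κ → ℝ, 1 ≤ TixS (xi u z) := fun z => TixS_one_le _
  have hS23 : ∀ z : κ → ℝ, TixS (xi u z) ^ 2 ≤ TixS (xi u z) ^ 3 := fun z =>
    pow_le_pow_right₀ (hS1 z) (by norm_num)
  have hS13 : ∀ z : κ → ℝ, TixS (xi u z) ≤ TixS (xi u z) ^ 3 := fun z =>
    le_self_pow₀ (hS1 z) (by norm_num)
  constructor
  · have key := Tix_core u hu f hf (20 * K ^ 2 * ρ ^ 2) (fun x => chi K ρ (xi u x)) hcc
      (fun l k hlk => ⟨_, hc'c l k, hdchi l k, fun z => ?_⟩) j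
    · rw [← hM, hfin] at key
      refine le_trans (le_of_eq ?_) key
      congr 1
      refine integral_congr_ae (Filter.Eventually.of_forall fun x => ?_)
      ring
    · have h1 := hcb z
      have h2 := hc'b l k z
      have h3 : K ^ 2 * ρ ^ 2 * TixS (xi u z) ^ 2 ≤ K ^ 2 * ρ ^ 2 * TixS (xi u z) ^ 3 :=
        mul_le_mul_of_nonneg_left (hS23 z) (by positivity)
      have h4 : 8 * K ^ 2 * ρ ^ 2 * TixS (xi u z) ≤ 8 * K ^ 2 * ρ ^ 2 * TixS (xi u z) ^ 3 :=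
        mul_le_mul_of_nonneg_left (hS13 z) (by positivity)
      have h5 : 0 ≤ K ^ 2 * ρ ^ 2 * TixS (xi u z) ^ 3 := by
        have := hS1 z
        positivity
      linarith
  · have key := Tix_core u hu f hf (20 * K ^ 2 * ρ ^ 2) (fun x => chi K ρ (xi u x) * xi u x k0)
      (hcc.mul (hxc k0)) (fun l k hlk => ⟨fun z =>
        (K * ρ * (2 * (Real.sqrt 2)⁻¹ * (xi u z l - xi u z k)) / (1 + K * ρ * TixS (xi u z)) ^ 2)
          * xi u z k0 + chi K ρ (xi u z) * ((Real.sqrt 2)⁻¹ * ((if k0 = l then 1 else 0)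
            - (if k0 = k then 1 else 0))), ((hc'c l k).mul (hxc k0)).add
              (hcc.mul continuous_const), fun x t => ?_, fun z => ?_⟩) j
    · rw [← hM, hfin] at key
      refine le_trans (le_of_eq ?_) key
      congr 1
      refine integral_congr_ae (Filter.Eventually.of_forall fun x => ?_)
      ring
    · have h1 : HasDerivAt
          (fun s : ℝ => xi u (x + s • ((Real.sqrt 2)⁻¹ • (u l - u k))) k0)
          ((Real.sqrt 2)⁻¹ * ((if k0 = l then 1 else 0) - (if k0 = k then 1 else 0))) t := by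
        have e : (fun s : ℝ => xi u (x + s • ((Real.sqrt 2)⁻¹ • (u l - u k))) k0)
          = fun s : ℝ => xi u x k0 + s * ((Real.sqrt 2)⁻¹ * ((if k0 = l then 1 else 0)
            - (if k0 = k then 1 else 0))) := funext fun s => Tix_dxi u hu l k k0 x s
        rw [e]
        have h := ((hasDerivAt_id t).mul_const ((Real.sqrt 2)⁻¹ * ((if k0 = l then (1 : ℝ) else 0)
            - (if k0 = k then 1 else 0)))).const_add (xi u x k0)
        simpa using h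
      have h2 := (hdchi l k x t).mul h1
      exact h2
    · have h1 := hcb z
      have h2 := hc'b l k z
      have hk := TixS_sq_le (xi u z) k0
      have hS := hS1 z
      set S := TixS (xi u z) with hSd
      set c := chi K ρ (xi u z) with hcd
      set d := K * ρ * (2 * (Real.sqrt 2)⁻¹ * (xi u z l - xi u z k)) / (1 + K * ρ * S) ^ 2 with hdd
      set y := xi u z k0 with hy
      set e : ℝ := (Real.sqrt 2)⁻¹ * ((if k0 = l then 1 else 0) - (if k0 = k then 1 else 0)) with he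
      have he2 : e ^ 2 ≤ 1 := by
        rw [he, mul_pow, Tix_half]
        split_ifs <;> norm_num
      have h3 : (c * y) ^ 2 ≤ K ^ 2 * ρ ^ 2 * S ^ 3 := by
        calc (c * y) ^ 2 = c ^ 2 * y ^ 2 := by ring
          _ ≤ (K ^ 2 * ρ ^ 2 * S ^ 2) * S := mul_le_mul h1 hk (sq_nonneg _) (by positivity)
          _ = K ^ 2 * ρ ^ 2 * S ^ 3 := by ring
      have h4 : (d * y) ^ 2 ≤ 8 * K ^ 2 * ρ ^ 2 * S ^ 2 := by
        calc (d * y) ^ 2 = d ^ 2 * y ^ 2 := by ring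
          _ ≤ (8 * K ^ 2 * ρ ^ 2 * S) * S := mul_le_mul h2 hk (sq_nonneg _) (by positivity)
          _ = 8 * K ^ 2 * ρ ^ 2 * S ^ 2 := by ring
      have h5 : (c * e) ^ 2 ≤ K ^ 2 * ρ ^ 2 * S ^ 2 := by
        calc (c * e) ^ 2 = c ^ 2 * e ^ 2 := by ring
          _ ≤ (K ^ 2 * ρ ^ 2 * S ^ 2) * 1 := mul_le_mul h1 he2 (sq_nonneg _) (by positivity)
          _ = K ^ 2 * ρ ^ 2 * S ^ 2 := by ring
      have h6 : (d * y + c * e) ^ 2 ≤ 2 * (d * y) ^ 2 + 2 * (c * e) ^ 2 := by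
        nlinarith [sq_nonneg (d * y - c * e)]
      have h7 : K ^ 2 * ρ ^ 2 * S ^ 2 ≤ K ^ 2 * ρ ^ 2 * S ^ 3 :=
        mul_le_mul_of_nonneg_left (hS23 z) (by positivity)
      have h8 : 0 ≤ K ^ 2 * ρ ^ 2 * S ^ 3 := by positivity
      show (c * y) ^ 2 + (d * y + c * e) ^ 2 ≤ 20 * K ^ 2 * ρ ^ 2 * S ^ 3
      linarith

end Pool.H65.PT
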