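import Pool.Agent.Helper65.PT.Defs
import Pool.Agent.Helper65.PT.Lef
import Pool.Agent.Helper65.PT.Moc
import Pool.Agent.Helper65.PT.Tix
import Pool.Agent.Helper65.PT.Law
import Pool.Agent.Helper65.PT.Pmo

set_option autoImplicit false

open MeasureTheory ProbabilityTheory Pool.H65.PS

namespace Pool.H65.PT

section gbb

variable {κ : Type} [Fintype κ] {m : ℕ}

theorem Gbb_int1 {Ω : Type} [MeasurableSpace Ω] (μ : Measure Ω) (c : Fin m → ℝ)
    (F : Fin m → Ω → ℝ) (hF : ∀ j, Integrable (F j) μ) :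
    Integrable (fun x => ∑ j, c j * F j x) μ ∧
      ∫ x, ∑ j, c j * F j x ∂μ = ∑ j, c j * ∫ x, F j x ∂μ := by
  constructor
  · exact integrable_finsetSum _ fun j _ => (hF j).const_mul _
  · rw [integral_finsetSum _ fun j _ => (hF j).const_mul _]
    refine Finset.sum_congr rfl fun j _ => ?_
    rw [integral_const_mul]

theorem Gbb_int2 {Ω : Type} [MeasurableSpace Ω] (μ : Measure Ω) (H : Fin m → Fin m → ℝ)
    (F : Fin m → Fin m → Ω → ℝ) (hF : ∀ j l, Integrable (F j l) μ) :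
    Integrable (fun x => ∑ j, ∑ l, H j l * F j l x) μ ∧
      ∫ x, ∑ j, ∑ l, H j l * F j l x ∂μ = ∑ j, ∑ l, H j l * ∫ x, F j l x ∂μ := by
  constructor
  · exact integrable_finsetSum _ fun j _ => (Gbb_int1 μ (H j) (F j) (hF j)).1
  · rw [integral_finsetSum _ fun j _ => (Gbb_int1 μ (H j) (F j) (hF j)).1]
    refine Finset.sum_congr rfl fun j _ => ?_
    exact (Gbb_int1 μ (H j) (F j) (hF j)).2

theorem Gbb_split {Ω : Type} [MeasurableSpace Ω] (μ : Measure Ω)
    {F1 F2 F3 F4 F5 F6 F7 F8 : Ω → ℝ} (h1 : Integrable F1 μ) (h2 : Integrable F2 μ)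
    (h3 : Integrable F3 μ) (h4 : Integrable F4 μ) (h5 : Integrable F5 μ) (h6 : Integrable F6 μ)
    (h7 : Integrable F7 μ) (h8 : Integrable F8 μ) :
    ∫ x, (F1 x + F2 x + F3 x + F4 x - F5 x - F6 x + F7 x - F8 x) ∂μ
      = (∫ x, F1 x ∂μ) + (∫ x, F2 x ∂μ) + (∫ x, F3 x ∂μ) + (∫ x, F4 x ∂μ) - (∫ x, F5 x ∂μ)
        - (∫ x, F6 x ∂μ) + (∫ x, F7 x ∂μ) - ∫ x, F8 x ∂μ := by
  have e1 : ∫ x, (F1 x + F2 x) ∂μ = (∫ x, F1 x ∂μ) + (∫ x, F2 x ∂μ) := integral_add h1 h2
  have e2 : ∫ x, (F1 x + F2 x + F3 x) ∂μ = (∫ x, (F1 x + F2 x) ∂μ) + (∫ x, F3 x ∂μ) :=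
    integral_add (h1.add h2) h3
  have e3 : ∫ x, (F1 x + F2 x + F3 x + F4 x) ∂μ
      = (∫ x, (F1 x + F2 x + F3 x) ∂μ) + (∫ x, F4 x ∂μ) := integral_add ((h1.add h2).add h3) h4
  have e4 : ∫ x, (F1 x + F2 x + F3 x + F4 x - F5 x) ∂μ
      = (∫ x, (F1 x + F2 x + F3 x + F4 x) ∂μ) - (∫ x, F5 x ∂μ) :=
    integral_sub (((h1.add h2).add h3).add h4) h5
  have e5 : ∫ x, (F1 x + F2 x + F3 x + F4 x - F5 x - F6 x) ∂μ
      = (∫ x, (F1 x + F2 x + F3 x + F4 x - F5 x) ∂μ) - (∫ x, F6 x ∂μ) :=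
    integral_sub ((((h1.add h2).add h3).add h4).sub h5) h6
  have e6 : ∫ x, (F1 x + F2 x + F3 x + F4 x - F5 x - F6 x + F7 x) ∂μ
      = (∫ x, (F1 x + F2 x + F3 x + F4 x - F5 x - F6 x) ∂μ) + (∫ x, F7 x ∂μ) :=
    integral_add (((((h1.add h2).add h3).add h4).sub h5).sub h6) h7
  have e7 : ∫ x, (F1 x + F2 x + F3 x + F4 x - F5 x - F6 x + F7 x - F8 x) ∂μ
      = (∫ x, (F1 x + F2 x + F3 x + F4 x - F5 x - F6 x + F7 x) ∂μ) - (∫ x, F8 x ∂μ) :=
    integral_sub ((((((h1.add h2).add h3).add h4).sub h5).sub h6).add h7) h8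
  rw [e7, e6, e5, e4, e3, e2, e1]

theorem Gbb_cont_xi (u : Fin m → κ → ℝ) (j : Fin m) : Continuous (fun x => xi u x j) := by
  unfold xi dot
  fun_prop

theorem Gbb_meas_xi (u : Fin m → κ → ℝ) : Measurable (xi u) :=
  measurable_pi_lambda _ fun j => (Gbb_cont_xi u j).measurable

theorem Gbb_int_xi (u : Fin m → κ → ℝ) (j : Fin m) :
    Integrable (fun x => xi u x j) (gam κ) := by
  unfold xi dot
  exact integrable_finsetSum _ fun i _ => (emx_int_coord i).const_mul _

theorem Gbb_int_b (b : (κ → ℝ) → ℝ) (hb : Measurable b) (B : ℝ) (hB : ∀ x, |b x| ≤ B) :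
    Integrable b (gam κ) := by
  refine (integrable_const B).mono' hb.aestronglyMeasurable (ae_of_all _ fun x => ?_)
  rw [Real.norm_eq_abs]
  exact hB x

theorem Gbb_int_bxi (u : Fin m → κ → ℝ) (j : Fin m) (b : (κ → ℝ) → ℝ) (hb : Measurable b) (B : ℝ)
    (hB : ∀ x, |b x| ≤ B) : Integrable (fun x => b x * xi u x j) (gam κ) := by
  refine (Gbb_int_xi u j).bdd_mul (c := B) hb.aestronglyMeasurable (ae_of_all _ fun x => ?_)
  rw [Real.norm_eq_abs]
  exact hB x

theorem Gbb_chi_meas (K ρ : ℝ) : Measurable (fun ξ : Fin m → ℝ => chi K ρ ξ) := by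
  unfold chi
  fun_prop

theorem Gbb_chi_bd (K ρ : ℝ) (hK : 0 ≤ K) (hρ : 0 ≤ ρ) (ξ : Fin m → ℝ) :
    0 ≤ chi K ρ ξ ∧ chi K ρ ξ ≤ 1 := by
  unfold chi
  have h1 : 0 ≤ K * ρ * (1 + ∑ l, ξ l ^ 2) := by
    have : 0 ≤ ∑ l, ξ l ^ 2 := Finset.sum_nonneg fun l _ => sq_nonneg _
    positivity
  constructor
  · positivity
  · rw [div_le_one (by positivity)]
    linarith

/-- on the strict maximum the cells pick out the supremum -/
theorem Gbb_cell_sup (ξ : Fin m → ℝ) (j : Fin m) (hj : ∀ l, l ≠ j → ξ l < ξ j) :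
    ∑ k, cellF k ξ * ξ k = ⨆ l, ξ l := by
  have h1 : ∀ k, cellF k ξ = if k = j then 1 else 0 := by
    intro k
    unfold cellF
    by_cases hk : k = j
    · subst hk
      rw [if_pos hj, if_pos rfl]
    · rw [if_neg hk, if_neg]
      intro h
      have h2 := h j (fun h3 => hk h3.symm)
      have h3 := hj k hk
      linarith
  have h2 : (⨆ l, ξ l) = ξ j := by
    have : Nonempty (Fin m) := ⟨j⟩
    apply le_antisymm
    · refine ciSup_le fun l => ?_
      by_cases hl : l = j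
      · rw [hl]
      · exact (hj l hl).le
    · exact le_ciSup (Set.finite_range ξ).bddAbove j
  rw [h2]
  simp [h1]

theorem Gbb_fs_nonneg (H : Fin m → Fin m → ℝ) : 0 ≤ fs H :=
  Finset.sum_nonneg fun j _ => Finset.sum_nonneg fun k _ => sq_nonneg _

theorem Gbb_abs_le (H : Fin m → Fin m → ℝ) (j l : Fin m) : |H j l| ≤ Real.sqrt (fs H) := by
  rw [← Real.sqrt_sq_eq_abs]
  apply Real.sqrt_le_sqrt
  unfold fs
  refine le_trans ?_ (Finset.single_le_sum (f := fun j => ∑ k, H j k ^ 2)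
    (fun j _ => Finset.sum_nonneg fun k _ => sq_nonneg _) (Finset.mem_univ j))
  exact Finset.single_le_sum (f := fun k => H j k ^ 2) (fun k _ => sq_nonneg _) (Finset.mem_univ l)

end gbb

theorem case_B_ineq (m : ℕ) (hm : 2 ≤ m) (K : ℝ) (hK : 0 ≤ K) : ∃ C r0 : ℝ, 0 ≤ C ∧ 0 < r0 ∧
    ∀ (ρ : ℝ), 0 ≤ ρ → ρ ≤ 1 → ∀ (κ : Type) [Fintype κ] (f : (κ → ℝ) → Fin m → ℝ), Pt f → Bal f →
    ∀ (u : Fin m → κ → ℝ), Frame u → ∀ H : Fin m → Fin m → ℝ, HS H → fs H ≤ r0 ^ 2 →
    (∀ j i, mo (fun x => f x j) i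
      = am m * ∑ k, ((if j = k then 1 else 0) + H j k - 1 / (m : ℝ)) * u k i) →
    am m ^ 2 * (1 / 2 + 1 / (2 * (m : ℝ))) * fs H
      ≤ am m * (∫ x, (1 - chi K ρ (xi u x)) * ∑ j, f x j * gap (xi u x) j ∂(gam κ))
        + C * ρ * Real.sqrt (cost u f) * Real.sqrt (fs H) + C * Real.sqrt (fs H) ^ 3 := by
  obtain ⟨C1, r1, hC1, hr1, hloc⟩ := local_expansion m hm
  obtain ⟨C2, hC2, hchi⟩ := chi_dev m K hK
  have ham := am_pos hm
  have hm0 : (0 : ℝ) < m := by
    have : 0 < m := by omega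
    exact_mod_cast this
  refine ⟨am m * ((m : ℝ) * (C1 * C2) + (m : ℝ) ^ 2 * C2 + C1), r1, by positivity, hr1, ?_⟩
  intro ρ hρ hρ1 κ _ f hf hbal u hu H hH hfs hz
  obtain ⟨c, hc0, hcN, hle⟩ := hloc H hH hfs
  set N := Real.sqrt (fs H) with hN
  set T := cost u f with hT
  have hN0 : 0 ≤ N := Real.sqrt_nonneg _
  have hN2 : N ^ 2 = fs H := Real.sq_sqrt (Gbb_fs_nonneg H)
  have hchi' := hchi ρ hρ hρ1 κ u hu f hf
  have : Nonempty (Fin m) := ⟨⟨0, by omega⟩⟩
  -- basic functions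
  have hξm := Gbb_meas_xi (κ := κ) u
  have hXm : Measurable (fun x : κ → ℝ => chi K ρ (xi u x)) := (Gbb_chi_meas K ρ).comp hξm
  have hX0 : ∀ x : κ → ℝ, 0 ≤ chi K ρ (xi u x) := fun x => (Gbb_chi_bd K ρ hK hρ _).1
  have hX1 : ∀ x : κ → ℝ, chi K ρ (xi u x) ≤ 1 := fun x => (Gbb_chi_bd K ρ hK hρ _).2
  have hPm : ∀ j, Measurable (fun x : κ → ℝ => cellF j (xi u x)) :=
    fun j => (cellF_measurable j).comp hξm
  have hP0 : ∀ j (x : κ → ℝ), 0 ≤ cellF j (xi u x) := fun j x => cellF_nonneg j _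
  have hP1 : ∀ j (x : κ → ℝ), cellF j (xi u x) ≤ 1 := fun j x => cellF_le_one j _
  have hf0 : ∀ j x, 0 ≤ f x j := fun j x => (hf.simp x).1 j
  have hfs1 : ∀ x, ∑ j, f x j = 1 := fun x => (hf.simp x).2
  have hf1 : ∀ j x, f x j ≤ 1 := by
    intro j x
    rw [← hfs1 x]
    exact Finset.single_le_sum (f := fun j => f x j) (fun j _ => hf0 j x) (Finset.mem_univ j)
  have hdm : ∀ j, Measurable (fun x => dev u f j x) := by
    intro j
    unfold dev
    exact (hf.meas j).sub (hPm j)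
  have hdb : ∀ j x, |dev u f j x| ≤ 1 := by
    intro j x
    unfold dev
    rw [abs_le]
    constructor
    · linarith [hf0 j x, hP1 j x]
    · linarith [hf1 j x, hP0 j x]
  have hPb : ∀ j (x : κ → ℝ), |cellF j (xi u x)| ≤ 1 := by
    intro j x
    rw [abs_of_nonneg (hP0 j x)]
    exact hP1 j x
  have hXdb : ∀ j x, |chi K ρ (xi u x) * dev u f j x| ≤ 1 := by
    intro j x
    rw [abs_mul, abs_of_nonneg (hX0 x)]
    calc chi K ρ (xi u x) * |dev u f j x| ≤ 1 * 1 :=
          mul_le_mul (hX1 x) (hdb j x) (abs_nonneg _) zero_le_one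
      _ = 1 := one_mul 1
  -- integrability
  have iP : ∀ j, Integrable (fun x => cellF j (xi u x)) (gam κ) :=
    fun j => Gbb_int_b _ (hPm j) 1 (hPb j)
  have iPx : ∀ j l, Integrable (fun x => cellF j (xi u x) * xi u x l) (gam κ) :=
    fun j l => Gbb_int_bxi u l _ (hPm j) 1 (hPb j)
  have ih : ∀ j, Integrable (fun x => dev u f j x) (gam κ) :=
    fun j => Gbb_int_b _ (hdm j) 1 (hdb j)
  have ihx : ∀ j l, Integrable (fun x => dev u f j x * xi u x l) (gam κ) :=
    fun j l => Gbb_int_bxi u l _ (hdm j) 1 (hdb j)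
  have iXh : ∀ j, Integrable (fun x => chi K ρ (xi u x) * dev u f j x) (gam κ) :=
    fun j => Gbb_int_b _ (hXm.mul (hdm j)) 1 (hXdb j)
  have iXhx : ∀ j l, Integrable (fun x => chi K ρ (xi u x) * dev u f j x * xi u x l) (gam κ) :=
    fun j l => Gbb_int_bxi u l _ (hXm.mul (hdm j)) 1 (hXdb j)
  -- the transfer of integrals
  have hMP := measurePreserving_xi u hu
  have tr : ∀ F : (Fin m → ℝ) → ℝ, Measurable F →
      ∫ x, F (xi u x) ∂(gam κ) = ∫ g, F g ∂(gam (Fin m)) := by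
    intro F hF
    rw [← hMP.map_eq, integral_map hMP.measurable.aemeasurable hF.aestronglyMeasurable]
  -- values of the integrals
  have v1 : ∀ j, ∫ x, cellF j (xi u x) ∂(gam κ) = 1 / (m : ℝ) := by
    intro j
    rw [tr _ (cellF_measurable j), cellF_mean (by omega) j]
  have v2 : ∀ j l, ∫ x, cellF j (xi u x) * xi u x l ∂(gam κ)
      = am m * ((if j = l then 1 else 0) - 1 / (m : ℝ)) := by
    intro j l
    rw [tr (fun g => cellF j g * g l) ((cellF_measurable j).mul (measurable_pi_apply l)),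
      cellF_moment hm j l]
  have v3 : ∀ j, ∫ x, dev u f j x ∂(gam κ) = 0 := by
    intro j
    unfold dev
    rw [integral_sub (Gbb_int_b _ (hf.meas j) 1 (fun x => by
      rw [abs_of_nonneg (hf0 j x)]; exact hf1 j x)) (iP j), v1 j, hbal j, sub_self]
  have v4 : ∀ j l, ∫ x, dev u f j x * xi u x l ∂(gam κ) = am m * H j l :=
    fun j l => int_dev_xi hm u hu f hf H hz j l
  -- the affine functions
  have hcontA : ∀ j, Continuous (fun g : Fin m → ℝ => c j + g j + ∑ l, H j l * g l) := by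
    intro j
    fun_prop
  have hcontS : Continuous (fun g : Fin m → ℝ => ⨆ j, (c j + g j + ∑ l, H j l * g l)) := by
    have := (emx_cont_iSup (ι := Fin m)).comp (continuous_pi hcontA)
    exact this
  have iA : ∀ j, Integrable (fun x => c j + xi u x j + ∑ l, H j l * xi u x l) (gam κ) := by
    intro j
    exact ((integrable_const _).add (Gbb_int_xi u j)).add
      (integrable_finsetSum _ fun l _ => (Gbb_int_xi u l).const_mul _)
  have iS : Integrable (fun x => ⨆ j, (c j + xi u x j + ∑ l, H j l * xi u x l)) (gam κ) := by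
    refine (integrable_finsetSum Finset.univ fun j _ => (iA j).norm).mono'
      (hcontS.measurable.comp hξm).aestronglyMeasurable (ae_of_all _ fun x => ?_)
    rw [Real.norm_eq_abs]
    refine (emx_abs_iSup _).trans ?_
    rw [pi_norm_le_iff_of_nonneg (Finset.sum_nonneg fun j _ => norm_nonneg _)]
    intro j
    exact Finset.single_le_sum (f := fun j => ‖c j + xi u x j + ∑ l, H j l * xi u x l‖)
      (fun j _ => norm_nonneg _) (Finset.mem_univ j)
  have hsup : ∫ x, (⨆ j, (c j + xi u x j + ∑ l, H j l * xi u x l)) ∂(gam κ)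
      = ∫ g, (⨆ j, (c j + g j + ∑ l, H j l * g l)) ∂(gam (Fin m)) :=
    tr (fun g => ⨆ j, (c j + g j + ∑ l, H j l * g l)) hcontS.measurable
  -- the almost sure facts
  have ae1 : ∀ᵐ x ∂(gam κ), ∑ j, cellF j (xi u x) = 1 :=
    hMP.quasiMeasurePreserving.ae (cellF_sum_ae (by omega))
  have ae2 : ∀ᵐ x ∂(gam κ), ∃ j : Fin m, ∀ l, l ≠ j → xi u x l < xi u x j :=
    hMP.quasiMeasurePreserving.ae (ae_strict_max (by omega))
  -- gap integrable
  have igap : Integrable (fun x => (1 - chi K ρ (xi u x)) * ∑ j, f x j * gap (xi u x) j)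
      (gam κ) := by
    have h1 : ∀ j, Integrable (fun x => gap (xi u x) j) (gam κ) := by
      intro j
      unfold gap
      refine Integrable.sub ?_ (Gbb_int_xi u j)
      refine (integrable_finsetSum Finset.univ fun j _ => (Gbb_int_xi u j).norm).mono'
        ((emx_cont_iSup (ι := Fin m)).measurable.comp hξm).aestronglyMeasurable
        (ae_of_all _ fun x => ?_)
      rw [Real.norm_eq_abs]
      refine (emx_abs_iSup _).trans ?_
      rw [pi_norm_le_iff_of_nonneg (Finset.sum_nonneg fun j _ => norm_nonneg _)]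
      intro j
      exact Finset.single_le_sum (f := fun j => ‖xi u x j‖)
        (fun j _ => norm_nonneg _) (Finset.mem_univ j)
    have h2 : Integrable (fun x => ∑ j, f x j * gap (xi u x) j) (gam κ) := by
      refine integrable_finsetSum _ fun j _ => ?_
      refine (h1 j).bdd_mul (c := 1) (hf.meas j).aestronglyMeasurable (ae_of_all _ fun x => ?_)
      rw [Real.norm_eq_abs, abs_of_nonneg (hf0 j x)]
      exact hf1 j x
    refine h2.bdd_mul (c := 1) (measurable_const.sub hXm).aestronglyMeasurable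
      (ae_of_all _ fun x => ?_)
    rw [Real.norm_eq_abs, abs_of_nonneg (by linarith [hX1 x])]
    linarith [hX0 x]
  -- the pointwise inequality
  have hpt : ∀ᵐ x ∂(gam κ),
      (∑ j, c j * cellF j (xi u x)) + (∑ j, 1 * (cellF j (xi u x) * xi u x j))
        + (∑ j, ∑ l, H j l * (cellF j (xi u x) * xi u x l))
        + (∑ j, c j * dev u f j x) - (∑ j, c j * (chi K ρ (xi u x) * dev u f j x))
        - (1 - chi K ρ (xi u x)) * ∑ j, f x j * gap (xi u x) j
        + (∑ j, ∑ l, H j l * (dev u f j x * xi u x l))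
        - (∑ j, ∑ l, H j l * (chi K ρ (xi u x) * dev u f j x * xi u x l))
      ≤ ⨆ j, (c j + xi u x j + ∑ l, H j l * xi u x l) := by
    filter_upwards [ae1, ae2] with x hx1 hx2
    obtain ⟨j0, hj0⟩ := hx2
    have hs := Gbb_cell_sup (xi u x) j0 hj0
    set X := chi K ρ (xi u x) with hX
    set S := ⨆ j, (c j + xi u x j + ∑ l, H j l * xi u x l) with hS
    have h1 : ∑ j, ((1 - X) * f x j + X * cellF j (xi u x)) *
        (c j + xi u x j + ∑ l, H j l * xi u x l) ≤ S := by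
      calc ∑ j, ((1 - X) * f x j + X * cellF j (xi u x)) *
            (c j + xi u x j + ∑ l, H j l * xi u x l)
          ≤ ∑ j, ((1 - X) * f x j + X * cellF j (xi u x)) * S := by
            refine Finset.sum_le_sum fun j _ => ?_
            refine mul_le_mul_of_nonneg_left ?_ ?_
            · exact le_ciSup (f := fun j => c j + xi u x j + ∑ l, H j l * xi u x l)
                (Set.finite_range _).bddAbove j
            · have := hX0 x
              have := hX1 x
              have := hf0 j x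
              have := hP0 j x
              have h5 : 0 ≤ 1 - X := by linarith
              have h6 : 0 ≤ X := hX0 x
              positivity
        _ = S := by
            rw [← Finset.sum_mul, Finset.sum_add_distrib, ← Finset.mul_sum, ← Finset.mul_sum,
              hfs1 x, hx1]
            ring
    refine le_trans (le_of_eq ?_) h1
    have h2 : ∑ j, f x j * gap (xi u x) j = (∑ j, cellF j (xi u x) * xi u x j)
        - ∑ j, f x j * xi u x j := by
      unfold gap
      simp only [mul_sub, Finset.sum_sub_distrib]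
      rw [← Finset.sum_mul, hfs1 x, one_mul, hs]
    rw [h2]
    have h3 : ∀ j, ∑ l, H j l * (cellF j (xi u x) * xi u x l)
        = cellF j (xi u x) * ∑ l, H j l * xi u x l := by
      intro j
      rw [Finset.mul_sum]
      exact Finset.sum_congr rfl fun l _ => by ring
    have h4 : ∀ j, ∑ l, H j l * (dev u f j x * xi u x l)
        = dev u f j x * ∑ l, H j l * xi u x l := by
      intro j
      rw [Finset.mul_sum]
      exact Finset.sum_congr rfl fun l _ => by ring
    have h5 : ∀ j, ∑ l, H j l * (X * dev u f j x * xi u x l)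
        = X * dev u f j x * ∑ l, H j l * xi u x l := by
      intro j
      rw [Finset.mul_sum]
      exact Finset.sum_congr rfl fun l _ => by ring
    simp only [h3, h4, h5]
    rw [mul_sub, Finset.mul_sum, Finset.mul_sum]
    simp only [← Finset.sum_add_distrib, ← Finset.sum_sub_distrib]
    refine Finset.sum_congr rfl fun j _ => ?_
    simp only [dev]
    ring
  -- integrate
  obtain ⟨a1, b1⟩ := Gbb_int1 (gam κ) c (fun j x => cellF j (xi u x)) iP
  obtain ⟨a2, b2⟩ := Gbb_int1 (gam κ) (fun _ => (1 : ℝ)) (fun j x => cellF j (xi u x) * xi u x j)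
    (fun j => iPx j j)
  obtain ⟨a3, b3⟩ := Gbb_int2 (gam κ) H (fun j l x => cellF j (xi u x) * xi u x l) iPx
  obtain ⟨a4, b4⟩ := Gbb_int1 (gam κ) c (fun j x => dev u f j x) ih
  obtain ⟨a5, b5⟩ := Gbb_int1 (gam κ) c (fun j x => chi K ρ (xi u x) * dev u f j x) iXh
  obtain ⟨a7, b7⟩ := Gbb_int2 (gam κ) H (fun j l x => dev u f j x * xi u x l) ihx
  obtain ⟨a8, b8⟩ := Gbb_int2 (gam κ) H (fun j l x => chi K ρ (xi u x) * dev u f j x * xi u x l)
    iXhx
  have hint := integral_mono_ae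
    (((((((a1.add a2).add a3).add a4).sub a5).sub igap).add a7).sub a8) iS hpt
  have hsplit : ∫ x : κ → ℝ, ((∑ j, c j * cellF j (xi u x)) + (∑ j, 1 * (cellF j (xi u x) * xi u x j))
        + (∑ j, ∑ l, H j l * (cellF j (xi u x) * xi u x l))
        + (∑ j, c j * dev u f j x) - (∑ j, c j * (chi K ρ (xi u x) * dev u f j x))
        - (1 - chi K ρ (xi u x)) * ∑ j, f x j * gap (xi u x) j
        + (∑ j, ∑ l, H j l * (dev u f j x * xi u x l))
        - (∑ j, ∑ l, H j l * (chi K ρ (xi u x) * dev u f j x * xi u x l))) ∂(gam κ)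
      = (∑ j, c j * (1 / (m : ℝ))) + (∑ j : Fin m, 1 * (am m * ((if j = j then 1 else 0) - 1 / (m : ℝ))))
        + (∑ j, ∑ l, H j l * (am m * ((if j = l then 1 else 0) - 1 / (m : ℝ))))
        + (∑ j, c j * 0)
        - (∑ j, c j * ∫ x : κ → ℝ, chi K ρ (xi u x) * dev u f j x ∂(gam κ))
        - (∫ x : κ → ℝ, (1 - chi K ρ (xi u x)) * ∑ j, f x j * gap (xi u x) j ∂(gam κ))
        + (∑ j, ∑ l, H j l * (am m * H j l))
        - (∑ j, ∑ l, H j l * ∫ x : κ → ℝ, chi K ρ (xi u x) * dev u f j x * xi u x l ∂(gam κ)) := by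
    rw [Gbb_split _ a1 a2 a3 a4 a5 igap a7 a8, b1, b2, b3, b4, b5, b7, b8]
    simp only [v1, v2, v3, v4]
  have hint2 := hint
  simp only [Pi.add_apply, Pi.sub_apply] at hint2
  rw [hsup] at hint2
  have hint3 := le_trans (le_of_eq hsplit.symm) (le_trans hint2 hle)
  -- evaluate
  have e1 : ∑ j, c j * (1 / (m : ℝ)) = 0 := by
    rw [← Finset.sum_mul, hc0, zero_mul]
  have e2 : ∑ j : Fin m, 1 * (am m * ((if j = j then 1 else 0) - 1 / (m : ℝ))) = MM (Fin m) := by
    simp only [if_true, one_mul]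
    rw [Finset.sum_const, Finset.card_univ, Fintype.card_fin, nsmul_eq_mul]
    have hm1 : (m : ℝ) - 1 ≠ 0 := by
      have : (2 : ℝ) ≤ m := by exact_mod_cast hm
      linarith
    unfold am
    field_simp
  have e3 : ∑ j, ∑ l, H j l * (am m * ((if j = l then 1 else 0) - 1 / (m : ℝ)))
      = am m * ∑ j, H j j := by
    rw [Finset.mul_sum]
    refine Finset.sum_congr rfl fun j _ => ?_
    have h1 : ∀ l, H j l * (am m * ((if j = l then 1 else 0) - 1 / (m : ℝ)))
        = (if j = l then am m * H j l else 0) - am m / m * H j l := by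
      intro l
      split_ifs
      · ring
      · ring
    simp only [h1]
    rw [Finset.sum_sub_distrib, ← Finset.mul_sum, hH.row j]
    simp
  have e4 : ∑ j : Fin m, c j * (0 : ℝ) = 0 := by simp
  have e7 : ∑ j, ∑ l, H j l * (am m * H j l) = am m * fs H := by
    unfold fs
    rw [Finset.mul_sum]
    refine Finset.sum_congr rfl fun j _ => ?_
    rw [Finset.mul_sum]
    exact Finset.sum_congr rfl fun l _ => by ring
  have e5 : ∑ j, c j * ∫ x, chi K ρ (xi u x) * dev u f j x ∂(gam κ)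
      ≤ (m : ℝ) * (C1 * N * (C2 * ρ * Real.sqrt T)) := by
    calc ∑ j, c j * ∫ x, chi K ρ (xi u x) * dev u f j x ∂(gam κ)
        ≤ ∑ j : Fin m, C1 * N * (C2 * ρ * Real.sqrt T) := by
          refine Finset.sum_le_sum fun j _ => ?_
          refine (le_abs_self _).trans ?_
          rw [abs_mul]
          exact mul_le_mul (hcN j) (hchi' j j).1 (abs_nonneg _) (by positivity)
      _ = (m : ℝ) * (C1 * N * (C2 * ρ * Real.sqrt T)) := by
          rw [Finset.sum_const, Finset.card_univ, Fintype.card_fin, nsmul_eq_mul]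
  have e8 : ∑ j, ∑ l, H j l * ∫ x : κ → ℝ, chi K ρ (xi u x) * dev u f j x * xi u x l ∂(gam κ)
      ≤ (m : ℝ) * ((m : ℝ) * (N * (C2 * ρ * Real.sqrt T))) := by
    calc ∑ j, ∑ l, H j l * ∫ x : κ → ℝ, chi K ρ (xi u x) * dev u f j x * xi u x l ∂(gam κ)
        ≤ ∑ j : Fin m, ∑ l : Fin m, N * (C2 * ρ * Real.sqrt T) := by
          refine Finset.sum_le_sum fun j _ => Finset.sum_le_sum fun l _ => ?_
          refine (le_abs_self _).trans ?_
          rw [abs_mul]
          exact mul_le_mul (Gbb_abs_le H j l) (hchi' j l).2 (abs_nonneg _) hN0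
      _ = (m : ℝ) * ((m : ℝ) * (N * (C2 * ρ * Real.sqrt T))) := by
          rw [Finset.sum_const, Finset.sum_const, Finset.card_univ, Fintype.card_fin,
            nsmul_eq_mul, nsmul_eq_mul]
  rw [e1, e2, e3, e4, e7] at hint3
  set D := ∫ x, (1 - chi K ρ (xi u x)) * ∑ j, f x j * gap (xi u x) j ∂(gam κ) with hD
  have hfin : am m * (1 / 2 + 1 / (2 * (m : ℝ))) * fs H ≤ D
      + ((m : ℝ) * (C1 * C2) + (m : ℝ) ^ 2 * C2) * (ρ * Real.sqrt T * N) + C1 * N ^ 3 := by
    have h9 : am m * (1 / 2 + 1 / (2 * (m : ℝ))) * fs H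
        = am m * fs H - am m / 2 * (1 - 1 / (m : ℝ)) * fs H := by
      field_simp
      ring
    rw [h9]
    nlinarith [hint3, e5, e8]
  have hTN : 0 ≤ ρ * Real.sqrt T * N := by positivity
  calc am m ^ 2 * (1 / 2 + 1 / (2 * (m : ℝ))) * fs H
      = am m * (am m * (1 / 2 + 1 / (2 * (m : ℝ))) * fs H) := by ring
    _ ≤ am m * (D + ((m : ℝ) * (C1 * C2) + (m : ℝ) ^ 2 * C2) * (ρ * Real.sqrt T * N)
        + C1 * N ^ 3) := mul_le_mul_of_nonneg_left hfin ham.le
    _ ≤ am m * D + am m * ((m : ℝ) * (C1 * C2) + (m : ℝ) ^ 2 * C2 + C1) * ρ * Real.sqrt T * N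
        + am m * ((m : ℝ) * (C1 * C2) + (m : ℝ) ^ 2 * C2 + C1) * N ^ 3 := by
        have h1 : 0 ≤ am m * C1 * (ρ * Real.sqrt T * N) := by positivity
        have h2 : 0 ≤ am m * ((m : ℝ) * (C1 * C2) + (m : ℝ) ^ 2 * C2) * N ^ 3 := by positivity
        have h3 : am m * D + am m * ((m : ℝ) * (C1 * C2) + (m : ℝ) ^ 2 * C2 + C1) * ρ
            * Real.sqrt T * N
            + am m * ((m : ℝ) * (C1 * C2) + (m : ℝ) ^ 2 * C2 + C1) * N ^ 3
            = am m * (D + ((m : ℝ) * (C1 * C2) + (m : ℝ) ^ 2 * C2) * (ρ * Real.sqrt T * N)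
              + C1 * N ^ 3) + am m * C1 * (ρ * Real.sqrt T * N)
              + am m * ((m : ℝ) * (C1 * C2) + (m : ℝ) ^ 2 * C2) * N ^ 3 := by ring
        rw [h3]
        linarith

end Pool.H65.PT
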