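import Pool.Agent.Helper65.PT.Defs
import Pool.Agent.Helper65.PT.Law
import Pool.Agent.Helper65.PS.Ibp

set_option autoImplicit false

open MeasureTheory ProbabilityTheory Pool.H65.PS

namespace Pool.H65.PT

theorem C1b.continuous {κ : Type} [Fintype κ] {V : (κ → ℝ) → ℝ} {V' : κ → (κ → ℝ) → ℝ}
    (hV : C1b V V') : Continuous V :=
  continuous_iff_continuousAt.mpr fun x => (hV.deriv x).continuousAt

theorem Oud_rot {κ : Type} [Fintype κ] (t : ℝ) (h : |t| ≤ 1) (F : (κ → ℝ) × (κ → ℝ) → ℝ)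
    (hF : Continuous F) :
    ∫ p, F p ∂((gam κ).prod (gam κ))
      = ∫ p, F (t • p.1 + Real.sqrt (1 - t ^ 2) • p.2, Real.sqrt (1 - t ^ 2) • p.1 - t • p.2)
        ∂((gam κ).prod (gam κ)) := by
  have hm := measurePreserving_rot (κ := κ) t h
  conv_lhs => rw [← hm.map_eq]
  rw [integral_map hm.measurable.aemeasurable hF.aestronglyMeasurable]

theorem Oud_int {κ : Type} [Fintype κ] (i : κ) : Integrable (fun x : κ → ℝ => |x i|) (gam κ) := by
  refine integrable_gam _ 1 1 (by fun_prop) (fun g => ?_)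
  rw [abs_abs, one_mul, pow_one]
  have := norm_le_pi_norm g i
  rw [Real.norm_eq_abs] at this
  linarith

theorem Oud_ibp {κ : Type} [Fintype κ] {V : (κ → ℝ) → ℝ} {V' : κ → (κ → ℝ) → ℝ} (hV : C1b V V')
    (x : κ → ℝ) (t σ : ℝ) (i : κ) :
    ∫ y, y i * V (t • x + σ • y) ∂(gam κ) = ∫ y, σ * V' i (t • x + σ • y) ∂(gam κ) := by
  classical
  obtain ⟨B, hB⟩ := hV.bdd
  obtain ⟨B', hB'⟩ := hV.bdd'
  have hB0 : 0 ≤ B := (abs_nonneg _).trans (hB x)
  have hB0' : 0 ≤ B' := (abs_nonneg _).trans (hB' i x)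
  refine gam_ibp i (fun y => V (t • x + σ • y)) (fun y => σ * V' i (t • x + σ • y))
    (B + |σ| * B') 0 (hV.continuous.comp (by fun_prop))
    (continuous_const.mul ((hV.cont' i).comp (by fun_prop))) ?_ ?_ ?_
  · intro g s
    have h1 : HasDerivAt (fun s : ℝ => t • x + σ • Function.update g i s)
        (σ • Pi.single i (1 : ℝ)) s :=
      ((hasDerivAt_update g i s).const_smul σ).const_add (t • x)
    have h2 := (hV.deriv (t • x + σ • Function.update g i s)).comp_hasDerivAt s h1
    refine h2.congr_deriv ?_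
    rw [sum_apply]
    simp [Pi.single_apply, mul_comm]
  · intro g
    simp only [pow_zero, mul_one]
    have := hB (t • x + σ • g)
    have h2 : 0 ≤ |σ| * B' := by positivity
    linarith
  · intro g
    simp only [pow_zero, mul_one, abs_mul]
    have := mul_le_mul_of_nonneg_left (hB' i (t • x + σ • g)) (abs_nonneg σ)
    linarith

theorem sg_hasDerivAt {κ : Type} [Fintype κ] {V W : (κ → ℝ) → ℝ} {V' W' : κ → (κ → ℝ) → ℝ}
    (hV : C1b V V') (hW : C1b W W') (t : ℝ) (ht : |t| < 1) :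
    HasDerivAt (fun s => sg s V W) (∑ i, sg t (V' i) (W' i)) t := by
  have hVc := hV.continuous
  have hWc := hW.continuous
  obtain ⟨BV, hBV⟩ := hV.bdd
  obtain ⟨BV', hBV'⟩ := hV.bdd'
  obtain ⟨BW, hBW⟩ := hW.bdd
  obtain ⟨BW', hBW'⟩ := hW.bdd'
  have hBV0 : 0 ≤ BV := (abs_nonneg _).trans (hBV 0)
  have hBW0 : 0 ≤ BW := (abs_nonneg _).trans (hBW 0)
  set μ := (gam κ).prod (gam κ) with hμ
  set σ : ℝ := Real.sqrt (1 - t ^ 2) with hσ
  have ht2 : 0 < 1 - t ^ 2 := by
    have : t ^ 2 < 1 := by rw [← sq_abs]; nlinarith [abs_nonneg t]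
    linarith
  have hσ0 : 0 < σ := Real.sqrt_pos.mpr ht2
  have hσ2 : σ ^ 2 = 1 - t ^ 2 := Real.sq_sqrt ht2.le
  set b : ℝ := (1 + |t|) / 2 with hb
  have hb1 : b < 1 := by rw [hb]; linarith
  have hb0 : 0 ≤ b := by rw [hb]; positivity
  set c : ℝ := Real.sqrt (1 - b ^ 2) with hc
  have hc0 : 0 < c := Real.sqrt_pos.mpr (by nlinarith)
  have hball : ∀ s ∈ Metric.ball t ((1 - |t|) / 2), |s| < b := by
    intro s hs
    rw [Metric.mem_ball, Real.dist_eq] at hs
    have : |s| ≤ |s - t| + |t| := by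
      calc |s| = |(s - t) + t| := by ring_nf
        _ ≤ _ := abs_add_le _ _
    rw [hb]; linarith
  have hmain := hasDerivAt_integral_of_dominated_loc_of_deriv_le
    (μ := μ) (s := Metric.ball t ((1 - |t|) / 2)) (x₀ := t)
    (F := fun (s : ℝ) (p : (κ → ℝ) × (κ → ℝ)) => V p.1 * W (s • p.1 + Real.sqrt (1 - s ^ 2) • p.2))
    (F' := fun (s : ℝ) (p : (κ → ℝ) × (κ → ℝ)) => V p.1 *
      ∑ i, W' i (s • p.1 + Real.sqrt (1 - s ^ 2) • p.2)
        * (p.1 i - s / Real.sqrt (1 - s ^ 2) * p.2 i))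
    (bound := fun p => BV * ∑ i, |BW'| * (|p.1 i| + c⁻¹ * |p.2 i|))
    (Metric.ball_mem_nhds t (by linarith)) ?_ ?_ ?_ ?_ ?_ ?_
  · have hder := hmain.2
    unfold sg
    refine hder.congr_deriv ?_
    -- the identity
    have hFi : ∀ i, Continuous (fun p : (κ → ℝ) × (κ → ℝ) => V p.1 *
        (W' i (t • p.1 + σ • p.2) * (p.1 i - t / σ * p.2 i))) := by
      intro i
      have h1 : Continuous (fun p : (κ → ℝ) × (κ → ℝ) => V p.1) := hVc.comp continuous_fst
      have h2 : Continuous (fun p : (κ → ℝ) × (κ → ℝ) => W' i (t • p.1 + σ • p.2)) :=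
        (hW.cont' i).comp (by fun_prop)
      exact h1.mul (h2.mul (by fun_prop))
    have hFint : ∀ i, Integrable (fun p : (κ → ℝ) × (κ → ℝ) => V p.1 *
        (W' i (t • p.1 + σ • p.2) * (p.1 i - t / σ * p.2 i))) μ := by
      intro i
      have hbd : Integrable (fun p : (κ → ℝ) × (κ → ℝ) =>
          BV * (|BW'| * (|p.1 i| + |t / σ| * |p.2 i|))) μ :=
        ((((Oud_int i).comp_fst (gam κ)).add (((Oud_int i).comp_snd (gam κ)).const_mul _)).const_mul
          _).const_mul _
      refine hbd.mono' (hFi i).aestronglyMeasurable (Filter.Eventually.of_forall fun p => ?_)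
      rw [Real.norm_eq_abs, abs_mul, abs_mul]
      refine mul_le_mul (hBV _) (mul_le_mul ((hBW' i _).trans (le_abs_self _)) ?_ (abs_nonneg _)
        (abs_nonneg _)) (by positivity) hBV0
      refine (abs_sub _ _).trans ?_
      rw [abs_mul]
    have e1 : ∫ p, V p.1 * ∑ i, W' i (t • p.1 + σ • p.2) * (p.1 i - t / σ * p.2 i) ∂μ
        = ∑ i, ∫ p, V p.1 * (W' i (t • p.1 + σ • p.2) * (p.1 i - t / σ * p.2 i)) ∂μ := by
      rw [← integral_finsetSum _ (fun i _ => hFint i)]
      simp_rw [Finset.mul_sum]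
    rw [e1]
    refine Finset.sum_congr rfl fun i _ => ?_
    rw [hμ, Oud_rot t ht.le _ (hFi i)]
    have e2 : ∀ p : (κ → ℝ) × (κ → ℝ),
        V (t • p.1 + σ • p.2) * (W' i (t • (t • p.1 + σ • p.2) + σ • (σ • p.1 - t • p.2))
          * ((t • p.1 + σ • p.2) i - t / σ * (σ • p.1 - t • p.2) i))
        = σ⁻¹ * (W' i p.1 * (p.2 i * V (t • p.1 + σ • p.2))) := by
      intro p
      have f1 : t • (t • p.1 + σ • p.2) + σ • (σ • p.1 - t • p.2) = p.1 := by
        funext j
        simp only [Pi.add_apply, Pi.sub_apply, Pi.smul_apply, smul_eq_mul]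
        linear_combination (p.1 j) * hσ2
      rw [f1]
      have f2 : (t • p.1 + σ • p.2) i - t / σ * (σ • p.1 - t • p.2) i = σ⁻¹ * p.2 i := by
        simp only [Pi.add_apply, Pi.sub_apply, Pi.smul_apply, smul_eq_mul]
        field_simp
        linear_combination (p.2 i) * hσ2
      rw [f2]
      ring
    have e3 : ∫ p : (κ → ℝ) × (κ → ℝ),
        V (t • p.1 + σ • p.2) * (W' i (t • (t • p.1 + σ • p.2) + σ • (σ • p.1 - t • p.2))
          * ((t • p.1 + σ • p.2) i - t / σ * (σ • p.1 - t • p.2) i)) ∂((gam κ).prod (gam κ))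
        = ∫ p : (κ → ℝ) × (κ → ℝ), σ⁻¹ * (W' i p.1 * (p.2 i * V (t • p.1 + σ • p.2)))
          ∂((gam κ).prod (gam κ)) := integral_congr_ae (Filter.Eventually.of_forall e2)
    rw [e3, integral_const_mul]
    -- Fubini
    have hG : Continuous (fun p : (κ → ℝ) × (κ → ℝ) => W' i p.1 * (p.2 i * V (t • p.1 + σ • p.2))) := by
      have h1 : Continuous (fun p : (κ → ℝ) × (κ → ℝ) => W' i p.1) := (hW.cont' i).comp continuous_fst
      have h2 : Continuous (fun p : (κ → ℝ) × (κ → ℝ) => V (t • p.1 + σ • p.2)) :=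
        hVc.comp (by fun_prop)
      have h3 : Continuous (fun p : (κ → ℝ) × (κ → ℝ) => p.2 i) := by fun_prop
      exact h1.mul (h3.mul h2)
    have hGint : Integrable (fun p : (κ → ℝ) × (κ → ℝ) =>
        W' i p.1 * (p.2 i * V (t • p.1 + σ • p.2))) ((gam κ).prod (gam κ)) := by
      have hbd : Integrable (fun p : (κ → ℝ) × (κ → ℝ) => |BW'| * (|p.2 i| * BV))
          ((gam κ).prod (gam κ)) :=
        (((Oud_int i).comp_snd (gam κ)).mul_const _).const_mul _
      refine hbd.mono' hG.aestronglyMeasurable (Filter.Eventually.of_forall fun p => ?_)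
      rw [Real.norm_eq_abs, abs_mul, abs_mul]
      exact mul_le_mul ((hBW' i _).trans (le_abs_self _))
        (mul_le_mul_of_nonneg_left (hBV _) (abs_nonneg _)) (by positivity) (abs_nonneg _)
    rw [integral_prod _ hGint]
    have e4 : ∀ x : κ → ℝ, ∫ y, W' i x * (y i * V (t • x + σ • y)) ∂(gam κ)
        = σ * ∫ y, W' i x * V' i (t • x + σ • y) ∂(gam κ) := by
      intro x
      rw [integral_const_mul, Oud_ibp hV x t σ i, integral_const_mul, integral_const_mul]
      ring
    simp_rw [e4]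
    rw [integral_const_mul, ← mul_assoc, inv_mul_cancel₀ hσ0.ne', one_mul]
    have hH : Continuous (fun p : (κ → ℝ) × (κ → ℝ) => W' i p.1 * V' i (t • p.1 + σ • p.2)) := by
      have h1 : Continuous (fun p : (κ → ℝ) × (κ → ℝ) => W' i p.1) := (hW.cont' i).comp continuous_fst
      have h2 : Continuous (fun p : (κ → ℝ) × (κ → ℝ) => V' i (t • p.1 + σ • p.2)) :=
        (hV.cont' i).comp (by fun_prop)
      exact h1.mul h2
    have hHint : Integrable (fun p : (κ → ℝ) × (κ → ℝ) => W' i p.1 * V' i (t • p.1 + σ • p.2))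
        ((gam κ).prod (gam κ)) := by
      refine (integrable_const (|BW'| * |BV'|)).mono' hH.aestronglyMeasurable
        (Filter.Eventually.of_forall fun p => ?_)
      rw [Real.norm_eq_abs, abs_mul]
      exact mul_le_mul ((hBW' i _).trans (le_abs_self _)) ((hBV' i _).trans (le_abs_self _))
        (abs_nonneg _) (abs_nonneg _)
    rw [← integral_prod (fun p : (κ → ℝ) × (κ → ℝ) => W' i p.1 * V' i (t • p.1 + σ • p.2)) hHint,
      Oud_rot t ht.le _ hH]
    refine integral_congr_ae (Filter.Eventually.of_forall fun p => ?_)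
    have f1 : t • (t • p.1 + σ • p.2) + σ • (σ • p.1 - t • p.2) = p.1 := by
      funext j
      simp only [Pi.add_apply, Pi.sub_apply, Pi.smul_apply, smul_eq_mul]
      linear_combination (p.1 j) * hσ2
    show W' i (t • p.1 + σ • p.2) * V' i (t • (t • p.1 + σ • p.2) + σ • (σ • p.1 - t • p.2))
      = V' i p.1 * W' i (t • p.1 + σ • p.2)
    rw [f1, mul_comm]
  · -- measurability of F
    refine Filter.Eventually.of_forall fun s => Continuous.aestronglyMeasurable ?_
    have h1 : Continuous (fun p : (κ → ℝ) × (κ → ℝ) => V p.1) := hVc.comp continuous_fst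
    have h2 : Continuous (fun p : (κ → ℝ) × (κ → ℝ) => W (s • p.1 + Real.sqrt (1 - s ^ 2) • p.2)) :=
      hWc.comp (by fun_prop)
    exact h1.mul h2
  · refine (integrable_const (BV * BW)).mono' ?_ (Filter.Eventually.of_forall fun p => ?_)
    · refine Continuous.aestronglyMeasurable ?_
      have h1 : Continuous (fun p : (κ → ℝ) × (κ → ℝ) => V p.1) := hVc.comp continuous_fst
      have h2 : Continuous (fun p : (κ → ℝ) × (κ → ℝ) => W (t • p.1 + Real.sqrt (1 - t ^ 2) • p.2)) :=
        hWc.comp (by fun_prop)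
      exact h1.mul h2
    · rw [Real.norm_eq_abs, abs_mul]
      exact mul_le_mul (hBV _) (hBW _) (abs_nonneg _) hBV0
  · refine Continuous.aestronglyMeasurable ?_
    have h1 : Continuous (fun p : (κ → ℝ) × (κ → ℝ) => V p.1) := hVc.comp continuous_fst
    refine h1.mul (continuous_finsetSum _ fun i _ => ?_)
    have h2 : Continuous (fun p : (κ → ℝ) × (κ → ℝ) =>
        W' i (t • p.1 + Real.sqrt (1 - t ^ 2) • p.2)) := (hW.cont' i).comp (by fun_prop)
    exact h2.mul (by fun_prop)
  · refine Filter.Eventually.of_forall fun p s hs => ?_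
    have hsb := hball s hs
    have hcs : c ≤ Real.sqrt (1 - s ^ 2) := by
      rw [hc]
      refine Real.sqrt_le_sqrt ?_
      have : s ^ 2 ≤ b ^ 2 := by
        rw [← sq_abs s]
        exact pow_le_pow_left₀ (abs_nonneg s) hsb.le 2
      linarith
    have hspos : 0 < Real.sqrt (1 - s ^ 2) := lt_of_lt_of_le hc0 hcs
    rw [Real.norm_eq_abs, abs_mul]
    refine mul_le_mul (hBV _) ?_ (abs_nonneg _) hBV0
    refine (Finset.abs_sum_le_sum_abs _ _).trans (Finset.sum_le_sum fun i _ => ?_)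
    rw [abs_mul]
    refine mul_le_mul ((hBW' i _).trans (le_abs_self _)) ?_ (abs_nonneg _) (abs_nonneg _)
    refine (abs_sub _ _).trans ?_
    have h1 : |s / Real.sqrt (1 - s ^ 2)| ≤ c⁻¹ := by
      rw [abs_div, abs_of_pos hspos, div_eq_mul_inv]
      calc |s| * (Real.sqrt (1 - s ^ 2))⁻¹ ≤ 1 * c⁻¹ := by
            refine mul_le_mul (by linarith) (inv_anti₀ hc0 hcs) (by positivity) zero_le_one
        _ = c⁻¹ := one_mul _
    rw [abs_mul]
    have := mul_le_mul_of_nonneg_right h1 (abs_nonneg (p.2 i))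
    linarith
  · refine (integrable_finsetSum _ fun i _ => ?_).const_mul _
    exact (((Oud_int i).comp_fst (gam κ)).add
      (((Oud_int i).comp_snd (gam κ)).const_mul _)).const_mul _
  · refine Filter.Eventually.of_forall fun p s hs => ?_
    have hsb := hball s hs
    have hs2 : 1 - s ^ 2 ≠ 0 := by
      have : s ^ 2 < 1 := by
        rw [← sq_abs s]
        have := abs_nonneg s
        nlinarith
      linarith
    have h1 : HasDerivAt (fun s : ℝ => Real.sqrt (1 - s ^ 2)) (-(s / Real.sqrt (1 - s ^ 2))) s := by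
      have h0 : HasDerivAt (fun s : ℝ => 1 - s ^ 2) (-(2 * s)) s := by
        simpa using (hasDerivAt_pow 2 s).const_sub 1
      refine (h0.sqrt hs2).congr_deriv ?_
      ring
    have h2 : HasDerivAt (fun s : ℝ => s • p.1 + Real.sqrt (1 - s ^ 2) • p.2)
        ((1 : ℝ) • p.1 + (-(s / Real.sqrt (1 - s ^ 2))) • p.2) s :=
      ((hasDerivAt_id s).smul_const p.1).add (h1.smul_const p.2)
    have h3 := ((hW.deriv (s • p.1 + Real.sqrt (1 - s ^ 2) • p.2)).comp_hasDerivAt s h2).const_mul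
      (V p.1)
    refine h3.congr_deriv ?_
    rw [sum_apply]
    congr 1
    refine Finset.sum_congr rfl fun i _ => ?_
    simp only [smul_apply, ContinuousLinearMap.proj_apply, Pi.add_apply,
      Pi.smul_apply, smul_eq_mul]
    ring

end Pool.H65.PT
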