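import Pool.Agent.Helper65.PT.Defs
import Pool.Agent.Helper65.PT.Oub
import Pool.Agent.Helper65.PT.Cam
import Pool.Agent.Helper65.PS.Ibp

set_option autoImplicit false

open MeasureTheory ProbabilityTheory Pool.H65.PS

namespace Pool.H65.PT

section ous

variable {κ : Type} [Fintype κ]

theorem Ous_dot_continuous (u : κ → ℝ) : Continuous (dot u) := by
  unfold dot
  fun_prop

theorem Ous_dot_continuous' (y : κ → ℝ) : Continuous (fun v : κ → ℝ => dot v y) := by
  unfold dot
  fun_prop

theorem Ous_dot_self_continuous : Continuous (fun v : κ → ℝ => dot v v) := by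
  unfold dot
  fun_prop

theorem Ous_dot_add (u x y : κ → ℝ) : dot u (x + y) = dot u x + dot u y := by
  simp [dot, mul_add, Finset.sum_add_distrib]

theorem Ous_dot_smul (u x : κ → ℝ) (c : ℝ) : dot u (c • x) = c * dot u x := by
  simp only [dot, Finset.mul_sum, Pi.smul_apply, smul_eq_mul]
  exact Finset.sum_congr rfl fun i _ => by ring

theorem Ous_dot_smul' (u x : κ → ℝ) (c : ℝ) : dot (c • u) x = c * dot u x := by
  simp only [dot, Finset.mul_sum, Pi.smul_apply, smul_eq_mul]
  exact Finset.sum_congr rfl fun i _ => by ring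

theorem Ous_dot_sub (u x y : κ → ℝ) : dot u (x - y) = dot u x - dot u y := by
  simp [dot, mul_sub, Finset.sum_sub_distrib]

theorem Ous_abs_dot_le (w y : κ → ℝ) (M : ℝ) (hw : ∀ i, |w i| ≤ M) :
    |dot w y| ≤ M * ∑ i, |y i| := by
  unfold dot
  rw [Finset.mul_sum]
  refine (Finset.abs_sum_le_sum_abs _ _).trans (Finset.sum_le_sum fun i _ => ?_)
  rw [abs_mul]
  exact mul_le_mul_of_nonneg_right (hw i) (abs_nonneg _)

theorem Ous_dot_self_nonneg (v : κ → ℝ) : 0 ≤ dot v v :=
  Finset.sum_nonneg fun i _ => mul_self_nonneg _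

/-- exponentials of the l^1 norm are integrable. -/
theorem Ous_exp_abs (c : ℝ) :
    Integrable (fun y : κ → ℝ => Real.exp (c * ∑ i, |y i|)) (gam κ) := by
  have h1 : Integrable (fun t : ℝ => Real.exp (c * |t|)) (gaussianReal 0 1) := by
    have h2 := integrable_exp_mul_gaussianReal (μ := 0) (v := 1) c
    have h3 := integrable_exp_mul_gaussianReal (μ := 0) (v := 1) (-c)
    refine (h2.add h3).mono (by fun_prop) (Filter.Eventually.of_forall fun t => ?_)
    simp only [Pi.add_apply, Real.norm_eq_abs]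
    rw [abs_of_pos (Real.exp_pos _), abs_of_pos (add_pos (Real.exp_pos _) (Real.exp_pos _))]
    rcases abs_cases t with ⟨h, _⟩ | ⟨h, _⟩
    · rw [h]
      have := Real.exp_pos (-c * t)
      linarith
    · rw [h]
      have := Real.exp_pos (c * t)
      have h4 : c * -t = -c * t := by ring
      rw [h4]
      linarith
  have h2 : Integrable (fun y : κ → ℝ => ∏ i, Real.exp (c * |y i|)) (gam κ) :=
    Integrable.fintype_prod (fun _ => h1)
  refine h2.congr (Filter.Eventually.of_forall fun y => ?_)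
  simp only
  rw [← Real.exp_sum, Finset.mul_sum]

/-- the exponential density is bounded on balls. -/
theorem Ous_dens_le (v y : κ → ℝ) (M : ℝ) (hv : ∀ i, |v i| ≤ M) :
    Real.exp (dot v y - dot v v / 2) ≤ Real.exp (M * ∑ i, |y i|) := by
  apply Real.exp_le_exp.mpr
  have h1 := (le_abs_self _).trans (Ous_abs_dot_le v y M hv)
  have h2 := Ous_dot_self_nonneg v
  linarith

theorem Ous_coord_le (v y : κ → ℝ) (M : ℝ) (hM : 0 ≤ M) (hv : ∀ i, |v i| ≤ M) (i : κ) :
    |y i - v i| ≤ (1 + M) * Real.exp (∑ i, |y i|) := by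
  have h1 : |y i| ≤ ∑ i, |y i| := Finset.single_le_sum (f := fun i => |y i|)
    (fun i _ => abs_nonneg (y i)) (Finset.mem_univ i)
  have h0 : 0 ≤ ∑ i, |y i| := Finset.sum_nonneg fun i _ => abs_nonneg (y i)
  have h2 := Real.add_one_le_exp (∑ i, |y i|)
  have h3 : 1 ≤ Real.exp (∑ i, |y i|) := by linarith
  have h4 := (abs_sub (y i) (v i)).trans (add_le_add h1 (hv i))
  nlinarith

/-- the derivative of the exponential integral. -/
theorem Ous_hasFDerivAt {g : (κ → ℝ) → ℝ} (hg : Bm g) (v0 : κ → ℝ) :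
    HasFDerivAt (fun v => ∫ y, Real.exp (dot v y - dot v v / 2) * g y ∂(gam κ))
      (∑ i, (∫ y, Real.exp (dot v0 y - dot v0 v0 / 2) * (y i - v0 i) * g y ∂(gam κ)) •
        (ContinuousLinearMap.proj i : (κ → ℝ) →L[ℝ] ℝ)) v0 := by
  obtain ⟨B, hB⟩ := hg.bdd
  have hB0 : 0 ≤ B := (abs_nonneg _).trans (hB 0)
  set M : ℝ := ‖v0‖ + 1 with hM
  have hM0 : 0 ≤ M := by positivity
  have hball : ∀ v ∈ Metric.ball v0 1, ∀ i, |v i| ≤ M := by
    intro v hv i
    have h1 := norm_le_pi_norm v i
    have h2 : ‖v‖ ≤ ‖v0‖ + 1 := by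
      have h3 : ‖v - v0‖ < 1 := by
        rw [← dist_eq_norm]
        exact hv
      have h4 := norm_sub_norm_le v v0
      linarith
    rw [Real.norm_eq_abs] at h1
    exact h1.trans h2
  have hmeas : ∀ v : κ → ℝ, Measurable (fun y : κ → ℝ =>
      Real.exp (dot v y - dot v v / 2) * g y) := by
    intro v
    exact (Real.measurable_exp.comp (((Ous_dot_continuous v).measurable).sub_const _)).mul hg.meas
  have hmeas' : ∀ (v : κ → ℝ) (i : κ), Measurable (fun y : κ → ℝ =>
      Real.exp (dot v y - dot v v / 2) * (y i - v i) * g y) := by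
    intro v i
    exact ((Real.measurable_exp.comp (((Ous_dot_continuous v).measurable).sub_const _)).mul
      ((measurable_pi_apply i).sub_const _)).mul hg.meas
  have hint : ∀ i : κ, Integrable (fun y : κ → ℝ =>
      Real.exp (dot v0 y - dot v0 v0 / 2) * (y i - v0 i) * g y) (gam κ) := by
    intro i
    refine ((Ous_exp_abs (κ := κ) (M + 1)).const_mul ((1 + M) * B)).mono
      (hmeas' v0 i).aestronglyMeasurable (Filter.Eventually.of_forall fun y => ?_)
    have hnn : 0 ≤ (1 + M) * B * Real.exp ((M + 1) * ∑ i, |y i|) := by positivity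
    rw [Real.norm_eq_abs, Real.norm_eq_abs, abs_mul, abs_mul, abs_of_pos (Real.exp_pos _),
      abs_of_nonneg hnn]
    have h0 : v0 ∈ Metric.ball v0 1 := Metric.mem_ball_self one_pos
    have h1 := Ous_dens_le v0 y M (hball v0 h0)
    have h2 := Ous_coord_le v0 y M hM0 (hball v0 h0) i
    have h3 : Real.exp ((M + 1) * ∑ i, |y i|) = Real.exp (M * ∑ i, |y i|) *
        Real.exp (∑ i, |y i|) := by
      rw [← Real.exp_add]
      congr 1
      ring
    rw [h3]
    calc Real.exp (dot v0 y - dot v0 v0 / 2) * |y i - v0 i| * |g y|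
        ≤ Real.exp (M * ∑ i, |y i|) * ((1 + M) * Real.exp (∑ i, |y i|)) * B := by
          gcongr
          exact hB y
      _ = (1 + M) * B * (Real.exp (M * ∑ i, |y i|) * Real.exp (∑ i, |y i|)) := by ring
  have hkey := hasFDerivAt_integral_of_dominated_of_fderiv_le (𝕜 := ℝ) (μ := gam κ)
    (F := fun v y => Real.exp (dot v y - dot v v / 2) * g y)
    (F' := fun v y => ∑ i, (Real.exp (dot v y - dot v v / 2) * (y i - v i) * g y) •
        (ContinuousLinearMap.proj i : (κ → ℝ) →L[ℝ] ℝ))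
    (x₀ := v0) (s := Metric.ball v0 1)
    (bound := fun y => (Fintype.card κ : ℝ) * ((1 + M) * B) * Real.exp ((M + 1) * ∑ i, |y i|))
    (Metric.ball_mem_nhds v0 one_pos)
    (Filter.Eventually.of_forall fun v => (hmeas v).aestronglyMeasurable)
    ?_ ?_ ?_ ((Ous_exp_abs (κ := κ) (M + 1)).const_mul _) ?_
  · convert! hkey using 1
    rw [integral_finsetSum]
    · refine Finset.sum_congr rfl fun i _ => ?_
      rw [integral_smul_const]
    · intro i _
      exact (hint i).smul_const _
  · refine ((Ous_exp_abs (κ := κ) M).const_mul B).mono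
      (hmeas v0).aestronglyMeasurable (Filter.Eventually.of_forall fun y => ?_)
    rw [Real.norm_eq_abs, Real.norm_eq_abs, abs_mul, abs_of_pos (Real.exp_pos _),
      abs_mul, abs_of_pos (Real.exp_pos _), abs_of_nonneg hB0]
    have h0 : v0 ∈ Metric.ball v0 1 := Metric.mem_ball_self one_pos
    have h1 := Ous_dens_le v0 y M (hball v0 h0)
    calc Real.exp (dot v0 y - dot v0 v0 / 2) * |g y|
        ≤ Real.exp (M * ∑ i, |y i|) * B := by
          gcongr
          exact hB y
      _ = B * Real.exp (M * ∑ i, |y i|) := by ring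
  · apply Finset.aestronglyMeasurable_fun_sum
    intro i _
    exact ((hmeas' v0 i).aestronglyMeasurable).smul_const _
  · refine Filter.Eventually.of_forall fun y v hv => ?_
    have h4 : ∀ i, ‖(Real.exp (dot v y - dot v v / 2) * (y i - v i) * g y) •
        (ContinuousLinearMap.proj i : (κ → ℝ) →L[ℝ] ℝ)‖ ≤
        (1 + M) * B * Real.exp ((M + 1) * ∑ i, |y i|) := by
      intro i
      have hproj : ‖(ContinuousLinearMap.proj i : (κ → ℝ) →L[ℝ] ℝ)‖ ≤ 1 := by
        apply ContinuousLinearMap.opNorm_le_bound _ zero_le_one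
        intro x
        rw [one_mul]
        exact norm_le_pi_norm x i
      have h1 := Ous_dens_le v y M (hball v hv)
      have h2 := Ous_coord_le v y M hM0 (hball v hv) i
      have h3 : Real.exp ((M + 1) * ∑ i, |y i|) = Real.exp (M * ∑ i, |y i|) *
          Real.exp (∑ i, |y i|) := by
        rw [← Real.exp_add]
        congr 1
        ring
      rw [norm_smul, Real.norm_eq_abs, abs_mul, abs_mul, abs_of_pos (Real.exp_pos _), h3]
      calc Real.exp (dot v y - dot v v / 2) * |y i - v i| * |g y| *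
            ‖(ContinuousLinearMap.proj i : (κ → ℝ) →L[ℝ] ℝ)‖
          ≤ Real.exp (M * ∑ i, |y i|) * ((1 + M) * Real.exp (∑ i, |y i|)) * B * 1 := by
            gcongr
            exact hB y
        _ = (1 + M) * B * (Real.exp (M * ∑ i, |y i|) * Real.exp (∑ i, |y i|)) := by ring
    refine (norm_sum_le _ _).trans ((Finset.sum_le_sum fun i _ => h4 i).trans ?_)
    rw [Finset.sum_const, nsmul_eq_mul, Finset.card_univ]
    exact le_of_eq (by ring)
  · refine Filter.Eventually.of_forall fun y v _ => ?_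
    have h1 : HasFDerivAt (fun v : κ → ℝ => dot v y - dot v v / 2)
        (∑ i, (y i - v i) • (ContinuousLinearMap.proj i : (κ → ℝ) →L[ℝ] ℝ)) v := by
      have h2 : ∀ i, HasFDerivAt (fun v : κ → ℝ => v i * y i - v i * v i / 2)
          ((y i - v i) • (ContinuousLinearMap.proj i : (κ → ℝ) →L[ℝ] ℝ)) v := by
        intro i
        have h3 : HasFDerivAt (fun v : κ → ℝ => v i)
          (ContinuousLinearMap.proj i : (κ → ℝ) →L[ℝ] ℝ) v :=
          (ContinuousLinearMap.proj (R := ℝ) (φ := fun _ : κ => ℝ) i).hasFDerivAt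
        have h4 := (h3.mul_const (y i)).sub ((h3.mul h3).mul_const (1 / 2 : ℝ))
        refine (h4.congr_fderiv ?_).congr_of_eventuallyEq ?_
        · ext w
          simp only [sub_apply, smul_apply, add_apply, smul_eq_mul]
          ring
        · refine Filter.Eventually.of_forall fun w => ?_
          simp only [Pi.sub_apply, Pi.mul_apply]
          ring
      have h5 := HasFDerivAt.fun_sum (u := Finset.univ) fun i _ => h2 i
      refine h5.congr_of_eventuallyEq (Filter.Eventually.of_forall fun w => ?_)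
      simp only [dot]
      rw [Finset.sum_div, ← Finset.sum_sub_distrib]
    have h6 := (h1.exp).mul_const (g y)
    refine h6.congr_fderiv ?_
    rw [Finset.smul_sum, Finset.smul_sum]
    refine Finset.sum_congr rfl fun i _ => ?_
    rw [smul_smul, smul_smul]
    congr 1
    ring

theorem Ous_bm_scale {f : (κ → ℝ) → ℝ} (hf : Bm f) (c : ℝ) : Bm (fun y => f (c • y)) := by
  obtain ⟨B, hB⟩ := hf.bdd
  exact ⟨hf.meas.comp (measurable_const_smul c), B, fun x => hB _⟩

theorem Ous_sigma_pos {r : ℝ} (hr : 0 ≤ r) (hr1 : r < 1) : 0 < Real.sqrt (1 - r ^ 2) := by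
  apply Real.sqrt_pos.mpr
  nlinarith

theorem Ous_arg {r : ℝ} (hr : 0 ≤ r) (hr1 : r < 1) (x y : κ → ℝ) :
    r • x + Real.sqrt (1 - r ^ 2) • y =
      Real.sqrt (1 - r ^ 2) • (y + (r / Real.sqrt (1 - r ^ 2)) • x) := by
  have h := Ous_sigma_pos hr hr1
  rw [smul_add, smul_smul, mul_div_cancel₀ _ h.ne', add_comm]

/-- the exponential form of the Ornstein-Uhlenbeck operator. -/
theorem Ous_OU_eq {f : (κ → ℝ) → ℝ} (hf : Bm f) (r : ℝ) (hr : 0 ≤ r) (hr1 : r < 1)
    (x : κ → ℝ) : OU r f x =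
      ∫ y, Real.exp (dot ((r / Real.sqrt (1 - r ^ 2)) • x) y -
        dot ((r / Real.sqrt (1 - r ^ 2)) • x) ((r / Real.sqrt (1 - r ^ 2)) • x) / 2) *
        f (Real.sqrt (1 - r ^ 2) • y) ∂(gam κ) := by
  rw [← cameron_martin _ (fun y => f (Real.sqrt (1 - r ^ 2) • y))
    (hf.meas.comp (measurable_const_smul _))]
  unfold OU
  simp only [← Ous_arg hr hr1 x]

/-- the exponential form of the derivative. -/
theorem Ous_dOU_eq {f : (κ → ℝ) → ℝ} (hf : Bm f) (r : ℝ) (hr : 0 ≤ r) (hr1 : r < 1)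
    (u x : κ → ℝ) : dOU r u f x = r / Real.sqrt (1 - r ^ 2) *
      ∫ y, Real.exp (dot ((r / Real.sqrt (1 - r ^ 2)) • x) y -
        dot ((r / Real.sqrt (1 - r ^ 2)) • x) ((r / Real.sqrt (1 - r ^ 2)) • x) / 2) *
        (dot u (y - (r / Real.sqrt (1 - r ^ 2)) • x) *
        f (Real.sqrt (1 - r ^ 2) • y)) ∂(gam κ) := by
  have hm : Measurable (fun y : κ → ℝ => dot u (y - (r / Real.sqrt (1 - r ^ 2)) • x) *
        f (Real.sqrt (1 - r ^ 2) • y)) :=
    ((Ous_dot_continuous u).measurable.comp (measurable_id.sub_const _)).mul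
      (hf.meas.comp (measurable_const_smul _))
  rw [← cameron_martin _ _ hm]
  unfold dOU
  simp only [← Ous_arg hr hr1 x, add_sub_cancel_right]

theorem Ous_integrable_dot_mul {h : (κ → ℝ) → ℝ} (hh : Bm h) (u : κ → ℝ) :
    Integrable (fun y => dot u y * h y) (gam κ) := by
  obtain ⟨B, hB⟩ := hh.bdd
  have h1 : Integrable (dot u) (gam κ) := by
    refine integrable_gam (dot u) (∑ i, |u i|) 1 (Ous_dot_continuous u) fun g => ?_
    unfold dot
    rw [Finset.sum_mul, pow_one]
    refine (Finset.abs_sum_le_sum_abs _ _).trans (Finset.sum_le_sum fun i _ => ?_)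
    rw [abs_mul]
    apply mul_le_mul_of_nonneg_left _ (abs_nonneg _)
    have h2 := norm_le_pi_norm g i
    rw [Real.norm_eq_abs] at h2
    linarith
  exact h1.mul_bdd (c := B) hh.meas.aestronglyMeasurable
    (Filter.Eventually.of_forall fun y => by rw [Real.norm_eq_abs]; exact hB y)

theorem Ous_shift_bm {f : (κ → ℝ) → ℝ} (hf : Bm f) (r s : ℝ) (x : κ → ℝ) :
    Bm (fun y => f (r • x + s • y)) := by
  obtain ⟨B, hB⟩ := hf.bdd
  exact ⟨hf.meas.comp ((measurable_const_smul s).const_add _), B, fun x => hB _⟩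

/-- linearity of `dOU` in the direction. -/
theorem Ous_dOU_sum [DecidableEq κ] {f : (κ → ℝ) → ℝ} (hf : Bm f) (r : ℝ) (u x : κ → ℝ) :
    dOU r u f x = ∑ i, u i * dOU r (Pi.single i 1) f x := by
  have h1 : ∀ i : κ, dOU r (Pi.single i 1) f x = r / Real.sqrt (1 - r ^ 2) *
      ∫ y, y i * f (r • x + Real.sqrt (1 - r ^ 2) • y) ∂(gam κ) := by
    intro i
    unfold dOU
    congr 2
    funext y
    congr 1
    unfold dot
    rw [Finset.sum_eq_single i]
    · simp
    · intro j _ hj
      rw [Pi.single_eq_of_ne hj, zero_mul]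
    · intro h; exact absurd (Finset.mem_univ _) h
  have h2 : ∀ i : κ, Integrable (fun y : κ → ℝ =>
      y i * f (r • x + Real.sqrt (1 - r ^ 2) • y)) (gam κ) := by
    intro i
    have h3 := Ous_integrable_dot_mul (Ous_shift_bm hf r (Real.sqrt (1 - r ^ 2)) x)
      (Pi.single i 1)
    refine h3.congr (Filter.Eventually.of_forall fun y => ?_)
    simp only
    congr 1
    unfold dot
    rw [Finset.sum_eq_single i]
    · simp
    · intro j _ hj
      rw [Pi.single_eq_of_ne hj, zero_mul]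
    · intro h; exact absurd (Finset.mem_univ _) h
  simp only [h1]
  unfold dOU
  have h4 : ∫ y, dot u y * f (r • x + Real.sqrt (1 - r ^ 2) • y) ∂(gam κ) =
      ∑ i, u i * ∫ y, y i * f (r • x + Real.sqrt (1 - r ^ 2) • y) ∂(gam κ) := by
    have h5 : ∀ y : κ → ℝ, dot u y * f (r • x + Real.sqrt (1 - r ^ 2) • y) =
        ∑ i, u i * (y i * f (r • x + Real.sqrt (1 - r ^ 2) • y)) := by
      intro y
      unfold dot
      rw [Finset.sum_mul]
      exact Finset.sum_congr rfl fun i _ => by ring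
    simp only [h5]
    rw [integral_finsetSum _ fun i _ => (h2 i).const_mul (u i)]
    exact Finset.sum_congr rfl fun i _ => integral_const_mul _ _
  rw [h4, Finset.mul_sum]
  exact Finset.sum_congr rfl fun i _ => by ring

/-- the Frechet derivative of `OU r f`. -/
theorem Ous_OU_hasFDerivAt [DecidableEq κ] {f : (κ → ℝ) → ℝ} (hf : Bm f) (r : ℝ) (hr : 0 ≤ r)
    (hr1 : r < 1) (x : κ → ℝ) : HasFDerivAt (OU r f) (∑ i, dOU r (Pi.single i 1) f x •
      (ContinuousLinearMap.proj i : (κ → ℝ) →L[ℝ] ℝ)) x := by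
  set c := r / Real.sqrt (1 - r ^ 2) with hc
  have h1 := Ous_hasFDerivAt (Ous_bm_scale hf (Real.sqrt (1 - r ^ 2))) (c • x)
  have h2 : HasFDerivAt (fun x : κ → ℝ => c • x) (c • ContinuousLinearMap.id ℝ (κ → ℝ)) x :=
    (hasFDerivAt_id x).const_smul c
  have h3 := h1.comp x h2
  refine (h3.congr_fderiv ?_).congr_of_eventuallyEq (Filter.Eventually.of_forall fun z => ?_)
  · ext w
    simp only [ContinuousLinearMap.comp_apply, sum_apply, smul_apply,
      ContinuousLinearMap.id_apply, smul_eq_mul, ContinuousLinearMap.proj_apply, Pi.smul_apply]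
    refine Finset.sum_congr rfl fun i _ => ?_
    rw [Ous_dOU_eq hf r hr hr1]
    have h4 : ∀ y : κ → ℝ, dot (Pi.single i 1) (y - c • x) = y i - (c • x) i := by
      intro y
      unfold dot
      rw [Finset.sum_eq_single i]
      · simp
      · intro j _ hj
        rw [Pi.single_eq_of_ne hj, zero_mul]
      · intro h; exact absurd (Finset.mem_univ _) h
    simp only [← hc, h4, Pi.smul_apply, smul_eq_mul, mul_assoc]
    ring
  · exact Ous_OU_eq hf r hr hr1 z

theorem dOU_continuous {f : (κ → ℝ) → ℝ} (hf : Bm f) (r : ℝ) (hr : 0 ≤ r) (hr1 : r < 1)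
    (u : κ → ℝ) : Continuous (dOU r u f) := by
  have h0 : dOU r u f = fun x => r / Real.sqrt (1 - r ^ 2) *
      ∫ y, Real.exp (dot ((r / Real.sqrt (1 - r ^ 2)) • x) y -
        dot ((r / Real.sqrt (1 - r ^ 2)) • x) ((r / Real.sqrt (1 - r ^ 2)) • x) / 2) *
        (dot u (y - (r / Real.sqrt (1 - r ^ 2)) • x) *
        f (Real.sqrt (1 - r ^ 2) • y)) ∂(gam κ) := funext (Ous_dOU_eq hf r hr hr1 u)
  rw [h0]
  refine continuous_const.mul ?_
  set c := r / Real.sqrt (1 - r ^ 2) with hc
  have h1 : Continuous (fun v : κ → ℝ => ∫ y, Real.exp (dot v y - dot v v / 2) *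
      (dot u (y - v) * f (Real.sqrt (1 - r ^ 2) • y)) ∂(gam κ)) := by
    obtain ⟨B, hB⟩ := hf.bdd
    have hB0 : 0 ≤ B := (abs_nonneg _).trans (hB 0)
    rw [continuous_iff_continuousAt]
    intro v0
    set M : ℝ := ‖v0‖ + 1 with hM
    have hM0 : 0 ≤ M := by positivity
    have hball : ∀ v ∈ Metric.ball v0 1, ∀ i, |v i| ≤ M := by
      intro v hv i
      have h1 := norm_le_pi_norm v i
      have h2 : ‖v‖ ≤ ‖v0‖ + 1 := by
        have h3 : ‖v - v0‖ < 1 := by
          rw [← dist_eq_norm]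
          exact hv
        have h4 := norm_sub_norm_le v v0
        linarith
      rw [Real.norm_eq_abs] at h1
      exact h1.trans h2
    refine continuousAt_of_dominated
      (bound := fun y => (∑ i, |u i|) * ((1 + M) * B) * Real.exp ((M + 1) * ∑ i, |y i|))
      (Filter.Eventually.of_forall fun v => ?_) ?_ ((Ous_exp_abs (κ := κ) (M + 1)).const_mul _)
      (Filter.Eventually.of_forall fun y => ?_)
    · apply Measurable.aestronglyMeasurable
      exact (Real.measurable_exp.comp (((Ous_dot_continuous v).measurable).sub_const _)).mul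
        (((Ous_dot_continuous u).measurable.comp (measurable_id.sub_const _)).mul
          (hf.meas.comp (measurable_const_smul _)))
    · filter_upwards [Metric.ball_mem_nhds v0 one_pos] with v hv
      refine Filter.Eventually.of_forall fun y => ?_
      have h1 := Ous_dens_le v y M (hball v hv)
      have h2 : |dot u (y - v)| ≤ (∑ i, |u i|) * ((1 + M) * Real.exp (∑ i, |y i|)) := by
        unfold dot
        rw [Finset.sum_mul]
        refine (Finset.abs_sum_le_sum_abs _ _).trans (Finset.sum_le_sum fun i _ => ?_)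
        rw [abs_mul]
        exact mul_le_mul_of_nonneg_left (Ous_coord_le v y M hM0 (hball v hv) i) (abs_nonneg _)
      have h3 : Real.exp ((M + 1) * ∑ i, |y i|) = Real.exp (M * ∑ i, |y i|) *
          Real.exp (∑ i, |y i|) := by
        rw [← Real.exp_add]
        congr 1
        ring
      have hu0 : 0 ≤ ∑ i, |u i| := Finset.sum_nonneg fun i _ => abs_nonneg _
      rw [Real.norm_eq_abs, abs_mul, abs_mul, abs_of_pos (Real.exp_pos _), h3]
      calc Real.exp (dot v y - dot v v / 2) *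
            (|dot u (y - v)| * |f (Real.sqrt (1 - r ^ 2) • y)|)
          ≤ Real.exp (M * ∑ i, |y i|) *
            (((∑ i, |u i|) * ((1 + M) * Real.exp (∑ i, |y i|))) * B) := by
            gcongr
            exact hB _
        _ = (∑ i, |u i|) * ((1 + M) * B) *
            (Real.exp (M * ∑ i, |y i|) * Real.exp (∑ i, |y i|)) := by ring
    · apply Continuous.continuousAt
      refine (Real.continuous_exp.comp ((Ous_dot_continuous' y).sub
        (Ous_dot_self_continuous.div_const 2))).mul (Continuous.mul ?_ continuous_const)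
      exact (Ous_dot_continuous u).comp (continuous_const.sub continuous_id)
  exact h1.comp (continuous_const_smul c)

theorem dOU_bm {f : (κ → ℝ) → ℝ} (hf : Bm f) (r : ℝ) (hr : 0 ≤ r) (hr1 : r < 1)
    (u : κ → ℝ) : Bm (dOU r u f) := by
  obtain ⟨B, hB⟩ := hf.bdd
  refine ⟨(dOU_continuous hf r hr hr1 u).measurable,
    |r / Real.sqrt (1 - r ^ 2)| * (∫ y, |dot u y| * B ∂(gam κ)), fun x => ?_⟩
  unfold dOU
  rw [abs_mul]
  apply mul_le_mul_of_nonneg_left _ (abs_nonneg _)
  refine (abs_integral_le_integral_abs).trans ?_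
  have h1 := Ous_integrable_dot_mul (Ous_shift_bm hf r (Real.sqrt (1 - r ^ 2)) x) u
  have h2 : Integrable (fun y => |dot u y| * B) (gam κ) := by
    have h3 := Ous_integrable_dot_mul (κ := κ) (h := fun _ => 1)
      ⟨measurable_const, 1, fun _ => by simp⟩ u
    simp only [mul_one] at h3
    exact h3.abs.mul_const B
  refine integral_mono h1.abs h2 fun y => ?_
  simp only
  rw [abs_mul]
  exact mul_le_mul_of_nonneg_left (hB _) (abs_nonneg _)

theorem OU_continuous {f : (κ → ℝ) → ℝ} (hf : Bm f) (r : ℝ) (hr : 0 ≤ r) (hr1 : r < 1) :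
    Continuous (OU r f) := by
  classical
  rw [continuous_iff_continuousAt]
  exact fun x => (Ous_OU_hasFDerivAt hf r hr hr1 x).continuousAt

theorem OU_C1b [DecidableEq κ] {f : (κ → ℝ) → ℝ} (hf : Bm f) (r : ℝ) (hr : 0 ≤ r) (hr1 : r < 1) :
    C1b (OU r f) (fun i => dOU r (Pi.single i 1) f) where
  bdd := (OU_bm hf r).bdd
  bdd' := by
    choose B hB using fun i : κ => (dOU_bm hf r hr hr1 (Pi.single i 1)).bdd
    refine ⟨∑ i, |B i|, fun i x => (hB i x).trans ((le_abs_self _).trans ?_)⟩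
    exact Finset.single_le_sum (f := fun i => |B i|) (fun i _ => abs_nonneg _)
      (Finset.mem_univ i)
  cont' := fun i => dOU_continuous hf r hr hr1 _
  deriv := fun x => Ous_OU_hasFDerivAt hf r hr hr1 x

theorem OU_dir {f : (κ → ℝ) → ℝ} (hf : Bm f) (r : ℝ) (hr : 0 ≤ r) (hr1 : r < 1) (u x : κ → ℝ)
    (t : ℝ) : HasDerivAt (fun s : ℝ => OU r f (x + s • u)) (dOU r u f (x + t • u)) t := by
  classical
  have h1 := Ous_OU_hasFDerivAt hf r hr hr1 (x + t • u)
  have h2 : HasDerivAt (fun s : ℝ => x + s • u) u t := by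
    have h3 := ((hasDerivAt_id t).smul_const u).const_add x
    simpa using h3
  have h4 := h1.comp_hasDerivAt t h2
  refine h4.congr_deriv ?_
  rw [Ous_dOU_sum hf r u]
  simp only [sum_apply, smul_apply, smul_eq_mul,
    ContinuousLinearMap.proj_apply]
  exact Finset.sum_congr rfl fun i _ => by ring

theorem Ous_integrable_bm {h : (κ → ℝ) → ℝ} (hh : Bm h) : Integrable h (gam κ) := by
  obtain ⟨B, hB⟩ := hh.bdd
  exact Integrable.of_bound hh.meas.aestronglyMeasurable B
    (Filter.Eventually.of_forall fun y => by rw [Real.norm_eq_abs]; exact hB y)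

theorem Ous_dot_sq (u : κ → ℝ) : ∫ y, dot u y ^ 2 ∂(gam κ) = dot u u := by
  classical
  have hd0 : Bm (fun _ : κ → ℝ => (1 : ℝ)) := ⟨measurable_const, 1, fun _ => by simp⟩
  have hgrow : ∀ g : κ → ℝ, |dot u g| ≤ (∑ i, |u i|) * (1 + ‖g‖) ^ 1 := by
    intro g
    unfold dot
    rw [Finset.sum_mul, pow_one]
    refine (Finset.abs_sum_le_sum_abs _ _).trans (Finset.sum_le_sum fun i _ => ?_)
    rw [abs_mul]
    apply mul_le_mul_of_nonneg_left _ (abs_nonneg _)
    have h2 := norm_le_pi_norm g i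
    rw [Real.norm_eq_abs] at h2
    linarith
  have h1 : ∀ i : κ, ∫ y, y i * dot u y ∂(gam κ) = u i := by
    intro i
    have h2 := gam_ibp i (dot u) (fun _ => u i) (∑ i, |u i|) 1 (Ous_dot_continuous u)
      continuous_const ?_ hgrow ?_
    · rw [h2]
      simp
    · intro g t
      have h3 : (fun s : ℝ => dot u (Function.update g i s)) = fun s : ℝ =>
          u i * s + ∑ j ∈ Finset.univ.erase i, u j * g j := by
        funext s
        unfold dot
        rw [← Finset.add_sum_erase Finset.univ _ (Finset.mem_univ i)]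
        congr 1
        · rw [Function.update_self]
        · refine Finset.sum_congr rfl fun j hj => ?_
          rw [Function.update_of_ne (Finset.ne_of_mem_erase hj)]
      rw [h3]
      have h4 := ((hasDerivAt_id t).const_mul (u i)).add_const
        (∑ j ∈ Finset.univ.erase i, u j * g j)
      simpa using h4
    · intro g
      have h4 : |u i| ≤ ∑ i, |u i| := Finset.single_le_sum (f := fun i => |u i|)
        (fun i _ => abs_nonneg _) (Finset.mem_univ i)
      have h5 : (0 : ℝ) ≤ ‖g‖ := norm_nonneg _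
      have h6 : 0 ≤ ∑ i, |u i| := (abs_nonneg _).trans h4
      nlinarith
  have h2 : ∀ i : κ, Integrable (fun y : κ → ℝ => y i * dot u y) (gam κ) := by
    intro i
    refine integrable_gam _ (∑ i, |u i|) 2 ((continuous_apply i).mul (Ous_dot_continuous u))
      fun g => ?_
    rw [abs_mul]
    have h3 := hgrow g
    have h4 := norm_le_pi_norm g i
    rw [Real.norm_eq_abs] at h4
    have h5 : |g i| ≤ 1 + ‖g‖ := by linarith
    have h6 : (0 : ℝ) ≤ ‖g‖ := norm_nonneg _
    calc |g i| * |dot u g| ≤ (1 + ‖g‖) * ((∑ i, |u i|) * (1 + ‖g‖) ^ 1) :=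
          mul_le_mul h5 h3 (abs_nonneg _) (by positivity)
      _ = (∑ i, |u i|) * (1 + ‖g‖) ^ 2 := by ring
  have h3 : ∀ y : κ → ℝ, dot u y ^ 2 = ∑ i, u i * (y i * dot u y) := by
    intro y
    rw [pow_two]
    nth_rewrite 1 [dot]
    rw [Finset.sum_mul]
    exact Finset.sum_congr rfl fun i _ => by ring
  simp only [h3]
  rw [integral_finsetSum _ fun i _ => (h2 i).const_mul (u i)]
  unfold dot at h1 ⊢
  refine Finset.sum_congr rfl fun i _ => ?_
  rw [integral_const_mul, h1 i]

theorem Ous_integrable_dot_sq (u : κ → ℝ) : Integrable (fun y : κ → ℝ => dot u y ^ 2)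
    (gam κ) := by
  refine integrable_gam _ ((∑ i, |u i|) ^ 2) 2 ((Ous_dot_continuous u).pow 2) fun g => ?_
  have hgrow : |dot u g| ≤ (∑ i, |u i|) * (1 + ‖g‖) := by
    unfold dot
    rw [Finset.sum_mul]
    refine (Finset.abs_sum_le_sum_abs _ _).trans (Finset.sum_le_sum fun i _ => ?_)
    rw [abs_mul]
    apply mul_le_mul_of_nonneg_left _ (abs_nonneg _)
    have h2 := norm_le_pi_norm g i
    rw [Real.norm_eq_abs] at h2
    linarith
  rw [abs_pow, ← mul_pow]
  exact pow_le_pow_left₀ (abs_nonneg _) hgrow 2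

/-- Cauchy-Schwarz against a normalised linear form. -/
theorem Ous_cs {h : (κ → ℝ) → ℝ} (hh : Bm h) (u : κ → ℝ) (hu : dot u u = 1) :
    (∫ y, dot u y * h y ∂(gam κ)) ^ 2 ≤ ∫ y, h y ^ 2 ∂(gam κ) := by
  set c := ∫ y, dot u y * h y ∂(gam κ) with hc
  obtain ⟨B, hB⟩ := hh.bdd
  have hh2 : Bm (fun y => h y ^ 2) := ⟨hh.meas.pow_const 2, B ^ 2, fun y => by
    rw [abs_pow]
    exact pow_le_pow_left₀ (abs_nonneg _) (hB y) 2⟩
  have i1 := Ous_integrable_bm hh2
  have i2 := Ous_integrable_dot_mul hh u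
  have i3 := Ous_integrable_dot_sq u
  have h1 : 0 ≤ ∫ y, (h y - c * dot u y) ^ 2 ∂(gam κ) := integral_nonneg fun y => sq_nonneg _
  have h2 : ∫ y, (h y - c * dot u y) ^ 2 ∂(gam κ) =
      ∫ y, h y ^ 2 ∂(gam κ) - 2 * c * c + c ^ 2 * 1 := by
    have h3 : ∀ y, (h y - c * dot u y) ^ 2 =
        h y ^ 2 - 2 * c * (dot u y * h y) + c ^ 2 * dot u y ^ 2 := fun y => by ring
    simp only [h3]
    have e1 : ∫ y, (h y ^ 2 - 2 * c * (dot u y * h y) + c ^ 2 * dot u y ^ 2) ∂(gam κ) =
        ∫ y, (h y ^ 2 - 2 * c * (dot u y * h y)) ∂(gam κ) +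
          ∫ y, c ^ 2 * dot u y ^ 2 ∂(gam κ) :=
      integral_add (i1.sub (i2.const_mul (2 * c))) (i3.const_mul (c ^ 2))
    have e2 : ∫ y, (h y ^ 2 - 2 * c * (dot u y * h y)) ∂(gam κ) =
        ∫ y, h y ^ 2 ∂(gam κ) - ∫ y, 2 * c * (dot u y * h y) ∂(gam κ) :=
      integral_sub i1 (i2.const_mul (2 * c))
    rw [e1, e2, integral_const_mul, integral_const_mul, ← hc, Ous_dot_sq, hu]
  rw [h2] at h1
  nlinarith

theorem dOU_sq_le {f : (κ → ℝ) → ℝ} (hf : Bm f) (r : ℝ) (hr : 0 ≤ r) (hr1 : r < 1) (u : κ → ℝ)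
    (hu : dot u u = 1) :
    ∫ x, dOU r u f x ^ 2 ∂(gam κ) ≤ r ^ 2 / (1 - r ^ 2) * ∫ x, f x ^ 2 ∂(gam κ) := by
  obtain ⟨B, hB⟩ := hf.bdd
  have hf2 : Bm (fun y => f y ^ 2) := ⟨hf.meas.pow_const 2, B ^ 2, fun y => by
    rw [abs_pow]
    exact pow_le_pow_left₀ (abs_nonneg _) (hB y) 2⟩
  have hs := Ous_sigma_pos hr hr1
  have hs2 : Real.sqrt (1 - r ^ 2) ^ 2 = 1 - r ^ 2 := Real.sq_sqrt (by nlinarith)
  have h1 : ∀ x, dOU r u f x ^ 2 ≤ r ^ 2 / (1 - r ^ 2) * OU r (fun y => f y ^ 2) x := by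
    intro x
    unfold dOU OU
    rw [mul_pow, div_pow, hs2]
    apply mul_le_mul_of_nonneg_left _ (div_nonneg (sq_nonneg _) (by nlinarith))
    exact Ous_cs (Ous_shift_bm hf r (Real.sqrt (1 - r ^ 2)) x) u hu
  have hd := dOU_bm hf r hr hr1 u
  obtain ⟨B', hB'⟩ := hd.bdd
  have hd2 : Bm (fun y => dOU r u f y ^ 2) := ⟨hd.meas.pow_const 2, B' ^ 2, fun y => by
    rw [abs_pow]
    exact pow_le_pow_left₀ (abs_nonneg _) (hB' y) 2⟩
  calc ∫ x, dOU r u f x ^ 2 ∂(gam κ)
      ≤ ∫ x, r ^ 2 / (1 - r ^ 2) * OU r (fun y => f y ^ 2) x ∂(gam κ) :=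
        integral_mono (Ous_integrable_bm hd2)
          ((Ous_integrable_bm (OU_bm hf2 r)).const_mul _) h1
    _ = r ^ 2 / (1 - r ^ 2) * ∫ x, f x ^ 2 ∂(gam κ) := by
        rw [integral_const_mul, integral_OU hf2 r (by rw [abs_of_nonneg hr]; exact hr1.le)]

theorem Ous_C1b_continuous {V : (κ → ℝ) → ℝ} {V' : κ → (κ → ℝ) → ℝ} (hV : C1b V V') :
    Continuous V := by
  rw [continuous_iff_continuousAt]
  exact fun x => (hV.deriv x).continuousAt

/-- `∂_i OU r V = r OU r (∂_i V)` for `C1b` functions. -/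
theorem OU_C1b_of_C1b {V : (κ → ℝ) → ℝ} {V' : κ → (κ → ℝ) → ℝ} (hV : C1b V V') (r : ℝ)
    (hr : 0 ≤ r) (hr1 : r ≤ 1) : C1b (OU r V) (fun i x => r * OU r (V' i) x) := by
  obtain ⟨B, hB⟩ := hV.bdd
  obtain ⟨B', hB'⟩ := hV.bdd'
  have hVm : Bm V := ⟨(Ous_C1b_continuous hV).measurable, B, hB⟩
  have hV'm : ∀ i, Bm (V' i) := fun i => ⟨(hV.cont' i).measurable, B', hB' i⟩
  have hint : ∀ (i : κ) (x : κ → ℝ), Integrable
      (fun y => V' i (r • x + Real.sqrt (1 - r ^ 2) • y)) (gam κ) := fun i x =>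
    Ous_integrable_bm (Ous_shift_bm (hV'm i) r (Real.sqrt (1 - r ^ 2)) x)
  refine ⟨(OU_bm hVm r).bdd, ⟨r * B', fun i x => ?_⟩, fun i => ?_, fun x => ?_⟩
  · rw [abs_mul, abs_of_nonneg hr]
    apply mul_le_mul_of_nonneg_left _ hr
    unfold OU
    refine (abs_integral_le_integral_abs).trans ?_
    calc ∫ y, |V' i (r • x + Real.sqrt (1 - r ^ 2) • y)| ∂(gam κ)
        ≤ ∫ _y, B' ∂(gam κ) := integral_mono (hint i x).abs (integrable_const _)
          fun y => hB' i _
      _ = B' := by simp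
  · refine continuous_const.mul ?_
    unfold OU
    refine continuous_of_dominated (bound := fun _ => B')
      (fun x => (hint i x).aestronglyMeasurable) (fun x => ?_) (integrable_const _) ?_
    · exact Filter.Eventually.of_forall fun y => by rw [Real.norm_eq_abs]; exact hB' i _
    · exact Filter.Eventually.of_forall fun y => (hV.cont' i).comp (by fun_prop)
  · have hkey := hasFDerivAt_integral_of_dominated_of_fderiv_le (𝕜 := ℝ) (μ := gam κ)
      (F := fun x y => V (r • x + Real.sqrt (1 - r ^ 2) • y))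
      (F' := fun x y => ∑ i, (r * V' i (r • x + Real.sqrt (1 - r ^ 2) • y)) •
        (ContinuousLinearMap.proj i : (κ → ℝ) →L[ℝ] ℝ))
      (x₀ := x) (s := Set.univ) (bound := fun _ => (Fintype.card κ : ℝ) * (r * B'))
      Filter.univ_mem
      (Filter.Eventually.of_forall fun x =>
        (Ous_shift_bm hVm r (Real.sqrt (1 - r ^ 2)) x).meas.aestronglyMeasurable)
      (Ous_integrable_bm (Ous_shift_bm hVm r (Real.sqrt (1 - r ^ 2)) x)) ?_ ?_
      (integrable_const _) ?_
    · unfold OU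
      convert! hkey using 1
      rw [integral_finsetSum]
      · refine Finset.sum_congr rfl fun i _ => ?_
        rw [integral_smul_const, integral_const_mul]
      · intro i _
        exact ((hint i x).const_mul r).smul_const _
    · apply Finset.aestronglyMeasurable_fun_sum
      intro i _
      exact ((hint i x).const_mul r).aestronglyMeasurable.smul_const _
    · refine Filter.Eventually.of_forall fun y z _ => ?_
      have h4 : ∀ i, ‖(r * V' i (r • z + Real.sqrt (1 - r ^ 2) • y)) •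
          (ContinuousLinearMap.proj i : (κ → ℝ) →L[ℝ] ℝ)‖ ≤ r * B' := by
        intro i
        have hproj : ‖(ContinuousLinearMap.proj i : (κ → ℝ) →L[ℝ] ℝ)‖ ≤ 1 := by
          apply ContinuousLinearMap.opNorm_le_bound _ zero_le_one
          intro x
          rw [one_mul]
          exact norm_le_pi_norm x i
        have h5 : |V' i (r • z + Real.sqrt (1 - r ^ 2) • y)| ≤ B' := hB' i _
        have h6 : 0 ≤ B' := (abs_nonneg _).trans h5
        rw [norm_smul, Real.norm_eq_abs, abs_mul, abs_of_nonneg hr]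
        calc r * |V' i (r • z + Real.sqrt (1 - r ^ 2) • y)| *
              ‖(ContinuousLinearMap.proj i : (κ → ℝ) →L[ℝ] ℝ)‖ ≤ r * B' * 1 := by
              gcongr
          _ = r * B' := mul_one _
      refine (norm_sum_le _ _).trans ((Finset.sum_le_sum fun i _ => h4 i).trans ?_)
      rw [Finset.sum_const, nsmul_eq_mul, Finset.card_univ]
    · refine Filter.Eventually.of_forall fun y z _ => ?_
      have h2 : HasFDerivAt (fun x : κ → ℝ => r • x + Real.sqrt (1 - r ^ 2) • y)
          (r • ContinuousLinearMap.id ℝ (κ → ℝ)) z :=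
        ((hasFDerivAt_id z).const_smul r).add_const _
      have h3 := (hV.deriv (r • z + Real.sqrt (1 - r ^ 2) • y)).comp z h2
      refine h3.congr_fderiv ?_
      ext w
      simp only [ContinuousLinearMap.comp_apply, sum_apply, smul_apply,
        ContinuousLinearMap.id_apply, smul_eq_mul, ContinuousLinearMap.proj_apply, Pi.smul_apply]
      exact Finset.sum_congr rfl fun i _ => by ring

end ous

end Pool.H65.PT
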