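import Pool.Agent.Helper65.PT.Defs
import Pool.Agent.Helper65.PT.Oud
import Pool.Agent.Helper65.PT.Ous

set_option autoImplicit false

open MeasureTheory ProbabilityTheory Pool.H65.PS

namespace Pool.H65.PT

section oul

variable {κ : Type} [Fintype κ]

theorem oul_bm_of_cont {f : (κ → ℝ) → ℝ} (hc : Continuous f) (hb : ∃ B, ∀ x, |f x| ≤ B) : Bm f :=
  ⟨hc.measurable, hb⟩

theorem oul_bm' {V : (κ → ℝ) → ℝ} {V' : κ → (κ → ℝ) → ℝ} (hV : C1b V V') (i : κ) : Bm (V' i) := by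
  obtain ⟨B, hB⟩ := hV.bdd'
  exact ⟨(hV.cont' i).measurable, B, hB i⟩

theorem oul_cont {V : (κ → ℝ) → ℝ} {V' : κ → (κ → ℝ) → ℝ} (hV : C1b V V') : Continuous V :=
  continuous_iff_continuousAt.2 fun x => (hV.deriv x).continuousAt

theorem oul_bm {V : (κ → ℝ) → ℝ} {V' : κ → (κ → ℝ) → ℝ} (hV : C1b V V') : Bm V :=
  ⟨(oul_cont hV).measurable, hV.bdd⟩

theorem oul_smul {V : (κ → ℝ) → ℝ} {V' : κ → (κ → ℝ) → ℝ} (hV : C1b V V') (c : ℝ) :
    C1b (fun x => c * V x) (fun i x => c * V' i x) := by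
  obtain ⟨B, hB⟩ := hV.bdd
  obtain ⟨B', hB'⟩ := hV.bdd'
  refine ⟨⟨|c| * B, fun x => ?_⟩, ⟨|c| * B', fun i x => ?_⟩, fun i => (hV.cont' i).const_mul c,
    fun x => ?_⟩
  · rw [abs_mul]
    exact mul_le_mul_of_nonneg_left (hB x) (abs_nonneg _)
  · rw [abs_mul]
    exact mul_le_mul_of_nonneg_left (hB' i x) (abs_nonneg _)
  · have h1 := (hV.deriv x).const_mul c
    have e : (∑ i, (c * V' i x) • (ContinuousLinearMap.proj i : (κ → ℝ) →L[ℝ] ℝ)) =
        c • ∑ i, V' i x • (ContinuousLinearMap.proj i : (κ → ℝ) →L[ℝ] ℝ) := by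
      rw [Finset.smul_sum]
      exact Finset.sum_congr rfl fun i _ => by rw [smul_smul]
    rw [e]
    exact h1

/-- Gaussian integration by parts for `C1b` functions. -/
theorem oul_ibp {V : (κ → ℝ) → ℝ} {V' : κ → (κ → ℝ) → ℝ} (hV : C1b V V') (i : κ) :
    ∫ x, V' i x ∂(gam κ) = mo V i := by
  classical
  obtain ⟨B, hB⟩ := hV.bdd
  obtain ⟨B', hB'⟩ := hV.bdd'
  have hB0 : 0 ≤ B := le_trans (abs_nonneg _) (hB 0)
  have hB0' : 0 ≤ B' := le_trans (abs_nonneg _) (hB' i 0)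
  have h := gam_ibp i V (V' i) (B + B') 0 (oul_cont hV) (hV.cont' i) ?_ ?_ ?_
  · rw [← h]
    unfold mo
    apply integral_congr_ae
    refine Filter.Eventually.of_forall fun x => ?_
    simp only
    ring
  · intro g t
    have h1 := (hV.deriv (Function.update g i t)).comp_hasDerivAt t (hasDerivAt_update g i t)
    have e : (∑ j, V' j (Function.update g i t) •
        (ContinuousLinearMap.proj j : (κ → ℝ) →L[ℝ] ℝ)) (Pi.single i 1) =
        V' i (Function.update g i t) := by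
      rw [sum_apply, Finset.sum_eq_single i]
      · simp
      · intro j _ hj
        simp [Pi.single_eq_of_ne hj]
      · intro hi
        exact absurd (Finset.mem_univ i) hi
    rw [e] at h1
    exact h1
  · intro g
    rw [pow_zero, mul_one]
    linarith [hB g]
  · intro g
    rw [pow_zero, mul_one]
    linarith [hB' i g]

/-- the noise stability of a `C1b` function, as a function of the correlation. -/
theorem oul_cd {V : (κ → ℝ) → ℝ} {V' : κ → (κ → ℝ) → ℝ} (hV : C1b V V') (t : ℝ)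
    (ht : t ∈ Set.Ico (0 : ℝ) 1) :
    HasDerivAt (fun s => sg s V V) (∑ i, sg t (V' i) (V' i)) t :=
  sg_hasDerivAt hV hV t (by rw [abs_of_nonneg ht.1]; exact ht.2)

theorem oul_convex {V : (κ → ℝ) → ℝ} {V' : κ → (κ → ℝ) → ℝ} (hV : C1b V V') :
    ConvexOn ℝ (Set.Ico (0 : ℝ) 1) (fun s => sg s V V) := by
  apply MonotoneOn.convexOn_of_deriv (convex_Ico 0 1)
  · intro t ht
    exact (oul_cd hV t ht).continuousAt.continuousWithinAt
  · intro t ht
    rw [interior_Ico] at ht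
    exact (oul_cd hV t ⟨ht.1.le, ht.2⟩).differentiableAt.differentiableWithinAt
  · intro s hs t ht hst
    rw [interior_Ico] at hs ht
    rw [(oul_cd hV s ⟨hs.1.le, hs.2⟩).deriv, (oul_cd hV t ⟨ht.1.le, ht.2⟩).deriv]
    exact Finset.sum_le_sum fun i _ => sg_mono (oul_bm' hV i) s t hs.1.le hst ht.2.le

/-- tangent line bound. -/
theorem oul_tangent {V : (κ → ℝ) → ℝ} {V' : κ → (κ → ℝ) → ℝ} (hV : C1b V V') (a b : ℝ)
    (ha : 0 ≤ a) (hab : a < b) (hb : b < 1) :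
    (b - a) * ∑ i, sg a (V' i) (V' i) ≤ sg b V V - sg a V V := by
  have h1 := (oul_convex hV).le_slope_of_hasDerivAt (x := a) (y := b) ⟨ha, lt_trans hab hb⟩
    ⟨le_trans ha hab.le, hb⟩ hab (oul_cd hV a ⟨ha, lt_trans hab hb⟩)
  rw [slope_def_field, le_div_iff₀ (by linarith)] at h1
  linarith

theorem oul_main {h : (κ → ℝ) → ℝ} (hh : Bm h) :
    ∃ (V : (κ → ℝ) → ℝ) (V' : κ → (κ → ℝ) → ℝ) (V'' : κ → κ → (κ → ℝ) → ℝ),
      C1b V V' ∧ (∀ i, C1b (V' i) (V'' i)) ∧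
      (∀ t, 0 ≤ t → t ≤ 1 → sg t V V = sg (t / 2) h h) ∧
      sg 0 V V = (∫ x, h x ∂(gam κ)) ^ 2 ∧
      ∑ i, sg 0 (V' i) (V' i) = (∑ i, mo h i ^ 2) / 2 := by
  classical
  set r : ℝ := Real.sqrt (Real.sqrt (1 / 2)) with hr
  have hr0 : 0 ≤ r := Real.sqrt_nonneg _
  have hr2 : r ^ 2 = Real.sqrt (1 / 2) := Real.sq_sqrt (Real.sqrt_nonneg _)
  have hr4 : r ^ 2 * r ^ 2 = 1 / 2 := by
    rw [hr2]
    exact Real.mul_self_sqrt (by norm_num)
  have hr1 : r < 1 := by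
    by_contra hcon
    push Not at hcon
    have h1 : 1 ≤ r ^ 2 := one_le_pow₀ hcon
    nlinarith
  have hra : |r| ≤ 1 := by rw [abs_of_nonneg hr0]; exact hr1.le
  have hr21 : r ^ 2 ≤ 1 := pow_le_one₀ hr0 hr1.le
  have hr20 : 0 ≤ r ^ 2 := sq_nonneg r
  have hg := OU_C1b hh r hr0 hr1
  have hgb : ∀ i : κ, Bm (dOU r (Pi.single i 1) h) := fun i => dOU_bm hh r hr0 hr1 _
  have hV := OU_C1b_of_C1b hg r hr0 hr1.le
  have hV' : ∀ i : κ, C1b (fun x => r * OU r (dOU r (Pi.single i 1) h) x)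
      (fun j x => r * dOU r (Pi.single j 1) (dOU r (Pi.single i 1) h) x) := fun i =>
    oul_smul (OU_C1b (hgb i) r hr0 hr1) r
  refine ⟨OU r (OU r h), fun i x => r * OU r (dOU r (Pi.single i 1) h) x,
    fun i j x => r * dOU r (Pi.single j 1) (dOU r (Pi.single i 1) h) x, hV, hV', ?_, ?_, ?_⟩
  · intro t ht0 ht1
    rw [sg_OU (OU_bm hh r) (OU_bm hh r) r t hr0 hr1.le ht0 ht1,
      sg_OU hh hh r (r ^ 2 * t) hr0 hr1.le (mul_nonneg hr20 ht0) (mul_le_one₀ hr21 ht0 ht1)]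
    congr 1
    rw [← mul_assoc, hr4]
    ring
  · rw [sg_zero (OU_bm (OU_bm hh r) r) (OU_bm (OU_bm hh r) r), integral_OU (OU_bm hh r) r hra,
      integral_OU hh r hra]
    ring
  · rw [Finset.sum_div]
    apply Finset.sum_congr rfl
    intro i _
    have h1 := oul_ibp hV i
    have h2 : Bm fun x => r * OU r (dOU r (Pi.single i 1) h) x := oul_bm' hV i
    rw [sg_zero h2 h2, h1, mo_OU (OU_bm hh r) r hra, mo_OU hh r hra]
    linear_combination (mo h i) ^ 2 * hr4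

theorem sg_lower {h : (κ → ℝ) → ℝ} (hh : Bm h) (ρ : ℝ) (hρ : 0 ≤ ρ) (hρ1 : ρ ≤ 1 / 4) :
    (∫ x, h x ∂(gam κ)) ^ 2 + ρ * ∑ i, mo h i ^ 2 ≤ sg ρ h h := by
  obtain ⟨V, V', V'', hV, hV', hA, h0, h0'⟩ := oul_main hh
  have hsg : sg ρ h h = sg (2 * ρ) V V := by
    rw [hA (2 * ρ) (by linarith) (by linarith)]
    congr 1
    ring
  rcases hρ.eq_or_lt with h1 | h1
  · rw [hsg, ← h1, mul_zero, h0]
    linarith
  · have h2 := oul_tangent hV 0 (2 * ρ) le_rfl (by linarith) (by linarith)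
    rw [h0, h0'] at h2
    rw [hsg]
    linarith

theorem sg_level2 {h : (κ → ℝ) → ℝ} (hh : Bm h) (ρ : ℝ) (hρ : 0 ≤ ρ) (hρ1 : ρ ≤ 1 / 4) :
    sg ρ h h ≤ (∫ x, h x ∂(gam κ)) ^ 2 + ρ * ∑ i, mo h i ^ 2 + 8 * ρ ^ 2 * sg (1 / 2) h h := by
  obtain ⟨V, V', V'', hV, hV', hA, h0, h0'⟩ := oul_main hh
  have hsg : sg ρ h h = sg (2 * ρ) V V := by
    rw [hA (2 * ρ) (by linarith) (by linarith)]
    congr 1
    ring
  set A : ℝ → ℝ := fun s => sg s V V with hAdef
  set A' : ℝ → ℝ := fun s => ∑ i, sg s (V' i) (V' i) with hA'def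
  have hA1 : A 1 = sg (1 / 2) h h := hA 1 zero_le_one le_rfl
  have hVb : Bm V := oul_bm hV
  have hA10 : 0 ≤ A 1 := sg_self_nonneg hVb 1 zero_le_one le_rfl
  -- the bound for `A' (1/2)`
  have hc : A' (1 / 2) ≤ 2 * A 1 := by
    by_contra hcon
    push Not at hcon
    set c := A' (1 / 2) with hcdef
    have hcpos : 0 < c := by linarith
    have key : ∀ s : ℝ, 1 / 2 < s → s < 1 → (s - 1 / 2) * c ≤ A 1 := by
      intro s hs hs1
      have h1 := oul_tangent hV (1 / 2) s (by norm_num) hs hs1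
      have h2 : sg s V V ≤ A 1 := sg_mono hVb s 1 (by linarith) hs1.le le_rfl
      have h3 : 0 ≤ sg (1 / 2) V V := sg_self_nonneg hVb _ (by norm_num) (by norm_num)
      exact le_trans h1 (by linarith)
    -- choose s close to 1
    set s : ℝ := max (3 / 4) (1 / 2 + (A 1 / c + 1 / 2) / 2) with hs
    have hAc : A 1 / c < 1 / 2 := by
      rw [div_lt_iff₀ hcpos]; linarith
    have hs1 : s < 1 := by
      rw [hs, max_lt_iff]
      constructor
      · norm_num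
      · linarith
    have hs2 : 1 / 2 < s := lt_of_lt_of_le (by norm_num) (le_max_left _ _)
    have h1 := key s hs2 hs1
    have h2 : (A 1 / c + 1 / 2) / 2 ≤ s - 1 / 2 := by
      have := le_max_right (3 / 4 : ℝ) (1 / 2 + (A 1 / c + 1 / 2) / 2)
      rw [← hs] at this
      linarith
    have h3 : (A 1 / c + 1 / 2) / 2 * c ≤ A 1 :=
      le_trans (mul_le_mul_of_nonneg_right h2 hcpos.le) h1
    have h4 : A 1 / c * c = A 1 := div_mul_cancel₀ _ hcpos.ne'
    nlinarith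
  -- convexity of `A'`
  have hconv : ∀ s : ℝ, 0 ≤ s → s ≤ 1 / 2 → A' s ≤ A' 0 + 2 * s * A' (1 / 2) := by
    intro s hs0 hs1
    have hz : 0 ≤ A' 0 := Finset.sum_nonneg fun i _ =>
      sg_self_nonneg (oul_bm' hV i) 0 le_rfl zero_le_one
    have h1 : A' s ≤ (1 - 2 * s) * A' 0 + 2 * s * A' (1 / 2) := by
      simp only [hA'def]
      rw [Finset.mul_sum, Finset.mul_sum, ← Finset.sum_add_distrib]
      apply Finset.sum_le_sum
      intro i _
      have m0 : (0 : ℝ) ∈ Set.Ico (0 : ℝ) 1 := ⟨le_rfl, one_pos⟩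
      have m1 : (1 / 2 : ℝ) ∈ Set.Ico (0 : ℝ) 1 := ⟨by norm_num, by norm_num⟩
      have h2 := (oul_convex (hV' i)).2 m0 m1 (show (0 : ℝ) ≤ 1 - 2 * s by linarith)
        (show (0 : ℝ) ≤ 2 * s by linarith) (by ring)
      simp only [smul_eq_mul, mul_zero, zero_add] at h2
      have e : 2 * s * (1 / 2) = s := by ring
      rw [e] at h2
      exact h2
    nlinarith
  -- integrate
  set φ : ℝ → ℝ := fun s => A 0 + s * A' 0 + s ^ 2 * A' (1 / 2) - A s with hφ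
  have hφd : ∀ s ∈ Set.Ico (0 : ℝ) 1,
      HasDerivAt φ (A' 0 + 2 * s * A' (1 / 2) - A' s) s := by
    intro s hs
    have h1 := oul_cd hV s hs
    have h2 : HasDerivAt (fun s : ℝ => s) 1 s := hasDerivAt_id s
    have h3 := (((h2.mul_const (A' 0)).const_add (A 0)).add
      ((h2.pow 2).mul_const (A' (1 / 2)))).sub h1
    have e : (1 * A' 0 + ((2 : ℕ) : ℝ) * s ^ (2 - 1) * 1 * A' (1 / 2) -
        ∑ i, sg s (V' i) (V' i)) = A' 0 + 2 * s * A' (1 / 2) - A' s := by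
      show _ = A' 0 + 2 * s * A' (1 / 2) - ∑ i, sg s (V' i) (V' i)
      norm_num
    rw [← e]
    exact h3
  have hmono : MonotoneOn φ (Set.Icc 0 (1 / 2)) := by
    apply monotoneOn_of_deriv_nonneg (convex_Icc 0 (1 / 2))
    · intro s hs
      exact (hφd s ⟨hs.1, by linarith [hs.2]⟩).continuousAt.continuousWithinAt
    · intro s hs
      rw [interior_Icc] at hs
      exact (hφd s ⟨hs.1.le, by linarith [hs.2]⟩).differentiableAt.differentiableWithinAt
    · intro s hs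
      rw [interior_Icc] at hs
      rw [(hφd s ⟨hs.1.le, by linarith [hs.2]⟩).deriv]
      linarith [hconv s hs.1.le hs.2.le]
  have h5 : φ 0 ≤ φ (2 * ρ) := hmono ⟨le_rfl, by norm_num⟩ ⟨by linarith, by linarith⟩ (by linarith)
  have h6 : φ 0 = 0 := by simp [hφ]
  rw [h6] at h5
  simp only [hφ] at h5
  have hA0 : A 0 = (∫ x, h x ∂(gam κ)) ^ 2 := h0
  have hA0' : A' 0 = (∑ i, mo h i ^ 2) / 2 := h0'
  rw [hA0, hA0'] at h5
  rw [hsg, ← hA1]
  have h7 : (2 * ρ) ^ 2 * A' (1 / 2) ≤ (2 * ρ) ^ 2 * (2 * A 1) :=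
    mul_le_mul_of_nonneg_left hc (sq_nonneg _)
  have h8 : sg (2 * ρ) V V = A (2 * ρ) := rfl
  rw [h8]
  nlinarith

end oul

end Pool.H65.PT
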