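import Pool.Agent.Helper65.PT.Defs
import Pool.Agent.Helper65.PT.Tig
import Pool.Agent.Helper65.PT.Ous

set_option autoImplicit false

open MeasureTheory ProbabilityTheory Pool.H65.PS

namespace Pool.H65.PT

theorem Tiq_cost_nonneg {κ : Type} [Fintype κ] {m : ℕ} (u : Fin m → κ → ℝ)
    (f : (κ → ℝ) → Fin m → ℝ) (hf : Pt f) : 0 ≤ cost u f := by
  unfold cost
  refine integral_nonneg fun x => Finset.sum_nonneg fun j _ => mul_nonneg ((hf.simp x).1 j) ?_
  refine le_min zero_le_one ?_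
  unfold gap
  have h := le_ciSup (Set.finite_range (xi u x)).bddAbove j
  linarith

theorem Tiq_dev_bm {κ : Type} [Fintype κ] {m : ℕ} (u : Fin m → κ → ℝ)
    (f : (κ → ℝ) → Fin m → ℝ) (hf : Pt f) (j : Fin m) : Bm (dev u f j) := by
  have hxi : Measurable (xi u) := by
    refine measurable_pi_lambda _ fun i => ?_
    unfold xi dot
    fun_prop
  constructor
  · unfold dev
    exact (hf.meas j).sub ((cellF_measurable j).comp hxi)
  · refine ⟨1, fun x => ?_⟩
    unfold dev
    have h0 := (hf.simp x).1 j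
    have h1 : f x j ≤ 1 := by
      have hs := (hf.simp x).2
      rw [← hs]
      exact Finset.single_le_sum (f := fun i => f x i) (fun i _ => (hf.simp x).1 i)
        (Finset.mem_univ j)
    have h2 := cellF_nonneg j (xi u x)
    have h3 := cellF_le_one j (xi u x)
    rw [abs_le]
    constructor <;> linarith

theorem Tiq_int {κ : Type} [Fintype κ] {g : (κ → ℝ) → ℝ} (hg : Bm g) :
    Integrable (fun x => g x ^ 2) (gam κ) := by
  obtain ⟨B, hB⟩ := hg.bdd
  refine Integrable.of_bound (hg.meas.pow_const 2).aestronglyMeasurable (B ^ 2)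
    (Filter.Eventually.of_forall fun x => ?_)
  rw [Real.norm_eq_abs, abs_pow]
  exact pow_le_pow_left₀ (abs_nonneg _) (hB x) 2

theorem Tiq_alg (M T Q : ℝ) (hT : 0 ≤ T) (h : Q ≤ 10 * M ^ 2 * Real.sqrt T * Real.sqrt (2 * Q)) :
    Q ≤ 200 * M ^ 4 * T := by
  rcases le_or_gt Q 0 with hQ | hQ
  · exact hQ.trans (by positivity)
  · have h2 : Q ^ 2 ≤ (10 * M ^ 2 * Real.sqrt T * Real.sqrt (2 * Q)) ^ 2 :=
      pow_le_pow_left₀ hQ.le h 2
    have h3 : (10 * M ^ 2 * Real.sqrt T * Real.sqrt (2 * Q)) ^ 2 = 200 * M ^ 4 * T * Q := by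
      rw [mul_pow, mul_pow, Real.sq_sqrt hT, Real.sq_sqrt (by linarith)]
      ring
    rw [h3, pow_two] at h2
    exact le_of_mul_le_mul_right h2 hQ

theorem sg_half_dev {κ : Type} [Fintype κ] {m : ℕ} (u : Fin m → κ → ℝ) (hu : Frame u)
    (f : (κ → ℝ) → Fin m → ℝ) (hf : Pt f) (j : Fin m) :
    sg (1 / 2) (dev u f j) (dev u f j) ≤ 200 * (m : ℝ) ^ 4 * cost u f := by
  set h : (κ → ℝ) → ℝ := dev u f j with hh
  have hb : Bm h := Tiq_dev_bm u f hf j
  set r : ℝ := Real.sqrt (1 / 2) with hr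
  have hr2 : r ^ 2 = 1 / 2 := by rw [hr, Real.sq_sqrt (by norm_num)]
  have hr0 : 0 ≤ r := Real.sqrt_nonneg _
  have hr1 : r < 1 := by
    rw [hr, Real.sqrt_lt' (by norm_num)]
    norm_num
  have habs : |r| ≤ 1 := by rw [abs_of_nonneg hr0]; exact hr1.le
  have hVb : Bm (OU r h) := OU_bm hb r
  have hgb : Bm (OU r (OU r h)) := OU_bm hVb r
  set Q : ℝ := ∫ x, OU r h x ^ 2 ∂(gam κ) with hQ
  have e1 : sg (1 / 2) h h = Q := by
    have e := sg_OU hb hb r 1 hr0 hr1.le zero_le_one le_rfl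
    rw [hr2, mul_one, sg_one hVb hVb] at e
    rw [← e, hQ]
    refine integral_congr_ae (Filter.Eventually.of_forall fun x => ?_)
    ring
  have e2 : sg (1 / 2) h h = ∫ x, h x * OU r (OU r h) x ∂(gam κ) := by
    rw [sg_eq_OU hb hb]
    refine integral_congr_ae (Filter.Eventually.of_forall fun x => ?_)
    have e3 : OU r (OU r h) x = OU (1 / 2) h x := by
      rw [OU_comp hb r r hr0 hr1.le hr0 hr1.le x]
      congr 1
      rw [← hr2]; ring
    show h x * OU (1 / 2) h x = h x * OU r (OU r h) x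
    rw [e3]
  have key := ti_dev u hu f hf (OU r (OU r h)) (OU_continuous hVb r hr0 hr1) (2 * Q) ?_ j
  · rw [← hh, ← e2, e1] at key
    rw [e1]
    exact Tiq_alg _ _ _ (Tiq_cost_nonneg u f hf) ((le_abs_self _).trans key)
  · intro l k hlk
    set w : κ → ℝ := (Real.sqrt 2)⁻¹ • (u l - u k) with hw
    have hww : dot w w = 1 := by
      have ll := hu l l
      have kk := hu k k
      have lk := hu l k
      have kl := hu k l
      rw [if_pos rfl] at ll kk
      rw [if_neg hlk] at lk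
      rw [if_neg (Ne.symm hlk)] at kl
      have e : dot w w = (Real.sqrt 2)⁻¹ ^ 2 *
          (dot (u l) (u l) - dot (u l) (u k) - dot (u k) (u l) + dot (u k) (u k)) := by
        unfold dot
        rw [← Finset.sum_sub_distrib, ← Finset.sum_sub_distrib, ← Finset.sum_add_distrib,
          Finset.mul_sum]
        refine Finset.sum_congr rfl fun i _ => ?_
        rw [hw]
        simp only [Pi.smul_apply, Pi.sub_apply, smul_eq_mul]
        ring
      rw [e, ll, kk, lk, kl, inv_pow, Real.sq_sqrt (by norm_num)]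
      norm_num
    have hdb : Bm (dOU r w (OU r h)) := dOU_bm hVb r hr0 hr1 w
    refine ⟨dOU r w (OU r h), dOU_continuous hVb r hr0 hr1 w, fun x t => OU_dir hVb r hr0 hr1 w x t,
      (Tiq_int hgb).add (Tiq_int hdb), ?_⟩
    rw [integral_add (Tiq_int hgb) (Tiq_int hdb)]
    have i1 := integral_OU_sq_le hVb r habs
    have i2 := dOU_sq_le hVb r hr0 hr1 w hww
    rw [hr2] at i2
    norm_num at i2
    rw [hQ]
    linarith

end Pool.H65.PT
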