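import Pool.Agent.Helper65.PT.Defs
import Pool.Agent.Helper65.PT.Gbb
import Pool.Agent.Helper65.PT.Tiq
import Pool.Agent.Helper65.PT.Dlc
import Pool.Agent.Helper65.PT.Oul

set_option autoImplicit false

open MeasureTheory ProbabilityTheory Pool.H65.PS

namespace Pool.H65.PT

section gcc

variable {κ : Type} [Fintype κ] {m : ℕ}

theorem gcc_int {f h : (κ → ℝ) → ℝ} (hf : Bm f) (hh : Bm h) (ρ : ℝ) :
    Integrable (fun p : (κ → ℝ) × (κ → ℝ) => f p.1 * h (ρ • p.1 + Real.sqrt (1 - ρ ^ 2) • p.2))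
      ((gam κ).prod (gam κ)) := by
  obtain ⟨B, hB⟩ := hf.bdd
  obtain ⟨B', hB'⟩ := hh.bdd
  have hmeas : Measurable (fun p : (κ → ℝ) × (κ → ℝ) =>
      ρ • p.1 + Real.sqrt (1 - ρ ^ 2) • p.2) :=
    (measurable_fst.const_smul ρ).add (measurable_snd.const_smul (Real.sqrt (1 - ρ ^ 2)))
  refine Integrable.of_bound
    ((hf.meas.comp measurable_fst).mul (hh.meas.comp hmeas)).aestronglyMeasurable (|B| * |B'|) ?_
  filter_upwards with p
  rw [norm_mul]
  exact mul_le_mul ((hB _).trans (le_abs_self _)) ((hB' _).trans (le_abs_self _)) (norm_nonneg _)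
    (abs_nonneg _)

theorem gcc_bm_int {f : (κ → ℝ) → ℝ} (hf : Bm f) : Integrable f (gam κ) := by
  obtain ⟨B, hB⟩ := hf.bdd
  exact Integrable.of_bound hf.meas.aestronglyMeasurable B (Filter.Eventually.of_forall hB)

theorem gcc_bm_mul {f h : (κ → ℝ) → ℝ} (hf : Bm f) (hh : Bm h) : Bm (fun x => f x * h x) := by
  obtain ⟨B, hB⟩ := hf.bdd
  obtain ⟨B', hB'⟩ := hh.bdd
  refine ⟨hf.meas.mul hh.meas, |B| * |B'|, fun x => ?_⟩
  rw [abs_mul]
  exact mul_le_mul ((hB _).trans (le_abs_self _)) ((hB' _).trans (le_abs_self _)) (abs_nonneg _)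
    (abs_nonneg _)

theorem gcc_sg_add {f h : (κ → ℝ) → ℝ} (hf : Bm f) (hh : Bm h) (ρ : ℝ) (h1 : |ρ| ≤ 1) :
    sg ρ (fun x => f x + h x) (fun x => f x + h x) = sg ρ f f + 2 * sg ρ h f + sg ρ h h := by
  have e : sg ρ (fun x => f x + h x) (fun x => f x + h x) =
      sg ρ f f + sg ρ f h + sg ρ h f + sg ρ h h := by
    unfold sg
    have iA := gcc_int hf hf ρ
    have iB := gcc_int hf hh ρ
    have iC := gcc_int hh hf ρ
    have iD := gcc_int hh hh ρ
    have iAB : Integrable (fun p : (κ → ℝ) × (κ → ℝ) =>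
      f p.1 * f (ρ • p.1 + Real.sqrt (1 - ρ ^ 2) • p.2) +
      f p.1 * h (ρ • p.1 + Real.sqrt (1 - ρ ^ 2) • p.2)) ((gam κ).prod (gam κ)) := iA.add iB
    have iABC : Integrable (fun p : (κ → ℝ) × (κ → ℝ) =>
      f p.1 * f (ρ • p.1 + Real.sqrt (1 - ρ ^ 2) • p.2) +
      f p.1 * h (ρ • p.1 + Real.sqrt (1 - ρ ^ 2) • p.2) +
      h p.1 * f (ρ • p.1 + Real.sqrt (1 - ρ ^ 2) • p.2)) ((gam κ).prod (gam κ)) := iAB.add iC
    rw [← integral_add iA iB, ← integral_add iAB iC, ← integral_add iABC iD]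
    congr 1
    funext p
    ring
  rw [e, sg_symm hf hh ρ h1]
  ring

theorem gcc_xi_meas (u : Fin m → κ → ℝ) : Measurable (xi u) := by
  unfold xi dot
  refine measurable_pi_lambda _ fun j => ?_
  exact Finset.measurable_sum _ fun i _ => (measurable_pi_apply i).const_mul _

theorem gcc_cell_bm (u : Fin m → κ → ℝ) (j : Fin m) : Bm (fun x => cellF j (xi u x)) := by
  refine ⟨(cellF_measurable j).comp (gcc_xi_meas u), 1, fun x => ?_⟩
  rw [abs_of_nonneg (cellF_nonneg _ _)]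
  exact cellF_le_one _ _

theorem gcc_pt_le {f : (κ → ℝ) → Fin m → ℝ} (hf : Pt f) (x : κ → ℝ) (j : Fin m) :
    0 ≤ f x j ∧ f x j ≤ 1 := by
  have h := hf.simp x
  refine ⟨h.1 j, ?_⟩
  calc f x j ≤ ∑ j, f x j := Finset.single_le_sum (fun i _ => h.1 i) (Finset.mem_univ j)
    _ = 1 := h.2

theorem gcc_f_bm {f : (κ → ℝ) → Fin m → ℝ} (hf : Pt f) (j : Fin m) : Bm (fun x => f x j) := by
  refine ⟨hf.meas j, 1, fun x => ?_⟩
  rw [abs_of_nonneg (gcc_pt_le hf x j).1]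
  exact (gcc_pt_le hf x j).2

theorem gcc_dev_bm (u : Fin m → κ → ℝ) {f : (κ → ℝ) → Fin m → ℝ} (hf : Pt f) (j : Fin m) :
    Bm (dev u f j) := by
  refine ⟨(gcc_f_bm hf j).meas.sub (gcc_cell_bm u j).meas, 1 + 1, fun x => ?_⟩
  unfold dev
  refine (abs_sub _ _).trans (add_le_add ?_ ?_)
  · rw [abs_of_nonneg (gcc_pt_le hf x j).1]
    exact (gcc_pt_le hf x j).2
  · rw [abs_of_nonneg (cellF_nonneg _ _)]
    exact cellF_le_one _ _

theorem gcc_gap_nonneg (ξ : Fin m → ℝ) (j : Fin m) : 0 ≤ gap ξ j := by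
  unfold gap
  have := le_ciSup (Set.finite_range ξ).bddAbove j
  linarith

theorem gcc_cost_nonneg (u : Fin m → κ → ℝ) {f : (κ → ℝ) → Fin m → ℝ} (hf : Pt f) :
    0 ≤ cost u f := by
  unfold cost
  refine integral_nonneg fun x => Finset.sum_nonneg fun j _ => ?_
  exact mul_nonneg (gcc_pt_le hf x j).1 (le_min zero_le_one (gcc_gap_nonneg _ _))

theorem gcc_gap_meas (hm : 2 ≤ m) (u : Fin m → κ → ℝ) (j : Fin m) :
    Measurable (fun x => gap (xi u x) j) := by
  have : Nonempty (Fin m) := ⟨⟨0, by omega⟩⟩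
  unfold gap
  refine Measurable.sub ?_ ((measurable_pi_apply j).comp (gcc_xi_meas u))
  exact (emx_cont_iSup (ι := Fin m)).measurable.comp (gcc_xi_meas u)

theorem gcc_gap_int (hm : 2 ≤ m) (u : Fin m → κ → ℝ) (j : Fin m) :
    Integrable (fun x => gap (xi u x) j) (gam κ) := by
  have : Nonempty (Fin m) := ⟨⟨0, by omega⟩⟩
  have hxi : ∀ l, Integrable (fun x => xi u x l) (gam κ) := by
    intro l
    unfold xi dot
    exact integrable_finsetSum _ fun i _ => (emx_int_coord i).const_mul _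
  have hb : Integrable (fun x => ∑ l, |xi u x l| + |xi u x j|) (gam κ) :=
    (integrable_finsetSum _ fun l _ => (hxi l).abs).add (hxi j).abs
  refine hb.mono' (gcc_gap_meas hm u j).aestronglyMeasurable ?_
  filter_upwards with x
  unfold gap
  refine (norm_sub_le _ _).trans (add_le_add ?_ le_rfl)
  refine (emx_abs_iSup (xi u x)).trans ?_
  rw [pi_norm_le_iff_of_nonneg (Finset.sum_nonneg fun _ _ => abs_nonneg _)]
  intro l
  exact Finset.single_le_sum (f := fun l => |xi u x l|) (fun _ _ => abs_nonneg _)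
    (Finset.mem_univ l)

theorem gcc_chi (K ρ : ℝ) (hK : 0 ≤ K) (hρ : 0 ≤ ρ) (ξ : Fin m → ℝ) :
    0 ≤ 1 - chi K ρ ξ ∧ 1 - chi K ρ ξ ≤ 1 := by
  unfold chi
  have h : 0 ≤ K * ρ * (1 + ∑ l, ξ l ^ 2) := by
    have : 0 ≤ ∑ l, ξ l ^ 2 := Finset.sum_nonneg fun _ _ => sq_nonneg _
    positivity
  have h1 : K * ρ * (1 + ∑ l, ξ l ^ 2) / (1 + K * ρ * (1 + ∑ l, ξ l ^ 2)) ≤ 1 := by
    rw [div_le_one (by linarith)]; linarith
  have h2 : 0 ≤ K * ρ * (1 + ∑ l, ξ l ^ 2) / (1 + K * ρ * (1 + ∑ l, ξ l ^ 2)) := by positivity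
  constructor <;> linarith

theorem gcc_chi_meas (K ρ : ℝ) (u : Fin m → κ → ℝ) :
    Measurable (fun x => 1 - chi K ρ (xi u x)) := by
  have h : Measurable (fun x => ∑ l, xi u x l ^ 2) :=
    Finset.measurable_sum _ fun l _ =>
      (((measurable_pi_apply l).comp (gcc_xi_meas u)).pow_const 2)
  unfold chi
  have h2 : Measurable (fun x => K * ρ * (1 + ∑ l, xi u x l ^ 2)) :=
    (h.const_add 1).const_mul _
  exact (h2.div (h2.const_add 1)).const_sub 1

/-- the cross term -/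
theorem gcc_cross (hm : 2 ≤ m) (K c4 ρ : ℝ) (hK : 0 ≤ K) (hρ : 0 ≤ ρ) (hρ1 : ρ ≤ 1 / 4)
    (hc : ∀ (ξ : Fin m → ℝ) (j k : Fin m), (∀ l, ξ l ≤ ξ k) →
      (1 - chi K ρ ξ) * (2 - 1 / ((m : ℝ) + 1)) * am m * ρ * (ξ k - ξ j)
        + c4 * ρ * min 1 (ξ k - ξ j) ≤ 2 * (QQ ρ k ξ - QQ ρ j ξ))
    (u : Fin m → κ → ℝ) (hu : Frame u) (f : (κ → ℝ) → Fin m → ℝ) (hf : Pt f) :
    2 * ∑ j, sg ρ (dev u f j) (fun x => cellF j (xi u x)) ≤
      -((2 - 1 / ((m : ℝ) + 1)) * ρ * (am m *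
        ∫ x, (1 - chi K ρ (xi u x)) * ∑ j, f x j * gap (xi u x) j ∂(gam κ)))
      - c4 * ρ * cost u f := by
  have : Nonempty (Fin m) := ⟨⟨0, by omega⟩⟩
  have hQ : ∀ j, Bm (fun x => QQ ρ j (xi u x)) := by
    intro j
    have h : Bm (QQ ρ j) := OU_bm (κ := Fin m) ⟨cellF_measurable j, 1, fun x => by
      rw [abs_of_nonneg (cellF_nonneg _ _)]; exact cellF_le_one _ _⟩ ρ
    obtain ⟨B, hB⟩ := h.bdd
    exact ⟨h.meas.comp (gcc_xi_meas u), B, fun x => hB _⟩
  have h1 : ∀ j, sg ρ (dev u f j) (fun x => cellF j (xi u x)) =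
      ∫ x, dev u f j x * QQ ρ j (xi u x) ∂(gam κ) := by
    intro j
    rw [sg_eq_OU (gcc_dev_bm u hf j) (gcc_cell_bm u j) ρ]
    congr 1
    funext x
    rw [OU_cell ρ u hu j x]
  have hi1 : ∀ j, Integrable (fun x => dev u f j x * QQ ρ j (xi u x)) (gam κ) := fun j =>
    gcc_bm_int (gcc_bm_mul (gcc_dev_bm u hf j) (hQ j))
  simp_rw [h1]
  rw [← integral_finsetSum (μ := gam κ) Finset.univ
    (f := fun j x => dev u f j x * QQ ρ j (xi u x)) (fun j _ => hi1 j), ← integral_const_mul]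
  have hgi : ∀ j, Integrable (fun x => f x j * gap (xi u x) j) (gam κ) := by
    intro j
    refine (gcc_gap_int hm u j).mono
      ((hf.meas j).aestronglyMeasurable.mul (gcc_gap_meas hm u j).aestronglyMeasurable) ?_
    filter_upwards with x
    rw [norm_mul]
    calc ‖f x j‖ * ‖gap (xi u x) j‖ ≤ 1 * ‖gap (xi u x) j‖ := by
          gcongr
          rw [Real.norm_of_nonneg (gcc_pt_le hf x j).1]
          exact (gcc_pt_le hf x j).2
      _ = _ := one_mul _
  have hi2' : Integrable (fun x => ∑ j, f x j * gap (xi u x) j) (gam κ) :=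
    integrable_finsetSum _ fun j _ => hgi j
  have hi2 : Integrable (fun x => (1 - chi K ρ (xi u x)) * ∑ j, f x j * gap (xi u x) j)
      (gam κ) := by
    refine hi2'.mono ((gcc_chi_meas K ρ u).aestronglyMeasurable.mul hi2'.aestronglyMeasurable) ?_
    filter_upwards with x
    rw [norm_mul]
    calc ‖1 - chi K ρ (xi u x)‖ * ‖∑ j, f x j * gap (xi u x) j‖ ≤
        1 * ‖∑ j, f x j * gap (xi u x) j‖ := by
          gcongr
          rw [Real.norm_of_nonneg (gcc_chi K ρ hK hρ _).1]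
          exact (gcc_chi K ρ hK hρ _).2
      _ = _ := one_mul _
  have hi3 : Integrable (fun x => ∑ j, f x j * min 1 (gap (xi u x) j)) (gam κ) := by
    refine integrable_finsetSum _ fun j _ => ?_
    refine Integrable.of_bound ((hf.meas j).mul
      (measurable_const.min (gcc_gap_meas hm u j))).aestronglyMeasurable 1 ?_
    filter_upwards with x
    have h2 := gcc_gap_nonneg (xi u x) j
    rw [Real.norm_of_nonneg (mul_nonneg (gcc_pt_le hf x j).1 (le_min zero_le_one h2))]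
    calc f x j * min 1 (gap (xi u x) j) ≤ 1 * 1 :=
          mul_le_mul (gcc_pt_le hf x j).2 (min_le_left _ _) (le_min zero_le_one h2) zero_le_one
      _ = 1 := one_mul 1
  have hi4 : Integrable (fun x =>
      -((2 - 1 / ((m : ℝ) + 1)) * ρ * am m) *
        ((1 - chi K ρ (xi u x)) * ∑ j, f x j * gap (xi u x) j)
      + (-(c4 * ρ)) * ∑ j, f x j * min 1 (gap (xi u x) j)) (gam κ) :=
    (hi2.const_mul _).add (hi3.const_mul _)
  have hi5 : Integrable (fun x => 2 * ∑ j, dev u f j x * QQ ρ j (xi u x)) (gam κ) :=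
    (integrable_finsetSum _ fun j _ => hi1 j).const_mul 2
  have hae : ∀ᵐ x ∂(gam κ), 2 * ∑ j, dev u f j x * QQ ρ j (xi u x) ≤
      -((2 - 1 / ((m : ℝ) + 1)) * ρ * am m) *
        ((1 - chi K ρ (xi u x)) * ∑ j, f x j * gap (xi u x) j)
      + (-(c4 * ρ)) * ∑ j, f x j * min 1 (gap (xi u x) j) := by
    have hs := (measurePreserving_xi u hu).quasiMeasurePreserving.ae
      (ae_strict_max (m := m) (by omega))
    filter_upwards [hs] with x hx
    obtain ⟨k, hk⟩ := hx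
    set ξ := xi u x with hξ
    have hmax : ∀ l, ξ l ≤ ξ k := by
      intro l
      by_cases h : l = k
      · rw [h]
      · exact (hk l h).le
    have hsup : (⨆ l, ξ l) = ξ k := by
      apply le_antisymm (ciSup_le hmax) (le_ciSup (Set.finite_range ξ).bddAbove k)
    have hgap : ∀ j, gap ξ j = ξ k - ξ j := by
      intro j; unfold gap; rw [hsup]
    have hcell : ∀ j, cellF j ξ = if j = k then 1 else 0 := by
      intro j
      unfold cellF
      by_cases h : j = k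
      · subst h; rw [if_pos hk, if_pos rfl]
      · rw [if_neg h, if_neg]
        intro h'
        have a1 := h' k (Ne.symm h)
        have a2 := hk j h
        linarith
    have hsum1 : ∑ j, f x j = 1 := (hf.simp x).2
    have e1 : ∑ j, dev u f j x * QQ ρ j ξ = -∑ j, f x j * (QQ ρ k ξ - QQ ρ j ξ) := by
      have e2 : ∀ j, dev u f j x * QQ ρ j ξ =
          f x j * QQ ρ j ξ - (if j = k then QQ ρ j ξ else 0) := by
        intro j
        unfold dev
        rw [← hξ, hcell j]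
        split_ifs <;> ring
      simp_rw [e2, mul_sub]
      rw [Finset.sum_sub_distrib, Finset.sum_sub_distrib, ← Finset.sum_mul, hsum1]
      simp
    have e3 : ∀ j, (1 - chi K ρ ξ) * (2 - 1 / ((m : ℝ) + 1)) * am m * ρ * (f x j * gap ξ j)
        + c4 * ρ * (f x j * min 1 (gap ξ j)) ≤ 2 * (f x j * (QQ ρ k ξ - QQ ρ j ξ)) := by
      intro j
      have h2 := hc ξ j k hmax
      rw [hgap j]
      have h3 := mul_le_mul_of_nonneg_left h2 (gcc_pt_le hf x j).1
      linarith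
    have e4 := Finset.sum_le_sum fun j (_ : j ∈ Finset.univ) => e3 j
    rw [Finset.sum_add_distrib, ← Finset.mul_sum, ← Finset.mul_sum, ← Finset.mul_sum] at e4
    rw [e1]
    linarith
  refine (integral_mono_ae hi5 hi4 hae).trans (le_of_eq ?_)
  rw [integral_add (hi2.const_mul _) (hi3.const_mul _), integral_const_mul, integral_const_mul]
  unfold cost
  ring

end gcc

theorem case_B (m : ℕ) (hm : 2 ≤ m) : ∃ r0 ρ0 : ℝ, 0 < r0 ∧ 0 < ρ0 ∧ ρ0 ≤ 1 / 4 ∧
    ∀ (ρ : ℝ), 0 ≤ ρ → ρ ≤ ρ0 → ∀ (κ : Type) [Fintype κ] (f : (κ → ℝ) → Fin m → ℝ), Pt f → Bal f →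
    ∀ (u : Fin m → κ → ℝ), Frame u → ∀ H : Fin m → Fin m → ℝ, HS H → fs H ≤ r0 ^ 2 →
    (∀ j i, mo (fun x => f x j) i
      = am m * ∑ k, ((if j = k then 1 else 0) + H j k - 1 / (m : ℝ)) * u k i) →
    ∑ j, sg ρ (fun x => f x j) (fun x => f x j) ≤ Lam m ρ := by
  obtain ⟨K, c4, hK, hc4, hcomb⟩ := QQ_comb hm
  obtain ⟨C, r0, hC, hr0, hB⟩ := case_B_ineq m hm K hK.le
  have hm' : (2 : ℝ) ≤ m := by exact_mod_cast hm
  have ha := am_pos hm
  set a := am m with hadef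
  set M : ℝ := (m : ℝ) with hM
  have hr1 : 0 < a ^ 2 / (8 * M * (C + 1)) := by positivity
  have hρ1 : 0 < c4 / (4 * M * C ^ 2 / a ^ 2 + 1600 * M ^ 5) := by positivity
  refine ⟨min r0 (a ^ 2 / (8 * M * (C + 1))), min (1 / 4) (c4 / (4 * M * C ^ 2 / a ^ 2 + 1600 * M ^ 5)),
    lt_min hr0 hr1, lt_min (by norm_num) hρ1, min_le_left _ _, ?_⟩
  intro ρ hρ hρ0 κ _ f hf hbal u hu H hH hfs hz
  have hρ4 : ρ ≤ 1 / 4 := hρ0.trans (min_le_left _ _)
  have hρc := hρ0.trans (min_le_right _ _)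
  have hfs0 : 0 ≤ fs H := Finset.sum_nonneg fun _ _ => Finset.sum_nonneg fun _ _ => sq_nonneg _
  set X := fs H with hX
  set N := Real.sqrt X with hN
  have hN0 : 0 ≤ N := Real.sqrt_nonneg _
  have hN2 : N ^ 2 = X := Real.sq_sqrt hfs0
  have hmin0 : 0 < min r0 (a ^ 2 / (8 * M * (C + 1))) := lt_min hr0 hr1
  have hNle : N ≤ min r0 (a ^ 2 / (8 * M * (C + 1))) := by
    rw [hN, Real.sqrt_le_left hmin0.le]; exact hfs
  have hfs' : fs H ≤ r0 ^ 2 := by
    rw [← hX, ← hN2]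
    exact pow_le_pow_left₀ hN0 (hNle.trans (min_le_left _ _)) 2
  have hineq := hB ρ hρ (by linarith) κ f hf hbal u hu H hH hfs' hz
  set D := a * ∫ x, (1 - chi K ρ (xi u x)) * ∑ j, f x j * gap (xi u x) j ∂(gam κ) with hD
  set T := cost u f with hT
  have hT0 : 0 ≤ T := gcc_cost_nonneg u hf
  set S := Real.sqrt T with hS
  have hS0 : 0 ≤ S := Real.sqrt_nonneg _
  have hS2 : S ^ 2 = T := Real.sq_sqrt hT0
  have habs : |ρ| ≤ 1 := by rw [abs_of_nonneg hρ]; linarith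
  -- expansion
  have e1 : ∀ j, sg ρ (fun x => f x j) (fun x => f x j) =
      sg ρ (cellF j) (cellF j) + 2 * sg ρ (dev u f j) (fun x => cellF j (xi u x)) +
        sg ρ (dev u f j) (dev u f j) := by
    intro j
    have h1 := gcc_sg_add (gcc_cell_bm u j) (gcc_dev_bm u hf j) ρ habs
    have h2 : (fun x => cellF j (xi u x) + dev u f j x) = fun x => f x j := by
      funext x; unfold dev; ring
    rw [h2] at h1
    rw [h1, sg_cell ρ u hu j]
  simp_rw [e1]
  rw [Finset.sum_add_distrib, Finset.sum_add_distrib, ← Finset.mul_sum]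
  have hcross := gcc_cross hm K c4 ρ hK.le hρ hρ4
    (fun ξ j k h => hcomb ρ hρ (by linarith) ξ j k h) u hu f hf
  have hsq : ∑ j, sg ρ (dev u f j) (dev u f j) ≤ ρ * (a ^ 2 * X) + 1600 * M ^ 5 * ρ ^ 2 * T := by
    have h1 : ∀ j, sg ρ (dev u f j) (dev u f j) ≤
        ρ * ∑ i, mo (dev u f j) i ^ 2 + 8 * ρ ^ 2 * (200 * M ^ 4 * T) := by
      intro j
      have h2 := sg_level2 (gcc_dev_bm u hf j) ρ hρ hρ4
      have h3 : ∫ x, dev u f j x ∂(gam κ) = 0 := by
        unfold dev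
        rw [integral_sub (gcc_bm_int (gcc_f_bm hf j)) (gcc_bm_int (gcc_cell_bm u j)), hbal j]
        have h4 := (measurePreserving_xi u hu).map_eq
        have h5 : ∫ x, cellF j (xi u x) ∂(gam κ) = ∫ y, cellF j y ∂(gam (Fin m)) := by
          rw [← h4, integral_map (gcc_xi_meas u).aemeasurable
            (cellF_measurable j).aestronglyMeasurable]
        rw [h5, cellF_mean (by omega) j, sub_self]
      rw [h3] at h2
      have h6 := sg_half_dev u hu f hf j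
      have h7 : 8 * ρ ^ 2 * sg (1 / 2) (dev u f j) (dev u f j) ≤
          8 * ρ ^ 2 * (200 * M ^ 4 * T) := mul_le_mul_of_nonneg_left h6 (by positivity)
      linarith
    calc ∑ j, sg ρ (dev u f j) (dev u f j) ≤
        ∑ j, (ρ * ∑ i, mo (dev u f j) i ^ 2 + 8 * ρ ^ 2 * (200 * M ^ 4 * T)) :=
          Finset.sum_le_sum fun j _ => h1 j
      _ = ρ * (a ^ 2 * X) + 1600 * M ^ 5 * ρ ^ 2 * T := by
          rw [Finset.sum_add_distrib, ← Finset.mul_sum, mo_dev_sq hm u hu f hf H hz]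
          simp only [Finset.sum_const, Finset.card_univ, Fintype.card_fin, nsmul_eq_mul]
          ring
  have hLam : ∑ j, sg ρ (cellF j) (cellF j) = Lam m ρ := rfl
  rw [hLam]
  -- numerical part
  have hβ1 : (2 : ℝ) - 1 / (M + 1) ≤ 2 := by
    have : 0 ≤ 1 / (M + 1) := by positivity
    linarith
  have hβ0 : (0 : ℝ) ≤ 2 - 1 / (M + 1) := by
    have : 1 / (M + 1) ≤ 1 := by
      rw [div_le_one (by positivity)]; linarith
    linarith
  set β : ℝ := 2 - 1 / (M + 1) with hβ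
  have hβm : β * (1 / 2 + 1 / (2 * M)) = 1 + 1 / (2 * M) := by
    rw [hβ]; field_simp; ring
  have k1 : β * (a ^ 2 * (1 / 2 + 1 / (2 * M)) * X) ≤ β * (D + C * ρ * S * N + C * N ^ 3) :=
    mul_le_mul_of_nonneg_left hineq hβ0
  have k2 : β * (a ^ 2 * (1 / 2 + 1 / (2 * M)) * X) = a ^ 2 * X + a ^ 2 * X / (2 * M) := by
    calc β * (a ^ 2 * (1 / 2 + 1 / (2 * M)) * X) = (β * (1 / 2 + 1 / (2 * M))) * (a ^ 2 * X) := by
          ring
      _ = _ := by rw [hβm]; ring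
  have k3 : β * (C * N ^ 3) ≤ a ^ 2 * X / (4 * M) := by
    have h1 : N * (8 * M * (C + 1)) ≤ a ^ 2 := by
      have := hNle.trans (min_le_right _ _)
      rwa [le_div_iff₀ (by positivity)] at this
    have h2 : β * (C * N ^ 3) ≤ 2 * (C * N ^ 3) :=
      mul_le_mul_of_nonneg_right hβ1 (by positivity)
    have h3 : 2 * (C * N ^ 3) ≤ a ^ 2 * X / (4 * M) := by
      rw [le_div_iff₀ (by positivity)]
      have h4 : N * (8 * M * C) ≤ a ^ 2 := by
        have : 0 ≤ N * (8 * M) := by positivity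
        nlinarith
      calc 2 * (C * N ^ 3) * (4 * M) = (N * (8 * M * C)) * N ^ 2 := by ring
        _ ≤ a ^ 2 * N ^ 2 := mul_le_mul_of_nonneg_right h4 (by positivity)
        _ = a ^ 2 * X := by rw [hN2]
    exact h2.trans h3
  have k4 : β * (C * ρ * S * N) ≤ a ^ 2 * X / (4 * M) + 4 * M * C ^ 2 / a ^ 2 * ρ ^ 2 * T := by
    have h1 : β * (C * ρ * S * N) ≤ 2 * (C * ρ * S * N) :=
      mul_le_mul_of_nonneg_right hβ1 (by positivity)
    refine h1.trans ?_
    rw [← hN2, ← hS2]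
    have h2 : 0 ≤ (a ^ 2 * N - 4 * M * C * ρ * S) ^ 2 / (4 * M * a ^ 2) := by positivity
    have h3 : (a ^ 2 * N - 4 * M * C * ρ * S) ^ 2 / (4 * M * a ^ 2) =
        a ^ 2 * N ^ 2 / (4 * M) + 4 * M * C ^ 2 / a ^ 2 * ρ ^ 2 * S ^ 2 - 2 * (C * ρ * S * N) := by
      field_simp
      ring
    rw [h3] at h2
    linarith
  have k5 : ρ * (4 * M * C ^ 2 / a ^ 2 + 1600 * M ^ 5) ≤ c4 := by
    rwa [le_div_iff₀ (by positivity)] at hρc
  have k6 : (4 * M * C ^ 2 / a ^ 2 * ρ ^ 2 + 1600 * M ^ 5 * ρ) * T ≤ c4 * T := by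
    apply mul_le_mul_of_nonneg_right _ hT0
    have h1 : 4 * M * C ^ 2 / a ^ 2 * ρ ^ 2 ≤ 4 * M * C ^ 2 / a ^ 2 * ρ := by
      apply mul_le_mul_of_nonneg_left _ (by positivity)
      nlinarith
    linarith
  have k7 : a ^ 2 * X + 1600 * M ^ 5 * ρ * T ≤ β * D + c4 * T := by
    have h1 : a ^ 2 * X / (2 * M) = a ^ 2 * X / (4 * M) + a ^ 2 * X / (4 * M) := by
      field_simp; ring
    rw [k2] at k1
    linarith
  have k8 : ρ * (a ^ 2 * X + 1600 * M ^ 5 * ρ * T) ≤ ρ * (β * D + c4 * T) :=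
    mul_le_mul_of_nonneg_left k7 hρ
  have hc' : 2 * ∑ j, sg ρ (dev u f j) (fun x => cellF j (xi u x)) ≤
      -(β * ρ * D) - c4 * ρ * T := hcross
  linarith

end Pool.H65.PT
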