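import Pool.Agent.Helper65.PT.Defs
import Pool.Agent.Helper65.PT.Sqr
import Pool.Agent.Helper65.PT.Pmo

set_option autoImplicit false

open MeasureTheory ProbabilityTheory Pool.H65.PS

namespace Pool.H65.PT

theorem polar (m : ℕ) (hm : 2 ≤ m) : ∃ C r0 : ℝ, 0 ≤ C ∧ 0 < r0 ∧ ∀ (κ : Type) [Fintype κ]
    (z : Fin m → κ → ℝ), (∀ i, ∑ j, z j i = 0) → ∀ r : ℝ, r ≤ r0 →
    (∀ j k : Fin m, |∑ i, z j i * z k i
      - am m ^ 2 * ((if j = k then 1 else 0) - 1 / (m : ℝ))| ≤ r) →
    ∃ (u : Fin m → κ ⊕ Unit → ℝ) (H : Fin m → Fin m → ℝ), Frame u ∧ HS H ∧ fs H ≤ (C * r) ^ 2 ∧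
      (∀ j i, z j i = am m * ∑ k, ((if j = k then 1 else 0) + H j k - 1 / (m : ℝ)) * u k (Sum.inl i)) ∧
      (∀ j, 0 = am m * ∑ k, ((if j = k then 1 else 0) + H j k - 1 / (m : ℝ)) * u k (Sum.inr ())) := by
  classical
  have ha : 0 < am m := am_pos hm
  set a : ℝ := am m with hadef
  have hm0 : (0 : ℝ) < m := by
    have : 0 < m := by omega
    exact_mod_cast this
  have ha2 : 0 < a ^ 2 := by positivity
  refine ⟨m / a ^ 2, a ^ 2 / (2 * m), by positivity, by positivity, ?_⟩
  intro κ _ z hz r hr hK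
  have hr0 : 0 ≤ r := by
    have := hK ⟨0, by omega⟩ ⟨0, by omega⟩
    exact le_trans (abs_nonneg _) this
  -- the Gram matrix
  obtain ⟨A, hAdef⟩ : ∃ A : Matrix (Fin m) (Fin m) ℝ, ∀ j k, A j k =
      (a ^ 2)⁻¹ * (∑ i, z j i * z k i) + 1 / (m : ℝ) := ⟨fun j k => _, fun j k => rfl⟩
  have hAsymm : A.IsSymm := by
    ext j k
    rw [Matrix.transpose_apply, hAdef, hAdef]
    congr 2
    exact Finset.sum_congr rfl fun i _ => mul_comm (z k i) (z j i)
  have hA1e : ∀ j k, (A - 1) j k = (a ^ 2)⁻¹ * (∑ i, z j i * z k i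
      - a ^ 2 * ((if j = k then 1 else 0) - 1 / (m : ℝ))) := by
    intro j k
    rw [Matrix.sub_apply, hAdef, Matrix.one_apply, mul_sub, inv_mul_cancel_left₀ ha2.ne']
    ring
  have hAb : ∀ j k, (A - 1) j k ^ 2 ≤ (r / a ^ 2) ^ 2 := by
    intro j k
    rw [hA1e, mul_pow, div_eq_inv_mul r, mul_pow ((a ^ 2)⁻¹) r]
    apply mul_le_mul_of_nonneg_left _ (by positivity)
    rw [← sq_abs]
    exact pow_le_pow_left₀ (abs_nonneg _) (hK j k) 2
  have hfsA : fs (fun j k => (A - 1) j k) ≤ (m / a ^ 2 * r) ^ 2 := by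
    calc fs (fun j k => (A - 1) j k) ≤ ∑ j : Fin m, ∑ k : Fin m, (r / a ^ 2) ^ 2 :=
          Finset.sum_le_sum fun j _ => Finset.sum_le_sum fun k _ => hAb j k
      _ = (m / a ^ 2 * r) ^ 2 := by
          simp only [Finset.sum_const, Finset.card_univ, Fintype.card_fin, nsmul_eq_mul]
          field_simp
  have hN : fs (fun j k => (A - 1) j k) ≤ 1 / 4 := by
    refine le_trans hfsA ?_
    have h1 : m / a ^ 2 * r ≤ 1 / 2 := by
      calc m / a ^ 2 * r ≤ m / a ^ 2 * (a ^ 2 / (2 * m)) :=
            mul_le_mul_of_nonneg_left hr (by positivity)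
        _ = 1 / 2 := by field_simp
    have h0 : 0 ≤ m / a ^ 2 * r := by positivity
    nlinarith
  obtain ⟨R, B, hRs, hRR, hBR, hRB, hBs, hR1, -, hRv⟩ := exists_sqrt m A hAsymm hN
  have hAv : A.mulVec (fun _ => 1) = (fun _ => 1) := by
    ext j
    simp only [Matrix.mulVec, dotProduct, mul_one, hAdef, Finset.sum_add_distrib, Finset.sum_const,
      Finset.card_univ, Fintype.card_fin, nsmul_eq_mul]
    rw [← Finset.mul_sum, Finset.sum_comm]
    have h0 : ∑ i, ∑ k, z j i * z k i = 0 := by
      refine Finset.sum_eq_zero fun i _ => ?_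
      rw [← Finset.mul_sum, hz i, mul_zero]
    rw [h0]
    field_simp
    ring
  have hRv1 := hRv hAv
  have hRrow : ∀ j, ∑ k, R j k = 1 := by
    intro j
    have := congrFun hRv1 j
    simpa [Matrix.mulVec, dotProduct] using this
  have hBv : B.mulVec (fun _ => 1) = (fun _ => 1) := by
    calc B.mulVec (fun _ => 1) = B.mulVec (R.mulVec (fun _ => 1)) := by rw [hRv1]
      _ = _ := by rw [Matrix.mulVec_mulVec, hBR, Matrix.one_mulVec]
  have hBrow : ∀ j, ∑ k, B j k = 1 := by
    intro j
    have := congrFun hBv j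
    simpa [Matrix.mulVec, dotProduct] using this
  have hBsym : ∀ j k, B j k = B k j := fun j k => by
    have := congrFun (congrFun hBs k) j
    simpa [Matrix.transpose_apply] using this
  have hRsym : ∀ j k, R j k = R k j := fun j k => by
    have := congrFun (congrFun hRs k) j
    simpa [Matrix.transpose_apply] using this
  -- the vectors
  set sm : ℝ := Real.sqrt m with hsm
  have hsm0 : 0 < sm := Real.sqrt_pos.2 hm0
  have hsm2 : sm * sm = m := Real.mul_self_sqrt hm0.le
  set y : Fin m → κ ⊕ Unit → ℝ := fun j => Sum.elim (fun i => a⁻¹ * z j i) (fun _ => sm⁻¹) with hy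
  set u : Fin m → κ ⊕ Unit → ℝ := fun j x => ∑ k, B j k * y k x with hu
  have hGram : ∀ j k, ∑ x, y j x * y k x = A j k := by
    intro j k
    simp only [hy, Fintype.sum_sum_type, Sum.elim_inl, Sum.elim_inr, Finset.univ_unique,
      Finset.sum_const, Finset.card_singleton, one_smul, hAdef, Finset.mul_sum]
    congr 1
    · refine Finset.sum_congr rfl fun i _ => ?_
      field_simp
    · rw [← mul_inv, hsm2, one_div]
  have hRu : ∀ j x, ∑ k, R j k * u k x = y j x := by
    intro j x
    simp only [hu, Finset.mul_sum]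
    rw [Finset.sum_comm]
    have : ∀ l, ∑ k, R j k * (B k l * y l x) = (R * B) j l * y l x := by
      intro l
      rw [Matrix.mul_apply, Finset.sum_mul]
      exact Finset.sum_congr rfl fun k _ => by ring
    rw [Finset.sum_congr rfl fun l _ => this l, hRB]
    simp [Matrix.one_apply]
  have hsumu : ∀ x, ∑ k, u k x = ∑ k, y k x := by
    intro x
    simp only [hu]
    rw [Finset.sum_comm]
    refine Finset.sum_congr rfl fun l _ => ?_
    rw [← Finset.sum_mul]
    have : ∑ k, B k l = 1 := by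
      rw [← hBrow l]
      exact Finset.sum_congr rfl fun k _ => hBsym k l
    rw [this, one_mul]
  have hcomb : ∀ j x, ∑ k, ((if j = k then 1 else 0) + (R j k - if j = k then 1 else 0)
      - 1 / (m : ℝ)) * u k x = y j x - 1 / (m : ℝ) * ∑ k, y k x := by
    intro j x
    rw [← hRu j x, ← hsumu x, Finset.mul_sum, ← Finset.sum_sub_distrib]
    exact Finset.sum_congr rfl fun k _ => by ring
  refine ⟨u, fun j k => R j k - if j = k then 1 else 0, ?_, ?_, ?_, ?_, ?_⟩
  · -- frame
    intro j k
    have h1 : dot (u j) (u k) = (B * A * B.transpose) j k := by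
      simp only [dot, hu, Matrix.mul_apply, Matrix.transpose_apply]
      simp only [← hGram, Finset.sum_mul, Finset.mul_sum]
      rw [Finset.sum_comm]
      refine Finset.sum_congr rfl fun l _ => ?_
      rw [Finset.sum_comm]
      refine Finset.sum_congr rfl fun l' _ => ?_
      refine Finset.sum_congr rfl fun x _ => by ring
    rw [h1]
    have h2 : B * A * B.transpose = 1 := by
      have : B.transpose = B := hBs
      rw [this, ← hRR, Matrix.mul_assoc, Matrix.mul_assoc, hRB, Matrix.mul_one, hBR]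
    rw [h2, Matrix.one_apply]
  · constructor
    · intro j k
      rw [hRsym j k]
      congr 1
      simp only [eq_comm]
    · intro j
      rw [Finset.sum_sub_distrib, hRrow j]
      simp
  · have h1 : fs (fun j k => R j k - if j = k then 1 else 0) = fs (fun j k => (R - 1) j k) := by
      simp only [fs, Matrix.sub_apply, Matrix.one_apply]
    rw [h1]
    exact le_trans hR1 hfsA
  · intro j i
    rw [hcomb]
    simp only [hy, Sum.elim_inl]
    rw [← Finset.mul_sum, hz i]
    field_simp
    ring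
  · intro j
    rw [hcomb]
    simp only [hy, Sum.elim_inr, Finset.sum_const, Finset.card_univ, Fintype.card_fin, nsmul_eq_mul]
    field_simp
    ring

end Pool.H65.PT
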