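import Pool.Agent.Helper65.PT.Defs
import Pool.Agent.Helper65.PT.Gcc
import Pool.Agent.Helper65.PT.Cas
import Pool.Agent.Helper65.PT.Pol
import Pool.Agent.Helper65.PT.Law
import Pool.Agent.Helper65.PT.Oub
import Pool.Agent.Helper65.PT.Oul
import Pool.Agent.Helper65.PT.Pmo
import Pool.Agent.Helper65.PS.Exl
import Pool.Agent.Helper65.PS.Emx

set_option autoImplicit false

open MeasureTheory ProbabilityTheory Pool.H65.PS

namespace Pool.H65.PT

theorem Ggg_lin_diag {κ : Type} [Fintype κ] [DecidableEq κ] (s : κ → ℝ) :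
    lin (fun i j : κ => if i = j then s i else 0) = fun (x : κ → ℝ) (j : κ) => s j * x j := by
  funext x j
  simp only [lin, Finset.sum_apply, Pi.smul_apply, smul_eq_mul]
  rw [Finset.sum_eq_single j]
  · simp [mul_comm]
  · intro b _ hb
    simp [hb]
  · intro h
    exact absurd (Finset.mem_univ j) h

theorem Ggg_flip {κ : Type} [Fintype κ] (s : κ → ℝ) (hs : ∀ i, s i * s i = 1) :
    (gam κ).map (fun (x : κ → ℝ) (j : κ) => s j * x j) = gam κ := by
  classical
  have h := map_lin_eq (fun i j : κ => if i = j then s i else 0)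
    (fun i j : κ => if i = j then (1 : ℝ) else 0) (by
      intro j k
      refine Finset.sum_congr rfl fun i _ => ?_
      by_cases h1 : i = j
      · by_cases h2 : i = k
        · subst h1
          subst h2
          simp [hs i]
        · simp [h2]
      · simp [h1])
  rw [Ggg_lin_diag, Ggg_lin_diag (fun _ => (1 : ℝ))] at h
  rw [h]
  simp only [one_mul]
  exact Measure.map_id'

theorem Ggg_bm {κ : Type} [Fintype κ] {m : ℕ} {f : (κ → ℝ) → Fin m → ℝ} (hf : Pt f) (j : Fin m) :
    Bm (fun x => f x j) := by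
  refine ⟨hf.meas j, 1, fun x => ?_⟩
  have h := hf.simp x
  have h0 : 0 ≤ f x j := h.1 j
  have h1 : f x j ≤ 1 := by
    rw [← h.2]
    exact Finset.single_le_sum (f := fun k => f x k) (fun k _ => h.1 k) (Finset.mem_univ j)
  rw [abs_of_nonneg h0]
  exact h1

theorem Ggg_int {κ : Type} [Fintype κ] {h : (κ → ℝ) → ℝ} (hh : Bm h) (i : κ) :
    Integrable (fun x => h x * x i) (gam κ) := by
  obtain ⟨B, hB⟩ := hh.bdd
  exact (emx_int_coord i).bdd_mul hh.meas.aestronglyMeasurable (Filter.Eventually.of_forall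
    fun x => by rw [Real.norm_eq_abs]; exact hB x)

theorem Ggg_sum_mo {κ : Type} [Fintype κ] {m : ℕ} {f : (κ → ℝ) → Fin m → ℝ} (hf : Pt f) (i : κ) :
    ∑ j, mo (fun x => f x j) i = 0 := by
  simp only [mo]
  rw [← integral_finsetSum _ fun j _ => Ggg_int (Ggg_bm hf j) i]
  rw [← emx_mean_coord i]
  refine integral_congr_ae (Filter.Eventually.of_forall fun x => ?_)
  simp only []
  rw [← Finset.sum_mul, (hf.simp x).2, one_mul]

theorem Ggg_row (m : ℕ) (hm : 2 ≤ m) (j : Fin m) :
    ∑ i : Fin m, ((if j = i then (1 : ℝ) else 0) - 1 / (m : ℝ)) ^ 2 = 1 - 1 / (m : ℝ) := by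
  have hm0 : (m : ℝ) ≠ 0 := by
    have : 0 < m := by omega
    positivity
  have h1 : ∀ i : Fin m, ((if j = i then (1 : ℝ) else 0) - 1 / (m : ℝ)) ^ 2
      = (if j = i then (1 : ℝ) - 2 / m else 0) + 1 / (m : ℝ) ^ 2 := by
    intro i
    by_cases h : j = i
    · simp only [h, if_true]; field_simp; ring
    · simp only [h, if_false]; field_simp; ring
  rw [Finset.sum_congr rfl fun i _ => h1 i, Finset.sum_add_distrib]
  simp only [Finset.sum_ite_eq, Finset.mem_univ, if_true, Finset.sum_const, Finset.card_univ,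
    Fintype.card_fin, nsmul_eq_mul]
  field_simp
  ring

theorem Ggg_Lam_lower (m : ℕ) (hm : 2 ≤ m) (ρ : ℝ) (h0 : 0 ≤ ρ) (h1 : ρ ≤ 1 / 4) :
    1 / (m : ℝ) + ρ * (am m ^ 2 * ((m : ℝ) - 1)) ≤ Lam m ρ := by
  have hm0 : (m : ℝ) ≠ 0 := by
    have : 0 < m := by omega
    positivity
  have hb : ∀ j : Fin m, Bm (cellF j) := fun j => ⟨cellF_measurable j, 1, fun x => by
    rw [abs_of_nonneg (cellF_nonneg j x)]; exact cellF_le_one j x⟩
  have h2 : ∀ j : Fin m, (1 / (m : ℝ)) ^ 2 + ρ * (am m ^ 2 * (1 - 1 / (m : ℝ)))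
      ≤ sg ρ (cellF j) (cellF j) := by
    intro j
    have h := sg_lower (hb j) ρ h0 h1
    rw [cellF_mean (by omega) j] at h
    have h3 : ∑ i, mo (cellF j) i ^ 2 = am m ^ 2 * (1 - 1 / (m : ℝ)) := by
      rw [← Ggg_row m hm j, Finset.mul_sum]
      refine Finset.sum_congr rfl fun i _ => ?_
      simp only [mo]
      rw [cellF_moment hm j i, mul_pow]
    rw [h3] at h
    exact h
  calc 1 / (m : ℝ) + ρ * (am m ^ 2 * ((m : ℝ) - 1))
      = ∑ j : Fin m, ((1 / (m : ℝ)) ^ 2 + ρ * (am m ^ 2 * (1 - 1 / (m : ℝ)))) := by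
        simp only [Finset.sum_const, Finset.card_univ, Fintype.card_fin, nsmul_eq_mul]
        field_simp
    _ ≤ _ := Finset.sum_le_sum fun j _ => h2 j

theorem gauss_small (m : ℕ) (hm : 2 ≤ m) : ∃ ρ0 : ℝ, 0 < ρ0 ∧ ρ0 ≤ 1 / 4 ∧
    ∀ (ρ : ℝ), 0 ≤ ρ → ρ ≤ ρ0 → ∀ (κ : Type) [Fintype κ] (f : (κ → ℝ) → Fin m → ℝ), Pt f → Bal f →
    ∑ j, sg ρ (fun x => f x j) (fun x => f x j) ≤ Lam m ρ := by
  classical
  have hm0 : (0 : ℝ) < m := by
    have : 0 < m := by omega
    exact_mod_cast this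
  obtain ⟨rB, ρB, hrB, hρB, hρB4, hB⟩ := case_B m hm
  obtain ⟨C, rP, hC, hrP, hP⟩ := polar m hm
  set r : ℝ := min rP (rB / (C + 1)) with hrdef
  have hr : 0 < r := lt_min hrP (by positivity)
  obtain ⟨cA, hcA, hA⟩ := near_opt m hm r hr
  refine ⟨min ρB (cA / 8), lt_min hρB (by positivity), le_trans (min_le_left _ _) hρB4, ?_⟩
  intro ρ hρ0 hρ1 κ _ f hf hbal
  have hρB1 : ρ ≤ ρB := le_trans hρ1 (min_le_left _ _)
  have hρc : ρ ≤ cA / 8 := le_trans hρ1 (min_le_right _ _)
  have hρ4 : ρ ≤ 1 / 4 := le_trans hρB1 hρB4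
  by_cases hw : am m ^ 2 * ((m : ℝ) - 1) - cA ≤ ∑ j, ∑ i, mo (fun x => f x j) i ^ 2
  · -- near optimal: polar decomposition and case B
    have hK := hA κ f hf hbal hw
    obtain ⟨u, H, hFr, hHS, hfs, hz1, hz2⟩ := hP κ (fun j i => mo (fun x => f x j) i)
      (fun i => Ggg_sum_mo hf i) r (min_le_left _ _) hK
    set f' : (κ ⊕ Unit → ℝ) → Fin m → ℝ := fun x => f (fun i => x (Sum.inl i)) with hf'
    have hmeas : Measurable (fun (x : κ ⊕ Unit → ℝ) (i : κ) => x (Sum.inl i)) :=
      measurable_pi_lambda _ fun i => measurable_pi_apply _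
    have hPt' : Pt f' := ⟨fun j => (hf.meas j).comp hmeas, fun x => hf.simp _⟩
    have hmp := measurePreserving_inl (κ := κ)
    have hint : ∀ G : (κ → ℝ) → ℝ, Measurable G →
        ∫ x : κ ⊕ Unit → ℝ, G (fun i => x (Sum.inl i)) ∂(gam (κ ⊕ Unit)) = ∫ y, G y ∂(gam κ) := by
      intro G hG
      rw [← hmp.map_eq, integral_map hmp.aemeasurable hG.aestronglyMeasurable]
    have hBal' : Bal f' := by
      intro j
      have := hint (fun x => f x j) (hf.meas j)
      rw [← hbal j, ← this]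
    have hmo1 : ∀ j i, mo (fun x => f' x j) (Sum.inl i) = mo (fun x => f x j) i := by
      intro j i
      exact hint (fun x => f x j * x i) ((hf.meas j).mul (measurable_pi_apply i))
    have hmo2 : ∀ j, mo (fun x => f' x j) (Sum.inr ()) = 0 := by
      intro j
      have hfl := Ggg_flip (κ := κ ⊕ Unit) (Sum.elim (fun _ => 1) (fun _ => -1)) (by
        rintro (i | i) <;> simp)
      have h1 : ∫ x, f' x j * x (Sum.inr ()) ∂(gam (κ ⊕ Unit))
          = ∫ x, -(f' x j * x (Sum.inr ())) ∂(gam (κ ⊕ Unit)) := by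
        have hm2 : Measurable (fun (x : κ ⊕ Unit → ℝ) (k : κ ⊕ Unit) =>
            (Sum.elim (fun _ => (1 : ℝ)) (fun _ => (-1 : ℝ)) k : ℝ) * x k) :=
          measurable_pi_lambda _ fun k => (measurable_pi_apply k).const_mul _
        have hmG : Measurable (fun x : κ ⊕ Unit → ℝ => f' x j * x (Sum.inr ())) :=
          (hPt'.meas j).mul (measurable_pi_apply _)
        have h0 := integral_map (μ := gam (κ ⊕ Unit)) hm2.aemeasurable
          (f := fun x : κ ⊕ Unit → ℝ => f' x j * x (Sum.inr ())) hmG.aestronglyMeasurable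
        rw [hfl] at h0
        rw [h0]
        refine integral_congr_ae (Filter.Eventually.of_forall fun x => ?_)
        simp only [hf', Sum.elim_inl, Sum.elim_inr, one_mul]
        ring
      rw [integral_neg] at h1
      simp only [mo]
      linarith
    have hmain := hB ρ hρ0 hρB1 (κ ⊕ Unit) f' hPt' hBal' u hFr H hHS ?_ ?_
    · refine le_trans (le_of_eq ?_) hmain
      refine Finset.sum_congr rfl fun j _ => ?_
      exact (sg_inl ρ (fun x => f x j) (fun x => f x j) (hf.meas j) (hf.meas j)).symm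
    · refine le_trans hfs ?_
      apply pow_le_pow_left₀ (by positivity)
      calc C * r ≤ (C + 1) * (rB / (C + 1)) := by
            apply mul_le_mul (by linarith) (min_le_right _ _) hr.le (by positivity)
        _ = rB := by field_simp
    · rintro j (i | i)
      · rw [hmo1]
        exact hz1 j i
      · rw [show i = () from rfl, hmo2]
        exact hz2 j
  · -- far from optimal
    push Not at hw
    have hbm : ∀ j, Bm (fun x => f x j) := fun j => Ggg_bm hf j
    have h1 : ∀ j, sg ρ (fun x => f x j) (fun x => f x j)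
        ≤ (1 / (m : ℝ)) ^ 2 + ρ * ∑ i, mo (fun x => f x j) i ^ 2
          + 8 * ρ ^ 2 * sg (1 / 2) (fun x => f x j) (fun x => f x j) := by
      intro j
      have := sg_level2 (hbm j) ρ hρ0 hρ4
      rw [hbal j] at this
      exact this
    have h2 : ∀ j, sg (1 / 2) (fun x => f x j) (fun x => f x j) ≤ ∫ x, f x j ∂(gam κ) := by
      intro j
      refine le_trans (sg_mono (hbm j) (1 / 2) 1 (by norm_num) (by norm_num) le_rfl) ?_
      rw [sg_one (hbm j) (hbm j)]
      have hi : Integrable (fun x => f x j) (gam κ) := by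
        obtain ⟨B, hB'⟩ := (hbm j).bdd
        exact Integrable.of_bound (hf.meas j).aestronglyMeasurable B
          (Filter.Eventually.of_forall fun x => by rw [Real.norm_eq_abs]; exact hB' x)
      have hb : ∀ x, 0 ≤ f x j ∧ f x j ≤ 1 := by
        intro x
        refine ⟨(hf.simp x).1 j, ?_⟩
        rw [← (hf.simp x).2]
        exact Finset.single_le_sum (f := fun k => f x k) (fun k _ => (hf.simp x).1 k)
          (Finset.mem_univ j)
      have hi2 : Integrable (fun x => f x j * f x j) (gam κ) := by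
        refine Integrable.of_bound ((hf.meas j).mul (hf.meas j)).aestronglyMeasurable 1
          (Filter.Eventually.of_forall fun x => ?_)
        rw [Real.norm_eq_abs, abs_of_nonneg (mul_nonneg (hb x).1 (hb x).1)]
        nlinarith [(hb x).1, (hb x).2]
      refine integral_mono hi2 hi fun x => ?_
      simp only []
      nlinarith [(hb x).1, (hb x).2]
    have h3 : ∑ j, sg (1 / 2) (fun x => f x j) (fun x => f x j) ≤ 1 := by
      refine le_trans (Finset.sum_le_sum fun j _ => h2 j) (le_of_eq ?_)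
      rw [Finset.sum_congr rfl fun j _ => hbal j]
      simp only [Finset.sum_const, Finset.card_univ, Fintype.card_fin, nsmul_eq_mul]
      field_simp
    have h4 : ∑ j, sg ρ (fun x => f x j) (fun x => f x j)
        ≤ 1 / (m : ℝ) + ρ * ∑ j, ∑ i, mo (fun x => f x j) i ^ 2
          + 8 * ρ ^ 2 * ∑ j, sg (1 / 2) (fun x => f x j) (fun x => f x j) := by
      refine le_trans (Finset.sum_le_sum fun j _ => h1 j) (le_of_eq ?_)
      rw [Finset.sum_add_distrib, Finset.sum_add_distrib, ← Finset.mul_sum, ← Finset.mul_sum]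
      congr 2
      simp only [Finset.sum_const, Finset.card_univ, Fintype.card_fin, nsmul_eq_mul]
      field_simp
    have h5 := Ggg_Lam_lower m hm ρ hρ0 hρ4
    have h6 : ρ * ∑ j, ∑ i, mo (fun x => f x j) i ^ 2 ≤ ρ * (am m ^ 2 * ((m : ℝ) - 1) - cA) :=
      mul_le_mul_of_nonneg_left hw.le hρ0
    have h7 : 8 * ρ ^ 2 * ∑ j, sg (1 / 2) (fun x => f x j) (fun x => f x j) ≤ ρ * cA := by
      calc 8 * ρ ^ 2 * ∑ j, sg (1 / 2) (fun x => f x j) (fun x => f x j) ≤ 8 * ρ ^ 2 * 1 :=
            mul_le_mul_of_nonneg_left h3 (by positivity)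
        _ = ρ * (8 * ρ) := by ring
        _ ≤ ρ * cA := mul_le_mul_of_nonneg_left (by linarith) hρ0
    linarith

end Pool.H65.PT
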