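import Pool.Agent.Helper65.PT.Ggg
import Pool.Agent.Helper65.PT.Pmo
import Pool.Agent.Helper65.PT.Law

/-! Partitions into sets: the Gaussian theorem in the form of MP_119458_pr. -/

set_option autoImplicit false

open MeasureTheory ProbabilityTheory Pool.H65.PS

namespace Pool.H65.PT

section ssc

variable {n q : ℕ}

/-- indicator functions of a family of sets. -/
noncomputable def sscF (A : Fin q → Set (Fin n → ℝ)) (x : Fin n → ℝ) (j : Fin q) : ℝ :=
  Set.indicator (A j) (fun _ => (1 : ℝ)) x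

theorem sscF_meas {A : Fin q → Set (Fin n → ℝ)} (hA : ∀ i, MeasurableSet (A i)) (j : Fin q) :
    Measurable (fun x => sscF A x j) := by
  unfold sscF
  exact measurable_const.indicator (hA j)

theorem sscF_Pt {A : Fin q → Set (Fin n → ℝ)} (hA : ∀ i, MeasurableSet (A i))
    (hp : ∀ x : Fin n → ℝ, ∃! i, x ∈ A i) : Pt (sscF A) := by
  classical
  refine ⟨sscF_meas hA, fun x => ⟨fun j => ?_, ?_⟩⟩
  · unfold sscF
    exact Set.indicator_nonneg (fun _ _ => zero_le_one) _
  · obtain ⟨i, hi, hu⟩ := hp x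
    rw [Finset.sum_eq_single i]
    · unfold sscF
      rw [Set.indicator_of_mem hi]
    · intro j _ hj
      unfold sscF
      rw [Set.indicator_of_notMem]
      intro h
      exact hj (hu j h)
    · intro h
      exact absurd (Finset.mem_univ i) h

theorem sscF_Bal {A : Fin q → Set (Fin n → ℝ)} (hA : ∀ i, MeasurableSet (A i))
    (hb : ∀ i, gam (Fin n) (A i) = (q : ENNReal)⁻¹) : Bal (sscF A) := by
  intro j
  unfold sscF
  rw [integral_indicator_const (1 : ℝ) (hA j)]
  simp [Measure.real, hb j]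

/-- the noise stability of a family of sets, as a real number. -/
theorem ssc_sg {A : Fin q → Set (Fin n → ℝ)} (hA : ∀ i, MeasurableSet (A i)) (ρ : ℝ) (j : Fin q) :
    ENNReal.ofReal (sg ρ (fun x => sscF A x j) (fun x => sscF A x j))
      = ((gam (Fin n)).prod (gam (Fin n))) {p : (Fin n → ℝ) × (Fin n → ℝ) |
                p.1 ∈ A j ∧ ρ • p.1 + Real.sqrt (1 - ρ ^ 2) • p.2 ∈ A j} := by
  have hm : MeasurableSet {p : (Fin n → ℝ) × (Fin n → ℝ) |
                p.1 ∈ A j ∧ ρ • p.1 + Real.sqrt (1 - ρ ^ 2) • p.2 ∈ A j} := by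
    refine (measurable_fst (hA j)).inter ?_
    have : Measurable (fun p : (Fin n → ℝ) × (Fin n → ℝ) =>
      ρ • p.1 + Real.sqrt (1 - ρ ^ 2) • p.2) := by fun_prop
    exact this (hA j)
  have h1 : sg ρ (fun x => sscF A x j) (fun x => sscF A x j)
      = ∫ p, Set.indicator {p : (Fin n → ℝ) × (Fin n → ℝ) |
                p.1 ∈ A j ∧ ρ • p.1 + Real.sqrt (1 - ρ ^ 2) • p.2 ∈ A j} (fun _ => (1 : ℝ)) p
          ∂((gam (Fin n)).prod (gam (Fin n))) := by
    unfold sg sscF
    refine integral_congr_ae (Filter.Eventually.of_forall fun p => ?_)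
    by_cases h1 : p.1 ∈ A j
    · by_cases h2 : ρ • p.1 + Real.sqrt (1 - ρ ^ 2) • p.2 ∈ A j
      · simp [Set.indicator, h1, h2]
      · simp [Set.indicator, h1, h2]
    · simp [Set.indicator, h1]
  rw [h1, integral_indicator_const (1 : ℝ) hm, smul_eq_mul, mul_one, Measure.real,
    ENNReal.ofReal_toReal (measure_ne_top _ _)]

/-- scalar products with the vectors `a j`. -/
noncomputable def sscL (a : Fin q → Fin n → ℝ) (x : Fin n → ℝ) (j : Fin q) : ℝ :=
  ∑ k, a j k * x k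

/-- centred coordinates, scaled. -/
noncomputable def sscP (q : ℕ) (x : Fin q → ℝ) (j : Fin q) : ℝ :=
  Real.sqrt ((q : ℝ) / ((q : ℝ) - 1)) * (x j - (∑ l, x l) / q)

theorem sscL_eq (a : Fin q → Fin n → ℝ) : sscL a = lin (fun k j => a j k) := by
  funext x j
  simp only [sscL, lin, Finset.sum_apply, Pi.smul_apply, smul_eq_mul]
  exact Finset.sum_congr rfl fun k _ => mul_comm _ _

theorem sscP_eq (q : ℕ) : sscP q = lin (fun k j : Fin q =>
    Real.sqrt ((q : ℝ) / ((q : ℝ) - 1)) * ((if j = k then 1 else 0) - 1 / (q : ℝ))) := by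
  funext x j
  simp only [sscP, lin, Finset.sum_apply, Pi.smul_apply, smul_eq_mul]
  have : ∀ k : Fin q, x k * (Real.sqrt ((q : ℝ) / ((q : ℝ) - 1)) *
      ((if j = k then 1 else 0) - 1 / (q : ℝ)))
      = Real.sqrt ((q : ℝ) / ((q : ℝ) - 1)) * ((if j = k then x k else 0) - x k / q) := by
    intro k
    split_ifs <;> ring
  simp_rw [this]
  rw [← Finset.mul_sum, Finset.sum_sub_distrib, ← Finset.sum_div]
  simp

theorem ssc_map (hq : 2 ≤ q) (a : Fin q → Fin n → ℝ) (h1 : ∀ i, ∑ k, a i k * a i k = 1)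
    (h2 : ∀ i j, i ≠ j → ∑ k, a i k * a j k = -1 / ((q : ℝ) - 1)) :
    (gam (Fin n)).map (sscL a) = (gam (Fin q)).map (sscP q) := by
  rw [sscL_eq, sscP_eq]
  refine map_lin_eq _ _ fun j k => ?_
  have hqR : (2 : ℝ) ≤ q := by exact_mod_cast hq
  have hs : Real.sqrt ((q : ℝ) / ((q : ℝ) - 1)) * Real.sqrt ((q : ℝ) / ((q : ℝ) - 1))
      = (q : ℝ) / ((q : ℝ) - 1) := by
    rw [Real.mul_self_sqrt]
    exact div_nonneg (by linarith) (by linarith)
  have hR : ∑ i : Fin q, Real.sqrt ((q : ℝ) / ((q : ℝ) - 1)) *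
        ((if j = i then 1 else 0) - 1 / (q : ℝ)) *
        (Real.sqrt ((q : ℝ) / ((q : ℝ) - 1)) * ((if k = i then 1 else 0) - 1 / (q : ℝ)))
      = (q : ℝ) / ((q : ℝ) - 1) * ((if j = k then 1 else 0) - 1 / (q : ℝ)) := by
    have e : ∀ i : Fin q, Real.sqrt ((q : ℝ) / ((q : ℝ) - 1)) *
        ((if j = i then 1 else 0) - 1 / (q : ℝ)) *
        (Real.sqrt ((q : ℝ) / ((q : ℝ) - 1)) * ((if k = i then 1 else 0) - 1 / (q : ℝ)))
        = (q : ℝ) / ((q : ℝ) - 1) * (((if j = i then (if k = i then 1 else 0) else 0)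
          - (1 / (q : ℝ)) * (if j = i then 1 else 0)) - (1 / (q : ℝ)) * (if k = i then 1 else 0)
          + 1 / (q : ℝ) ^ 2) := by
      intro i
      generalize Real.sqrt ((q : ℝ) / ((q : ℝ) - 1)) = c at hs ⊢
      rw [← hs]
      split_ifs <;> ring
    simp_rw [e]
    rw [← Finset.mul_sum, Finset.sum_add_distrib, Finset.sum_sub_distrib, Finset.sum_sub_distrib,
      ← Finset.mul_sum, ← Finset.mul_sum]
    simp only [Finset.sum_ite_eq, Finset.mem_univ, if_true, Finset.sum_const, Finset.card_univ,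
      Fintype.card_fin, nsmul_eq_mul]
    have hq0 : (q : ℝ) ≠ 0 := by linarith
    have hq1 : (q : ℝ) - 1 ≠ 0 := by linarith
    congr 1
    by_cases hjk : j = k
    · subst hjk
      simp only [if_true]
      field_simp
      ring
    · rw [if_neg hjk, if_neg (Ne.symm hjk)]
      field_simp
      ring
  rw [hR]
  by_cases hjk : j = k
  · subst hjk
    rw [h1 j, if_pos rfl]
    have hq0 : (q : ℝ) ≠ 0 := by linarith
    have hq1 : (q : ℝ) - 1 ≠ 0 := by linarith
    field_simp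
  · rw [h2 j k hjk, if_neg hjk]
    have hq0 : (q : ℝ) ≠ 0 := by linarith
    have hq1 : (q : ℝ) - 1 ≠ 0 := by linarith
    field_simp
    ring

theorem sscP_cell (hq : 2 ≤ q) (j : Fin q) (x : Fin q → ℝ) : cellF j (sscP q x) = cellF j x := by
  unfold cellF sscP
  have hqR : (2 : ℝ) ≤ q := by exact_mod_cast hq
  have hc : 0 < Real.sqrt ((q : ℝ) / ((q : ℝ) - 1)) :=
    Real.sqrt_pos.mpr (div_pos (by linarith) (by linarith))
  congr 1
  rw [eq_iff_iff]
  refine forall_congr' fun l => imp_congr_right fun _ => ?_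
  rw [mul_lt_mul_iff_right₀ hc]
  constructor
  · intro h; linarith
  · intro h; linarith

theorem sscL_lin (a : Fin q → Fin n → ℝ) (s t : ℝ) (x y : Fin n → ℝ) :
    sscL a (s • x + t • y) = s • sscL a x + t • sscL a y := by
  funext j
  simp only [sscL, Pi.add_apply, Pi.smul_apply, smul_eq_mul]
  rw [Finset.mul_sum, Finset.mul_sum, ← Finset.sum_add_distrib]
  exact Finset.sum_congr rfl fun k _ => by ring

theorem sscP_lin (s t : ℝ) (x y : Fin q → ℝ) :
    sscP q (s • x + t • y) = s • sscP q x + t • sscP q y := by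
  rw [sscP_eq]
  unfold lin
  simp only [Pi.add_apply, Pi.smul_apply, smul_eq_mul, add_smul, mul_smul, Finset.sum_add_distrib,
    Finset.smul_sum]

theorem sscL_meas (a : Fin q → Fin n → ℝ) : Measurable (sscL a) := by
  refine measurable_pi_lambda _ fun j => ?_
  unfold sscL
  fun_prop

theorem sscP_meas (q : ℕ) : Measurable (sscP q) := by
  refine measurable_pi_lambda _ fun j => ?_
  unfold sscP
  fun_prop

theorem ssc_cell_sg (hq : 2 ≤ q) (a : Fin q → Fin n → ℝ) (h1 : ∀ i, ∑ k, a i k * a i k = 1)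
    (h2 : ∀ i j, i ≠ j → ∑ k, a i k * a j k = -1 / ((q : ℝ) - 1)) (ρ : ℝ) (j : Fin q) :
    sg ρ (fun x => cellF j (sscL a x)) (fun x => cellF j (sscL a x))
      = sg ρ (cellF j) (cellF j) := by
  set G : (Fin q → ℝ) × (Fin q → ℝ) → ℝ := fun p =>
    cellF j p.1 * cellF j (ρ • p.1 + Real.sqrt (1 - ρ ^ 2) • p.2) with hG
  have hGm : Measurable G := by
    have := cellF_measurable j
    refine (this.comp measurable_fst).mul (this.comp ?_)
    fun_prop
  have e1 : sg ρ (fun x => cellF j (sscL a x)) (fun x => cellF j (sscL a x))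
      = ∫ p, G (Prod.map (sscL a) (sscL a) p) ∂((gam (Fin n)).prod (gam (Fin n))) := by
    unfold sg
    refine integral_congr_ae (Filter.Eventually.of_forall fun p => ?_)
    simp only [hG, Prod.map_fst, Prod.map_snd, sscL_lin]
  have e2 : sg ρ (cellF j) (cellF j)
      = ∫ p, G (Prod.map (sscP q) (sscP q) p) ∂((gam (Fin q)).prod (gam (Fin q))) := by
    unfold sg
    refine integral_congr_ae (Filter.Eventually.of_forall fun p => ?_)
    simp only [hG, Prod.map_fst, Prod.map_snd, ← sscP_lin, sscP_cell hq]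
  have m1 := Measure.map_prod_map (gam (Fin n)) (gam (Fin n)) (sscL_meas a) (sscL_meas a)
  have m2 := Measure.map_prod_map (gam (Fin q)) (gam (Fin q)) (sscP_meas q) (sscP_meas q)
  rw [e1, e2, ← integral_map ((sscL_meas a).prodMap (sscL_meas a)).aemeasurable
    hGm.aestronglyMeasurable, ← integral_map ((sscP_meas q).prodMap (sscP_meas q)).aemeasurable
    hGm.aestronglyMeasurable, ← m1, ← m2, ssc_map hq a h1 h2]

theorem ssc_B_ae (hq : 2 ≤ q) (a : Fin q → Fin n → ℝ) (h1 : ∀ i, ∑ k, a i k * a i k = 1)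
    (h2 : ∀ i j, i ≠ j → ∑ k, a i k * a j k = -1 / ((q : ℝ) - 1))
    {B : Fin q → Set (Fin n → ℝ)} (hBp : ∀ x : Fin n → ℝ, ∃! i, x ∈ B i)
    (hB : ∀ i, {x : Fin n → ℝ | ∀ j, j ≠ i → ∑ k, a j k * x k < ∑ k, a i k * x k} ⊆ B i) :
    ∀ᵐ x ∂(gam (Fin n)), ∀ j, sscF B x j = cellF j (sscL a x) := by
  classical
  have hqR : (2 : ℝ) ≤ q := by exact_mod_cast hq
  have hc : 0 < Real.sqrt ((q : ℝ) / ((q : ℝ) - 1)) :=
    Real.sqrt_pos.mpr (div_pos (by linarith) (by linarith))
  -- the coordinates are a.e. distinct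
  have hP : ∀ᵐ u ∂((gam (Fin q)).map (sscP q)), Function.Injective u := by
    have hms : MeasurableSet {u : Fin q → ℝ | Function.Injective u} := by
      have : {u : Fin q → ℝ | Function.Injective u}
          = ⋂ i, ⋂ j, {u : Fin q → ℝ | u i = u j → i = j} := by
        ext u; simp [Function.Injective]
      rw [this]
      refine MeasurableSet.iInter fun i => MeasurableSet.iInter fun j => ?_
      by_cases h : i = j
      · simp [h]
      · simp only [h, imp_false]
        exact (measurableSet_eq_fun (measurable_pi_apply i) (measurable_pi_apply j)).compl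
    rw [ae_map_iff (sscP_meas q).aemeasurable hms]
    filter_upwards [Pmo_ae_inj (m := q)] with x hx
    intro i j hij
    apply hx
    simp only [sscP] at hij
    have := mul_left_cancel₀ hc.ne' hij
    linarith
  rw [← ssc_map hq a h1 h2] at hP
  have hL := ae_of_ae_map (sscL_meas a).aemeasurable hP
  filter_upwards [hL] with x hx
  -- the maximizing coordinate
  have : Nonempty (Fin q) := ⟨⟨0, by omega⟩⟩
  obtain ⟨k, hk⟩ := Finite.exists_max (sscL a x)
  have hk2 : ∀ l, l ≠ k → sscL a x l < sscL a x k := fun l hl =>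
    lt_of_le_of_ne (hk l) fun h => hl (hx h)
  have hkB : x ∈ B k := hB k hk2
  obtain ⟨i, _, hu⟩ := hBp x
  have hki : k = i := hu k hkB
  intro j
  unfold sscF cellF
  by_cases hj : j = k
  · subst hj
    rw [Set.indicator_of_mem hkB, if_pos hk2]
  · rw [Set.indicator_of_notMem, if_neg]
    · intro h
      exact lt_asymm (h k (Ne.symm hj)) (hk2 j hj)
    · intro h
      exact hj ((hu j h).trans hki.symm)

theorem ssc_B_sg (hq : 2 ≤ q) (a : Fin q → Fin n → ℝ) (h1 : ∀ i, ∑ k, a i k * a i k = 1)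
    (h2 : ∀ i j, i ≠ j → ∑ k, a i k * a j k = -1 / ((q : ℝ) - 1))
    {B : Fin q → Set (Fin n → ℝ)} (hBp : ∀ x : Fin n → ℝ, ∃! i, x ∈ B i)
    (hB : ∀ i, {x : Fin n → ℝ | ∀ j, j ≠ i → ∑ k, a j k * x k < ∑ k, a i k * x k} ⊆ B i)
    (ρ : ℝ) (hρ : |ρ| ≤ 1) (j : Fin q) :
    sg ρ (fun x => sscF B x j) (fun x => sscF B x j) = sg ρ (cellF j) (cellF j) := by
  rw [← ssc_cell_sg hq a h1 h2 ρ j]
  have hae := ssc_B_ae hq a h1 h2 hBp hB
  unfold sg
  refine integral_congr_ae ?_
  have i1 := (measurePreserving_fst (μ := gam (Fin n)) (ν := gam (Fin n))).quasiMeasurePreserving.ae hae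
  have i2 := (measurePreserving_mix (κ := Fin n) ρ hρ).quasiMeasurePreserving.ae hae
  filter_upwards [i1, i2] with p hp1 hp2
  rw [hp1 j, hp2 j]

/-- the Gaussian theorem for partitions into sets. -/
theorem ssc_small (q : ℕ) (hq : 2 ≤ q) : ∃ ρ0 : ℝ, 0 < ρ0 ∧ ρ0 ≤ 1 ∧
    ∀ n : ℕ, ∀ ρ : ℝ, 0 ≤ ρ → ρ ≤ ρ0 →
      ∀ (A B : Fin q → Set (Fin n → ℝ)) (a : Fin q → Fin n → ℝ),
        (∀ i, MeasurableSet (A i)) →
        (∀ x : Fin n → ℝ, ∃! i, x ∈ A i) →
        (∀ i, gam (Fin n) (A i) = (q : ENNReal)⁻¹) →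
        (∀ i, ∑ k, a i k * a i k = 1) →
        (∀ i j, i ≠ j → ∑ k, a i k * a j k = -1 / ((q : ℝ) - 1)) →
        (∀ i, MeasurableSet (B i)) →
        (∀ x : Fin n → ℝ, ∃! i, x ∈ B i) →
        (∀ i, {x : Fin n → ℝ | ∀ j, j ≠ i → ∑ k, a j k * x k < ∑ k, a i k * x k} ⊆ B i) →
        ∑ i, ((gam (Fin n)).prod (gam (Fin n)))
              {p : (Fin n → ℝ) × (Fin n → ℝ) |
                p.1 ∈ A i ∧ ρ • p.1 + Real.sqrt (1 - ρ ^ 2) • p.2 ∈ A i}
          ≤
        ∑ i, ((gam (Fin n)).prod (gam (Fin n)))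
              {p : (Fin n → ℝ) × (Fin n → ℝ) |
                p.1 ∈ B i ∧ ρ • p.1 + Real.sqrt (1 - ρ ^ 2) • p.2 ∈ B i} := by
  obtain ⟨ρ0, h0, h14, H⟩ := gauss_small q hq
  refine ⟨ρ0, h0, by linarith, ?_⟩
  intro n ρ hρ hρ0 A B a hAm hAp hAb h1 h2 hBm hBp hB
  have hmain := H ρ hρ hρ0 (Fin n) (sscF A) (sscF_Pt hAm hAp) (sscF_Bal hAm hAb)
  have hL : Lam q ρ = ∑ j, sg ρ (fun x => sscF B x j) (fun x => sscF B x j) := by
    unfold Lam
    refine Finset.sum_congr rfl fun j _ => ?_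
    rw [ssc_B_sg hq a h1 h2 hBp hB ρ (by rw [abs_of_nonneg hρ]; linarith)]
  rw [hL] at hmain
  have hnn : ∀ (C : Fin q → Set (Fin n → ℝ)) (j : Fin q),
      0 ≤ sg ρ (fun x => sscF C x j) (fun x => sscF C x j) := by
    intro C j
    unfold sg
    refine integral_nonneg fun p => mul_nonneg ?_ ?_
    · exact Set.indicator_nonneg (fun _ _ => zero_le_one) _
    · exact Set.indicator_nonneg (fun _ _ => zero_le_one) _
  simp_rw [← ssc_sg hAm ρ, ← ssc_sg hBm ρ]
  rw [← ENNReal.ofReal_sum_of_nonneg (fun j _ => hnn A j),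
    ← ENNReal.ofReal_sum_of_nonneg (fun j _ => hnn B j)]
  exact ENNReal.ofReal_le_ofReal hmain

end ssc

end Pool.H65.PT
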